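import Pool.Agent.Helper819.DC.Core2

set_option autoImplicit false

open PowerSeries IsLocalRing TensorProduct

universe u

namespace Pool.Agent.Helper819.DC


namespace CH1

theorem j10951_coeff {A : Type u} [CommRing A] {n : ℕ} (d : Fin n → A) (i : ℕ) :
    coeff i (∑ j : Fin n, C (d j) * X ^ (j : ℕ) : A⟦X⟧) = if h : i < n then d ⟨i, h⟩ else 0 := by
  rw [map_sum]
  simp only [coeff_C_mul, coeff_X_pow]
  split_ifs with h
  · rw [Finset.sum_eq_single ⟨i, h⟩]
    · simp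
    · intro j _ hj
      have : i ≠ (j : ℕ) := fun h' => hj (Fin.ext h'.symm)
      simp [this]
    · intro h'
      exact absurd (Finset.mem_univ _) h'
  · apply Finset.sum_eq_zero
    intro j _
    have : i ≠ (j : ℕ) := fun h' => h (h' ▸ j.isLt)
    simp [this]

theorem j10951_W1 {A : Type u} [CommRing A] [IsLocalRing A]
    [IsAdicComplete (maximalIdeal A) A] (a : A⟦X⟧) (n : ℕ)
    (hn : (a.map (residue A)).order = n) (w : A⟦X⟧) :
    ∃ (q : A⟦X⟧) (d : Fin n → A), w = a * q + ∑ j : Fin n, C (d j) * X ^ (j : ℕ) := by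
  have hne : a.map (residue A) ≠ 0 := by
    intro h
    rw [h, order_zero] at hn
    exact absurd hn (by simp)
  obtain ⟨q, r, hqr⟩ := PowerSeries.exists_isWeierstrassDivision w hne
  refine ⟨q, fun j => r.coeff j, ?_⟩
  have h1 := hqr.1
  have h2 : (a.map (Ideal.Quotient.mk (maximalIdeal A))).order.toNat = n := by
    have : (a.map (Ideal.Quotient.mk (maximalIdeal A))).order = n := hn
    rw [this]
    rfl
  rw [h2, Polynomial.degree_lt_iff_coeff_zero] at h1
  have h3 : (r : A⟦X⟧) = ∑ j : Fin n, C (r.coeff j) * X ^ (j : ℕ) := by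
    ext i
    rw [j10951_coeff, Polynomial.coeff_coe]
    split_ifs with h
    · rfl
    · exact h1 i (not_lt.1 h)
  rw [← h3]
  exact hqr.2

theorem j10951_W2 {A : Type u} [CommRing A] [IsLocalRing A]
    [IsAdicComplete (maximalIdeal A) A] (a : A⟦X⟧) (n : ℕ)
    (hn : (a.map (residue A)).order = n) (q : A⟦X⟧) (d : Fin n → A)
    (h : a * q + ∑ j : Fin n, C (d j) * X ^ (j : ℕ) = 0) : q = 0 ∧ ∀ j, d j = 0 := by
  have hne : a.map (residue A) ≠ 0 := by
    intro h
    rw [h, order_zero] at hn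
    exact absurd hn (by simp)
  have h2 : (a.map (Ideal.Quotient.mk (maximalIdeal A))).order.toNat = n := by
    have : (a.map (Ideal.Quotient.mk (maximalIdeal A))).order = n := hn
    rw [this]
    rfl
  set r : Polynomial A := trunc n (∑ j : Fin n, C (d j) * X ^ (j : ℕ) : A⟦X⟧) with hr
  have hrc : (r : A⟦X⟧) = ∑ j : Fin n, C (d j) * X ^ (j : ℕ) := by
    ext i
    rw [Polynomial.coeff_coe, hr, coeff_trunc]
    split_ifs with h3
    · rfl
    · rw [j10951_coeff, dif_neg h3]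
  have hdiv : IsWeierstrassDivision 0 a q r := by
    refine ⟨?_, ?_⟩
    · rw [h2]
      exact degree_trunc_lt _ _
    · rw [hrc]
      exact h.symm
  obtain ⟨h3, h4⟩ := PowerSeries.IsWeierstrassDivision.eq_zero hne hdiv
  refine ⟨h3, fun j => ?_⟩
  have h5 : coeff (j : ℕ) (r : A⟦X⟧) = 0 := by
    rw [h4]
    simp
  rw [hrc, j10951_coeff, dif_pos j.isLt] at h5
  exact h5

theorem j10951_J {A : Type u} [CommRing A] (m : Ideal A) (a : A⟦X⟧) (ha : coeff 0 a ∈ m) (g : A⟦X⟧) :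
    ∀ K i : ℕ, coeff i (a ^ K * g) ∈ m ^ (K - i) := by
  intro K
  induction K with
  | zero =>
    intro i
    rw [Nat.zero_sub, pow_zero, Ideal.one_eq_top]
    trivial
  | succ K ih =>
    intro i
    rw [pow_succ', mul_assoc, coeff_mul]
    apply Ideal.sum_mem
    rintro ⟨p, q⟩ hpq
    rw [Finset.HasAntidiagonal.mem_antidiagonal] at hpq
    have hpq' : p + q = i := hpq
    show coeff p a * coeff q (a ^ K * g) ∈ m ^ (K + 1 - i)
    rcases Nat.eq_zero_or_pos p with hp | hp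
    · subst hp
      have h1 : coeff 0 a * coeff q (a ^ K * g) ∈ m * m ^ (K - q) := Ideal.mul_mem_mul ha (ih q)
      rw [← pow_succ'] at h1
      exact Ideal.pow_le_pow_right (by omega) h1
    · exact Ideal.mul_mem_left _ _ (Ideal.pow_le_pow_right (by omega) (ih q))

theorem j10951_split {A : Type u} [CommRing A] (c : A⟦X⟧) :
    c = C (coeff 0 c) + X * PowerSeries.mk (fun k => coeff (k + 1) c) := by
  ext i
  rcases i with _ | i
  · simp
  · rw [map_add, coeff_succ_X_mul, coeff_mk, coeff_C, if_neg (Nat.succ_ne_zero i), zero_add]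

theorem j10951_rho {A : Type u} [CommRing A] (a : A⟦X⟧) (ρ : A⟦X⟧ →ₐ[A] A⟦X⟧) (hρ : ρ X = a) (c : A⟦X⟧) :
    ρ c = C (coeff 0 c) + a * ρ (PowerSeries.mk (fun k => coeff (k + 1) c)) := by
  have h1 : ρ (C (coeff 0 c)) = C (coeff 0 c) := ρ.commutes (coeff 0 c)
  conv_lhs => rw [j10951_split c]
  rw [map_add, map_mul, hρ, h1]

theorem j10951_zero {A : Type u} [CommRing A] [IsLocalRing A]
    [IsAdicComplete (maximalIdeal A) A] (a : A⟦X⟧) (n : ℕ)
    (hn : (a.map (residue A)).order = n) (ρ : A⟦X⟧ →ₐ[A] A⟦X⟧) (hρ : ρ X = a) :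
    ∀ (K : ℕ) (c : Fin n → A⟦X⟧), ∑ j, ρ (c j) * X ^ (j : ℕ) = 0 → ∀ j, coeff K (c j) = 0 := by
  intro K
  induction K with
  | zero =>
    intro c hc
    have h1 : a * (∑ j, ρ (PowerSeries.mk (fun k => coeff (k + 1) (c j))) * X ^ (j : ℕ)) +
        ∑ j : Fin n, C (coeff 0 (c j)) * X ^ (j : ℕ) = 0 := by
      rw [← hc, Finset.mul_sum, ← Finset.sum_add_distrib]
      apply Finset.sum_congr rfl
      intro j _
      rw [j10951_rho a ρ hρ (c j)]
      ring
    exact (j10951_W2 a n hn _ _ h1).2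
  | succ K ih =>
    intro c hc
    have h1 : a * (∑ j, ρ (PowerSeries.mk (fun k => coeff (k + 1) (c j))) * X ^ (j : ℕ)) +
        ∑ j : Fin n, C (coeff 0 (c j)) * X ^ (j : ℕ) = 0 := by
      rw [← hc, Finset.mul_sum, ← Finset.sum_add_distrib]
      apply Finset.sum_congr rfl
      intro j _
      rw [j10951_rho a ρ hρ (c j)]
      ring
    have h2 := ih _ (j10951_W2 a n hn _ _ h1).1
    intro j
    have h3 := h2 j
    rwa [coeff_mk] at h3

theorem j10951_exists {A : Type u} [CommRing A] [IsLocalRing A]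
    [IsAdicComplete (maximalIdeal A) A] (a : A⟦X⟧) (n : ℕ)
    (hn : (a.map (residue A)).order = n) (ρ : A⟦X⟧ →ₐ[A] A⟦X⟧) (hρ : ρ X = a)
    (ha : coeff 0 a ∈ maximalIdeal A) (w : A⟦X⟧) :
    ∃ c : Fin n → A⟦X⟧, w = ∑ j, ρ (c j) * X ^ (j : ℕ) := by
  choose q d hqd using j10951_W1 a n hn
  set Q : ℕ → A⟦X⟧ := fun k => q^[k] w with hQ
  have hQs : ∀ k, Q k = a * Q (k + 1) + ∑ j : Fin n, C (d (Q k) j) * X ^ (j : ℕ) := by
    intro k
    have h1 : Q (k + 1) = q (Q k) := by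
      simp only [hQ]
      rw [Function.iterate_succ_apply']
    rw [h1]
    exact hqd (Q k)
  set cc : ℕ → Fin n → A⟦X⟧ := fun K j => PowerSeries.mk (fun k => d (Q (k + K)) j) with hcc
  set E : ℕ → A⟦X⟧ := fun K => Q K - ∑ j, ρ (cc K j) * X ^ (j : ℕ) with hE
  have hEs : ∀ K, E K = a * E (K + 1) := by
    intro K
    simp only [hE]
    have h1 : ∀ j, ρ (cc K j) = C (d (Q K) j) + a * ρ (cc (K + 1) j) := by
      intro j
      rw [j10951_rho a ρ hρ (cc K j)]
      have e1 : coeff 0 (cc K j) = d (Q K) j := by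
        simp only [hcc]
        rw [coeff_mk, zero_add]
      have e2 : PowerSeries.mk (fun k => coeff (k + 1) (cc K j)) = cc (K + 1) j := by
        simp only [hcc]
        ext k
        rw [coeff_mk, coeff_mk, coeff_mk]
        congr 2
        ring
      rw [e1, e2]
    simp_rw [h1]
    rw [mul_sub, Finset.mul_sum]
    have h2 : ∑ j : Fin n, (C (d (Q K) j) + a * ρ (cc (K + 1) j)) * X ^ (j : ℕ) =
        ∑ j : Fin n, C (d (Q K) j) * X ^ (j : ℕ) + ∑ j : Fin n, a * (ρ (cc (K + 1) j) * X ^ (j : ℕ)) := by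
      rw [← Finset.sum_add_distrib]
      apply Finset.sum_congr rfl
      intro j _
      ring
    rw [h2]
    linear_combination hQs K
  have hE0 : ∀ K, E 0 = a ^ K * E K := by
    intro K
    induction K with
    | zero => rw [pow_zero, one_mul]
    | succ K ih => rw [ih, hEs K, pow_succ, mul_assoc]
  have hzero : E 0 = 0 := by
    ext i
    rw [map_zero]
    apply IsHausdorff.haus (inferInstance : IsHausdorff (maximalIdeal A) A)
    intro k
    rw [SModEq.zero, smul_eq_mul, Ideal.mul_top]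
    have h1 := j10951_J (maximalIdeal A) a ha (E (k + i)) (k + i) i
    rw [← hE0, Nat.add_sub_cancel] at h1
    exact h1
  refine ⟨cc 0, ?_⟩
  have h1 : w - ∑ j, ρ (cc 0 j) * X ^ (j : ℕ) = 0 := hzero
  exact sub_eq_zero.1 h1

theorem j10951_pos {A : Type u} [CommRing A] [IsLocalRing A] (a : A⟦X⟧) (n : ℕ)
    (hn : (a.map (residue A)).order = n) (ρ : A⟦X⟧ →ₐ[A] A⟦X⟧) (hρ : ρ X = a) :
    coeff 0 a ∈ maximalIdeal A := by
  by_contra hcon
  have hu : IsUnit (coeff 0 a) := by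
    by_contra h
    exact hcon ((mem_maximalIdeal _).2 h)
  obtain ⟨b, hb⟩ := hu.exists_left_inv
  have hunit : IsUnit (1 - C b * X : A⟦X⟧) := by
    rw [isUnit_iff_constantCoeff]
    simp
  have h1 := hunit.map ρ
  have h2 : ρ (C b) = C b := ρ.commutes b
  rw [map_sub, map_one, map_mul, hρ, h2, isUnit_iff_constantCoeff] at h1
  have h3 : constantCoeff (1 - C b * a : A⟦X⟧) = 0 := by
    rw [map_sub, map_mul, map_one, constantCoeff_C, ← coeff_zero_eq_constantCoeff_apply, hb, sub_self]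
  rw [h3] at h1
  exact not_isUnit_zero h1

/-- `A[[t]]` is free over `A[[x]]` via `x ↦ a(t)` -/
theorem free_basis {A : Type u} [CommRing A] [IsLocalRing A] [IsNoetherianRing A]
    [IsAdicComplete (maximalIdeal A) A] (a : A⟦X⟧) (n : ℕ)
    (hn : (a.map (residue A)).order = n) (ρ : A⟦X⟧ →ₐ[A] A⟦X⟧) (hρ : ρ X = a) (w : A⟦X⟧) :
    ∃! c : Fin n → A⟦X⟧, w = ∑ j, ρ (c j) * X ^ (j : ℕ) := by
  have ha := j10951_pos a n hn ρ hρ
  obtain ⟨c, hc⟩ := j10951_exists a n hn ρ hρ ha w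
  refine ⟨c, hc, fun c' hc' => ?_⟩
  have hc'' : w = ∑ j, ρ (c' j) * X ^ (j : ℕ) := hc'
  have h1 : ∑ j, ρ ((c' - c) j) * X ^ (j : ℕ) = 0 := by
    have : ∀ j, ρ ((c' - c) j) * X ^ (j : ℕ) = ρ (c' j) * X ^ (j : ℕ) - ρ (c j) * X ^ (j : ℕ) := by
      intro j
      rw [Pi.sub_apply, map_sub, sub_mul]
    simp_rw [this]
    rw [Finset.sum_sub_distrib, ← hc, ← hc'', sub_self]
  funext j
  ext K
  have h2 := j10951_zero a n hn ρ hρ K (c' - c) h1 j
  rw [Pi.sub_apply, map_sub] at h2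
  exact sub_eq_zero.1 h2

end CH1

end Pool.Agent.Helper819.DC
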