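import Pool.Agent.Helper819.DC.Core2

set_option autoImplicit false

open PowerSeries IsLocalRing TensorProduct

universe u

namespace Pool.Agent.Helper819.DC


namespace CH2

/-- the target of a parametrisation, as an algebra over `A[[x]]` -/
def PP {A : Type u} [CommRing A] {r : ℕ} (_Φ : Par A r) : Type u := Fin r → A⟦X⟧

noncomputable instance {A : Type u} [CommRing A] {r : ℕ} (Φ : Par A r) : CommRing (PP Φ) :=
  inferInstanceAs (CommRing (Fin r → A⟦X⟧))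

/-- the structure map -/
noncomputable def rho {A : Type u} [CommRing A] {r : ℕ} (Φ : Par A r) : A⟦X⟧ →+* PP Φ :=
  (Φ : A⟦X⟧⟦X⟧ →+* (Fin r → A⟦X⟧)).comp (C : A⟦X⟧ →+* A⟦X⟧⟦X⟧)

noncomputable instance {A : Type u} [CommRing A] {r : ℕ} (Φ : Par A r) : Algebra A⟦X⟧ (PP Φ) :=
  (rho Φ).toAlgebra

theorem PP_smul {A : Type u} [CommRing A] {r : ℕ} (Φ : Par A r) (a : A⟦X⟧) (w : PP Φ) (i : Fin r) :
    (a • w : PP Φ) i = Φ (C a) i * w i := rfl

/-- the coordinate map -/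
noncomputable def TT {A : Type u} [CommRing A] {r : ℕ} (Φ : Par A r) (n : Fin r → ℕ) :
    ((Σ i, Fin (n i)) → A⟦X⟧) →ₗ[A⟦X⟧] PP Φ where
  toFun c := fun i => ∑ j : Fin (n i), (Φ (C (c ⟨i, j⟩)) i) * X ^ (j : ℕ)
  map_add' := by
    intro c c'
    funext i
    show ∑ j : Fin (n i), (Φ (C (c ⟨i, j⟩ + c' ⟨i, j⟩)) i) * X ^ (j : ℕ) =
      ∑ j : Fin (n i), (Φ (C (c ⟨i, j⟩)) i) * X ^ (j : ℕ) +
      ∑ j : Fin (n i), (Φ (C (c' ⟨i, j⟩)) i) * X ^ (j : ℕ)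
    rw [← Finset.sum_add_distrib]
    refine Finset.sum_congr rfl fun j _ => ?_
    rw [map_add, map_add, Pi.add_apply, add_mul]
  map_smul' := by
    intro a c
    funext i
    show ∑ j : Fin (n i), (Φ (C (a * c ⟨i, j⟩)) i) * X ^ (j : ℕ) =
      Φ (C a) i * ∑ j : Fin (n i), (Φ (C (c ⟨i, j⟩)) i) * X ^ (j : ℕ)
    rw [Finset.mul_sum]
    refine Finset.sum_congr rfl fun j _ => ?_
    rw [map_mul, map_mul, Pi.mul_apply, mul_assoc]

theorem TT_bij {A : Type u} [CommRing A] {r : ℕ} (Φ : Par A r) (n : Fin r → ℕ)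
    (hfree : ∀ i, ∀ w : A⟦X⟧, ∃! c : Fin (n i) → A⟦X⟧,
      w = ∑ j, (Φ (C (c j)) i) * X ^ (j : ℕ)) : Function.Bijective (TT Φ n) := by
  constructor
  · intro c c' h
    funext x
    obtain ⟨i, j⟩ := x
    have h1 := congrFun h i
    have h2 : (fun j : Fin (n i) => c ⟨i, j⟩) = (fun j : Fin (n i) => c' ⟨i, j⟩) :=
      (hfree i (∑ j : Fin (n i), (Φ (C (c ⟨i, j⟩)) i) * X ^ (j : ℕ))).unique rfl h1
    exact congrFun h2 j
  · intro w
    choose c hc using fun i => (hfree i (w i)).exists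
    refine ⟨fun x => c x.1 x.2, ?_⟩
    funext i
    exact (hc i).symm

/-- the second coordinate -/
noncomputable def xi {A : Type u} [CommRing A] {r : ℕ} (Φ : Par A r) : PP Φ := Φ X

/-- the parametrisation as a ring homomorphism to `PP Φ` -/
noncomputable def toPP {A : Type u} [CommRing A] {r : ℕ} (Φ : Par A r) : A⟦X⟧⟦X⟧ →+* PP Φ :=
  (Φ : A⟦X⟧⟦X⟧ →+* (Fin r → A⟦X⟧))

theorem coe_eq {A : Type u} [CommRing A] {r : ℕ} (Φ : Par A r) (χ : Polynomial A⟦X⟧) :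
    toPP Φ (χ : A⟦X⟧⟦X⟧) = Polynomial.aeval (R := A⟦X⟧) (xi Φ) χ := by
  have h : (toPP Φ).comp (Polynomial.coeToPowerSeries.ringHom : Polynomial A⟦X⟧ →+* A⟦X⟧⟦X⟧) =
      (Polynomial.aeval (R := A⟦X⟧) (xi Φ) : Polynomial A⟦X⟧ →ₐ[A⟦X⟧] PP Φ) := by
    apply Polynomial.ringHom_ext
    · intro a
      show toPP Φ (((Polynomial.C a : Polynomial A⟦X⟧)) : A⟦X⟧⟦X⟧) =
        Polynomial.aeval (R := A⟦X⟧) (xi Φ) (Polynomial.C a)
      rw [Polynomial.aeval_C, Polynomial.coe_C]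
      rfl
    · show toPP Φ (((Polynomial.X : Polynomial A⟦X⟧)) : A⟦X⟧⟦X⟧) =
        Polynomial.aeval (R := A⟦X⟧) (xi Φ) Polynomial.X
      rw [Polynomial.aeval_X, Polynomial.coe_X]
      rfl
  exact DFunLike.congr_fun h χ

/-- a monic polynomial equation of the expected degree -/
theorem exists_monic {A : Type u} [CommRing A] [IsLocalRing A] {r : ℕ} (Φ : Par A r)
    (n : Fin r → ℕ)
    (hfree : ∀ i, ∀ w : A⟦X⟧, ∃! c : Fin (n i) → A⟦X⟧,
      w = ∑ j, (Φ (C (c j)) i) * X ^ (j : ℕ)) :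
    ∃ χ : Polynomial A⟦X⟧, χ.Monic ∧ χ.natDegree = ∑ i, n i ∧
      Φ (χ : A⟦X⟧⟦X⟧) = 0 := by
  let e : ((Σ i, Fin (n i)) → A⟦X⟧) ≃ₗ[A⟦X⟧] PP Φ :=
    LinearEquiv.ofBijective (TT Φ n) (TT_bij Φ n hfree)
  let b : Module.Basis (Σ i, Fin (n i)) A⟦X⟧ (PP Φ) := Module.Basis.ofEquivFun e.symm
  have hf : Module.Free A⟦X⟧ (PP Φ) := Module.Free.of_basis b
  have hfin : Module.Finite A⟦X⟧ (PP Φ) := Module.Finite.of_basis b
  have hrank : Module.finrank A⟦X⟧ (PP Φ) = ∑ i, n i := by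
    rw [Module.finrank_eq_card_basis b]
    simp
  let F : PP Φ →ₗ[A⟦X⟧] PP Φ := Algebra.lmul A⟦X⟧ (PP Φ) (xi Φ)
  refine ⟨F.charpoly, F.charpoly_monic, ?_, ?_⟩
  · rw [LinearMap.charpoly_natDegree, hrank]
  · have h0 : toPP Φ (F.charpoly : A⟦X⟧⟦X⟧) = 0 := by
      rw [coe_eq]
      have h1 := LinearMap.aeval_self_charpoly F
      have h2 : Polynomial.aeval F F.charpoly =
          Algebra.lmul A⟦X⟧ (PP Φ) (Polynomial.aeval (xi Φ) F.charpoly) :=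
        Polynomial.aeval_algHom_apply (Algebra.lmul A⟦X⟧ (PP Φ)) (xi Φ) F.charpoly
      rw [h2] at h1
      have h3 : (Algebra.lmul A⟦X⟧ (PP Φ) (Polynomial.aeval (xi Φ) F.charpoly)) 1 = 0 := by
        rw [h1]
        rfl
      have h4 : Polynomial.aeval (xi Φ) F.charpoly * 1 = 0 := h3
      rwa [mul_one] at h4
    exact h0

end CH2

end Pool.Agent.Helper819.DC
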