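import Pool.Agent.Helper819.DC.Core2

set_option autoImplicit false

open PowerSeries IsLocalRing TensorProduct

universe u

namespace Pool.Agent.Helper819.DC


namespace CHG

theorem chg_mem {A : Type u} [CommRing A] [IsLocalRing A] (h : A⟦X⟧⟦X⟧)
    (hh : PowerSeries.constantCoeff (PowerSeries.constantCoeff h) = 0) :
    h ∈ maximalIdeal A⟦X⟧⟦X⟧ := by
  rw [IsLocalRing.mem_maximalIdeal, mem_nonunits_iff, PowerSeries.isUnit_iff_constantCoeff,
    PowerSeries.isUnit_iff_constantCoeff, hh]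
  exact not_isUnit_zero

theorem chg_alg {A : Type u} [CommRing A] (a : A) :
    algebraMap A A⟦X⟧⟦X⟧ a = C (C a) := by
  rw [PowerSeries.algebraMap_apply, PowerSeries.algebraMap_apply]
  rfl

/-- the linear change of coordinates -/
theorem chg_end (hT : Tools.{u}) {A : Type u} [CommRing A] [IsLocalRing A] [IsNoetherianRing A]
    [IsAdicComplete (maximalIdeal A) A] (c : A) :
    ∃ L : End2 A, L (C X) = C X + C (C c) * X ∧ L X = X :=
  hT.end_exists (C X + C (C c) * X) X (chg_mem _ (by simp)) (chg_mem _ (by simp))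

theorem chg_const {A : Type u} [CommRing A] (L : End2 A) (a : A) : L (C (C a)) = C (C a) := by
  rw [← chg_alg, AlgHom.commutes]

theorem chg_inv (hB : BaseFacts.{u}) {A : Type u} [CommRing A] [IsLocalRing A] [IsNoetherianRing A]
    (c : A) (L L' : End2 A) (h1 : L (C X) = C X + C (C c) * X) (h2 : L X = X)
    (h1' : L' (C X) = C X + C (C (-c)) * X) (h2' : L' X = X) (h : A⟦X⟧⟦X⟧) : L (L' h) = h := by
  have e : ((L.comp L' : End2 A) : A⟦X⟧⟦X⟧ →+* A⟦X⟧⟦X⟧) = RingHom.id _ := by
    have e1 : L (L' (C X)) = C X := by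
      rw [h1', map_add, map_mul, h1, h2, chg_const]
      rw [map_neg, map_neg]
      ring
    have e2 : L (L' X) = X := by rw [h2', h2]
    refine hB.hom_unique _ _ (fun a => ?_) ?_ ?_ ?_ ?_
    · show L (L' (C (C a))) = C (C a)
      rw [chg_const, chg_const]
    · show L (L' (C X)) ∈ _
      rw [e1]; exact chg_mem _ (by simp)
    · show L (L' X) ∈ _
      rw [e2]; exact chg_mem _ (by simp)
    · exact e1
    · exact e2
  exact RingHom.congr_fun e h

/-- existence of the equation of a deformed parametrisation -/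
theorem char_general (hT : Tools.{u}) (hB : BaseFacts.{u})
    (hchr : ∀ (K : Type u) [Field K] (r : ℕ) (f : K⟦X⟧⟦X⟧) (φ : Par K r)
      (_ : RingHom.ker φ = Ideal.span {f}) (d : K⟦X⟧⟦X⟧) (_ : ∀ i, φ d i ≠ 0)
      (_ : ∀ w, ∃ a, φ a = φ d * w) (_ : ∀ i, φ (C X) i ≠ 0)
      (A : Type u) [CommRing A] [IsLocalRing A] [IsNoetherianRing A]
      [IsAdicComplete (maximalIdeal A) A] [Algebra K A] (π : A →ₐ[K] K) (Φ : Par A r)
      (_ : Lifts π φ Φ), ∃ G : A⟦X⟧⟦X⟧, Φ G = 0 ∧ map2 (π : A →+* K) G = f)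
    {K : Type u} [Field K] [Infinite K] {r : ℕ} (f : K⟦X⟧⟦X⟧) (φ : Par K r)
    (hker : RingHom.ker φ = Ideal.span {f}) (d : K⟦X⟧⟦X⟧) (hd : ∀ i, φ d i ≠ 0)
    (hcond : ∀ w, ∃ a, φ a = φ d * w)
    {A : Type u} [CommRing A] [IsLocalRing A] [IsNoetherianRing A]
    [IsAdicComplete (maximalIdeal A) A] [Algebra K A] (π : A →ₐ[K] K) (Φ : Par A r)
    (hΦ : Lifts π φ Φ) :
    ∃ G : A⟦X⟧⟦X⟧, Φ G = 0 ∧ map2 (π : A →+* K) G = f := by
  classical
  -- not both coordinates vanish
  have hnz : ∀ i, ¬ (φ (C X) i = 0 ∧ φ X i = 0) := by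
    rintro i ⟨hx, hy⟩
    have key : ∀ h : K⟦X⟧⟦X⟧, φ h i = C (PowerSeries.constantCoeff (PowerSeries.constantCoeff h)) := by
      intro h
      have e : ((Pi.evalRingHom (fun _ : Fin r => K⟦X⟧) i).comp (φ : K⟦X⟧⟦X⟧ →+* (Fin r → K⟦X⟧))) =
          (C : K →+* K⟦X⟧).comp ((PowerSeries.constantCoeff : K⟦X⟧ →+* K).comp
            (PowerSeries.constantCoeff : K⟦X⟧⟦X⟧ →+* K⟦X⟧)) := by
        refine hB.hom_unique _ _ (fun a => ?_) ?_ ?_ ?_ ?_
        · show φ (C (C a)) i = C (PowerSeries.constantCoeff (PowerSeries.constantCoeff (C (C a))))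
          rw [← chg_alg, AlgHom.commutes]
          rw [Pi.algebraMap_apply, PowerSeries.algebraMap_apply, chg_alg]
          simp
        · show φ (C X) i ∈ _
          rw [hx]; exact Ideal.zero_mem _
        · show φ X i ∈ _
          rw [hy]; exact Ideal.zero_mem _
        · show φ (C X) i = C (PowerSeries.constantCoeff (PowerSeries.constantCoeff (C X)))
          rw [hx]; simp
        · show φ X i = C (PowerSeries.constantCoeff (PowerSeries.constantCoeff X))
          rw [hy]; simp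
      exact RingHom.congr_fun e h
    obtain ⟨a, ha⟩ := hcond (fun _ => X)
    have h1 := congrFun ha i
    rw [Pi.mul_apply, key a, key d] at h1
    have h2 := congrArg (PowerSeries.coeff 1) h1
    rw [PowerSeries.coeff_C, if_neg one_ne_zero, show (1 : ℕ) = 0 + 1 from rfl,
      PowerSeries.coeff_succ_mul_X, PowerSeries.coeff_C, if_pos rfl] at h2
    apply hd i
    rw [key d, ← h2, map_zero]
  -- choice of the constant
  obtain ⟨c, hc⟩ : ∃ c : K, ∀ i, φ (C X) i + C c * φ X i ≠ 0 := by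
    have hfin : (⋃ i, {c : K | φ (C X) i + C c * φ X i = 0}).Finite := by
      refine Set.finite_iUnion fun i => Set.Subsingleton.finite ?_
      intro c hc c' hc'
      have h1 : φ (C X) i + C c * φ X i = 0 := hc
      have h2 : φ (C X) i + C c' * φ X i = 0 := hc'
      have h3 : C (c - c') * φ X i = 0 := by
        rw [map_sub]
        linear_combination h1 - h2
      rcases mul_eq_zero.1 h3 with h4 | h4
      · have h5 : c - c' = 0 := by
          have := congrArg PowerSeries.constantCoeff h4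
          simpa using this
        exact sub_eq_zero.1 h5
      · exfalso
        refine hnz i ⟨?_, h4⟩
        rw [h4, mul_zero, add_zero] at h1
        exact h1
    obtain ⟨c, hc⟩ := hfin.exists_notMem
    refine ⟨c, fun i h => hc (Set.mem_iUnion.2 ⟨i, h⟩)⟩
  have hK : IsAdicComplete (maximalIdeal K) K := by
    have : maximalIdeal K = ⊥ := IsLocalRing.maximalIdeal_eq_bot
    rw [this]
    infer_instance
  obtain ⟨LK, hLK1, hLK2⟩ := chg_end hT (A := K) c
  obtain ⟨LK', hLK1', hLK2'⟩ := chg_end hT (A := K) (-c)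
  obtain ⟨LA, hLA1, hLA2⟩ := chg_end hT (A := A) (algebraMap K A c)
  have hinv : ∀ h, LK (LK' h) = h := chg_inv hB c LK LK' hLK1 hLK2 hLK1' hLK2'
  have hinv' : ∀ h, LK' (LK h) = h :=
    chg_inv hB (-c) LK' LK hLK1' hLK2' (by rw [neg_neg]; exact hLK1) hLK2
  -- compatibility with the residue map
  have hπc : (π : A →+* K) (algebraMap K A c) = c := by
    show π (algebraMap K A c) = c
    rw [AlgHom.commutes]; rfl
  have hm1 : ∀ a : A, map2 (π : A →+* K) (C (C a)) = C (C (π a)) := by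
    intro a
    simp [map2]
  have hm2 : map2 (π : A →+* K) (C X) = C X := by simp [map2]
  have hm3 : map2 (π : A →+* K) X = X := by simp [map2]
  have hcompat : ∀ h : A⟦X⟧⟦X⟧, map2 (π : A →+* K) (LA h) = LK (map2 (π : A →+* K) h) := by
    intro h
    have e1 : map2 (π : A →+* K) (LA (C X)) = C X + C (C c) * X := by
      rw [hLA1, map_add, map_mul, hm1, hm2, hm3]
      show C X + C (C ((π : A →+* K) (algebraMap K A c))) * X = _
      rw [hπc]
    have e : (map2 (π : A →+* K)).comp (LA : A⟦X⟧⟦X⟧ →+* A⟦X⟧⟦X⟧) =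
        (LK : K⟦X⟧⟦X⟧ →+* K⟦X⟧⟦X⟧).comp (map2 (π : A →+* K)) := by
      refine hB.hom_unique _ _ (fun a => ?_) ?_ ?_ ?_ ?_
      · show map2 (π : A →+* K) (LA (C (C a))) = LK (map2 (π : A →+* K) (C (C a)))
        rw [chg_const, hm1, chg_const]
      · show map2 (π : A →+* K) (LA (C X)) ∈ _
        rw [e1]; exact chg_mem _ (by simp)
      · show map2 (π : A →+* K) (LA X) ∈ _
        rw [hLA2, hm3]; exact chg_mem _ (by simp)
      · show map2 (π : A →+* K) (LA (C X)) = LK (map2 (π : A →+* K) (C X))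
        rw [e1, hm2, hLK1]
      · show map2 (π : A →+* K) (LA X) = LK (map2 (π : A →+* K) X)
        rw [hLA2, hm3, hLK2]
    exact RingHom.congr_fun e h
  obtain ⟨G', hG1, hG2⟩ := hchr K r (LK' f) (φ.comp LK) (by
      ext h
      rw [RingHom.mem_ker, Ideal.mem_span_singleton]
      show φ (LK h) = 0 ↔ _
      rw [← RingHom.mem_ker, hker, Ideal.mem_span_singleton]
      constructor
      · rintro ⟨q, hq⟩
        refine ⟨LK' q, ?_⟩
        rw [← hinv' h, hq, map_mul]
      · rintro ⟨q, hq⟩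
        refine ⟨LK q, ?_⟩
        rw [hq, map_mul, hinv]) (LK' d)
    (fun i => by
      show φ (LK (LK' d)) i ≠ 0
      rw [hinv]; exact hd i)
    (fun w => by
      obtain ⟨a, ha⟩ := hcond w
      refine ⟨LK' a, ?_⟩
      show φ (LK (LK' a)) = φ (LK (LK' d)) * w
      rw [hinv, hinv, ha])
    (fun i => by
      show φ (LK (C X)) i ≠ 0
      rw [hLK1, map_add, map_mul, ← chg_alg, AlgHom.commutes]
      exact hc i)
    A π (Φ.comp LA)
    (fun h => by
      show mapP (π : A →+* K) (Φ (LA h)) = φ (LK (map2 (π : A →+* K) h))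
      rw [hΦ (LA h), hcompat])
  refine ⟨LA G', hG1, ?_⟩
  rw [hcompat, hG2, hinv]

end CHG

end Pool.Agent.Helper819.DC

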