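import Pool.Agent.Helper819.DC.Core2

set_option autoImplicit false

open PowerSeries IsLocalRing TensorProduct

universe u

namespace Pool.Agent.Helper819.DC


namespace CHR


theorem chr_map2_comp {A A' A'' : Type u} [CommRing A] [CommRing A'] [CommRing A''] (ψ : A →+* A')
    (χ : A' →+* A'') (h : A⟦X⟧⟦X⟧) : map2 χ (map2 ψ h) = map2 (χ.comp ψ) h := by
  ext i j
  simp [map2]

theorem chr_pi_iff {K A : Type u} [Field K] [CommRing A] [IsLocalRing A] [Algebra K A]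
    (π : A →ₐ[K] K) (s : A) : residue A s = 0 ↔ π s = 0 := by
  rw [IsLocalRing.residue_eq_zero_iff]
  constructor
  · intro hs
    by_contra hne
    have hk : RingHom.ker (π : A →+* K) ≤ maximalIdeal A := by
      apply IsLocalRing.le_maximalIdeal
      exact RingHom.ker_ne_top _
    have h1 : s - algebraMap K A (π s) ∈ RingHom.ker (π : A →+* K) := by
      rw [RingHom.mem_ker]
      simp
    have h2 : algebraMap K A (π s) ∈ maximalIdeal A := by
      have : algebraMap K A (π s) = s - (s - algebraMap K A (π s)) := by ring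
      rw [this]
      exact Ideal.sub_mem _ hs (hk h1)
    rw [IsLocalRing.mem_maximalIdeal, mem_nonunits_iff] at h2
    exact h2 ((Ne.isUnit hne).map (algebraMap K A))
  · intro hs
    rw [IsLocalRing.mem_maximalIdeal, mem_nonunits_iff]
    intro hu
    exact (hu.map π).ne_zero hs

theorem chr_map2_poly {A A' : Type u} [CommRing A] [CommRing A'] (ψ : A →+* A')
    (χ : Polynomial A⟦X⟧) :
    map2 ψ (χ : A⟦X⟧⟦X⟧) = ((χ.map (PowerSeries.map ψ) : Polynomial A'⟦X⟧) : A'⟦X⟧⟦X⟧) := by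
  ext i j
  simp [map2, Polynomial.coeff_coe]

/-- existence of the equation of a deformed parametrisation, regular coordinates -/
theorem char_regular (hT : Tools.{u})
    (hch1 : ∀ (A : Type u) [CommRing A] [IsLocalRing A] [IsNoetherianRing A]
      [IsAdicComplete (maximalIdeal A) A] (a : A⟦X⟧) (n : ℕ)
      (_ : (a.map (residue A)).order = n) (ρ : A⟦X⟧ →ₐ[A] A⟦X⟧) (_ : ρ X = a) (w : A⟦X⟧),
      ∃! c : Fin n → A⟦X⟧, w = ∑ j, ρ (c j) * X ^ (j : ℕ))
    (hch2 : ∀ (A : Type u) [CommRing A] [IsLocalRing A] (r : ℕ) (Φ : Par A r)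
      (n : Fin r → ℕ)
      (_ : ∀ i, ∀ w : A⟦X⟧, ∃! c : Fin (n i) → A⟦X⟧,
        w = ∑ j, (Φ (C (c j)) i) * X ^ (j : ℕ)),
      ∃ χ : Polynomial A⟦X⟧, χ.Monic ∧ χ.natDegree = ∑ i, n i ∧
        Φ (χ : A⟦X⟧⟦X⟧) = 0)
    (hch3 : ∀ (K : Type u) [Field K] (r : ℕ) (f : K⟦X⟧⟦X⟧) (φ : Par K r)
      (_ : RingHom.ker φ = Ideal.span {f}) (d : K⟦X⟧⟦X⟧) (_ : ∀ i, φ d i ≠ 0)
      (_ : ∀ w, ∃ a, φ a = φ d * w) (n : Fin r → ℕ) (_ : ∀ i, (φ (C X) i).order = n i)
      (χ : Polynomial K⟦X⟧) (_ : χ.Monic) (_ : χ.natDegree = ∑ i, n i)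
      (_ : φ (χ : K⟦X⟧⟦X⟧) = 0),
      ∃ u : K⟦X⟧⟦X⟧, IsUnit u ∧ (χ : K⟦X⟧⟦X⟧) = u * f)
    {K : Type u} [Field K] {r : ℕ} (f : K⟦X⟧⟦X⟧) (φ : Par K r)
    (hker : RingHom.ker φ = Ideal.span {f}) (d : K⟦X⟧⟦X⟧) (hd : ∀ i, φ d i ≠ 0)
    (hcond : ∀ w, ∃ a, φ a = φ d * w) (hreg : ∀ i, φ (C X) i ≠ 0)
    {A : Type u} [CommRing A] [IsLocalRing A] [IsNoetherianRing A]
    [IsAdicComplete (maximalIdeal A) A] [Algebra K A] (π : A →ₐ[K] K) (Φ : Par A r)
    (hΦ : Lifts π φ Φ) :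
    ∃ G : A⟦X⟧⟦X⟧, Φ G = 0 ∧ map2 (π : A →+* K) G = f := by
  classical
  have hord : ∀ i, ∃ n : ℕ, (φ (C X) i).order = n := by
    intro i
    have h := PowerSeries.order_eq_top.not.2 (hreg i)
    exact ⟨(φ (C X) i).order.toNat, (ENat.coe_toNat h).symm⟩
  choose n hn using hord
  have hxx : map2 (π : A →+* K) (C X) = C X := by
    unfold map2
    rw [PowerSeries.map_C, PowerSeries.map_X]
  have hx : ∀ i, PowerSeries.map (π : A →+* K) (Φ (C X) i) = φ (C X) i := by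
    intro i
    have h := congrFun (hΦ (C X)) i
    rw [hxx, mapP_apply] at h
    exact h
  have horder : ∀ i, ((Φ (C X) i).map (residue A)).order = n i := by
    intro i
    rw [PowerSeries.order_eq_nat]
    have h := hn i
    rw [PowerSeries.order_eq_nat] at h
    obtain ⟨h1, h2⟩ := h
    rw [← hx i] at h1 h2
    refine ⟨?_, ?_⟩
    · intro h0
      rw [PowerSeries.coeff_map, chr_pi_iff π] at h0
      apply h1
      rw [PowerSeries.coeff_map]
      exact h0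
    · intro k hk
      have h0 := h2 k hk
      rw [PowerSeries.coeff_map] at h0
      rw [PowerSeries.coeff_map, chr_pi_iff π]
      exact h0
  let ρ : Fin r → (A⟦X⟧ →ₐ[A] A⟦X⟧) := fun i =>
    { toRingHom := (Pi.evalRingHom (fun _ : Fin r => A⟦X⟧) i).comp
        ((Φ : A⟦X⟧⟦X⟧ →+* (Fin r → A⟦X⟧)).comp (C : A⟦X⟧ →+* A⟦X⟧⟦X⟧))
      commutes' := by
        intro a
        have h := congrFun (Φ.commutes a) i
        have he : (algebraMap A A⟦X⟧⟦X⟧ a) = C (algebraMap A A⟦X⟧ a) := by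
          rw [PowerSeries.algebraMap_apply]
        rw [he] at h
        exact h }
  obtain ⟨χ, hmon, hdeg, hχ⟩ := hch2 A r Φ n (by
    intro i w
    exact hch1 A (Φ (C X) i) (n i) (horder i) (ρ i) rfl w)
  have hbar : φ ((χ.map (PowerSeries.map (π : A →+* K)) : Polynomial K⟦X⟧) : K⟦X⟧⟦X⟧) = 0 := by
    rw [← chr_map2_poly, ← hΦ, hχ, map_zero]
  obtain ⟨u, hu, huf⟩ := hch3 K r f φ hker d hd hcond n hn (χ.map (PowerSeries.map (π : A →+* K)))
    (hmon.map _) (by rw [hmon.natDegree_map, hdeg]) hbar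
  obtain ⟨v, hv⟩ := hu.exists_left_inv
  refine ⟨map2 (algebraMap K A) v * (χ : A⟦X⟧⟦X⟧), ?_, ?_⟩
  · rw [map_mul, hχ, mul_zero]
  · have hc : (π : A →+* K).comp (algebraMap K A) = RingHom.id K := by
      have := AlgHom.comp_algebraMap π
      exact this
    have hid : ∀ h : K⟦X⟧⟦X⟧, map2 (RingHom.id K) h = h := by
      intro h
      ext i j
      simp [map2]
    rw [map_mul, chr_map2_comp, hc, hid, chr_map2_poly, huf, ← mul_assoc, hv, one_mul]

end CHR


end Pool.Agent.Helper819.DC
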