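import Mathlib

set_option autoImplicit false

open PowerSeries IsLocalRing TensorProduct

universe u

namespace Pool.Agent.Helper819.DC.COMP1

theorem mem_max_iff {A : Type u} [CommRing A] [IsLocalRing A] (f : A⟦X⟧) :
    f ∈ maximalIdeal (A⟦X⟧) ↔ coeff 0 f ∈ maximalIdeal A := by
  rw [mem_maximalIdeal, mem_maximalIdeal, mem_nonunits_iff, mem_nonunits_iff,
    PowerSeries.isUnit_iff_constantCoeff, PowerSeries.coeff_zero_eq_constantCoeff]

theorem coeff_of_mem {A : Type u} [CommRing A] [IsLocalRing A] (n : ℕ) :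
    ∀ f : A⟦X⟧, f ∈ maximalIdeal (A⟦X⟧) ^ n → ∀ j, coeff j f ∈ maximalIdeal A ^ (n - j) := by
  induction n with
  | zero =>
    intro f _ j
    rw [Nat.zero_sub, pow_zero, Ideal.one_eq_top]
    exact Submodule.mem_top
  | succ n ih =>
    intro f hf
    rw [pow_succ] at hf
    refine Submodule.mul_induction_on hf ?_ ?_
    · intro g hg h hh j
      rw [coeff_mul]
      refine Ideal.sum_mem _ (fun ab hab => ?_)
      rw [Finset.HasAntidiagonal.mem_antidiagonal] at hab
      have h1 := ih g hg ab.1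
      have h2 : coeff ab.2 h ∈ maximalIdeal A ^ (1 - ab.2) := by
        rcases Nat.eq_zero_or_pos ab.2 with h0 | h0
        · rw [h0, Nat.sub_zero, pow_one]
          exact (mem_max_iff h).mp hh
        · rw [Nat.sub_eq_zero_of_le h0, pow_zero, Ideal.one_eq_top]
          exact Submodule.mem_top
      have h3 := Ideal.mul_mem_mul h1 h2
      rw [← pow_add] at h3
      exact Ideal.pow_le_pow_right (by omega) h3
    · intro g h hg hh j
      rw [map_add]
      exact Ideal.add_mem _ (hg j) (hh j)

theorem mem_of_coeff {A : Type u} [CommRing A] [IsLocalRing A] (n : ℕ) (f : A⟦X⟧)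
    (h : ∀ j, coeff j f ∈ maximalIdeal A ^ (n - j)) : f ∈ maximalIdeal (A⟦X⟧) ^ n := by
  have hX : (X : A⟦X⟧) ∈ maximalIdeal (A⟦X⟧) := by
    rw [mem_max_iff]
    simp
  have hC : ∀ (k : ℕ) (a : A), a ∈ maximalIdeal A ^ k → C a ∈ maximalIdeal (A⟦X⟧) ^ k := by
    intro k a ha
    have h1 : Ideal.map (C (R := A)) (maximalIdeal A) ≤ maximalIdeal (A⟦X⟧) := by
      rw [Ideal.map_le_iff_le_comap]
      intro x hx
      rw [Ideal.mem_comap, mem_max_iff]
      simpa using hx
    have h2 := Ideal.mem_map_of_mem (C (R := A)) ha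
    rw [Ideal.map_pow] at h2
    exact Ideal.pow_right_mono h1 k h2
  rw [eq_X_pow_mul_shift_add_trunc n f]
  refine Ideal.add_mem _ (Ideal.mul_mem_right _ _ (Ideal.pow_mem_pow hX n)) ?_
  have h2 : ((trunc n f : Polynomial A) : A⟦X⟧) = ∑ j ∈ Finset.range n, C (coeff j f) * X ^ j := by
    ext i
    rw [Polynomial.coeff_coe, coeff_trunc, map_sum]
    simp only [coeff_C_mul, coeff_X_pow, mul_ite, mul_one, mul_zero]
    rw [Finset.sum_ite_eq]
    simp [Finset.mem_range]
  rw [h2]
  refine Ideal.sum_mem _ (fun j hj => ?_)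
  rw [Finset.mem_range] at hj
  have h3 := Ideal.mul_mem_mul (hC (n - j) _ (h j)) (Ideal.pow_mem_pow hX j)
  rw [← pow_add, Nat.sub_add_cancel hj.le] at h3
  exact h3

/-- power series over a complete noetherian local ring are complete -/
theorem complete_powerSeries {A : Type u} [CommRing A] [IsLocalRing A] [IsNoetherianRing A]
    [IsAdicComplete (maximalIdeal A) A] :
    IsAdicComplete (maximalIdeal (A⟦X⟧)) (A⟦X⟧) := by
  have hH : IsHausdorff (maximalIdeal A) A := inferInstance
  have hP : IsPrecomplete (maximalIdeal A) A := inferInstance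
  refine { haus' := ?_, prec' := ?_ }
  · intro f hf
    ext j
    rw [map_zero]
    refine hH.haus' _ (fun n => ?_)
    rw [SModEq.zero, smul_eq_mul, Ideal.mul_top]
    have h1 := hf (n + j)
    rw [SModEq.zero, smul_eq_mul, Ideal.mul_top] at h1
    have h2 := coeff_of_mem (n + j) f h1 j
    rwa [Nat.add_sub_cancel] at h2
  · intro f hf
    have h1 : ∀ j : ℕ, ∃ L : A, ∀ n, coeff j (f (n + j)) - L ∈ maximalIdeal A ^ n := by
      intro j
      obtain ⟨L, hL⟩ := hP.prec' (fun n => coeff j (f (n + j))) (by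
        intro a b hab
        rw [SModEq.sub_mem, smul_eq_mul, Ideal.mul_top]
        have h2 := hf (Nat.add_le_add_right hab j)
        rw [SModEq.sub_mem, smul_eq_mul, Ideal.mul_top] at h2
        have h3 := coeff_of_mem (a + j) _ h2 j
        rwa [Nat.add_sub_cancel, map_sub] at h3)
      refine ⟨L, fun n => ?_⟩
      have h2 := hL n
      rwa [SModEq.sub_mem, smul_eq_mul, Ideal.mul_top] at h2
    choose L hL using h1
    refine ⟨PowerSeries.mk L, fun n => ?_⟩
    rw [SModEq.sub_mem, smul_eq_mul, Ideal.mul_top]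
    refine mem_of_coeff n _ (fun j => ?_)
    rw [map_sub, coeff_mk]
    rcases le_total j n with hj | hj
    · have h2 := hL j (n - j)
      rwa [Nat.sub_add_cancel hj] at h2
    · rw [Nat.sub_eq_zero_of_le hj, pow_zero, Ideal.one_eq_top]
      exact Submodule.mem_top

end Pool.Agent.Helper819.DC.COMP1
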