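import Mathlib

set_option autoImplicit false

open PowerSeries IsLocalRing TensorProduct

universe u

namespace Pool.Agent.Helper819.DC.COMP2

theorem mem_max_mv_aux {m : ℕ} {K : Type u} [Field K] (f : MvPowerSeries (Fin m) K) :
    f ∈ maximalIdeal (MvPowerSeries (Fin m) K) ↔ MvPowerSeries.constantCoeff f = 0 := by
  rw [IsLocalRing.mem_maximalIdeal, mem_nonunits_iff, MvPowerSeries.isUnit_iff_constantCoeff,
    isUnit_iff_ne_zero, not_not]

theorem max_eq_span_aux {m : ℕ} {K : Type u} [Field K] :
    maximalIdeal (MvPowerSeries (Fin m) K) =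
      Ideal.span (Set.range (MvPowerSeries.X : Fin m → MvPowerSeries (Fin m) K)) := by
  classical
  apply le_antisymm
  · intro f hf
    rw [mem_max_mv_aux] at hf
    have hsel : ∀ n : Fin m →₀ ℕ, ∃ o : Option (Fin m), (n = 0 → o = none) ∧
        (n ≠ 0 → ∃ i, o = some i) ∧ (∀ i, o = some i → n i ≠ 0) := by
      intro n
      by_cases hn : n = 0
      · exact ⟨none, fun _ => rfl, fun h => absurd hn h, fun i h => by simp at h⟩
      · have : ∃ i, n i ≠ 0 := by
          by_contra hcon
          push Not at hcon
          exact hn (Finsupp.ext hcon)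
        obtain ⟨i, hi⟩ := this
        refine ⟨some i, fun h => absurd h hn, fun _ => ⟨i, rfl⟩, fun j hj => ?_⟩
        rw [Option.some_inj] at hj
        rw [← hj]; exact hi
    choose sel h0 h1 h2 using hsel
    let g : Fin m → MvPowerSeries (Fin m) K := fun i n =>
      if sel n = some i then MvPowerSeries.coeff n f else 0
    have hg : ∀ i n, MvPowerSeries.coeff n (g i) =
        if sel n = some i then MvPowerSeries.coeff n f else 0 := fun i n => rfl
    have hsum : f = ∑ i, g i := by
      ext n
      rw [map_sum]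
      simp only [hg]
      by_cases hn : n = 0
      · rw [h0 n hn, hn]
        simp only [reduceCtorEq, if_false, Finset.sum_const_zero]
        rw [MvPowerSeries.coeff_zero_eq_constantCoeff]
        exact hf
      · obtain ⟨i, hi⟩ := h1 n hn
        rw [hi]
        simp
    rw [hsum]
    apply Ideal.sum_mem
    intro i _
    have hdvd : MvPowerSeries.X i ∣ g i := by
      rw [MvPowerSeries.X_dvd_iff]
      intro n hn
      rw [hg, if_neg]
      intro h
      exact h2 n i h hn
    exact Ideal.mem_of_dvd _ hdvd (Ideal.subset_span ⟨i, rfl⟩)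
  · rw [Ideal.span_le]
    rintro _ ⟨i, rfl⟩
    rw [SetLike.mem_coe, mem_max_mv_aux]
    exact MvPowerSeries.constantCoeff_X i

theorem complete_mvPowerSeries {m : ℕ} {K : Type u} [Field K] :
    IsAdicComplete (maximalIdeal (MvPowerSeries (Fin m) K)) (MvPowerSeries (Fin m) K) := by
  rw [max_eq_span_aux]
  infer_instance

theorem complete_powerSeries_field {K : Type u} [Field K] :
    IsAdicComplete (maximalIdeal (K⟦X⟧)) (K⟦X⟧) := by
  rw [PowerSeries.maximalIdeal_eq_span_X]
  infer_instance

theorem residue_mv {m : ℕ} {K : Type u} [Field K] (a : MvPowerSeries (Fin m) K) :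
    ∃ c : K, a - algebraMap K (MvPowerSeries (Fin m) K) c ∈
      maximalIdeal (MvPowerSeries (Fin m) K) := by
  refine ⟨MvPowerSeries.constantCoeff a, ?_⟩
  rw [mem_max_mv_aux, map_sub]
  have : MvPowerSeries.constantCoeff (algebraMap K (MvPowerSeries (Fin m) K)
      (MvPowerSeries.constantCoeff a)) = MvPowerSeries.constantCoeff a := by
    rw [MvPowerSeries.algebraMap_apply]
    simp
  rw [this, sub_self]

theorem residue_ps {K : Type u} [Field K] (a : K⟦X⟧) :
    ∃ c : K, a - algebraMap K K⟦X⟧ c ∈ maximalIdeal K⟦X⟧ := by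
  refine ⟨PowerSeries.constantCoeff a, ?_⟩
  rw [← PowerSeries.ker_coeff_eq_max_ideal, RingHom.mem_ker, map_sub]
  have : PowerSeries.constantCoeff (algebraMap K K⟦X⟧
      (PowerSeries.constantCoeff a)) = PowerSeries.constantCoeff a := by
    rw [PowerSeries.algebraMap_apply]
    simp
  rw [this, sub_self]

end Pool.Agent.Helper819.DC.COMP2
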