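import Mathlib

set_option autoImplicit false

open PowerSeries IsLocalRing TensorProduct

universe u

namespace Pool.Agent.Helper819.DC.COMP3

theorem pi_mem_of {A : Type u} [CommRing A] (J : Ideal A) {n : ℕ} (v : Fin n → A)
    (h : ∀ i, v i ∈ J) : v ∈ (J • ⊤ : Submodule A (Fin n → A)) := by
  classical
  have e : v = ∑ i, v i • (Pi.single i (1 : A) : Fin n → A) := by
    ext j
    simp [Finset.sum_apply, Pi.single_apply]
  rw [e]
  exact Submodule.sum_mem _ fun i _ => Submodule.smul_mem_smul (h i) Submodule.mem_top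

theorem pi_mem_coord {A : Type u} [CommRing A] (J : Ideal A) {n : ℕ} (v : Fin n → A)
    (h : v ∈ (J • ⊤ : Submodule A (Fin n → A))) (i : Fin n) : v i ∈ J := by
  induction h using Submodule.smul_induction_on' with
  | smul r hr m _ =>
    rw [Pi.smul_apply, smul_eq_mul]
    exact J.mul_mem_right _ hr
  | add x _ y _ hx hy =>
    rw [Pi.add_apply]
    exact J.add_mem hx hy

theorem smod_iff {A M : Type u} [CommRing A] [AddCommGroup M] [Module A M] (U : Submodule A M)
    (x y : M) : x ≡ y [SMOD U] ↔ x - y ∈ U := SModEq.sub_mem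

/-- precompleteness of finite modules -/
theorem precomplete_finite {A M : Type u} [CommRing A] (I : Ideal A)
    [IsPrecomplete I A] [AddCommGroup M] [Module A M] [Module.Finite A M] :
    IsPrecomplete I M := by
  obtain ⟨n, π, hπ⟩ := Module.Finite.exists_fin' A M
  refine ⟨fun f hf => ?_⟩
  have hlift : ∀ (k : ℕ) (y : M), y ∈ (I ^ k • ⊤ : Submodule A M) →
      ∃ d : Fin n → A, (∀ i, d i ∈ I ^ k) ∧ π d = y := by
    intro k y hy
    have e : (I ^ k • ⊤ : Submodule A M) = (I ^ k • ⊤ : Submodule A (Fin n → A)).map π := by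
      rw [Submodule.map_smul'', Submodule.map_top, LinearMap.range_eq_top.2 hπ]
    rw [e] at hy
    obtain ⟨d, hd, hdy⟩ := hy
    exact ⟨d, fun i => pi_mem_coord _ d hd i, hdy⟩
  have hstep : ∀ k : ℕ, ∃ d : Fin n → A, (∀ i, d i ∈ I ^ k) ∧ π d = f (k + 1) - f k := by
    intro k
    apply hlift
    have := (smod_iff _ _ _).1 (hf (Nat.le_succ k))
    rw [← neg_sub]
    exact Submodule.neg_mem _ this
  choose d hd1 hd2 using hstep
  obtain ⟨g0, hg0⟩ := hπ (f 0)
  obtain ⟨g, hgz, hgs⟩ : ∃ g : ℕ → (Fin n → A), g 0 = g0 ∧ ∀ k, g (k + 1) = g k + d k :=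
    ⟨fun k => Nat.rec g0 (fun k v => v + d k) k, rfl, fun k => rfl⟩
  have hπg : ∀ k, π (g k) = f k := by
    intro k
    induction k with
    | zero => rw [hgz, hg0]
    | succ k ih => rw [hgs, map_add, ih, hd2]; abel
  have hcauchy : ∀ m k : ℕ, m ≤ k → ∀ i, g k i - g m i ∈ I ^ m := by
    intro m k hmk i
    induction k, hmk using Nat.le_induction with
    | base => rw [sub_self]; exact (I ^ m).zero_mem
    | succ k hmk ih =>
      rw [hgs, Pi.add_apply, add_sub_right_comm]
      exact (I ^ m).add_mem ih (Ideal.pow_le_pow_right hmk (hd1 k i))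
  have hlim : ∀ i : Fin n, ∃ L : A, ∀ k, g k i - L ∈ I ^ k := by
    intro i
    obtain ⟨L, hL⟩ := IsPrecomplete.prec (I := I) (M := A) inferInstance (f := fun k => g k i) (by
      intro m k hmk
      rw [smod_iff, smul_eq_mul, Ideal.mul_top, ← neg_sub]
      exact (I ^ m).neg_mem (hcauchy m k hmk i))
    refine ⟨L, fun k => ?_⟩
    have := hL k
    rw [smod_iff, smul_eq_mul, Ideal.mul_top] at this
    exact this
  choose L hL using hlim
  refine ⟨π L, fun k => ?_⟩
  rw [smod_iff, ← hπg k, ← map_sub]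
  have h1 : g k - L ∈ (I ^ k • ⊤ : Submodule A (Fin n → A)) :=
    pi_mem_of _ _ fun i => hL i k
  have h2 : π (g k - L) ∈ (I ^ k • ⊤ : Submodule A (Fin n → A)).map π := ⟨_, h1, rfl⟩
  rw [Submodule.map_smul''] at h2
  exact Submodule.smul_mono le_rfl le_top h2

/-- a finite module over a complete noetherian local ring is complete -/
theorem complete_finite {A M : Type u} [CommRing A] [IsLocalRing A] [IsNoetherianRing A]
    [IsAdicComplete (maximalIdeal A) A] [AddCommGroup M] [Module A M] [Module.Finite A M] :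
    IsAdicComplete (maximalIdeal A) M := by
  have h1 : IsHausdorff (maximalIdeal A) M := inferInstance
  have h2 : IsPrecomplete (maximalIdeal A) M := precomplete_finite _
  exact { toIsHausdorff := h1, toIsPrecomplete := h2 }

/-- dual numbers over a complete noetherian local ring -/
theorem complete_dual {A : Type u} [CommRing A] [IsLocalRing A] [IsNoetherianRing A]
    [IsAdicComplete (maximalIdeal A) A] :
    ∃ _ : IsLocalRing (TrivSqZeroExt A A), IsNoetherianRing (TrivSqZeroExt A A) ∧
      IsAdicComplete (maximalIdeal (TrivSqZeroExt A A)) (TrivSqZeroExt A A) := by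
  have hloc : IsLocalRing (TrivSqZeroExt A A) := by
    have : IsLocalHom (TrivSqZeroExt.fstHom A A A).toRingHom := by
      constructor
      intro x hx
      exact TrivSqZeroExt.isUnit_iff_isUnit_fst.2 hx
    exact RingHom.domain_isLocalRing (TrivSqZeroExt.fstHom A A A).toRingHom
  have hfin : Module.Finite A (TrivSqZeroExt A A) :=
    inferInstanceAs (Module.Finite A (A × A))
  have hnoeth : IsNoetherianRing (TrivSqZeroExt A A) := by
    have h1 : IsNoetherian A (TrivSqZeroExt A A) := inferInstance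
    exact isNoetherian_of_tower A h1
  refine ⟨hloc, hnoeth, ?_⟩
  have h1 : IsHausdorff (maximalIdeal (TrivSqZeroExt A A)) (TrivSqZeroExt A A) := inferInstance
  have hp : IsPrecomplete (maximalIdeal A) (TrivSqZeroExt A A) := precomplete_finite _
  have hp' : IsPrecomplete ((maximalIdeal A).map (algebraMap A (TrivSqZeroExt A A)))
      (TrivSqZeroExt A A) := IsPrecomplete.map_algebraMap_iff.2 hp
  have hmem : ∀ x : TrivSqZeroExt A A, x ∈ maximalIdeal (TrivSqZeroExt A A) ↔
      x.fst ∈ maximalIdeal A := by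
    intro x
    rw [mem_maximalIdeal, mem_maximalIdeal, mem_nonunits_iff, mem_nonunits_iff,
      TrivSqZeroExt.isUnit_iff_isUnit_fst]
  have hle1 : (maximalIdeal A).map (algebraMap A (TrivSqZeroExt A A)) ≤
      maximalIdeal (TrivSqZeroExt A A) := by
    rw [Ideal.map_le_iff_le_comap]
    intro a ha
    rw [Ideal.mem_comap, hmem]
    exact ha
  have hmemT : ∀ x : TrivSqZeroExt A A, x.fst ∈ maximalIdeal A → x.snd ∈ maximalIdeal A →
      x ∈ (maximalIdeal A).map (algebraMap A (TrivSqZeroExt A A)) := by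
    intro x h1 h2
    have e : x = algebraMap A (TrivSqZeroExt A A) x.fst +
        algebraMap A (TrivSqZeroExt A A) x.snd * TrivSqZeroExt.inr 1 := by
      ext
      · simp [TrivSqZeroExt.algebraMap_eq_inl]
      · simp [TrivSqZeroExt.algebraMap_eq_inl]
    rw [e]
    exact Ideal.add_mem _ (Ideal.mem_map_of_mem _ h1)
      (Ideal.mul_mem_right _ _ (Ideal.mem_map_of_mem _ h2))
  have hle2 : maximalIdeal (TrivSqZeroExt A A) ^ 2 ≤
      (maximalIdeal A).map (algebraMap A (TrivSqZeroExt A A)) := by
    rw [pow_two, Ideal.mul_le]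
    intro x hx y hy
    rw [hmem] at hx hy
    apply hmemT
    · rw [TrivSqZeroExt.fst_mul]
      exact Ideal.mul_mem_left _ _ hy
    · rw [TrivSqZeroExt.snd_mul]
      refine Ideal.add_mem _ ?_ ?_
      · exact Ideal.mul_mem_right _ _ hx
      · exact Ideal.mul_mem_left _ _ hy
  have h2 : IsPrecomplete (maximalIdeal (TrivSqZeroExt A A)) (TrivSqZeroExt A A) := by
    refine ⟨fun f hf => ?_⟩
    have hf' : ∀ m k : ℕ, m ≤ k → f m - f k ∈ maximalIdeal (TrivSqZeroExt A A) ^ m := by
      intro m k hmk
      have := hf hmk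
      rw [smod_iff, smul_eq_mul, Ideal.mul_top] at this
      exact this
    obtain ⟨L, hL⟩ := IsPrecomplete.prec hp' (f := fun k => f (2 * k)) (by
      intro m k hmk
      rw [smod_iff, smul_eq_mul, Ideal.mul_top]
      have h3 := hf' (2 * m) (2 * k) (by omega)
      rw [pow_mul] at h3
      exact Ideal.pow_right_mono hle2 m h3)
    refine ⟨L, fun k => ?_⟩
    rw [smod_iff, smul_eq_mul, Ideal.mul_top]
    have h4 := hL k
    rw [smod_iff, smul_eq_mul, Ideal.mul_top] at h4
    have h5 := Ideal.pow_right_mono hle1 k h4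
    have h6 := hf' k (2 * k) (by omega)
    have e : f k - L = (f k - f (2 * k)) + (f (2 * k) - L) := by ring
    rw [e]
    exact Ideal.add_mem _ h6 h5
  exact { toIsHausdorff := h1, toIsPrecomplete := h2 }

end Pool.Agent.Helper819.DC.COMP3
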