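import Mathlib

set_option autoImplicit false

open PowerSeries IsLocalRing TensorProduct

universe u

namespace Pool.Agent.Helper819.DC.EV

theorem aeval_mem_pow {σ : Type} {K T : Type u} [CommRing K] [CommRing T] [Algebra K T]
    (I : Ideal T) (b : σ → T) (hb : ∀ i, b i ∈ I) (n : ℕ) (p : MvPolynomial σ K)
    (hp : p ∈ MvPolynomial.idealOfVars σ K ^ n) : MvPolynomial.aeval b p ∈ I ^ n := by
  have h1 : (MvPolynomial.idealOfVars σ K).map (MvPolynomial.aeval b : MvPolynomial σ K →ₐ[K] T) ≤ I := by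
    unfold MvPolynomial.idealOfVars
    rw [Ideal.map_span, Ideal.span_le]
    rintro _ ⟨_, ⟨i, rfl⟩, rfl⟩
    simpa using hb i
  have h2 : (MvPolynomial.idealOfVars σ K ^ n).map (MvPolynomial.aeval b : MvPolynomial σ K →ₐ[K] T)
      ≤ I ^ n := by
    rw [Ideal.map_pow]
    exact Ideal.pow_right_mono h1 n
  exact h2 (Ideal.mem_map_of_mem _ hp)

theorem evm_exists {σ : Type} [Finite σ] {K T : Type u} [CommRing K] [CommRing T] [Algebra K T]
    (I : Ideal T) [IsAdicComplete I T] (b : σ → T) (hb : ∀ i, b i ∈ I) :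
    ∃ Φ : MvPowerSeries σ K →ₐ[K] T, ∀ i, Φ (MvPowerSeries.X i) = b i := by
  let g : (n : ℕ) → (MvPolynomial σ K ⧸ MvPolynomial.idealOfVars σ K ^ n) →ₐ[K] T ⧸ I ^ n := fun n =>
    Ideal.Quotient.liftₐ (MvPolynomial.idealOfVars σ K ^ n)
      ((Ideal.Quotient.mkₐ K (I ^ n)).comp (MvPolynomial.aeval b)) (fun p hp => by
        rw [AlgHom.comp_apply, Ideal.Quotient.mkₐ_eq_mk, Ideal.Quotient.eq_zero_iff_mem]
        exact aeval_mem_pow I b hb n p hp)
  let f : (n : ℕ) → MvPowerSeries σ K →ₐ[K] T ⧸ I ^ n := fun n =>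
    (g n).comp ((MvPowerSeries.truncTotalAlgHom σ K n).restrictScalars K)
  have hf : ∀ n p, f n p = Ideal.Quotient.mk (I ^ n)
      (MvPolynomial.aeval b (MvPowerSeries.truncTotal n p)) := fun n p => rfl
  have hcomp : ∀ {m n : ℕ} (hle : m ≤ n),
      (Ideal.Quotient.factorₐ K (Ideal.pow_le_pow_right hle)).comp (f n) = f m := by
    intro m n hle
    refine AlgHom.ext fun p => ?_
    rw [AlgHom.comp_apply, hf, hf]
    show Ideal.Quotient.mk (I ^ m) _ = _
    rw [Ideal.Quotient.mk_eq_mk_iff_sub_mem, ← map_sub]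
    exact aeval_mem_pow I b hb m _
      (MvPowerSeries.truncTotal_sub_truncTotal_mem_pow_idealOfVars hle le_rfl p)
  refine ⟨IsAdicComplete.liftAlgHom I f hcomp, fun i => ?_⟩
  rw [IsHausdorff.eq_iff_smodEq (I := I)]
  intro n
  rw [SModEq.sub_mem, smul_eq_mul, Ideal.mul_top, ← Ideal.Quotient.mk_eq_mk_iff_sub_mem,
    IsAdicComplete.mk_liftAlgHom, hf, Ideal.Quotient.mk_eq_mk_iff_sub_mem]
  have : (MvPolynomial.aeval b) (MvPowerSeries.truncTotal n (MvPowerSeries.X i : MvPowerSeries σ K)) - b i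
      = MvPolynomial.aeval b (MvPowerSeries.truncTotal n (MvPowerSeries.X i : MvPowerSeries σ K)
        - MvPolynomial.X i) := by
    rw [map_sub, MvPolynomial.aeval_X]
  rw [this]
  refine aeval_mem_pow I b hb n _ ?_
  refine (MvPolynomial.mem_pow_idealOfVars_iff' ..).mpr fun x hx => ?_
  rw [MvPolynomial.coeff_sub, sub_eq_zero, MvPowerSeries.coeff_truncTotal _ hx,
    ← MvPolynomial.coeff_coe, MvPolynomial.coe_X]

theorem sub_trunc_mem {σ : Type} [Finite σ] {K : Type u} [CommRing K] (n : ℕ)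
    (f : MvPowerSeries σ K) :
    f - ((MvPowerSeries.truncTotal n f : MvPolynomial σ K) : MvPowerSeries σ K) ∈
      ((MvPolynomial.idealOfVars σ K ^ n) • (⊤ : Submodule (MvPolynomial σ K) (MvPowerSeries σ K))) := by
  let e := MvPowerSeries.toAdicCompletionAlgEquiv σ K
  have h1 : e (f - ((MvPowerSeries.truncTotal n f : MvPolynomial σ K) : MvPowerSeries σ K)) ∈
      ((MvPolynomial.idealOfVars σ K ^ n) • (⊤ : Submodule (MvPolynomial σ K)
        (AdicCompletion (MvPolynomial.idealOfVars σ K) (MvPolynomial σ K)))) := by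
    rw [AdicCompletion.pow_smul_top_eq_ker_eval (MvPolynomial.idealOfVars_fg σ K), LinearMap.mem_ker,
      map_sub, map_sub]
    show (e f).val n - (e ((MvPowerSeries.truncTotal n f : MvPolynomial σ K) : MvPowerSeries σ K)).val n = 0
    rw [sub_eq_zero]
    show (MvPowerSeries.toAdicCompletion σ K f).val n = (MvPowerSeries.toAdicCompletion σ K
      ((MvPowerSeries.truncTotal n f : MvPolynomial σ K) : MvPowerSeries σ K)).val n
    rw [MvPowerSeries.toAdicCompletion_coe]
    rfl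
  have h2 := Submodule.mem_map_of_mem (f := e.symm.toLinearMap) h1
  rw [Submodule.map_smul''] at h2
  have h3 : e.symm.toLinearMap (e (f - ((MvPowerSeries.truncTotal n f : MvPolynomial σ K) :
      MvPowerSeries σ K))) = f - ((MvPowerSeries.truncTotal n f : MvPolynomial σ K) : MvPowerSeries σ K) :=
    e.symm_apply_apply _
  rw [h3] at h2
  exact Submodule.smul_mono le_rfl le_top h2

theorem evm_unique {σ : Type} [Finite σ] {K T : Type u} [CommRing K] [CommRing T] [Algebra K T]
    (I : Ideal T) [IsHausdorff I T] (b : σ → T) (hb : ∀ i, b i ∈ I)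
    (Φ Ψ : MvPowerSeries σ K →ₐ[K] T) (h1 : ∀ i, Φ (MvPowerSeries.X i) = b i)
    (h2 : ∀ i, Ψ (MvPowerSeries.X i) = b i) : Φ = Ψ := by
  have hpoly : ∀ (Θ : MvPowerSeries σ K →ₐ[K] T), (∀ i, Θ (MvPowerSeries.X i) = b i) →
      ∀ p : MvPolynomial σ K, Θ (p : MvPowerSeries σ K) = MvPolynomial.aeval b p := by
    intro Θ hΘ p
    have : Θ.comp (MvPolynomial.coeToMvPowerSeries.algHom K : MvPolynomial σ K →ₐ[K] MvPowerSeries σ K)
        = MvPolynomial.aeval b := by
      apply MvPolynomial.algHom_ext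
      intro i
      rw [AlgHom.comp_apply, MvPolynomial.aeval_X, ← hΘ i]
      congr 1
      first | done | simp [MvPolynomial.coeToMvPowerSeries.algHom_apply]
    have h := congrArg (fun φ => φ p) this
    simp only [AlgHom.comp_apply] at h
    rw [← h]
    congr 1
  refine AlgHom.ext fun f => ?_
  rw [IsHausdorff.eq_iff_smodEq (I := I)]
  intro n
  rw [SModEq.sub_mem, smul_eq_mul, Ideal.mul_top]
  have key : ∀ (Θ : MvPowerSeries σ K →ₐ[K] T), (∀ i, Θ (MvPowerSeries.X i) = b i) →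
      Θ f - MvPolynomial.aeval b (MvPowerSeries.truncTotal n f) ∈ I ^ n := by
    intro Θ hΘ
    rw [← hpoly Θ hΘ, ← map_sub]
    have hmem := sub_trunc_mem n f
    generalize f - ((MvPowerSeries.truncTotal n f : MvPolynomial σ K) : MvPowerSeries σ K) = r at hmem
    induction hmem using Submodule.smul_induction_on' with
    | smul p hp g _ =>
      have : p • g = (p : MvPowerSeries σ K) * g := by
        rw [Algebra.smul_def]
        rfl
      rw [this, map_mul, hpoly Θ hΘ]
      exact Ideal.mul_mem_right _ _ (aeval_mem_pow I b hb n p hp)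
    | add x _ y _ hx hy =>
      rw [map_add]
      exact Ideal.add_mem _ hx hy
  have := Ideal.sub_mem _ (key Φ h1) (key Ψ h2)
  rwa [sub_sub_sub_cancel_right] at this

/-- evaluation of power series in a complete algebra -/
theorem ev_exists {A T : Type u} [CommRing A] [CommRing T] [Algebra A T] (I : Ideal T)
    [IsAdicComplete I T] (b : T) (hb : b ∈ I) : ∃ Φ : A⟦X⟧ →ₐ[A] T, Φ X = b := by
  obtain ⟨Φ, hΦ⟩ := evm_exists (σ := Unit) (K := A) I (fun _ => b) (fun _ => hb)
  exact ⟨Φ, hΦ ()⟩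

theorem ev_unique {A T : Type u} [CommRing A] [CommRing T] [Algebra A T] (I : Ideal T)
    [IsHausdorff I T] (b : T) (hb : b ∈ I) (Φ Ψ : A⟦X⟧ →ₐ[A] T) (h1 : Φ X = b) (h2 : Ψ X = b) :
    Φ = Ψ :=
  evm_unique (σ := Unit) (K := A) I (fun _ => b) (fun _ => hb) Φ Ψ (fun _ => h1) (fun _ => h2)

end Pool.Agent.Helper819.DC.EV
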