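import Pool.Agent.Helper819.DC.Core2

set_option autoImplicit false

open PowerSeries IsLocalRing TensorProduct

universe u

namespace Pool.Agent.Helper819.DC


namespace IMM

theorem pi_zero_10963 {K B : Type u} [Field K] [CommRing B] [IsLocalRing B] [Algebra K B]
    (π : B →ₐ[K] K) (a : B) (ha : a ∈ maximalIdeal B) : π a = 0 := by
  by_contra hc
  have h1 : a - algebraMap K B (π a) ∈ RingHom.ker (π : B →+* K) := by
    rw [RingHom.mem_ker]
    simp
  have h2 : RingHom.ker (π : B →+* K) ≤ maximalIdeal B :=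
    IsLocalRing.le_maximalIdeal (RingHom.ker_ne_top _)
  have h3 : algebraMap K B (π a) ∈ maximalIdeal B := by
    have := (maximalIdeal B).sub_mem ha (h2 h1)
    rwa [sub_sub_cancel] at this
  exact h3 ((IsUnit.mk0 _ hc).map (algebraMap K B))

theorem isUnit_of_map_10963 {K B : Type u} [Field K] [CommRing B] [IsLocalRing B] [Algebra K B]
    (π : B →ₐ[K] K) (w : B⟦X⟧) (hw : PowerSeries.map (π : B →+* K) w = 1) : IsUnit w := by
  rw [PowerSeries.isUnit_iff_constantCoeff]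
  by_contra hc
  have h1 := pi_zero_10963 π (constantCoeff w) hc
  have h2 : constantCoeff (PowerSeries.map (π : B →+* K) w) = π (constantCoeff w) := by
    rw [← PowerSeries.coeff_zero_eq_constantCoeff_apply, PowerSeries.coeff_map,
      PowerSeries.coeff_zero_eq_constantCoeff_apply]
    rfl
  rw [hw, h1] at h2
  simp at h2

theorem d_map_10963 {K B : Type u} [CommRing K] [CommRing B] (ψ : K →+* B) (w : K⟦X⟧) :
    d⁄dX B (PowerSeries.map ψ w) = PowerSeries.map ψ (d⁄dX K w) := by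
  ext n
  rw [PowerSeries.coeff_derivative, PowerSeries.coeff_map, PowerSeries.coeff_map,
    PowerSeries.coeff_derivative, map_mul, map_add, map_natCast, map_one]

theorem d_CX_10963 {B : Type u} [CommRing B] (v : B) :
    d⁄dX B (PowerSeries.C v * PowerSeries.X) = PowerSeries.C v := by
  rw [Derivation.leibniz, PowerSeries.derivative_X, PowerSeries.derivative_C]
  simp

/-- the branch computation -/
theorem branch_10963 {K B : Type u} [Field K] [CommRing B] [IsLocalRing B] [Algebra K B]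
    (v : B) (hv : v ∈ maximalIdeal B) (x' y' : K⟦X⟧) (hy : y' ≠ 0) :
    ∃ (k : ℕ) (a b : B⟦X⟧), a * (PowerSeries.map (algebraMap K B) x' + PowerSeries.C v) +
      b * PowerSeries.map (algebraMap K B) y' = PowerSeries.C (v ^ k) := by
  set ψ := algebraMap K B with hψ
  have hv' : ¬ IsUnit v := hv
  by_cases hx : constantCoeff x' = 0
  · -- X divides x'
    obtain ⟨x2, hx2⟩ := PowerSeries.X_dvd_iff.2 hx
    obtain ⟨u, hu⟩ := PowerSeries.X_pow_order_dvd (φ := y')
    set e := y'.order.toNat with he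
    have hu0 : IsUnit u := by
      rw [PowerSeries.isUnit_iff_constantCoeff, isUnit_iff_ne_zero]
      intro hc
      apply PowerSeries.coeff_order hy
      rw [← he]
      conv_lhs => rw [hu]
      rw [show PowerSeries.coeff e (PowerSeries.X ^ e * u) =
        PowerSeries.coeff (0 + e) (PowerSeries.X ^ e * u) by rw [zero_add]]
      rw [PowerSeries.coeff_X_pow_mul, PowerSeries.coeff_zero_eq_constantCoeff_apply]
      exact hc
    have hU : IsUnit (PowerSeries.map ψ u) := hu0.map _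
    obtain ⟨U, hU⟩ := hU
    set P : B⟦X⟧ := PowerSeries.map ψ x' + PowerSeries.C v with hP
    have h1 : (PowerSeries.C v : B⟦X⟧) - -(PowerSeries.X * PowerSeries.map ψ x2) = P := by
      rw [hP, hx2, map_mul, PowerSeries.map_X]
      ring
    obtain ⟨c, hc⟩ := sub_dvd_pow_sub_pow (PowerSeries.C v : B⟦X⟧)
      (-(PowerSeries.X * PowerSeries.map ψ x2)) e
    rw [h1] at hc
    have h2 : PowerSeries.map ψ y' * ((U⁻¹ : (B⟦X⟧)ˣ) : B⟦X⟧) = PowerSeries.X ^ e := by
      rw [hu, map_mul, map_pow, PowerSeries.map_X, ← hU, mul_assoc, Units.mul_inv, mul_one]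
    refine ⟨e, c, (-(PowerSeries.map ψ x2)) ^ e * ((U⁻¹ : (B⟦X⟧)ˣ) : B⟦X⟧), ?_⟩
    have h3 : (-(PowerSeries.X * PowerSeries.map ψ x2)) ^ e =
        (-(PowerSeries.map ψ x2)) ^ e * (PowerSeries.X : B⟦X⟧) ^ e := by
      rw [← mul_pow]
      congr 1
      ring
    rw [map_pow]
    have h4 : (PowerSeries.C v : B⟦X⟧) ^ e = P * c +
        (-(PowerSeries.map ψ x2)) ^ e * (PowerSeries.X : B⟦X⟧) ^ e := by
      rw [← h3, ← hc]
      ring
    rw [h4, ← h2]
    ring
  · -- the first component is a unit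
    have hunit : IsUnit (PowerSeries.map ψ x' + PowerSeries.C v) := by
      rw [PowerSeries.isUnit_iff_constantCoeff, map_add, PowerSeries.constantCoeff_C]
      have h2 : constantCoeff (PowerSeries.map ψ x') = ψ (constantCoeff x') := by
        rw [← PowerSeries.coeff_zero_eq_constantCoeff_apply, PowerSeries.coeff_map,
          PowerSeries.coeff_zero_eq_constantCoeff_apply]
      rw [h2]
      by_contra hc
      have h3 : ψ (constantCoeff x') + v ∈ maximalIdeal B := hc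
      have h4 : ψ (constantCoeff x') ∈ maximalIdeal B := by
        have := (maximalIdeal B).sub_mem h3 hv
        rwa [add_sub_cancel_right] at this
      exact h4 ((IsUnit.mk0 _ hx).map ψ)
    obtain ⟨U, hU⟩ := hunit
    refine ⟨0, ((U⁻¹ : (B⟦X⟧)ˣ) : B⟦X⟧), 0, ?_⟩
    rw [← hU, Units.inv_mul]
    simp

/-- existence of an immersed simultaneous parametrisation over `K[[v]]` -/
theorem exists_immersed (hT : Tools.{u}) (hB : BaseFacts.{u}) {K : Type u} [Field K] {τ r : ℕ}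
    (D : Setup K τ r)
    (huni : ∀ (A : Type u) [CommRing A] [IsLocalRing A] [IsNoetherianRing A]
      [IsAdicComplete (maximalIdeal A) A] [Algebra K A] (π : A →ₐ[K] K)
      (N : ℕ) (_ : 1 ≤ N) (s₀ : Fin τ → A) (_ : ∀ j, s₀ j ∈ maximalIdeal A) (Φ₀ : Par A r)
      (_ : Lifts π D.φ Φ₀) (_ : InP (maximalIdeal A ^ N) (Φ₀ (D.F s₀))),
      ∃ (s : Fin τ → A) (Φ : Par A r), SimPar D π s Φ ∧
        (∀ j, s j - s₀ j ∈ maximalIdeal A ^ N) ∧
        InP (maximalIdeal A ^ N) (Φ (C X) - Φ₀ (C X)) ∧ InP (maximalIdeal A ^ N) (Φ X - Φ₀ X) ∧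
        ∃ M₁₁ M₁₂ M₂₁ M₂₂ : Fin r → A⟦X⟧,
          dP (Φ (C X)) = M₁₁ * dP (Φ₀ (C X)) + M₁₂ * dP (Φ₀ X) ∧
          dP (Φ X) = M₂₁ * dP (Φ₀ (C X)) + M₂₂ * dP (Φ₀ X) ∧
          mapP (π : A →+* K) M₁₁ = 1 ∧ mapP (π : A →+* K) M₁₂ = 0 ∧
          mapP (π : A →+* K) M₂₁ = 0 ∧ mapP (π : A →+* K) M₂₂ = 1)
    (hvel : ∀ i, ¬ (dP (D.φ (C X)) i = 0 ∧ dP (D.φ X) i = 0))
    {B : Type u} [CommRing B] [IsDomain B] [IsDiscreteValuationRing B]
    [IsAdicComplete (maximalIdeal B) B] [Algebra K B] (π : B →ₐ[K] K) (v : B)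
    (hv : maximalIdeal B = Ideal.span {v}) :
    ∃ (s : Fin τ → B) (Φ : Par B r), SimPar D π s Φ ∧ ∃ (k : ℕ) (a b : Fin r → B⟦X⟧),
      a * dP (Φ (C X)) + b * dP (Φ X) = fun _ => C (v ^ k) := by
  classical
  have hvm : v ∈ maximalIdeal B := by rw [hv]; exact Ideal.mem_span_singleton_self v
  set ψ := algebraMap K B with hψ
  have hπψ : ∀ w : K⟦X⟧, PowerSeries.map (π : B →+* K) (PowerSeries.map ψ w) = w := by
    intro w
    ext n
    rw [PowerSeries.coeff_map, PowerSeries.coeff_map]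
    show π (algebraMap K B _) = _
    rw [AlgHom.commutes]
    rfl
  -- coordinates of the first approximation
  let x₀ : Fin r → B⟦X⟧ := fun i => PowerSeries.map ψ (D.φ (C X) i) +
    (if dP (D.φ X) i = 0 then 0 else C v * X)
  let y₀ : Fin r → B⟦X⟧ := fun i => PowerSeries.map ψ (D.φ X i) +
    (if dP (D.φ X) i = 0 then C v * X else 0)
  have hmem : ∀ (w : K⟦X⟧) (c : B⟦X⟧), w ∈ maximalIdeal K⟦X⟧ → constantCoeff c = 0 →
      PowerSeries.map ψ w + c ∈ maximalIdeal B⟦X⟧ := by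
    intro w c hw hc
    rw [IsLocalRing.mem_maximalIdeal, mem_nonunits_iff, PowerSeries.isUnit_iff_constantCoeff] at hw ⊢
    rw [isUnit_iff_ne_zero, not_not] at hw
    have h2 : constantCoeff (PowerSeries.map ψ w) = ψ (constantCoeff w) := by
      rw [← PowerSeries.coeff_zero_eq_constantCoeff_apply, PowerSeries.coeff_map,
        PowerSeries.coeff_zero_eq_constantCoeff_apply]
    rw [map_add, h2, hw, hc, map_zero, add_zero]
    exact not_isUnit_zero
  have hx₀ : ∀ i, x₀ i ∈ maximalIdeal B⟦X⟧ := by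
    intro i
    refine hmem _ _ (hT.par_local D.φ i).1 ?_
    split_ifs <;> simp
  have hy₀ : ∀ i, y₀ i ∈ maximalIdeal B⟦X⟧ := by
    intro i
    refine hmem _ _ (hT.par_local D.φ i).2 ?_
    split_ifs <;> simp
  obtain ⟨Φ₀, hΦx, hΦy⟩ := hT.par_exists x₀ y₀ hx₀ hy₀
  have hπv : π v = 0 := pi_zero_10963 π v hvm
  have hπCv : PowerSeries.map (π : B →+* K) (C v * X) = 0 := by
    rw [map_mul, PowerSeries.map_C, show (π : B →+* K) v = 0 from hπv, map_zero, zero_mul]
  have hlift : Lifts π D.φ Φ₀ := by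
    rw [hT.lifts_iff]
    constructor
    · rw [hΦx]
      funext i
      rw [mapP_apply]
      show PowerSeries.map (π : B →+* K) (PowerSeries.map ψ (D.φ (C X) i) + _) = _
      rw [map_add, hπψ]
      split_ifs
      · rw [map_zero, add_zero]
      · rw [hπCv, add_zero]
    · rw [hΦy]
      funext i
      rw [mapP_apply]
      show PowerSeries.map (π : B →+* K) (PowerSeries.map ψ (D.φ X i) + _) = _
      rw [map_add, hπψ]
      split_ifs
      · rw [hπCv, add_zero]
      · rw [map_zero, add_zero]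
  have hf0 : D.φ D.f = 0 := by
    have : D.f ∈ RingHom.ker D.φ := by
      rw [D.ker]; exact Ideal.mem_span_singleton_self _
    exact this
  have hin : InP (maximalIdeal B ^ 1) (Φ₀ (D.F (fun _ => (0 : B)))) := by
    rw [pow_one, hT.inP_map π, hlift, hT.map2_fam_zero π D.f D.g _ (fun _ => Ideal.zero_mem _), hf0]
  obtain ⟨s, Φ, hsim, -, -, -, M₁₁, M₁₂, M₂₁, M₂₂, e1, e2, m11, m12, m21, m22⟩ :=
    huni B π 1 le_rfl (fun _ => 0) (fun _ => Ideal.zero_mem _) Φ₀ hlift hin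
  refine ⟨s, Φ, hsim, ?_⟩
  -- the branches
  have hbr : ∀ i, ∃ (k : ℕ) (a b : B⟦X⟧), a * dP (Φ₀ (C X)) i + b * dP (Φ₀ X) i = C (v ^ k) := by
    intro i
    by_cases hy : dP (D.φ X) i = 0
    · refine ⟨1, 0, 1, ?_⟩
      have h1 : dP (Φ₀ X) i = C v := by
        rw [hΦy]
        show d⁄dX B (PowerSeries.map ψ (D.φ X i) + (if dP (D.φ X) i = 0 then C v * X else 0)) = _
        rw [if_pos hy, map_add, d_map_10963, d_CX_10963]
        have h2 : d⁄dX K (D.φ X i) = 0 := hy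
        rw [h2, map_zero, zero_add]
      rw [h1]
      simp
    · obtain ⟨k, a, b, hab⟩ := branch_10963 v hvm (dP (D.φ (C X)) i) (dP (D.φ X) i) hy
      refine ⟨k, a, b, ?_⟩
      have h1 : dP (Φ₀ X) i = PowerSeries.map ψ (dP (D.φ X) i) := by
        rw [hΦy]
        show d⁄dX B (PowerSeries.map ψ (D.φ X i) + (if dP (D.φ X) i = 0 then C v * X else 0)) = _
        rw [if_neg hy, add_zero, d_map_10963]
        rfl
      have h2 : dP (Φ₀ (C X)) i = PowerSeries.map ψ (dP (D.φ (C X)) i) + C v := by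
        rw [hΦx]
        show d⁄dX B (PowerSeries.map ψ (D.φ (C X) i) + (if dP (D.φ X) i = 0 then 0 else C v * X)) = _
        rw [if_neg hy, map_add, d_map_10963, d_CX_10963]
        rfl
      rw [h1, h2]
      exact hab
  choose k a b hab using hbr
  -- the determinant
  have hdet : ∀ i, ∃ u : B⟦X⟧, u * (M₁₁ i * M₂₂ i - M₁₂ i * M₂₁ i) = 1 := by
    intro i
    have h1 : PowerSeries.map (π : B →+* K) (M₁₁ i * M₂₂ i - M₁₂ i * M₂₁ i) = 1 := by
      have e11 := congrFun m11 i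
      have e12 := congrFun m12 i
      have e21 := congrFun m21 i
      have e22 := congrFun m22 i
      rw [mapP_apply] at e11 e12 e21 e22
      rw [map_sub, map_mul, map_mul, e11, e12, e21, e22]
      simp
    obtain ⟨U, hU⟩ := isUnit_of_map_10963 π _ h1
    exact ⟨((U⁻¹ : (B⟦X⟧)ˣ) : B⟦X⟧), by rw [← hU, Units.inv_mul]⟩
  choose u hu using hdet
  refine ⟨∑ i, k i, fun i => C (v ^ ((∑ i, k i) - k i)) * (u i * (a i * M₂₂ i - b i * M₂₁ i)),
    fun i => C (v ^ ((∑ i, k i) - k i)) * (u i * (b i * M₁₁ i - a i * M₁₂ i)), ?_⟩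
  funext i
  rw [e1, e2]
  have hki : k i ≤ ∑ i, k i := Finset.single_le_sum (fun _ _ => Nat.zero_le _) (Finset.mem_univ i)
  have hab' := hab i
  have hu' := hu i
  show C (v ^ ((∑ i, k i) - k i)) * (u i * (a i * M₂₂ i - b i * M₂₁ i)) *
      (M₁₁ i * dP (Φ₀ (C X)) i + M₁₂ i * dP (Φ₀ X) i) +
    C (v ^ ((∑ i, k i) - k i)) * (u i * (b i * M₁₁ i - a i * M₁₂ i)) *
      (M₂₁ i * dP (Φ₀ (C X)) i + M₂₂ i * dP (Φ₀ X) i) = C (v ^ (∑ i, k i))
  have h5 : C (v ^ ((∑ i, k i) - k i)) * (u i * (a i * M₂₂ i - b i * M₂₁ i)) *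
      (M₁₁ i * dP (Φ₀ (C X)) i + M₁₂ i * dP (Φ₀ X) i) +
    C (v ^ ((∑ i, k i) - k i)) * (u i * (b i * M₁₁ i - a i * M₁₂ i)) *
      (M₂₁ i * dP (Φ₀ (C X)) i + M₂₂ i * dP (Φ₀ X) i) =
      C (v ^ ((∑ i, k i) - k i)) * (u i * (M₁₁ i * M₂₂ i - M₁₂ i * M₂₁ i)) *
        (a i * dP (Φ₀ (C X)) i + b i * dP (Φ₀ X) i) := by ring
  rw [h5, hu', hab', mul_one, ← map_mul, ← pow_add]
  congr 2
  omega

end IMM

end Pool.Agent.Helper819.DC
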