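import Pool.Agent.Helper819.DC.Core2

set_option autoImplicit false

open PowerSeries IsLocalRing TensorProduct

universe u

namespace Pool.Agent.Helper819.DC


namespace KER

theorem ker_filtration_res {K A : Type u} [Field K] [CommRing A] [IsLocalRing A] [Algebra K A]
    (π : A →ₐ[K] K) (a : A) : a - algebraMap K A (π a) ∈ maximalIdeal A := by
  rw [mem_maximalIdeal, mem_nonunits_iff]
  intro hu
  have h1 : π (a - algebraMap K A (π a)) = 0 := by
    rw [map_sub, AlgHom.commutes]
    simp
  have h2 := hu.map π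
  rw [h1] at h2
  exact not_isUnit_zero h2

theorem ker_filtration_basis {K A : Type u} [Field K] [CommRing A] [IsLocalRing A]
    [IsNoetherianRing A] [Algebra K A] (π : A →ₐ[K] K) (k : ℕ) :
    ∃ (l : ℕ) (w : Fin l → A) (e : Fin l → A → K), (∀ i, w i ∈ maximalIdeal A ^ k) ∧
      (∀ a ∈ maximalIdeal A ^ k, a - ∑ i, w i * algebraMap K A (e i a) ∈ maximalIdeal A ^ (k + 1)) ∧
      ∀ c : Fin l → K, ∑ i, w i * algebraMap K A (c i) ∈ maximalIdeal A ^ (k + 1) →
        ∀ i, c i = 0 := by
  classical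
  obtain ⟨W, hW⟩ : ∃ W : Submodule K A, ∀ a, a ∈ W ↔ a ∈ maximalIdeal A ^ k :=
    ⟨(maximalIdeal A ^ k).restrictScalars K, fun a => Iff.rfl⟩
  obtain ⟨W', hW'⟩ : ∃ W : Submodule K A, ∀ a, a ∈ W ↔ a ∈ maximalIdeal A ^ (k + 1) :=
    ⟨(maximalIdeal A ^ (k + 1)).restrictScalars K, fun a => Iff.rfl⟩
  obtain ⟨U, hU⟩ : ∃ U : Submodule K (A ⧸ W'), U = W.map W'.mkQ := ⟨_, rfl⟩
  obtain ⟨S, hS⟩ := (IsNoetherian.noetherian (maximalIdeal A ^ k) : (maximalIdeal A ^ k).FG)
  have hUle : U ≤ Submodule.span K (W'.mkQ '' (S : Set A)) := by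
    rw [hU]
    rintro _ ⟨a, ha, rfl⟩
    have ha' : a ∈ Submodule.span A (S : Set A) := by
      rw [hS]; exact (hW a).1 ha
    clear ha
    induction ha' using Submodule.span_induction with
    | mem x hx => exact Submodule.subset_span ⟨x, hx, rfl⟩
    | zero => rw [map_zero]; exact Submodule.zero_mem _
    | add x y _ _ h1 h2 => rw [map_add]; exact Submodule.add_mem _ h1 h2
    | smul a x hx h1 =>
      have hx' : x ∈ maximalIdeal A ^ k := by rw [← hS]; exact hx
      have h2 : a • x = (a - algebraMap K A (π a)) * x + π a • x := by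
        rw [smul_eq_mul, Algebra.smul_def (π a) x]; ring
      have h3 : (a - algebraMap K A (π a)) * x ∈ W' := by
        rw [hW', pow_succ']
        exact Ideal.mul_mem_mul (ker_filtration_res π a) hx'
      rw [h2, map_add, map_smul]
      have h4 : W'.mkQ ((a - algebraMap K A (π a)) * x) = 0 := by
        rw [Submodule.mkQ_apply, Submodule.Quotient.mk_eq_zero]; exact h3
      rw [h4, zero_add]
      exact Submodule.smul_mem _ _ h1
  have : FiniteDimensional K (Submodule.span K (W'.mkQ '' (S : Set A))) :=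
    FiniteDimensional.span_of_finite K ((Finset.finite_toSet S).image _)
  have : FiniteDimensional K U := Submodule.finiteDimensional_of_le hUle
  let b := Module.finBasis K U
  have hb : ∀ i, ∃ w ∈ maximalIdeal A ^ k, W'.mkQ w = (b i : A ⧸ W') := by
    intro i
    have h1 : (b i : A ⧸ W') ∈ W.map W'.mkQ := hU ▸ (b i).2
    obtain ⟨w, hw, hw'⟩ := h1
    exact ⟨w, (hW w).1 hw, hw'⟩
  choose w hwm hwb using hb
  have hmem : ∀ a, a ∈ maximalIdeal A ^ k → W'.mkQ a ∈ U := by
    intro a ha
    rw [hU]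
    exact ⟨a, (hW a).2 ha, rfl⟩
  refine ⟨_, w, fun i a => if h : a ∈ maximalIdeal A ^ k then
    b.repr ⟨W'.mkQ a, hmem a h⟩ i else 0, hwm, ?_, ?_⟩
  · intro a ha
    rw [← hW', ← Submodule.Quotient.mk_eq_zero, ← Submodule.mkQ_apply, map_sub, map_sum]
    have h1 : ∀ i, W'.mkQ (w i * algebraMap K A ((if h : a ∈ maximalIdeal A ^ k then
        b.repr ⟨W'.mkQ a, hmem a h⟩ i else 0))) =
        b.repr ⟨W'.mkQ a, hmem a ha⟩ i • (b i : A ⧸ W') := by
      intro i
      rw [dif_pos ha, mul_comm, ← Algebra.smul_def, map_smul, hwb]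
    simp only [h1]
    have h2 := congrArg (Subtype.val) (b.sum_repr ⟨W'.mkQ a, hmem a ha⟩)
    rw [AddSubmonoidClass.coe_finsetSum] at h2
    simp only [Submodule.coe_smul] at h2
    rw [h2, sub_self]
  · intro c hc
    rw [← hW', ← Submodule.Quotient.mk_eq_zero, ← Submodule.mkQ_apply, map_sum] at hc
    have h1 : ∀ i, W'.mkQ (w i * algebraMap K A (c i)) = c i • (b i : A ⧸ W') := by
      intro i
      rw [mul_comm, ← Algebra.smul_def, map_smul, hwb]
    simp only [h1] at hc
    have h2 : ∑ i, c i • b i = 0 := by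
      apply Subtype.ext
      rw [AddSubmonoidClass.coe_finsetSum]
      exact hc
    exact Fintype.linearIndependent_iff.1 b.linearIndependent c h2

theorem ker_filtration_coeff {A : Type u} [CommRing A] (w : A) (h : A⟦X⟧⟦X⟧) (i j : ℕ) :
    PowerSeries.coeff i (PowerSeries.coeff j (PowerSeries.C (PowerSeries.C w) * h)) =
      w * PowerSeries.coeff i (PowerSeries.coeff j h) := by
  rw [PowerSeries.coeff_C_mul, PowerSeries.coeff_C_mul]

theorem ker_filtration_map2 {A A' : Type u} [CommRing A] [CommRing A'] (ψ : A →+* A')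
    (h : A⟦X⟧⟦X⟧) (i j : ℕ) :
    PowerSeries.coeff i (PowerSeries.coeff j (map2 ψ h)) =
      ψ (PowerSeries.coeff i (PowerSeries.coeff j h)) := by
  unfold map2
  rw [PowerSeries.coeff_map, PowerSeries.coeff_map]

theorem ker_filtration_Csmul {A : Type u} [CommRing A] {r : ℕ} (Φ : Par A r) (w : A)
    (h : A⟦X⟧⟦X⟧) : Φ (PowerSeries.C (PowerSeries.C w) * h) = w • Φ h := by
  have : (PowerSeries.C (PowerSeries.C w) * h : A⟦X⟧⟦X⟧) = w • h := by
    ext j i
    rw [ker_filtration_coeff]
    rfl
  rw [this, map_smul]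

/-- if `H(Φ)` has order `≥ k` then `H ∈ (G)` up to order `k` -/
theorem ker_filtration (hT : Tools.{u}) {K : Type u} [Field K] {r : ℕ} (f : K⟦X⟧⟦X⟧)
    (φ : Par K r) (hker : RingHom.ker φ = Ideal.span {f})
    {A : Type u} [CommRing A] [IsLocalRing A] [IsNoetherianRing A]
    [IsAdicComplete (maximalIdeal A) A] [Algebra K A] (π : A →ₐ[K] K) (Φ : Par A r)
    (hΦ : Lifts π φ Φ) (G : A⟦X⟧⟦X⟧) (hG : Φ G = 0) (hG' : map2 (π : A →+* K) G = f) (k : ℕ)
    (H : A⟦X⟧⟦X⟧) (hH : InP (maximalIdeal A ^ k) (Φ H)) :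
    ∃ q, In2 (maximalIdeal A ^ k) (H - q * G) := by
  induction k with
  | zero =>
    refine ⟨0, fun i j => ?_⟩
    rw [pow_zero, Ideal.one_eq_top]
    exact Submodule.mem_top
  | succ k ih =>
    obtain ⟨q, hq⟩ := ih (fun i n => Ideal.pow_le_pow_right (Nat.le_succ k) (hH i n))
    obtain ⟨E, hE⟩ : ∃ E, E = H - q * G := ⟨_, rfl⟩
    rw [← hE] at hq
    have hΦE : Φ E = Φ H := by rw [hE, map_sub, map_mul, hG, mul_zero, sub_zero]
    obtain ⟨l, w, e, hw, hspan, hind⟩ := ker_filtration_basis π k
    obtain ⟨El, hEl⟩ : ∃ El : Fin l → K⟦X⟧⟦X⟧, ∀ s i j,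
        PowerSeries.coeff i (PowerSeries.coeff j (El s)) =
          e s (PowerSeries.coeff i (PowerSeries.coeff j E)) :=
      ⟨fun s => PowerSeries.mk fun j => PowerSeries.mk fun i =>
        e s (PowerSeries.coeff i (PowerSeries.coeff j E)), fun s i j => by
          rw [PowerSeries.coeff_mk, PowerSeries.coeff_mk]⟩
    obtain ⟨D, hD⟩ : ∃ D : A⟦X⟧⟦X⟧, D = ∑ s, PowerSeries.C (PowerSeries.C (w s)) *
        map2 (algebraMap K A) (El s) := ⟨_, rfl⟩
    have hDcoef : ∀ i j, PowerSeries.coeff i (PowerSeries.coeff j D) =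
        ∑ s, w s * algebraMap K A (PowerSeries.coeff i (PowerSeries.coeff j (El s))) := by
      intro i j
      rw [hD, map_sum, map_sum]
      refine Finset.sum_congr rfl fun s _ => ?_
      rw [ker_filtration_coeff, ker_filtration_map2]
    have hED : In2 (maximalIdeal A ^ (k + 1)) (E - D) := by
      intro i j
      rw [map_sub, map_sub, hDcoef]
      simp only [hEl]
      exact hspan _ (hq i j)
    have hΦED := hT.par_in _ Φ _ hED
    have hΦD : InP (maximalIdeal A ^ (k + 1)) (Φ D) := by
      intro i n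
      have h1 := hΦED i n
      have h2 := hH i n
      rw [map_sub, hΦE] at h1
      have h3 : PowerSeries.coeff n (Φ D i) = PowerSeries.coeff n (Φ H i) -
          PowerSeries.coeff n ((Φ H - Φ D) i) := by
        rw [Pi.sub_apply, map_sub]; ring
      rw [h3]
      exact Ideal.sub_mem _ h2 h1
    have hcomp : ∀ h : K⟦X⟧⟦X⟧, map2 (π : A →+* K) (map2 (algebraMap K A) h) = h := by
      intro h
      ext j i
      rw [ker_filtration_map2, ker_filtration_map2]
      simp
    -- reduction of the images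
    have hred : ∀ s, InP (maximalIdeal A) (Φ (map2 (algebraMap K A) (El s)) -
        mapP (algebraMap K A) (φ (El s))) := by
      intro s
      rw [hT.inP_map π, map_sub, hΦ, hcomp]
      funext i
      rw [Pi.sub_apply, mapP_apply, mapP_apply]
      ext n
      rw [map_sub, PowerSeries.coeff_map, PowerSeries.coeff_map]
      simp
    have hzero : ∀ s, φ (El s) = 0 := by
      intro s
      funext i
      ext n
      have h1 : ∑ s, w s * algebraMap K A (PowerSeries.coeff n (φ (El s) i)) ∈
          maximalIdeal A ^ (k + 1) := by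
        have h2 := hΦD i n
        have h3 : PowerSeries.coeff n (Φ D i) = ∑ s, w s *
            PowerSeries.coeff n (Φ (map2 (algebraMap K A) (El s)) i) := by
          rw [hD, map_sum, Finset.sum_apply, map_sum]
          refine Finset.sum_congr rfl fun s _ => ?_
          rw [ker_filtration_Csmul, Pi.smul_apply, map_smul, smul_eq_mul]
        have h4 : ∑ s, w s * algebraMap K A (PowerSeries.coeff n (φ (El s) i)) =
            PowerSeries.coeff n (Φ D i) - ∑ s, w s *
              PowerSeries.coeff n ((Φ (map2 (algebraMap K A) (El s)) -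
                mapP (algebraMap K A) (φ (El s))) i) := by
          rw [h3, ← Finset.sum_sub_distrib]
          refine Finset.sum_congr rfl fun s _ => ?_
          rw [Pi.sub_apply, map_sub, mapP_apply, PowerSeries.coeff_map]
          ring
        rw [h4]
        refine Ideal.sub_mem _ h2 (Ideal.sum_mem _ fun s _ => ?_)
        rw [pow_succ]
        exact Ideal.mul_mem_mul (hw s) (hred s i n)
      exact hind _ h1 s
    have hf : ∀ s, ∃ c, El s = c * f := by
      intro s
      have h1 : El s ∈ RingHom.ker φ := hzero s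
      rw [hker, Ideal.mem_span_singleton'] at h1
      obtain ⟨c, hc⟩ := h1
      exact ⟨c, hc.symm⟩
    choose c hc using hf
    have hGf : In2 (maximalIdeal A) (G - map2 (algebraMap K A) f) := by
      rw [hT.in2_map π, map_sub, hG', hcomp, sub_self]
    obtain ⟨q', hq'⟩ : ∃ q' : A⟦X⟧⟦X⟧, q' = ∑ s, PowerSeries.C (PowerSeries.C (w s)) *
        map2 (algebraMap K A) (c s) := ⟨_, rfl⟩
    refine ⟨q + q', ?_⟩
    have h1 : H - (q + q') * G = (E - D) - ∑ s, (PowerSeries.C (PowerSeries.C (w s)) *
        map2 (algebraMap K A) (c s)) * (G - map2 (algebraMap K A) f) := by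
      have h2 : D = q' * map2 (algebraMap K A) f := by
        rw [hD, hq', Finset.sum_mul]
        refine Finset.sum_congr rfl fun s _ => ?_
        rw [hc s, map_mul]; ring
      rw [← Finset.sum_mul, ← hq', hE, h2]
      ring
    have h2 : ∀ s, In2 (maximalIdeal A ^ (k + 1)) ((PowerSeries.C (PowerSeries.C (w s)) *
        map2 (algebraMap K A) (c s)) * (G - map2 (algebraMap K A) f)) := by
      intro s
      rw [pow_succ]
      refine hT.in2_mul _ _ _ _ (fun i j => ?_) hGf
      rw [ker_filtration_coeff]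
      exact Ideal.mul_mem_right _ _ (hw s)
    rw [h1]
    intro i j
    rw [map_sub, map_sub, map_sum, map_sum]
    exact Ideal.sub_mem _ (hED i j) (Ideal.sum_mem _ fun s _ => h2 s i j)

end KER

end Pool.Agent.Helper819.DC
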