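import Mathlib

set_option autoImplicit false

open PowerSeries IsLocalRing TensorProduct

universe u

namespace Pool.Agent.Helper819.DC.TAY

/-- the partial derivative of `h ∈ A[[x]][[y]]` with respect to `x` -/
noncomputable def dx {A : Type u} [CommRing A] (h : A⟦X⟧⟦X⟧) : A⟦X⟧⟦X⟧ :=
  PowerSeries.mk fun n => d⁄dX A (PowerSeries.coeff n h)

/-- the partial derivative of `h ∈ A[[x]][[y]]` with respect to `y` -/
noncomputable def dy {A : Type u} [CommRing A] (h : A⟦X⟧⟦X⟧) : A⟦X⟧⟦X⟧ :=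
  d⁄dX (A⟦X⟧) h

theorem hom_local_aux {A : Type u} [CommRing A] [IsLocalRing A] (Φ : A⟦X⟧⟦X⟧ →ₐ[A] A⟦X⟧)
    (u : A⟦X⟧⟦X⟧) (hu : constantCoeff (constantCoeff u) = 0) : Φ u ∈ maximalIdeal A⟦X⟧ := by
  rw [mem_maximalIdeal, mem_nonunits_iff]
  intro hunit
  rw [PowerSeries.isUnit_iff_constantCoeff] at hunit
  obtain ⟨c, hc⟩ := hunit
  have h1 : IsUnit (1 - algebraMap A A⟦X⟧⟦X⟧ (↑c⁻¹ : A) * u) := by
    rw [PowerSeries.isUnit_iff_constantCoeff, PowerSeries.isUnit_iff_constantCoeff]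
    simp [hu]
  have h2 : IsUnit (Φ (1 - algebraMap A A⟦X⟧⟦X⟧ (↑c⁻¹ : A) * u)) := h1.map Φ
  rw [map_sub, map_one, map_mul, AlgHom.commutes, PowerSeries.isUnit_iff_constantCoeff, map_sub,
    map_one, map_mul, ← hc] at h2
  have h3 : constantCoeff (algebraMap A A⟦X⟧ (↑c⁻¹ : A)) = (↑c⁻¹ : A) := by
    rw [PowerSeries.algebraMap_apply]
    simp
  rw [h3] at h2
  simp at h2

/-- algebra homomorphisms to `A[[t]]` are local -/
theorem hom_local {A : Type u} [CommRing A] [IsLocalRing A] (Φ : A⟦X⟧⟦X⟧ →ₐ[A] A⟦X⟧) :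
    Φ (C X) ∈ maximalIdeal A⟦X⟧ ∧ Φ X ∈ maximalIdeal A⟦X⟧ := by
  constructor
  · apply hom_local_aux
    simp
  · apply hom_local_aux
    simp

theorem krull_aux {T : Type u} [CommRing T] [IsLocalRing T] [IsNoetherianRing T] (z x : T)
    (hx : x ∈ maximalIdeal T) (h : ∀ n : ℕ, ∃ w, z = x ^ n * w) : z = 0 := by
  have h1 : z ∈ ⨅ n : ℕ, maximalIdeal T ^ n := by
    rw [Ideal.mem_iInf]
    intro n
    obtain ⟨w, hw⟩ := h n
    rw [hw]
    exact Ideal.mul_mem_right _ _ (Ideal.pow_mem_pow hx n)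
  rw [Ideal.iInf_pow_eq_bot_of_isLocalRing _ (Ideal.IsPrime.ne_top')] at h1
  exact h1

theorem hom_unique_one {B T : Type u} [CommRing B] [CommRing T] [IsLocalRing T]
    [IsNoetherianRing T] (Φ Ψ : B⟦X⟧ →+* T) (hc : ∀ a : B, Φ (C a) = Ψ (C a))
    (hX : Φ X ∈ maximalIdeal T) (hX' : Φ X = Ψ X) : Φ = Ψ := by
  have hpoly : Φ.comp (Polynomial.coeToPowerSeries.ringHom) =
      Ψ.comp (Polynomial.coeToPowerSeries.ringHom) := by
    apply Polynomial.ringHom_ext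
    · intro a
      simpa using hc a
    · simpa using hX'
  have hpoly' : ∀ q : Polynomial B, Φ (q : B⟦X⟧) = Ψ (q : B⟦X⟧) := fun q =>
    RingHom.congr_fun hpoly q
  apply RingHom.ext
  intro f
  rw [← sub_eq_zero]
  apply krull_aux _ _ hX
  intro n
  refine ⟨Φ (mk fun i ↦ coeff (i + n) f) - Ψ (mk fun i ↦ coeff (i + n) f), ?_⟩
  conv_lhs => rw [PowerSeries.eq_X_pow_mul_shift_add_trunc n f]
  rw [map_add, map_add, map_mul, map_mul, map_pow, map_pow, hpoly', ← hX']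
  ring

/-- homomorphisms from `A[[x,y]]` to a separated ring are determined by the images of `x, y` -/
theorem hom_unique {A T : Type u} [CommRing A] [CommRing T] [IsLocalRing T] [IsNoetherianRing T]
    (Φ Ψ : A⟦X⟧⟦X⟧ →+* T) (hc : ∀ a : A, Φ (C (C a)) = Ψ (C (C a)))
    (hx : Φ (C X) ∈ maximalIdeal T) (hy : Φ X ∈ maximalIdeal T)
    (hx' : Φ (C X) = Ψ (C X)) (hy' : Φ X = Ψ X) : Φ = Ψ := by
  have h1 : Φ.comp (C : A⟦X⟧ →+* A⟦X⟧⟦X⟧) = Ψ.comp (C : A⟦X⟧ →+* A⟦X⟧⟦X⟧) :=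
    hom_unique_one _ _ hc hx hx'
  exact hom_unique_one Φ Ψ (fun a => RingHom.congr_fun h1 a) hy hy'

theorem dx_add {A : Type u} [CommRing A] (f g : A⟦X⟧⟦X⟧) : dx (f + g) = dx f + dx g := by
  ext n : 1
  simp [dx]

theorem dx_mul {A : Type u} [CommRing A] (f g : A⟦X⟧⟦X⟧) :
    dx (f * g) = f * dx g + g * dx f := by
  ext n : 1
  rw [map_add, PowerSeries.coeff_mul, mul_comm g, PowerSeries.coeff_mul]
  simp only [dx, PowerSeries.coeff_mk, PowerSeries.coeff_mul, map_sum, Derivation.leibniz,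
    smul_eq_mul]
  rw [← Finset.sum_add_distrib]
  apply Finset.sum_congr rfl
  intro q _
  ring

theorem dx_CC {A : Type u} [CommRing A] (a : A) : dx (C (C a) : A⟦X⟧⟦X⟧) = 0 := by
  ext n : 1
  simp only [dx, PowerSeries.coeff_mk, PowerSeries.coeff_C, map_zero]
  split_ifs
  · simp
  · simp

theorem dx_CX {A : Type u} [CommRing A] : dx (C X : A⟦X⟧⟦X⟧) = 1 := by
  ext n : 1
  simp only [dx, PowerSeries.coeff_mk, PowerSeries.coeff_C, PowerSeries.coeff_one]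
  split_ifs
  · simp
  · simp

theorem dx_X {A : Type u} [CommRing A] : dx (X : A⟦X⟧⟦X⟧) = 0 := by
  ext n : 1
  simp only [dx, PowerSeries.coeff_mk, PowerSeries.coeff_X, map_zero]
  split_ifs
  · simp
  · simp

theorem dx_one {A : Type u} [CommRing A] : dx (1 : A⟦X⟧⟦X⟧) = 0 := by
  have := dx_CC (1 : A)
  simpa using this

theorem dy_add {A : Type u} [CommRing A] (f g : A⟦X⟧⟦X⟧) : dy (f + g) = dy f + dy g := by
  simp [dy]

theorem dy_mul {A : Type u} [CommRing A] (f g : A⟦X⟧⟦X⟧) :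
    dy (f * g) = f * dy g + g * dy f := by
  simp [dy, Derivation.leibniz]

theorem dy_C {A : Type u} [CommRing A] (a : A⟦X⟧) : dy (C a : A⟦X⟧⟦X⟧) = 0 := by
  simp [dy]

theorem dy_X {A : Type u} [CommRing A] : dy (X : A⟦X⟧⟦X⟧) = 1 := by
  simp [dy]

theorem dy_one {A : Type u} [CommRing A] : dy (1 : A⟦X⟧⟦X⟧) = 0 := by
  have := dy_C (1 : A⟦X⟧)
  simpa using this

/-- first order Taylor expansion -/
theorem taylor {A T : Type u} [CommRing A] [CommRing T] [IsLocalRing T] [IsNoetherianRing T]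
    (Φ Ψ : A⟦X⟧⟦X⟧ →+* T) (hc : ∀ a : A, Φ (C (C a)) = Ψ (C (C a)))
    (hx : Φ (C X) ∈ maximalIdeal T) (hy : Φ X ∈ maximalIdeal T)
    (J : Ideal T) (hJ : J ≤ maximalIdeal T) (a b : T) (ha : a ∈ J) (hb : b ∈ J)
    (h1 : Ψ (C X) = Φ (C X) + a) (h2 : Ψ X = Φ X + b) (h : A⟦X⟧⟦X⟧) :
    Ψ h - (Φ h + Φ (dx h) * a + Φ (dy h) * b) ∈ J ^ 2 := by
  have hJ2 : J ^ 2 ≤ maximalIdeal T := (Ideal.pow_le_self two_ne_zero).trans hJ
  have hne : J ^ 2 ≠ ⊤ := fun h => Ideal.IsPrime.ne_top' (top_le_iff.mp (h ▸ hJ2) : maximalIdeal T = ⊤)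
  have : Nontrivial (T ⧸ J ^ 2) := Ideal.Quotient.nontrivial_iff.mpr hne
  have : IsLocalRing (T ⧸ J ^ 2) :=
    IsLocalRing.of_surjective' (Ideal.Quotient.mk (J ^ 2)) Ideal.Quotient.mk_surjective
  have hmem : ∀ z ∈ maximalIdeal T, Ideal.Quotient.mk (J ^ 2) z ∈ maximalIdeal (T ⧸ J ^ 2) := by
    intro z hz
    rw [mem_maximalIdeal, mem_nonunits_iff]
    intro hu
    obtain ⟨w, hw⟩ := hu.exists_right_inv
    obtain ⟨w, rfl⟩ := Ideal.Quotient.mk_surjective w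
    rw [← map_mul, ← map_one (Ideal.Quotient.mk (J ^ 2)), Ideal.Quotient.eq] at hw
    have h3 : (1 : T) ∈ maximalIdeal T := by
      have h4 := (maximalIdeal T).sub_mem ((maximalIdeal T).mul_mem_right w hz) (hJ2 hw)
      simpa using h4
    exact Ideal.IsPrime.ne_top' ((Ideal.eq_top_iff_one _).mpr h3)
  have haa : a * a ∈ J ^ 2 := by rw [pow_two]; exact Ideal.mul_mem_mul ha ha
  have hab : a * b ∈ J ^ 2 := by rw [pow_two]; exact Ideal.mul_mem_mul ha hb
  have hbb : b * b ∈ J ^ 2 := by rw [pow_two]; exact Ideal.mul_mem_mul hb hb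
  let Θ : A⟦X⟧⟦X⟧ →+* T ⧸ J ^ 2 :=
    { toFun := fun h => Ideal.Quotient.mk (J ^ 2) (Φ h + Φ (dx h) * a + Φ (dy h) * b)
      map_one' := by simp [dx_one, dy_one]
      map_zero' := by
        have e1 : dx (0 : A⟦X⟧⟦X⟧) = 0 := by
          have := dx_CC (0 : A); simpa using this
        have e2 : dy (0 : A⟦X⟧⟦X⟧) = 0 := by
          have := dy_C (0 : A⟦X⟧); simpa using this
        simp [e1, e2]
      map_add' := by
        intro f g
        rw [← map_add]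
        congr 1
        rw [dx_add, dy_add, map_add, map_add, map_add]
        ring
      map_mul' := by
        intro f g
        rw [← map_mul, Ideal.Quotient.eq]
        rw [dx_mul, dy_mul, map_add, map_add, map_mul, map_mul, map_mul, map_mul, map_mul]
        have e : Φ f * Φ g + (Φ f * Φ (dx g) + Φ g * Φ (dx f)) * a +
            (Φ f * Φ (dy g) + Φ g * Φ (dy f)) * b -
            (Φ f + Φ (dx f) * a + Φ (dy f) * b) * (Φ g + Φ (dx g) * a + Φ (dy g) * b) =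
            -(Φ (dx f) * Φ (dx g)) * (a * a) +
            -(Φ (dx f) * Φ (dy g) + Φ (dy f) * Φ (dx g)) * (a * b) +
            -(Φ (dy f) * Φ (dy g)) * (b * b) := by ring
        rw [e]
        exact add_mem (add_mem (Ideal.mul_mem_left _ _ haa) (Ideal.mul_mem_left _ _ hab))
          (Ideal.mul_mem_left _ _ hbb) }
  have hΘ : ∀ f, Θ f = Ideal.Quotient.mk (J ^ 2) (Φ f + Φ (dx f) * a + Φ (dy f) * b) :=
    fun f => rfl
  have key : Θ = (Ideal.Quotient.mk (J ^ 2)).comp Ψ := by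
    apply hom_unique
    · intro c
      rw [hΘ, dx_CC, dy_C, RingHom.comp_apply, ← hc]
      simp
    · rw [hΘ, dx_CX, dy_C]
      apply hmem
      simp only [map_one, map_zero, one_mul, zero_mul, add_zero]
      exact add_mem hx (hJ ha)
    · rw [hΘ, dx_X, dy_X]
      apply hmem
      simp only [map_one, map_zero, one_mul, zero_mul, add_zero]
      exact add_mem hy (hJ hb)
    · rw [hΘ, dx_CX, dy_C, RingHom.comp_apply, h1]
      simp
    · rw [hΘ, dx_X, dy_X, RingHom.comp_apply, h2]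
      simp
  have h3 := RingHom.congr_fun key h
  rw [hΘ, RingHom.comp_apply] at h3
  rw [← Ideal.Quotient.eq]
  exact h3.symm

theorem der_zero {B T : Type u} [CommRing B] [CommRing T] [IsLocalRing T] [IsNoetherianRing T]
    (Φ : B⟦X⟧ →+* T) (hX : Φ X ∈ maximalIdeal T) (E : B⟦X⟧ → T)
    (hadd : ∀ f g, E (f + g) = E f + E g) (hmul : ∀ f g, E (f * g) = Φ f * E g + Φ g * E f)
    (hC : ∀ b, E (C b) = 0) (hEX : E X = 0) (f : B⟦X⟧) : E f = 0 := by
  have h1 : E 1 = 0 := by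
    have := hC 1
    simpa using this
  have hpow : ∀ n : ℕ, E (X ^ n) = 0 := by
    intro n
    induction n with
    | zero => simpa using h1
    | succ n ih => rw [pow_succ, hmul, ih, hEX]; simp
  have hpoly : ∀ q : Polynomial B, E (q : B⟦X⟧) = 0 := by
    intro q
    induction q using Polynomial.induction_on' with
    | add p q hp hq => rw [Polynomial.coe_add, hadd, hp, hq, add_zero]
    | monomial n a =>
      have e : ((Polynomial.monomial n a : Polynomial B) : B⟦X⟧) = C a * X ^ n := by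
        rw [← Polynomial.C_mul_X_pow_eq_monomial, Polynomial.coe_mul, Polynomial.coe_C,
          Polynomial.coe_pow, Polynomial.coe_X]
      rw [e, hmul, hpow, hC]
      simp
  apply krull_aux _ _ hX
  intro n
  refine ⟨E (mk fun i ↦ coeff (i + n) f), ?_⟩
  conv_lhs => rw [PowerSeries.eq_X_pow_mul_shift_add_trunc n f]
  rw [hadd, hmul, hpow, hpoly, map_pow]
  ring

/-- the chain rule -/
theorem chain {A : Type u} [CommRing A] [IsLocalRing A] [IsNoetherianRing A]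
    (Φ : A⟦X⟧⟦X⟧ →ₐ[A] A⟦X⟧) (h : A⟦X⟧⟦X⟧) :
    d⁄dX A (Φ h) = Φ (dx h) * d⁄dX A (Φ (C X)) + Φ (dy h) * d⁄dX A (Φ X) := by
  let E : A⟦X⟧⟦X⟧ → A⟦X⟧ := fun h =>
    d⁄dX A (Φ h) - (Φ (dx h) * d⁄dX A (Φ (C X)) + Φ (dy h) * d⁄dX A (Φ X))
  have hE : ∀ f, E f = d⁄dX A (Φ f) - (Φ (dx f) * d⁄dX A (Φ (C X)) + Φ (dy f) * d⁄dX A (Φ X)) :=
    fun f => rfl
  have hadd : ∀ f g, E (f + g) = E f + E g := by
    intro f g
    rw [hE, hE, hE, dx_add, dy_add, map_add, map_add, map_add, map_add]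
    ring
  have hmul : ∀ f g, E (f * g) = Φ f * E g + Φ g * E f := by
    intro f g
    rw [hE, hE, hE, dx_mul, dy_mul, map_mul Φ f g, map_add, map_add, map_mul Φ f (dx g),
      map_mul Φ g (dx f), map_mul Φ f (dy g), map_mul Φ g (dy f), Derivation.leibniz,
      smul_eq_mul, smul_eq_mul]
    ring
  have hCC : ∀ a : A, E (C (C a)) = 0 := by
    intro a
    rw [hE, dx_CC, dy_C]
    have e : (C (C a) : A⟦X⟧⟦X⟧) = algebraMap A _ a := by
      rw [PowerSeries.algebraMap_apply, PowerSeries.algebraMap_apply]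
      rfl
    rw [e, AlgHom.commutes]
    simp
  have hCX : E (C X) = 0 := by
    rw [hE, dx_CX, dy_C]
    simp
  have hX : E X = 0 := by
    rw [hE, dx_X, dy_X]
    simp
  obtain ⟨hl1, hl2⟩ := hom_local Φ
  have hC : ∀ f : A⟦X⟧, E (C f) = 0 := by
    intro f
    refine der_zero ((Φ : A⟦X⟧⟦X⟧ →+* A⟦X⟧).comp (C : A⟦X⟧ →+* A⟦X⟧⟦X⟧)) hl1 (fun f => E (C f))
      ?_ ?_ hCC hCX f
    · intro f g
      show E (C (f + g)) = E (C f) + E (C g)
      rw [map_add, hadd]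
    · intro f g
      show E (C (f * g)) = Φ (C f) * E (C g) + Φ (C g) * E (C f)
      rw [map_mul, hmul]
  have h0 := der_zero (Φ : A⟦X⟧⟦X⟧ →+* A⟦X⟧) hl2 E hadd hmul hC hX h
  rw [hE, sub_eq_zero] at h0
  exact h0

end Pool.Agent.Helper819.DC.TAY
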