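import Pool.Agent.Helper819.DC.Core2

set_option autoImplicit false

open PowerSeries IsLocalRing TensorProduct

universe u

namespace Pool.Agent.Helper819.DC


namespace TB1

/-- gradient and velocity do not vanish identically on any branch -/
theorem grad_ne_zero {K : Type u} [Field K] {τ r : ℕ} (D : Setup K τ r) (i : Fin r) :
    ¬ (D.φ (dx D.f) i = 0 ∧ D.φ (dy D.f) i = 0) := by
  rintro ⟨h1, h2⟩
  have hf0 : D.φ D.f = 0 := by
    have : D.f ∈ RingHom.ker D.φ := by
      rw [D.ker]
      exact Ideal.mem_span_singleton_self D.f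
    exact this
  have hmem : ∀ h, D.φ h i ∈ Submodule.span K (Set.range (fun k => D.φ (D.g k) i)) := by
    intro h
    obtain ⟨σ, c, a, b, hh⟩ := D.span h
    have : D.φ h i = ∑ k, σ k • D.φ (D.g k) i := by
      conv_lhs => rw [hh]
      simp only [map_add, map_mul, map_sum, map_smul, hf0, Pi.add_apply, Pi.mul_apply,
        Finset.sum_apply, Pi.smul_apply, h1, h2, mul_zero, add_zero, Pi.zero_apply]
    rw [this]
    exact Submodule.sum_mem _ fun k _ => Submodule.smul_mem _ _ (Submodule.subset_span ⟨k, rfl⟩)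
  set W := Submodule.span K (Set.range (fun k => D.φ (D.g k) i)) with hW
  haveI : FiniteDimensional K W := FiniteDimensional.span_of_finite K (Set.finite_range _)
  let L : Polynomial K →ₗ[K] K⟦X⟧ :=
    (LinearMap.mulLeft K (D.φ D.d i)).comp (Polynomial.coeToPowerSeries.algHom K : Polynomial K →ₐ[K] K⟦X⟧).toLinearMap
  have hL : ∀ p, L p ∈ W := by
    intro p
    obtain ⟨a, ha⟩ := D.cond (fun _ => (Polynomial.coeToPowerSeries.algHom K : Polynomial K →ₐ[K] K⟦X⟧) p)
    have := hmem a
    rw [ha] at this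
    exact this
  have hLinj : Function.Injective (L.codRestrict W hL) := by
    intro p q hpq
    have h3 : L p = L q := congrArg Subtype.val hpq
    have h4 : D.φ D.d i * ((Polynomial.coeToPowerSeries.algHom K : Polynomial K →ₐ[K] K⟦X⟧) p) = D.φ D.d i * ((Polynomial.coeToPowerSeries.algHom K : Polynomial K →ₐ[K] K⟦X⟧) q) := h3
    have h5 := mul_left_cancel₀ (D.hd i) h4
    rw [Polynomial.coeToPowerSeries.algHom_apply, Polynomial.coeToPowerSeries.algHom_apply] at h5
    simp only [Algebra.algebraMap_self, PowerSeries.map_id, RingHom.id_apply] at h5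
    exact Polynomial.coe_injective K h5
  have hfin : Module.Finite K (Polynomial K) := Module.Finite.of_injective (L.codRestrict W hL) hLinj
  exact Polynomial.not_finite hfin

theorem vel_ne_zero (hT : Tools.{u}) (hB : BaseFacts.{u}) {K : Type u} [Field K] {τ r : ℕ}
    (D : Setup K τ r) (i : Fin r) :
    ¬ (dP (D.φ (C X)) i = 0 ∧ dP (D.φ X) i = 0) := by
  rintro ⟨h1, h2⟩
  have hall : ∀ h, d⁄dX K (D.φ h i) = 0 := by
    intro h
    have := congrFun (hT.chainP D.φ h) i
    rw [Pi.add_apply, Pi.mul_apply, Pi.mul_apply, h1, h2, mul_zero, mul_zero, add_zero] at this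
    exact this
  obtain ⟨a, ha⟩ := D.cond (fun _ => 1)
  obtain ⟨b, hb⟩ := D.cond (fun _ => X)
  have e1 := hall a
  have e2 := hall b
  rw [ha] at e1
  rw [hb] at e2
  have e3 : D.φ D.d i * (X : K⟦X⟧) = (D.φ D.d * (fun _ => X : Fin r → K⟦X⟧)) i := rfl
  have e4 : D.φ D.d i * (1 : K⟦X⟧) = (D.φ D.d * (fun _ => 1 : Fin r → K⟦X⟧)) i := rfl
  rw [← e3, Derivation.leibniz] at e2
  rw [← e4, mul_one] at e1
  rw [e1, smul_zero, add_zero] at e2
  have e5 : d⁄dX K (X : K⟦X⟧) = 1 := PowerSeries.derivative_X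
  rw [e5, smul_eq_mul, mul_one] at e2
  exact D.hd i e2

end TB1

end Pool.Agent.Helper819.DC
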