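import Pool.Agent.Helper819.DC.Core2

set_option autoImplicit false

open PowerSeries IsLocalRing TensorProduct

universe u

namespace Pool.Agent.Helper819.DC


namespace TB2

/-- the equation of the tangent space -/
noncomputable def eqn {K : Type u} [Field K] {τ r : ℕ} (D : Setup K τ r) :
    ((Fin τ → K) × (Fin r → K⟦X⟧) × (Fin r → K⟦X⟧)) →ₗ[K] (Fin r → K⟦X⟧) :=
  (Fintype.linearCombination K (fun k => D.φ (D.g k))) ∘ₗ (LinearMap.fst K _ _) +
    (LinearMap.mulLeft K (D.φ (dx D.f))) ∘ₗ (LinearMap.fst K _ _) ∘ₗ (LinearMap.snd K _ _) +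
    (LinearMap.mulLeft K (D.φ (dy D.f))) ∘ₗ (LinearMap.snd K _ _) ∘ₗ (LinearMap.snd K _ _)

theorem eqn_apply {K : Type u} [Field K] {τ r : ℕ} (D : Setup K τ r)
    (z : (Fin τ → K) × (Fin r → K⟦X⟧) × (Fin r → K⟦X⟧)) :
    eqn D z = ∑ k, z.1 k • D.φ (D.g k) + D.φ (dx D.f) * z.2.1 + D.φ (dy D.f) * z.2.2 := by
  simp [eqn, Fintype.linearCombination_apply]

/-- reparametrisations -/
noncomputable def rep {K : Type u} [Field K] {τ r : ℕ} (D : Setup K τ r) :
    (Fin r → K⟦X⟧) →ₗ[K] ((Fin τ → K) × (Fin r → K⟦X⟧) × (Fin r → K⟦X⟧)) :=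
  LinearMap.prod 0 (LinearMap.prod (LinearMap.mulRight K (dP (D.φ (C X))))
    (LinearMap.mulRight K (dP (D.φ X))))

theorem rep_apply {K : Type u} [Field K] {τ r : ℕ} (D : Setup K τ r) (h : Fin r → K⟦X⟧) :
    rep D h = (0, h * dP (D.φ (C X)), h * dP (D.φ X)) := by
  simp [rep]

/-- coefficients -/
noncomputable def cof {K : Type u} [Field K] (τ r N : ℕ) :
    ((Fin τ → K) × (Fin r → K⟦X⟧) × (Fin r → K⟦X⟧)) →ₗ[K]
      ((Fin τ → K) × (Fin r → Fin N → K) × (Fin r → Fin N → K)) where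
  toFun z := (z.1, (fun i n => coeff (n : ℕ) (z.2.1 i)), (fun i n => coeff (n : ℕ) (z.2.2 i)))
  map_add' z z' := by
    ext <;> simp
  map_smul' c z := by
    ext <;> simp

theorem chain0 (hT : Tools.{u}) {K : Type u} [Field K] {τ r : ℕ} (D : Setup K τ r) (i : Fin r) :
    D.φ (dx D.f) i * dP (D.φ (C X)) i + D.φ (dy D.f) i * dP (D.φ X) i = 0 := by
  have h1 := hT.chainP D.φ D.f
  have h2 : D.φ D.f = 0 := by
    have : D.f ∈ RingHom.ker D.φ := by
      rw [D.ker]; exact Ideal.mem_span_singleton_self _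
    exact this
  have h3 := congrFun h1 i
  rw [h2] at h3
  simp only [dP, Pi.zero_apply, map_zero, Pi.add_apply, Pi.mul_apply] at h3
  exact h3.symm

theorem dvd_X_pow {K : Type u} [Field K] (u : K⟦X⟧) (hu : u ≠ 0) : ∃ e : ℕ, u ∣ X ^ e := by
  obtain ⟨e, he⟩ := IsDiscreteValuationRing.associated_pow_irreducible hu
    (PowerSeries.X_irreducible (R := K))
  exact ⟨e, he.dvd⟩

theorem exists_N {K : Type u} [Field K] {r : ℕ} (x y : Fin r → K⟦X⟧) :
    ∃ N : ℕ, ∀ i, (x i ≠ 0 → x i ∣ X ^ N) ∧ (y i ≠ 0 → y i ∣ X ^ N) := by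
  have h1 : ∀ i, ∃ e : ℕ, (x i ≠ 0 → x i ∣ X ^ e) ∧ (y i ≠ 0 → y i ∣ X ^ e) := by
    intro i
    have hx : ∃ e : ℕ, (x i ≠ 0 → x i ∣ X ^ e) := by
      by_cases h : x i = 0
      · exact ⟨0, fun h' => absurd h h'⟩
      · obtain ⟨e, he⟩ := dvd_X_pow _ h
        exact ⟨e, fun _ => he⟩
    have hy : ∃ e : ℕ, (y i ≠ 0 → y i ∣ X ^ e) := by
      by_cases h : y i = 0
      · exact ⟨0, fun h' => absurd h h'⟩
      · obtain ⟨e, he⟩ := dvd_X_pow _ h
        exact ⟨e, fun _ => he⟩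
    obtain ⟨e1, he1⟩ := hx
    obtain ⟨e2, he2⟩ := hy
    exact ⟨max e1 e2, fun h => (he1 h).trans (pow_dvd_pow _ (le_max_left _ _)),
      fun h => (he2 h).trans (pow_dvd_pow _ (le_max_right _ _))⟩
  choose e he using h1
  refine ⟨Finset.univ.sup e, fun i => ⟨fun h => ((he i).1 h).trans (pow_dvd_pow _ ?_),
    fun h => ((he i).2 h).trans (pow_dvd_pow _ ?_)⟩⟩
  · exact Finset.le_sup (f := e) (Finset.mem_univ i)
  · exact Finset.le_sup (f := e) (Finset.mem_univ i)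

theorem branch {R : Type u} [CommRing R] [IsDomain R] (p q x y a b T : R)
    (hpq : ¬ (p = 0 ∧ q = 0)) (hxy : ¬ (x = 0 ∧ y = 0)) (h1 : p * x + q * y = 0)
    (h2 : p * a + q * b = 0) (hx : x ≠ 0 → x ∣ T) (hy : y ≠ 0 → y ∣ T) (ha : T ∣ a) (hb : T ∣ b) :
    ∃ h, a = h * x ∧ b = h * y := by
  have hdet : x * b - a * y = 0 := by
    have e1 : p * (x * b - a * y) = 0 := by linear_combination b * h1 - y * h2
    have e2 : q * (x * b - a * y) = 0 := by linear_combination x * h2 - a * h1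
    by_cases hp : p = 0
    · have hq : q ≠ 0 := fun hq => hpq ⟨hp, hq⟩
      exact (mul_eq_zero.mp e2).resolve_left hq
    · exact (mul_eq_zero.mp e1).resolve_left hp
  by_cases hx0 : x = 0
  · have hy0 : y ≠ 0 := fun hy0 => hxy ⟨hx0, hy0⟩
    obtain ⟨h, hh⟩ := (hy hy0).trans hb
    refine ⟨h, ?_, by rw [hh]; ring⟩
    rw [hx0] at hdet ⊢
    have : a * y = 0 := by linear_combination -hdet
    rw [mul_zero]
    exact (mul_eq_zero.mp this).resolve_right hy0
  · obtain ⟨h, hh⟩ := (hx hx0).trans ha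
    refine ⟨h, by rw [hh]; ring, ?_⟩
    have : x * (b - h * y) = 0 := by
      rw [hh] at hdet
      linear_combination hdet
    exact sub_eq_zero.mp ((mul_eq_zero.mp this).resolve_left hx0)

theorem kernel_le (hT : Tools.{u}) {K : Type u} [Field K] {τ r : ℕ} (D : Setup K τ r)
    (hgrad : ∀ i, ¬ (D.φ (dx D.f) i = 0 ∧ D.φ (dy D.f) i = 0))
    (hvel : ∀ i, ¬ (dP (D.φ (C X)) i = 0 ∧ dP (D.φ X) i = 0)) :
    ∃ N : ℕ, ∀ z, eqn D z = 0 → cof τ r N z = 0 → z ∈ LinearMap.range (rep D) := by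
  obtain ⟨N, hN⟩ := exists_N (dP (D.φ (C X))) (dP (D.φ X))
  refine ⟨N, fun z hz hc => ?_⟩
  obtain ⟨s, a, b⟩ := z
  have hs : s = 0 := congrArg Prod.fst hc
  subst hs
  have ha : ∀ i, X ^ N ∣ a i := by
    intro i
    rw [PowerSeries.X_pow_dvd_iff]
    intro n hn
    have h1 := congrFun (congrFun (congrArg (fun t => t.2.1) hc) i) ⟨n, hn⟩
    exact h1
  have hb : ∀ i, X ^ N ∣ b i := by
    intro i
    rw [PowerSeries.X_pow_dvd_iff]
    intro n hn
    have h1 := congrFun (congrFun (congrArg (fun t => t.2.2) hc) i) ⟨n, hn⟩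
    exact h1
  rw [eqn_apply] at hz
  have hbr : ∀ i, ∃ h, a i = h * dP (D.φ (C X)) i ∧ b i = h * dP (D.φ X) i := by
    intro i
    refine branch (D.φ (dx D.f) i) (D.φ (dy D.f) i) _ _ _ _ (X ^ N) (hgrad i) (hvel i)
      (chain0 hT D i) ?_ (hN i).1 (hN i).2 (ha i) (hb i)
    have h1 := congrFun hz i
    simpa using h1
  choose h hh using hbr
  refine ⟨h, ?_⟩
  rw [rep_apply]
  refine Prod.ext rfl (Prod.ext ?_ ?_)
  · funext i; exact (hh i).1.symm
  · funext i; exact (hh i).2.symm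

theorem fin_quot (hT : Tools.{u}) {K : Type u} [Field K] {τ r : ℕ} (D : Setup K τ r)
    (hgrad : ∀ i, ¬ (D.φ (dx D.f) i = 0 ∧ D.φ (dy D.f) i = 0))
    (hvel : ∀ i, ¬ (dP (D.φ (C X)) i = 0 ∧ dP (D.φ X) i = 0)) :
    Module.Finite K ((LinearMap.ker (eqn D)) ⧸
      ((LinearMap.range (rep D)).comap (LinearMap.ker (eqn D)).subtype)) := by
  obtain ⟨N, hN⟩ := kernel_le hT D hgrad hvel
  let L : (LinearMap.ker (eqn D)) →ₗ[K] _ := (cof (K := K) τ r N) ∘ₗ (LinearMap.ker (eqn D)).subtype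
  have hle : LinearMap.ker L ≤ (LinearMap.range (rep D)).comap (LinearMap.ker (eqn D)).subtype := by
    intro z hz
    exact hN z.1 z.2 hz
  have h1 : Module.Finite K ((LinearMap.ker (eqn D)) ⧸ LinearMap.ker L) :=
    Module.Finite.equiv (LinearMap.quotKerEquivRange L).symm
  exact Module.Finite.of_surjective (Submodule.factor hle) (Submodule.factor_surjective hle)

/-- the tangent space of simultaneous parametrisations modulo reparametrisations is finite
dimensional -/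
theorem exists_tbasis (hT : Tools.{u}) {K : Type u} [Field K] {τ r : ℕ} (D : Setup K τ r)
    (hgrad : ∀ i, ¬ (D.φ (dx D.f) i = 0 ∧ D.φ (dy D.f) i = 0))
    (hvel : ∀ i, ¬ (dP (D.φ (C X)) i = 0 ∧ dP (D.φ X) i = 0)) :
    Nonempty (TBasis D) := by
  haveI := fin_quot hT D hgrad hvel
  set W := (LinearMap.range (rep D)).comap (LinearMap.ker (eqn D)).subtype with hW
  let B := Module.finBasis K ((LinearMap.ker (eqn D)) ⧸ W)
  choose e he using fun j => W.mkQ_surjective (B j)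
  have hsum1 : ∀ c : Fin (Module.finrank K ((LinearMap.ker (eqn D)) ⧸ W)) → K,
      ((∑ j, c j • e j : LinearMap.ker (eqn D)) : (Fin τ → K) × (Fin r → K⟦X⟧) × (Fin r → K⟦X⟧)) =
        (∑ j, c j • (e j).1.1, ∑ j, c j • (e j).1.2.1, ∑ j, c j • (e j).1.2.2) := by
    intro c
    rw [Submodule.coe_sum]
    refine Prod.ext ?_ (Prod.ext ?_ ?_)
    · simp [Prod.fst_sum]
    · simp [Prod.fst_sum, Prod.snd_sum]
    · simp [Prod.snd_sum]
  refine ⟨⟨_, fun j => (e j).1.1, fun j => (e j).1.2.1, fun j => (e j).1.2.2, ?_, ?_, ?_⟩⟩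
  · intro j
    have h1 : eqn D (e j).1 = 0 := (e j).2
    rw [eqn_apply] at h1
    exact h1
  · intro s a b hsab
    have hz : ((s, a, b) : (Fin τ → K) × (Fin r → K⟦X⟧) × (Fin r → K⟦X⟧)) ∈ LinearMap.ker (eqn D) := by
      rw [LinearMap.mem_ker, eqn_apply]
      exact hsab
    let z : LinearMap.ker (eqn D) := ⟨(s, a, b), hz⟩
    let c := B.repr (W.mkQ z)
    have h1 : W.mkQ z = W.mkQ (∑ j, c j • e j) := by
      rw [map_sum]
      simp only [map_smul, he]
      exact (B.sum_repr (W.mkQ z)).symm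
    have h2 : z - ∑ j, c j • e j ∈ W := by
      refine (Submodule.Quotient.mk_eq_zero W).mp ?_
      show W.mkQ (z - ∑ j, c j • e j) = 0
      rw [map_sub, h1, sub_self]
    obtain ⟨h, hh⟩ := h2
    rw [rep_apply, map_sub] at hh
    simp only [Submodule.subtype_apply] at hh
    rw [hsum1] at hh
    refine ⟨c, h, ?_, ?_, ?_⟩
    · have h3 : (0 : Fin τ → K) = s - ∑ j, c j • (e j).1.1 := congrArg Prod.fst hh
      exact (sub_eq_zero.mp h3.symm)
    · have h3 : h * dP (D.φ (C X)) = a - ∑ j, c j • (e j).1.2.1 := congrArg (fun t => t.2.1) hh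
      rw [h3]; abel
    · have h3 : h * dP (D.φ X) = b - ∑ j, c j • (e j).1.2.2 := congrArg (fun t => t.2.2) hh
      rw [h3]; abel
  · intro c h h1 h2 h3
    have h4 : (∑ j, c j • e j) ∈ W := by
      refine ⟨h, ?_⟩
      rw [rep_apply]
      simp only [Submodule.subtype_apply]
      rw [hsum1, h1, h2, h3]
    have h5 : W.mkQ (∑ j, c j • e j) = 0 := (Submodule.Quotient.mk_eq_zero W).mpr h4
    rw [map_sum] at h5
    simp only [map_smul, he] at h5
    have h6 := (Fintype.linearIndependent_iff.mp B.linearIndependent) c h5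
    funext j
    exact h6 j

end TB2

end Pool.Agent.Helper819.DC
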