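import Pool.Agent.Helper819.DC.Core

set_option autoImplicit false

open PowerSeries IsLocalRing TensorProduct

universe u

namespace Pool.Agent.Helper819.DC


namespace TLA


theorem algMap2 {A : Type u} [CommRing A] (a : A) :
    algebraMap A A⟦X⟧⟦X⟧ a = C (C a) := by
  rw [PowerSeries.algebraMap_apply, PowerSeries.algebraMap_apply]
  rfl

attribute [-instance] PowerSeries.algebraPowerSeries MvPowerSeries.algebraMvPowerSeries in
theorem ev2 (hB : BaseFacts.{u}) {A T : Type u} [CommRing A] [CommRing T] [Algebra A T]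
    (I : Ideal T) [IsAdicComplete I T] (x₀ y₀ : T) (hx : x₀ ∈ I) (hy : y₀ ∈ I) :
    ∃ Φ : A⟦X⟧⟦X⟧ →ₐ[A] T, Φ (C X) = x₀ ∧ Φ X = y₀ := by
  obtain ⟨φ1, h1⟩ := hB.ev_exists (A := A) (T := T) I x₀ hx
  letI : Algebra A⟦X⟧ T := φ1.toRingHom.toAlgebra
  obtain ⟨φ2, h2⟩ := hB.ev_exists (A := A⟦X⟧) (T := T) I y₀ hy
  have hC : ∀ p : A⟦X⟧, φ2 (C p) = φ1 p := fun p => φ2.commutes p
  refine ⟨{ toRingHom := φ2.toRingHom, commutes' := fun a => ?_ }, ?_, ?_⟩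
  · show φ2 (algebraMap A A⟦X⟧⟦X⟧ a) = algebraMap A T a
    rw [algMap2, hC]
    exact φ1.commutes a
  · show φ2 (C X) = x₀
    rw [hC, h1]
  · exact h2

theorem map2_CX {A A' : Type u} [CommRing A] [CommRing A'] (ψ : A →+* A') :
    map2 ψ (C X) = C X := by
  simp [map2]

theorem map2_X {A A' : Type u} [CommRing A] [CommRing A'] (ψ : A →+* A') :
    map2 ψ X = X := by
  simp [map2]

theorem map2_CC {A A' : Type u} [CommRing A] [CommRing A'] (ψ : A →+* A') (a : A) :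
    map2 ψ (C (C a)) = C (C (ψ a)) := by
  simp [map2]

theorem par_local' (hB : BaseFacts.{u}) {A : Type u} [CommRing A] [IsLocalRing A] {r : ℕ}
    (Φ : A⟦X⟧⟦X⟧ →ₐ[A] (Fin r → A⟦X⟧)) (i : Fin r) :
    Φ (C X) i ∈ maximalIdeal A⟦X⟧ ∧ Φ X i ∈ maximalIdeal A⟦X⟧ :=
  hB.hom_local ((Pi.evalAlgHom A (fun _ : Fin r => A⟦X⟧) i).comp Φ)

theorem par_const {A : Type u} [CommRing A] {r : ℕ}
    (Φ : A⟦X⟧⟦X⟧ →ₐ[A] (Fin r → A⟦X⟧)) (i : Fin r) (a : A) : Φ (C (C a)) i = C a := by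
  have h := Φ.commutes a
  rw [algMap2] at h
  rw [h]
  rfl

theorem push' (hB : BaseFacts.{u}) {A A' : Type u} [CommRing A] [CommRing A'] [IsLocalRing A']
    [IsNoetherianRing A'] (ψ : A →+* A') {r : ℕ} (Φ : A⟦X⟧⟦X⟧ →ₐ[A] (Fin r → A⟦X⟧))
    (Φ' : A'⟦X⟧⟦X⟧ →ₐ[A'] (Fin r → A'⟦X⟧)) (h1 : Φ' (C X) = mapP ψ (Φ (C X)))
    (h2 : Φ' X = mapP ψ (Φ X)) (h : A⟦X⟧⟦X⟧) : Φ' (map2 ψ h) = mapP ψ (Φ h) := by
  funext i
  have key := hB.hom_unique (A := A) (T := A'⟦X⟧)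
    (((Pi.evalRingHom (fun _ : Fin r => A'⟦X⟧) i).comp Φ'.toRingHom).comp (map2 ψ))
    ((PowerSeries.map ψ).comp ((Pi.evalRingHom (fun _ : Fin r => A⟦X⟧) i).comp Φ.toRingHom))
    (by
      intro a
      show Φ' (map2 ψ (C (C a))) i = PowerSeries.map ψ (Φ (C (C a)) i)
      rw [map2_CC, par_const, par_const]
      simp) (by
      show Φ' (map2 ψ (C X)) i ∈ _
      rw [map2_CX]
      exact (par_local' hB Φ' i).1) (by
      show Φ' (map2 ψ X) i ∈ _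
      rw [map2_X]
      exact (par_local' hB Φ' i).2) (by
      show Φ' (map2 ψ (C X)) i = PowerSeries.map ψ (Φ (C X) i)
      rw [map2_CX, h1]
      rfl) (by
      show Φ' (map2 ψ X) i = PowerSeries.map ψ (Φ X i)
      rw [map2_X, h2]
      rfl)
  exact DFunLike.congr_fun key h

theorem toolsA (hB : BaseFacts.{u}) : ToolsA.{u} where
  par_exists := by
    intro A _ _ _ _ r x₀ y₀ hx hy
    haveI := hB.complete_powerSeries (A := A)
    have h : ∀ i, ∃ Φ : A⟦X⟧⟦X⟧ →ₐ[A] A⟦X⟧, Φ (C X) = x₀ i ∧ Φ X = y₀ i :=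
      fun i => ev2 hB (maximalIdeal A⟦X⟧) (x₀ i) (y₀ i) (hx i) (hy i)
    choose Φ h1 h2 using h
    exact ⟨AlgHom.pi Φ, funext h1, funext h2⟩
  par_local := fun Φ i => par_local' hB Φ i
  end_exists := by
    intro A _ _ _ _ x₀ y₀ hx hy
    haveI := hB.complete_powerSeries (A := A)
    haveI := hB.complete_powerSeries (A := A⟦X⟧)
    exact ev2 hB (maximalIdeal A⟦X⟧⟦X⟧) x₀ y₀ hx hy
  push := fun ψ _ Φ Φ' h1 h2 h => push' hB ψ Φ Φ' h1 h2 h
  lifts_iff := by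
    intro K A _ _ _ π r φ Φ
    constructor
    · intro h
      refine ⟨?_, ?_⟩
      · rw [h, map2_CX]
      · rw [h, map2_X]
    · rintro ⟨h1, h2⟩ h
      exact (push' hB (π : A →+* K) Φ φ h1.symm h2.symm h).symm

end TLA

end Pool.Agent.Helper819.DC
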