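import Pool.Agent.Helper819.DC.Core

set_option autoImplicit false

open PowerSeries IsLocalRing TensorProduct

universe u

namespace Pool.Agent.Helper819.DC


namespace TLB

theorem mem_ker_iff {K A : Type u} [Field K] [CommRing A] [IsLocalRing A] [Algebra K A]
    (π : A →ₐ[K] K) (a : A) : a ∈ maximalIdeal A ↔ π a = 0 := by
  have hs : Function.Surjective (π : A →+* K) := fun k => ⟨algebraMap K A k, by simp⟩
  have h1 : (RingHom.ker (π : A →+* K)).IsMaximal := RingHom.ker_isMaximal_of_surjective _ hs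
  rw [← IsLocalRing.eq_maximalIdeal h1, RingHom.mem_ker]
  rfl

theorem alg1 {A : Type u} [CommRing A] (a : A) : algebraMap A A⟦X⟧ a = PowerSeries.C a := by
  rw [PowerSeries.algebraMap_apply, Algebra.algebraMap_self_apply]

theorem alg2 {A : Type u} [CommRing A] (a : A) :
    algebraMap A A⟦X⟧⟦X⟧ a = PowerSeries.C (PowerSeries.C a) := by
  rw [PowerSeries.algebraMap_apply, alg1]

theorem in2_iff (hB : BaseFacts.{u}) {A : Type u} [CommRing A] [IsNoetherianRing A] (I : Ideal A)
    (h : A⟦X⟧⟦X⟧) :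
    In2 I h ↔ h ∈ I.map ((PowerSeries.C : A⟦X⟧ →+* A⟦X⟧⟦X⟧).comp
      (PowerSeries.C : A →+* A⟦X⟧)) := by
  rw [← Ideal.map_map, hB.mem_map_C]
  simp only [hB.mem_map_C]
  unfold In2
  exact forall_comm

theorem toolsB (hB : BaseFacts.{u}) : ToolsB.{u} where
  in2_iff := fun I h => in2_iff hB I h
  inP_iff := by
    intro A _ _ I r w
    simp only [hB.mem_map_C]
    rfl
  par_in := by
    intro A _ _ I r Φ h hh
    rw [in2_iff hB] at hh
    intro i
    rw [← hB.mem_map_C I]
    have h1 := Ideal.mem_map_of_mem ((Pi.evalRingHom (fun _ : Fin r => A⟦X⟧) i).comp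
      (Φ : A⟦X⟧⟦X⟧ →+* (Fin r → A⟦X⟧))) hh
    rw [Ideal.map_map] at h1
    have h2 : (((Pi.evalRingHom (fun _ : Fin r => A⟦X⟧) i).comp
      (Φ : A⟦X⟧⟦X⟧ →+* (Fin r → A⟦X⟧))).comp ((PowerSeries.C : A⟦X⟧ →+* A⟦X⟧⟦X⟧).comp
      (PowerSeries.C : A →+* A⟦X⟧))) = (PowerSeries.C : A →+* A⟦X⟧) := by
      apply RingHom.ext
      intro a
      have h3 : Φ (algebraMap A A⟦X⟧⟦X⟧ a) = algebraMap A _ a := Φ.commutes a
      have h4 := congrFun h3 i
      rw [alg2, Pi.algebraMap_apply, alg1] at h4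
      exact h4
    rw [h2] at h1
    exact h1
  end_in := by
    intro A _ _ I Θ h hh
    rw [in2_iff hB] at hh ⊢
    have h1 := Ideal.mem_map_of_mem (Θ : A⟦X⟧⟦X⟧ →+* A⟦X⟧⟦X⟧) hh
    rw [Ideal.map_map] at h1
    have h2 : ((Θ : A⟦X⟧⟦X⟧ →+* A⟦X⟧⟦X⟧).comp ((PowerSeries.C : A⟦X⟧ →+* A⟦X⟧⟦X⟧).comp
      (PowerSeries.C : A →+* A⟦X⟧))) = ((PowerSeries.C : A⟦X⟧ →+* A⟦X⟧⟦X⟧).comp
      (PowerSeries.C : A →+* A⟦X⟧)) := by
      apply RingHom.ext
      intro a
      have h3 := Θ.commutes a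
      rw [alg2] at h3
      exact h3
    rw [h2] at h1
    exact h1
  in2_mul := by
    intro A _ I J h k hh hk i j
    rw [PowerSeries.coeff_mul, map_sum]
    refine Ideal.sum_mem _ fun p _ => ?_
    rw [PowerSeries.coeff_mul]
    exact Ideal.sum_mem _ fun q _ => Ideal.mul_mem_mul (hh _ _) (hk _ _)
  inP_mul := by
    intro A _ I J r v w hv hw i n
    rw [Pi.mul_apply, PowerSeries.coeff_mul]
    exact Ideal.sum_mem _ fun q _ => Ideal.mul_mem_mul (hv _ _) (hw _ _)
  in2_map := by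
    intro K A _ _ _ _ π h
    constructor
    · intro hh
      ext j i
      have h1 := (mem_ker_iff π _).1 (hh i j)
      simp only [map2, PowerSeries.coeff_map, map_zero]
      exact h1
    · intro hh i j
      rw [mem_ker_iff π]
      have h1 := congrArg (fun w => PowerSeries.coeff i (PowerSeries.coeff j w)) hh
      simp only [map2, PowerSeries.coeff_map, map_zero] at h1
      exact h1
  inP_map := by
    intro K A _ _ _ _ π r w
    constructor
    · intro hh
      ext i n
      have h1 := (mem_ker_iff π _).1 (hh i n)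
      rw [mapP_apply, PowerSeries.coeff_map]
      exact h1
    · intro hh i n
      rw [mem_ker_iff π]
      have h1 := congrArg (fun w => PowerSeries.coeff n w) (congrFun hh i)
      simp only [mapP_apply, PowerSeries.coeff_map, Pi.zero_apply, map_zero] at h1
      exact h1

end TLB

end Pool.Agent.Helper819.DC
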