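import Pool.Agent.Helper819.DC.Core

set_option autoImplicit false

open PowerSeries IsLocalRing TensorProduct

universe u

namespace Pool.Agent.Helper819.DC


namespace TLC

theorem map_C_le {A : Type u} [CommRing A] [IsLocalRing A] (I : Ideal A) (hI : I ≤ maximalIdeal A) :
    I.map (PowerSeries.C : A →+* A⟦X⟧) ≤ maximalIdeal A⟦X⟧ := by
  rw [Ideal.map_le_iff_le_comap]
  intro a ha
  rw [Ideal.mem_comap, mem_maximalIdeal, mem_nonunits_iff]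
  intro hu
  have h1 := PowerSeries.isUnit_constantCoeff _ hu
  rw [PowerSeries.constantCoeff_C] at h1
  exact (mem_maximalIdeal a).1 (hI ha) h1

theorem algMap2 {A : Type u} [CommRing A] (a : A) :
    (algebraMap A A⟦X⟧⟦X⟧) a = C (C a) := by
  rw [PowerSeries.algebraMap_apply, PowerSeries.algebraMap_apply]
  rfl

theorem commC {A T : Type u} [CommRing A] [CommRing T] [Algebra A T]
    (Φ : A⟦X⟧⟦X⟧ →ₐ[A] T) (a : A) : Φ (C (C a)) = algebraMap A T a := by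
  rw [← algMap2]
  exact Φ.commutes a

theorem map_pow_C {A : Type u} [CommRing A] (I : Ideal A) (n : ℕ) :
    (I.map (PowerSeries.C : A →+* A⟦X⟧)) ^ n = (I ^ n).map (PowerSeries.C : A →+* A⟦X⟧) :=
  (Ideal.map_pow _ _ _).symm

theorem In2_mono {A : Type u} [CommRing A] {I J : Ideal A} (h : I ≤ J) {w : A⟦X⟧⟦X⟧}
    (hw : In2 I w) : In2 J w := fun i j => h (hw i j)

theorem InP_mono {A : Type u} [CommRing A] {I J : Ideal A} (h : I ≤ J) {r : ℕ} {w : Fin r → A⟦X⟧}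
    (hw : InP I w) : InP J w := fun i j => h (hw i j)

theorem taylorP (hB : BaseFacts.{u}) (hTB : ToolsB.{u}) {A : Type u} [CommRing A] [IsLocalRing A]
    [IsNoetherianRing A] {r : ℕ}
    (Φ Ψ : A⟦X⟧⟦X⟧ →ₐ[A] (Fin r → A⟦X⟧)) (I : Ideal A) (hI : I ≤ maximalIdeal A)
    (a b : Fin r → A⟦X⟧) (ha : InP I a) (hb : InP I b) (h1 : Ψ (C X) = Φ (C X) + a)
    (h2 : Ψ X = Φ X + b) (h : A⟦X⟧⟦X⟧) :
    InP (I ^ 2) (Ψ h - (Φ h + Φ (dx h) * a + Φ (dy h) * b)) := by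
  rw [hTB.inP_iff]
  intro i
  rw [hTB.inP_iff] at ha hb
  have hloc := hB.hom_local ((Pi.evalAlgHom A (fun _ : Fin r => A⟦X⟧) i).comp Φ)
  have := hB.taylor (A := A) (T := A⟦X⟧)
    (((Pi.evalAlgHom A (fun _ : Fin r => A⟦X⟧) i).comp Φ : A⟦X⟧⟦X⟧ →ₐ[A] A⟦X⟧) : A⟦X⟧⟦X⟧ →+* A⟦X⟧)
    (((Pi.evalAlgHom A (fun _ : Fin r => A⟦X⟧) i).comp Ψ : A⟦X⟧⟦X⟧ →ₐ[A] A⟦X⟧) : A⟦X⟧⟦X⟧ →+* A⟦X⟧)
    (fun c => (commC ((Pi.evalAlgHom A (fun _ : Fin r => A⟦X⟧) i).comp Φ) c).trans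
      (commC ((Pi.evalAlgHom A (fun _ : Fin r => A⟦X⟧) i).comp Ψ) c).symm)
    hloc.1 hloc.2 (I.map (PowerSeries.C : A →+* A⟦X⟧)) (map_C_le I hI) (a i) (b i) (ha i) (hb i)
    (congrFun h1 i) (congrFun h2 i) h
  rw [map_pow_C] at this
  exact this

theorem taylor2 (hB : BaseFacts.{u}) (hTB : ToolsB.{u}) {A : Type u} [CommRing A] [IsLocalRing A]
    [IsNoetherianRing A]
    (Θ Ξ : A⟦X⟧⟦X⟧ →ₐ[A] A⟦X⟧⟦X⟧) (hΘ1 : Θ (C X) ∈ maximalIdeal A⟦X⟧⟦X⟧)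
    (hΘ2 : Θ X ∈ maximalIdeal A⟦X⟧⟦X⟧) (I : Ideal A) (hI : I ≤ maximalIdeal A)
    (a b : A⟦X⟧⟦X⟧) (ha : In2 I a) (hb : In2 I b) (h1 : Ξ (C X) = Θ (C X) + a)
    (h2 : Ξ X = Θ X + b) (h : A⟦X⟧⟦X⟧) :
    In2 (I ^ 2) (Ξ h - (Θ h + Θ (dx h) * a + Θ (dy h) * b)) := by
  rw [hTB.in2_iff] at ha hb ⊢
  rw [← Ideal.map_map] at ha hb ⊢
  rw [← map_pow_C, ← map_pow_C]
  exact hB.taylor (A := A) (T := A⟦X⟧⟦X⟧) (Θ : A⟦X⟧⟦X⟧ →+* A⟦X⟧⟦X⟧) (Ξ : A⟦X⟧⟦X⟧ →+* A⟦X⟧⟦X⟧)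
    (fun c => (commC Θ c).trans (commC Ξ c).symm) hΘ1 hΘ2
    ((I.map (PowerSeries.C : A →+* A⟦X⟧)).map (PowerSeries.C : A⟦X⟧ →+* A⟦X⟧⟦X⟧))
    (map_C_le _ (map_C_le I hI)) a b ha hb h1 h2 h

theorem mulIn2 (hTB : ToolsB.{u}) {A : Type u} [CommRing A] [IsNoetherianRing A] {I : Ideal A}
    (h : A⟦X⟧⟦X⟧) {k : A⟦X⟧⟦X⟧} (hk : In2 I k) : In2 I (h * k) := by
  rw [hTB.in2_iff] at hk ⊢
  exact Ideal.mul_mem_left _ _ hk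

theorem mulInP (hTB : ToolsB.{u}) {A : Type u} [CommRing A] [IsNoetherianRing A] {I : Ideal A}
    {r : ℕ} (h : Fin r → A⟦X⟧) {k : Fin r → A⟦X⟧} (hk : InP I k) : InP I (h * k) := by
  rw [hTB.inP_iff] at hk ⊢
  intro i
  exact Ideal.mul_mem_left _ _ (hk i)

theorem addIn2 (hTB : ToolsB.{u}) {A : Type u} [CommRing A] [IsNoetherianRing A] {I : Ideal A}
    {h k : A⟦X⟧⟦X⟧} (hh : In2 I h) (hk : In2 I k) : In2 I (h + k) := by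
  rw [hTB.in2_iff] at hh hk ⊢
  exact Ideal.add_mem _ hh hk

theorem addInP (hTB : ToolsB.{u}) {A : Type u} [CommRing A] [IsNoetherianRing A] {I : Ideal A}
    {r : ℕ} {h k : Fin r → A⟦X⟧} (hh : InP I h) (hk : InP I k) : InP I (h + k) := by
  rw [hTB.inP_iff] at hh hk ⊢
  intro i
  exact Ideal.add_mem _ (hh i) (hk i)

theorem toolsC (hB : BaseFacts.{u}) (hTB : ToolsB.{u}) : ToolsC.{u} := by
  refine ⟨?_, ?_, ?_, ?_, ?_⟩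
  · intro A _ _ _ r Φ h
    funext i
    exact hB.chain ((Pi.evalAlgHom A (fun _ : Fin r => A⟦X⟧) i).comp Φ) h
  · intro A _ _ _ r Φ Ψ I hI a b ha hb h1 h2 h
    exact taylorP hB hTB Φ Ψ I hI a b ha hb h1 h2 h
  · intro A _ _ _ Θ Ξ h1 h2 I hI a b ha hb h3 h4 h
    exact taylor2 hB hTB Θ Ξ h1 h2 I hI a b ha hb h3 h4 h
  · intro A _ _ _ r Φ Ψ I hI h1 h2 h
    have h3 := taylorP hB hTB Φ Ψ I hI _ _ h1 h2 (by ring) (by ring) h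
    have h4 : InP I (Ψ h - (Φ h + Φ (dx h) * (Ψ (C X) - Φ (C X)) + Φ (dy h) * (Ψ X - Φ X))) :=
      InP_mono (Ideal.pow_le_self two_ne_zero) h3
    have h5 := addInP hTB (addInP hTB h4 (mulInP hTB (Φ (dx h)) h1)) (mulInP hTB (Φ (dy h)) h2)
    have e : Ψ h - Φ h = Ψ h - (Φ h + Φ (dx h) * (Ψ (C X) - Φ (C X)) + Φ (dy h) * (Ψ X - Φ X)) +
      Φ (dx h) * (Ψ (C X) - Φ (C X)) + Φ (dy h) * (Ψ X - Φ X) := by ring
    rw [e]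
    exact h5
  · intro A _ _ _ Θ Ξ hl1 hl2 I hI h1 h2 h
    have h3 := taylor2 hB hTB Θ Ξ hl1 hl2 I hI _ _ h1 h2 (by ring) (by ring) h
    have h4 : In2 I (Ξ h - (Θ h + Θ (dx h) * (Ξ (C X) - Θ (C X)) + Θ (dy h) * (Ξ X - Θ X))) :=
      In2_mono (Ideal.pow_le_self two_ne_zero) h3
    have h5 := addIn2 hTB (addIn2 hTB h4 (mulIn2 hTB (Θ (dx h)) h1)) (mulIn2 hTB (Θ (dy h)) h2)
    have e : Ξ h - Θ h = Ξ h - (Θ h + Θ (dx h) * (Ξ (C X) - Θ (C X)) + Θ (dy h) * (Ξ X - Θ X)) +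
      Θ (dx h) * (Ξ (C X) - Θ (C X)) + Θ (dy h) * (Ξ X - Θ X) := by ring
    rw [e]
    exact h5

end TLC

end Pool.Agent.Helper819.DC
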