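import Pool.Agent.Helper819.DC.Core

set_option autoImplicit false

open PowerSeries IsLocalRing TensorProduct

universe u

namespace Pool.Agent.Helper819.DC


namespace TLD


theorem limA {A : Type u} [CommRing A] [IsLocalRing A] [IsAdicComplete (maximalIdeal A) A]
    (w : ℕ → A) (hw : ∀ n, w (n + 1) - w n ∈ maximalIdeal A ^ n) :
    ∃ l : A, ∀ n, l - w n ∈ maximalIdeal A ^ n := by
  have hle : ∀ m n : ℕ, m ≤ n → w n - w m ∈ maximalIdeal A ^ m := by
    intro m n h
    induction n, h using Nat.le_induction with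
    | base => simp
    | succ n hmn ih =>
      have : w (n + 1) - w m = (w (n + 1) - w n) + (w n - w m) := by ring
      rw [this]
      exact Ideal.add_mem _ (Ideal.pow_le_pow_right hmn (hw n)) ih
  have hp : IsPrecomplete (maximalIdeal A) A := inferInstance
  obtain ⟨l, hl⟩ := hp.prec (f := w) (by
    intro m n h
    rw [SModEq.sub_mem, Ideal.smul_eq_mul, Ideal.mul_top]
    have := hle m n h
    rw [← neg_sub]
    exact (Ideal.neg_mem_iff _).2 this)
  refine ⟨l, fun n => ?_⟩
  have := hl n
  rw [SModEq.sub_mem, Ideal.smul_eq_mul, Ideal.mul_top] at this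
  rw [← neg_sub]
  exact (Ideal.neg_mem_iff _).2 this

theorem eqA {A : Type u} [CommRing A] [IsLocalRing A] [IsAdicComplete (maximalIdeal A) A]
    (a : A) (ha : ∀ n, a ∈ maximalIdeal A ^ n) : a = 0 := by
  have hp : IsHausdorff (maximalIdeal A) A := inferInstance
  apply hp.haus
  intro n
  rw [SModEq.sub_mem, Ideal.smul_eq_mul, Ideal.mul_top, sub_zero]
  exact ha n

theorem map2_comp {A A' A'' : Type u} [CommRing A] [CommRing A'] [CommRing A''] (ψ : A →+* A')
    (χ : A' →+* A'') (h : A⟦X⟧⟦X⟧) : map2 χ (map2 ψ h) = map2 (χ.comp ψ) h := by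
  ext i j
  simp [map2]

theorem map2_CC {A A' : Type u} [CommRing A] [CommRing A'] (ψ : A →+* A') (a : A) :
    map2 ψ (PowerSeries.C (PowerSeries.C a)) = PowerSeries.C (PowerSeries.C (ψ a)) := by
  unfold map2
  rw [PowerSeries.map_C, PowerSeries.map_C]

theorem map2_fam {K A A' : Type u} [Field K] [CommRing A] [CommRing A'] [Algebra K A] [Algebra K A']
    (ψ : A →ₐ[K] A') {τ : ℕ} (f : K⟦X⟧⟦X⟧) (g : Fin τ → K⟦X⟧⟦X⟧) (s : Fin τ → A) :
    map2 (ψ : A →+* A') (fam f g s) = fam f g (fun k => ψ (s k)) := by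
  have hc : (ψ : A →+* A').comp (algebraMap K A) = algebraMap K A' := AlgHom.comp_algebraMap ψ
  unfold fam
  rw [map_add, map_sum, map2_comp, hc]
  congr 1
  refine Finset.sum_congr rfl ?_
  intro k _
  rw [map_mul, map2_comp, hc, map2_CC]
  rfl

theorem pi_zero {K A : Type u} [Field K] [CommRing A] [IsLocalRing A] [Algebra K A]
    (π : A →ₐ[K] K) (s : A) (hs : s ∈ maximalIdeal A) : π s = 0 := by
  by_contra hne
  have hk : RingHom.ker (π : A →+* K) ≤ maximalIdeal A := by
    apply IsLocalRing.le_maximalIdeal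
    exact RingHom.ker_ne_top _
  have h1 : s - algebraMap K A (π s) ∈ RingHom.ker (π : A →+* K) := by
    rw [RingHom.mem_ker]
    simp
  have h2 : algebraMap K A (π s) ∈ maximalIdeal A := by
    have : algebraMap K A (π s) = s - (s - algebraMap K A (π s)) := by ring
    rw [this]
    exact Ideal.sub_mem _ hs (hk h1)
  rw [IsLocalRing.mem_maximalIdeal, mem_nonunits_iff] at h2
  exact h2 ((Ne.isUnit hne).map (algebraMap K A))

theorem toolsD : ToolsD.{u} where
  limA := fun w hw => limA w hw
  lim2 := by
    intro A _ _ _ w hw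
    have h : ∀ i j : ℕ, ∃ l : A, ∀ n, l - PowerSeries.coeff i (PowerSeries.coeff j (w n))
        ∈ maximalIdeal A ^ n := by
      intro i j
      apply limA
      intro n
      have := hw n i j
      rwa [map_sub, map_sub] at this
    choose l hl using h
    refine ⟨PowerSeries.mk fun j => PowerSeries.mk fun i => l i j, fun n i j => ?_⟩
    rw [map_sub, map_sub, PowerSeries.coeff_mk, PowerSeries.coeff_mk]
    exact hl i j n
  limP := by
    intro A _ _ _ r w hw
    have h : ∀ (i : Fin r) (j : ℕ), ∃ l : A, ∀ n, l - PowerSeries.coeff j (w n i)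
        ∈ maximalIdeal A ^ n := by
      intro i j
      apply limA
      intro n
      have := hw n i j
      rwa [Pi.sub_apply, map_sub] at this
    choose l hl using h
    refine ⟨fun i => PowerSeries.mk fun j => l i j, fun n i j => ?_⟩
    rw [Pi.sub_apply, map_sub, PowerSeries.coeff_mk]
    exact hl i j n
  eqA := fun a ha => eqA a ha
  eq2 := by
    intro A _ _ _ w hw
    ext j i
    exact eqA _ (fun n => hw n i j)
  eqP := by
    intro A _ _ _ r w hw
    funext i
    ext j
    exact eqA _ (fun n => hw n i j)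
  map2_comp := fun ψ χ h => map2_comp ψ χ h
  mapP_comp := by
    intro A A' A'' _ _ _ ψ χ r w
    funext i
    ext j
    simp [mapP_apply]
  map2_dx := by
    intro A A' _ _ ψ h
    ext i j
    simp [map2, dx, PowerSeries.coeff_derivative]
  map2_dy := by
    intro A A' _ _ ψ h
    ext i j
    simp [map2, dy, PowerSeries.coeff_derivative]
  mapP_dP := by
    intro A A' _ _ ψ r w
    funext i
    ext j
    simp [mapP_apply, dP, PowerSeries.coeff_derivative]
  map2_fam := by
    intro K A A' _ _ _ _ _ ψ τ f g s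
    exact map2_fam ψ f g s
  map2_fam_zero := by
    intro K A _ _ _ _ π τ f g s hs
    rw [map2_fam]
    unfold fam
    have h1 : ∀ h : K⟦X⟧⟦X⟧, map2 (algebraMap K K) h = h := by
      intro h
      ext i j
      simp [map2]
    rw [h1]
    have h2 : ∑ k, PowerSeries.C (PowerSeries.C (π (s k))) * map2 (algebraMap K K) (g k) = 0 := by
      apply Finset.sum_eq_zero
      intro k _
      rw [pi_zero π (s k) (hs k), map_zero, map_zero, zero_mul]
    rw [h2, add_zero]

theorem mem_map_C {A : Type u} [CommRing A] [IsNoetherianRing A] (I : Ideal A) (h : A⟦X⟧) :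
    h ∈ I.map (PowerSeries.C : A →+* A⟦X⟧) ↔ ∀ n, PowerSeries.coeff n h ∈ I := by
  constructor
  · intro hh n
    have h1 : I.map (PowerSeries.C : A →+* A⟦X⟧)
        ≤ RingHom.ker (PowerSeries.map (Ideal.Quotient.mk I)) := by
      rw [Ideal.map_le_iff_le_comap]
      intro a ha
      rw [Ideal.mem_comap, RingHom.mem_ker, PowerSeries.map_C, Ideal.Quotient.eq_zero_iff_mem.2 ha,
        map_zero]
    have h2 := h1 hh
    rw [RingHom.mem_ker] at h2
    have h3 := congrArg (PowerSeries.coeff n) h2
    rw [PowerSeries.coeff_map, map_zero] at h3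
    exact Ideal.Quotient.eq_zero_iff_mem.1 h3
  · intro hh
    obtain ⟨s, hs⟩ := (IsNoetherian.noetherian I : I.FG)
    have h1 : ∀ n, ∃ f : A → A, ∑ a ∈ s, f a * a = PowerSeries.coeff n h := by
      intro n
      have := hh n
      rw [← hs] at this
      obtain ⟨f, _, hf⟩ := Submodule.mem_span_finset.1 this
      exact ⟨f, hf⟩
    choose f hf using h1
    have h2 : h = ∑ a ∈ s, PowerSeries.mk (fun n => f n a) * PowerSeries.C a := by
      ext n
      rw [map_sum, ← hf n]
      refine Finset.sum_congr rfl ?_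
      intro a _
      rw [PowerSeries.coeff_mul_C, PowerSeries.coeff_mk]
    rw [h2]
    apply Ideal.sum_mem
    intro a ha
    apply Ideal.mul_mem_left
    apply Ideal.mem_map_of_mem
    rw [← hs]
    exact Submodule.subset_span ha

end TLD

end Pool.Agent.Helper819.DC
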