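import Pool.Agent.Helper819.DC.Core2

set_option autoImplicit false

open PowerSeries IsLocalRing TensorProduct

universe u

namespace Pool.Agent.Helper819.DC


namespace UNI

/-- lifting approximate simultaneous parametrisations to exact ones -/
theorem uni (hT : Tools.{u}) {K : Type u} [Field K] {τ r : ℕ} (D : Setup K τ r)
    {A : Type u} [CommRing A] [IsLocalRing A] [IsNoetherianRing A]
    [IsAdicComplete (maximalIdeal A) A] [Algebra K A] (π : A →ₐ[K] K)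
    (hchar : ∀ Φ : Par A r, Lifts π D.φ Φ → ∃ G, Φ G = 0 ∧ map2 (π : A →+* K) G = D.f)
    (hkf : ∀ (Φ : Par A r) (_ : Lifts π D.φ Φ) (G : A⟦X⟧⟦X⟧) (_ : Φ G = 0)
      (_ : map2 (π : A →+* K) G = D.f) (k : ℕ) (H : A⟦X⟧⟦X⟧)
      (_ : InP (maximalIdeal A ^ k) (Φ H)), ∃ q, In2 (maximalIdeal A ^ k) (H - q * G))
    (hversal : ∀ (G : A⟦X⟧⟦X⟧) (_ : map2 (π : A →+* K) G = D.f)
      (N : ℕ) (_ : 1 ≤ N) (s₀ : Fin τ → A) (_ : ∀ j, s₀ j ∈ maximalIdeal A) (q₀ : A⟦X⟧⟦X⟧)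
      (_ : In2 (maximalIdeal A ^ N) (D.F s₀ - q₀ * G)),
      ∃ (s : Fin τ → A) (Θ : End2 A) (q : A⟦X⟧⟦X⟧),
        (∀ j, s j ∈ maximalIdeal A) ∧
        (∀ j, s j - s₀ j ∈ maximalIdeal A ^ N) ∧
        In2 (maximalIdeal A ^ N) (Θ (C X) - C X) ∧ In2 (maximalIdeal A ^ N) (Θ X - X) ∧
        (∀ h, map2 (π : A →+* K) (Θ h) = map2 (π : A →+* K) h) ∧
        Θ (D.F s) = q * G)
    (N : ℕ) (hN : 1 ≤ N) (s₀ : Fin τ → A) (hs₀ : ∀ j, s₀ j ∈ maximalIdeal A) (Φ₀ : Par A r)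
    (hΦ₀ : Lifts π D.φ Φ₀) (h₀ : InP (maximalIdeal A ^ N) (Φ₀ (D.F s₀))) :
    ∃ (s : Fin τ → A) (Φ : Par A r), SimPar D π s Φ ∧
      (∀ j, s j - s₀ j ∈ maximalIdeal A ^ N) ∧
      InP (maximalIdeal A ^ N) (Φ (C X) - Φ₀ (C X)) ∧ InP (maximalIdeal A ^ N) (Φ X - Φ₀ X) ∧
      ∃ M₁₁ M₁₂ M₂₁ M₂₂ : Fin r → A⟦X⟧,
        dP (Φ (C X)) = M₁₁ * dP (Φ₀ (C X)) + M₁₂ * dP (Φ₀ X) ∧
        dP (Φ X) = M₂₁ * dP (Φ₀ (C X)) + M₂₂ * dP (Φ₀ X) ∧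
        mapP (π : A →+* K) M₁₁ = 1 ∧ mapP (π : A →+* K) M₁₂ = 0 ∧
        mapP (π : A →+* K) M₂₁ = 0 ∧ mapP (π : A →+* K) M₂₂ = 1 := by
  obtain ⟨G, hG0, hGf⟩ := hchar Φ₀ hΦ₀
  obtain ⟨q₀, hq₀⟩ := hkf Φ₀ hΦ₀ G hG0 hGf N (D.F s₀) h₀
  obtain ⟨s, Θ, q, hs, hss, hΘx, hΘy, hΘm, hΘF⟩ := hversal G hGf N hN s₀ hs₀ q₀ hq₀
  have hdxC : dx (C X : A⟦X⟧⟦X⟧) = 1 := by
    unfold dx
    ext n m
    rw [PowerSeries.coeff_mk]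
    by_cases hn : n = 0
    · subst hn
      simp
    · rw [PowerSeries.coeff_C, if_neg hn, PowerSeries.coeff_one, if_neg hn]
      simp
  have hdyC : dy (C X : A⟦X⟧⟦X⟧) = 0 := by
    unfold dy
    exact PowerSeries.derivative_C
  have hdxX : dx (X : A⟦X⟧⟦X⟧) = 0 := by
    unfold dx
    ext n m
    rw [PowerSeries.coeff_mk, PowerSeries.coeff_X]
    by_cases hn : n = 1
    · rw [if_pos hn]; simp
    · rw [if_neg hn]; simp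
  have hdyX : dy (X : A⟦X⟧⟦X⟧) = 1 := by
    unfold dy
    exact PowerSeries.derivative_X
  have hl : ∀ h : A⟦X⟧⟦X⟧, mapP (π : A →+* K) (Φ₀ h) = D.φ (map2 (π : A →+* K) h) := hΦ₀
  refine ⟨s, Φ₀.comp Θ, ⟨hs, ?_, ?_⟩, hss, ?_, ?_, Φ₀ (dx (Θ (C X))), Φ₀ (dy (Θ (C X))),
    Φ₀ (dx (Θ X)), Φ₀ (dy (Θ X)), ?_, ?_, ?_, ?_, ?_, ?_⟩
  · intro h
    rw [AlgHom.comp_apply, hl, hΘm]
  · rw [AlgHom.comp_apply, hΘF, map_mul, hG0, mul_zero]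
  · rw [AlgHom.comp_apply, ← map_sub]
    exact hT.par_in _ Φ₀ _ hΘx
  · rw [AlgHom.comp_apply, ← map_sub]
    exact hT.par_in _ Φ₀ _ hΘy
  · rw [AlgHom.comp_apply]
    exact hT.chainP Φ₀ _
  · rw [AlgHom.comp_apply]
    exact hT.chainP Φ₀ _
  · rw [hl, hT.map2_dx, hΘm, ← hT.map2_dx, hdxC, map_one, map_one]
  · rw [hl, hT.map2_dy, hΘm, ← hT.map2_dy, hdyC, map_zero, map_zero]
  · rw [hl, hT.map2_dx, hΘm, ← hT.map2_dx, hdxX, map_zero, map_zero]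
  · rw [hl, hT.map2_dy, hΘm, ← hT.map2_dy, hdyX, map_one, map_one]

end UNI

end Pool.Agent.Helper819.DC
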