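import Pool.Agent.Helper819.DC.Core2

set_option autoImplicit false

open PowerSeries IsLocalRing TensorProduct

universe u

namespace Pool.Agent.Helper819.DC


namespace UNV


/-- the constant coefficient -/
noncomputable def pi0 (K : Type u) [Field K] (m : ℕ) : OO K m →ₐ[K] K :=
  { (MvPowerSeries.constantCoeff : MvPowerSeries (Fin m) K →+* K) with
    commutes' := by
      intro a
      change MvPowerSeries.constantCoeff (algebraMap K (MvPowerSeries (Fin m) K) a) = a
      rw [MvPowerSeries.algebraMap_apply]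
      simp }

theorem pi0_apply {K : Type u} [Field K] {m : ℕ} (a : OO K m) :
    pi0 K m a = MvPowerSeries.constantCoeff a := rfl

theorem X_mem {K : Type u} [Field K] {m : ℕ} (j : Fin m) :
    (MvPowerSeries.X j : OO K m) ∈ maximalIdeal (OO K m) := by
  rw [IsLocalRing.mem_maximalIdeal, mem_nonunits_iff, MvPowerSeries.isUnit_iff_constantCoeff]
  simp

theorem memPS {A : Type u} [CommRing A] [IsLocalRing A] (h : A⟦X⟧) :
    h ∈ maximalIdeal A⟦X⟧ ↔ PowerSeries.constantCoeff h ∈ maximalIdeal A := by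
  rw [IsLocalRing.mem_maximalIdeal, mem_nonunits_iff, PowerSeries.isUnit_iff_constantCoeff,
    IsLocalRing.mem_maximalIdeal, mem_nonunits_iff]

theorem InP_add {A : Type u} [CommRing A] {r : ℕ} {I : Ideal A} {v w : Fin r → A⟦X⟧}
    (hv : InP I v) (hw : InP I w) : InP I (v + w) := by
  intro i n
  rw [Pi.add_apply, map_add]
  exact I.add_mem (hv i n) (hw i n)

theorem InP_sum {A : Type u} [CommRing A] {r m : ℕ} {I : Ideal A} (v : Fin m → Fin r → A⟦X⟧)
    (hv : ∀ j, InP I (v j)) : InP I (∑ j, v j) := by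
  intro i n
  rw [Finset.sum_apply, map_sum]
  exact I.sum_mem fun j _ => hv j i n

theorem InP_smul {A : Type u} [CommRing A] {r : ℕ} {I : Ideal A} {c : A} (hc : c ∈ I)
    (v : Fin r → A⟦X⟧) : InP I (c • v) := by
  intro i n
  rw [Pi.smul_apply, PowerSeries.coeff_smul, smul_eq_mul]
  exact I.mul_mem_right _ hc

theorem mapP_smul {A A' : Type u} [CommRing A] [CommRing A'] {r : ℕ} (ψ : A →+* A') (c : A)
    (v : Fin r → A⟦X⟧) : mapP ψ (c • v) = ψ c • mapP ψ v := by
  funext i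
  rw [mapP_apply, Pi.smul_apply, Pi.smul_apply, mapP_apply]
  ext n
  simp [PowerSeries.coeff_smul]

theorem mapP_id {K A : Type u} [Field K] [CommRing A] [Algebra K A] (hT : Tools.{u})
    (π : A →ₐ[K] K) {r : ℕ} (w : Fin r → K⟦X⟧) :
    mapP (π : A →+* K) (mapP (algebraMap K A) w) = w := by
  rw [hT.mapP_comp]
  have : (π : A →+* K).comp (algebraMap K A) = RingHom.id K := by
    ext a
    simp
  rw [this]
  funext i
  rw [mapP_apply]
  ext n
  simp

theorem map2_id {K A : Type u} [Field K] [CommRing A] [Algebra K A] (hT : Tools.{u})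
    (π : A →ₐ[K] K) (w : K⟦X⟧⟦X⟧) :
    map2 (π : A →+* K) (map2 (algebraMap K A) w) = w := by
  rw [hT.map2_comp]
  have : (π : A →+* K).comp (algebraMap K A) = RingHom.id K := by
    ext a
    simp
  rw [this]
  ext n m
  simp [map2]

/-- existence of a universal simultaneous parametrisation -/
theorem exists_univ (hT : Tools.{u}) (hB : BaseFacts.{u}) {K : Type u} [Field K] {τ r : ℕ}
    (D : Setup K τ r)
    (huni : ∀ (A : Type u) [CommRing A] [IsLocalRing A] [IsNoetherianRing A]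
      [IsAdicComplete (maximalIdeal A) A] [Algebra K A] (π : A →ₐ[K] K)
      (N : ℕ) (_ : 1 ≤ N) (s₀ : Fin τ → A) (_ : ∀ j, s₀ j ∈ maximalIdeal A) (Φ₀ : Par A r)
      (_ : Lifts π D.φ Φ₀) (_ : InP (maximalIdeal A ^ N) (Φ₀ (D.F s₀))),
      ∃ (s : Fin τ → A) (Φ : Par A r), SimPar D π s Φ ∧
        (∀ j, s j - s₀ j ∈ maximalIdeal A ^ N) ∧
        InP (maximalIdeal A ^ N) (Φ (C X) - Φ₀ (C X)) ∧ InP (maximalIdeal A ^ N) (Φ X - Φ₀ X) ∧
        ∃ M₁₁ M₁₂ M₂₁ M₂₂ : Fin r → A⟦X⟧,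
          dP (Φ (C X)) = M₁₁ * dP (Φ₀ (C X)) + M₁₂ * dP (Φ₀ X) ∧
          dP (Φ X) = M₂₁ * dP (Φ₀ (C X)) + M₂₂ * dP (Φ₀ X) ∧
          mapP (π : A →+* K) M₁₁ = 1 ∧ mapP (π : A →+* K) M₁₂ = 0 ∧
          mapP (π : A →+* K) M₂₁ = 0 ∧ mapP (π : A →+* K) M₂₂ = 1)
    (T : TBasis D) : Nonempty (UnivFam D T) := by
  haveI := hB.complete_mvPowerSeries (m := T.m) (K := K)
  set A := OO K T.m with hA
  set ι : K →+* A := algebraMap K A with hι
  set π : A →ₐ[K] K := pi0 K T.m with hπ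
  set a : Fin r → A⟦X⟧ := ∑ j, (MvPowerSeries.X j : A) • mapP ι (T.v j) with ha
  set b : Fin r → A⟦X⟧ := ∑ j, (MvPowerSeries.X j : A) • mapP ι (T.w j) with hb
  set s₀ : Fin τ → A := fun k => ∑ j, T.σ j k • (MvPowerSeries.X j : A) with hs₀
  have hXm : ∀ j, (MvPowerSeries.X j : A) ∈ maximalIdeal A := fun j => X_mem j
  have hs₀m : ∀ k, s₀ k ∈ maximalIdeal A := fun k =>
    (maximalIdeal A).sum_mem fun j _ => by
      rw [Algebra.smul_def]
      exact (maximalIdeal A).mul_mem_left _ (hXm j)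
  have haI : InP (maximalIdeal A) a := InP_sum _ fun j => InP_smul (hXm j) _
  have hbI : InP (maximalIdeal A) b := InP_sum _ fun j => InP_smul (hXm j) _
  have hloc : ∀ (w : Fin r → K⟦X⟧), (∀ i, w i ∈ maximalIdeal K⟦X⟧) → ∀ i, mapP ι w i ∈ maximalIdeal A⟦X⟧ := by
    intro w hw i
    rw [memPS, mapP_apply]
    have h1 := hw i
    rw [memPS] at h1
    have h2 : PowerSeries.constantCoeff (w i) = 0 := by
      by_contra h
      exact (IsLocalRing.mem_maximalIdeal _).1 h1 (IsUnit.mk0 _ h)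
    have h3 : PowerSeries.constantCoeff (PowerSeries.map ι (w i)) = ι (PowerSeries.constantCoeff (w i)) := by
      rw [← PowerSeries.coeff_zero_eq_constantCoeff_apply, PowerSeries.coeff_map,
        PowerSeries.coeff_zero_eq_constantCoeff_apply]
    rw [h3, h2, map_zero]
    exact (maximalIdeal A).zero_mem
  have hlocI : ∀ (w : Fin r → A⟦X⟧), InP (maximalIdeal A) w → ∀ i, w i ∈ maximalIdeal A⟦X⟧ := by
    intro w hw i
    rw [memPS, ← PowerSeries.coeff_zero_eq_constantCoeff_apply]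
    exact hw i 0
  have hx := hloc _ fun i => (hT.par_local D.φ i).1
  have hy := hloc _ fun i => (hT.par_local D.φ i).2
  obtain ⟨Φt, hΦtx, hΦty⟩ := hT.par_exists (mapP ι (D.φ (C X))) (mapP ι (D.φ X)) hx hy
  obtain ⟨Φ₀, hΦ₀x, hΦ₀y⟩ := hT.par_exists (mapP ι (D.φ (C X)) + a) (mapP ι (D.φ X) + b)
    (fun i => Ideal.add_mem _ (hx i) (hlocI a haI i)) (fun i => Ideal.add_mem _ (hy i) (hlocI b hbI i))
  have hpush : ∀ h, Φt (map2 ι h) = mapP ι (D.φ h) := hT.push ι D.φ Φt hΦtx hΦty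
  have hl0 : Lifts π D.φ Φ₀ := by
    rw [hT.lifts_iff, hΦ₀x, hΦ₀y, map_add, map_add, mapP_id hT, mapP_id hT,
      (hT.inP_map π a).1 haI, (hT.inP_map π b).1 hbI, add_zero, add_zero]
    exact ⟨rfl, rfl⟩
  have hdfx : In2 (maximalIdeal A) (dx (D.F s₀) - map2 ι (dx D.f)) := by
    rw [hT.in2_map π, map_sub, hT.map2_dx, hT.map2_fam_zero π D.f D.g s₀ hs₀m, map2_id hT, sub_self]
  have hdfy : In2 (maximalIdeal A) (dy (D.F s₀) - map2 ι (dy D.f)) := by
    rw [hT.in2_map π, map_sub, hT.map2_dy, hT.map2_fam_zero π D.f D.g s₀ hs₀m, map2_id hT, sub_self]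
  have hφf : D.φ D.f = 0 := by
    have : D.f ∈ RingHom.ker D.φ := by
      rw [D.ker]
      exact Ideal.mem_span_singleton_self _
    exact this
  have hF : Φt (D.F s₀) = ∑ k, s₀ k • mapP ι (D.φ (D.g k)) := by
    unfold Setup.F fam
    rw [map_add, hpush, hφf, map_zero, zero_add, map_sum]
    refine Finset.sum_congr rfl fun k _ => ?_
    rw [map_mul, hpush]
    have : Φt (C (C (s₀ k))) = algebraMap A _ (s₀ k) := by
      have := Φt.commutes (s₀ k)
      rw [← this, PowerSeries.algebraMap_apply, PowerSeries.algebraMap_apply]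
      rfl
    rw [this, Algebra.smul_def]
  have hin0 : InP (maximalIdeal A ^ 2) (Φ₀ (D.F s₀)) := by
    have h1 := hT.taylorP Φt Φ₀ (maximalIdeal A) le_rfl a b haI hbI (by rw [hΦ₀x, hΦtx])
      (by rw [hΦ₀y, hΦty]) (D.F s₀)
    have h2 : InP (maximalIdeal A ^ 2) (Φt (dx (D.F s₀) - map2 ι (dx D.f)) * a) := by
      rw [pow_two]
      exact hT.inP_mul _ _ _ _ (hT.par_in _ Φt _ hdfx) haI
    have h3 : InP (maximalIdeal A ^ 2) (Φt (dy (D.F s₀) - map2 ι (dy D.f)) * b) := by
      rw [pow_two]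
      exact hT.inP_mul _ _ _ _ (hT.par_in _ Φt _ hdfy) hbI
    have h4 : ∑ k, s₀ k • mapP ι (D.φ (D.g k)) + mapP ι (D.φ (dx D.f)) * a +
        mapP ι (D.φ (dy D.f)) * b = 0 := by
      have h5 : ∀ j, (MvPowerSeries.X j : A) • mapP ι (∑ k, T.σ j k • D.φ (D.g k) +
          D.φ (dx D.f) * T.v j + D.φ (dy D.f) * T.w j) = 0 := by
        intro j
        rw [T.mem j, map_zero, smul_zero]
      have h6 := Finset.sum_eq_zero fun j (_ : j ∈ (Finset.univ : Finset (Fin T.m))) => h5 j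
      rw [← h6]
      simp only [map_add, map_mul, map_sum, mapP_smul, smul_add, Finset.sum_add_distrib]
      congr 1
      · congr 1
        · have h8 : ∀ k, s₀ k • mapP ι (D.φ (D.g k)) =
              ∑ j, (MvPowerSeries.X j : A) • (ι (T.σ j k) • mapP ι (D.φ (D.g k))) := by
            intro k
            have h9 : s₀ k = ∑ j, (MvPowerSeries.X j : A) * ι (T.σ j k) := by
              simp only [hs₀]
              refine Finset.sum_congr rfl fun j _ => ?_
              rw [Algebra.smul_def, mul_comm]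
            rw [h9, Finset.sum_smul]
            refine Finset.sum_congr rfl fun j _ => ?_
            rw [smul_smul]
          rw [Finset.sum_congr rfl fun k _ => h8 k, Finset.sum_comm]
          refine Finset.sum_congr rfl fun j _ => ?_
          rw [Finset.smul_sum]
        · rw [ha, Finset.mul_sum]
          refine Finset.sum_congr rfl fun j _ => ?_
          rw [mul_smul_comm]
      · rw [hb, Finset.mul_sum]
        refine Finset.sum_congr rfl fun j _ => ?_
        rw [mul_smul_comm]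
    have h7 : Φ₀ (D.F s₀) = (Φ₀ (D.F s₀) - (Φt (D.F s₀) + Φt (dx (D.F s₀)) * a + Φt (dy (D.F s₀)) * b))
        + (Φt (dx (D.F s₀) - map2 ι (dx D.f)) * a + Φt (dy (D.F s₀) - map2 ι (dy D.f)) * b) := by
      rw [map_sub Φt, map_sub Φt, hpush, hpush, hF]
      linear_combination h4
    rw [h7]
    exact InP_add h1 (InP_add h2 h3)
  obtain ⟨s, Φ, hsim, hs, hX, hY, -⟩ := huni A π 2 (by norm_num) s₀ hs₀m Φ₀ hl0 hin0
  refine ⟨⟨π, s, Φ, hsim, hs, ?_, ?_⟩⟩
  · rw [hΦ₀x] at hX
    exact hX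
  · rw [hΦ₀y] at hY
    exact hY


end UNV

end Pool.Agent.Helper819.DC
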