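import Pool.Agent.Helper819.DC.Core2

set_option autoImplicit false

open PowerSeries IsLocalRing TensorProduct

universe u

namespace Pool.Agent.Helper819.DC


namespace VLM


theorem In2_add {A : Type u} [CommRing A] {I : Ideal A} {h k : A⟦X⟧⟦X⟧} (hh : In2 I h)
    (hk : In2 I k) : In2 I (h + k) := by
  intro i j
  rw [map_add, map_add]
  exact I.add_mem (hh i j) (hk i j)

theorem In2_neg {A : Type u} [CommRing A] {I : Ideal A} {h : A⟦X⟧⟦X⟧} (hh : In2 I h) :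
    In2 I (-h) := by
  intro i j
  rw [map_neg, map_neg]
  exact I.neg_mem (hh i j)

theorem In2_sub_comm {A : Type u} [CommRing A] {I : Ideal A} {h k : A⟦X⟧⟦X⟧}
    (hh : In2 I (h - k)) : In2 I (k - h) := by
  have := In2_neg hh
  rwa [neg_sub] at this

theorem In2_zero {A : Type u} [CommRing A] (I : Ideal A) : In2 I (0 : A⟦X⟧⟦X⟧) := by
  intro i j
  rw [map_zero, map_zero]
  exact I.zero_mem

theorem In2_mono {A : Type u} [CommRing A] {I J : Ideal A} (hIJ : I ≤ J) {h : A⟦X⟧⟦X⟧}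
    (hh : In2 I h) : In2 J h := fun i j => hIJ (hh i j)

theorem In2_sum {A : Type u} [CommRing A] {I : Ideal A} {ι : Type} (s : Finset ι)
    (h : ι → A⟦X⟧⟦X⟧) (hh : ∀ k ∈ s, In2 I (h k)) : In2 I (∑ k ∈ s, h k) := by
  classical
  induction s using Finset.induction_on with
  | empty => rw [Finset.sum_empty]; exact In2_zero I
  | insert a s ha ih =>
    rw [Finset.sum_insert ha]
    exact In2_add (hh a (Finset.mem_insert_self a s))
      (ih (fun k hk => hh k (Finset.mem_insert_of_mem hk)))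

theorem In2_mul_right (hT : Tools.{u}) {A : Type u} [CommRing A] {I : Ideal A} {h : A⟦X⟧⟦X⟧}
    (hh : In2 I h) (k : A⟦X⟧⟦X⟧) : In2 I (h * k) := by
  have := hT.in2_mul I ⊤ h k hh (fun i j => Submodule.mem_top)
  rwa [Ideal.mul_top] at this

theorem In2_CC {A : Type u} [CommRing A] {I : Ideal A} {a : A} (ha : a ∈ I) :
    In2 I (PowerSeries.C (PowerSeries.C a) : A⟦X⟧⟦X⟧) := by
  intro i j
  rw [PowerSeries.coeff_C]
  split_ifs with h
  · rw [PowerSeries.coeff_C]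
    split_ifs with h'
    · exact ha
    · exact I.zero_mem
  · rw [map_zero]; exact I.zero_mem

theorem fam_sub (hT : Tools.{u}) {K : Type u} [Field K] {τ : ℕ} (f : K⟦X⟧⟦X⟧)
    (g : Fin τ → K⟦X⟧⟦X⟧) {A : Type u} [CommRing A] [Algebra K A] {I : Ideal A}
    (s s' : Fin τ → A) (hs : ∀ k, s k - s' k ∈ I) : In2 I (fam f g s - fam f g s') := by
  unfold fam
  rw [add_sub_add_left_eq_sub, ← Finset.sum_sub_distrib]
  refine In2_sum _ _ (fun k _ => ?_)
  rw [← sub_mul, ← map_sub, ← map_sub]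
  exact In2_mul_right hT (In2_CC (hs k)) _

theorem pi_mem {K A : Type u} [Field K] [CommRing A] [IsLocalRing A] [Algebra K A]
    (π : A →ₐ[K] K) {a : A} (ha : π a = 0) : a ∈ maximalIdeal A := by
  rw [mem_maximalIdeal, mem_nonunits_iff]
  intro hu
  have := hu.map π
  rw [ha] at this
  exact not_isUnit_zero this

theorem mem_max_of_coeff {A : Type u} [CommRing A] [IsLocalRing A] {h : A⟦X⟧⟦X⟧}
    (hh : PowerSeries.coeff 0 (PowerSeries.coeff 0 h) ∈ maximalIdeal A) :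
    h ∈ maximalIdeal A⟦X⟧⟦X⟧ := by
  rw [mem_maximalIdeal, mem_nonunits_iff] at hh ⊢
  intro hu
  apply hh
  rw [PowerSeries.isUnit_iff_constantCoeff, PowerSeries.isUnit_iff_constantCoeff] at hu
  rw [PowerSeries.coeff_zero_eq_constantCoeff_apply, PowerSeries.coeff_zero_eq_constantCoeff_apply]
  exact hu

theorem map2_coeff {A A' : Type u} [CommRing A] [CommRing A'] (ψ : A →+* A') (h : A⟦X⟧⟦X⟧)
    (i j : ℕ) : PowerSeries.coeff i (PowerSeries.coeff j (map2 ψ h)) =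
      ψ (PowerSeries.coeff i (PowerSeries.coeff j h)) := by
  unfold map2
  rw [PowerSeries.coeff_map, PowerSeries.coeff_map]

theorem seq_exists {α : Type u} (Q : ℕ → α → Prop) (R : ℕ → α → α → Prop) (N : ℕ) (hN : 1 ≤ N)
    (step : ∀ n, 1 ≤ n → ∀ p, Q n p → ∃ p', Q (n + 1) p' ∧ R n p p') (p₀ : α) (h₀ : Q N p₀) :
    ∃ u : ℕ → α, u N = p₀ ∧ (∀ n, N ≤ n → Q n (u n)) ∧ (∀ n, n < N → u n = p₀) ∧
      ∀ n, N ≤ n → R n (u n) (u (n + 1)) := by
  classical
  let F : (i : ℕ) → {p : α // Q (N + i) p} := fun i =>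
    Nat.rec ⟨p₀, h₀⟩ (fun i p => ⟨Classical.choose (step (N + i) (by omega) p.1 p.2),
      (Classical.choose_spec (step (N + i) (by omega) p.1 p.2)).1⟩) i
  have hF : ∀ i, R (N + i) (F i).1 (F (i + 1)).1 := fun i =>
    (Classical.choose_spec (step (N + i) (by omega) (F i).1 (F i).2)).2
  refine ⟨fun n => (F (n - N)).1, ?_, ?_, ?_, ?_⟩
  · show (F (N - N)).1 = p₀
    rw [Nat.sub_self]
    rfl
  · intro n hn
    obtain ⟨i, rfl⟩ := Nat.exists_eq_add_of_le hn
    show Q (N + i) (F (N + i - N)).1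
    rw [Nat.add_sub_cancel_left]
    exact (F i).2
  · intro n hn
    show (F (n - N)).1 = p₀
    rw [Nat.sub_eq_zero_of_le hn.le]
    rfl
  · intro n hn
    obtain ⟨i, rfl⟩ := Nat.exists_eq_add_of_le hn
    show R (N + i) (F (N + i - N)).1 (F (N + i + 1 - N)).1
    rw [Nat.add_sub_cancel_left, show N + i + 1 - N = i + 1 by omega]
    exact hF i

/-- versality: from order `N` to exact -/
theorem versal (hT : Tools.{u}) {K : Type u} [Field K] {τ : ℕ} (f : K⟦X⟧⟦X⟧)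
    (g : Fin τ → K⟦X⟧⟦X⟧)
    {A : Type u} [CommRing A] [IsLocalRing A] [IsNoetherianRing A]
    [IsAdicComplete (maximalIdeal A) A] [Algebra K A] (π : A →ₐ[K] K) (G : A⟦X⟧⟦X⟧)
    (hstep : ∀ (k : ℕ) (_ : 1 ≤ k) (s : Fin τ → A)
      (_ : ∀ j, s j ∈ maximalIdeal A) (Θ : End2 A)
      (_ : ∀ h, map2 (π : A →+* K) (Θ h) = map2 (π : A →+* K) h) (q : A⟦X⟧⟦X⟧)
      (_ : In2 (maximalIdeal A ^ k) (Θ (fam f g s) - q * G)),
      ∃ (s' : Fin τ → A) (Θ' : End2 A) (q' : A⟦X⟧⟦X⟧),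
        (∀ j, s' j - s j ∈ maximalIdeal A ^ k) ∧
        In2 (maximalIdeal A ^ k) (Θ' (C X) - Θ (C X)) ∧ In2 (maximalIdeal A ^ k) (Θ' X - Θ X) ∧
        In2 (maximalIdeal A ^ k) (q' - q) ∧
        (∀ h, map2 (π : A →+* K) (Θ' h) = map2 (π : A →+* K) h) ∧
        In2 (maximalIdeal A ^ (k + 1)) (Θ' (fam f g s') - q' * G))
    (N : ℕ) (hN : 1 ≤ N) (s₀ : Fin τ → A) (hs₀ : ∀ j, s₀ j ∈ maximalIdeal A) (q₀ : A⟦X⟧⟦X⟧)
    (h₀ : In2 (maximalIdeal A ^ N) (fam f g s₀ - q₀ * G)) :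
    ∃ (s : Fin τ → A) (Θ : End2 A) (q : A⟦X⟧⟦X⟧),
      (∀ j, s j ∈ maximalIdeal A) ∧
      (∀ j, s j - s₀ j ∈ maximalIdeal A ^ N) ∧
      In2 (maximalIdeal A ^ N) (Θ (C X) - C X) ∧ In2 (maximalIdeal A ^ N) (Θ X - X) ∧
      (∀ h, map2 (π : A →+* K) (Θ h) = map2 (π : A →+* K) h) ∧
      Θ (fam f g s) = q * G := by
  obtain ⟨u, huN, hQ, hlt, hR⟩ := seq_exists
    (α := (Fin τ → A) × End2 A × A⟦X⟧⟦X⟧)
    (fun n p => (∀ j, p.1 j ∈ maximalIdeal A) ∧
      (∀ h, map2 (π : A →+* K) (p.2.1 h) = map2 (π : A →+* K) h) ∧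
      In2 (maximalIdeal A ^ n) (p.2.1 (fam f g p.1) - p.2.2 * G))
    (fun n p p' => (∀ j, p'.1 j - p.1 j ∈ maximalIdeal A ^ n) ∧
        In2 (maximalIdeal A ^ n) (p'.2.1 (C X) - p.2.1 (C X)) ∧
        In2 (maximalIdeal A ^ n) (p'.2.1 X - p.2.1 X) ∧
        In2 (maximalIdeal A ^ n) (p'.2.2 - p.2.2)) N hN
    (by
      rintro n hn ⟨s, Θ, q⟩ ⟨h1, h2, h3⟩
      have hπ : ∀ a, a ∈ maximalIdeal A → π a = 0 := by
        intro a ha
        by_contra hne
        have h4 : a - algebraMap K A (π a) ∈ maximalIdeal A := by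
          apply pi_mem π
          rw [map_sub, AlgHom.commutes]
          simp
        have h5 : algebraMap K A (π a) ∈ maximalIdeal A := by
          have := (maximalIdeal A).sub_mem ha h4
          simpa using this
        rw [mem_maximalIdeal, mem_nonunits_iff] at h5
        exact h5 ((IsUnit.mk0 _ hne).map (algebraMap K A))
      obtain ⟨s', Θ', q', a1, a2, a3, a4, a5, a6⟩ := hstep n hn s h1 Θ h2 q h3
      refine ⟨⟨s', Θ', q'⟩, ⟨fun j => ?_, a5, a6⟩, a1, a2, a3, a4⟩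
      have h4 : s' j - s j ∈ maximalIdeal A :=
        Ideal.pow_le_self (by omega) (a1 j)
      have h5 := (maximalIdeal A).add_mem h4 (h1 j)
      simpa using h5)
    ⟨s₀, AlgHom.id A _, q₀⟩ ⟨hs₀, fun h => rfl, h₀⟩
  have hR1 : ∀ n, (∀ j, (u (n + 1)).1 j - (u n).1 j ∈ maximalIdeal A ^ n) ∧
        In2 (maximalIdeal A ^ n) ((u (n + 1)).2.1 (C X) - (u n).2.1 (C X)) ∧
        In2 (maximalIdeal A ^ n) ((u (n + 1)).2.1 X - (u n).2.1 X) ∧
        In2 (maximalIdeal A ^ n) ((u (n + 1)).2.2 - (u n).2.2) := by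
    intro n
    by_cases hn : N ≤ n
    · exact hR n hn
    · have e1 : u n = u (n + 1) := by
        rw [hlt n (by omega)]
        by_cases h2 : n + 1 = N
        · rw [h2, huN]
        · rw [hlt (n + 1) (by omega)]
      rw [← e1]
      refine ⟨fun j => ?_, ?_, ?_, ?_⟩
      · rw [sub_self]; exact Ideal.zero_mem _
      · rw [sub_self]; exact In2_zero _
      · rw [sub_self]; exact In2_zero _
      · rw [sub_self]; exact In2_zero _
  choose s hs using fun j => hT.limA (fun n => (u n).1 j) (fun n => (hR1 n).1 j)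
  obtain ⟨x₁, hx₁⟩ := hT.lim2 (fun n => (u n).2.1 (C X)) (fun n => (hR1 n).2.1)
  obtain ⟨y₁, hy₁⟩ := hT.lim2 (fun n => (u n).2.1 X) (fun n => (hR1 n).2.2.1)
  obtain ⟨q, hq⟩ := hT.lim2 (fun n => (u n).2.2) (fun n => (hR1 n).2.2.2)
  have hmN : maximalIdeal A ^ N ≤ maximalIdeal A := Ideal.pow_le_self (by omega)
  have hmax : ∀ (z x₂ : A⟦X⟧⟦X⟧), In2 (maximalIdeal A ^ N) (z - x₂) →
      PowerSeries.coeff 0 (PowerSeries.coeff 0 (map2 (π : A →+* K) x₂)) = 0 →
      z ∈ maximalIdeal A⟦X⟧⟦X⟧ := by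
    intro z x₂ hz h0
    apply mem_max_of_coeff
    have h1 := hmN (hz 0 0)
    rw [map2_coeff] at h0
    have h2 := pi_mem π h0
    have h3 := (maximalIdeal A).add_mem h1 h2
    rw [map_sub, map_sub, sub_add_cancel] at h3
    exact h3
  have hxm : x₁ ∈ maximalIdeal A⟦X⟧⟦X⟧ := by
    refine hmax x₁ _ (hx₁ N) ?_
    rw [(hQ N le_rfl).2.1]
    simp [map2]
  have hym : y₁ ∈ maximalIdeal A⟦X⟧⟦X⟧ := by
    refine hmax y₁ _ (hy₁ N) ?_
    rw [(hQ N le_rfl).2.1]
    simp [map2]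
  obtain ⟨Θ, hΘx, hΘy⟩ := hT.end_exists x₁ y₁ hxm hym
  have hcong : ∀ n, 1 ≤ n → ∀ h, In2 (maximalIdeal A ^ n) ((u n).2.1 h - Θ h) := by
    intro n hn h
    refine hT.end_congr Θ (u n).2.1 (by rw [hΘx]; exact hxm) (by rw [hΘy]; exact hym)
      (maximalIdeal A ^ n) (Ideal.pow_le_self (by omega)) ?_ ?_ h
    · rw [hΘx]; exact In2_sub_comm (hx₁ n)
    · rw [hΘy]; exact In2_sub_comm (hy₁ n)
  refine ⟨s, Θ, q, ?_, ?_, ?_, ?_, ?_, ?_⟩
  · intro j
    have h1 := hmN (hs j N)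
    have h2 := (hQ N le_rfl).1 j
    have h3 := (maximalIdeal A).add_mem h1 h2
    simpa using h3
  · intro j
    have h1 := hs j N
    simp only [huN] at h1
    exact h1
  · have h1 := hx₁ N
    simp only [huN] at h1
    rw [hΘx]
    exact h1
  · have h1 := hy₁ N
    simp only [huN] at h1
    rw [hΘy]
    exact h1
  · intro h
    have h1 := In2_mono hmN (hcong N hN h)
    rw [hT.in2_map π, map_sub, (hQ N le_rfl).2.1, sub_eq_zero] at h1
    exact h1.symm
  · have key : Θ (fam f g s) - q * G = 0 := by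
      apply hT.eq2
      intro n
      have hle : maximalIdeal A ^ (max n N) ≤ maximalIdeal A ^ n :=
        Ideal.pow_le_pow_right (le_max_left _ _)
      refine In2_mono hle ?_
      have hM : N ≤ max n N := le_max_right _ _
      generalize max n N = M at hM
      have e1 := In2_sub_comm (hcong M (by omega) (fam f g s))
      have e2 : In2 (maximalIdeal A ^ M) ((u M).2.1 (fam f g s - fam f g (u M).1)) :=
        hT.end_in _ _ _ (fam_sub hT f g s (u M).1 (fun k => hs k M))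
      have e3 := (hQ M hM).2.2
      have e4 : In2 (maximalIdeal A ^ M) (((u M).2.2 - q) * G) :=
        In2_mul_right hT (In2_sub_comm (hq M)) G
      have e5 := In2_add (In2_add (In2_add e1 e2) e3) e4
      have e6 : Θ (fam f g s) - (u M).2.1 (fam f g s) + (u M).2.1 (fam f g s - fam f g (u M).1) +
          ((u M).2.1 (fam f g (u M).1) - (u M).2.2 * G) + ((u M).2.2 - q) * G =
          Θ (fam f g s) - q * G := by
        rw [map_sub]; ring
      rw [e6] at e5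
      exact e5
    exact sub_eq_zero.1 key

end VLM

end Pool.Agent.Helper819.DC
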