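import Pool.Agent.Helper819.DC.Core2

set_option autoImplicit false

open PowerSeries IsLocalRing TensorProduct

universe u

namespace Pool.Agent.Helper819.DC


namespace VST

theorem in2_coeff_CC {A A' : Type u} [CommRing A] [CommRing A'] (ψ : A' →+* A) (w : A)
    (H : A'⟦X⟧⟦X⟧) (i j : ℕ) :
    PowerSeries.coeff i (PowerSeries.coeff j (C (C w) * map2 ψ H)) =
      w * ψ (PowerSeries.coeff i (PowerSeries.coeff j H)) := by
  rw [PowerSeries.coeff_C_mul, PowerSeries.coeff_C_mul]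
  simp only [map2, PowerSeries.coeff_map]

theorem in2_add {A : Type u} [CommRing A] {I : Ideal A} {h k : A⟦X⟧⟦X⟧} (hh : In2 I h)
    (hk : In2 I k) : In2 I (h + k) := by
  intro i j
  rw [map_add, map_add]
  exact I.add_mem (hh i j) (hk i j)

theorem in2_neg {A : Type u} [CommRing A] {I : Ideal A} {h : A⟦X⟧⟦X⟧} (hh : In2 I h) :
    In2 I (-h) := by
  intro i j
  rw [map_neg, map_neg]
  exact I.neg_mem (hh i j)

theorem in2_sub {A : Type u} [CommRing A] {I : Ideal A} {h k : A⟦X⟧⟦X⟧} (hh : In2 I h)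
    (hk : In2 I k) : In2 I (h - k) := by
  rw [sub_eq_add_neg]
  exact in2_add hh (in2_neg hk)

theorem in2_zero {A : Type u} [CommRing A] (I : Ideal A) : In2 I (0 : A⟦X⟧⟦X⟧) := by
  intro i j
  simp

theorem in2_sum {A : Type u} [CommRing A] {I : Ideal A} {ι : Type} (S : Finset ι)
    (h : ι → A⟦X⟧⟦X⟧) (hh : ∀ i ∈ S, In2 I (h i)) : In2 I (∑ i ∈ S, h i) := by
  classical
  induction S using Finset.induction_on with
  | empty => simpa using in2_zero I
  | insert a S ha ih =>
    rw [Finset.sum_insert ha]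
    exact in2_add (hh a (Finset.mem_insert_self _ _))
      (ih fun i hi => hh i (Finset.mem_insert_of_mem hi))

theorem in2_mono {A : Type u} [CommRing A] {I J : Ideal A} (hIJ : I ≤ J) {h : A⟦X⟧⟦X⟧}
    (hh : In2 I h) : In2 J h := fun i j => hIJ (hh i j)

theorem in2_CC_mul {A : Type u} [CommRing A] {I : Ideal A} {w : A} (hw : w ∈ I)
    (h : A⟦X⟧⟦X⟧) : In2 I (C (C w) * h) := by
  intro i j
  rw [PowerSeries.coeff_C_mul, PowerSeries.coeff_C_mul]
  exact I.mul_mem_right _ hw

theorem in2_CC_mul' {A : Type u} [CommRing A] {I J : Ideal A} {w : A} (hw : w ∈ I)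
    {h : A⟦X⟧⟦X⟧} (hh : In2 J h) : In2 (I * J) (C (C w) * h) := by
  intro i j
  rw [PowerSeries.coeff_C_mul, PowerSeries.coeff_C_mul]
  exact Ideal.mul_mem_mul hw (hh i j)

theorem ker_pi {K : Type u} [Field K] {A : Type u} [CommRing A] [IsLocalRing A] [Algebra K A]
    (π : A →ₐ[K] K) (a : A) : a ∈ maximalIdeal A ↔ π a = 0 := by
  constructor
  · intro ha
    by_contra hne
    have h1 : a * algebraMap K A (π a)⁻¹ - 1 ∈ RingHom.ker (π : A →+* K) := by
      rw [RingHom.mem_ker]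
      simp [hne]
    -- the element `a * c - 1` is a nonunit because `π` kills it
    have h3 : a * algebraMap K A (π a)⁻¹ - 1 ∈ maximalIdeal A := by
      rw [mem_maximalIdeal, mem_nonunits_iff]
      intro hu
      have := hu.map (π : A →+* K)
      rw [RingHom.mem_ker] at h1
      rw [h1] at this
      exact not_isUnit_zero this
    have h4 : (1 : A) ∈ maximalIdeal A := by
      have := (maximalIdeal A).sub_mem ((maximalIdeal A).mul_mem_right (algebraMap K A (π a)⁻¹) ha) h3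
      simpa using this
    exact (Ideal.ne_top_iff_one _).1 (maximalIdeal.isMaximal A).ne_top h4
  · intro h
    rw [mem_maximalIdeal, mem_nonunits_iff]
    intro hu
    have := hu.map (π : A →+* K)
    have h' : (π : A →+* K) a = 0 := h
    rw [h'] at this
    exact not_isUnit_zero this

theorem decomp {K : Type u} [Field K] {A : Type u} [CommRing A] [IsLocalRing A]
    [IsNoetherianRing A] [Algebra K A] (π : A →ₐ[K] K) (I : Ideal A) (E : A⟦X⟧⟦X⟧)
    (hE : In2 I E) : ∃ (L : ℕ) (w : Fin L → A) (E' : Fin L → K⟦X⟧⟦X⟧), (∀ l, w l ∈ I) ∧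
      In2 (I * maximalIdeal A) (E - ∑ l, C (C (w l)) * map2 (algebraMap K A) (E' l)) := by
  obtain ⟨L, w, hw⟩ := Submodule.fg_iff_exists_fin_generating_family.1
    ((isNoetherianRing_iff_ideal_fg A).1 inferInstance I)
  have h1 : ∀ i j : ℕ, ∃ c : Fin L → A,
      ∑ l, c l • w l = PowerSeries.coeff i (PowerSeries.coeff j E) := by
    intro i j
    have h2 : PowerSeries.coeff i (PowerSeries.coeff j E) ∈ Submodule.span A (Set.range w) := by
      rw [hw]; exact hE i j
    exact (Submodule.mem_span_range_iff_exists_fun A).1 h2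
  choose c hc using h1
  have hwI : ∀ l, w l ∈ I := by
    intro l
    rw [← hw]
    exact Submodule.subset_span ⟨l, rfl⟩
  refine ⟨L, w, fun l => PowerSeries.mk fun j => PowerSeries.mk fun i => π (c i j l), hwI, ?_⟩
  intro i j
  rw [map_sub, map_sub, map_sum, map_sum]
  simp only [in2_coeff_CC, PowerSeries.coeff_mk]
  rw [← hc i j, ← Finset.sum_sub_distrib]
  apply Ideal.sum_mem
  intro l _
  have h3 : c i j l • w l - w l * algebraMap K A (π (c i j l)) =
      w l * (c i j l - algebraMap K A (π (c i j l))) := by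
    rw [smul_eq_mul]; ring
  rw [h3]
  apply Ideal.mul_mem_mul (hwI l)
  rw [ker_pi π, map_sub, AlgHom.commutes]
  simp

theorem mem_max_iff {A : Type u} [CommRing A] [IsLocalRing A] (h : A⟦X⟧⟦X⟧) :
    h ∈ maximalIdeal A⟦X⟧⟦X⟧ ↔ PowerSeries.coeff 0 (PowerSeries.coeff 0 h) ∈ maximalIdeal A := by
  rw [mem_maximalIdeal, mem_nonunits_iff, PowerSeries.isUnit_iff_constantCoeff,
    PowerSeries.isUnit_iff_constantCoeff, mem_maximalIdeal, mem_nonunits_iff]
  simp

/-- one step of the versality argument -/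
theorem vers_step (hT : Tools.{u}) {K : Type u} [Field K] {τ : ℕ} (f : K⟦X⟧⟦X⟧)
    (g : Fin τ → K⟦X⟧⟦X⟧)
    (hspan : ∀ h, ∃ (σ : Fin τ → K) (c a b : K⟦X⟧⟦X⟧),
      h = ∑ k, σ k • g k + c * f + a * dx f + b * dy f)
    {A : Type u} [CommRing A] [IsLocalRing A] [IsNoetherianRing A]
    [IsAdicComplete (maximalIdeal A) A] [Algebra K A] (π : A →ₐ[K] K) (G : A⟦X⟧⟦X⟧)
    (hG' : map2 (π : A →+* K) G = f) (k : ℕ) (hk : 1 ≤ k) (s : Fin τ → A)
    (hs : ∀ j, s j ∈ maximalIdeal A) (Θ : End2 A)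
    (hΘ : ∀ h, map2 (π : A →+* K) (Θ h) = map2 (π : A →+* K) h) (q : A⟦X⟧⟦X⟧)
    (hq : In2 (maximalIdeal A ^ k) (Θ (fam f g s) - q * G)) :
    ∃ (s' : Fin τ → A) (Θ' : End2 A) (q' : A⟦X⟧⟦X⟧),
      (∀ j, s' j - s j ∈ maximalIdeal A ^ k) ∧
      In2 (maximalIdeal A ^ k) (Θ' (C X) - Θ (C X)) ∧ In2 (maximalIdeal A ^ k) (Θ' X - Θ X) ∧
      In2 (maximalIdeal A ^ k) (q' - q) ∧
      (∀ h, map2 (π : A →+* K) (Θ' h) = map2 (π : A →+* K) h) ∧
      In2 (maximalIdeal A ^ (k + 1)) (Θ' (fam f g s') - q' * G) := by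
  set m := maximalIdeal A with hm
  have hmk : m ^ k ≤ m := Ideal.pow_le_self (by omega)
  have hmk1 : m ^ k * m = m ^ (k + 1) := (pow_succ m k).symm
  have hm1k : m * m ^ k = m ^ (k + 1) := (pow_succ' m k).symm
  have hm2k : (m ^ k) ^ 2 ≤ m ^ (k + 1) := by
    rw [← pow_mul]
    exact Ideal.pow_le_pow_right (by omega)
  obtain ⟨L, w, E, hwI, hE⟩ := decomp π (m ^ k) _ hq
  have h1 : ∀ l, ∃ (σ : Fin τ → K) (c a b : K⟦X⟧⟦X⟧),
      E l = ∑ k, σ k • g k + c * f + a * dx f + b * dy f := fun l => hspan (E l)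
  choose σ c a b hE' using h1
  have hext : ∀ h : K⟦X⟧⟦X⟧, map2 (π : A →+* K) (map2 (algebraMap K A) h) = h := by
    intro h
    ext i j
    simp [map2, PowerSeries.coeff_map]
  set α : A⟦X⟧⟦X⟧ := ∑ l, C (C (w l)) * map2 (algebraMap K A) (a l) with hα
  set β : A⟦X⟧⟦X⟧ := ∑ l, C (C (w l)) * map2 (algebraMap K A) (b l) with hβ
  set γ : A⟦X⟧⟦X⟧ := ∑ l, C (C (w l)) * map2 (algebraMap K A) (c l) with hγ
  have hαI : In2 (m ^ k) α := in2_sum _ _ fun l _ => in2_CC_mul (hwI l) _
  have hβI : In2 (m ^ k) β := in2_sum _ _ fun l _ => in2_CC_mul (hwI l) _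
  have hγI : In2 (m ^ k) γ := in2_sum _ _ fun l _ => in2_CC_mul (hwI l) _
  set t : Fin τ → A := fun j => ∑ l, w l * algebraMap K A (σ l j) with ht
  have htI : ∀ j, t j ∈ m ^ k := fun j => Ideal.sum_mem _ fun l _ => Ideal.mul_mem_right _ _ (hwI l)
  have hxmem : Θ (C X) ∈ maximalIdeal A⟦X⟧⟦X⟧ := by
    rw [mem_max_iff, ker_pi π]
    have h2 := congrArg (fun h => PowerSeries.coeff 0 (PowerSeries.coeff 0 h)) (hΘ (C X))
    simpa [map2, PowerSeries.coeff_map] using h2
  have hymem : Θ X ∈ maximalIdeal A⟦X⟧⟦X⟧ := by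
    rw [mem_max_iff, ker_pi π]
    have h2 := congrArg (fun h => PowerSeries.coeff 0 (PowerSeries.coeff 0 h)) (hΘ X)
    simpa [map2, PowerSeries.coeff_map] using h2
  have hαm : α ∈ maximalIdeal A⟦X⟧⟦X⟧ := by
    rw [mem_max_iff]; exact hmk (hαI 0 0)
  have hβm : β ∈ maximalIdeal A⟦X⟧⟦X⟧ := by
    rw [mem_max_iff]; exact hmk (hβI 0 0)
  obtain ⟨Θ', hΘx, hΘy⟩ := hT.end_exists (Θ (C X) - α) (Θ X - β)
    (Ideal.sub_mem _ hxmem hαm) (Ideal.sub_mem _ hymem hβm)
  have hdx : Θ' (C X) - Θ (C X) = -α := by rw [hΘx]; ring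
  have hdy : Θ' X - Θ X = -β := by rw [hΘy]; ring
  have hcongr : ∀ h, In2 m (Θ' h - Θ h) := by
    intro h
    apply hT.end_congr Θ Θ' hxmem hymem m le_rfl
    · rw [hdx]; exact in2_mono hmk (in2_neg hαI)
    · rw [hdy]; exact in2_mono hmk (in2_neg hβI)
  have hΘ'π : ∀ h, map2 (π : A →+* K) (Θ' h) = map2 (π : A →+* K) h := by
    intro h
    have h2 := (hT.in2_map π (Θ' h - Θ h)).1 (hcongr h)
    rw [map_sub, sub_eq_zero] at h2
    rw [h2, hΘ]
  refine ⟨fun j => s j - t j, Θ', q + γ, ?_, ?_, ?_, ?_, hΘ'π, ?_⟩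
  · intro j
    have : s j - t j - s j = -t j := by ring
    rw [this]
    exact Ideal.neg_mem_iff _ |>.2 (htI j)
  · rw [hdx]; exact in2_neg hαI
  · rw [hdy]; exact in2_neg hβI
  · have : q + γ - q = γ := by ring
    rw [this]; exact hγI
  · set D : A⟦X⟧⟦X⟧ := ∑ j, C (C (t j)) * map2 (algebraMap K A) (g j) with hD
    have hfam : fam f g (fun j => s j - t j) = fam f g s - D := by
      unfold fam
      rw [hD, add_sub_assoc, ← Finset.sum_sub_distrib]
      congr 1
      apply Finset.sum_congr rfl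
      intro j _
      rw [map_sub, map_sub, sub_mul]
    have hΘ'D : Θ' D = ∑ j, C (C (t j)) * Θ' (map2 (algebraMap K A) (g j)) := by
      rw [hD, map_sum]
      apply Finset.sum_congr rfl
      intro j _
      rw [map_mul]
      congr 1
      have e : (C (C (t j)) : A⟦X⟧⟦X⟧) = algebraMap A _ (t j) := by
        rw [PowerSeries.algebraMap_apply, PowerSeries.algebraMap_apply]
        rfl
      rw [e, AlgHom.commutes]
    have hsumE : ∑ l, C (C (w l)) * map2 (algebraMap K A) (E l) =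
        D + γ * map2 (algebraMap K A) f + α * map2 (algebraMap K A) (dx f) +
          β * map2 (algebraMap K A) (dy f) := by
      rw [hD, hα, hβ, hγ, Finset.sum_mul, Finset.sum_mul, Finset.sum_mul]
      have hD2 : ∑ j, C (C (t j)) * map2 (algebraMap K A) (g j) =
          ∑ l, C (C (w l)) * ∑ j, C (C (algebraMap K A (σ l j))) * map2 (algebraMap K A) (g j) := by
        simp only [ht, map_sum, map_mul, Finset.sum_mul, Finset.mul_sum]
        rw [Finset.sum_comm]
        apply Finset.sum_congr rfl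
        intro l _
        apply Finset.sum_congr rfl
        intro j _
        ring
      rw [hD2, ← Finset.sum_add_distrib, ← Finset.sum_add_distrib, ← Finset.sum_add_distrib]
      apply Finset.sum_congr rfl
      intro l _
      have hsm : ∀ (x : K) (h : K⟦X⟧⟦X⟧), map2 (algebraMap K A) (x • h) =
          C (C (algebraMap K A x)) * map2 (algebraMap K A) h := by
        intro x h
        ext j i
        rw [in2_coeff_CC]
        simp [map2, PowerSeries.coeff_map]
      rw [hE' l]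
      simp only [map_add, map_mul, map_sum, hsm]
      ring
    have hF : map2 (π : A →+* K) (fam f g s) = f := hT.map2_fam_zero π f g s hs
    have htay := hT.taylor2 Θ Θ' hxmem hymem (m ^ k) hmk (-α) (-β) (in2_neg hαI) (in2_neg hβI)
      (by rw [hΘx]; ring) (by rw [hΘy]; ring) (fam f g s)
    have e : Θ' (fam f g fun j => s j - t j) - (q + γ) * G =
        (Θ' (fam f g s) - (Θ (fam f g s) + Θ (dx (fam f g s)) * (-α) + Θ (dy (fam f g s)) * (-β))) +
        (Θ (fam f g s) - q * G - ∑ l, C (C (w l)) * map2 (algebraMap K A) (E l)) +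
        (D - Θ' D) + (map2 (algebraMap K A) (dx f) - Θ (dx (fam f g s))) * α +
        (map2 (algebraMap K A) (dy f) - Θ (dy (fam f g s))) * β +
        (map2 (algebraMap K A) f - G) * γ := by
      rw [hfam, map_sub, hsumE]
      ring
    rw [e]
    refine in2_add (in2_add (in2_add (in2_add (in2_add ?_ ?_) ?_) ?_) ?_) ?_
    · exact in2_mono hm2k htay
    · rw [← hmk1]; exact hE
    · rw [hΘ'D, hD, ← Finset.sum_sub_distrib]
      apply in2_sum
      intro j _
      rw [← mul_sub, ← hmk1]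
      apply in2_CC_mul' (htI j)
      rw [hm, hT.in2_map π, map_sub, hΘ'π, sub_self]
    · rw [← hm1k]
      apply hT.in2_mul _ _ _ _ _ hαI
      rw [hm, hT.in2_map π, map_sub, hΘ, hext, hT.map2_dx, hF, sub_self]
    · rw [← hm1k]
      apply hT.in2_mul _ _ _ _ _ hβI
      rw [hm, hT.in2_map π, map_sub, hΘ, hext, hT.map2_dy, hF, sub_self]
    · rw [← hm1k]
      apply hT.in2_mul _ _ _ _ _ hγI
      rw [hm, hT.in2_map π, map_sub, hext, hG', sub_self]

end VST

end Pool.Agent.Helper819.DC
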