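import Pool.Agent.Helper819.DC.Core4
import Pool.Agent.Helper819.DC.EV
import Pool.Agent.Helper819.DC.COMP1
import Pool.Agent.Helper819.DC.COMP2
import Pool.Agent.Helper819.DC.COMP3
import Pool.Agent.Helper819.DC.TAY
import Pool.Agent.Helper819.DC.TLA
import Pool.Agent.Helper819.DC.TLB
import Pool.Agent.Helper819.DC.TLC
import Pool.Agent.Helper819.DC.TLD
import Pool.Agent.Helper819.DC.CH1
import Pool.Agent.Helper819.DC.CH2
import Pool.Agent.Helper819.DC.CH3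
import Pool.Agent.Helper819.DC.CHR
import Pool.Agent.Helper819.DC.CHG
import Pool.Agent.Helper819.DC.KER
import Pool.Agent.Helper819.DC.VST
import Pool.Agent.Helper819.DC.VLM
import Pool.Agent.Helper819.DC.UNI
import Pool.Agent.Helper819.DC.TB1
import Pool.Agent.Helper819.DC.TB2
import Pool.Agent.Helper819.DC.UNV
import Pool.Agent.Helper819.DC.IMM

set_option autoImplicit false

open PowerSeries IsLocalRing TensorProduct

universe u

namespace Pool.Agent.Helper819.DC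

theorem baseFacts : BaseFacts.{u} where
  ev_exists := fun I _ b hb => EV.ev_exists I b hb
  ev_unique := fun I _ b hb Φ Ψ h1 h2 => EV.ev_unique I b hb Φ Ψ h1 h2
  evm_exists := fun I _ b hb => EV.evm_exists I b hb
  evm_unique := fun I _ b hb Φ Ψ h1 h2 => EV.evm_unique I b hb Φ Ψ h1 h2
  complete_powerSeries := COMP1.complete_powerSeries
  complete_mvPowerSeries := COMP2.complete_mvPowerSeries
  complete_powerSeries_field := COMP2.complete_powerSeries_field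
  hom_local := fun Φ => TAY.hom_local Φ
  hom_unique := fun Φ Ψ h1 h2 h3 h4 h5 => TAY.hom_unique Φ Ψ h1 h2 h3 h4 h5
  taylor := fun Φ Ψ hc hx hy J hJ a b ha hb h1 h2 h =>
    TAY.taylor Φ Ψ hc hx hy J hJ a b ha hb h1 h2 h
  chain := fun Φ h => TAY.chain Φ h
  mem_map_C := TLD.mem_map_C

theorem tools : Tools.{u} where
  toToolsA := TLA.toolsA baseFacts
  toToolsB := TLB.toolsB baseFacts
  toToolsC := TLC.toolsC baseFacts (TLB.toolsB baseFacts)
  toToolsD := TLD.toolsD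

theorem char_all {K : Type u} [Field K] [Infinite K] {r : ℕ} (f : K⟦X⟧⟦X⟧) (φ : Par K r)
    (hker : RingHom.ker φ = Ideal.span {f}) (d : K⟦X⟧⟦X⟧) (hd : ∀ i, φ d i ≠ 0)
    (hcond : ∀ w, ∃ a, φ a = φ d * w)
    {A : Type u} [CommRing A] [IsLocalRing A] [IsNoetherianRing A]
    [IsAdicComplete (maximalIdeal A) A] [Algebra K A] (π : A →ₐ[K] K) (Φ : Par A r)
    (hΦ : Lifts π φ Φ) :
    ∃ G : A⟦X⟧⟦X⟧, Φ G = 0 ∧ map2 (π : A →+* K) G = f :=
  CHG.char_general tools baseFacts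
    (fun K _ r f φ hker d hd hcond hreg A _ _ _ _ _ π Φ hΦ =>
      CHR.char_regular tools
        (fun A _ _ _ _ a n hn ρ hρ w => CH1.free_basis a n hn ρ hρ w)
        (fun A _ _ r Φ n h => CH2.exists_monic Φ n h)
        (fun K _ r f φ hker d hd hcond n hn χ hχ hdeg h0 =>
          CH3.monic_eq_unit_mul f φ hker d hd hcond n hn χ hχ hdeg h0)
        f φ hker d hd hcond hreg π Φ hΦ)
    f φ hker d hd hcond π Φ hΦ

theorem uni_all {K : Type u} [Field K] [Infinite K] {τ r : ℕ} (D : Setup K τ r)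
    (A : Type u) [CommRing A] [IsLocalRing A] [IsNoetherianRing A]
    [IsAdicComplete (maximalIdeal A) A] [Algebra K A] (π : A →ₐ[K] K)
    (N : ℕ) (hN : 1 ≤ N) (s₀ : Fin τ → A) (hs₀ : ∀ j, s₀ j ∈ maximalIdeal A) (Φ₀ : Par A r)
    (hΦ₀ : Lifts π D.φ Φ₀) (h₀ : InP (maximalIdeal A ^ N) (Φ₀ (D.F s₀))) :
    ∃ (s : Fin τ → A) (Φ : Par A r), SimPar D π s Φ ∧
      (∀ j, s j - s₀ j ∈ maximalIdeal A ^ N) ∧
      InP (maximalIdeal A ^ N) (Φ (C X) - Φ₀ (C X)) ∧ InP (maximalIdeal A ^ N) (Φ X - Φ₀ X) ∧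
      ∃ M₁₁ M₁₂ M₂₁ M₂₂ : Fin r → A⟦X⟧,
        dP (Φ (C X)) = M₁₁ * dP (Φ₀ (C X)) + M₁₂ * dP (Φ₀ X) ∧
        dP (Φ X) = M₂₁ * dP (Φ₀ (C X)) + M₂₂ * dP (Φ₀ X) ∧
        mapP (π : A →+* K) M₁₁ = 1 ∧ mapP (π : A →+* K) M₁₂ = 0 ∧
        mapP (π : A →+* K) M₂₁ = 0 ∧ mapP (π : A →+* K) M₂₂ = 1 :=
  UNI.uni tools D π (fun Φ hΦ => char_all D.f D.φ D.ker D.d D.hd D.cond π Φ hΦ)
    (fun Φ hΦ G hG hG' k H hH => KER.ker_filtration tools D.f D.φ D.ker π Φ hΦ G hG hG' k H hH)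
    (fun G hG' N hN s₀ hs₀ q₀ h₀ => VLM.versal tools D.f D.g π G
      (fun k hk s hs Θ hΘ q hq => VST.vers_step tools D.f D.g D.span π G hG' k hk s hs Θ hΘ q hq)
      N hN s₀ hs₀ q₀ h₀)
    N hN s₀ hs₀ Φ₀ hΦ₀ h₀

theorem hgrad {K : Type u} [Field K] {τ r : ℕ} (D : Setup K τ r) (i : Fin r) :
    ¬ (D.φ (dx D.f) i = 0 ∧ D.φ (dy D.f) i = 0) := TB1.grad_ne_zero D i

theorem hvel {K : Type u} [Field K] {τ r : ℕ} (D : Setup K τ r) (i : Fin r) :
    ¬ (dP (D.φ (C X)) i = 0 ∧ dP (D.φ X) i = 0) := TB1.vel_ne_zero tools baseFacts D i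

theorem tbasis {K : Type u} [Field K] {τ r : ℕ} (D : Setup K τ r) : Nonempty (TBasis D) :=
  TB2.exists_tbasis tools D (hgrad D) (hvel D)

theorem univ_all {K : Type u} [Field K] [Infinite K] {τ r : ℕ} (D : Setup K τ r) (T : TBasis D) :
    Nonempty (UnivFam D T) :=
  UNV.exists_univ tools baseFacts D (uni_all D) T

end Pool.Agent.Helper819.DC
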