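import Mathlib

set_option autoImplicit false

open PowerSeries IsLocalRing TensorProduct

universe u

namespace Pool.Agent.Helper819.DC.BIR

theorem bir_nak {S O E : Type u} [CommRing S] [CommRing O] [Field E] [Algebra S O]
    [Module.Finite S O] [Algebra S E]
    (hspan : ∀ x : E ⊗[S] O, ∃ e : E, x = e ⊗ₜ[S] (1 : O)) :
    ∃ s : S, algebraMap S E s ≠ 0 ∧
      ∀ o : O, ∃ s', algebraMap S O s' = algebraMap S O s * o := by
  classical
  let N : Submodule S O := LinearMap.range (Algebra.linearMap S O)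
  have hsub : Subsingleton (E ⊗[S] (O ⧸ N)) := by
    refine ⟨fun x y => ?_⟩
    have key : ∀ z : E ⊗[S] (O ⧸ N), z = 0 := by
      intro z
      obtain ⟨w, rfl⟩ := LinearMap.lTensor_surjective E (Submodule.mkQ_surjective N) z
      obtain ⟨e, rfl⟩ := hspan w
      rw [LinearMap.lTensor_tmul]
      have : N.mkQ (1 : O) = 0 := by
        rw [Submodule.mkQ_apply, Submodule.Quotient.mk_eq_zero]
        exact ⟨1, by simp⟩
      rw [this, TensorProduct.tmul_zero]
    rw [key x, key y]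
  haveI hp : (RingHom.ker (algebraMap S E)).IsPrime := RingHom.ker_isPrime _
  let p : PrimeSpectrum S := ⟨RingHom.ker (algebraMap S E), hp⟩
  have hps : p ∉ Module.support S (O ⧸ N) := by
    intro h
    rw [Module.mem_support_iff_nontrivial_residueField_tensorProduct] at h
    let f : p.asIdeal.ResidueField →+* E := Ideal.ResidueField.lift p.asIdeal (algebraMap S E)
      le_rfl (by
        intro x hx
        simp only [Submonoid.mem_comap, IsUnit.mem_submonoid_iff]
        exact isUnit_iff_ne_zero.2 hx)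
    letI : Algebra p.asIdeal.ResidueField E := f.toAlgebra
    haveI : IsScalarTower S p.asIdeal.ResidueField E := IsScalarTower.of_algebraMap_eq (by
      intro x
      change _ = f _
      simp [f])
    let e := (TensorProduct.AlgebraTensorModule.cancelBaseChange S p.asIdeal.ResidueField E E (O ⧸ N))
    haveI : Subsingleton (E ⊗[p.asIdeal.ResidueField] (p.asIdeal.ResidueField ⊗[S] (O ⧸ N))) :=
      e.toEquiv.subsingleton
    haveI := h
    have : Nontrivial (E ⊗[p.asIdeal.ResidueField] (p.asIdeal.ResidueField ⊗[S] (O ⧸ N))) :=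
      inferInstance
    exact not_subsingleton _ ‹Subsingleton (E ⊗[p.asIdeal.ResidueField] (p.asIdeal.ResidueField ⊗[S] (O ⧸ N)))›
  rw [Module.mem_support_iff_of_finite] at hps
  obtain ⟨s, hs, hs'⟩ := SetLike.not_le_iff_exists.1 hps
  refine ⟨s, fun h => hs' h, fun o => ?_⟩
  have h1 : s • (N.mkQ o) = 0 := Module.mem_annihilator.1 hs _
  rw [← map_smul, Submodule.mkQ_apply, Submodule.Quotient.mk_eq_zero] at h1
  obtain ⟨s', hs'⟩ := h1
  refine ⟨s', ?_⟩
  rw [← Algebra.smul_def, ← hs']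
  rfl

theorem bir_arc {K : Type u} [Field K]
    {S O : Type u} [CommRing S] [CommRing O] [Algebra K S] [Algebra K O] (θ : S →ₐ[K] O)
    (hθ : θ.toRingHom.Finite)
    (hinj : ∀ b b' : O →ₐ[K] K⟦X⟧, b.comp θ = b'.comp θ → b = b')
    (b₀ : O →ₐ[K] K⟦X⟧)
    (E L : Type u) [Field E] [Field L] [Algebra K⟦X⟧ E] [IsFractionRing K⟦X⟧ E]
      [Algebra E L] [Algebra K⟦X⟧ L] [IsScalarTower K⟦X⟧ E L]
    (e : integralClosure K⟦X⟧ L ≃+* K⟦X⟧)
    (he : ∀ c : K, e (algebraMap K⟦X⟧ (integralClosure K⟦X⟧ L) (C c)) = C c)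
    (g : O →+* L) (hg : ∀ s, g (θ s) = algebraMap K⟦X⟧ L (b₀ (θ s))) (o : O) :
    g o = algebraMap K⟦X⟧ L (b₀ o) := by
  have hint : ∀ o, g o ∈ integralClosure K⟦X⟧ L := by
    intro o
    obtain ⟨P, hP, hP0⟩ := hθ.to_isIntegral o
    refine ⟨P.map ((b₀ : O →+* K⟦X⟧).comp (θ : S →+* O)), hP.map _, ?_⟩
    rw [Polynomial.eval₂_map]
    have h1 : (algebraMap K⟦X⟧ L).comp ((b₀ : O →+* K⟦X⟧).comp (θ : S →+* O)) =
        g.comp (θ : S →+* O) := by
      ext s
      exact (hg s).symm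
    rw [h1, ← Polynomial.hom_eval₂]
    have h2 : Polynomial.eval₂ (θ : S →+* O) o P = 0 := hP0
    rw [h2, map_zero]
  let g' : O →+* integralClosure K⟦X⟧ L := g.codRestrict (integralClosure K⟦X⟧ L).toSubring hint
  have hg' : ∀ s, g' (θ s) = algebraMap K⟦X⟧ (integralClosure K⟦X⟧ L) (b₀ (θ s)) := by
    intro s
    apply Subtype.ext
    exact hg s
  let b : O →ₐ[K] K⟦X⟧ := { (e : integralClosure K⟦X⟧ L →+* K⟦X⟧).comp g' with
    commutes' := by
      intro c
      have h1 : algebraMap K O c = θ (algebraMap K S c) := (θ.commutes c).symm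
      change e (g' (algebraMap K O c)) = _
      rw [h1, hg', ← h1, b₀.commutes]
      exact he c }
  let b' : O →ₐ[K] K⟦X⟧ := { ((e : integralClosure K⟦X⟧ L →+* K⟦X⟧).comp
      (algebraMap K⟦X⟧ (integralClosure K⟦X⟧ L))).comp (b₀ : O →+* K⟦X⟧) with
    commutes' := by
      intro c
      change e (algebraMap K⟦X⟧ (integralClosure K⟦X⟧ L) (b₀ (algebraMap K O c))) = _
      rw [b₀.commutes]
      exact he c }
  have hbb : b = b' := by
    apply hinj
    ext1 s
    change e (g' (θ s)) = e (algebraMap K⟦X⟧ (integralClosure K⟦X⟧ L) (b₀ (θ s)))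
    rw [hg']
  have h3 : e (g' o) = e (algebraMap K⟦X⟧ (integralClosure K⟦X⟧ L) (b₀ o)) :=
    DFunLike.congr_fun hbb o
  have h4 := e.injective h3
  exact congrArg Subtype.val h4

/-- derivation step -/
theorem bir_der {K : Type u} [Field K]
    {S O : Type u} [CommRing S] [CommRing O] [Algebra K S] [Algebra K O] (θ : S →ₐ[K] O)
    (hθ : θ.toRingHom.Finite) (b₀ : O →ₐ[K] K⟦X⟧)
    (hder : ∀ D : O →ₗ[K] K⟦X⟧, (∀ x y, D (x * y) = b₀ x * D y + b₀ y * D x) →
      (∀ s, D (θ s) = 0) → D = 0)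
    (E : Type u) [Field E] [Algebra K⟦X⟧ E] [IsFractionRing K⟦X⟧ E]
    (D : O →+ E) (hD : ∀ x y, D (x * y) = algebraMap K⟦X⟧ E (b₀ x) * D y
      + algebraMap K⟦X⟧ E (b₀ y) * D x) (hDθ : ∀ s, D (θ s) = 0) (o : O) : D o = 0 := by
  classical
  letI : Algebra S O := θ.toRingHom.toAlgebra
  haveI : Module.Finite S O := hθ
  obtain ⟨T, hT⟩ := (Module.finite_def (R := S) (M := O)).1 inferInstance
  obtain ⟨N, hN⟩ := IsLocalization.exist_integer_multiples_of_finset
    (nonZeroDivisors K⟦X⟧) (T.image D)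
  have hN' : ∀ o : O, ∃ a : K⟦X⟧, algebraMap K⟦X⟧ E a = algebraMap K⟦X⟧ E N * D o := by
    intro o
    have ho : o ∈ Submodule.span S (T : Set O) := by rw [hT]; trivial
    induction ho using Submodule.span_induction with
    | mem x hx =>
      obtain ⟨a, ha⟩ := hN (D x) (Finset.mem_image_of_mem _ hx)
      exact ⟨a, by rw [ha, Algebra.smul_def]⟩
    | zero => exact ⟨0, by simp⟩
    | add x y _ _ hx hy =>
      obtain ⟨a, ha⟩ := hx
      obtain ⟨c, hc⟩ := hy
      exact ⟨a + c, by rw [map_add, ha, hc, map_add, mul_add]⟩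
    | smul s x _ hx =>
      obtain ⟨a, ha⟩ := hx
      refine ⟨b₀ (θ s) * a, ?_⟩
      have h1 : s • x = θ s * x := Algebra.smul_def _ _
      rw [h1, hD, hDθ, mul_zero, add_zero, map_mul, ha]
      ring
  choose F hF using hN'
  have hinjA : Function.Injective (algebraMap K⟦X⟧ E) := IsFractionRing.injective _ _
  have hK : ∀ (c : K) (x : O), D (c • x) = algebraMap K⟦X⟧ E (C c) * D x := by
    intro c x
    rw [Algebra.smul_def, hD]
    have h1 : algebraMap K O c = θ (algebraMap K S c) := (θ.commutes c).symm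
    have h2 : D (algebraMap K O c) = 0 := by rw [h1]; exact hDθ _
    rw [h2, mul_zero, add_zero, b₀.commutes]
    rfl
  let D' : O →ₗ[K] K⟦X⟧ :=
    { toFun := F
      map_add' := by
        intro x y
        apply hinjA
        rw [hF, map_add, map_add, hF, hF, mul_add]
      map_smul' := by
        intro c x
        apply hinjA
        rw [hF, hK, RingHom.id_apply, PowerSeries.smul_eq_C_mul, map_mul, hF]
        ring }
  have hD' : D' = 0 := by
    apply hder
    · intro x y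
      apply hinjA
      change algebraMap K⟦X⟧ E (F (x * y)) = algebraMap K⟦X⟧ E (b₀ x * F y + b₀ y * F x)
      rw [hF, hD, map_add (algebraMap K⟦X⟧ E), map_mul (algebraMap K⟦X⟧ E),
        map_mul (algebraMap K⟦X⟧ E), hF, hF]
      ring
    · intro s
      apply hinjA
      change algebraMap K⟦X⟧ E (F (θ s)) = _
      rw [hF, hDθ, mul_zero, map_zero]
  have h5 : F o = 0 := DFunLike.congr_fun hD' o
  have h6 := hF o
  rw [h5, map_zero] at h6
  have hN0 : algebraMap K⟦X⟧ E (N : K⟦X⟧) ≠ 0 := by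
    intro h
    have : (N : K⟦X⟧) = 0 := hinjA (by rw [h, map_zero])
    exact nonZeroDivisors.ne_zero N.2 this
  rcases mul_eq_zero.1 h6.symm with h | h
  · exact absurd h hN0
  · exact h

theorem nil_sq {R : Type u} [CommRing R] (I : Ideal R) (h : IsNilpotent I) (h2 : I ≤ I ^ 2) :
    I = ⊥ := by
  have h1 : ∀ k : ℕ, I ≤ I ^ (k + 1) := by
    intro k
    induction k with
    | zero => simp
    | succ k ih =>
      calc I ≤ I ^ 2 := h2
        _ = I * I := pow_two I
        _ ≤ I ^ (k + 1) * I := Ideal.mul_mono_left ih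
        _ = I ^ (k + 1 + 1) := (pow_succ _ _).symm
  obtain ⟨k, hk⟩ := h
  rw [eq_bot_iff]
  refine (h1 k).trans ?_
  rw [pow_succ, hk]
  simp

theorem jac_nil {R : Type u} [CommRing R] [IsArtinianRing R] (n : Ideal R)
    (h1 : ∀ m : Ideal R, m.IsMaximal → n ≤ m) : IsNilpotent n := by
  have h1 : n ≤ Ideal.jacobson ⊥ := by
    rw [Ideal.jacobson]
    refine le_sInf ?_
    rintro m ⟨-, hm⟩
    exact h1 m hm
  obtain ⟨k, hk⟩ := IsArtinianRing.isNilpotent_jacobson_bot (R := R)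
  refine ⟨k, ?_⟩
  have h2 := Ideal.pow_right_mono h1 k
  have h3 : (Ideal.jacobson (⊥ : Ideal R)) ^ k = ⊥ := hk
  rw [h3] at h2
  exact le_bot_iff.1 h2

/-- birationality from injectivity on arcs and on one tangent space -/
theorem birational_aux {K : Type u} [Field K] [IsAlgClosed K]
    (hclosure : ∀ (E L : Type u) [Field E] [Field L] [Algebra K⟦X⟧ E] [IsFractionRing K⟦X⟧ E]
      [Algebra E L] [Algebra K⟦X⟧ L] [IsScalarTower K⟦X⟧ E L] [FiniteDimensional E L],
      ∃ e : integralClosure K⟦X⟧ L ≃+* K⟦X⟧,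
        ∀ c : K, e (algebraMap K⟦X⟧ (integralClosure K⟦X⟧ L) (C c)) = C c)
    {S O : Type u} [CommRing S] [CommRing O] [Algebra K S] [Algebra K O] (θ : S →ₐ[K] O)
    (hθ : θ.toRingHom.Finite)
    (hinj : ∀ b b' : O →ₐ[K] K⟦X⟧, b.comp θ = b'.comp θ → b = b')
    (b₀ : O →ₐ[K] K⟦X⟧)
    (hder : ∀ D : O →ₗ[K] K⟦X⟧, (∀ x y, D (x * y) = b₀ x * D y + b₀ y * D x) →
      (∀ s, D (θ s) = 0) → D = 0)
    (E : Type u) [Field E] [Algebra K⟦X⟧ E] [IsFractionRing K⟦X⟧ E] :
    ∃ s, θ s ≠ 0 ∧ ∀ o : O, ∃ s', θ s' = θ s * o := by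
  classical
  letI algSO : Algebra S O := θ.toRingHom.toAlgebra
  haveI finSO : Module.Finite S O := hθ
  letI algSE : Algebra S E :=
    ((algebraMap K⟦X⟧ E).comp ((b₀ : O →+* K⟦X⟧).comp (θ : S →+* O))).toAlgebra
  let β : O →ₐ[S] E := { (algebraMap K⟦X⟧ E).comp (b₀ : O →+* K⟦X⟧) with
    commutes' := fun s => rfl }
  let bt : (E ⊗[S] O) →ₐ[E] E := Algebra.TensorProduct.lift (AlgHom.id E E) β
    (fun _ _ => Commute.all _ _)
  have hbt : ∀ (e : E) (o : O), bt (e ⊗ₜ o) = e * algebraMap K⟦X⟧ E (b₀ o) := by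
    intro e o
    simp [bt, β]
  have hbtE : ∀ e : E, bt (algebraMap E (E ⊗[S] O) e) = e := fun e => by
    rw [bt.commutes]; rfl
  let δ : O → E ⊗[S] O := fun o => (1 : E) ⊗ₜ o - (algebraMap K⟦X⟧ E (b₀ o)) ⊗ₜ[S] (1 : O)
  have hδ0 : ∀ o, bt (δ o) = 0 := by
    intro o
    simp only [δ, map_sub, hbt, map_one, mul_one, one_mul, sub_self]
  have hspan1 : ∀ x : E ⊗[S] O, x - (bt x) ⊗ₜ[S] (1 : O) ∈ Submodule.span E (Set.range δ) := by
    intro x
    induction x using TensorProduct.induction_on with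
    | zero => simp
    | tmul e o =>
      have : e ⊗ₜ[S] o - (bt (e ⊗ₜ[S] o)) ⊗ₜ[S] (1 : O) = e • δ o := by
        rw [hbt]
        simp only [δ, smul_sub, TensorProduct.smul_tmul', smul_eq_mul, mul_one]
      rw [this]
      exact Submodule.smul_mem _ _ (Submodule.subset_span ⟨o, rfl⟩)
    | add x y hx hy =>
      have : x + y - (bt (x + y)) ⊗ₜ[S] (1 : O) = (x - (bt x) ⊗ₜ[S] (1 : O)) +
          (y - (bt y) ⊗ₜ[S] (1 : O)) := by
        rw [map_add, TensorProduct.add_tmul]; ring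
      rw [this]
      exact Submodule.add_mem _ hx hy
  let n : Ideal (E ⊗[S] O) := RingHom.ker bt
  -- every maximal ideal contains n
  have gen : ∀ (L : Type u) [Field L] [Algebra E L] [FiniteDimensional E L]
      (q : (E ⊗[S] O) →ₐ[E] L), ∀ o, q (δ o) = 0 := by
    intro L _ _ _ q
    letI algAL : Algebra K⟦X⟧ L := ((algebraMap E L).comp (algebraMap K⟦X⟧ E)).toAlgebra
    haveI : IsScalarTower K⟦X⟧ E L := IsScalarTower.of_algebraMap_eq (fun _ => rfl)
    obtain ⟨e, he⟩ := hclosure E L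
    let g : O →+* L := (q : (E ⊗[S] O) →+* L).comp
      ((Algebra.TensorProduct.includeRight : O →ₐ[S] E ⊗[S] O) : O →+* E ⊗[S] O)
    have hq : ∀ e : E, q (e ⊗ₜ[S] (1 : O)) = algebraMap E L e := fun e => q.commutes e
    have hgo := bir_arc θ hθ hinj b₀ E L e he g (by
      intro s
      change q ((1 : E) ⊗ₜ[S] (θ s)) = algebraMap E L (algebraMap K⟦X⟧ E (b₀ (θ s)))
      rw [← hq]
      congr 1
      have h1 : θ s = s • (1 : O) := by
        rw [Algebra.smul_def, mul_one]; rfl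
      have h2 : algebraMap K⟦X⟧ E (b₀ (θ s)) = s • (1 : E) := by
        rw [Algebra.smul_def, mul_one]; rfl
      rw [h2, TensorProduct.smul_tmul, ← h1])
    intro o
    have h3 : g o = q ((1 : E) ⊗ₜ[S] o) := rfl
    have h4 : algebraMap K⟦X⟧ L (b₀ o) = algebraMap E L (algebraMap K⟦X⟧ E (b₀ o)) := rfl
    simp only [δ, map_sub, hq]
    rw [← h3, ← h4, hgo o, sub_self]
  have hmax : ∀ m : Ideal (E ⊗[S] O), m.IsMaximal → n ≤ m := by
    intro m hm
    letI : Field ((E ⊗[S] O) ⧸ m) := Ideal.Quotient.field m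
    have hδm : ∀ o, δ o ∈ m := by
      intro o
      rw [← Ideal.Quotient.eq_zero_iff_mem]
      exact gen ((E ⊗[S] O) ⧸ m) (Ideal.Quotient.mkₐ E m) o
    intro x hx
    have hx' : bt x = 0 := hx
    have h1 := hspan1 x
    rw [hx', TensorProduct.zero_tmul, sub_zero] at h1
    have h2 : Submodule.span E (Set.range δ) ≤ m.restrictScalars E := by
      rw [Submodule.span_le]
      rintro _ ⟨o, rfl⟩
      exact hδm o
    exact h2 h1
  haveI : IsArtinianRing (E ⊗[S] O) := IsArtinianRing.of_finite E _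
  have hnil : IsNilpotent n := jac_nil n hmax
  have hn0 : n = ⊥ := by
    by_contra hne
    have hnsq : ¬ n ≤ n ^ 2 := fun hle => hne (nil_sq n hnil hle)
    obtain ⟨x, hxn, hx2⟩ := SetLike.not_le_iff_exists.1 hnsq
    let W : Submodule E (E ⊗[S] O) := Submodule.span E {(1 : E ⊗[S] O)} ⊔ (n ^ 2).restrictScalars E
    have hxW : x ∉ W := by
      intro h
      obtain ⟨y, hy, z, hz, hyz⟩ := Submodule.mem_sup.1 h
      obtain ⟨c, rfl⟩ := Submodule.mem_span_singleton.1 hy
      have hz' : z ∈ n ^ 2 := hz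
      have hzn : bt z = 0 := (Ideal.pow_le_self (two_ne_zero)) hz'
      have h1 : bt x = 0 := hxn
      rw [← hyz, map_add, hzn, add_zero, map_smul, map_one, smul_eq_mul, mul_one] at h1
      rw [h1, zero_smul, zero_add] at hyz
      exact hx2 (hyz ▸ hz')
    obtain ⟨l, hlx, hlW⟩ := Submodule.exists_le_ker_of_notMem hxW
    have hl1 : l 1 = 0 := hlW (Submodule.mem_sup_left (Submodule.mem_span_singleton_self _))
    have hl2 : ∀ y ∈ n ^ 2, l y = 0 := fun y hy => hlW (Submodule.mem_sup_right hy)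
    have hle : ∀ e : E, l (e ⊗ₜ[S] (1 : O)) = 0 := by
      intro e
      have : e ⊗ₜ[S] (1 : O) = e • (1 : E ⊗[S] O) := by
        rw [Algebra.TensorProduct.one_def, TensorProduct.smul_tmul', smul_eq_mul, mul_one]
      rw [this, map_smul, hl1, smul_zero]
    have hlδ : ∀ o, l (δ o) = l ((1 : E) ⊗ₜ[S] o) := by
      intro o
      simp only [δ, map_sub, hle, sub_zero]
    let D : O →+ E :=
      { toFun := fun o => l ((1 : E) ⊗ₜ[S] o)
        map_zero' := by simp
        map_add' := by intro x y; rw [TensorProduct.tmul_add, map_add] }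
    have hD0 := bir_der θ hθ b₀ hder E D (by
      intro x y
      change l ((1 : E) ⊗ₜ[S] (x * y)) = algebraMap K⟦X⟧ E (b₀ x) * l ((1 : E) ⊗ₜ[S] y) +
        algebraMap K⟦X⟧ E (b₀ y) * l ((1 : E) ⊗ₜ[S] x)
      have h1 : (1 : E) ⊗ₜ[S] (x * y) = δ x * δ y + algebraMap K⟦X⟧ E (b₀ x) • δ y +
          algebraMap K⟦X⟧ E (b₀ y) • δ x +
          (algebraMap K⟦X⟧ E (b₀ x) * algebraMap K⟦X⟧ E (b₀ y)) ⊗ₜ[S] (1 : O) := by
        have hx : (1 : E) ⊗ₜ[S] x = δ x + (algebraMap K⟦X⟧ E (b₀ x)) ⊗ₜ[S] (1 : O) := by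
          simp [δ]
        have hy : (1 : E) ⊗ₜ[S] y = δ y + (algebraMap K⟦X⟧ E (b₀ y)) ⊗ₜ[S] (1 : O) := by
          simp [δ]
        have hxy : (1 : E) ⊗ₜ[S] (x * y) = ((1 : E) ⊗ₜ[S] x) * ((1 : E) ⊗ₜ[S] y) := by
          rw [Algebra.TensorProduct.tmul_mul_tmul, mul_one]
        have hs : ∀ (e : E) (z : E ⊗[S] O), e • z = (e ⊗ₜ[S] (1 : O)) * z := by
          intro e z
          rw [Algebra.smul_def]; rfl
        have hm : (algebraMap K⟦X⟧ E (b₀ x) * algebraMap K⟦X⟧ E (b₀ y)) ⊗ₜ[S] (1 : O) =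
            (algebraMap K⟦X⟧ E (b₀ x)) ⊗ₜ[S] (1 : O) * (algebraMap K⟦X⟧ E (b₀ y)) ⊗ₜ[S] (1 : O) := by
          rw [Algebra.TensorProduct.tmul_mul_tmul, mul_one]
        rw [hxy, hx, hy, hs, hs, hm]
        ring
      have h2 : δ x * δ y ∈ n ^ 2 := by
        rw [pow_two]
        exact Ideal.mul_mem_mul (hδ0 x) (hδ0 y)
      rw [h1, map_add, map_add, map_add, hl2 _ h2, hle, map_smul, map_smul, hlδ, hlδ]
      simp) (by
      intro s
      change l ((1 : E) ⊗ₜ[S] (θ s)) = 0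
      have h1 : θ s = s • (1 : O) := by
        rw [Algebra.smul_def, mul_one]; rfl
      rw [h1, ← TensorProduct.smul_tmul]
      exact hle _)
    have hl0 : ∀ z, l z = 0 := by
      intro z
      induction z using TensorProduct.induction_on with
      | zero => simp
      | tmul e o =>
        have : e ⊗ₜ[S] o = e • ((1 : E) ⊗ₜ[S] o) := by
          rw [TensorProduct.smul_tmul', smul_eq_mul, mul_one]
        rw [this, map_smul]
        have h2 : l ((1 : E) ⊗ₜ[S] o) = 0 := hD0 o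
        rw [h2, smul_zero]
      | add x y hx hy => rw [map_add, hx, hy, add_zero]
    exact hlx (hl0 x)
  obtain ⟨s, hs, hs'⟩ := bir_nak (S := S) (O := O) (E := E) (by
    intro x
    refine ⟨bt x, ?_⟩
    have h1 : x - (bt x) ⊗ₜ[S] (1 : O) ∈ n := by
      change bt _ = 0
      rw [map_sub, hbt, map_one, map_one, mul_one, sub_self]
    rw [hn0] at h1
    exact sub_eq_zero.1 h1)
  refine ⟨s, ?_, fun o => hs' o⟩
  intro h
  apply hs
  change algebraMap K⟦X⟧ E (b₀ (θ s)) = 0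
  rw [h, map_zero, map_zero]

/-- birationality from injectivity on arcs and on one tangent space -/
theorem birational {K : Type u} [Field K] [IsAlgClosed K]
    (hclosure : ∀ (E L : Type u) [Field E] [Field L] [Algebra K⟦X⟧ E] [IsFractionRing K⟦X⟧ E]
      [Algebra E L] [Algebra K⟦X⟧ L] [IsScalarTower K⟦X⟧ E L] [FiniteDimensional E L],
      ∃ e : integralClosure K⟦X⟧ L ≃+* K⟦X⟧,
        ∀ c : K, e (algebraMap K⟦X⟧ (integralClosure K⟦X⟧ L) (C c)) = C c)
    {S O : Type u} [CommRing S] [CommRing O] [Algebra K S] [Algebra K O] (θ : S →ₐ[K] O)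
    (hθ : θ.toRingHom.Finite)
    (hinj : ∀ b b' : O →ₐ[K] K⟦X⟧, b.comp θ = b'.comp θ → b = b')
    (b₀ : O →ₐ[K] K⟦X⟧)
    (hder : ∀ D : O →ₗ[K] K⟦X⟧, (∀ x y, D (x * y) = b₀ x * D y + b₀ y * D x) →
      (∀ s, D (θ s) = 0) → D = 0) :
    ∃ s, θ s ≠ 0 ∧ ∀ o : O, ∃ s', θ s' = θ s * o :=
  birational_aux hclosure θ hθ hinj b₀ hder (FractionRing K⟦X⟧)

end Pool.Agent.Helper819.DC.BIR
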