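import Pool.Agent.Helper819.DC.Core3

set_option autoImplicit false

open PowerSeries IsLocalRing TensorProduct

universe u

namespace Pool.Agent.Helper819.DC


namespace DC1

/-- algebraic core -/
theorem core {B E R Q : Type u} [CommRing B] [Field E] [Algebra B E] [Module.Flat B E]
    [CommRing R] [Algebra B R] [CommRing Q] [Algebra B Q] {r : ℕ}
    (hnorm : ∀ (A P : Type u) [CommRing A] [CommRing P] [Algebra A P]
      (_ : Function.Injective (algebraMap A P)) (d : A)
      (_ : algebraMap A P d ∈ nonZeroDivisors P)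
      (_ : ∀ p : P, ∃ a : A, algebraMap A P a = algebraMap A P d * p)
      (_ : Algebra.IsIntegral A P)
      (_ : ∀ x : FractionRing P, IsIntegral P x → ∃ p : P, algebraMap P (FractionRing P) p = x),
      Nonempty (P ≃ₐ[A] integralClosure A (FractionRing A)))
    (hpi : ∀ (x : FractionRing (Fin r → E ⊗[B] Q)) (_ : IsIntegral (Fin r → E ⊗[B] Q) x),
      ∃ p, algebraMap (Fin r → E ⊗[B] Q) (FractionRing (Fin r → E ⊗[B] Q)) p = x)
    (ι : R →ₐ[B] (Fin r → Q)) (hι : Function.Injective ι)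
    (hint : ∀ w, (ι : R →+* (Fin r → Q)).IsIntegralElem w) (c : R)
    (hc : ∀ w, w * ι c = 0 → w = 0) (hcond : ∀ w, ∃ a, ι a = ι c * w) (n : ℕ)
    (b : Module.Basis (Fin n) B ((Fin r → Q) ⧸ LinearMap.range ι.toLinearMap)) :
    DC.delta E (E ⊗[B] R) = (n : Cardinal) := by
  let j : E ⊗[B] R →ₐ[E] E ⊗[B] (Fin r → Q) := Algebra.TensorProduct.map (AlgHom.id E E) ι
  let e : E ⊗[B] (Fin r → Q) ≃ₐ[E] (Fin r → E ⊗[B] Q) :=
    Algebra.TensorProduct.piRight B E E (fun _ : Fin r => Q)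
  let J : E ⊗[B] R →ₐ[E] (Fin r → E ⊗[B] Q) := (e : E ⊗[B] (Fin r → Q) →ₐ[E] _).comp j
  have hjl : ∀ x, j x = LinearMap.lTensor E ι.toLinearMap x := by
    intro x
    induction x using TensorProduct.induction_on with
    | zero => simp
    | tmul a b => simp [j]
    | add a b ha hb => rw [map_add, map_add, ha, hb]
  have hjinj : Function.Injective j := by
    intro x y hxy
    rw [hjl, hjl] at hxy
    exact Module.Flat.lTensor_preserves_injective_linearMap ι.toLinearMap hι hxy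
  have hJ : ∀ x, J x = e (j x) := fun x => rfl
  have hJinj : Function.Injective J := e.injective.comp hjinj
  letI : Algebra (E ⊗[B] R) (Fin r → E ⊗[B] Q) := J.toRingHom.toAlgebra
  have hamap : ∀ x, algebraMap (E ⊗[B] R) (Fin r → E ⊗[B] Q) x = J x := fun x => rfl
  haveI : IsScalarTower E (E ⊗[B] R) (Fin r → E ⊗[B] Q) :=
    IsScalarTower.of_algebraMap_eq fun x => (J.commutes x).symm
  -- multiplication by the conductor element
  have hjc : j ((1 : E) ⊗ₜ[B] c) = (1 : E) ⊗ₜ[B] ι c := by simp [j]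
  have hmulinj : Function.Injective (LinearMap.mulLeft B (ι c)) := by
    rw [← LinearMap.ker_eq_bot, LinearMap.ker_eq_bot']
    intro w hw
    apply hc
    rw [mul_comm]
    exact hw
  have hmul : ∀ x : E ⊗[B] (Fin r → Q), (1 : E) ⊗ₜ[B] ι c * x =
      LinearMap.lTensor E (LinearMap.mulLeft B (ι c)) x := by
    intro x
    induction x using TensorProduct.induction_on with
    | zero => simp
    | tmul a b => simp
    | add a b ha hb => rw [mul_add, map_add, ha, hb]
  have hnzd : algebraMap (E ⊗[B] R) (Fin r → E ⊗[B] Q) ((1 : E) ⊗ₜ[B] c) ∈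
      nonZeroDivisors (Fin r → E ⊗[B] Q) := by
    rw [mem_nonZeroDivisors_iff_right]
    intro z hz
    rw [hamap, hJ, hjc] at hz
    obtain ⟨x, rfl⟩ := e.surjective z
    rw [← map_mul, mul_comm, hmul] at hz
    have h1 : LinearMap.lTensor E (LinearMap.mulLeft B (ι c)) x = 0 := by
      apply e.injective
      rw [hz, map_zero]
    have h2 : x = 0 := by
      apply Module.Flat.lTensor_preserves_injective_linearMap (M := E) _ hmulinj
      rw [h1, map_zero]
    rw [h2, map_zero]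
  have hcondE : ∀ p : Fin r → E ⊗[B] Q, ∃ a : E ⊗[B] R,
      algebraMap (E ⊗[B] R) (Fin r → E ⊗[B] Q) a =
        algebraMap (E ⊗[B] R) (Fin r → E ⊗[B] Q) ((1 : E) ⊗ₜ[B] c) * p := by
    intro p
    obtain ⟨x, rfl⟩ := e.surjective p
    have h1 : ∃ a, j a = (1 : E) ⊗ₜ[B] ι c * x := by
      induction x using TensorProduct.induction_on with
      | zero => exact ⟨0, by simp⟩
      | tmul y w =>
        obtain ⟨a, ha⟩ := hcond w
        refine ⟨y ⊗ₜ[B] a, ?_⟩
        simp [j, ha]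
      | add x y hx hy =>
        obtain ⟨a, ha⟩ := hx
        obtain ⟨b, hb⟩ := hy
        exact ⟨a + b, by rw [map_add, ha, hb, mul_add]⟩
    obtain ⟨a, ha⟩ := h1
    refine ⟨a, ?_⟩
    rw [hamap, hJ, ha, hamap, hJ, hjc, map_mul]
  have hintE : Algebra.IsIntegral (E ⊗[B] R) (Fin r → E ⊗[B] Q) := by
    constructor
    intro p
    obtain ⟨x, rfl⟩ := e.surjective p
    induction x using TensorProduct.induction_on with
    | zero => rw [map_zero]; exact isIntegral_zero
    | tmul y w =>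
      have h1 : y ⊗ₜ[B] w = j (y ⊗ₜ[B] 1) * (1 ⊗ₜ[B] w) := by simp [j]
      rw [h1, map_mul]
      apply IsIntegral.mul
      · exact isIntegral_algebraMap (R := E ⊗[B] R) (x := y ⊗ₜ[B] 1)
      · obtain ⟨q, hq, hq0⟩ := hint w
        let inR : R →+* E ⊗[B] R := (Algebra.TensorProduct.includeRight : R →ₐ[B] E ⊗[B] R)
        refine ⟨q.map inR, hq.map inR, ?_⟩
        rw [Polynomial.eval₂_map]
        have h2 : (algebraMap (E ⊗[B] R) (Fin r → E ⊗[B] Q)).comp inR =
            ((e : E ⊗[B] (Fin r → Q) →+* (Fin r → E ⊗[B] Q)).comp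
              ((Algebra.TensorProduct.includeRight : (Fin r → Q) →ₐ[B] E ⊗[B] (Fin r → Q)) :
                (Fin r → Q) →+* E ⊗[B] (Fin r → Q))).comp (ι : R →+* (Fin r → Q)) := by
          apply RingHom.ext
          intro x
          show J ((1 : E) ⊗ₜ[B] x) = e ((1 : E) ⊗ₜ[B] ι x)
          rw [hJ]
          simp [j]
        rw [h2]
        have h3 : e ((1 : E) ⊗ₜ[B] w) = ((e : E ⊗[B] (Fin r → Q) →+* (Fin r → E ⊗[B] Q)).comp
              ((Algebra.TensorProduct.includeRight : (Fin r → Q) →ₐ[B] E ⊗[B] (Fin r → Q)) :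
                (Fin r → Q) →+* E ⊗[B] (Fin r → Q))) w := rfl
        rw [h3, ← Polynomial.hom_eval₂, hq0, map_zero]
    | add x y hx hy => rw [map_add]; exact hx.add hy
  obtain ⟨φ⟩ := hnorm (E ⊗[B] R) (Fin r → E ⊗[B] Q) hJinj ((1 : E) ⊗ₜ[B] c) hnzd hcondE hintE hpi
  -- comparison of the quotients
  let q : Submodule (E ⊗[B] R) (Fin r → E ⊗[B] Q) :=
    LinearMap.range (Algebra.linearMap (E ⊗[B] R) (Fin r → E ⊗[B] Q))
  have hq : q.map (φ.toLinearEquiv : (Fin r → E ⊗[B] Q) →ₗ[E ⊗[B] R] _) =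
      LinearMap.range (Algebra.linearMap (E ⊗[B] R)
        (integralClosure (E ⊗[B] R) (FractionRing (E ⊗[B] R)))) := by
    ext x
    simp only [q, Submodule.mem_map, LinearMap.mem_range]
    constructor
    · rintro ⟨y, ⟨z, rfl⟩, rfl⟩
      exact ⟨z, (φ.commutes z).symm⟩
    · rintro ⟨z, rfl⟩
      exact ⟨_, ⟨z, rfl⟩, φ.commutes z⟩
  have e1 := Submodule.Quotient.equiv q _ φ.toLinearEquiv hq
  have e2 := e1.restrictScalars E
  unfold DC.delta
  rw [← e2.rank_eq]
  -- the quotient of `P`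
  let T : (Fin r → E ⊗[B] Q) →ₗ[E] E ⊗[B] ((Fin r → Q) ⧸ LinearMap.range ι.toLinearMap) :=
    (LinearMap.baseChange E (Submodule.mkQ (LinearMap.range ι.toLinearMap))).comp
      (e.symm.toLinearMap)
  have hT : ∀ x, T x = LinearMap.lTensor E (Submodule.mkQ (LinearMap.range ι.toLinearMap))
      (e.symm x) := fun x => rfl
  have hTs : Function.Surjective T := by
    intro y
    obtain ⟨x, hx⟩ := LinearMap.lTensor_surjective E
      (Submodule.mkQ_surjective (LinearMap.range ι.toLinearMap)) y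
    refine ⟨e x, ?_⟩
    rw [hT, e.symm_apply_apply, hx]
  have hexact : Function.Exact ι.toLinearMap (Submodule.mkQ (LinearMap.range ι.toLinearMap)) := by
    rw [LinearMap.exact_iff, Submodule.ker_mkQ]
  have hex2 := lTensor_exact E hexact (Submodule.mkQ_surjective _)
  have hker : LinearMap.ker T = q.restrictScalars E := by
    ext x
    rw [LinearMap.mem_ker, hT, hex2, Submodule.restrictScalars_mem]
    constructor
    · rintro ⟨y, hy⟩
      refine ⟨y, ?_⟩
      show J y = x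
      rw [hJ, hjl, hy, e.apply_symm_apply]
    · rintro ⟨y, hy⟩
      refine ⟨y, ?_⟩
      rw [← hjl, ← hy]
      show j y = e.symm (e (j y))
      rw [e.symm_apply_apply]
  have e3 := Submodule.Quotient.restrictScalarsEquiv E q
  rw [← e3.rank_eq, ← hker, (LinearMap.quotKerEquivOfSurjective T hTs).rank_eq,
    rank_eq_card_basis (b.baseChange E), Fintype.card_fin]

/-- the delta invariant of the generic fibre of a family with simultaneous parametrisation -/
theorem dc1 (hT : Tools.{u}) (hB : BaseFacts.{u}) {K : Type u} [Field K] {τ r : ℕ}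
    (D : Setup K τ r)
    {B : Type u} [CommRing B] [IsDomain B] [IsDiscreteValuationRing B]
    [IsAdicComplete (maximalIdeal B) B] [Algebra K B] (π : B →ₐ[K] K) (v : B)
    (hv : maximalIdeal B = Ideal.span {v})
    (hnorm : ∀ (A P : Type u) [CommRing A] [CommRing P] [Algebra A P]
      (_ : Function.Injective (algebraMap A P)) (d : A)
      (_ : algebraMap A P d ∈ nonZeroDivisors P)
      (_ : ∀ p : P, ∃ a : A, algebraMap A P a = algebraMap A P d * p)
      (_ : Algebra.IsIntegral A P)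
      (_ : ∀ x : FractionRing P, IsIntegral P x → ∃ p : P, algebraMap P (FractionRing P) p = x),
      Nonempty (P ≃ₐ[A] integralClosure A (FractionRing A)))
    (hpi : ∀ (P : Fin r → Type u) [∀ i, CommRing (P i)] [∀ i, IsDomain (P i)]
      [∀ i, IsIntegrallyClosed (P i)] (x : FractionRing (∀ i, P i))
      (_ : IsIntegral (∀ i, P i) x),
      ∃ p, algebraMap (∀ i, P i) (FractionRing (∀ i, P i)) p = x)
    (hstr : ∀ (s : Fin τ → B) (Φ : Par B r), SimPar D π s Φ →
      RingHom.ker Φ = Ideal.span {D.F s} ∧ (Φ : B⟦X⟧⟦X⟧ →+* (Fin r → B⟦X⟧)).Finite ∧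
      Nonempty (Module.Basis (Fin D.delta) B ((Fin r → B⟦X⟧) ⧸ LinearMap.range Φ.toLinearMap)) ∧
      ∃ c : B⟦X⟧⟦X⟧, (∀ i, mapP (π : B →+* K) (Φ c) i ≠ 0) ∧ ∀ w, ∃ a, Φ a = Φ c * w)
    (s : Fin τ → B) (Φ : Par B r) (hsim : SimPar D π s Φ)
    {E : Type u} [Field E] [Algebra B E] (hE : Function.Injective (algebraMap B E))
    (hdom : IsDomain (E ⊗[B] B⟦X⟧)) (hic : IsIntegrallyClosed (E ⊗[B] B⟦X⟧)) :
    DC.delta E (Fibre B E (D.F s)) = (D.delta : Cardinal) := by
  obtain ⟨hker, hfin, ⟨b⟩, c, hc, hcond⟩ := hstr s Φ hsim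
  haveI : Module.IsTorsionFree B E := by
    rw [Module.isTorsionFree_iff_algebraMap_injective]
    exact hE
  haveI : Module.Flat B E := inferInstance
  have hker' : ∀ a ∈ Ideal.span {D.F s}, Φ a = 0 := by
    intro a ha
    rw [← hker] at ha
    exact ha
  let ι : (B⟦X⟧⟦X⟧ ⧸ Ideal.span {D.F s}) →ₐ[B] (Fin r → B⟦X⟧) :=
    Ideal.Quotient.liftₐ (Ideal.span {D.F s}) Φ hker'
  have hιmk : ∀ a, ι (Ideal.Quotient.mk _ a) = Φ a := fun a => rfl
  have hι : Function.Injective ι := by
    rw [injective_iff_map_eq_zero]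
    intro x hx
    obtain ⟨a, rfl⟩ := Ideal.Quotient.mk_surjective x
    rw [hιmk] at hx
    rw [Ideal.Quotient.eq_zero_iff_mem, ← hker]
    exact hx
  have hint : ∀ w, (ι : (B⟦X⟧⟦X⟧ ⧸ Ideal.span {D.F s}) →+* (Fin r → B⟦X⟧)).IsIntegralElem w := by
    intro w
    obtain ⟨q, hq, hq0⟩ := hfin.to_isIntegral w
    refine ⟨q.map (Ideal.Quotient.mk _), hq.map _, ?_⟩
    rw [Polynomial.eval₂_map]
    exact hq0
  have hrange : LinearMap.range Φ.toLinearMap = LinearMap.range ι.toLinearMap := by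
    ext x
    simp only [LinearMap.mem_range]
    constructor
    · rintro ⟨y, rfl⟩
      exact ⟨Ideal.Quotient.mk _ y, rfl⟩
    · rintro ⟨y, rfl⟩
      obtain ⟨a, rfl⟩ := Ideal.Quotient.mk_surjective y
      exact ⟨a, rfl⟩
  have hc' : ∀ w : Fin r → B⟦X⟧, w * ι (Ideal.Quotient.mk _ c) = 0 → w = 0 := by
    intro w hw
    funext i
    have h1 : w i * Φ c i = 0 := congrFun hw i
    rcases mul_eq_zero.1 h1 with h2 | h2
    · exact h2
    · exfalso
      apply hc i
      rw [mapP_apply, h2, map_zero]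
  exact core hnorm (fun x hx => hpi (fun _ : Fin r => E ⊗[B] B⟦X⟧) x hx) ι hι hint
    (Ideal.Quotient.mk _ c) hc' (fun w => by
      obtain ⟨a, ha⟩ := hcond w
      exact ⟨Ideal.Quotient.mk _ a, ha⟩) D.delta
    (b.map (Submodule.quotEquivOfEq _ _ hrange))

end DC1

end Pool.Agent.Helper819.DC
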