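import Pool.Agent.Helper819.DC.Core4

set_option autoImplicit false

open PowerSeries IsLocalRing TensorProduct

universe u

namespace Pool.Agent.Helper819.DC


namespace DC2

theorem dc2_away {B : Type u} [CommRing B] [IsDomain B] [IsDiscreteValuationRing B] (v : B)
    (hv : maximalIdeal B = Ideal.span {v}) {E : Type u} [Field E] [Algebra B E]
    [IsFractionRing B E] : IsLocalization (Submonoid.powers v) E := by
  have hirr : Irreducible v := (IsDiscreteValuationRing.irreducible_iff_uniformizer v).2 hv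
  rw [IsLocalization.iff_of_le_of_exists_dvd (Submonoid.powers v) (nonZeroDivisors B)]
  · infer_instance
  · exact powers_le_nonZeroDivisors_of_noZeroDivisors hirr.ne_zero
  · intro b hb
    have hb0 : b ≠ 0 := nonZeroDivisors.ne_zero hb
    obtain ⟨n, hn⟩ := IsDiscreteValuationRing.associated_pow_irreducible hb0 hirr
    exact ⟨v ^ n, ⟨n, rfl⟩, hn.dvd⟩

theorem dc2_pi_v {K : Type u} [Field K] {B : Type u} [CommRing B] [IsLocalRing B] [Algebra K B]
    (π : B →ₐ[K] K) (b : B) : b ∈ maximalIdeal B ↔ π b = 0 := by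
  constructor
  · intro hb
    by_contra hne
    have h1 : b - algebraMap K B (π b) ∈ maximalIdeal B := by
      have h2 : RingHom.ker (π : B →+* K) ≤ maximalIdeal B :=
        IsLocalRing.le_maximalIdeal (RingHom.ker_ne_top _)
      apply h2
      rw [RingHom.mem_ker]
      show π (b - algebraMap K B (π b)) = 0
      rw [map_sub, π.commutes]
      exact sub_self _
    have h3 : algebraMap K B (π b) ∈ maximalIdeal B := by
      have := Ideal.sub_mem _ hb h1
      rwa [sub_sub_cancel] at this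
    exact (IsLocalRing.mem_maximalIdeal _).1 h3 ((IsUnit.mk0 _ hne).map (algebraMap K B))
  · intro hb
    have h2 : RingHom.ker (π : B →+* K) ≤ maximalIdeal B :=
      IsLocalRing.le_maximalIdeal (RingHom.ker_ne_top _)
    exact h2 hb

theorem dc2_map2_zero {K : Type u} [Field K] {B : Type u} [CommRing B] [IsLocalRing B]
    [Algebra K B] (π : B →ₐ[K] K) (v : B) (hv : maximalIdeal B = Ideal.span {v}) (h : B⟦X⟧⟦X⟧)
    (hh : map2 (π : B →+* K) h = 0) : ∃ h' : B⟦X⟧⟦X⟧, h = C (C v) * h' := by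
  have h1 : ∀ i j, ∃ c : B, coeff i (coeff j h) = v * c := by
    intro i j
    have h2 : π (coeff i (coeff j h)) = 0 := by
      have h3 := congrArg (fun z => coeff i (coeff j z)) hh
      simp only [map2, coeff_map, map_zero] at h3
      exact h3
    have h4 : coeff i (coeff j h) ∈ maximalIdeal B := (dc2_pi_v π _).2 h2
    rw [hv, Ideal.mem_span_singleton] at h4
    exact h4
  choose c hc using h1
  refine ⟨PowerSeries.mk fun j => PowerSeries.mk fun i => c i j, ?_⟩
  ext j i
  rw [coeff_C_mul, coeff_C_mul, coeff_mk, coeff_mk, hc i j]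

noncomputable instance dc2_algB (A E : Type u) [CommRing A] [CommRing E] [Algebra A E]
    (G : A⟦X⟧⟦X⟧) : Algebra A (Fibre A E G) :=
  inferInstanceAs (Algebra A (E ⊗[A] (A⟦X⟧⟦X⟧ ⧸ Ideal.span {G})))

instance dc2_towB (A E : Type u) [CommRing A] [CommRing E] [Algebra A E]
    (G : A⟦X⟧⟦X⟧) : IsScalarTower A E (Fibre A E G) :=
  inferInstanceAs (IsScalarTower A E (E ⊗[A] (A⟦X⟧⟦X⟧ ⧸ Ideal.span {G})))

noncomputable instance dc2_algR (A E : Type u) [CommRing A] [CommRing E] [Algebra A E]
    (G : A⟦X⟧⟦X⟧) : Algebra (A⟦X⟧⟦X⟧ ⧸ Ideal.span {G}) (Fibre A E G) :=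
  (Algebra.TensorProduct.rightAlgebra :
    Algebra (A⟦X⟧⟦X⟧ ⧸ Ideal.span {G}) (E ⊗[A] (A⟦X⟧⟦X⟧ ⧸ Ideal.span {G})))

instance dc2_towR (A E : Type u) [CommRing A] [CommRing E] [Algebra A E]
    (G : A⟦X⟧⟦X⟧) : IsScalarTower A (A⟦X⟧⟦X⟧ ⧸ Ideal.span {G}) (Fibre A E G) :=
  (Algebra.TensorProduct.right_isScalarTower :
    @IsScalarTower A (A⟦X⟧⟦X⟧ ⧸ Ideal.span {G}) (E ⊗[A] (A⟦X⟧⟦X⟧ ⧸ Ideal.span {G})) _
      (Algebra.TensorProduct.rightAlgebra).toSMul _)

theorem dc2_awayR {B : Type u} [CommRing B] [IsDomain B] [IsDiscreteValuationRing B] (v : B)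
    (hv : maximalIdeal B = Ideal.span {v}) {E : Type u} [Field E] [Algebra B E]
    [IsFractionRing B E] (G : B⟦X⟧⟦X⟧) :
    IsLocalization.Away (algebraMap B (B⟦X⟧⟦X⟧ ⧸ Ideal.span {G}) v) (Fibre B E G) := by
  have := dc2_away v hv (E := E)
  have h1 : @IsLocalization _ _ (Algebra.algebraMapSubmonoid (B⟦X⟧⟦X⟧ ⧸ Ideal.span {G})
      (Submonoid.powers v)) (E ⊗[B] (B⟦X⟧⟦X⟧ ⧸ Ideal.span {G})) _
        Algebra.TensorProduct.rightAlgebra :=
    IsLocalization.tensorRight E (Submonoid.powers v)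
  rw [Algebra.algebraMapSubmonoid_powers] at h1
  exact h1

/-- delta-constant families over a DVR admit simultaneous parametrisations -/
theorem dc2 (hT : Tools.{u}) (hB : BaseFacts.{u}) {K : Type u} [Field K] {τ r : ℕ}
    (D : Setup K τ r) (hr : 0 < r)
    {B : Type u} [CommRing B] [IsDomain B] [IsDiscreteValuationRing B]
    [IsAdicComplete (maximalIdeal B) B] [Algebra K B] (π : B →ₐ[K] K) (v : B)
    (hv : maximalIdeal B = Ideal.span {v})
    {E : Type u} [Field E] [Algebra B E] [IsFractionRing B E]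
    (hmain : ∀ (R AE : Type u) [CommRing R] [IsLocalRing R] [IsNoetherianRing R]
      [Algebra B R] [CommRing AE] [Algebra E AE] [Algebra B AE] [IsScalarTower B E AE]
      [Algebra R AE] [IsScalarTower B R AE] (n : ℕ) (Z : Sit K B E R AE r n)
      [IsLocalization.Away (algebraMap B R Z.v) AE],
      ∃ κM : integralClosure R (FractionRing AE) →+* (Fin r → K⟦X⟧),
        Function.Surjective κM ∧
        RingHom.ker κM = Ideal.span {algebraMap R _ (algebraMap B R Z.v)} ∧
        (∀ a : R, κM (algebraMap R _ a) = Z.κ a) ∧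
        Module.Finite R (integralClosure R (FractionRing AE)) ∧
        algebraMap R (integralClosure R (FractionRing AE)) (algebraMap B R Z.v) ∈
          nonZeroDivisors (integralClosure R (FractionRing AE)))
    (hlift : ∀ (M : Type u) [CommRing M] [Algebra B M]
      (κ : B⟦X⟧⟦X⟧ →ₐ[B] M) (_ : (κ : B⟦X⟧⟦X⟧ →+* M).Finite)
      (_ : algebraMap B M v ∈ nonZeroDivisors M) (κb : M →+* (Fin r → K⟦X⟧))
      (_ : Function.Surjective κb) (_ : RingHom.ker κb = Ideal.span {algebraMap B M v})
      (_ : ∀ h, κb (κ h) = D.φ (map2 (π : B →+* K) h)),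
      ∃ Φ : Par B r, Lifts π D.φ Φ ∧ RingHom.ker κ ≤ RingHom.ker Φ)
    (s : Fin τ → B) (hs : ∀ k, s k ∈ maximalIdeal B)
    (hδ : DC.delta E (Fibre B E (D.F s)) = (D.delta : Cardinal)) :
    ∃ Φ : Par B r, SimPar D π s Φ := by
  classical
  have : Nonempty (Fin r) := ⟨⟨0, hr⟩⟩
  set F : B⟦X⟧⟦X⟧ := D.F s with hF
  have hπF : map2 (π : B →+* K) F = D.f := hT.map2_fam_zero π D.f D.g s hs
  have hφf : D.φ D.f = 0 := by
    have : D.f ∈ RingHom.ker D.φ := by
      rw [D.ker]; exact Ideal.mem_span_singleton_self _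
    exact this
  -- the ring
  let R : Type u := B⟦X⟧⟦X⟧ ⧸ Ideal.span {F}
  have hker0 : ∀ a ∈ Ideal.span {F},
      ((D.φ : K⟦X⟧⟦X⟧ →+* (Fin r → K⟦X⟧)).comp (map2 (π : B →+* K))) a = 0 := by
    intro a ha
    rw [Ideal.mem_span_singleton] at ha
    obtain ⟨b, rfl⟩ := ha
    rw [map_mul]
    have : ((D.φ : K⟦X⟧⟦X⟧ →+* (Fin r → K⟦X⟧)).comp (map2 (π : B →+* K))) F = 0 := by
      show D.φ (map2 (π : B →+* K) F) = 0
      rw [hπF, hφf]
    rw [this, zero_mul]
  let κ : R →+* (Fin r → K⟦X⟧) := Ideal.Quotient.lift (Ideal.span {F})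
    ((D.φ : K⟦X⟧⟦X⟧ →+* (Fin r → K⟦X⟧)).comp (map2 (π : B →+* K))) hker0
  have hκmk : ∀ h, κ (Ideal.Quotient.mk _ h) = D.φ (map2 (π : B →+* K) h) := fun h => rfl
  have hnt : Nontrivial R := by
    apply Ideal.Quotient.nontrivial_iff.2
    intro htop
    have h1 : (1 : B⟦X⟧⟦X⟧) ∈ Ideal.span {F} := by rw [htop]; trivial
    have h2 := hker0 1 h1
    rw [map_one] at h2
    exact one_ne_zero h2
  have hloc : IsLocalRing R :=
    IsLocalRing.of_surjective' (Ideal.Quotient.mk _) Ideal.Quotient.mk_surjective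
  have hnoe : IsNoetherianRing R := inferInstance
  let ext : K⟦X⟧⟦X⟧ → B⟦X⟧⟦X⟧ := map2 (algebraMap K B)
  have hext : ∀ e, map2 (π : B →+* K) (ext e) = e := by
    intro e
    show map2 (π : B →+* K) (map2 (algebraMap K B) e) = e
    rw [hT.map2_comp]
    have : (π : B →+* K).comp (algebraMap K B) = RingHom.id K := by
      ext x
      exact π.commutes x
    rw [this]
    ext j i
    simp [map2]
  have halgB : ∀ b : B, algebraMap B B⟦X⟧⟦X⟧ b = C (C b) := by
    intro b
    rw [PowerSeries.algebraMap_apply, PowerSeries.algebraMap_apply]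
    rfl
  have halg : ∀ b : B, algebraMap B R b = Ideal.Quotient.mk _ (C (C b)) := by
    intro b
    rw [← halgB b]
    rfl
  have halgK : ∀ k : K, algebraMap K K⟦X⟧⟦X⟧ k = C (C k) := by
    intro b
    rw [PowerSeries.algebraMap_apply, PowerSeries.algebraMap_apply]
    rfl
  have hmapCC : ∀ b : B, map2 (π : B →+* K) (C (C b)) = C (C (π b)) := by
    intro b
    simp [map2]
  have hπv : π v = 0 := (dc2_pi_v π v).1 (by rw [hv]; exact Ideal.mem_span_singleton_self _)
  have hv0 : v ≠ 0 := by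
    have hirr : Irreducible v := (IsDiscreteValuationRing.irreducible_iff_uniformizer v).2 hv
    exact hirr.ne_zero
  have hκalg : ∀ b, κ (algebraMap B R b) = algebraMap K (Fin r → K⟦X⟧) (π b) := by
    intro b
    rw [halg, hκmk, hmapCC, ← halgK]
    exact D.φ.commutes _
  have hκker : RingHom.ker κ = Ideal.span {algebraMap B R v} := by
    apply le_antisymm
    · intro a ha
      obtain ⟨h, rfl⟩ := Ideal.Quotient.mk_surjective a
      have h1 : D.φ (map2 (π : B →+* K) h) = 0 := ha
      have h2 : map2 (π : B →+* K) h ∈ RingHom.ker D.φ := h1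
      rw [D.ker, Ideal.mem_span_singleton'] at h2
      obtain ⟨e, he⟩ := h2
      have h3 : map2 (π : B →+* K) (h - ext e * F) = 0 := by
        rw [map_sub, map_mul, hπF, hext, he, sub_self]
      obtain ⟨h', hh'⟩ := dc2_map2_zero π v hv _ h3
      have h4 : h = C (C v) * h' + ext e * F := by rw [← hh']; ring
      rw [h4, map_add, map_mul, ← halg]
      have h5 : (Ideal.Quotient.mk (Ideal.span {F})) (ext e * F) = 0 := by
        rw [Ideal.Quotient.eq_zero_iff_mem]
        exact Ideal.mul_mem_left _ _ (Ideal.mem_span_singleton_self _)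
      rw [h5, add_zero]
      exact Ideal.mul_mem_right _ _ (Ideal.mem_span_singleton_self _)
    · rw [Ideal.span_le, Set.singleton_subset_iff]
      show κ (algebraMap B R v) = 0
      rw [hκalg, hπv, map_zero]
  have hnzd : algebraMap B R v ∈ nonZeroDivisors R := by
    rw [mem_nonZeroDivisors_iff_right]
    intro a ha
    obtain ⟨h, rfl⟩ := Ideal.Quotient.mk_surjective a
    rw [halg, ← map_mul, Ideal.Quotient.eq_zero_iff_mem, Ideal.mem_span_singleton] at ha
    obtain ⟨h', hh'⟩ := ha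
    have h1 : D.f * map2 (π : B →+* K) h' = 0 := by
      have h2 := congrArg (map2 (π : B →+* K)) hh'
      rw [map_mul, map_mul, hπF, hmapCC, hπv, map_zero, map_zero, mul_zero] at h2
      exact h2.symm
    have h3 : map2 (π : B →+* K) h' = 0 := (mul_eq_zero.1 h1).resolve_left D.hf
    obtain ⟨h'', hh''⟩ := dc2_map2_zero π v hv _ h3
    have hCv : (C (C v) : B⟦X⟧⟦X⟧) ≠ 0 := by
      intro h4
      apply hv0
      have h5 := congrArg (fun z => coeff 0 (coeff 0 z)) h4
      simpa using h5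
    have h6 : h = F * h'' := by
      apply mul_right_cancel₀ hCv
      rw [hh', hh'']
      ring
    rw [Ideal.Quotient.eq_zero_iff_mem, h6]
    exact Ideal.mul_mem_right _ _ (Ideal.mem_span_singleton_self _)
  obtain ⟨a₀, ha₀⟩ := D.cond (fun _ => X)
  let n : ℕ := D.delta
  -- the generic fibre
  let AE : Type u := Fibre B E F
  let Z : Sit K B E R AE r n :=
    { hr := hr
      π := π
      v := v
      hv := hv
      κ := κ
      hκ := hκalg
      ker := hκker
      nzd := hnzd
      c := Ideal.Quotient.mk _ (ext D.d)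
      hc := by
        intro i
        rw [hκmk, hext]
        exact D.hd i
      cond := by
        intro w
        obtain ⟨a, ha⟩ := D.cond w
        refine ⟨Ideal.Quotient.mk _ (ext a), ?_⟩
        rw [hκmk, hκmk, hext, hext, ha]
      S := LinearMap.range D.φ.toLinearMap
      hS := by
        intro x
        constructor
        · rintro ⟨h, rfl⟩
          refine ⟨Ideal.Quotient.mk _ (ext h), ?_⟩
          rw [hκmk, hext]
          rfl
        · rintro ⟨a, rfl⟩
          obtain ⟨h, rfl⟩ := Ideal.Quotient.mk_surjective a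
          exact ⟨map2 (π : B →+* K) h, rfl⟩
      hn := rfl
      ξ := Ideal.Quotient.mk _ (ext a₀)
      hξ := by
        intro i
        rw [hκmk, hext, ha₀]
        refine ⟨mul_ne_zero (D.hd i) X_ne_zero, ?_⟩
        show constantCoeff (D.φ D.d i * X) = 0
        rw [map_mul, constantCoeff_X, mul_zero]
      hrank := hδ }
  have hAway : IsLocalization.Away (algebraMap B R Z.v) AE := dc2_awayR v hv F
  obtain ⟨κM, hsurj, hkerM, hκM, hfin, hnzdM⟩ := hmain R AE n Z
  let M : Type u := integralClosure R (FractionRing AE)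
  letI iBM : Algebra B M := ((algebraMap R M).comp (algebraMap B R)).toAlgebra
  let κ' : B⟦X⟧⟦X⟧ →ₐ[B] M :=
    { (algebraMap R M).comp (Ideal.Quotient.mk (Ideal.span {F})) with
      commutes' := by
        intro b
        show algebraMap R M (Ideal.Quotient.mk (Ideal.span {F}) (algebraMap B B⟦X⟧⟦X⟧ b)) =
          algebraMap R M (algebraMap B R b)
        rfl }
  have hκ'fin : (κ' : B⟦X⟧⟦X⟧ →+* M).Finite := by
    have h1 : (algebraMap R M).Finite := RingHom.finite_algebraMap.2 hfin
    have h2 : (Ideal.Quotient.mk (Ideal.span {F})).Finite :=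
      RingHom.Finite.of_surjective _ Ideal.Quotient.mk_surjective
    exact h1.comp h2
  obtain ⟨Φ, hΦ1, hΦ2⟩ := hlift M κ' hκ'fin hnzdM κM hsurj hkerM (by
    intro h
    show κM (algebraMap R M (Ideal.Quotient.mk (Ideal.span {F}) h)) = _
    rw [hκM]
    rfl)
  refine ⟨Φ, hs, hΦ1, ?_⟩
  apply hΦ2
  show algebraMap R M (Ideal.Quotient.mk (Ideal.span {F}) F) = 0
  have h1 : (Ideal.Quotient.mk (Ideal.span {F})) F = 0 := by
    rw [Ideal.Quotient.eq_zero_iff_mem]
    exact Ideal.mem_span_singleton_self _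
  rw [h1, map_zero]

end DC2

end Pool.Agent.Helper819.DC
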