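import Pool.Agent.Helper819.DC.Core3

set_option autoImplicit false

open PowerSeries IsLocalRing TensorProduct

universe u

namespace Pool.Agent.Helper819.DC


namespace DCK


theorem delta_of_equiv {k A P : Type u} [Field k] [CommRing A] [CommRing P] [Algebra k A]
    [Algebra k P] [Algebra A P] [IsScalarTower k A P]
    (e : P ≃ₐ[A] integralClosure A (FractionRing A)) :
    DC.delta k A = Module.rank k (P ⧸ LinearMap.range (Algebra.linearMap A P)) := by
  unfold DC.delta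
  have h : (LinearMap.range (Algebra.linearMap A P)).map
      (e.toLinearEquiv : P →ₗ[A] integralClosure A (FractionRing A)) =
      LinearMap.range (Algebra.linearMap A (integralClosure A (FractionRing A))) := by
    ext x
    constructor
    · rintro ⟨y, ⟨a, rfl⟩, rfl⟩
      exact ⟨a, by simp⟩
    · rintro ⟨a, rfl⟩
      exact ⟨algebraMap A P a, ⟨a, rfl⟩, by simp⟩
  have e1 := Submodule.Quotient.equiv _ _ e.toLinearEquiv h
  exact (LinearEquiv.rank_eq (e1.restrictScalars k)).symm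

theorem fin_quot {K : Type u} [Field K] {r : ℕ} (c : Fin r → K⟦X⟧) (hc : ∀ i, c i ≠ 0)
    (S : Submodule K (Fin r → K⟦X⟧)) (hS : ∀ w, c * w ∈ S) :
    Module.Finite K ((Fin r → K⟦X⟧) ⧸ S) := by
  classical
  -- bound for the orders
  have h0 : ∀ i, ∃ n : ℕ, ∃ u : K⟦X⟧, X ^ n = c i * u := by
    intro i
    obtain ⟨n, hn⟩ := IsDiscreteValuationRing.associated_pow_irreducible (hc i)
      (PowerSeries.X_prime (R := K)).irreducible
    obtain ⟨u, hu⟩ := hn
    exact ⟨n, u, hu.symm⟩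
  choose n u hu using h0
  -- spanning family
  let B : Finset (Fin r → K⟦X⟧) := Finset.univ.biUnion fun i : Fin r =>
    (Finset.range (n i)).image fun j => (Pi.single i (X ^ j : K⟦X⟧) : Fin r → K⟦X⟧)
  refine ⟨⟨B.image (Submodule.mkQ S), ?_⟩⟩
  rw [Finset.coe_image, Submodule.span_image, eq_top_iff]
  rintro x -
  obtain ⟨w, rfl⟩ := Submodule.mkQ_surjective S x
  -- w = polynomial part + c * something
  have h1 : ∀ i, ∃ q : K⟦X⟧, w i = (∑ j ∈ Finset.range (n i), coeff j (w i) • X ^ j) + c i * q := by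
    intro i
    have h2 : (X : K⟦X⟧) ^ n i ∣ w i - ∑ j ∈ Finset.range (n i), coeff j (w i) • X ^ j := by
      rw [PowerSeries.X_pow_dvd_iff]
      intro m hm
      rw [map_sub, map_sum]
      simp only [PowerSeries.coeff_smul, PowerSeries.coeff_X_pow, smul_eq_mul, mul_ite, mul_one,
        mul_zero]
      rw [Finset.sum_ite_eq]
      simp [hm]
    obtain ⟨q, hq⟩ := h2
    refine ⟨u i * q, ?_⟩
    rw [← mul_assoc, ← hu, ← hq]
    ring
  choose q hq using h1
  have h3 : w = (∑ i, ∑ j ∈ Finset.range (n i), coeff j (w i) •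
      (Pi.single i (X ^ j : K⟦X⟧) : Fin r → K⟦X⟧)) + c * q := by
    ext1 k
    rw [Pi.add_apply, Pi.mul_apply, Finset.sum_apply]
    rw [Finset.sum_eq_single k]
    · rw [Finset.sum_apply]
      simp only [Pi.smul_apply, Pi.single_eq_same]
      exact hq k
    · intro i _ hik
      rw [Finset.sum_apply]
      apply Finset.sum_eq_zero
      intro j _
      simp [Pi.single_eq_of_ne (Ne.symm hik)]
    · simp
  have h4 : S.mkQ w = S.mkQ (∑ i, ∑ j ∈ Finset.range (n i), coeff j (w i) •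
      (Pi.single i (X ^ j : K⟦X⟧) : Fin r → K⟦X⟧)) := by
    conv_lhs => rw [h3]
    rw [map_add]
    have : S.mkQ (c * q) = 0 := by
      rw [Submodule.mkQ_apply, Submodule.Quotient.mk_eq_zero]
      exact hS q
    rw [this, add_zero]
  rw [h4]
  apply Submodule.mem_map_of_mem
  apply Submodule.sum_mem
  intro i _
  apply Submodule.sum_mem
  intro j hj
  apply Submodule.smul_mem
  apply Submodule.subset_span
  rw [Finset.mem_coe, Finset.mem_biUnion]
  exact ⟨i, Finset.mem_univ i, Finset.mem_image_of_mem _ hj⟩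

/-- the delta invariant of the special fibre -/
theorem delta_special {K : Type u} [Field K] {τ r : ℕ} (D : Setup K τ r)
    (hnorm : ∀ (A P : Type u) [CommRing A] [CommRing P] [Algebra A P]
      (_ : Function.Injective (algebraMap A P)) (d : A)
      (_ : algebraMap A P d ∈ nonZeroDivisors P)
      (_ : ∀ p : P, ∃ a : A, algebraMap A P a = algebraMap A P d * p)
      (_ : Algebra.IsIntegral A P)
      (_ : ∀ x : FractionRing P, IsIntegral P x → ∃ p : P, algebraMap P (FractionRing P) p = x),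
      Nonempty (P ≃ₐ[A] integralClosure A (FractionRing A)))
    (hpi : ∀ (P : Fin r → Type u) [∀ i, CommRing (P i)] [∀ i, IsDomain (P i)]
      [∀ i, IsIntegrallyClosed (P i)] (x : FractionRing (∀ i, P i))
      (_ : IsIntegral (∀ i, P i) x),
      ∃ p, algebraMap (∀ i, P i) (FractionRing (∀ i, P i)) p = x)
    :
    DC.delta K (K⟦X⟧⟦X⟧ ⧸ Ideal.span {D.f}) = (D.delta : Cardinal) := by
  classical
  have hk : ∀ a : K⟦X⟧⟦X⟧, a ∈ Ideal.span {D.f} → D.φ a = 0 := by
    intro a ha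
    rw [← D.ker] at ha
    exact ha
  let ψ : (K⟦X⟧⟦X⟧ ⧸ Ideal.span {D.f}) →ₐ[K] (Fin r → K⟦X⟧) :=
    Ideal.Quotient.liftₐ (Ideal.span {D.f}) D.φ hk
  have hψ : ∀ a, ψ (Ideal.Quotient.mk _ a) = D.φ a := fun a => rfl
  letI : Algebra (K⟦X⟧⟦X⟧ ⧸ Ideal.span {D.f}) (Fin r → K⟦X⟧) := ψ.toRingHom.toAlgebra
  have halg : ∀ a, algebraMap (K⟦X⟧⟦X⟧ ⧸ Ideal.span {D.f}) (Fin r → K⟦X⟧) a = ψ a := fun a => rfl
  haveI : IsScalarTower K (K⟦X⟧⟦X⟧ ⧸ Ideal.span {D.f}) (Fin r → K⟦X⟧) :=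
    IsScalarTower.of_algebraMap_eq (R := K) (S := K⟦X⟧⟦X⟧ ⧸ Ideal.span {D.f})
      (A := Fin r → K⟦X⟧) fun x => (ψ.commutes x).symm
  have hinj : Function.Injective (algebraMap (K⟦X⟧⟦X⟧ ⧸ Ideal.span {D.f}) (Fin r → K⟦X⟧)) := by
    rw [injective_iff_map_eq_zero]
    intro a ha
    obtain ⟨a, rfl⟩ := Ideal.Quotient.mk_surjective a
    rw [halg, hψ] at ha
    rw [Ideal.Quotient.eq_zero_iff_mem, ← D.ker]
    exact ha
  have hcond : ∀ p : Fin r → K⟦X⟧, ∃ a, algebraMap (K⟦X⟧⟦X⟧ ⧸ Ideal.span {D.f}) (Fin r → K⟦X⟧) a =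
      algebraMap (K⟦X⟧⟦X⟧ ⧸ Ideal.span {D.f}) (Fin r → K⟦X⟧) (Ideal.Quotient.mk _ D.d) * p := by
    intro p
    obtain ⟨a, ha⟩ := D.cond p
    exact ⟨Ideal.Quotient.mk _ a, by rw [halg, halg, hψ, hψ, ha]⟩
  have hrange : (LinearMap.range (Algebra.linearMap (K⟦X⟧⟦X⟧ ⧸ Ideal.span {D.f})
      (Fin r → K⟦X⟧))).restrictScalars K = LinearMap.range D.φ.toLinearMap := by
    ext x
    constructor
    · rintro ⟨a, rfl⟩
      obtain ⟨a, rfl⟩ := Ideal.Quotient.mk_surjective a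
      exact ⟨a, rfl⟩
    · rintro ⟨a, rfl⟩
      exact ⟨Ideal.Quotient.mk _ a, rfl⟩
  have hfin : Module.Finite K ((Fin r → K⟦X⟧) ⧸ LinearMap.range D.φ.toLinearMap) := by
    apply fin_quot (D.φ D.d) D.hd
    intro w
    obtain ⟨a, ha⟩ := D.cond w
    exact ⟨a, ha⟩
  have hfin2 : Module.Finite (K⟦X⟧⟦X⟧ ⧸ Ideal.span {D.f}) (Fin r → K⟦X⟧) := by
    have h1 : Module.Finite K ((Fin r → K⟦X⟧) ⧸ LinearMap.range (Algebra.linearMap
        (K⟦X⟧⟦X⟧ ⧸ Ideal.span {D.f}) (Fin r → K⟦X⟧))) := by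
      rw [← hrange] at hfin
      exact Module.Finite.equiv (Submodule.Quotient.restrictScalarsEquiv K _)
    have h2 : Module.Finite (K⟦X⟧⟦X⟧ ⧸ Ideal.span {D.f}) ((Fin r → K⟦X⟧) ⧸ LinearMap.range
        (Algebra.linearMap (K⟦X⟧⟦X⟧ ⧸ Ideal.span {D.f}) (Fin r → K⟦X⟧))) :=
      Module.Finite.of_restrictScalars_finite K _ _
    exact Module.Finite.of_submodule_quotient (LinearMap.range (Algebra.linearMap
        (K⟦X⟧⟦X⟧ ⧸ Ideal.span {D.f}) (Fin r → K⟦X⟧)))
  obtain ⟨e⟩ := hnorm (K⟦X⟧⟦X⟧ ⧸ Ideal.span {D.f}) (Fin r → K⟦X⟧) hinj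
    (Ideal.Quotient.mk _ D.d)
    (by
      rw [halg, hψ, mem_nonZeroDivisors_iff_right]
      intro x hx
      ext1 i
      have := congrFun hx i
      simp only [Pi.mul_apply, Pi.zero_apply] at this
      exact (mul_eq_zero.mp this).resolve_right (D.hd i))
    hcond inferInstance (fun x hx => hpi (fun _ => K⟦X⟧) x hx)
  rw [delta_of_equiv e]
  unfold Setup.delta
  rw [Module.finrank_eq_rank]
  rw [← hrange]
  exact (LinearEquiv.rank_eq (Submodule.Quotient.restrictScalarsEquiv K _)).symm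

end DCK

end Pool.Agent.Helper819.DC
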