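import Pool.Agent.Helper819.DC.Core3

set_option autoImplicit false

open PowerSeries IsLocalRing TensorProduct

universe u

namespace Pool.Agent.Helper819.DC


namespace DRC

/-- the algebra map to the dual numbers given by a derivation -/
noncomputable def eHom {K O B : Type u} [Field K] [CommRing O] [Algebra K O] [CommRing B]
    [Algebra K B] (β : O →ₐ[K] B) (δ : O →ₗ[K] B)
    (hl : ∀ x y, δ (x * y) = β x * δ y + β y * δ x) :
    O →ₐ[K] TrivSqZeroExt B B where
  toFun x := TrivSqZeroExt.inl (β x) + TrivSqZeroExt.inr (δ x)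
  map_one' := by
    have h := hl 1 1
    simp at h
    simp [h]
  map_mul' x y := by
    ext
    · simp
    · simp [hl, mul_comm]
  map_zero' := by simp
  map_add' x y := by
    ext <;> simp
  commutes' c := by
    have h1 := hl 1 1
    simp at h1
    rw [Algebra.algebraMap_eq_smul_one, map_smul, map_smul, h1, Algebra.algebraMap_eq_smul_one]
    ext <;> simp

theorem eHom_apply {K O B : Type u} [Field K] [CommRing O] [Algebra K O] [CommRing B]
    [Algebra K B] (β : O →ₐ[K] B) (δ : O →ₗ[K] B)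
    (hl : ∀ x y, δ (x * y) = β x * δ y + β y * δ x) (x : O) :
    eHom β δ hl x = TrivSqZeroExt.inl (β x) + TrivSqZeroExt.inr (δ x) := rfl

/-- a `K`-algebra hom between local rings with residue field `K` is local -/
theorem hom_loc {K O B : Type u} [Field K] [CommRing O] [IsLocalRing O] [Algebra K O]
    [CommRing B] [IsLocalRing B] [Algebra K B] (π : B →ₐ[K] K) (β : O →ₐ[K] B) (x : O)
    (hx : x ∈ maximalIdeal O) : β x ∈ maximalIdeal B := by
  rw [mem_maximalIdeal, mem_nonunits_iff]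
  intro hu
  have h1 : IsUnit (π (β x)) := hu.map π
  set c := π (β x) with hc
  have h2 : IsUnit (algebraMap K O c) := h1.map (algebraMap K O)
  have h3 : IsUnit (x - algebraMap K O c) := by
    by_contra hn
    have h4 : x - algebraMap K O c ∈ maximalIdeal O := by
      rwa [mem_maximalIdeal, mem_nonunits_iff]
    have h5 : algebraMap K O c ∈ maximalIdeal O := by
      have := sub_mem hx h4
      rwa [sub_sub_cancel] at this
    exact (mem_nonunits_iff.1 ((mem_maximalIdeal _).1 h5)) h2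
  have h6 : IsUnit (π (β (x - algebraMap K O c))) := (h3.map β).map π
  rw [map_sub, map_sub, AlgHom.commutes, AlgHom.commutes, ← hc] at h6
  simp at h6

theorem mem_maxE {B : Type u} [CommRing B] [IsLocalRing B] [IsLocalRing (TrivSqZeroExt B B)]
    (x : TrivSqZeroExt B B) :
    x ∈ maximalIdeal (TrivSqZeroExt B B) ↔ x.fst ∈ maximalIdeal B := by
  rw [mem_maximalIdeal, mem_nonunits_iff, mem_maximalIdeal, mem_nonunits_iff,
    TrivSqZeroExt.isUnit_iff_isUnit_fst]

theorem mem_maxP {A : Type u} [CommRing A] [IsLocalRing A] (f : A⟦X⟧) :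
    f ∈ maximalIdeal A⟦X⟧ ↔ constantCoeff f ∈ maximalIdeal A := by
  rw [mem_maximalIdeal, mem_nonunits_iff, mem_maximalIdeal, mem_nonunits_iff,
    PowerSeries.isUnit_iff_constantCoeff]

/-- coefficientwise second component -/
noncomputable def sndP {B : Type u} [CommRing B] (g : (TrivSqZeroExt B B)⟦X⟧) : B⟦X⟧ :=
  PowerSeries.mk fun n => (PowerSeries.coeff n g).snd

theorem sndP_mul {B : Type u} [CommRing B] (f : B⟦X⟧) (g : (TrivSqZeroExt B B)⟦X⟧) :
    sndP (PowerSeries.map (TrivSqZeroExt.inlHom B B) f * g) = f * sndP g := by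
  ext n
  simp only [sndP, PowerSeries.coeff_mk, PowerSeries.coeff_mul, PowerSeries.coeff_map]
  rw [TrivSqZeroExt.snd_sum]
  refine Finset.sum_congr rfl ?_
  intro p _
  simp [TrivSqZeroExt.inlHom]

theorem sndP_add {B : Type u} [CommRing B] (f g : (TrivSqZeroExt B B)⟦X⟧) :
    sndP (f + g) = sndP f + sndP g := by
  ext n
  simp [sndP]

theorem sndP_zero {B : Type u} [CommRing B] : sndP (0 : (TrivSqZeroExt B B)⟦X⟧) = 0 := by
  ext n
  simp [sndP]

theorem derc_dual (hT : Tools.{u}) {K : Type u} [Field K]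
    {τ r : ℕ} (D : Setup K τ r) (T : TBasis D) (U : UnivFam D T)
    {B : Type u} [CommRing B] [IsLocalRing B]
    [Algebra K B] (π : B →ₐ[K] K)
    [IsLocalRing (TrivSqZeroExt B B)] [IsNoetherianRing (TrivSqZeroExt B B)]
    [IsAdicComplete (maximalIdeal (TrivSqZeroExt B B)) (TrivSqZeroExt B B)]
    (β₀ : OO K T.m →ₐ[K] B) (Φ₀ : Par B r)
    (hΦ₀ : ∀ h, Φ₀ (map2 (β₀ : OO K T.m →+* B) h) = mapP (β₀ : OO K T.m →+* B) (U.Φ h))
    (hsim : SimPar D π (fun k => β₀ (U.s k)) Φ₀)
    (δ : OO K T.m →ₗ[K] B) (hleib : ∀ x y, δ (x * y) = β₀ x * δ y + β₀ y * δ x)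
    (hs : ∀ j, δ (U.s j) = 0) (i : Fin r) :
    Φ₀ (dx (D.F (fun k => β₀ (U.s k)))) i *
        PowerSeries.mk (fun n => δ (PowerSeries.coeff n (U.Φ (C X) i))) +
      Φ₀ (dy (D.F (fun k => β₀ (U.s k)))) i *
        PowerSeries.mk (fun n => δ (PowerSeries.coeff n (U.Φ X i))) = 0 := by
  let E := TrivSqZeroExt B B
  let βe : OO K T.m →ₐ[K] TrivSqZeroExt B B := eHom β₀ δ hleib
  let ι : B →ₐ[K] TrivSqZeroExt B B := TrivSqZeroExt.inlAlgHom K B B
  have hm1 : ∀ {S : Type u} [CommRing S] {S' : Type u} [CommRing S'] (ψ : S →+* S'),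
      map2 ψ (C X) = C X := by
    intro S _ S' _ ψ
    simp [map2]
  have hm2 : ∀ {S : Type u} [CommRing S] {S' : Type u} [CommRing S'] (ψ : S →+* S'),
      map2 ψ X = X := by
    intro S _ S' _ ψ
    simp [map2]
  -- the pushed parametrisations
  have hloce : ∀ (w : (OO K T.m)⟦X⟧), w ∈ maximalIdeal (OO K T.m)⟦X⟧ →
      PowerSeries.map (βe : OO K T.m →+* TrivSqZeroExt B B) w ∈
        maximalIdeal (TrivSqZeroExt B B)⟦X⟧ := by
    intro w hw
    rw [mem_maxP] at hw ⊢
    rw [← PowerSeries.coeff_zero_eq_constantCoeff_apply, PowerSeries.coeff_map,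
      PowerSeries.coeff_zero_eq_constantCoeff_apply, mem_maxE]
    have := hom_loc π β₀ _ hw
    simpa [βe, eHom_apply] using this
  have hlocι : ∀ (w : B⟦X⟧), w ∈ maximalIdeal B⟦X⟧ →
      PowerSeries.map (ι : B →+* TrivSqZeroExt B B) w ∈
        maximalIdeal (TrivSqZeroExt B B)⟦X⟧ := by
    intro w hw
    rw [mem_maxP] at hw ⊢
    rw [← PowerSeries.coeff_zero_eq_constantCoeff_apply, PowerSeries.coeff_map,
      PowerSeries.coeff_zero_eq_constantCoeff_apply, mem_maxE]
    simpa [ι] using hw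
  obtain ⟨Φe, he1, he2⟩ := hT.par_exists (A := TrivSqZeroExt B B)
    (mapP (βe : OO K T.m →+* TrivSqZeroExt B B) (U.Φ (C X)))
    (mapP (βe : OO K T.m →+* TrivSqZeroExt B B) (U.Φ X))
    (fun i => hloce _ (hT.par_local U.Φ i).1) (fun i => hloce _ (hT.par_local U.Φ i).2)
  obtain ⟨Φι, hι1, hι2⟩ := hT.par_exists (A := TrivSqZeroExt B B)
    (mapP (ι : B →+* TrivSqZeroExt B B) (Φ₀ (C X)))
    (mapP (ι : B →+* TrivSqZeroExt B B) (Φ₀ X))
    (fun i => hlocι _ (hT.par_local Φ₀ i).1) (fun i => hlocι _ (hT.par_local Φ₀ i).2)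
  have hpe := hT.push (βe : OO K T.m →+* TrivSqZeroExt B B) U.Φ Φe he1 he2
  have hpι := hT.push (ι : B →+* TrivSqZeroExt B B) Φ₀ Φι hι1 hι2
  -- the ideal
  have hI : TrivSqZeroExt.kerIdeal B B ≤ maximalIdeal (TrivSqZeroExt B B) := by
    intro x hx
    rw [TrivSqZeroExt.kerIdeal, RingHom.mem_ker] at hx
    rw [mem_maxE]
    have hx' : x.fst = 0 := hx
    rw [hx']
    exact zero_mem _
  have hx0 : Φ₀ (C X) = mapP (β₀ : OO K T.m →+* B) (U.Φ (C X)) := by
    rw [← hΦ₀, hm1]
  have hy0 : Φ₀ X = mapP (β₀ : OO K T.m →+* B) (U.Φ X) := by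
    rw [← hΦ₀, hm2]
  have hIx : InP (TrivSqZeroExt.kerIdeal B B) (Φe (C X) - Φι (C X)) := by
    intro i n
    rw [he1, hι1, hx0, TrivSqZeroExt.kerIdeal, RingHom.mem_ker]
    simp [mapP_apply, βe, eHom_apply, ι]
  have hIy : InP (TrivSqZeroExt.kerIdeal B B) (Φe X - Φι X) := by
    intro i n
    rw [he2, hι2, hy0, TrivSqZeroExt.kerIdeal, RingHom.mem_ker]
    simp [mapP_apply, βe, eHom_apply, ι]
  have hF1 : map2 (βe : OO K T.m →+* TrivSqZeroExt B B) (D.F U.s) =
      map2 (ι : B →+* TrivSqZeroExt B B) (D.F (fun k => β₀ (U.s k))) := by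
    rw [hT.map2_fam, hT.map2_fam]
    congr 1
    funext k
    simp [βe, eHom_apply, ι, hs k]
  have htay := hT.taylorP Φι Φe (TrivSqZeroExt.kerIdeal B B) hI _ _ hIx hIy
    (by ring) (by ring) (map2 (βe : OO K T.m →+* TrivSqZeroExt B B) (D.F U.s))
  rw [hpe, U.sim.zero, map_zero, hF1, hpι, hsim.zero, map_zero, TrivSqZeroExt.kerIdeal_sq,
    ← hT.map2_dx, ← hT.map2_dy, hpι, hpι] at htay
  have hz : (mapP (ι : B →+* TrivSqZeroExt B B) (Φ₀ (dx (D.F (fun k => β₀ (U.s k))))) *
      (Φe (C X) - Φι (C X)) +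
      mapP (ι : B →+* TrivSqZeroExt B B) (Φ₀ (dy (D.F (fun k => β₀ (U.s k))))) *
      (Φe X - Φι X)) i = 0 := by
    ext1 n
    have := htay i n
    rw [Ideal.mem_bot] at this
    simp only [zero_sub, zero_add, Pi.neg_apply, map_neg, neg_eq_zero] at this
    rw [this]
    simp
  have hz2 := congrArg sndP hz
  rw [Pi.add_apply, Pi.mul_apply, Pi.mul_apply, sndP_add, sndP_zero, mapP_apply, mapP_apply] at hz2
  have hι : (ι : B →+* TrivSqZeroExt B B) = TrivSqZeroExt.inlHom B B := rfl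
  rw [hι, sndP_mul, sndP_mul] at hz2
  have e1 : sndP ((Φe (C X) - Φι (C X)) i) =
      PowerSeries.mk (fun n => δ (PowerSeries.coeff n (U.Φ (C X) i))) := by
    ext n
    rw [he1, hι1, hx0]
    simp [sndP, mapP_apply, βe, eHom_apply, ι]
  have e2 : sndP ((Φe X - Φι X) i) =
      PowerSeries.mk (fun n => δ (PowerSeries.coeff n (U.Φ X i))) := by
    ext n
    rw [he2, hι2, hy0]
    simp [sndP, mapP_apply, βe, eHom_apply, ι]
  rw [e1, e2] at hz2
  exact hz2

theorem pi_ker {K B : Type u} [Field K] [CommRing B] [IsLocalRing B] [Algebra K B]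
    (π : B →ₐ[K] K) (x : B) : x ∈ maximalIdeal B ↔ π x = 0 := by
  constructor
  · intro hx
    have h := hom_loc (AlgHom.id K K) π x hx
    rw [mem_maximalIdeal, mem_nonunits_iff, isUnit_iff_ne_zero, not_not] at h
    exact h
  · intro hx
    rw [mem_maximalIdeal, mem_nonunits_iff]
    intro hu
    have := hu.map π
    rw [hx] at this
    simp at this

/-- division step -/
theorem div_step {K B : Type u} [Field K] [CommRing B] [IsDomain B] [IsLocalRing B] [Algebra K B]
    (π : B →ₐ[K] K) (v : B) (hv : maximalIdeal B = Ideal.span {v}) (hv0 : v ≠ 0)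
    (x' y' : B⟦X⟧) (hne : ¬ (PowerSeries.map (π : B →+* K) x' = 0 ∧
      PowerSeries.map (π : B →+* K) y' = 0)) (k : ℕ) :
    ∀ (u xd yd : B⟦X⟧), C (v^k) * xd = u * x' → C (v^k) * yd = u * y' →
      ∃ u0, xd = u0 * x' ∧ yd = u0 * y' := by
  induction k with
  | zero =>
    intro u xd yd h1 h2
    refine ⟨u, ?_, ?_⟩
    · simpa using h1
    · simpa using h2
  | succ k ih =>
    intro u xd yd h1 h2
    have hπv : π v = 0 := (pi_ker π v).1 (by rw [hv]; exact Ideal.mem_span_singleton_self v)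
    have e1 : PowerSeries.map (π : B →+* K) u * PowerSeries.map (π : B →+* K) x' = 0 := by
      rw [← map_mul, ← h1, map_mul, PowerSeries.map_C]
      simp [hπv]
    have e2 : PowerSeries.map (π : B →+* K) u * PowerSeries.map (π : B →+* K) y' = 0 := by
      rw [← map_mul, ← h2, map_mul, PowerSeries.map_C]
      simp [hπv]
    have hu : PowerSeries.map (π : B →+* K) u = 0 := by
      by_contra hu
      exact hne ⟨(mul_eq_zero.1 e1).resolve_left hu, (mul_eq_zero.1 e2).resolve_left hu⟩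
    have hc : ∀ n, ∃ c, PowerSeries.coeff n u = v * c := by
      intro n
      have h3 := congrArg (PowerSeries.coeff n) hu
      rw [PowerSeries.coeff_map, map_zero] at h3
      have h4 : PowerSeries.coeff n u ∈ maximalIdeal B := (pi_ker π _).2 h3
      rw [hv, Ideal.mem_span_singleton] at h4
      exact h4
    choose c hc using hc
    have hu1 : u = C v * PowerSeries.mk c := by
      ext n
      rw [PowerSeries.coeff_C_mul, PowerSeries.coeff_mk, hc]
    have hCv : (C v : B⟦X⟧) ≠ 0 := by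
      intro h
      apply hv0
      have := congrArg (PowerSeries.coeff 0) h
      simpa using this
    refine ih (PowerSeries.mk c) xd yd ?_ ?_
    · refine mul_left_cancel₀ hCv ?_
      rw [← mul_assoc, ← mul_assoc, ← hu1, ← h1, pow_succ', map_mul]
    · refine mul_left_cancel₀ hCv ?_
      rw [← mul_assoc, ← mul_assoc, ← hu1, ← h2, pow_succ', map_mul]

theorem derc0 (hT : Tools.{u}) {K : Type u} [Field K]
    {τ r : ℕ} (D : Setup K τ r) (T : TBasis D) (U : UnivFam D T)
    (hgrad : ∀ i, ¬ (D.φ (dx D.f) i = 0 ∧ D.φ (dy D.f) i = 0))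
    (hvel : ∀ i, ¬ (dP (D.φ (C X)) i = 0 ∧ dP (D.φ X) i = 0))
    {B : Type u} [CommRing B] [IsDomain B] [IsDiscreteValuationRing B]
    [IsAdicComplete (maximalIdeal B) B] [Algebra K B] (π : B →ₐ[K] K) (v : B)
    [IsLocalRing (TrivSqZeroExt B B)] [IsNoetherianRing (TrivSqZeroExt B B)]
    [IsAdicComplete (maximalIdeal (TrivSqZeroExt B B)) (TrivSqZeroExt B B)]
    (hv : maximalIdeal B = Ideal.span {v})
    (β₀ : OO K T.m →ₐ[K] B) (Φ₀ : Par B r)
    (hΦ₀ : ∀ h, Φ₀ (map2 (β₀ : OO K T.m →+* B) h) = mapP (β₀ : OO K T.m →+* B) (U.Φ h))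
    (hsim : SimPar D π (fun k => β₀ (U.s k)) Φ₀) (k : ℕ) (a b : Fin r → B⟦X⟧)
    (hab : a * dP (Φ₀ (C X)) + b * dP (Φ₀ X) = fun _ => C (v ^ k))
    (δ : OO K T.m →ₗ[K] B) (hleib : ∀ x y, δ (x * y) = β₀ x * δ y + β₀ y * δ x)
    (hs : ∀ j, δ (U.s j) = 0) (j : Fin T.m) : π (δ (MvPowerSeries.X j)) = 0 := by
  have hv0 : v ≠ 0 := by
    rintro rfl
    rw [Ideal.span_singleton_eq_bot.2 rfl] at hv
    exact IsDiscreteValuationRing.not_a_field B hv
  have hm1 : map2 (π : B →+* K) (C X) = C X := by simp [map2]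
  have hm2 : map2 (π : B →+* K) X = X := by simp [map2]
  have hd2 : ∀ x ∈ maximalIdeal (OO K T.m) ^ 2, π (δ x) = 0 := by
    intro x hx
    rw [pow_two] at hx
    refine Submodule.mul_induction_on hx ?_ ?_
    · intro x hx y hy
      rw [hleib, map_add, map_mul, map_mul, (pi_ker π _).1 (hom_loc π β₀ x hx),
        (pi_ker π _).1 (hom_loc π β₀ y hy)]
      ring
    · intro x y hx hy
      rw [map_add, map_add, hx, hy, add_zero]
  have hd0 : ∀ c : K, δ (algebraMap K (OO K T.m) c) = 0 := by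
    intro c
    have h1 := hleib 1 1
    simp only [mul_one, map_one, one_mul] at h1
    rw [Algebra.algebraMap_eq_smul_one, map_smul]
    have : δ 1 = 0 := by simpa using h1
    rw [this, smul_zero]
  -- the linear parts
  have hσ : ∑ j, π (δ (MvPowerSeries.X j)) • T.σ j = 0 := by
    funext l
    have h1 := hd2 _ (U.lin_s l)
    rw [map_sub, hs l, zero_sub, map_sum, map_neg, map_sum, neg_eq_zero] at h1
    rw [Finset.sum_apply, Pi.zero_apply, ← h1]
    refine Finset.sum_congr rfl ?_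
    intro j _
    rw [map_smul, map_smul, Pi.smul_apply, smul_eq_mul, smul_eq_mul, mul_comm]
  have hX : ∀ i, PowerSeries.map (π : B →+* K)
      (PowerSeries.mk (fun n => δ (PowerSeries.coeff n (U.Φ (C X) i)))) =
      (∑ j, π (δ (MvPowerSeries.X j)) • T.v j) i := by
    intro i
    ext n
    have h1 := hd2 _ (U.lin_x i n)
    rw [PowerSeries.coeff_map, PowerSeries.coeff_mk]
    rw [Pi.sub_apply, Pi.add_apply, Finset.sum_apply, map_sub, map_add, map_sum] at h1
    rw [mapP_apply, PowerSeries.coeff_map, map_sub, map_add, hd0, zero_add, map_sub, sub_eq_zero]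
      at h1
    refine Eq.trans h1 ?_
    rw [Finset.sum_apply, map_sum, map_sum, map_sum]
    refine Finset.sum_congr rfl ?_
    intro j _
    rw [Pi.smul_apply, Pi.smul_apply, PowerSeries.coeff_smul, PowerSeries.coeff_smul, mapP_apply,
      PowerSeries.coeff_map, smul_eq_mul, hleib, hd0, mul_zero, zero_add, map_mul, smul_eq_mul]
    have : π (β₀ (algebraMap K (OO K T.m) (PowerSeries.coeff n (T.v j i)))) =
        PowerSeries.coeff n (T.v j i) := by
      rw [AlgHom.commutes, AlgHom.commutes]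
      rfl
    rw [mul_comm]
    exact congrArg (fun z => π (δ (MvPowerSeries.X j)) * z) this
  have hY : ∀ i, PowerSeries.map (π : B →+* K)
      (PowerSeries.mk (fun n => δ (PowerSeries.coeff n (U.Φ X i)))) =
      (∑ j, π (δ (MvPowerSeries.X j)) • T.w j) i := by
    intro i
    ext n
    have h1 := hd2 _ (U.lin_y i n)
    rw [PowerSeries.coeff_map, PowerSeries.coeff_mk]
    rw [Pi.sub_apply, Pi.add_apply, Finset.sum_apply, map_sub, map_add, map_sum] at h1
    rw [mapP_apply, PowerSeries.coeff_map, map_sub, map_add, hd0, zero_add, map_sub, sub_eq_zero]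
      at h1
    refine Eq.trans h1 ?_
    rw [Finset.sum_apply, map_sum, map_sum, map_sum]
    refine Finset.sum_congr rfl ?_
    intro j _
    rw [Pi.smul_apply, Pi.smul_apply, PowerSeries.coeff_smul, PowerSeries.coeff_smul, mapP_apply,
      PowerSeries.coeff_map, smul_eq_mul, hleib, hd0, mul_zero, zero_add, map_mul, smul_eq_mul]
    have : π (β₀ (algebraMap K (OO K T.m) (PowerSeries.coeff n (T.w j i)))) =
        PowerSeries.coeff n (T.w j i) := by
      rw [AlgHom.commutes, AlgHom.commutes]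
      rfl
    rw [mul_comm]
    exact congrArg (fun z => π (δ (MvPowerSeries.X j)) * z) this
  -- division
  have hx' : mapP (π : B →+* K) (dP (Φ₀ (C X))) = dP (D.φ (C X)) := by
    rw [hT.mapP_dP, hsim.lifts, hm1]
  have hy' : mapP (π : B →+* K) (dP (Φ₀ X)) = dP (D.φ X) := by
    rw [hT.mapP_dP, hsim.lifts, hm2]
  have hdiv : ∀ i, ∃ u0 : B⟦X⟧,
      PowerSeries.mk (fun n => δ (PowerSeries.coeff n (U.Φ (C X) i))) = u0 * dP (Φ₀ (C X)) i ∧
      PowerSeries.mk (fun n => δ (PowerSeries.coeff n (U.Φ X i))) = u0 * dP (Φ₀ X) i := by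
    intro i
    have h1 := derc_dual hT D T U π β₀ Φ₀ hΦ₀ hsim δ hleib hs i
    have h2 := congrFun (hT.chainP Φ₀ (D.F (fun k => β₀ (U.s k)))) i
    rw [hsim.zero, Pi.add_apply, Pi.mul_apply, Pi.mul_apply] at h2
    have h2' : dP (0 : Fin r → B⟦X⟧) i = 0 := by simp [dP]
    rw [h2'] at h2
    set xd := PowerSeries.mk (fun n => δ (PowerSeries.coeff n (U.Φ (C X) i)))
    set yd := PowerSeries.mk (fun n => δ (PowerSeries.coeff n (U.Φ X i)))
    set P := Φ₀ (dx (D.F (fun k => β₀ (U.s k)))) i with hP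
    set Q := Φ₀ (dy (D.F (fun k => β₀ (U.s k)))) i with hQ
    have hPQ : ¬ (P = 0 ∧ Q = 0) := by
      rintro ⟨hP0, hQ0⟩
      apply hgrad i
      have hF0 : map2 (π : B →+* K) (D.F (fun k => β₀ (U.s k))) = D.f :=
        hT.map2_fam_zero π D.f D.g _ hsim.mem
      constructor
      · rw [← hF0, ← hT.map2_dx, ← hsim.lifts, mapP_apply, ← hP, hP0, map_zero]
      · rw [← hF0, ← hT.map2_dy, ← hsim.lifts, mapP_apply, ← hQ, hQ0, map_zero]
    have hcross : xd * dP (Φ₀ X) i = yd * dP (Φ₀ (C X)) i := by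
      by_cases hP0 : P = 0
      · have hQ0 : Q ≠ 0 := fun h => hPQ ⟨hP0, h⟩
        refine mul_left_cancel₀ hQ0 ?_
        rw [hP0] at h1 h2
        simp only [zero_mul, zero_add] at h1 h2
        have h3 : yd = 0 := (mul_eq_zero.1 h1).resolve_left hQ0
        have h4 : dP (Φ₀ X) i = 0 := (mul_eq_zero.1 h2.symm).resolve_left hQ0
        rw [h3, h4]
        ring
      · refine mul_left_cancel₀ hP0 ?_
        linear_combination (dP (Φ₀ X) i) * h1 + yd * h2
    have hab' := congrFun hab i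
    rw [Pi.add_apply, Pi.mul_apply, Pi.mul_apply] at hab'
    refine div_step π v hv hv0 (dP (Φ₀ (C X)) i) (dP (Φ₀ X) i) ?_ k (a i * xd + b i * yd) xd yd
      ?_ ?_
    · rintro ⟨h3, h4⟩
      apply hvel i
      rw [← hx', ← hy']
      exact ⟨h3, h4⟩
    · rw [← hab']
      linear_combination (b i) * hcross
    · rw [← hab']
      linear_combination (- a i) * hcross
  choose u0 hu1 hu2 using hdiv
  have hc := T.indep (fun j => π (δ (MvPowerSeries.X j))) (mapP (π : B →+* K) u0) hσ ?_ ?_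
  · exact congrFun hc j
  · funext i
    rw [← hX i, hu1, map_mul, ← hx']
    rfl
  · funext i
    rw [← hY i, hu2, map_mul, ← hy']
    rfl

theorem derc_pow (hT : Tools.{u}) (hB : BaseFacts.{u}) {K : Type u} [Field K]
    {τ r : ℕ} (D : Setup K τ r) (T : TBasis D) (U : UnivFam D T)
    (hgrad : ∀ i, ¬ (D.φ (dx D.f) i = 0 ∧ D.φ (dy D.f) i = 0))
    (hvel : ∀ i, ¬ (dP (D.φ (C X)) i = 0 ∧ dP (D.φ X) i = 0))
    {B : Type u} [CommRing B] [IsDomain B] [IsDiscreteValuationRing B]
    [IsAdicComplete (maximalIdeal B) B] [Algebra K B] (π : B →ₐ[K] K) (v : B)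
    [IsLocalRing (TrivSqZeroExt B B)] [IsNoetherianRing (TrivSqZeroExt B B)]
    [IsAdicComplete (maximalIdeal (TrivSqZeroExt B B)) (TrivSqZeroExt B B)]
    (hv : maximalIdeal B = Ideal.span {v})
    (β₀ : OO K T.m →ₐ[K] B) (Φ₀ : Par B r)
    (hΦ₀ : ∀ h, Φ₀ (map2 (β₀ : OO K T.m →+* B) h) = mapP (β₀ : OO K T.m →+* B) (U.Φ h))
    (hsim : SimPar D π (fun k => β₀ (U.s k)) Φ₀) (k : ℕ) (a b : Fin r → B⟦X⟧)
    (hab : a * dP (Φ₀ (C X)) + b * dP (Φ₀ X) = fun _ => C (v ^ k)) (n : ℕ) :
    ∀ (δ : OO K T.m →ₗ[K] B) (_ : ∀ x y, δ (x * y) = β₀ x * δ y + β₀ y * δ x)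
      (_ : ∀ j, δ (U.s j) = 0) (j : Fin T.m), δ (MvPowerSeries.X j) ∈ maximalIdeal B ^ n := by
  have hv0 : v ≠ 0 := by
    rintro rfl
    rw [Ideal.span_singleton_eq_bot.2 rfl] at hv
    exact IsDiscreteValuationRing.not_a_field B hv
  induction n with
  | zero =>
    intro δ _ _ j
    rw [pow_zero, Ideal.one_eq_top]
    trivial
  | succ n ih =>
    intro δ hleib hs j
    have h0 := derc0 hT D T U hgrad hvel π v hv β₀ Φ₀ hΦ₀ hsim k a b hab δ hleib hs
    have hc : ∀ j, ∃ c, δ (MvPowerSeries.X j) = v * c := by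
      intro j
      have h1 := (pi_ker π _).2 (h0 j)
      rw [hv, Ideal.mem_span_singleton] at h1
      exact h1
    choose c hc using hc
    have hXm : ∀ j, (MvPowerSeries.X j : OO K T.m) ∈ maximalIdeal (OO K T.m) := by
      intro j
      rw [mem_maximalIdeal, mem_nonunits_iff]
      intro hu
      have := hu.map (MvPowerSeries.constantCoeff (σ := Fin T.m) (R := K))
      simp at this
    obtain ⟨β', hβ'⟩ := hB.evm_exists (σ := Fin T.m) (K := K)
      (maximalIdeal (TrivSqZeroExt B B))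
      (fun j => TrivSqZeroExt.inl (β₀ (MvPowerSeries.X j)) + TrivSqZeroExt.inr (c j))
      (by
        intro j
        rw [mem_maxE]
        simpa using hom_loc π β₀ _ (hXm j))
    have hfst : (TrivSqZeroExt.fstHom K B B).comp β' = β₀ := by
      refine hB.evm_unique (maximalIdeal B) (fun j => β₀ (MvPowerSeries.X j))
        (fun j => hom_loc π β₀ _ (hXm j)) _ _ ?_ (fun j => rfl)
      intro j
      rw [AlgHom.comp_apply, hβ']
      simp
    have hfst' : ∀ x, (β' x).fst = β₀ x := by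
      intro x
      rw [← hfst]
      rfl
    let δ' : OO K T.m →ₗ[K] B :=
      { toFun := fun x => (β' x).snd
        map_add' := by intro x y; simp
        map_smul' := by intro c x; simp }
    have hleib' : ∀ x y, δ' (x * y) = β₀ x * δ' y + β₀ y * δ' x := by
      intro x y
      change (β' (x * y)).snd = β₀ x * (β' y).snd + β₀ y * (β' x).snd
      rw [map_mul, TrivSqZeroExt.snd_mul, ← hfst', ← hfst']
      simp [mul_comm]
    let δ'' : OO K T.m →ₗ[K] B := (LinearMap.mulLeft K v).comp δ'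
    have hleib'' : ∀ x y, δ'' (x * y) = β₀ x * δ'' y + β₀ y * δ'' x := by
      intro x y
      change v * δ' (x * y) = β₀ x * (v * δ' y) + β₀ y * (v * δ' x)
      rw [hleib']
      ring
    have heq : eHom β₀ δ'' hleib'' = eHom β₀ δ hleib := by
      refine hB.evm_unique (maximalIdeal (TrivSqZeroExt B B))
        (fun j => TrivSqZeroExt.inl (β₀ (MvPowerSeries.X j)) +
          TrivSqZeroExt.inr (δ (MvPowerSeries.X j))) ?_ _ _ ?_ ?_
      · intro j
        rw [mem_maxE]
        simpa using hom_loc π β₀ _ (hXm j)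
      · intro j
        rw [eHom_apply]
        congr 2
        change v * (β' (MvPowerSeries.X j)).snd = _
        rw [hβ', hc]
        simp
      · intro j
        rfl
    have hvδ : ∀ x, v * δ' x = δ x := by
      intro x
      have := congrArg TrivSqZeroExt.snd (DFunLike.congr_fun heq x)
      rw [eHom_apply, eHom_apply] at this
      have h3 : δ'' x = δ x := by simpa using this
      exact h3
    have hs' : ∀ j, δ' (U.s j) = 0 := by
      intro j
      have := hvδ (U.s j)
      rw [hs j] at this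
      exact (mul_eq_zero.1 this).resolve_left hv0
    have h2 := ih δ' hleib' hs' j
    rw [← hvδ, pow_succ']
    exact Ideal.mul_mem_mul (by rw [hv]; exact Ideal.mem_span_singleton_self v) h2

/-- the tangent map of the universal family is injective at an immersed arc -/
theorem derc (hT : Tools.{u}) (hB : BaseFacts.{u}) {K : Type u} [Field K]
    {τ r : ℕ} (D : Setup K τ r) (T : TBasis D) (U : UnivFam D T)
    (hgrad : ∀ i, ¬ (D.φ (dx D.f) i = 0 ∧ D.φ (dy D.f) i = 0))
    (hvel : ∀ i, ¬ (dP (D.φ (C X)) i = 0 ∧ dP (D.φ X) i = 0))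
    (hdual : ∀ (A : Type u) [CommRing A] [IsLocalRing A] [IsNoetherianRing A]
      [IsAdicComplete (maximalIdeal A) A],
      ∃ _ : IsLocalRing (TrivSqZeroExt A A), IsNoetherianRing (TrivSqZeroExt A A) ∧
        IsAdicComplete (maximalIdeal (TrivSqZeroExt A A)) (TrivSqZeroExt A A))
    {B : Type u} [CommRing B] [IsDomain B] [IsDiscreteValuationRing B]
    [IsAdicComplete (maximalIdeal B) B] [Algebra K B] (π : B →ₐ[K] K) (v : B)
    (hv : maximalIdeal B = Ideal.span {v})
    (β₀ : OO K T.m →ₐ[K] B) (Φ₀ : Par B r)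
    (hΦ₀ : ∀ h, Φ₀ (map2 (β₀ : OO K T.m →+* B) h) = mapP (β₀ : OO K T.m →+* B) (U.Φ h))
    (hsim : SimPar D π (fun k => β₀ (U.s k)) Φ₀) (k : ℕ) (a b : Fin r → B⟦X⟧)
    (hab : a * dP (Φ₀ (C X)) + b * dP (Φ₀ X) = fun _ => C (v ^ k))
    (δ : OO K T.m →ₗ[K] B) (hleib : ∀ x y, δ (x * y) = β₀ x * δ y + β₀ y * δ x)
    (hs : ∀ j, δ (U.s j) = 0) : δ = 0 := by
  obtain ⟨hloc, hnoeth, hcomp⟩ := hdual B
  have hpow := fun n => derc_pow hT hB D T U hgrad hvel π v hv β₀ Φ₀ hΦ₀ hsim k a b hab n δ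
    hleib hs
  have hz : ∀ j, δ (MvPowerSeries.X j) = 0 := fun j => hT.eqA _ (fun n => hpow n j)
  have hXm : ∀ j, (MvPowerSeries.X j : OO K T.m) ∈ maximalIdeal (OO K T.m) := by
    intro j
    rw [mem_maximalIdeal, mem_nonunits_iff]
    intro hu
    have := hu.map (MvPowerSeries.constantCoeff (σ := Fin T.m) (R := K))
    simp at this
  have hl0 : ∀ x y : OO K T.m, (0 : OO K T.m →ₗ[K] B) (x * y) =
      β₀ x * (0 : OO K T.m →ₗ[K] B) y + β₀ y * (0 : OO K T.m →ₗ[K] B) x := by
    intro x y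
    simp
  have heq : eHom β₀ δ hleib = eHom β₀ 0 hl0 := by
    refine hB.evm_unique (maximalIdeal (TrivSqZeroExt B B))
      (fun j => TrivSqZeroExt.inl (β₀ (MvPowerSeries.X j))) ?_ _ _ ?_ ?_
    · intro j
      rw [mem_maxE]
      simpa using hom_loc π β₀ _ (hXm j)
    · intro j
      rw [eHom_apply, hz]
      simp
    · intro j
      rw [eHom_apply]
      simp
  ext x
  have := congrArg TrivSqZeroExt.snd (DFunLike.congr_fun heq x)
  rw [eHom_apply, eHom_apply] at this
  simpa using this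

end DRC

end Pool.Agent.Helper819.DC
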