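import Mathlib

set_option autoImplicit false

open PowerSeries IsLocalRing TensorProduct

universe u

namespace Pool.Agent.Helper819.DC.ENDO

theorem finite_of_span {A B : Type u} [CommRing A] [CommRing B] (f : A →+* B) (n : ℕ)
    (b : Fin n → B) (h : ∀ y : B, ∃ g : Fin n → A, y = ∑ i, f (g i) * b i) : f.Finite := by
  classical
  let := f.toAlgebra
  refine ⟨⟨Finset.univ.image b, eq_top_iff.2 fun y _ => ?_⟩⟩
  obtain ⟨g, rfl⟩ := h y
  refine Submodule.sum_mem _ fun i _ => ?_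
  have : f (g i) * b i = g i • b i := (Algebra.smul_def (g i) (b i)).symm
  rw [this]
  refine Submodule.smul_mem _ _ (Submodule.subset_span ?_)
  exact Finset.mem_coe.2 (Finset.mem_image_of_mem b (Finset.mem_univ i))

theorem exists_div {K : Type u} [Field K] {h : K⟦X⟧} (h0 : h ≠ 0) (φ : K⟦X⟧) :
    ∃ ψ : K⟦X⟧, φ = (∑ i : Fin h.order.toNat, C (coeff (i : ℕ) φ) * X ^ (i : ℕ)) + h * ψ := by
  obtain ⟨n, hn⟩ : ∃ n, n = h.order.toNat := ⟨_, rfl⟩
  rw [← hn]
  have h1 : X ^ n ∣ φ - ∑ i : Fin n, C (coeff (i : ℕ) φ) * X ^ (i : ℕ) := by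
    rw [X_pow_dvd_iff]
    intro m hm
    rw [map_sub, map_sum]
    have h2 : ∀ i : Fin n, coeff m (C (coeff (i : ℕ) φ) * X ^ (i : ℕ)) =
        if (⟨m, hm⟩ : Fin n) = i then coeff m φ else 0 := by
      intro i
      rw [coeff_C_mul, coeff_X_pow]
      by_cases hmi : m = (i : ℕ)
      · have : (⟨m, hm⟩ : Fin n) = i := Fin.ext hmi
        rw [if_pos hmi, if_pos this, ← hmi, mul_one]
      · have : ¬ (⟨m, hm⟩ : Fin n) = i := fun h => hmi (congrArg Fin.val h)
        rw [if_neg hmi, if_neg this, mul_zero]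
    rw [Finset.sum_congr rfl fun i _ => h2 i, Finset.sum_ite_eq, if_pos (Finset.mem_univ _),
      sub_self]
  obtain ⟨χ, hχ⟩ := h1
  obtain ⟨v, hv⟩ := isUnit_divided_by_X_pow_order h0
  have hh : X ^ n * (v : K⟦X⟧) = h := by
    rw [hv, hn]; exact X_pow_order_mul_divXPowOrder
  refine ⟨((v⁻¹ : K⟦X⟧ˣ) : K⟦X⟧) * χ, ?_⟩
  have h3 : h * (((v⁻¹ : K⟦X⟧ˣ) : K⟦X⟧) * χ) = X ^ n * χ := by
    rw [← hh, mul_assoc, ← mul_assoc (v : K⟦X⟧), Units.mul_inv, one_mul]
  rw [h3, ← hχ]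
  ring

/-- an injective `K`-algebra endomorphism of `K[[x]]` is finite -/
theorem endo_finite {K : Type u} [Field K] (ω : K⟦X⟧ →ₐ[K] K⟦X⟧) (hω : Function.Injective ω) :
    ω.toRingHom.Finite := by
  obtain ⟨h, hh⟩ : ∃ h, h = ω X := ⟨_, rfl⟩
  have hne : h ≠ 0 := by
    rw [hh]
    intro h0
    have : (X : K⟦X⟧) = 0 := hω (by rw [h0, map_zero])
    exact X_ne_zero this
  have hωC : ∀ c : K, ω (C c) = C c := fun c => ω.commutes c
  -- locality
  have hcc : constantCoeff h = 0 := by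
    by_contra hc
    have hu : IsUnit ((X : K⟦X⟧) - C (constantCoeff h)) := by
      rw [isUnit_iff_constantCoeff]
      simp only [map_sub, constantCoeff_X, constantCoeff_C, zero_sub]
      exact (IsUnit.mk0 _ hc).neg
    have h1 := hu.map ω
    rw [map_sub, hωC, ← hh, isUnit_iff_constantCoeff, map_sub, constantCoeff_C, sub_self] at h1
    exact not_isUnit_zero h1
  have hXh : X ∣ h := X_dvd_iff.2 hcc
  refine finite_of_span ω.toRingHom h.order.toNat (fun i => X ^ (i : ℕ)) fun f => ?_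
  choose T hT using fun φ : K⟦X⟧ => exists_div hne φ
  obtain ⟨F, hF0, hFs⟩ : ∃ F : ℕ → K⟦X⟧, F 0 = f ∧ ∀ k, F (k + 1) = T (F k) :=
    ⟨fun k => T^[k] f, rfl, fun k => Function.iterate_succ_apply' T k f⟩
  have hexp : ∀ N : ℕ, f = (∑ k ∈ Finset.range N, h ^ k *
      ∑ i : Fin h.order.toNat, C (coeff (i : ℕ) (F k)) * X ^ (i : ℕ)) + h ^ N * F N := by
    intro N
    induction N with
    | zero => simp [hF0]
    | succ N ih =>
      rw [Finset.sum_range_succ, hFs]
      conv_lhs => rw [ih]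
      conv_lhs => rw [hT (F N)]
      ring
  let g : Fin h.order.toNat → K⟦X⟧ := fun i => PowerSeries.mk fun k => coeff (i : ℕ) (F k)
  refine ⟨g, ?_⟩
  have hg : ∀ (N : ℕ) (i : Fin h.order.toNat), ∃ g' : K⟦X⟧, g i =
      (∑ k ∈ Finset.range N, C (coeff (i : ℕ) (F k)) * X ^ k) + X ^ N * g' := by
    intro N i
    have h1 : X ^ N ∣ g i - ∑ k ∈ Finset.range N, C (coeff (i : ℕ) (F k)) * X ^ k := by
      rw [X_pow_dvd_iff]
      intro m hm
      rw [map_sub, map_sum]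
      simp only [coeff_C_mul, coeff_X_pow, mul_ite, mul_one, mul_zero, Finset.sum_ite_eq,
        Finset.mem_range, if_pos hm, g, coeff_mk, sub_self]
    obtain ⟨g', hg'⟩ := h1
    exact ⟨g', by rw [← hg']; ring⟩
  -- the difference is divisible by all powers of `X`
  rw [← sub_eq_zero]
  ext m
  rw [map_zero]
  have hdiv : X ^ (m + 1) ∣ f - ∑ i, ω.toRingHom (g i) * X ^ (i : ℕ) := by
    refine (pow_dvd_pow_of_dvd hXh (m + 1)).trans ?_
    choose g' hg' using hg (m + 1)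
    have h1 : ∀ i, ω.toRingHom (g i) = (∑ k ∈ Finset.range (m + 1),
        C (coeff (i : ℕ) (F k)) * h ^ k) + h ^ (m + 1) * ω (g' i) := by
      intro i
      change ω (g i) = _
      rw [hg' i, map_add, map_sum, map_mul, map_pow, ← hh]
      congr 1
      refine Finset.sum_congr rfl fun k _ => ?_
      rw [map_mul, map_pow, hωC, ← hh]
    refine ⟨F (m + 1) - ∑ i, ω (g' i) * X ^ (i : ℕ), ?_⟩
    simp_rw [h1, add_mul, Finset.sum_add_distrib]
    conv_lhs => rw [hexp (m + 1)]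
    rw [mul_sub, Finset.mul_sum]
    have h2 : ∑ k ∈ Finset.range (m + 1), h ^ k *
        ∑ i : Fin h.order.toNat, C (coeff (i : ℕ) (F k)) * X ^ (i : ℕ) =
        ∑ i : Fin h.order.toNat, (∑ k ∈ Finset.range (m + 1), C (coeff (i : ℕ) (F k)) * h ^ k) *
          X ^ (i : ℕ) := by
      simp_rw [Finset.mul_sum, Finset.sum_mul]
      rw [Finset.sum_comm]
      refine Finset.sum_congr rfl fun i _ => Finset.sum_congr rfl fun k _ => ?_
      ring
    rw [h2]
    have h3 : ∑ i : Fin h.order.toNat, h ^ (m + 1) * ω (g' i) * X ^ (i : ℕ) =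
        ∑ i : Fin h.order.toNat, h ^ (m + 1) * (ω (g' i) * X ^ (i : ℕ)) :=
      Finset.sum_congr rfl fun i _ => by ring
    rw [h3]
    ring
  exact (X_pow_dvd_iff.1 hdiv) m (Nat.lt_succ_self m)

end Pool.Agent.Helper819.DC.ENDO
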