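import Mathlib

set_option autoImplicit false

open PowerSeries IsLocalRing TensorProduct

universe u

namespace Pool.Agent.Helper819.DC.FINF

theorem mem_smul_top_pi {S : Type u} [CommRing S] (J : Ideal S) {n : ℕ} (x : Fin n → S) :
    x ∈ (J • ⊤ : Submodule S (Fin n → S)) ↔ ∀ i, x i ∈ J := by
  constructor
  · intro hx i
    have h1 : (LinearMap.proj i : (Fin n → S) →ₗ[S] S) x ∈
        (J • ⊤ : Submodule S (Fin n → S)).map (LinearMap.proj i) :=
      Submodule.mem_map_of_mem hx
    rw [Submodule.map_smul''] at h1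
    have h2 : (J • (⊤ : Submodule S (Fin n → S)).map (LinearMap.proj i : (Fin n → S) →ₗ[S] S)) ≤
        J • ⊤ := Submodule.smul_mono le_rfl le_top
    have h3 := h2 h1
    rw [smul_eq_mul, Ideal.mul_top] at h3
    exact h3
  · intro h
    have : x = ∑ i, x i • (Pi.single i (1:S) : Fin n → S) := by
      funext j
      simp [Finset.sum_apply, Pi.single_apply]
    rw [this]
    exact Submodule.sum_mem _ fun i _ => Submodule.smul_mem_smul (h i) Submodule.mem_top

theorem precomplete_pi {S : Type u} [CommRing S] (I : Ideal S) [IsPrecomplete I S] (n : ℕ) :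
    IsPrecomplete I (Fin n → S) := by
  constructor
  intro f hf
  have h1 : ∀ i : Fin n, ∃ L : S, ∀ m, f m i ≡ L [SMOD (I ^ m • ⊤ : Submodule S S)] := by
    intro i
    refine IsPrecomplete.prec' (I := I) (fun m => f m i) ?_
    intro m k hmk
    have := hf hmk
    rw [SModEq.sub_mem, mem_smul_top_pi] at this
    rw [SModEq.sub_mem, smul_eq_mul, Ideal.mul_top]
    exact this i
  choose L hL using h1
  refine ⟨L, fun m => ?_⟩
  rw [SModEq.sub_mem, mem_smul_top_pi]
  intro i
  have := hL i m
  rw [SModEq.sub_mem, smul_eq_mul, Ideal.mul_top] at this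
  exact this

/-- finiteness criterion -/
theorem finite_of_fibre {K : Type u} [Field K]
    {S O : Type u} [CommRing S] [IsLocalRing S] [IsNoetherianRing S]
    [IsAdicComplete (maximalIdeal S) S] [Algebra K S]
    [CommRing O] [IsLocalRing O] [IsNoetherianRing O] [Algebra K O]
    (θ : S →ₐ[K] O) (hloc : IsLocalHom θ.toRingHom)
    (h : FiniteDimensional K (O ⧸ (maximalIdeal S).map θ.toRingHom)) :
    θ.toRingHom.Finite := by
  let _ : Algebra S O := θ.toRingHom.toAlgebra
  have halg : algebraMap S O = θ.toRingHom := rfl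
  show Module.Finite S O
  have : IsScalarTower K S O := IsScalarTower.of_algebraMap_eq fun x => (θ.commutes x).symm
  have hle : (maximalIdeal S).map (algebraMap S O) ≤ maximalIdeal O := by
    rw [halg]
    exact ((IsLocalRing.local_hom_TFAE θ.toRingHom).out 0 2).1 hloc
  have hH : IsHausdorff (maximalIdeal S) O := IsHausdorff.of_map (J := maximalIdeal O) hle
  obtain ⟨n, s, hs⟩ := Module.Finite.exists_fin (R := K) (M := O ⧸ (maximalIdeal S).map θ.toRingHom)
  choose o ho using fun i => Ideal.Quotient.mk_surjective (s i)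
  let f : (Fin n → S) →ₗ[S] O := Fintype.linearCombination S o
  have := precomplete_pi (maximalIdeal S) n
  have hsurj : Function.Surjective (Submodule.mkQ ((maximalIdeal S) • (⊤ : Submodule S O)) ∘ₗ f) := by
    intro y
    obtain ⟨y0, rfl⟩ := Submodule.mkQ_surjective _ y
    have h1 : (Ideal.Quotient.mk ((maximalIdeal S).map θ.toRingHom) y0) ∈
        Submodule.span K (Set.range s) := by rw [hs]; exact Submodule.mem_top
    rw [Submodule.mem_span_range_iff_exists_fun] at h1
    obtain ⟨c, hc⟩ := h1
    refine ⟨fun i => algebraMap K S (c i), ?_⟩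
    rw [LinearMap.comp_apply, ← sub_eq_zero, ← map_sub, Submodule.mkQ_apply,
      Submodule.Quotient.mk_eq_zero, Ideal.smul_top_eq_map, Submodule.restrictScalars_mem]
    rw [halg, ← Ideal.Quotient.eq_zero_iff_mem, map_sub, ← hc, sub_eq_zero]
    simp only [f, Fintype.linearCombination_apply, map_sum]
    refine Finset.sum_congr rfl fun i _ => ?_
    rw [← ho i, ← Ideal.Quotient.mk_eq_mk, ← Ideal.Quotient.mk_eq_mk, algebraMap_smul]
    rfl
  have hf := surjective_of_mkQ_comp_surjective (I := maximalIdeal S) hsurj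
  exact Module.Finite.of_surjective f hf

end Pool.Agent.Helper819.DC.FINF
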