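import Pool.Agent.Helper819.DC.Core3

set_option autoImplicit false

open PowerSeries IsLocalRing TensorProduct

universe u

namespace Pool.Agent.Helper819.DC


namespace FRC

/-- the generic fibre of `B[[t]]` is an integrally closed domain -/
theorem frac_ic {B E : Type u} [CommRing B] [IsDomain B] [IsPrincipalIdealRing B] [Field E]
    [Algebra B E] [IsFractionRing B E] (hic : IsIntegrallyClosed B⟦X⟧) :
    IsDomain (E ⊗[B] B⟦X⟧) ∧ IsIntegrallyClosed (E ⊗[B] B⟦X⟧) := by
  let _ : Algebra B⟦X⟧ (E ⊗[B] B⟦X⟧) := Algebra.TensorProduct.rightAlgebra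
  have hloc : IsLocalization (Algebra.algebraMapSubmonoid B⟦X⟧ (nonZeroDivisors B))
      (E ⊗[B] B⟦X⟧) := IsLocalization.tensorRight E (nonZeroDivisors B)
  have hM : Algebra.algebraMapSubmonoid B⟦X⟧ (nonZeroDivisors B) ≤ nonZeroDivisors B⟦X⟧ := by
    rintro x ⟨b, hb, rfl⟩
    have hb0 : b ≠ 0 := nonZeroDivisors.ne_zero hb
    rw [mem_nonZeroDivisors_iff_ne_zero]
    intro h
    apply hb0
    have h1 := congrArg (PowerSeries.coeff 0) h
    have h2 : (algebraMap B B⟦X⟧) b = PowerSeries.C b := rfl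
    have h3 : PowerSeries.coeff 0 ((algebraMap B B⟦X⟧) b) = 0 := by
      rw [show (algebraMap B B⟦X⟧) b = 0 from h]; simp
    rw [h2, PowerSeries.coeff_zero_C] at h3
    exact h3
  have hdom : IsDomain (E ⊗[B] B⟦X⟧) := IsLocalization.isDomain_of_le_nonZeroDivisors _ hM
  exact ⟨hdom, isIntegrallyClosed_of_isLocalization (R := B⟦X⟧) (S := E ⊗[B] B⟦X⟧)
    (Algebra.algebraMapSubmonoid B⟦X⟧ (nonZeroDivisors B)) hM⟩

end FRC

end Pool.Agent.Helper819.DC
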