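import Pool.Agent.Helper819.DC.Core3

set_option autoImplicit false

open PowerSeries IsLocalRing TensorProduct

universe u

namespace Pool.Agent.Helper819.DC


namespace ISO

/-- two simultaneous parametrisations with the same parameters differ by a reparametrisation -/
theorem iso (hT : Tools.{u}) (hB : BaseFacts.{u}) {K : Type u} [Field K] {τ r : ℕ}
    (D : Setup K τ r)
    {B : Type u} [CommRing B] [IsDomain B] [IsDiscreteValuationRing B]
    [IsAdicComplete (maximalIdeal B) B] [Algebra K B] (π : B →ₐ[K] K) (v : B)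
    (hv : maximalIdeal B = Ideal.span {v})
    (hic : IsIntegrallyClosed B⟦X⟧)
    (hnorm : ∀ (A P : Type u) [CommRing A] [CommRing P] [Algebra A P]
      (_ : Function.Injective (algebraMap A P)) (d : A)
      (_ : algebraMap A P d ∈ nonZeroDivisors P)
      (_ : ∀ p : P, ∃ a : A, algebraMap A P a = algebraMap A P d * p)
      (_ : Algebra.IsIntegral A P)
      (_ : ∀ x : FractionRing P, IsIntegral P x → ∃ p : P, algebraMap P (FractionRing P) p = x),
      Nonempty (P ≃ₐ[A] integralClosure A (FractionRing A)))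
    (hpi : ∀ (P : Fin r → Type u) [∀ i, CommRing (P i)] [∀ i, IsDomain (P i)]
      [∀ i, IsIntegrallyClosed (P i)] (x : FractionRing (∀ i, P i))
      (_ : IsIntegral (∀ i, P i) x),
      ∃ p, algebraMap (∀ i, P i) (FractionRing (∀ i, P i)) p = x)
    (hstr : ∀ (s : Fin τ → B) (Φ : Par B r), SimPar D π s Φ →
      RingHom.ker Φ = Ideal.span {D.F s} ∧ (Φ : B⟦X⟧⟦X⟧ →+* (Fin r → B⟦X⟧)).Finite ∧
      Nonempty (Module.Basis (Fin D.delta) B ((Fin r → B⟦X⟧) ⧸ LinearMap.range Φ.toLinearMap)) ∧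
      ∃ c : B⟦X⟧⟦X⟧, (∀ i, mapP (π : B →+* K) (Φ c) i ≠ 0) ∧ ∀ w, ∃ a, Φ a = Φ c * w)
    (s : Fin τ → B) (Φ Φ' : Par B r) (hsim : SimPar D π s Φ) (hsim' : SimPar D π s Φ') :
    ∃ ρ : Fin r → (B⟦X⟧ →ₐ[B] B⟦X⟧), (∀ i, PowerSeries.map (π : B →+* K) (ρ i X) = X) ∧
      ∀ h i, Φ' h i = ρ i (Φ h i) := by
  classical
  obtain ⟨hk, hfin, -, hcc⟩ := hstr s Φ hsim
  obtain ⟨hk', hfin', -, hcc'⟩ := hstr s Φ' hsim'
  have gen : ∀ (Ψ : Par B r), RingHom.ker Ψ = Ideal.span {D.F s} →
      (Ψ : B⟦X⟧⟦X⟧ →+* (Fin r → B⟦X⟧)).Finite →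
      (∃ c : B⟦X⟧⟦X⟧, (∀ i, mapP (π : B →+* K) (Ψ c) i ≠ 0) ∧ ∀ w, ∃ a, Ψ a = Ψ c * w) →
      ∃ E : (Fin r → B⟦X⟧) ≃+* integralClosure (B⟦X⟧⟦X⟧ ⧸ Ideal.span {D.F s})
          (FractionRing (B⟦X⟧⟦X⟧ ⧸ Ideal.span {D.F s})),
        ∀ h, E (Ψ h) = algebraMap (B⟦X⟧⟦X⟧ ⧸ Ideal.span {D.F s}) _ (Ideal.Quotient.mk _ h) := by
    intro Ψ hker hf ⟨c, hc1, hc2⟩
    let j : (B⟦X⟧⟦X⟧ ⧸ Ideal.span {D.F s}) →+* (Fin r → B⟦X⟧) :=
      Ideal.Quotient.lift (Ideal.span {D.F s}) (Ψ : B⟦X⟧⟦X⟧ →+* (Fin r → B⟦X⟧)) (by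
        intro a ha
        rw [← hker] at ha
        exact ha)
    have hj : ∀ h, j (Ideal.Quotient.mk _ h) = Ψ h := fun h => Ideal.Quotient.lift_mk _ _ _
    letI : Algebra (B⟦X⟧⟦X⟧ ⧸ Ideal.span {D.F s}) (Fin r → B⟦X⟧) := j.toAlgebra
    have hinj : Function.Injective j := by
      rw [injective_iff_map_eq_zero]
      intro a ha
      obtain ⟨h, rfl⟩ := Ideal.Quotient.mk_surjective a
      rw [hj] at ha
      rw [Ideal.Quotient.eq_zero_iff_mem, ← hker]
      exact ha
    have hnzd : j (Ideal.Quotient.mk _ c) ∈ nonZeroDivisors (Fin r → B⟦X⟧) := by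
      rw [hj, mem_nonZeroDivisors_iff_right]
      intro x hx
      funext i
      have h1 : x i * Ψ c i = 0 := congrFun hx i
      rcases mul_eq_zero.1 h1 with h2 | h2
      · exact h2
      · exfalso
        apply hc1 i
        rw [mapP_apply, h2, map_zero]
    have hcond : ∀ p : Fin r → B⟦X⟧, ∃ a : (B⟦X⟧⟦X⟧ ⧸ Ideal.span {D.F s}),
        j a = j (Ideal.Quotient.mk _ c) * p := by
      intro p
      obtain ⟨a, ha⟩ := hc2 p
      exact ⟨Ideal.Quotient.mk _ a, by rw [hj, hj, ha]⟩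
    have hint : j.IsIntegral := by
      have h1 : ((j.comp (Ideal.Quotient.mk (Ideal.span {D.F s})))).IsIntegral := by
        have h2 : j.comp (Ideal.Quotient.mk (Ideal.span {D.F s})) =
            (Ψ : B⟦X⟧⟦X⟧ →+* (Fin r → B⟦X⟧)) := RingHom.ext hj
        rw [h2]
        exact hf.to_isIntegral
      exact RingHom.IsIntegral.tower_top _ _ h1
    have hint' : Algebra.IsIntegral (B⟦X⟧⟦X⟧ ⧸ Ideal.span {D.F s}) (Fin r → B⟦X⟧) :=
      ⟨fun x => hint x⟩
    obtain ⟨e⟩ := hnorm (B⟦X⟧⟦X⟧ ⧸ Ideal.span {D.F s}) (Fin r → B⟦X⟧) hinj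
      (Ideal.Quotient.mk _ c) hnzd hcond hint' (fun x hx => hpi (fun _ => B⟦X⟧) x hx)
    refine ⟨e.toRingEquiv, fun h => ?_⟩
    have h1 := e.commutes (Ideal.Quotient.mk _ h)
    have h2 : algebraMap (B⟦X⟧⟦X⟧ ⧸ Ideal.span {D.F s}) (Fin r → B⟦X⟧)
      (Ideal.Quotient.mk _ h) = Ψ h := hj h
    rw [h2] at h1
    exact h1
  obtain ⟨E, hE⟩ := gen Φ hk hfin hcc
  obtain ⟨E', hE'⟩ := gen Φ' hk' hfin' hcc'
  obtain ⟨Th, hTh⟩ : ∃ Th : (Fin r → B⟦X⟧) ≃+* (Fin r → B⟦X⟧), ∀ h, Th (Φ h) = Φ' h := by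
    refine ⟨E.trans E'.symm, fun h => ?_⟩
    rw [RingEquiv.trans_apply, hE, ← hE', RingEquiv.symm_apply_apply]
  have hThB : ∀ b : B, Th (algebraMap B (Fin r → B⟦X⟧) b) = algebraMap B (Fin r → B⟦X⟧) b := by
    intro b
    have h1 := hTh (algebraMap B B⟦X⟧⟦X⟧ b)
    rw [AlgHom.commutes, AlgHom.commutes] at h1
    exact h1
  have hThv : ∀ w, InP (maximalIdeal B) w → InP (maximalIdeal B) (Th w) := by
    intro w hw
    have h1 : ∀ i n, ∃ c, PowerSeries.coeff n (w i) = v * c := by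
      intro i n
      have := hw i n
      rw [hv, Ideal.mem_span_singleton'] at this
      obtain ⟨c, hc⟩ := this
      exact ⟨c, by rw [← hc, mul_comm]⟩
    choose cc hcc using h1
    have h2 : w = algebraMap B (Fin r → B⟦X⟧) v * (fun i => PowerSeries.mk (cc i)) := by
      funext i
      ext n
      rw [Pi.mul_apply, hcc i n]
      have : (algebraMap B (Fin r → B⟦X⟧) v) i = PowerSeries.C v := rfl
      rw [this, PowerSeries.coeff_C_mul, PowerSeries.coeff_mk]
    intro i n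
    rw [h2, map_mul, hThB, Pi.mul_apply]
    have : (algebraMap B (Fin r → B⟦X⟧) v) i = PowerSeries.C v := rfl
    rw [this, PowerSeries.coeff_C_mul, hv]
    exact Ideal.mul_mem_right _ _ (Ideal.mem_span_singleton_self v)
  have hπK : ∀ h : K⟦X⟧⟦X⟧, map2 (π : B →+* K) (map2 (algebraMap K B) h) = h := by
    intro h
    rw [hT.map2_comp]
    have : (π : B →+* K).comp (algebraMap K B) = RingHom.id K := by
      ext x
      simp
    rw [this]
    ext i j
    simp [map2]
  have hmod : ∀ w, mapP (π : B →+* K) (Th w) = mapP (π : B →+* K) w := by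
    intro w
    obtain ⟨a0, ha0⟩ := D.cond (mapP (π : B →+* K) w)
    have l1 := hsim.lifts (map2 (algebraMap K B) a0)
    have l2 := hsim.lifts (map2 (algebraMap K B) D.d)
    have l1' := hsim'.lifts (map2 (algebraMap K B) a0)
    have l2' := hsim'.lifts (map2 (algebraMap K B) D.d)
    rw [hπK] at l1 l2 l1' l2'
    have h1 : mapP (π : B →+* K) (Φ (map2 (algebraMap K B) a0) -
        Φ (map2 (algebraMap K B) D.d) * w) = 0 := by
      rw [map_sub, map_mul, l1, l2, ha0, sub_self]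
    have h2 := hThv _ ((hT.inP_map π _).2 h1)
    have h3 := (hT.inP_map π _).1 h2
    rw [map_sub, map_mul, hTh, hTh, map_sub, map_mul, l1', l2', ha0] at h3
    funext i
    have h4 := congrFun h3 i
    simp only [Pi.sub_apply, Pi.mul_apply, Pi.zero_apply] at h4
    have h5 : D.φ D.d i * (mapP (π : B →+* K) w i - mapP (π : B →+* K) (Th w) i) = 0 := by
      rw [mul_sub]
      exact h4
    rcases mul_eq_zero.1 h5 with h6 | h6
    · exact absurd h6 (D.hd i)
    · exact (sub_eq_zero.1 h6).symm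
  have hidem : ∀ i, Th (Pi.single i 1) = Pi.single i 1 := by
    intro i
    have h1 : Th (Pi.single i 1) * Th (Pi.single i 1) = Th (Pi.single i 1) := by
      rw [← map_mul]
      congr 1
      rw [← Pi.single_mul, one_mul]
    funext j
    have h2 : Th (Pi.single i 1) j * Th (Pi.single i 1) j = Th (Pi.single i 1) j := congrFun h1 j
    have h3 : Th (Pi.single i 1) j = 0 ∨ Th (Pi.single i 1) j = 1 := by
      have : Th (Pi.single i 1) j * (Th (Pi.single i 1) j - 1) = 0 := by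
        rw [mul_sub, h2, mul_one, sub_self]
      rcases mul_eq_zero.1 this with h | h
      · exact Or.inl h
      · exact Or.inr (sub_eq_zero.1 h)
    have h4 := congrFun (hmod (Pi.single i 1)) j
    rw [mapP_apply, mapP_apply] at h4
    by_cases hij : j = i
    · subst hij
      rw [Pi.single_eq_same] at h4 ⊢
      rcases h3 with h | h
      · rw [h, map_zero, map_one] at h4
        exact absurd h4 zero_ne_one
      · exact h
    · rw [Pi.single_eq_of_ne hij] at h4 ⊢
      rcases h3 with h | h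
      · exact h
      · rw [h, map_zero, map_one] at h4
        exact absurd h4 one_ne_zero
  have hloc : ∀ (w : Fin r → B⟦X⟧) (i : Fin r), Th w i = Th (fun _ => w i) i := by
    intro w i
    have h1 : Th w * Pi.single i 1 = Th (fun _ => w i) * Pi.single i 1 := by
      conv_lhs => rw [← hidem i, ← map_mul]
      conv_rhs => rw [← hidem i, ← map_mul]
      congr 1
      funext j
      by_cases hij : j = i
      · subst hij; rfl
      · simp [Pi.single_eq_of_ne hij]
    have h2 := congrFun h1 i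
    simpa using h2
  refine ⟨fun i =>
    { toFun := fun g => Th (fun _ => g) i
      map_one' := ?_
      map_mul' := ?_
      map_zero' := ?_
      map_add' := ?_
      commutes' := ?_ }, ?_, ?_⟩
  · have : (fun _ : Fin r => (1 : B⟦X⟧)) = 1 := rfl
    rw [this, map_one]; rfl
  · intro x y
    have : (fun _ : Fin r => x * y) = (fun _ : Fin r => x) * (fun _ : Fin r => y) := rfl
    rw [this, map_mul]; rfl
  · have : (fun _ : Fin r => (0 : B⟦X⟧)) = 0 := rfl
    rw [this, map_zero]; rfl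
  · intro x y
    have : (fun _ : Fin r => x + y) = (fun _ : Fin r => x) + (fun _ : Fin r => y) := rfl
    rw [this, map_add]; rfl
  · intro b
    exact congrFun (hThB b) i
  · intro i
    have h1 := congrFun (hmod (fun _ => X)) i
    rw [mapP_apply, mapP_apply] at h1
    show PowerSeries.map (π : B →+* K) (Th (fun _ => X) i) = X
    rw [h1]
    simp
  · intro h i
    show Φ' h i = Th (fun _ => Φ h i) i
    rw [← hloc, hTh]

end ISO

end Pool.Agent.Helper819.DC
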