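import Mathlib

set_option autoImplicit false

open PowerSeries IsLocalRing TensorProduct

universe u

namespace Pool.Agent.Helper819.DC.L1A1

theorem coeff_minpoly_inv {E L : Type u} [Field E] [Field L] [Algebra E L] [FiniteDimensional E L]
    (b : L) (hb : b ≠ 0) :
    (minpoly E b⁻¹).coeff 0 = ((minpoly E b).coeff 0)⁻¹ := by
  -- for every nonzero x the reversed polynomial
  have key : ∀ x : L, x ≠ 0 →
      ∃ R : Polynomial E, R.Monic ∧ Polynomial.aeval x⁻¹ R = 0 ∧
        R.natDegree = (minpoly E x).natDegree ∧ R.coeff 0 = ((minpoly E x).coeff 0)⁻¹ := by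
    intro x hx
    have hint : IsIntegral E x := Algebra.IsIntegral.isIntegral x
    have h0 : (minpoly E x).coeff 0 ≠ 0 := minpoly.coeff_zero_ne_zero hint hx
    have hmon := minpoly.monic hint
    have htr : (minpoly E x).natTrailingDegree = 0 :=
      Polynomial.natTrailingDegree_eq_zero.2 (Or.inr h0)
    have htc : (minpoly E x).trailingCoeff = (minpoly E x).coeff 0 := by
      rw [Polynomial.trailingCoeff, htr]
    refine ⟨Polynomial.C ((minpoly E x).coeff 0)⁻¹ * (minpoly E x).reverse, ?_, ?_, ?_, ?_⟩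
    · rw [Polynomial.Monic, Polynomial.leadingCoeff_mul, Polynomial.leadingCoeff_C,
        Polynomial.reverse_leadingCoeff, htc, inv_mul_cancel₀ h0]
    · rw [map_mul]
      have : Polynomial.aeval x⁻¹ (minpoly E x).reverse = 0 := by
        let _ : Invertible x := invertibleOfNonzero hx
        have h1 := (Polynomial.eval₂_reverse_eq_zero_iff (algebraMap E L) x (minpoly E x)).2
          (minpoly.aeval E x)
        rw [invOf_eq_inv] at h1
        exact h1
      rw [this, mul_zero]
    · rw [Polynomial.natDegree_C_mul (inv_ne_zero h0), Polynomial.reverse_natDegree, htr, Nat.sub_zero]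
    · rw [Polynomial.coeff_C_mul, Polynomial.coeff_zero_reverse, hmon.leadingCoeff, mul_one]
  have hle : ∀ x : L, x ≠ 0 → (minpoly E x⁻¹).natDegree ≤ (minpoly E x).natDegree := by
    intro x hx
    obtain ⟨R, h1, h2, h3, -⟩ := key x hx
    rw [← h3]
    exact Polynomial.natDegree_le_of_dvd (minpoly.dvd E _ h2) h1.ne_zero
  obtain ⟨R, h1, h2, h3, h4⟩ := key b hb
  have hdeg : R.natDegree ≤ (minpoly E b⁻¹).natDegree := by
    rw [h3]
    have := hle b⁻¹ (inv_ne_zero hb)
    rwa [inv_inv] at this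
  have hR : R = minpoly E b⁻¹ :=
    Polynomial.eq_of_monic_of_dvd_of_natDegree_le (minpoly.monic (Algebra.IsIntegral.isIntegral _)) h1
      (minpoly.dvd E _ h2) hdeg
  rw [← hR, h4]

theorem lemma1 {K : Type u} [Field K] {E : Type u} [Field E] [Algebra K⟦X⟧ E]
    [IsFractionRing K⟦X⟧ E] (P : Polynomial E) (hP : P.Monic) (hirr : Irreducible P)
    (a : K⟦X⟧) (ha : algebraMap K⟦X⟧ E a = P.coeff 0) :
    ∃ Q : Polynomial K⟦X⟧, Q.Monic ∧ Q.map (algebraMap K⟦X⟧ E) = P := by
  classical
  have hadic : IsAdicComplete (maximalIdeal K⟦X⟧) K⟦X⟧ := by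
    rw [PowerSeries.maximalIdeal_eq_span_X]
    infer_instance
  have hinj : Function.Injective (algebraMap K⟦X⟧ E) := IsFractionRing.injective _ _
  have hXirr : Irreducible (X : K⟦X⟧) := PowerSeries.X_irreducible
  have hX0 : ∀ k : ℕ, algebraMap K⟦X⟧ E (X ^ k) ≠ 0 := fun k => by
    rw [Ne, ← map_zero (algebraMap K⟦X⟧ E), hinj.eq_iff]
    exact pow_ne_zero _ hXirr.ne_zero
  have hex : ∃ k : ℕ, ∃ Q : Polynomial K⟦X⟧, Q.map (algebraMap K⟦X⟧ E) =
      Polynomial.C (algebraMap K⟦X⟧ E (X ^ k)) * P := by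
    obtain ⟨c, hc, hQ⟩ := IsLocalization.integerNormalization_spec (nonZeroDivisors K⟦X⟧) P
    obtain ⟨k, u, hu⟩ := IsDiscreteValuationRing.associated_pow_irreducible
      (nonZeroDivisors.ne_zero hc) hXirr
    refine ⟨k, Polynomial.C (u : K⟦X⟧) *
      IsLocalization.integerNormalization (nonZeroDivisors K⟦X⟧) P, ?_⟩
    rw [Polynomial.map_mul, hQ, Polynomial.map_C, ← hu, map_mul, map_mul, Algebra.smul_def]
    rw [Polynomial.algebraMap_apply]
    ring
  obtain ⟨Q, hQ⟩ := Nat.find_spec hex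
  have hmin := fun {m : ℕ} => Nat.find_min hex (m := m)
  obtain ⟨k, hk⟩ : ∃ k, k = Nat.find hex := ⟨_, rfl⟩
  rw [← hk] at hQ hmin
  rcases Nat.eq_zero_or_pos k with h0 | hpos
  · rw [h0, pow_zero, map_one, map_one, one_mul] at hQ
    exact ⟨Q, Polynomial.monic_of_injective hinj (by rw [hQ]; exact hP), hQ⟩
  · exfalso
    have hne : (Q : K⟦X⟧⟦X⟧).map (residue K⟦X⟧) ≠ 0 := by
      intro h0
      have hdvd : Polynomial.C (X : K⟦X⟧) ∣ Q := by
        rw [Polynomial.C_dvd_iff_dvd_coeff]
        intro i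
        have h1 := congrArg (PowerSeries.coeff i) h0
        rw [PowerSeries.coeff_map, Polynomial.coeff_coe, map_zero, IsLocalRing.residue_eq_zero_iff,
          PowerSeries.maximalIdeal_eq_span_X, Ideal.mem_span_singleton] at h1
        exact h1
      obtain ⟨Q1, rfl⟩ := hdvd
      refine hmin (m := k - 1) (by omega) ⟨Q1, ?_⟩
      rw [Polynomial.map_mul, Polynomial.map_C] at hQ
      have h2 : (X : K⟦X⟧) ^ k = X * X ^ (k - 1) := by
        rw [← pow_succ']
        congr 1
        omega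
      rw [h2, map_mul, map_mul, mul_assoc] at hQ
      refine mul_left_cancel₀ ?_ hQ
      rw [Ne, Polynomial.C_eq_zero]
      have := hX0 1
      rwa [pow_one] at this
    obtain ⟨f, h, H⟩ := PowerSeries.exists_isWeierstrassFactorization hne
    have hfQ : f ∣ Q := by
      have hW := H.isDistinguishedAt.isWeierstrassDivisorAt'
      have hdeg : f.natDegree = (((f : K⟦X⟧⟦X⟧)).map
          (Ideal.Quotient.mk (maximalIdeal K⟦X⟧))).order.toNat :=
by
        have h5 := H.isDistinguishedAt.coe_natDegree_eq_order_map (f : K⟦X⟧⟦X⟧) 1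
          (by
            rw [PowerSeries.constantCoeff_one, ← Ideal.ne_top_iff_one]
            exact Ideal.IsMaximal.ne_top inferInstance)
          (by simp)
        rw [← h5]
        rfl
      have hmod : (Q %ₘ f).degree < (((((f : K⟦X⟧⟦X⟧)).map
          (Ideal.Quotient.mk (maximalIdeal K⟦X⟧))).order.toNat : ℕ) : WithBot ℕ) := by
        rw [← hdeg, ← Polynomial.degree_eq_natDegree H.isDistinguishedAt.monic.ne_zero]
        exact Polynomial.degree_modByMonic_lt _ H.isDistinguishedAt.monic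
      have h0d : (0 : Polynomial K⟦X⟧).degree < (((((f : K⟦X⟧⟦X⟧)).map
          (Ideal.Quotient.mk (maximalIdeal K⟦X⟧))).order.toNat : ℕ) : WithBot ℕ) := by
        rw [Polynomial.degree_zero]
        exact WithBot.bot_lt_coe _
      have heq : (f : K⟦X⟧⟦X⟧) * h + ((0 : Polynomial K⟦X⟧) : K⟦X⟧⟦X⟧) =
          (f : K⟦X⟧⟦X⟧) * ((Q /ₘ f : Polynomial K⟦X⟧) : K⟦X⟧⟦X⟧) +
            ((Q %ₘ f : Polynomial K⟦X⟧) : K⟦X⟧⟦X⟧) := by
        rw [← H.eq_mul, Polynomial.coe_zero, add_zero, ← Polynomial.coe_mul, ← Polynomial.coe_add]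
        congr 1
        rw [add_comm]
        exact (Polynomial.modByMonic_add_div Q f).symm
      have h3 := (hW.eq_of_mul_add_eq_mul_add h0d hmod heq).2
      exact (Polynomial.modByMonic_eq_zero_iff_dvd H.isDistinguishedAt.monic).1 h3.symm
    have hfmon : f.Monic := H.isDistinguishedAt.monic
    have hfP : f.map (algebraMap K⟦X⟧ E) ∣ P := by
      obtain ⟨Q2, hQ2⟩ := hfQ
      have h1 : f.map (algebraMap K⟦X⟧ E) ∣ Polynomial.C (algebraMap K⟦X⟧ E (X ^ k)) * P := by
        rw [← hQ, hQ2, Polynomial.map_mul]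
        exact dvd_mul_right _ _
      have hu : IsUnit (Polynomial.C (algebraMap K⟦X⟧ E (X ^ k))) :=
        Polynomial.isUnit_C.2 (hX0 k).isUnit
      exact hu.dvd_mul_left.1 h1
    rcases hirr.dvd_iff.1 hfP with hunit | hass
    · have hf1 : f.map (algebraMap K⟦X⟧ E) = 1 := (hfmon.map _).eq_one_of_isUnit hunit
      have hf : f = 1 := by
        apply Polynomial.map_injective _ hinj
        rw [hf1, Polynomial.map_one]
      have hQh : (Q : K⟦X⟧⟦X⟧) = h := by
        have := H.eq_mul
        rw [hf, Polynomial.coe_one, one_mul] at this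
        exact this
      have hcu : IsUnit (Q.coeff 0) := by
        have h1 := PowerSeries.isUnit_iff_constantCoeff.1 H.isUnit
        rw [← hQh] at h1
        rwa [← PowerSeries.coeff_zero_eq_constantCoeff_apply, Polynomial.coeff_coe] at h1
      have hc : Q.coeff 0 = X ^ k * a := by
        apply hinj
        rw [← Polynomial.coeff_map, hQ, Polynomial.coeff_C_mul, ← ha, map_mul]
      rw [hc] at hcu
      have h2 : IsUnit ((X : K⟦X⟧) ^ k) := isUnit_of_mul_isUnit_left hcu
      exact hXirr.not_isUnit ((isUnit_pow_iff hpos.ne').1 h2)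
    · have hPf : P = f.map (algebraMap K⟦X⟧ E) :=
        Polynomial.eq_of_monic_of_associated hP (hfmon.map _) hass
      refine hmin (m := 0) hpos ⟨f, ?_⟩
      rw [pow_zero, map_one, map_one, one_mul, ← hPf]

/-- The integral closure of `K[[x]]` in a finite extension of its fraction field is a valuation
ring. -/
theorem integral_or_inv {K : Type u} [Field K] {E L : Type u} [Field E] [Field L]
    [Algebra K⟦X⟧ E] [IsFractionRing K⟦X⟧ E] [Algebra E L] [Algebra K⟦X⟧ L]
    [IsScalarTower K⟦X⟧ E L] [FiniteDimensional E L] (b : L) :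
    IsIntegral K⟦X⟧ b ∨ IsIntegral K⟦X⟧ b⁻¹ := by
  have main : ∀ x : L, ∀ a : K⟦X⟧, algebraMap K⟦X⟧ E a = (minpoly E x).coeff 0 →
      IsIntegral K⟦X⟧ x := by
    intro x a ha
    have hint : IsIntegral E x := Algebra.IsIntegral.isIntegral x
    obtain ⟨Q, hQ1, hQ2⟩ := lemma1 (minpoly E x) (minpoly.monic hint) (minpoly.irreducible hint) a ha
    refine ⟨Q, hQ1, ?_⟩
    have h1 := minpoly.aeval E x
    rw [← hQ2, Polynomial.aeval_map_algebraMap] at h1
    exact h1
  by_cases hb : b = 0
  · left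
    rw [hb]
    exact isIntegral_zero
  rcases ValuationRing.isInteger_or_isInteger K⟦X⟧ ((minpoly E b).coeff 0) with h | h
  · obtain ⟨a, ha⟩ := h
    exact Or.inl (main b a ha)
  · obtain ⟨a, ha⟩ := h
    refine Or.inr (main b⁻¹ a ?_)
    rw [coeff_minpoly_inv b hb]
    exact ha

end Pool.Agent.Helper819.DC.L1A1
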