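import Mathlib

set_option autoImplicit false

open PowerSeries IsLocalRing TensorProduct

universe u

namespace Pool.Agent.Helper819.DC.L1A2

namespace ClosureIso

lemma coind {K ι : Type*} [Field K] (u : K⟦X⟧) (hu : (X : K⟦X⟧) ∣ u) (D : ι → K⟦X⟧)
    (h : ∀ i, ∃ j, D i = u * D j) (i : ι) : D i = 0 := by
  have key : ∀ n : ℕ, ∀ i, (X : K⟦X⟧) ^ n ∣ D i := by
    intro n
    induction n with
    | zero => intro i; simp
    | succ n ih =>
      intro i
      obtain ⟨j, hj⟩ := h i
      rw [hj, pow_succ']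
      exact mul_dvd_mul hu (ih j)
  ext n
  exact (PowerSeries.X_pow_dvd_iff.mp (key (n + 1) i)) n (Nat.lt_succ_self n)

section core

variable {K B : Type*} [Field K] [CommRing B] [IsDomain B] [ValuationRing B] [Algebra K⟦X⟧ B]

/-- the constants -/
noncomputable def kap (K B : Type*) [Field K] [CommRing B] [Algebra K⟦X⟧ B] : K →+* B :=
  (algebraMap K⟦X⟧ B).comp C

lemma exists_w (xB : B) (h0 : xB ≠ 0) (hnu : ¬ IsUnit xB)
    (H1 : ∃ n : ℕ, ¬ ∃ b : ℕ → B, (∀ i ≤ n, b i ∣ xB ∧ ¬ xB ∣ b i) ∧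
      ∀ i j, i < j → j ≤ n → b j ∣ b i ∧ ¬ b i ∣ b j) :
    ∃ w : B, ¬ IsUnit w ∧ w ≠ 0 ∧ (∀ b : B, ¬ IsUnit b → w ∣ b) := by
  by_cases hS : ∃ b : B, ¬ IsUnit b ∧ b ∣ xB ∧ ¬ xB ∣ b
  · by_cases hm : ∃ w : B, (¬ IsUnit w ∧ w ∣ xB ∧ ¬ xB ∣ w) ∧
        ∀ b : B, (¬ IsUnit b ∧ b ∣ xB ∧ ¬ xB ∣ b) → w ∣ b
    · obtain ⟨w, ⟨hw1, hw2, hw3⟩, hw⟩ := hm
      refine ⟨w, hw1, ?_, ?_⟩
      · rintro rfl
        exact h0 (zero_dvd_iff.mp hw2)
      · intro b hb
        rcases ValuationRing.dvd_total b w with h | h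
        · exact hw b ⟨hb, h.trans hw2, fun h' => hw3 (h'.trans h)⟩
        · exact h
    · exfalso
      push Not at hm
      obtain ⟨n, hn⟩ := H1
      apply hn
      obtain ⟨b0, hb0⟩ := hS
      let S := {b : B // ¬ IsUnit b ∧ b ∣ xB ∧ ¬ xB ∣ b}
      have hstep : ∀ s : S, ∃ t : S, (t : B) ∣ s ∧ ¬ (s : B) ∣ t := by
        rintro ⟨s, hs⟩
        obtain ⟨b, hb, hsb⟩ := hm s hs
        rcases ValuationRing.dvd_total b s with h | h
        · exact ⟨⟨b, hb⟩, h, hsb⟩
        · exact absurd h hsb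
      choose f hf1 hf2 using hstep
      let g : ℕ → S := fun k => f^[k] ⟨b0, hb0⟩
      have hg : ∀ k, g (k + 1) = f (g k) := fun k => Function.iterate_succ_apply' f k _
      have hle : ∀ i j, i ≤ j → (g j : B) ∣ g i := by
        intro i j hij
        induction hij with
        | refl => exact dvd_rfl
        | step _ ih =>
          rw [Nat.succ_eq_add_one, hg]
          exact (hf1 _).trans ih
      refine ⟨fun k => g k, fun i _ => ⟨(g i).2.2.1, (g i).2.2.2⟩, fun i j hij _ => ⟨hle i j hij.le, ?_⟩⟩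
      intro h
      have h1 : (g i : B) ∣ g (i + 1) := h.trans (hle (i + 1) j hij)
      rw [hg] at h1
      exact hf2 _ h1
  · push Not at hS
    refine ⟨xB, hnu, h0, fun b hb => ?_⟩
    rcases ValuationRing.dvd_total b xB with h | h
    · exact hS b hb h
    · exact h

lemma exists_e (xB : B) (hnu : ¬ IsUnit xB)
    (H1 : ∃ n : ℕ, ¬ ∃ b : ℕ → B, (∀ i ≤ n, b i ∣ xB ∧ ¬ xB ∣ b i) ∧
      ∀ i j, i < j → j ≤ n → b j ∣ b i ∧ ¬ b i ∣ b j)
    (w : B) (hw : ¬ IsUnit w) (hw0 : w ≠ 0) (hwd : ∀ b : B, ¬ IsUnit b → w ∣ b) :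
    ∃ (e : ℕ) (v v' : B), xB = w ^ (e + 1) * v ∧ v * v' = 1 := by
  classical
  have hex : ∃ i, xB ∣ w ^ i := by
    by_contra hcon
    push Not at hcon
    obtain ⟨n, hn⟩ := H1
    apply hn
    have hd : ∀ i, w ^ i ∣ xB := by
      intro i
      rcases ValuationRing.dvd_total (w ^ i) xB with h | h
      · exact h
      · exact absurd h (hcon i)
    refine ⟨fun i => w ^ (n + 1 - i), fun i _ => ⟨hd _, hcon _⟩, fun i j hij hj => ?_⟩
    rw [pow_dvd_pow_iff hw0 hw, pow_dvd_pow_iff hw0 hw]
    omega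
  obtain ⟨e, he, hmin⟩ : ∃ e, xB ∣ w ^ e ∧ ∀ m < e, ¬ xB ∣ w ^ m :=
    ⟨Nat.find hex, Nat.find_spec hex, fun m hm => Nat.find_min hex hm⟩
  rcases e with _ | e
  · exact absurd (isUnit_of_dvd_one (by simpa using he)) hnu
  · have h1 := hmin e (Nat.lt_succ_self e)
    have h2 : w ^ e ∣ xB := by
      rcases ValuationRing.dvd_total (w ^ e) xB with h | h
      · exact h
      · exact absurd h h1
    obtain ⟨y, hy⟩ := h2
    have hyn : ¬ IsUnit y := by
      rintro ⟨y', rfl⟩
      apply h1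
      refine ⟨(y'⁻¹ : Bˣ), ?_⟩
      rw [hy, mul_assoc, Units.mul_inv, mul_one]
    obtain ⟨v, hv⟩ := hwd y hyn
    have hx : xB = w ^ (e + 1) * v := by rw [hy, hv, pow_succ, mul_assoc]
    obtain ⟨z, hz⟩ := he
    refine ⟨e, v, z, hx, ?_⟩
    have hwe : w ^ (e + 1) ≠ 0 := pow_ne_zero _ hw0
    apply mul_left_cancel₀ hwe
    rw [mul_one, ← mul_assoc, ← hx, ← hz]

lemma core_iso (h0 : algebraMap K⟦X⟧ B X ≠ 0) (hnu : ¬ IsUnit (algebraMap K⟦X⟧ B X))
    (H1 : ∃ n : ℕ, ¬ ∃ b : ℕ → B, (∀ i ≤ n, b i ∣ algebraMap K⟦X⟧ B X ∧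
        ¬ algebraMap K⟦X⟧ B X ∣ b i) ∧
      ∀ i j, i < j → j ≤ n → b j ∣ b i ∧ ¬ b i ∣ b j)
    (H2 : ∀ b : B, b ≠ 0 → ∃ k : ℕ, b ∣ (algebraMap K⟦X⟧ B X) ^ k)
    (H3 : ∀ b : B, ∃ c : K, ¬ IsUnit (b - kap K B c)) :
    ∃ e : B ≃+* K⟦X⟧, ∀ c : K, e (algebraMap K⟦X⟧ B (C c)) = C c := by
  classical
  obtain ⟨w, hw, hw0, hwd⟩ := exists_w _ h0 hnu H1
  obtain ⟨e, v, v', hx, hv⟩ := exists_e _ hnu H1 w hw hw0 hwd
  set xB := algebraMap K⟦X⟧ B X with hxB
  set κ := kap K B with hκ
  -- separatedness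
  have hsep : ∀ b : B, (∀ k : ℕ, w ^ k ∣ b) → b = 0 := by
    intro b hb
    by_contra hb0
    obtain ⟨k, hk⟩ := H2 b hb0
    have h1 : w ^ ((e + 1) * k + 1) ∣ w ^ ((e + 1) * k) := by
      have h2 : w ^ ((e + 1) * k + 1) ∣ xB ^ k := (hb _).trans hk
      have h3 : w ^ ((e + 1) * k) = xB ^ k * v' ^ k := by
        rw [hx, mul_pow, ← pow_mul, mul_assoc, ← mul_pow, hv, one_pow, mul_one]
      rw [h3]
      exact h2.trans (dvd_mul_right _ _)
    rw [pow_dvd_pow_iff hw0 hw] at h1
    omega
  -- digits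
  have hdig : ∀ b : B, ∃ c : K, ∃ t : B, b = κ c + w * t := by
    intro b
    obtain ⟨c, hc⟩ := H3 b
    obtain ⟨t, ht⟩ := hwd _ hc
    exact ⟨c, t, by rw [← ht]; ring⟩
  choose c T hcT using hdig
  have huniq : ∀ (a : K) (t : B), c (κ a + w * t) = a ∧ T (κ a + w * t) = t := by
    intro a t
    set b := κ a + w * t with hb
    have h1 := hcT b
    have h2 : κ (a - c b) = w * (T b - t) := by
      rw [map_sub]
      have : κ a + w * t = κ (c b) + w * T b := by rw [← h1]
      linear_combination this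
    have h3 : a = c b := by
      by_contra hne
      apply hw
      have h4 : IsUnit (κ (a - c b)) := (isUnit_iff_ne_zero.mpr (sub_ne_zero.mpr hne)).map κ
      rw [h2] at h4
      exact isUnit_of_mul_isUnit_left h4
    refine ⟨h3.symm, ?_⟩
    rw [← h3, sub_self, map_zero] at h2
    rcases mul_eq_zero.mp h2.symm with h | h
    · exact absurd h hw0
    · exact (sub_eq_zero.mp h)
  let φ : B → K⟦X⟧ := fun b => PowerSeries.mk (fun k => c (T^[k] b))
  have hφ : ∀ b, φ b = C (c b) + X * φ (T b) := by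
    intro b
    ext n
    rcases n with _ | n
    · simp [φ]
    · simp [φ, PowerSeries.coeff_succ_X_mul]
  have hφ' : ∀ (a : K) (t : B), φ (κ a + w * t) = C a + X * φ t := by
    intro a t
    rw [hφ, (huniq a t).1, (huniq a t).2]
  have hφ0 : φ 0 = 0 := by
    refine coind (ι := Unit) (X : K⟦X⟧) dvd_rfl (fun _ => φ 0) (fun _ => ⟨(), ?_⟩) ()
    have := hφ' 0 0
    simpa using this
  have hφκ : ∀ a : K, φ (κ a) = C a := by
    intro a
    have := hφ' a 0
    simpa [hφ0] using this
  have hφ1 : φ 1 = 1 := by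
    have := hφκ 1
    simpa using this
  have hφw : ∀ t : B, φ (w * t) = X * φ t := by
    intro t
    have := hφ' 0 t
    simpa using this
  have hφadd : ∀ a b : B, φ (a + b) = φ a + φ b := by
    have := coind (ι := B × B) (X : K⟦X⟧) dvd_rfl (fun p => φ (p.1 + p.2) - (φ p.1 + φ p.2))
      (by
        rintro ⟨a, b⟩
        refine ⟨(T a, T b), ?_⟩
        have h1 : a + b = κ (c a + c b) + w * (T a + T b) := by
          conv_lhs => rw [hcT a, hcT b]
          rw [map_add]; ring
        have h2 : φ (a + b) = C (c a + c b) + X * φ (T a + T b) := by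
          rw [h1, hφ']
        simp only
        rw [h2, hφ a, hφ b, map_add]
        ring)
    intro a b
    exact sub_eq_zero.mp (this (a, b))
  have hφsmul : ∀ (k : K) (b : B), φ (κ k * b) = C k * φ b := by
    intro k
    have := coind (ι := B) (X : K⟦X⟧) dvd_rfl (fun b => φ (κ k * b) - C k * φ b)
      (by
        intro b
        refine ⟨T b, ?_⟩
        have h1 : κ k * b = κ (k * c b) + w * (κ k * T b) := by
          conv_lhs => rw [hcT b]
          rw [map_mul]; ring
        have h2 : φ (κ k * b) = C (k * c b) + X * φ (κ k * T b) := by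
          rw [h1, hφ']
        rw [h2, hφ b, map_mul]
        ring)
    intro b
    exact sub_eq_zero.mp (this b)
  have hφmul : ∀ a b : B, φ (a * b) = φ a * φ b := by
    have := coind (ι := B × B) (X : K⟦X⟧) dvd_rfl (fun p => φ (p.1 * p.2) - (φ p.1 * φ p.2))
      (by
        rintro ⟨a, b⟩
        refine ⟨(T a, b), ?_⟩
        have h1 : a * b = κ (c a) * b + w * (T a * b) := by
          conv_lhs => rw [hcT a]
          ring
        have h2 : φ (a * b) = C (c a) * φ b + X * φ (T a * b) := by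
          rw [h1, hφadd, hφsmul, hφw]
        simp only
        rw [h2, hφ a]
        ring)
    intro a b
    exact sub_eq_zero.mp (this (a, b))
  let Φ : B →+* K⟦X⟧ :=
    { toFun := φ, map_one' := hφ1, map_mul' := hφmul, map_zero' := hφ0, map_add' := hφadd }
  have hinj : Function.Injective Φ := by
    rw [injective_iff_map_eq_zero]
    intro b hb
    apply hsep
    have key : ∀ k : ℕ, ∀ b : B, φ b = 0 → w ^ k ∣ b := by
      intro k
      induction k with
      | zero => intro b _; simp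
      | succ k ih =>
        intro b hb
        have h1 := hφ b
        rw [hb] at h1
        have h2 : c b = 0 := by
          have := congrArg (PowerSeries.constantCoeff) h1
          simpa using this.symm
        rw [h2, map_zero, zero_add] at h1
        have h3 : φ (T b) = 0 := by
          rcases mul_eq_zero.mp h1.symm with h | h
          · exact absurd h PowerSeries.X_ne_zero
          · exact h
        have h4 := hcT b
        rw [h2, map_zero, zero_add] at h4
        rw [h4, pow_succ']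
        exact mul_dvd_mul_left _ (ih _ h3)
    exact fun k => key k b hb
  have hsurj : Function.Surjective Φ := by
    have hu : φ xB = X ^ (e + 1) * φ v := by
      have hwp : ∀ k : ℕ, ∀ t, φ (w ^ k * t) = X ^ k * φ t := by
        intro k
        induction k with
        | zero => intro t; simp
        | succ k ih => intro t; rw [pow_succ', mul_assoc, hφw, ih, pow_succ', mul_assoc]
      rw [hx, hwp]
    have hvv : φ v * φ v' = 1 := by rw [← hφmul, hv, hφ1]
    let sh : K⟦X⟧ → K⟦X⟧ := fun p => PowerSeries.mk (fun k => PowerSeries.coeff (k + (e + 1)) p)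
    let R : K⟦X⟧ → K⟦X⟧ := fun p => φ v' * sh p
    have hdec : ∀ p : K⟦X⟧, p = (∑ i ∈ Finset.range (e + 1), X ^ i * C (PowerSeries.coeff i p)) +
        φ xB * R p := by
      intro p
      have h1 : φ xB * R p = X ^ (e + 1) * sh p := by
        rw [hu]
        show X ^ (e + 1) * φ v * (φ v' * sh p) = _
        calc X ^ (e + 1) * φ v * (φ v' * sh p) = X ^ (e + 1) * (φ v * φ v') * sh p := by ring
          _ = _ := by rw [hvv, mul_one]
      rw [h1]
      ext m
      rw [map_add, map_sum, PowerSeries.coeff_X_pow_mul']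
      simp only [PowerSeries.coeff_X_pow_mul', PowerSeries.coeff_C, sh, PowerSeries.coeff_mk]
      by_cases hm : e + 1 ≤ m
      · rw [if_pos hm, Nat.sub_add_cancel hm, Finset.sum_eq_zero, zero_add]
        intro i hi
        rw [Finset.mem_range] at hi
        rw [if_pos (by omega), if_neg (by omega)]
      · rw [if_neg hm, add_zero, Finset.sum_eq_single m]
        · simp
        · intro i hi him
          by_cases h : i ≤ m
          · rw [if_pos h, if_neg (by omega)]
          · rw [if_neg h]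
        · intro hmm
          rw [Finset.mem_range] at hmm
          omega
    let f : ℕ → K⟦X⟧ → K⟦X⟧ := fun i p => PowerSeries.mk (fun k => PowerSeries.coeff i (R^[k] p))
    have hf : ∀ i p, f i p = C (PowerSeries.coeff i p) + X * f i (R p) := by
      intro i p
      ext n
      rcases n with _ | n
      · simp [f]
      · simp [f, PowerSeries.coeff_succ_X_mul]
    let bb : K⟦X⟧ → B := fun p => ∑ i ∈ Finset.range (e + 1), w ^ i * algebraMap K⟦X⟧ B (f i p)
    have hbb : ∀ p, bb p = (∑ i ∈ Finset.range (e + 1), w ^ i * κ (PowerSeries.coeff i p)) +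
        xB * bb (R p) := by
      intro p
      simp only [bb]
      rw [Finset.mul_sum, ← Finset.sum_add_distrib]
      refine Finset.sum_congr rfl fun i _ => ?_
      rw [hf i p, map_add, map_mul]
      show w ^ i * (κ _ + xB * _) = _
      ring
    have hΦw : Φ w = X := by
      have := hφw 1
      rw [mul_one, hφ1, mul_one] at this
      exact this
    have hΦ : ∀ p, Φ (bb p) = (∑ i ∈ Finset.range (e + 1), X ^ i * C (PowerSeries.coeff i p)) +
        φ xB * Φ (bb (R p)) := by
      intro p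
      rw [hbb p, map_add, map_mul, map_sum]
      congr 1
      refine Finset.sum_congr rfl fun i _ => ?_
      rw [map_mul, map_pow, hΦw]
      congr 1
      exact hφκ _
    have := coind (ι := K⟦X⟧) (φ xB) (by rw [hu, pow_succ']; exact ⟨X ^ e * φ v, by ring⟩)
      (fun p => Φ (bb p) - p)
      (by
        intro p
        refine ⟨R p, ?_⟩
        show Φ (bb p) - p = φ xB * (Φ (bb (R p)) - R p)
        rw [hΦ p]
        linear_combination -(hdec p))
    intro p
    exact ⟨bb p, sub_eq_zero.mp (this p)⟩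
  exact ⟨RingEquiv.ofBijective Φ ⟨hinj, hsurj⟩, fun a => hφκ a⟩

end core

section inst

variable {K : Type u} [Field K] {L : Type u} [Field L] [Algebra K⟦X⟧ L]

lemma val_ring (hval : ∀ b : L, IsIntegral K⟦X⟧ b ∨ IsIntegral K⟦X⟧ b⁻¹) :
    ValuationRing (integralClosure K⟦X⟧ L) := by
  have : PreValuationRing (integralClosure K⟦X⟧ L) := by
    refine ⟨fun a b => ?_⟩
    by_cases ha : (a : L) = 0
    · refine ⟨0, Or.inr ?_⟩
      apply Subtype.ext
      simp [ha]
    by_cases hb : (b : L) = 0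
    · refine ⟨0, Or.inl ?_⟩
      apply Subtype.ext
      simp [hb]
    rcases hval ((b : L) / a) with h | h
    · refine ⟨⟨(b : L) / (a : L), h⟩, Or.inl ?_⟩
      apply Subtype.ext
      show (a : L) * ((b : L) / (a : L)) = (b : L)
      field_simp
    · refine ⟨⟨((b : L) / (a : L))⁻¹, h⟩, Or.inr ?_⟩
      apply Subtype.ext
      show (b : L) * ((b : L) / (a : L))⁻¹ = (a : L)
      field_simp
  exact { toPreValuationRing := this }

lemma H2' [FaithfulSMul K⟦X⟧ L] (b : integralClosure K⟦X⟧ L) (hb : b ≠ 0) :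
    ∃ k : ℕ, b ∣ (algebraMap K⟦X⟧ (integralClosure K⟦X⟧ L) X) ^ k := by
  have hint : IsIntegral K⟦X⟧ b := Algebra.IsIntegral.isIntegral b
  have h1 := Ideal.comap_ne_bot_of_integral_mem (I := Ideal.span {b}) hb
    (Ideal.mem_span_singleton_self b) hint
  obtain ⟨a, ha, ha0⟩ := Submodule.exists_mem_ne_zero_of_ne_bot h1
  rw [Ideal.mem_comap, Ideal.mem_span_singleton] at ha
  obtain ⟨k, hk⟩ := IsDiscreteValuationRing.associated_pow_irreducible ha0
    (PowerSeries.X_prime (R := K)).irreducible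
  refine ⟨k, ha.trans ?_⟩
  rw [← map_pow]
  exact _root_.map_dvd _ hk.dvd

lemma H3' [IsAlgClosed K] {B : Type*} [CommRing B] [Algebra K⟦X⟧ B] [Algebra.IsIntegral K⟦X⟧ B]
    (hnu : ¬ IsUnit (algebraMap K⟦X⟧ B X)) (b : B) :
    ∃ c : K, ¬ IsUnit (b - kap K B c) := by
  by_contra hcon
  push Not at hcon
  have hint : IsIntegral K⟦X⟧ b := Algebra.IsIntegral.isIntegral b
  obtain ⟨P, hP, hPb⟩ := hint
  let I : Ideal B := Ideal.span {algebraMap K⟦X⟧ B X}
  let q : B →+* B ⧸ I := Ideal.Quotient.mk I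
  have hI : I ≠ ⊤ := by
    intro h
    exact hnu (Ideal.span_singleton_eq_top.mp h)
  have hq : q.comp (algebraMap K⟦X⟧ B) = (q.comp (kap K B)).comp (PowerSeries.constantCoeff) := by
    ext p
    show q (algebraMap K⟦X⟧ B p) = q (algebraMap K⟦X⟧ B (C (PowerSeries.constantCoeff p)))
    rw [Ideal.Quotient.eq, ← map_sub, Ideal.mem_span_singleton]
    apply _root_.map_dvd
    rw [PowerSeries.X_dvd_iff]
    simp
  have h0 : Polynomial.eval₂ (q.comp (algebraMap K⟦X⟧ B)) (q b) P = 0 := by
    rw [← Polynomial.hom_eval₂, hPb, map_zero]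
  rw [hq, ← Polynomial.eval₂_map] at h0
  have hsp := (IsAlgClosed.splits (P.map (PowerSeries.constantCoeff (R := K)))).eq_prod_roots_of_monic (hP.map _)
  rw [hsp] at h0
  change Polynomial.eval₂RingHom (q.comp (kap K B)) (q b) _ = 0 at h0
  rw [map_multiset_prod, Multiset.map_map] at h0
  have hu : IsUnit (Multiset.map (⇑(Polynomial.eval₂RingHom (q.comp (kap K B)) (q b)) ∘
      fun a => Polynomial.X - Polynomial.C a)
        (P.map (PowerSeries.constantCoeff (R := K))).roots).prod := by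
    apply Multiset.prod_induction
    · intro a b ha hb
      exact ha.mul hb
    · exact isUnit_one
    · intro a ha
      rw [Multiset.mem_map] at ha
      obtain ⟨c, _, rfl⟩ := ha
      have := (hcon c).map q
      simpa using this
  have hnt : Nontrivial (B ⧸ I) := Ideal.Quotient.nontrivial_iff.mpr hI
  rw [h0] at hu
  exact not_isUnit_zero hu

end inst

section chain

variable {K : Type u} [Field K] {B : Type u} [CommRing B] [IsDomain B] [ValuationRing B]
  [Algebra K⟦X⟧ B]

lemma chain_indep (h0 : algebraMap K⟦X⟧ B X ≠ 0)  (n : ℕ) (b : ℕ → B)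
    (hb : ∀ i ≤ n, b i ∣ algebraMap K⟦X⟧ B X ∧ ¬ algebraMap K⟦X⟧ B X ∣ b i)
    (hc : ∀ i j, i < j → j ≤ n → b j ∣ b i ∧ ¬ b i ∣ b j) :
    LinearIndependent K⟦X⟧ (fun i : Fin (n + 1) => b i) := by
  classical
  set xB := algebraMap K⟦X⟧ B X with hxB
  have hb0 : ∀ i ≤ n, b i ≠ 0 := by
    intro i hi h
    have := (hb i hi).1
    rw [h, zero_dvd_iff] at this
    exact h0 this
  -- main claim
  have main : ∀ a : Fin (n + 1) → K⟦X⟧, ∑ i, a i • b i = 0 → ∀ i, (X : K⟦X⟧) ∣ a i := by
    intro a ha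
    by_contra hcon
    push Not at hcon
    obtain ⟨j, hj, hmax⟩ : ∃ j : Fin (n + 1), ¬ (X : K⟦X⟧) ∣ a j ∧
        ∀ i, j < i → (X : K⟦X⟧) ∣ a i := by
      let S : Finset (Fin (n + 1)) := Finset.univ.filter fun i => ¬ (X : K⟦X⟧) ∣ a i
      have hS : S.Nonempty := by
        obtain ⟨i, hi⟩ := hcon
        exact ⟨i, by simp [S, hi]⟩
      refine ⟨S.max' hS, ?_, ?_⟩
      · have := S.max'_mem hS
        simpa [S] using this
      · intro i hi
        by_contra h
        have : i ∈ S := by simp [S, h]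
        exact absurd (S.le_max' i this) (not_le.mpr hi)
    have hterm : ∀ i : Fin (n + 1), i ≠ j → ∃ m : B, ¬ IsUnit m ∧ a i • b i = b j * m := by
      intro i hij
      have hjn : (j : ℕ) ≤ n := Nat.lt_succ_iff.mp j.2
      have hin : (i : ℕ) ≤ n := Nat.lt_succ_iff.mp i.2
      rcases lt_or_gt_of_ne hij with h | h
      · obtain ⟨⟨m, hm⟩, h2⟩ := hc i j h hjn
        refine ⟨algebraMap K⟦X⟧ B (a i) * m, ?_, ?_⟩
        · intro hu
          have hmu : IsUnit m := isUnit_of_mul_isUnit_right hu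
          apply h2
          obtain ⟨m', rfl⟩ := hmu
          refine ⟨(m'⁻¹ : Bˣ), ?_⟩
          rw [hm, mul_assoc, Units.mul_inv, mul_one]
        · rw [Algebra.smul_def, hm]; ring
      · obtain ⟨a', ha'⟩ := hmax i h
        obtain ⟨⟨m, hm⟩, h2⟩ := hb j hjn
        refine ⟨algebraMap K⟦X⟧ B a' * m * b i, ?_, ?_⟩
        · intro hu
          have hmu : IsUnit m := isUnit_of_mul_isUnit_right (isUnit_of_mul_isUnit_left hu)
          apply h2
          obtain ⟨m', rfl⟩ := hmu
          refine ⟨(m'⁻¹ : Bˣ), ?_⟩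
          rw [hm, mul_assoc, Units.mul_inv, mul_one]
        · rw [Algebra.smul_def, ha', map_mul, ← hxB, hm]; ring
    choose! m hm1 hm2 using hterm
    have hsum : ∑ i, a i • b i = b j * (algebraMap K⟦X⟧ B (a j) + ∑ i ∈ Finset.univ.erase j, m i) := by
      rw [← Finset.add_sum_erase _ _ (Finset.mem_univ j), mul_add, Finset.mul_sum]
      congr 1
      · rw [Algebra.smul_def, mul_comm]
      · exact Finset.sum_congr rfl fun i hi => hm2 i (Finset.ne_of_mem_erase hi)
    rw [ha] at hsum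
    have hz : algebraMap K⟦X⟧ B (a j) + ∑ i ∈ Finset.univ.erase j, m i = 0 := by
      rcases mul_eq_zero.mp hsum.symm with h | h
      · exact absurd h (hb0 j (Nat.lt_succ_iff.mp j.2))
      · exact h
    have hmem : ∑ i ∈ Finset.univ.erase j, m i ∈ maximalIdeal B := by
      apply Ideal.sum_mem
      intro i hi
      rw [mem_maximalIdeal]
      exact hm1 i (Finset.ne_of_mem_erase hi)
    have haj : IsUnit (algebraMap K⟦X⟧ B (a j)) := by
      apply IsUnit.map
      rw [PowerSeries.isUnit_iff_constantCoeff, isUnit_iff_ne_zero]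
      intro h
      exact hj (PowerSeries.X_dvd_iff.mpr h)
    have : algebraMap K⟦X⟧ B (a j) ∈ maximalIdeal B := by
      rw [eq_neg_of_add_eq_zero_left hz]
      exact neg_mem hmem
    rw [mem_maximalIdeal] at this
    exact this haj
  have all : ∀ N : ℕ, ∀ a : Fin (n + 1) → K⟦X⟧, ∑ i, a i • b i = 0 → ∀ i, (X : K⟦X⟧) ^ N ∣ a i := by
    intro N
    induction N with
    | zero => intro a _ i; simp
    | succ N ih =>
      intro a ha
      have h1 := main a ha
      choose a' ha' using h1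
      have h2 : ∑ i, a' i • b i = 0 := by
        have : xB * ∑ i, a' i • b i = 0 := by
          rw [← ha, Finset.mul_sum]
          refine Finset.sum_congr rfl fun i _ => ?_
          rw [ha' i, Algebra.smul_def, Algebra.smul_def, map_mul]
          ring
        rcases mul_eq_zero.mp this with h | h
        · exact absurd h h0
        · exact h
      intro i
      rw [ha' i, pow_succ']
      exact mul_dvd_mul_left _ (ih a' h2 i)
  rw [Fintype.linearIndependent_iff]
  intro a ha i
  ext k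
  exact (PowerSeries.X_pow_dvd_iff.mp (all (k + 1) a ha i)) k (Nat.lt_succ_self k)

end chain

end ClosureIso

/-- The integral closure of `K[[x]]` in a finite extension of its fraction field is isomorphic to
`K[[w]]` (`K` algebraically closed, any characteristic). -/
theorem closure_iso {K : Type u} [Field K] [IsAlgClosed K] {E L : Type u} [Field E] [Field L]
    [Algebra K⟦X⟧ E] [IsFractionRing K⟦X⟧ E] [Algebra E L] [Algebra K⟦X⟧ L]
    [IsScalarTower K⟦X⟧ E L] [FiniteDimensional E L]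
    (hval : ∀ b : L, IsIntegral K⟦X⟧ b ∨ IsIntegral K⟦X⟧ b⁻¹) :
    ∃ e : integralClosure K⟦X⟧ L ≃+* K⟦X⟧,
      ∀ c : K, e (algebraMap K⟦X⟧ (integralClosure K⟦X⟧ L) (C c)) = C c := by
  have hinjL : Function.Injective (algebraMap K⟦X⟧ L) := by
    rw [IsScalarTower.algebraMap_eq K⟦X⟧ E L]
    exact (algebraMap E L).injective.comp (IsFractionRing.injective K⟦X⟧ E)
  have hfs : FaithfulSMul K⟦X⟧ L := (faithfulSMul_iff_algebraMap_injective _ _).mpr hinjL
  have hinjB : Function.Injective (algebraMap K⟦X⟧ (integralClosure K⟦X⟧ L)) := by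
    intro a b h
    apply hinjL
    exact congrArg (fun t : integralClosure K⟦X⟧ L => (t : L)) h
  have hfsB : FaithfulSMul K⟦X⟧ (integralClosure K⟦X⟧ L) :=
    (faithfulSMul_iff_algebraMap_injective _ _).mpr hinjB
  have hvr : ValuationRing (integralClosure K⟦X⟧ L) := ClosureIso.val_ring hval
  have h0 : algebraMap K⟦X⟧ (integralClosure K⟦X⟧ L) X ≠ 0 := by
    rw [Ne, map_eq_zero_iff _ hinjB]
    exact PowerSeries.X_ne_zero
  have hnu : ¬ IsUnit (algebraMap K⟦X⟧ (integralClosure K⟦X⟧ L) X) := by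
    intro h
    have hl : IsLocalHom (algebraMap K⟦X⟧ (integralClosure K⟦X⟧ L)) := inferInstance
    exact (PowerSeries.X_prime (R := K)).not_isUnit (isUnit_of_map_unit _ _ h)
  refine ClosureIso.core_iso h0 hnu ?_ ClosureIso.H2' (ClosureIso.H3' hnu)
  refine ⟨Module.finrank E L, ?_⟩
  rintro ⟨b, hb, hc⟩
  have h1 := ClosureIso.chain_indep h0 _ b hb hc
  have h2 : LinearIndependent K⟦X⟧ (fun i : Fin (Module.finrank E L + 1) => ((b i : integralClosure K⟦X⟧ L) : L)) := by
    have := h1.map' (integralClosure K⟦X⟧ L).val.toLinearMap (by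
      rw [LinearMap.ker_eq_bot]
      exact Subtype.val_injective)
    exact this
  rw [LinearIndependent.iff_fractionRing K⟦X⟧ E] at h2
  have h3 := h2.fintype_card_le_finrank
  simp at h3

end Pool.Agent.Helper819.DC.L1A2
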