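import Pool.Agent.Helper819.DC.Core3

set_option autoImplicit false

open PowerSeries IsLocalRing TensorProduct

universe u

namespace Pool.Agent.Helper819.DC


namespace L1G

section aux
variable {K : Type u} [Field K]

theorem adicK : IsAdicComplete (maximalIdeal K) K := by
  rw [IsLocalRing.maximalIdeal_eq_bot]
  infer_instance

theorem cx_mem : (C X : K⟦X⟧⟦X⟧) ∈ maximalIdeal K⟦X⟧⟦X⟧ := by
  rw [IsLocalRing.mem_maximalIdeal, mem_nonunits_iff, PowerSeries.isUnit_iff_constantCoeff,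
    PowerSeries.constantCoeff_C, PowerSeries.isUnit_iff_constantCoeff]
  simp

theorem y_mem : (X : K⟦X⟧⟦X⟧) ∈ maximalIdeal K⟦X⟧⟦X⟧ := by
  rw [IsLocalRing.mem_maximalIdeal, mem_nonunits_iff, PowerSeries.isUnit_iff_constantCoeff]
  simp

theorem lin_mem (c : K) : (C X + C (C c) * X : K⟦X⟧⟦X⟧) ∈ maximalIdeal K⟦X⟧⟦X⟧ :=
  Ideal.add_mem _ cx_mem (Ideal.mul_mem_left _ _ y_mem)

theorem ex_L (hT : Tools.{u}) (c : K) : ∃ L : End2 K, L (C X) = C X + C (C c) * X ∧ L X = X := by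
  have := adicK (K := K)
  exact hT.end_exists (A := K) _ _ (lin_mem c) y_mem

theorem L_CC (L : End2 K) (a : K) : L (C (C a)) = C (C a) := by
  have h := L.commutes a
  have e : algebraMap K K⟦X⟧⟦X⟧ a = C (C a) := by
    rw [PowerSeries.algebraMap_apply, PowerSeries.algebraMap_apply]
    rfl
  rwa [e] at h

theorem L_inv (hB : BaseFacts.{u}) (c c' : K) (hcc : c + c' = 0) (L L' : End2 K)
    (h1 : L (C X) = C X + C (C c) * X) (h2 : L X = X)
    (h1' : L' (C X) = C X + C (C c') * X) (h2' : L' X = X) (f : K⟦X⟧⟦X⟧) : L' (L f) = f := by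
  have e1 : (L'.comp L) (C X) = C X := by
    rw [AlgHom.comp_apply, h1, map_add, map_mul, h1', h2', L_CC]
    have : (C (C c) + C (C c') : K⟦X⟧⟦X⟧) = 0 := by
      rw [← map_add, ← map_add, hcc, map_zero, map_zero]
    linear_combination X * this
  have e2 : (L'.comp L) X = X := by
    rw [AlgHom.comp_apply, h2, h2']
  have h := hB.hom_unique (A := K) ((L'.comp L : End2 K) : K⟦X⟧⟦X⟧ →+* K⟦X⟧⟦X⟧)
    (RingHom.id _) (fun a => by
      simp only [RingHom.id_apply]
      exact L_CC (L'.comp L) a)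
    (by
      change (L'.comp L) (C X) ∈ _
      rw [e1]
      exact cx_mem)
    (by
      change (L'.comp L) X ∈ _
      rw [e2]
      exact y_mem)
    (by
      change (L'.comp L) (C X) = C X
      exact e1)
    (by
      change (L'.comp L) X = X
      exact e2)
  have := congrArg (fun g : K⟦X⟧⟦X⟧ →+* K⟦X⟧⟦X⟧ => g f) h
  exact this

theorem dvd_of_map (h : K⟦X⟧⟦X⟧)
    (hh : PowerSeries.map (PowerSeries.constantCoeff (R := K)) h = 0) :
    ∃ g, h = C X * g := by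
  have hc : ∀ n, ∃ g : K⟦X⟧, PowerSeries.coeff n h = X * g := by
    intro n
    have : (X : K⟦X⟧) ∣ PowerSeries.coeff n h := by
      rw [PowerSeries.X_dvd_iff]
      have := congrArg (PowerSeries.coeff n) hh
      rw [PowerSeries.coeff_map, map_zero] at this
      exact this
    exact this
  choose g hg using hc
  refine ⟨PowerSeries.mk g, ?_⟩
  ext1 n
  rw [PowerSeries.coeff_C_mul, PowerSeries.coeff_mk, hg n]

/-- evaluation at `x = c t`, `y = t` -/
noncomputable def ev (L : End2 K) : K⟦X⟧⟦X⟧ →+* K⟦X⟧ :=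
  (PowerSeries.map (PowerSeries.constantCoeff (R := K))).comp (L : K⟦X⟧⟦X⟧ →+* K⟦X⟧⟦X⟧)

theorem ev_lin (c c' : K) (L : End2 K)
    (h1 : L (C X) = C X + C (C c) * X) (h2 : L X = X) :
    ev L (C X - C (C c') * X) = C (c - c') * X := by
  change PowerSeries.map (PowerSeries.constantCoeff (R := K)) (L (C X - C (C c') * X)) = _
  rw [map_sub, map_mul, h1, h2, L_CC]
  simp only [map_sub, map_add, map_mul, PowerSeries.map_C, PowerSeries.map_X,
    PowerSeries.constantCoeff_X, PowerSeries.constantCoeff_C, map_zero, zero_add]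
  ring

theorem fac (hT : Tools.{u}) (hB : BaseFacts.{u}) (f : K⟦X⟧⟦X⟧)
    (hf : ∀ (c : K) (L : End2 K), L (C X) = C X + C (C c) * X → L X = X → ev L f = 0)
    (s : Finset K) : ∃ g, f = (∏ c ∈ s, (C X - C (C c) * X)) * g := by
  classical
  induction s using Finset.induction_on with
  | empty => exact ⟨f, by simp⟩
  | insert c s hc ih =>
    obtain ⟨g, hg⟩ := ih
    obtain ⟨L, h1, h2⟩ := ex_L hT c
    obtain ⟨L', h1', h2'⟩ := ex_L hT (-c)
    have h0 := hf c L h1 h2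
    rw [hg, map_mul, map_prod] at h0
    have hne : ∏ c' ∈ s, ev L (C X - C (C c') * X) ≠ 0 := by
      rw [Finset.prod_ne_zero_iff]
      intro c' hc'
      rw [ev_lin c c' L h1 h2]
      apply mul_ne_zero
      · intro h
        have h3 : c - c' = 0 := by
          have := congrArg (PowerSeries.constantCoeff (R := K)) h
          simpa using this
        have : c = c' := sub_eq_zero.1 h3
        exact hc (this ▸ hc')
      · exact PowerSeries.X_ne_zero
    have hg0 : ev L g = 0 := (mul_eq_zero.1 h0).resolve_left hne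
    obtain ⟨g', hg'⟩ := dvd_of_map (L g) hg0
    have hinv := L_inv hB c (-c) (by ring) L L' h1 h2 h1' h2' g
    rw [hg', map_mul, h1'] at hinv
    refine ⟨L' g', ?_⟩
    rw [Finset.prod_insert hc]
    rw [hg]
    nth_rewrite 1 [← hinv]
    rw [map_neg, map_neg]
    ring

theorem prod_mem (s : Finset K) :
    (∏ c ∈ s, (C X - C (C c) * X : K⟦X⟧⟦X⟧)) ∈ maximalIdeal K⟦X⟧⟦X⟧ ^ s.card := by
  classical
  induction s using Finset.induction_on with
  | empty => simp
  | insert c s hc ih =>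
    rw [Finset.prod_insert hc, Finset.card_insert_of_notMem hc, pow_succ']
    exact Ideal.mul_mem_mul (Ideal.sub_mem _ cx_mem (Ideal.mul_mem_left _ _ y_mem)) ih

theorem ex_c [Infinite K] (hT : Tools.{u}) (hB : BaseFacts.{u}) (f : K⟦X⟧⟦X⟧) (hf : f ≠ 0) :
    ∃ (c : K) (L : End2 K), L (C X) = C X + C (C c) * X ∧ L X = X ∧ ev L f ≠ 0 := by
  by_contra hcon
  push Not at hcon
  apply hf
  have hall : ∀ N, f ∈ maximalIdeal K⟦X⟧⟦X⟧ ^ N := by
    intro N
    obtain ⟨s, hs⟩ := Infinite.exists_subset_card_eq K N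
    obtain ⟨g, hg⟩ := fac hT hB f hcon s
    rw [hg, ← hs]
    exact Ideal.mul_mem_right _ _ (prod_mem s)
  have h := Ideal.iInf_pow_eq_bot_of_isLocalRing (maximalIdeal K⟦X⟧⟦X⟧)
    (IsLocalRing.maximalIdeal.isMaximal _).ne_top
  have h2 : f ∈ ⨅ i, maximalIdeal K⟦X⟧⟦X⟧ ^ i := (Ideal.mem_iInf).2 hall
  rw [h] at h2
  exact h2

end aux

/-- general coordinates -/
theorem exists_param' {K : Type u} [Field K] [Infinite K] (hT : Tools.{u}) (hB : BaseFacts.{u})
    (hpar : ∀ (f : K⟦X⟧⟦X⟧) (_ : PowerSeries.map (PowerSeries.constantCoeff (R := K)) f ≠ 0)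
      (_ : ¬ IsUnit f) (_ : IsReduced (K⟦X⟧⟦X⟧ ⧸ Ideal.span {f})),
      ∃ (r : ℕ) (φ : Par K r) (d : K⟦X⟧⟦X⟧), 0 < r ∧ RingHom.ker φ = Ideal.span {f} ∧
        (∀ i, φ d i ≠ 0) ∧ ∀ w, ∃ a, φ a = φ d * w)
    (f : K⟦X⟧⟦X⟧) (hf : f ≠ 0)
    (hu : ¬ IsUnit f) (hred : IsReduced (K⟦X⟧⟦X⟧ ⧸ Ideal.span {f})) :
    ∃ (r : ℕ) (φ : Par K r) (d : K⟦X⟧⟦X⟧), 0 < r ∧ RingHom.ker φ = Ideal.span {f} ∧
      (∀ i, φ d i ≠ 0) ∧ ∀ w, ∃ a, φ a = φ d * w := by
  obtain ⟨c, L, h1, h2, hev⟩ := ex_c hT hB f hf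
  obtain ⟨L', h1', h2'⟩ := ex_L hT (-c)
  have hi1 : ∀ g, L' (L g) = g := L_inv hB c (-c) (by ring) L L' h1 h2 h1' h2'
  have hi2 : ∀ g, L (L' g) = g := L_inv hB (-c) c (by ring) L' L h1' h2' h1 h2
  let e : K⟦X⟧⟦X⟧ ≃ₐ[K] K⟦X⟧⟦X⟧ := AlgEquiv.ofAlgHom L L'
    (AlgHom.ext fun g => hi2 g) (AlgHom.ext fun g => hi1 g)
  have hred' : IsReduced (K⟦X⟧⟦X⟧ ⧸ Ideal.span {L f}) := by
    have hmap : Ideal.span {f} = (Ideal.span {L f}).map (e.symm.toRingEquiv : K⟦X⟧⟦X⟧ →+* K⟦X⟧⟦X⟧) := by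
      rw [Ideal.map_span, Set.image_singleton]
      congr 2
      exact (hi1 f).symm
    let q := Ideal.quotientEquiv (Ideal.span {L f}) (Ideal.span {f}) e.symm.toRingEquiv hmap
    exact isReduced_of_injective q q.injective
  have hu' : ¬ IsUnit (L f) := by
    intro h
    apply hu
    have := h.map L'
    rwa [hi1] at this
  obtain ⟨r, φ, d, hr, hker, hd, hcond⟩ := hpar (L f) hev hu' hred'
  refine ⟨r, φ.comp L, L' d, hr, ?_, ?_, ?_⟩
  · ext h
    rw [RingHom.mem_ker]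
    have h3 : (φ.comp L) h = 0 ↔ L h ∈ Ideal.span {L f} := by
      rw [← hker, RingHom.mem_ker]
      rfl
    rw [h3, Ideal.mem_span_singleton, Ideal.mem_span_singleton]
    constructor
    · intro hdvd
      have := map_dvd L' hdvd
      rwa [hi1, hi1] at this
    · intro hdvd
      exact map_dvd L hdvd
  · intro i
    rw [AlgHom.comp_apply, hi2]
    exact hd i
  · intro w
    obtain ⟨a, ha⟩ := hcond w
    refine ⟨L' a, ?_⟩
    rw [AlgHom.comp_apply, AlgHom.comp_apply, hi2, hi2]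
    exact ha

end L1G

end Pool.Agent.Helper819.DC
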