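import Pool.Agent.Helper819.DC.Core3

set_option autoImplicit false

open PowerSeries IsLocalRing TensorProduct

universe u

namespace Pool.Agent.Helper819.DC


namespace L1R

/-- parametrisation of a reduced noetherian ring from parametrisations of its components -/
theorem glue {K : Type u} [Field K] {R : Type u} [CommRing R] [Algebra K R] [IsNoetherianRing R]
    [IsReduced R] [Nontrivial R]
    (hj : ∀ P ∈ minimalPrimes R, ∃ j : (R ⧸ P) →ₐ[K] K⟦X⟧, Function.Injective j ∧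
        ∃ d : R ⧸ P, d ≠ 0 ∧ ∀ w : K⟦X⟧, ∃ a : R ⧸ P, j a = j d * w) :
    ∃ (r : ℕ) (φ : R →ₐ[K] (Fin r → K⟦X⟧)) (d : R), 0 < r ∧ Function.Injective φ ∧
      (∀ i, φ d i ≠ 0) ∧ ∀ w, ∃ a, φ a = φ d * w := by
  classical
  have hfin : (minimalPrimes R).Finite := minimalPrimes.finite_of_isNoetherianRing R
  haveI : Finite (minimalPrimes R) := hfin
  obtain ⟨r, ⟨e⟩⟩ : ∃ r, Nonempty (Fin r ≃ minimalPrimes R) := ⟨_, ⟨(Finite.equivFin _).symm⟩⟩
  let P : Fin r → Ideal R := fun i => (e i).1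
  have hP : ∀ i, P i ∈ minimalPrimes R := fun i => (e i).2
  have hprime : ∀ i, (P i).IsPrime := fun i => (hP i).1.1
  choose j hjinj d hd hcond using fun i => hj (P i) (hP i)
  let φ : R →ₐ[K] (Fin r → K⟦X⟧) := Pi.algHom K _ fun i => (j i).comp (Ideal.Quotient.mkₐ K (P i))
  have hφ : ∀ a i, φ a i = j i (Ideal.Quotient.mk (P i) a) := fun a i => rfl
  have hr : 0 < r := by
    obtain ⟨⟨x, hx⟩⟩ : Nonempty (minimalPrimes R) := Ideal.nonempty_minimalPrimes bot_ne_top
    exact (Nat.zero_le _).trans_lt (e.symm ⟨x, hx⟩).2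
  -- separating elements
  have hε : ∀ i, ∃ ε : R, ε ∉ P i ∧ ∀ k, k ≠ i → ε ∈ P k := by
    intro i
    by_contra hcon
    push Not at hcon
    have h1 : (Finset.univ.erase i).inf P ≤ P i := by
      intro x hx
      by_contra hxi
      obtain ⟨k, hk, hxk⟩ := hcon x hxi
      exact hxk ((Finset.inf_le (Finset.mem_erase.mpr ⟨hk, Finset.mem_univ k⟩) :
        (Finset.univ.erase i).inf P ≤ P k) hx)
    obtain ⟨k, hk, hki⟩ := (hprime i).inf_le'.mp h1
    have h2 : P i ≤ P k := (hP i).2 ⟨hprime k, bot_le⟩ hki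
    have h3 : e k = e i := Subtype.ext (le_antisymm hki h2)
    exact (Finset.mem_erase.mp hk).1 (e.injective h3)
  choose ε hε1 hε2 using hε
  have hlift : ∀ (a : ∀ i, R ⧸ P i), ∃ A : R, ∀ i, φ A i = j i (Ideal.Quotient.mk (P i) (ε i)) * j i (a i) := by
    intro a
    choose al hal using fun i => Ideal.Quotient.mk_surjective (a i)
    refine ⟨∑ k, ε k * al k, fun i => ?_⟩
    rw [hφ, map_sum, Finset.sum_eq_single i]
    · rw [map_mul, map_mul, hal]
    · intro k _ hk
      rw [map_mul, Ideal.Quotient.eq_zero_iff_mem.mpr (hε2 k i (Ne.symm hk)), zero_mul]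
    · intro h; exact absurd (Finset.mem_univ i) h
  obtain ⟨D, hD⟩ := hlift d
  refine ⟨r, φ, D, hr, ?_, ?_, ?_⟩
  · rw [injective_iff_map_eq_zero]
    intro a ha
    have h1 : a ∈ sInf (minimalPrimes R) := by
      rw [Submodule.mem_sInf]
      intro Q hQ
      have h2 : φ a (e.symm ⟨Q, hQ⟩) = 0 := by rw [ha]; rfl
      rw [hφ] at h2
      have h3 := (injective_iff_map_eq_zero (j _)).mp (hjinj _) _ h2
      rw [Ideal.Quotient.eq_zero_iff_mem] at h3
      have h4 : P (e.symm ⟨Q, hQ⟩) = Q := by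
        show (e (e.symm ⟨Q, hQ⟩)).1 = Q
        rw [Equiv.apply_symm_apply]
      rwa [h4] at h3
    have h5 : sInf (minimalPrimes R) = (⊥ : Ideal R).radical := Ideal.sInf_minimalPrimes
    rw [h5] at h1
    obtain ⟨n, hn⟩ := h1
    exact eq_zero_of_pow_eq_zero (Ideal.mem_bot.mp hn)
  · intro i
    haveI := hprime i
    rw [hD]
    refine mul_ne_zero ?_ ?_
    · intro h
      have h3 := (injective_iff_map_eq_zero (j _)).mp (hjinj _) _ h
      rw [Ideal.Quotient.eq_zero_iff_mem] at h3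
      exact hε1 i h3
    · intro h
      exact hd i ((injective_iff_map_eq_zero (j _)).mp (hjinj _) _ h)
  · intro w
    choose a ha using fun i => hcond i (w i)
    obtain ⟨A, hA⟩ := hlift a
    refine ⟨A, ?_⟩
    ext1 i
    rw [hA, Pi.mul_apply, hD, ha, mul_assoc]

/-- `A[[y]] / (f)` is finite over `A` if `f` is regular in `y` -/
theorem finite_quot' {A : Type u} [CommRing A] [IsLocalRing A] [IsAdicComplete (maximalIdeal A) A]
    (f : A⟦X⟧) (hf : f.map (IsLocalRing.residue A) ≠ 0) :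
    ((Ideal.Quotient.mk (Ideal.span {f})).comp (PowerSeries.C : A →+* A⟦X⟧)).Finite := by
  set n := (f.map (Ideal.Quotient.mk (IsLocalRing.maximalIdeal A))).order.toNat with hn
  have halg : (Ideal.Quotient.mk (Ideal.span {f})).comp (PowerSeries.C : A →+* A⟦X⟧) =
      algebraMap A (A⟦X⟧ ⧸ Ideal.span {f}) := by
    ext1 a
    rfl
  rw [halg, RingHom.finite_algebraMap]
  refine Module.Finite.of_surjective (Fintype.linearCombination A
    (fun i : Fin n => Ideal.Quotient.mk (Ideal.span {f}) (X ^ (i : ℕ)))) ?_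
  intro b
  obtain ⟨h, rfl⟩ := Ideal.Quotient.mk_surjective b
  obtain ⟨q, r, H⟩ := PowerSeries.exists_isWeierstrassDivision h hf
  refine ⟨fun i => r.coeff i, ?_⟩
  rw [Fintype.linearCombination_apply]
  have h1 : (r : A⟦X⟧) = ∑ i : Fin n, PowerSeries.C (r.coeff i) * X ^ (i : ℕ) := by
    ext1 m
    rw [Polynomial.coeff_coe, map_sum]
    simp only [PowerSeries.coeff_C_mul, PowerSeries.coeff_X_pow]
    by_cases hm : m < n
    · rw [Finset.sum_eq_single (⟨m, hm⟩ : Fin n)]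
      · simp
      · intro k _ hk
        rw [if_neg, mul_zero]
        rintro rfl
        exact hk rfl
      · intro h; exact absurd (Finset.mem_univ _) h
    · rw [Finset.sum_eq_zero]
      · apply Polynomial.coeff_eq_zero_of_degree_lt
        refine lt_of_lt_of_le H.degree_lt ?_
        rw [← hn]
        exact_mod_cast not_lt.mp hm
      · intro k _
        rw [if_neg, mul_zero]
        rintro rfl
        exact hm k.2
  have h2 : Ideal.Quotient.mk (Ideal.span {f}) h = Ideal.Quotient.mk (Ideal.span {f}) (r : A⟦X⟧) := by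
    rw [Ideal.Quotient.eq, Ideal.mem_span_singleton]
    refine ⟨q, ?_⟩
    rw [H.eq_mul_add]; ring
  rw [h2, h1, map_sum]
  refine Finset.sum_congr rfl fun i _ => ?_
  rw [Algebra.smul_def, ← halg, map_mul]
  rfl

/-- `K[[x,y]] / (f)` is finite over `K[[x]]` if `f` is regular in `y` -/
theorem finite_quot {K : Type u} [Field K] [IsAdicComplete (maximalIdeal (K⟦X⟧)) (K⟦X⟧)]
    (f : K⟦X⟧⟦X⟧) (hreg : PowerSeries.map (PowerSeries.constantCoeff (R := K)) f ≠ 0) :
    ((Ideal.Quotient.mk (Ideal.span {f})).comp (PowerSeries.C : K⟦X⟧ →+* K⟦X⟧⟦X⟧)).Finite := by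
  have hf : f.map (IsLocalRing.residue (K⟦X⟧)) ≠ 0 := by
    intro h
    apply hreg
    ext1 n
    have h1 := congrArg (PowerSeries.coeff n) h
    rw [PowerSeries.coeff_map, map_zero, IsLocalRing.residue_eq_zero_iff] at h1
    rw [PowerSeries.coeff_map, map_zero]
    by_contra h2
    have h3 : IsUnit (PowerSeries.coeff n f) := by
      rw [PowerSeries.isUnit_iff_constantCoeff]
      exact isUnit_iff_ne_zero.mpr h2
    exact (IsLocalRing.mem_maximalIdeal _).mp h1 h3
  exact finite_quot' f hf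

/-- `x` is regular on `K[[x,y]] / (f)` -/
theorem x_regular {K : Type u} [Field K]
    (f : K⟦X⟧⟦X⟧) (hreg : PowerSeries.map (PowerSeries.constantCoeff (R := K)) f ≠ 0) :
    Ideal.Quotient.mk (Ideal.span {f}) (PowerSeries.C (X : K⟦X⟧)) ∈
      nonZeroDivisors (K⟦X⟧⟦X⟧ ⧸ Ideal.span {f}) := by
  rw [mem_nonZeroDivisors_iff_right]
  intro b hb
  obtain ⟨h, rfl⟩ := Ideal.Quotient.mk_surjective b
  rw [← map_mul, Ideal.Quotient.eq_zero_iff_mem, Ideal.mem_span_singleton] at hb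
  obtain ⟨g, hg⟩ := hb
  have h1 := congrArg (PowerSeries.map (PowerSeries.constantCoeff (R := K))) hg
  rw [map_mul, map_mul, PowerSeries.map_C, PowerSeries.constantCoeff_X, map_zero, mul_zero] at h1
  have h2 : PowerSeries.map (PowerSeries.constantCoeff (R := K)) g = 0 :=
    (mul_eq_zero.mp h1.symm).resolve_left hreg
  have h3 : ∀ n, ∃ c : K⟦X⟧, PowerSeries.coeff n g = X * c := by
    intro n
    have h4 := congrArg (PowerSeries.coeff n) h2
    rw [PowerSeries.coeff_map, map_zero] at h4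
    exact PowerSeries.X_dvd_iff.mpr h4
  choose c hc using h3
  have h5 : g = PowerSeries.C (X : K⟦X⟧) * PowerSeries.mk c := by
    ext1 n
    rw [PowerSeries.coeff_C_mul, PowerSeries.coeff_mk, hc]
  rw [Ideal.Quotient.eq_zero_iff_mem, Ideal.mem_span_singleton]
  refine ⟨PowerSeries.mk c, ?_⟩
  have h6 : PowerSeries.C (X : K⟦X⟧) ≠ 0 := by
    intro h
    have h7 := congrArg (PowerSeries.constantCoeff (R := K⟦X⟧)) h
    rw [PowerSeries.constantCoeff_C, map_zero] at h7
    exact PowerSeries.X_ne_zero h7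
  apply mul_right_cancel₀ h6
  rw [hg, h5]; ring

/-- existence of the parametrisation of the normalisation of a reduced plane curve singularity,
regular case -/
theorem exists_param {K : Type u} [Field K] [IsAlgClosed K] (hB : BaseFacts.{u})
    (hnorm : ∀ (D : Type u) [CommRing D] [IsDomain D] [Algebra K D] (i : K⟦X⟧ →ₐ[K] D),
      Function.Injective i → (i : K⟦X⟧ →+* D).Finite →
      ∃ j : D →ₐ[K] K⟦X⟧, Function.Injective j ∧ (j : D →+* K⟦X⟧).Finite ∧
        ∃ d : D, d ≠ 0 ∧ ∀ w : K⟦X⟧, ∃ a : D, j a = j d * w)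
    (f : K⟦X⟧⟦X⟧) (hreg : PowerSeries.map (PowerSeries.constantCoeff (R := K)) f ≠ 0)
    (hu : ¬ IsUnit f) (hred : IsReduced (K⟦X⟧⟦X⟧ ⧸ Ideal.span {f})) :
    ∃ (r : ℕ) (φ : Par K r) (d : K⟦X⟧⟦X⟧), 0 < r ∧ RingHom.ker φ = Ideal.span {f} ∧
      (∀ i, φ d i ≠ 0) ∧ ∀ w, ∃ a, φ a = φ d * w := by
  classical
  haveI : IsAdicComplete (maximalIdeal (K⟦X⟧)) (K⟦X⟧) := hB.complete_powerSeries_field
  haveI := hred
  haveI : Nontrivial (K⟦X⟧⟦X⟧ ⧸ Ideal.span {f}) := by
    refine Ideal.Quotient.nontrivial_iff.mpr ?_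
    intro h
    exact hu (Ideal.span_singleton_eq_top.mp h)
  have hfin := finite_quot f hreg
  have hx := x_regular f hreg
  let inc : K⟦X⟧ →ₐ[K] K⟦X⟧⟦X⟧ :=
    { (PowerSeries.C : K⟦X⟧ →+* K⟦X⟧⟦X⟧) with
      commutes' := fun k => (PowerSeries.algebraMap_apply (R := K) (A := K⟦X⟧)).symm }
  have hinc : ∀ a, inc a = PowerSeries.C a := fun a => rfl
  obtain ⟨r, φ, d, hr, hinj, hd, hcond⟩ := glue (K := K) (R := K⟦X⟧⟦X⟧ ⧸ Ideal.span {f}) (by
    intro P hP
    haveI hPp : P.IsPrime := hP.1.1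
    let i : K⟦X⟧ →ₐ[K] ((K⟦X⟧⟦X⟧ ⧸ Ideal.span {f}) ⧸ P) :=
      (Ideal.Quotient.mkₐ K P).comp ((Ideal.Quotient.mkₐ K (Ideal.span {f})).comp inc)
    have hi : ∀ a, i a = Ideal.Quotient.mk P (Ideal.Quotient.mk (Ideal.span {f}) (PowerSeries.C a)) :=
      fun a => rfl
    obtain ⟨j, hj1, -, dd, hd1, hd2⟩ := hnorm ((K⟦X⟧⟦X⟧ ⧸ Ideal.span {f}) ⧸ P) i (by
      rw [injective_iff_map_eq_zero]
      intro a ha
      by_contra ha0
      obtain ⟨n, u, hu'⟩ := IsDiscreteValuationRing.eq_unit_mul_pow_irreducible ha0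
        (PowerSeries.X_irreducible (R := K))
      rw [hu', map_mul, map_pow, mul_eq_zero] at ha
      rcases ha with ha | ha
      · exact (u.isUnit.map i).ne_zero ha
      · have hX := eq_zero_of_pow_eq_zero ha
        rw [hi, Ideal.Quotient.eq_zero_iff_mem] at hX
        exact notMem_nonZeroDivisors_of_mem_mem_minimalPrimes hX hP hx) (by
      have h1 : (i : K⟦X⟧ →+* ((K⟦X⟧⟦X⟧ ⧸ Ideal.span {f}) ⧸ P)) = (Ideal.Quotient.mk P).comp
        ((Ideal.Quotient.mk (Ideal.span {f})).comp (PowerSeries.C : K⟦X⟧ →+* K⟦X⟧⟦X⟧)) := by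
        ext1 a; rfl
      rw [h1]
      exact RingHom.Finite.comp (RingHom.Finite.of_surjective _ Ideal.Quotient.mk_surjective) hfin)
    exact ⟨j, hj1, dd, hd1, hd2⟩)
  obtain ⟨d', rfl⟩ := Ideal.Quotient.mk_surjective d
  refine ⟨r, φ.comp (Ideal.Quotient.mkₐ K (Ideal.span {f})), d', hr, ?_, hd, ?_⟩
  · ext1 a
    rw [RingHom.mem_ker]
    constructor
    · intro h
      have h1 : φ (Ideal.Quotient.mk (Ideal.span {f}) a) = 0 := h
      exact Ideal.Quotient.eq_zero_iff_mem.mp ((injective_iff_map_eq_zero φ).mp hinj _ h1)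
    · intro h
      show φ (Ideal.Quotient.mk (Ideal.span {f}) a) = 0
      rw [Ideal.Quotient.eq_zero_iff_mem.mpr h, map_zero]
  · intro w
    obtain ⟨a, ha⟩ := hcond w
    obtain ⟨a', rfl⟩ := Ideal.Quotient.mk_surjective a
    exact ⟨a', ha⟩


end L1R

end Pool.Agent.Helper819.DC
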