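import Pool.Agent.Helper819.DC.Core2

set_option autoImplicit false

open PowerSeries IsLocalRing TensorProduct

universe u

namespace Pool.Agent.Helper819.DC


namespace LFP

theorem adic_complete_of_finite {R M : Type u} [CommRing R] (I : Ideal R) [IsAdicComplete I R]
    [IsNoetherianRing R] [IsLocalRing R] (hI : I ≠ ⊤) [AddCommGroup M] [Module R M]
    [Module.Finite R M] : IsAdicComplete I M := by
  have h1 : IsHausdorff I M := IsHausdorff.of_isLocalRing I M hI
  have h2 : IsPrecomplete I M := by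
    rw [← AdicCompletion.of_surjective_iff]
    intro y
    obtain ⟨z, rfl⟩ := AdicCompletion.ofTensorProduct_surjective_of_finite I M y
    induction z using TensorProduct.induction_on with
    | zero => exact ⟨0, by simp⟩
    | tmul s x =>
      obtain ⟨s, rfl⟩ := AdicCompletion.of_surjective I R s
      refine ⟨s • x, ?_⟩
      rw [AdicCompletion.ofTensorProduct_tmul, map_smul]
      exact (algebraMap_smul (AdicCompletion I R) s (AdicCompletion.of I M x)).symm
    | add a b ha hb =>
      obtain ⟨a', ha'⟩ := ha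
      obtain ⟨b', hb'⟩ := hb
      exact ⟨a' + b', by rw [map_add, map_add, ha', hb']⟩
  exact { }

theorem adic_of_sandwich {M : Type u} [CommRing M] (I J : Ideal M) [IsAdicComplete J M]
    (hJI : J ≤ I) (N : ℕ) (hN : I ^ N ≤ J) : IsAdicComplete I M := by
  have hpow : ∀ n, I ^ ((N + 1) * n) ≤ J ^ n := by
    intro n
    rw [pow_mul]
    exact Ideal.pow_right_mono ((Ideal.pow_le_pow_right (Nat.le_succ N)).trans hN) n
  have hpow' : ∀ n, J ^ n ≤ I ^ n := fun n => Ideal.pow_right_mono hJI n
  have hmem : ∀ (A : Ideal M) (n : ℕ) (x y : M),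
      x ≡ y [SMOD (A ^ n • ⊤ : Submodule M M)] ↔ x - y ∈ A ^ n := by
    intro A n x y
    rw [SModEq.sub_mem, smul_eq_mul, Ideal.mul_top]
  have h1 : IsHausdorff I M := by
    refine ⟨fun x hx => ?_⟩
    refine IsHausdorff.haus (I := J) inferInstance x fun n => ?_
    have := hx ((N + 1) * n)
    rw [hmem] at this ⊢
    exact hpow n this
  have h2 : IsPrecomplete I M := by
    refine ⟨fun f hf => ?_⟩
    have hg : ∀ {m n : ℕ}, m ≤ n →
        f ((N + 1) * m) ≡ f ((N + 1) * n) [SMOD (J ^ m • ⊤ : Submodule M M)] := by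
      intro m n hmn
      have := hf (Nat.mul_le_mul_left (N + 1) hmn)
      rw [hmem] at this ⊢
      exact hpow m this
    obtain ⟨L, hL⟩ := IsPrecomplete.prec (I := J) inferInstance hg
    refine ⟨L, fun n => ?_⟩
    have h3 := hL n
    have h4 := hf (show n ≤ (N + 1) * n by nlinarith)
    rw [hmem] at h3 h4 ⊢
    have := Ideal.add_mem _ h4 (hpow' n h3)
    simpa using this
  exact { }

theorem pow_mem_of_rad {R M : Type u} [CommRing R] [IsLocalRing R] [CommRing M] [Algebra R M]
    [Module.Finite R M] (T : M)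
    (hT : ∀ y : M, ∃ w : M, (T * y + 1) * w - 1 ∈ (maximalIdeal R).map (algebraMap R M)) :
    ∃ N, T ^ N ∈ (maximalIdeal R).map (algebraMap R M) := by
  set J := (maximalIdeal R).map (algebraMap R M) with hJ
  let _ : Field (R ⧸ maximalIdeal R) := Ideal.Quotient.field _
  have h1 : Module.Finite (R ⧸ maximalIdeal R) (M ⧸ J) := by
    have : Module.Finite R (M ⧸ J) := inferInstance
    have : IsScalarTower R (R ⧸ maximalIdeal R) (M ⧸ J) := inferInstance
    exact Module.Finite.of_restrictScalars_finite R _ _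
  have h2 : IsArtinianRing (M ⧸ J) := IsArtinianRing.of_finite (R ⧸ maximalIdeal R) (M ⧸ J)
  have h3 : Ideal.Quotient.mk J T ∈ (⊥ : Ideal (M ⧸ J)).jacobson := by
    rw [Ideal.mem_jacobson_bot]
    intro y
    obtain ⟨y, rfl⟩ := Ideal.Quotient.mk_surjective y
    obtain ⟨w, hw⟩ := hT y
    refine IsUnit.of_mul_eq_one (Ideal.Quotient.mk J w) ?_
    have := Ideal.Quotient.eq_zero_iff_mem.mpr hw
    rw [map_sub, map_mul, map_add, map_mul, map_one, sub_eq_zero] at this
    exact this
  obtain ⟨N, hN⟩ := IsArtinianRing.isNilpotent_jacobson_bot (R := M ⧸ J)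
  refine ⟨N, ?_⟩
  rw [← Ideal.Quotient.eq_zero_iff_mem, map_pow]
  have := Ideal.pow_mem_pow h3 N
  rw [hN] at this
  simpa using this

theorem idem_zero {M : Type u} [CommRing M] (J : Ideal M) [IsHausdorff J M] (e : M)
    (he : e * e = e) (hJ : e ∈ J) : e = 0 := by
  have hp : ∀ n, e ∈ J ^ n := by
    intro n
    induction n with
    | zero => simp
    | succ n ih => rw [pow_succ, ← he]; exact Ideal.mul_mem_mul ih hJ
  refine IsHausdorff.haus (I := J) inferInstance e fun n => ?_
  rw [SModEq.sub_mem, smul_eq_mul, Ideal.mul_top, sub_zero]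
  exact hp n

theorem idem_lift {M : Type u} [CommRing M] (J : Ideal M) [IsAdicComplete J M] (a : M)
    (ha : a * a - a ∈ J) : ∃ e : M, e * e = e ∧ e - a ∈ J := by
  obtain ⟨e, he, h⟩ := HenselianRing.is_henselian (R := M) (I := J)
    (Polynomial.X ^ 2 - Polynomial.X : Polynomial M) (by monicity!) a
    (by simpa [pow_two] using ha) (by
      refine IsUnit.of_mul_eq_one (Ideal.Quotient.mk J (2 * a - 1)) ?_
      rw [← map_mul, ← map_one (Ideal.Quotient.mk J), Ideal.Quotient.eq]
      have : (Polynomial.derivative (Polynomial.X ^ 2 - Polynomial.X : Polynomial M)).eval a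
          * (2 * a - 1) - 1 = 4 * (a * a - a) := by
        simp
        ring
      rw [this]
      exact J.mul_mem_left _ ha)
  refine ⟨e, ?_, h⟩
  have : e ^ 2 - e = 0 := by simpa [Polynomial.IsRoot] using he
  linear_combination this

theorem sup_pow_le' {M : Type u} [CommRing M] (J S : Ideal M) (n : ℕ) :
    (J ⊔ S) ^ n ≤ J ⊔ S ^ n := by
  induction n with
  | zero => rw [pow_zero, pow_zero]; exact le_sup_right
  | succ n ih =>
    rw [pow_succ, pow_succ]
    refine (Ideal.mul_mono_left ih).trans ?_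
    rw [Ideal.sup_mul, Ideal.mul_sup (S ^ n)]
    refine sup_le ?_ (sup_le ?_ ?_)
    · exact le_trans (Ideal.mul_le_left (I := J) (J := J ⊔ S)) le_sup_left
    · exact le_trans (Ideal.mul_le_right (I := S ^ n) (J := J)) le_sup_left
    · exact le_sup_right

/-- the algebra hom attached to orthogonal idempotents and an evaluation hom -/
theorem psi_exists {B M : Type u} [CommRing B] [CommRing M] [Algebra B M] {r : ℕ}
    (E : Fin r → M) (hE : ∀ i, E i * E i = E i) (ho : ∀ i j, i ≠ j → E i * E j = 0)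
    (hs : ∑ i, E i = 1) (ev : B⟦X⟧ →ₐ[B] M) :
    ∃ Ψ : (Fin r → B⟦X⟧) →ₐ[B] M, ∀ p, Ψ p = ∑ i, E i * ev (p i) := by
  refine ⟨AlgHom.ofLinearMap ⟨⟨fun p => ∑ i, E i * ev (p i), ?_⟩, ?_⟩ ?_ ?_, fun p => rfl⟩
  · intro p q
    simp [mul_add, Finset.sum_add_distrib]
  · intro c p
    simp [Finset.smul_sum]
  · simp [hs]
  · intro p q
    simp only [LinearMap.coe_mk, AddHom.coe_mk, Pi.mul_apply, map_mul]
    rw [Finset.sum_mul_sum]
    refine Finset.sum_congr rfl fun i _ => ?_
    rw [Finset.sum_eq_single i]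
    · linear_combination (-(ev (p i) * ev (q i))) * hE i
    · intro j _ hj
      linear_combination (ev (p i) * ev (q j)) * ho i j (Ne.symm hj)
    · simp

theorem inP_span {B : Type u} [CommRing B] {r : ℕ} (v : B) (n : ℕ) (w : Fin r → B⟦X⟧) :
    InP (Ideal.span {v} ^ n) w ↔ ∃ q : Fin r → B⟦X⟧, w = v ^ n • q := by
  constructor
  · intro h
    have : ∀ i k, ∃ c : B, PowerSeries.coeff k (w i) = v ^ n * c := by
      intro i k
      have := h i k
      rw [Ideal.span_singleton_pow, Ideal.mem_span_singleton] at this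
      exact this
    choose c hc using this
    refine ⟨fun i => PowerSeries.mk (c i), ?_⟩
    funext i
    ext k
    simp [hc]
  · rintro ⟨q, rfl⟩ i k
    rw [Ideal.span_singleton_pow, Ideal.mem_span_singleton]
    exact ⟨PowerSeries.coeff k (q i), by simp⟩

/-- lifting the structure `∏ K[[t]]` of the special fibre -/
theorem liftp (hT : Tools.{u}) (hB : BaseFacts.{u}) {K : Type u} [Field K] {r : ℕ} (φ : Par K r)
    {B : Type u} [CommRing B] [IsDomain B] [IsDiscreteValuationRing B]
    [IsAdicComplete (maximalIdeal B) B] [Algebra K B] (π : B →ₐ[K] K) (v : B)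
    (hv : maximalIdeal B = Ideal.span {v}) {M : Type u} [CommRing M] [Algebra B M]
    (κ : B⟦X⟧⟦X⟧ →ₐ[B] M) (hfin : (κ : B⟦X⟧⟦X⟧ →+* M).Finite)
    (hnzd : algebraMap B M v ∈ nonZeroDivisors M) (κb : M →+* (Fin r → K⟦X⟧))
    (hsurj : Function.Surjective κb) (hker : RingHom.ker κb = Ideal.span {algebraMap B M v})
    (hcomp : ∀ h, κb (κ h) = φ (map2 (π : B →+* K) h)) :
    ∃ Φ : Par B r, Lifts π φ Φ ∧ RingHom.ker κ ≤ RingHom.ker Φ := by
  have hc1 : IsAdicComplete (maximalIdeal B⟦X⟧) B⟦X⟧ := hB.complete_powerSeries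
  have hc2 : IsAdicComplete (maximalIdeal B⟦X⟧⟦X⟧) B⟦X⟧⟦X⟧ := hB.complete_powerSeries
  let _ : Algebra B⟦X⟧⟦X⟧ M := (κ : B⟦X⟧⟦X⟧ →+* M).toAlgebra
  have hal : ∀ h : B⟦X⟧⟦X⟧, algebraMap B⟦X⟧⟦X⟧ M h = κ h := fun h => rfl
  have hfin' : Module.Finite B⟦X⟧⟦X⟧ M := hfin
  have hne : maximalIdeal B⟦X⟧⟦X⟧ ≠ ⊤ := Ideal.IsPrime.ne_top'
  have hcM : IsAdicComplete (maximalIdeal B⟦X⟧⟦X⟧) M := adic_complete_of_finite _ hne
  set J : Ideal M := (maximalIdeal B⟦X⟧⟦X⟧).map (algebraMap B⟦X⟧⟦X⟧ M) with hJ
  have hcJ : IsAdicComplete J M := IsAdicComplete.map_algebraMap_iff _ _ |>.mpr hcM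
  -- `v` lies in `J`
  have hvm : v ∈ maximalIdeal B := by rw [hv]; exact Ideal.mem_span_singleton_self v
  have hvJ : algebraMap B M v ∈ J := by
    rw [← κ.commutes v, ← hal]
    refine Ideal.mem_map_of_mem _ ?_
    rw [IsLocalRing.mem_maximalIdeal, mem_nonunits_iff] at hvm ⊢
    intro hu
    apply hvm
    have h1 := hu.map (PowerSeries.constantCoeff (R := B⟦X⟧))
    have h2 := h1.map (PowerSeries.constantCoeff (R := B))
    simpa [PowerSeries.algebraMap_apply] using h2
  have hkerJ : ∀ m : M, κb m = 0 → m ∈ J := by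
    intro m hm
    have : m ∈ RingHom.ker κb := hm
    rw [hker] at this
    exact (Ideal.span_singleton_le_iff_mem J).mpr hvJ this
  -- constants
  have hconst : ∀ b : B, κb (algebraMap B M b) = fun _ => PowerSeries.C (π b) := by
    intro b
    rw [← κ.commutes b, hcomp]
    have : map2 (π : B →+* K) (algebraMap B B⟦X⟧⟦X⟧ b) = algebraMap K K⟦X⟧⟦X⟧ (π b) := by
      simp [map2, PowerSeries.algebraMap_apply]
    rw [this, φ.commutes]
    funext j
    simp [PowerSeries.algebraMap_apply]
  -- `J` maps into the maximal ideals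
  have hJmax : ∀ (j : Fin r) (m : M), m ∈ J → κb m j ∈ maximalIdeal K⟦X⟧ := by
    intro j m hm
    let ρ : M →+* K⟦X⟧ := (Pi.evalRingHom _ j).comp κb
    have h1 : J ≤ (maximalIdeal K⟦X⟧).comap ρ := by
      rw [hJ, Ideal.map_le_iff_le_comap]
      let θ : B⟦X⟧⟦X⟧ →+* K := (PowerSeries.constantCoeff (R := K)).comp
        (ρ.comp (algebraMap B⟦X⟧⟦X⟧ M))
      have hθ : Function.Surjective θ := by
        intro c
        refine ⟨algebraMap B B⟦X⟧⟦X⟧ (algebraMap K B c), ?_⟩
        have h2 : κb (κ (algebraMap B B⟦X⟧⟦X⟧ (algebraMap K B c))) j = PowerSeries.C c := by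
          rw [κ.commutes, hconst]
          simp
        change PowerSeries.constantCoeff (κb (κ (algebraMap B B⟦X⟧⟦X⟧ (algebraMap K B c))) j) = c
        rw [h2]
        simp
      have h3 : RingHom.ker θ = maximalIdeal B⟦X⟧⟦X⟧ :=
        IsLocalRing.eq_maximalIdeal (RingHom.ker_isMaximal_of_surjective θ hθ)
      intro x hx
      rw [← h3] at hx
      have hx' : PowerSeries.constantCoeff (κb (κ x) j) = 0 := hx
      change κb (κ x) j ∈ maximalIdeal K⟦X⟧
      rw [IsLocalRing.mem_maximalIdeal, mem_nonunits_iff, PowerSeries.isUnit_iff_constantCoeff,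
        hx']
      exact not_isUnit_zero
    exact h1 hm
  -- the uniformiser
  obtain ⟨T, hTt⟩ := hsurj (fun _ => PowerSeries.X)
  obtain ⟨N, hN⟩ := pow_mem_of_rad (R := B⟦X⟧⟦X⟧) (M := M) T (by
    intro y
    have hu : ∀ j, IsUnit (κb (T * y + 1) j) := by
      intro j
      rw [PowerSeries.isUnit_iff_constantCoeff]
      simp [hTt]
    choose u hu' using fun j => (hu j).exists_right_inv
    obtain ⟨w, hw⟩ := hsurj u
    refine ⟨w, hkerJ _ ?_⟩
    rw [map_sub, map_mul, map_one, hw, sub_eq_zero]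
    funext j
    exact hu' j)
  have hI : IsAdicComplete (J ⊔ Ideal.span {T}) M := by
    refine adic_of_sandwich _ J le_sup_left N ?_
    refine (sup_pow_le' _ _ _).trans (sup_le le_rfl ?_)
    rw [Ideal.span_singleton_pow, Ideal.span_singleton_le_iff_mem]
    exact hN
  obtain ⟨ev, hev⟩ := hB.ev_exists (A := B) (J ⊔ Ideal.span {T}) T
    (Ideal.mem_sup_right (Ideal.mem_span_singleton_self T))
  have hevb : ∀ (p : B⟦X⟧) (j : Fin r), κb (ev p) j = PowerSeries.map (π : B →+* K) p := by
    intro p j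
    let _ : Algebra B K⟦X⟧ := ((PowerSeries.C (R := K)).comp (π : B →+* K)).toAlgebra
    let Φ1 : B⟦X⟧ →ₐ[B] K⟦X⟧ :=
      { (Pi.evalRingHom (fun _ : Fin r => K⟦X⟧) j).comp (κb.comp (ev : B⟦X⟧ →+* M)) with
        commutes' := by
          intro b
          change κb (ev (algebraMap B B⟦X⟧ b)) j = PowerSeries.C (π b)
          rw [ev.commutes, hconst] }
    let Φ2 : B⟦X⟧ →ₐ[B] K⟦X⟧ :=
      { PowerSeries.map (π : B →+* K) with
        commutes' := by
          intro b
          change PowerSeries.map (π : B →+* K) (algebraMap B B⟦X⟧ b) = PowerSeries.C (π b)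
          simp [PowerSeries.algebraMap_apply] }
    have h1 : Φ1 = Φ2 := by
      refine hB.ev_unique (Ideal.span {(PowerSeries.X : K⟦X⟧)}) PowerSeries.X
        (Ideal.mem_span_singleton_self _) Φ1 Φ2 ?_ ?_
      · change κb (ev X) j = X
        rw [hev, hTt]
      · change PowerSeries.map (π : B →+* K) X = X
        simp
    exact DFunLike.congr_fun h1 p
  -- idempotents
  have hidem : ∀ i : Fin r, ∃ e : M, e * e = e ∧ κb e = Pi.single i 1 := by
    intro i
    obtain ⟨a, ha⟩ := hsurj (Pi.single i 1)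
    obtain ⟨e, he, hea⟩ := idem_lift J a (hkerJ _ (by
      rw [map_sub, map_mul, ha, ← Pi.single_mul, mul_one, sub_self]))
    refine ⟨e, he, ?_⟩
    funext j
    have h1 : κb e j * κb e j = κb e j := by
      rw [← Pi.mul_apply, ← map_mul, he]
    have h2 := hJmax j _ hea
    rw [map_sub, ha, Pi.sub_apply] at h2
    have h3 : κb e j = 0 ∨ κb e j = 1 := by
      have : κb e j * (κb e j - 1) = 0 := by linear_combination h1
      rcases mul_eq_zero.mp this with h | h
      · exact Or.inl h
      · exact Or.inr (sub_eq_zero.mp h)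
    have h1n : (1 : K⟦X⟧) ∉ maximalIdeal K⟦X⟧ := by
      rw [← Ideal.ne_top_iff_one]; exact Ideal.IsPrime.ne_top'
    by_cases hij : j = i
    · subst hij
      rw [Pi.single_eq_same] at h2 ⊢
      rcases h3 with h | h
      · exfalso
        rw [h, zero_sub] at h2
        exact h1n (by simpa using (maximalIdeal K⟦X⟧).neg_mem h2)
      · exact h
    · rw [Pi.single_eq_of_ne hij] at h2 ⊢
      rcases h3 with h | h
      · exact h
      · exfalso
        rw [h, sub_zero] at h2
        exact h1n h2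
  choose E hE hEb using hidem
  have ho : ∀ i j, i ≠ j → E i * E j = 0 := by
    intro i j hij
    refine idem_zero J _ ?_ (hkerJ _ ?_)
    · linear_combination (E j * E j) * hE i + E i * hE j
    · rw [map_mul, hEb, hEb]
      funext k
      by_cases hk : k = i
      · subst hk
        simp [Pi.single_eq_of_ne hij]
      · simp [Pi.single_eq_of_ne hk]
  have hs : ∑ i, E i = 1 := by
    have h1 : (∑ i, E i) * (∑ i, E i) = ∑ i, E i := by
      rw [Finset.sum_mul_sum]
      refine Finset.sum_congr rfl fun i _ => ?_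
      rw [Finset.sum_eq_single i]
      · exact hE i
      · intro j _ hj
        exact ho i j (Ne.symm hj)
      · simp
    have h2 : 1 - ∑ i, E i = 0 := by
      refine idem_zero J _ ?_ (hkerJ _ ?_)
      · linear_combination h1
      · rw [map_sub, map_one, map_sum, sub_eq_zero]
        simp only [hEb]
        funext k
        rw [Finset.sum_apply, Finset.sum_eq_single k]
        · simp
        · intro b _ hb
          exact Pi.single_eq_of_ne (Ne.symm hb) _
        · simp
    exact (sub_eq_zero.mp h2).symm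
  obtain ⟨Ψ, hΨ⟩ := psi_exists E hE ho hs ev
  have hΨb : ∀ p, κb (Ψ p) = mapP (π : B →+* K) p := by
    intro p
    funext j
    rw [hΨ, map_sum, Finset.sum_apply, mapP_apply, Finset.sum_eq_single j]
    · rw [map_mul, Pi.mul_apply, hEb, hevb]
      simp
    · intro b _ hb
      rw [map_mul, Pi.mul_apply, hEb, Pi.single_eq_of_ne (Ne.symm hb), zero_mul]
    · simp
  -- injectivity
  have hinj : Function.Injective Ψ := by
    rw [injective_iff_map_eq_zero]
    intro p hp
    have hq : ∀ n, ∃ q, p = v ^ n • q ∧ Ψ q = 0 := by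
      intro n
      induction n with
      | zero => exact ⟨p, by simp, hp⟩
      | succ n ih =>
        obtain ⟨q, hq, hq0⟩ := ih
        have h1 : InP (maximalIdeal B) q := by
          rw [hT.inP_map π, ← hΨb, hq0, map_zero]
        have h1' : InP (Ideal.span {v} ^ 1) q := by
          rw [pow_one, ← hv]; exact h1
        obtain ⟨q', hq'⟩ := (inP_span v 1 q).mp h1'
        refine ⟨q', ?_, ?_⟩
        · rw [hq, hq', smul_smul, pow_one, pow_succ]
        · rw [hq', pow_one, map_smul, Algebra.smul_def] at hq0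
          exact (mul_left_mem_nonZeroDivisors_eq_zero_iff hnzd).mp hq0
    refine hT.eqP p fun n => ?_
    rw [hv]
    obtain ⟨q, hq, _⟩ := hq n
    exact (inP_span v n p).mpr ⟨q, hq⟩
  -- surjectivity
  have hsur : Function.Surjective Ψ := by
    intro m
    have hstep : ∀ m : M, ∃ (p : Fin r → B⟦X⟧) (m' : M), m = Ψ p + v • m' := by
      intro m
      have h1 : ∃ p : Fin r → B⟦X⟧, mapP (π : B →+* K) p = κb m := by
        refine ⟨mapP (algebraMap K B) (κb m), ?_⟩
        rw [hT.mapP_comp]
        have : (π : B →+* K).comp (algebraMap K B) = RingHom.id K := by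
          ext c
          simp
        rw [this]
        funext j
        simp [mapP_apply]
      obtain ⟨p, hp⟩ := h1
      have h2 : m - Ψ p ∈ RingHom.ker κb := by
        rw [RingHom.mem_ker, map_sub, hΨb, hp, sub_self]
      rw [hker, Ideal.mem_span_singleton] at h2
      obtain ⟨m', hm'⟩ := h2
      exact ⟨p, m', by rw [Algebra.smul_def, ← hm']; ring⟩
    choose P S hPS using hstep
    let mm : ℕ → M := fun n => Nat.rec m (fun _ x => S x) n
    let ww : ℕ → (Fin r → B⟦X⟧) := fun n => ∑ k ∈ Finset.range n, v ^ k • P (mm k)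
    have hmm : ∀ n, m = Ψ (ww n) + v ^ n • mm n := by
      intro n
      induction n with
      | zero => simp [ww, mm]
      | succ n ih =>
        have h1 : mm n = Ψ (P (mm n)) + v • mm (n + 1) := hPS (mm n)
        have h2 : ww (n + 1) = ww n + v ^ n • P (mm n) := Finset.sum_range_succ _ _
        rw [h2, map_add, map_smul, add_assoc, pow_succ, mul_smul, ← smul_add, ← h1]
        exact ih
    obtain ⟨l, hl⟩ := hT.limP ww (by
      intro n
      have h2 : ww (n + 1) = ww n + v ^ n • P (mm n) := Finset.sum_range_succ _ _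
      rw [h2, add_sub_cancel_left, hv, inP_span]
      exact ⟨_, rfl⟩)
    refine ⟨l, ?_⟩
    have h3 : ∀ n, m - Ψ l ∈ J ^ n := by
      intro n
      have h4 := hl n
      rw [hv, inP_span] at h4
      obtain ⟨q, hq⟩ := h4
      have h5 : m - Ψ l = (algebraMap B M v) ^ n * (mm n - Ψ q) := by
        have h6 : l = ww n + v ^ n • q := by rw [← hq]; abel
        rw [h6, map_add, map_smul, Algebra.smul_def, map_pow]
        have h7 := hmm n
        rw [Algebra.smul_def, map_pow] at h7
        linear_combination h7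
      rw [h5]
      exact Ideal.mul_mem_right _ _ (Ideal.pow_mem_pow hvJ n)
    have h4 : m - Ψ l = 0 := by
      refine IsHausdorff.haus (I := J) inferInstance _ fun n => ?_
      rw [SModEq.sub_mem, smul_eq_mul, Ideal.mul_top, sub_zero]
      exact h3 n
    exact (sub_eq_zero.mp h4).symm
  let e : (Fin r → B⟦X⟧) ≃ₐ[B] M := AlgEquiv.ofBijective Ψ ⟨hinj, hsur⟩
  refine ⟨(e.symm : M →ₐ[B] (Fin r → B⟦X⟧)).comp κ, ?_, ?_⟩
  · intro h
    rw [← hcomp, ← hΨb]
    congr 1
    exact e.apply_symm_apply (κ h)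
  · intro h hh
    rw [RingHom.mem_ker] at hh ⊢
    change e.symm (κ h) = 0
    rw [hh, map_zero]

end LFP

end Pool.Agent.Helper819.DC
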