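import Mathlib

set_option autoImplicit false

open PowerSeries IsLocalRing TensorProduct

universe u

namespace Pool.Agent.Helper819.DC.LO

/-- lying over for arcs -/
theorem lying_over_arc {K : Type u} [Field K] [IsAlgClosed K]
    (hclosure : ∀ (E L : Type u) [Field E] [Field L] [Algebra K⟦X⟧ E] [IsFractionRing K⟦X⟧ E]
      [Algebra E L] [Algebra K⟦X⟧ L] [IsScalarTower K⟦X⟧ E L] [FiniteDimensional E L],
      ∃ e : integralClosure K⟦X⟧ L ≃+* K⟦X⟧,
        ∀ c : K, e (algebraMap K⟦X⟧ (integralClosure K⟦X⟧ L) (C c)) = C c)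
    {S O : Type u} [CommRing S] [CommRing O] [Algebra K S] [Algebra K O] (θ : S →ₐ[K] O)
    (hθ : θ.toRingHom.Finite) (α : S →ₐ[K] K⟦X⟧) (hα : RingHom.ker θ ≤ RingHom.ker α) :
    ∃ (ω : K⟦X⟧ →ₐ[K] K⟦X⟧) (β : O →ₐ[K] K⟦X⟧), Function.Injective ω ∧
      ∀ s, ω (α s) = β (θ s) := by
  classical
  letI algSO : Algebra S O := θ.toRingHom.toAlgebra
  have hmapSO : ∀ s, algebraMap S O s = θ s := fun s => rfl
  haveI : Module.Finite S O := hθ
  haveI : Algebra.IsIntegral S O := inferInstance
  set P : Ideal S := RingHom.ker α.toRingHom with hP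
  haveI hPprime : P.IsPrime := RingHom.ker_isPrime _
  obtain ⟨Q, -, hQprime, hQcomap⟩ := Ideal.exists_ideal_over_prime_of_isIntegral P (⊥ : Ideal O)
    (by
      intro s hs
      have h1 : θ s = 0 := by simpa [Ideal.mem_comap, hmapSO] using hs
      exact hα (by simpa [RingHom.mem_ker] using h1))
  haveI := hQprime
  haveI hlo : Q.LiesOver P := ⟨by rw [Ideal.under]; exact hQcomap.symm⟩
  let E := FractionRing K⟦X⟧
  let M := AlgebraicClosure E
  -- map S/P → M
  let φ : (S ⧸ P) →+* M := (algebraMap E M).comp ((algebraMap K⟦X⟧ E).comp (RingHom.kerLift α.toRingHom))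
  have hφinj : Function.Injective φ := by
    refine (algebraMap E M).injective.comp ((IsFractionRing.injective K⟦X⟧ E).comp
      (RingHom.kerLift_injective _))
  letI algM : Algebra (S ⧸ P) M := φ.toAlgebra
  haveI : FaithfulSMul (S ⧸ P) M := (faithfulSMul_iff_algebraMap_injective _ _).mpr hφinj
  haveI : Module.Finite (S ⧸ P) (O ⧸ Q) := inferInstance
  haveI : Algebra.IsAlgebraic (S ⧸ P) (O ⧸ Q) := inferInstance
  let g0 : (O ⧸ Q) →ₐ[S ⧸ P] M := IsAlgClosed.lift
  let g : O →+* M := g0.toRingHom.comp (Ideal.Quotient.mk Q)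
  have hg : ∀ s : S, g (θ s) = algebraMap E M (algebraMap K⟦X⟧ E (α s)) := by
    intro s
    have h1 : (Ideal.Quotient.mk Q) (θ s) = algebraMap (S ⧸ P) (O ⧸ Q) (Ideal.Quotient.mk P s) := rfl
    have h2 : g (θ s) = g0 ((Ideal.Quotient.mk Q) (θ s)) := rfl
    rw [h2, h1, AlgHom.commutes]
    rfl
  -- the finite extension
  obtain ⟨T, hT⟩ := (inferInstance : Module.Finite S O).fg_top
  let G : Set M := g '' (T : Set O)
  let L : IntermediateField E M := IntermediateField.adjoin E G
  have hGfin : G.Finite := T.finite_toSet.image _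
  haveI : FiniteDimensional E L := by
    haveI := hGfin.to_subtype
    refine IntermediateField.finiteDimensional_adjoin (fun x _ => ?_)
    exact (AlgebraicClosure.isAlgebraic E).isAlgebraic x |>.isIntegral
  have hgL : ∀ o : O, g o ∈ L := by
    intro o
    have ho : o ∈ Submodule.span S (T : Set O) := by rw [hT]; trivial
    induction ho using Submodule.span_induction with
    | mem x hx => exact IntermediateField.subset_adjoin E G ⟨x, hx, rfl⟩
    | zero => rw [map_zero]; exact L.zero_mem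
    | add x y _ _ hx hy => rw [map_add]; exact L.add_mem hx hy
    | smul a x _ hx =>
      have : a • x = θ a * x := rfl
      rw [this, map_mul, hg]
      exact L.mul_mem (L.algebraMap_mem _) hx
  haveI : IsScalarTower K⟦X⟧ E L := inferInstance
  obtain ⟨e, he⟩ := hclosure E L
  let gL : O →+* L := RingHom.codRestrict g L.toSubfield.toSubring hgL
  have hgLval : ∀ o, ((gL o : L) : M) = g o := fun o => rfl
  have halg : ∀ f : K⟦X⟧, ((algebraMap K⟦X⟧ L f : L) : M) = algebraMap E M (algebraMap K⟦X⟧ E f) := by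
    intro f
    rw [IsScalarTower.algebraMap_apply K⟦X⟧ E L]
    rfl
  have hgLs : ∀ s : S, gL (θ s) = algebraMap K⟦X⟧ L (α s) := by
    intro s
    apply Subtype.ext
    rw [hgLval, hg, halg]
  have hint : ∀ o : O, gL o ∈ integralClosure K⟦X⟧ L := by
    intro o
    obtain ⟨p, hpm, hp⟩ := (inferInstance : Algebra.IsIntegral S O).isIntegral o
    refine ⟨p.map α.toRingHom, hpm.map _, ?_⟩
    rw [Polynomial.eval₂_map]
    have hcomp : (algebraMap K⟦X⟧ L).comp α.toRingHom = gL.comp (algebraMap S O) := by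
      ext1 s
      exact (hgLs s).symm
    rw [hcomp, ← Polynomial.hom_eval₂, hp, map_zero]
  let gI : O →+* integralClosure K⟦X⟧ L :=
    RingHom.codRestrict gL (integralClosure K⟦X⟧ L).toSubring hint
  have hgI : ∀ s : S, gI (θ s) = algebraMap K⟦X⟧ (integralClosure K⟦X⟧ L) (α s) := by
    intro s
    apply Subtype.ext
    exact hgLs s
  let ω0 : K⟦X⟧ →+* K⟦X⟧ := e.toRingHom.comp (algebraMap K⟦X⟧ (integralClosure K⟦X⟧ L))
  let β0 : O →+* K⟦X⟧ := e.toRingHom.comp gI
  have hω0 : ∀ c : K, ω0 (algebraMap K K⟦X⟧ c) = algebraMap K K⟦X⟧ c := by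
    intro c
    exact he c
  have hcomm : ∀ s, ω0 (α s) = β0 (θ s) := by
    intro s
    show e _ = e _
    rw [hgI]
  refine ⟨{ ω0 with commutes' := hω0 }, { β0 with commutes' := ?_ }, ?_, hcomm⟩
  · intro c
    have h1 : algebraMap K O c = θ (algebraMap K S c) := (θ.commutes c).symm
    show β0 (algebraMap K O c) = _
    rw [h1, ← hcomm, α.commutes, hω0]
  · show Function.Injective ω0
    refine e.injective.comp ?_
    intro a b hab
    have h1 : algebraMap K⟦X⟧ L a = algebraMap K⟦X⟧ L b := congrArg Subtype.val hab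
    have h2 : algebraMap E M (algebraMap K⟦X⟧ E a) = algebraMap E M (algebraMap K⟦X⟧ E b) := by
      rw [← halg, ← halg, h1]
    exact IsFractionRing.injective K⟦X⟧ E ((algebraMap E M).injective h2)

end Pool.Agent.Helper819.DC.LO
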