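import Mathlib

set_option autoImplicit false

open PowerSeries IsLocalRing TensorProduct

universe u

namespace Pool.Agent.Helper819.DC.MVN1

/-- elementwise form of completely integrally closed -/
def CIC_10256 (A : Type u) [CommRing A] : Prop :=
  ∀ a b h : A, b ≠ 0 → h ≠ 0 → (∀ n : ℕ, b ^ n ∣ h * a ^ n) → b ∣ a

theorem closed_of_cic_10256 (A : Type u) [CommRing A] [IsDomain A] (hA : CIC_10256 A) :
    IsIntegrallyClosed A := by
  rw [isIntegrallyClosed_iff (FractionRing A)]
  intro x hx
  obtain ⟨r, hr, hrn⟩ := hx.isAlmostIntegral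
  obtain ⟨a, b, hb, rfl⟩ := IsFractionRing.div_surjective (A := A) x
  have hb0 : b ≠ 0 := nonZeroDivisors.ne_zero hb
  have hr0 : r ≠ 0 := nonZeroDivisors.ne_zero hr
  have hb1 : algebraMap A (FractionRing A) b ≠ 0 := by
    rwa [Ne, IsFractionRing.to_map_eq_zero_iff]
  have h1 : b ∣ a := by
    apply hA a b r hb0 hr0
    intro n
    obtain ⟨c, hc⟩ := hrn n
    refine ⟨c, ?_⟩
    apply IsFractionRing.injective A (FractionRing A)
    rw [map_mul, map_mul, map_pow, map_pow]
    rw [Algebra.smul_def, div_pow] at hc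
    have h2 : algebraMap A (FractionRing A) c = algebraMap A (FractionRing A) c := rfl
    have h3 : (algebraMap A (FractionRing A)) c = (algebraMap A (FractionRing A)) r *
      ((algebraMap A (FractionRing A)) a ^ n / (algebraMap A (FractionRing A)) b ^ n) := hc
    rw [h3]
    field_simp
  obtain ⟨c, rfl⟩ := h1
  refine ⟨c, ?_⟩
  rw [map_mul, mul_div_cancel_left₀ _ hb1]

theorem cic_equiv_10256 {A B : Type u} [CommRing A] [CommRing B] (e : A ≃+* B)
    (hB : CIC_10256 B) : CIC_10256 A := by
  intro a b h hb hh hn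
  rw [← map_dvd_iff e]
  apply hB (e a) (e b) (e h)
  · rwa [Ne, EmbeddingLike.map_eq_zero_iff]
  · rwa [Ne, EmbeddingLike.map_eq_zero_iff]
  · intro n
    rw [← map_pow, ← map_pow, ← map_mul, map_dvd_iff e]
    exact hn n

theorem dvr_10256 {F : Type u} [Field F] (f g h : PowerSeries F) (hg : g ≠ 0) (hh : h ≠ 0)
    (hn : ∀ n : ℕ, g ^ n ∣ h * f ^ n) : g ∣ f := by
  rcases ValuationRing.dvd_total g f with h1 | h1
  · exact h1
  · obtain ⟨c, rfl⟩ := h1
    by_cases hf : f = 0
    · subst hf; exact dvd_zero _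
    · by_cases hc : IsUnit c
      · exact (hc.mul_right_dvd).mpr dvd_rfl
      · exfalso
        obtain ⟨n, hn'⟩ := FiniteMultiplicity.of_not_isUnit hc hh
        apply hn'
        have h2 := hn (n + 1)
        rw [mul_pow, mul_comm h] at h2
        exact (mul_dvd_mul_iff_left (pow_ne_zero _ hf)).mp h2

theorem coeff_10256 {A F : Type u} [CommRing A] [IsDomain A] [Field F] [Algebra A F]
    [IsFractionRing A F] (hA : CIC_10256 A) (h : PowerSeries A) (hh : h ≠ 0) (φ : PowerSeries F)
    (hn : ∀ n : ℕ, PowerSeries.map (algebraMap A F) h * φ ^ n ∈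
      (PowerSeries.map (algebraMap A F)).range) (k : ℕ) :
    ∃ c : A, algebraMap A F c = PowerSeries.coeff k φ := by
  classical
  induction k using Nat.strong_induction_on with
  | _ k ih =>
    obtain ⟨ι, hι⟩ : ∃ ι : PowerSeries A →+* PowerSeries F, ι = PowerSeries.map (algebraMap A F) :=
      ⟨_, rfl⟩
    rw [← hι] at hn
    choose! q hq using ih
    obtain ⟨p, hp⟩ : ∃ p : PowerSeries A, p = PowerSeries.mk (fun i => if i < k then q i else 0) :=
      ⟨_, rfl⟩
    -- lowest coefficient of `h`
    have hex : ∃ d, PowerSeries.coeff d h ≠ 0 := by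
      by_contra hcon
      push Not at hcon
      exact hh (PowerSeries.ext fun d => by rw [hcon d, map_zero])
    obtain ⟨d, hd⟩ : ∃ d, d = Nat.find hex := ⟨_, rfl⟩
    have hd0 : PowerSeries.coeff d h ≠ 0 := hd ▸ Nat.find_spec hex
    have hd1 : ∀ i < d, PowerSeries.coeff i h = 0 := fun i hi => by
      have := Nat.find_min hex (hd ▸ hi)
      push Not at this
      exact this
    obtain ⟨h1, hh1⟩ := PowerSeries.X_pow_dvd_iff.mpr hd1
    have hc1 : PowerSeries.coeff 0 h1 = PowerSeries.coeff d h := by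
      have := PowerSeries.coeff_X_pow_mul h1 d 0
      rw [← hh1, zero_add] at this
      exact this.symm
    -- `φ' = φ - p`
    have hφ' : ∀ i < k, PowerSeries.coeff i (φ - ι p) = 0 := by
      intro i hi
      rw [map_sub, hι, PowerSeries.coeff_map, hp, PowerSeries.coeff_mk, if_pos hi, hq i hi, sub_self]
    obtain ⟨θ, hθ⟩ := PowerSeries.X_pow_dvd_iff.mpr hφ'
    have hcθ : PowerSeries.coeff 0 θ = PowerSeries.coeff k φ := by
      have := PowerSeries.coeff_X_pow_mul θ k 0
      rw [← hθ, zero_add, map_sub, hι, PowerSeries.coeff_map, hp, PowerSeries.coeff_mk,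
        if_neg (lt_irrefl k), map_zero, sub_zero] at this
      exact this.symm
    have hn' : ∀ n : ℕ, ι h * (φ - ι p) ^ n ∈ ι.range := by
      intro n
      rw [sub_eq_add_neg, add_pow, Finset.mul_sum]
      apply Subring.sum_mem
      intro i _
      rw [← mul_assoc, ← mul_assoc]
      apply Subring.mul_mem _ _ (natCast_mem _ _)
      apply Subring.mul_mem _ (hn i)
      apply Subring.pow_mem
      apply Subring.neg_mem
      exact ⟨p, rfl⟩
    obtain ⟨a, b, hb, hab⟩ := IsFractionRing.div_surjective (A := A) (PowerSeries.coeff k φ)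
    have hb0 : b ≠ 0 := nonZeroDivisors.ne_zero hb
    have hb1 : algebraMap A F b ≠ 0 := by
      rwa [Ne, IsFractionRing.to_map_eq_zero_iff]
    have hdvd : b ∣ a := by
      apply hA a b (PowerSeries.coeff d h) hb0 hd0
      intro n
      obtain ⟨ψ, hψ⟩ := hn' n
      refine ⟨PowerSeries.coeff (d + k * n) ψ, ?_⟩
      apply IsFractionRing.injective A F
      have e1 : ι ψ = PowerSeries.X ^ (d + k * n) * (ι h1 * θ ^ n) := by
        rw [hψ, hθ, hh1, map_mul, map_pow, mul_pow, ← pow_mul, pow_add]
        have : ι PowerSeries.X = PowerSeries.X := by rw [hι, PowerSeries.map_X]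
        rw [this]
        ring
      have e2 : algebraMap A F (PowerSeries.coeff (d + k * n) ψ) =
          algebraMap A F (PowerSeries.coeff d h) * (PowerSeries.coeff k φ) ^ n := by
        have h2 := PowerSeries.coeff_X_pow_mul (ι h1 * θ ^ n) (d + k * n) 0
        rw [← e1, zero_add] at h2
        rw [← PowerSeries.coeff_map, ← hι, h2, ← hc1, ← hcθ]
        rw [PowerSeries.coeff_zero_eq_constantCoeff_apply,
          PowerSeries.coeff_zero_eq_constantCoeff_apply,
          PowerSeries.coeff_zero_eq_constantCoeff_apply, map_mul, map_pow, hι,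
          ← PowerSeries.coeff_zero_eq_constantCoeff_apply, PowerSeries.coeff_map,
          PowerSeries.coeff_zero_eq_constantCoeff_apply]
      rw [map_mul, map_mul, e2, ← hab, map_pow, map_pow, div_pow]
      field_simp
    obtain ⟨c, rfl⟩ := hdvd
    refine ⟨c, ?_⟩
    rw [← hab, map_mul, mul_div_cancel_left₀ _ hb1]

theorem cic_ps_10256 (A : Type u) [CommRing A] [IsDomain A] (hA : CIC_10256 A) :
    CIC_10256 (PowerSeries A) := by
  intro f g h hg hh hn
  obtain ⟨ι, hι⟩ : ∃ ι : PowerSeries A →+* PowerSeries (FractionRing A),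
    ι = PowerSeries.map (algebraMap A (FractionRing A)) := ⟨_, rfl⟩
  have hinj : Function.Injective ι := by
    intro x y hxy
    apply PowerSeries.ext
    intro n
    apply IsFractionRing.injective A (FractionRing A)
    rw [← PowerSeries.coeff_map, ← PowerSeries.coeff_map, ← hι, hxy]
  have hg' : ι g ≠ 0 := by rwa [Ne, map_eq_zero_iff ι hinj]
  have hh' : ι h ≠ 0 := by rwa [Ne, map_eq_zero_iff ι hinj]
  obtain ⟨φ, hφ⟩ := dvr_10256 (ι f) (ι g) (ι h) hg' hh' (by
    intro n
    rw [← map_pow, ← map_pow, ← map_mul]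
    exact map_dvd ι (hn n))
  have hφn : ∀ n : ℕ, ι h * φ ^ n ∈ ι.range := by
    intro n
    obtain ⟨ψ, hψ⟩ := hn n
    refine ⟨ψ, ?_⟩
    apply mul_left_cancel₀ (pow_ne_zero n hg')
    rw [← map_pow, ← map_mul, ← hψ, map_mul, map_pow, hφ, mul_pow, map_pow]
    ring
  have hc := coeff_10256 hA h hh φ (by rw [← hι]; exact hφn)
  choose c hc using hc
  refine ⟨PowerSeries.mk c, ?_⟩
  apply hinj
  rw [map_mul, hφ]
  congr 1
  apply PowerSeries.ext
  intro n
  rw [hι, PowerSeries.coeff_map, PowerSeries.coeff_mk, hc]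

theorem cic_mv_10256 (m : ℕ) {K : Type u} [Field K] : CIC_10256 (MvPowerSeries (Fin m) K) := by
  induction m with
  | zero =>
    apply cic_equiv_10256 (MvPowerSeries.isEmptyEquiv (Fin 0) K).toRingEquiv
    intro a b h hb _ _
    exact (Ne.isUnit hb).dvd
  | succ m ih =>
    apply cic_equiv_10256 (MvPowerSeries.finSuccEquiv K m).toRingEquiv
    have : IsDomain (MvPowerSeries (Fin m) K) := NoZeroDivisors.to_isDomain _
    exact cic_ps_10256 _ ih

/-- multivariate power series rings over a field are integrally closed domains -/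
theorem mv_integrallyClosed {m : ℕ} {K : Type u} [Field K] :
    IsDomain (MvPowerSeries (Fin m) K) ∧ IsIntegrallyClosed (MvPowerSeries (Fin m) K) :=
  have h : IsDomain (MvPowerSeries (Fin m) K) := NoZeroDivisors.to_isDomain _
  ⟨h, closed_of_cic_10256 _ (cic_mv_10256 m)⟩

end Pool.Agent.Helper819.DC.MVN1
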