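import Mathlib

set_option autoImplicit false

open PowerSeries IsLocalRing TensorProduct

universe u

namespace Pool.Agent.Helper819.DC.MVN2

/-- `B[[t]]` is integrally closed for a principal ideal domain `B` -/
theorem ps_integrallyClosed {B : Type u} [CommRing B] [IsDomain B] [IsPrincipalIdealRing B] :
    IsIntegrallyClosed B⟦X⟧ := inferInstance

theorem digits_inj (N : ℕ) (m : ℕ) : ∀ a b : Fin m → ℕ, (∀ j, a j < N) → (∀ j, b j < N) →
    ∑ j : Fin m, N ^ (j : ℕ) * a j = ∑ j : Fin m, N ^ (j : ℕ) * b j → a = b := by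
  induction m with
  | zero => intro a b _ _ _; funext j; exact j.elim0
  | succ m ih =>
    intro a b ha hb h
    have hN : 0 < N := lt_of_le_of_lt (Nat.zero_le _) (ha 0)
    rw [Fin.sum_univ_succ, Fin.sum_univ_succ] at h
    have e1 : ∀ c : Fin (m + 1) → ℕ, ∑ j : Fin m, N ^ ((Fin.succ j : Fin (m+1)) : ℕ) * c j.succ =
        N * ∑ j : Fin m, N ^ (j : ℕ) * c j.succ := by
      intro c
      rw [Finset.mul_sum]
      refine Finset.sum_congr rfl fun j _ => ?_
      rw [Fin.val_succ, pow_succ]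
      ring
    rw [e1, e1] at h
    simp only [Fin.val_zero, pow_zero, one_mul] at h
    have h0 : a 0 = b 0 := by
      have h1 := congrArg (· % N) h
      simp only [Nat.add_mul_mod_self_left] at h1
      rwa [Nat.mod_eq_of_lt (ha 0), Nat.mod_eq_of_lt (hb 0)] at h1
    have h2 : ∑ j : Fin m, N ^ (j : ℕ) * a j.succ = ∑ j : Fin m, N ^ (j : ℕ) * b j.succ := by
      rw [h0] at h
      exact Nat.eq_of_mul_eq_mul_left hN (Nat.add_left_cancel h)
    have h3 := ih (fun j => a j.succ) (fun j => b j.succ) (fun j => ha _) (fun j => hb _) h2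
    funext j
    refine Fin.cases h0 (fun i => ?_) j
    exact congrFun h3 i

/-- a nonzero power series is nonzero along some arc -/
theorem exists_arc {m : ℕ} {K : Type u} [Field K] (g : MvPowerSeries (Fin m) K) (hg : g ≠ 0) :
    ∃ β : MvPowerSeries (Fin m) K →ₐ[K] K⟦X⟧, β g ≠ 0 := by
  classical
  -- monomial of minimal degree
  have hex : ∃ d : ℕ, ∃ e : Fin m →₀ ℕ, MvPowerSeries.coeff e g ≠ 0 ∧ ∑ j, e j = d := by
    by_contra hcon
    push Not at hcon
    apply hg
    ext e
    by_contra hne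
    exact hcon _ e hne rfl
  obtain ⟨d, hd⟩ : ∃ d, d = Nat.find hex := ⟨_, rfl⟩
  obtain ⟨e0, he0, he0d⟩ := Nat.find_spec hex
  have hmin : ∀ e : Fin m →₀ ℕ, MvPowerSeries.coeff e g ≠ 0 → d ≤ ∑ j, e j := by
    intro e he
    rw [hd]
    exact Nat.find_min' hex ⟨e, he, rfl⟩
  rw [← hd] at he0d
  let N := d + 1
  let w : Fin m → ℕ := fun j => N ^ m * d + N ^ (j : ℕ)
  have hw : ∀ j, 0 < w j := fun j => by
    have : 0 < N ^ (j : ℕ) := pow_pos (by omega) _
    show 0 < N ^ m * d + N ^ (j : ℕ)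
    omega
  have hwsum : ∀ e : Fin m →₀ ℕ, ∑ j, w j * e j =
      N ^ m * d * (∑ j, e j) + ∑ j : Fin m, N ^ (j : ℕ) * e j := by
    intro e
    rw [Finset.mul_sum, ← Finset.sum_add_distrib]
    refine Finset.sum_congr rfl fun j _ => ?_
    show (N ^ m * d + N ^ (j : ℕ)) * e j = _
    ring
  have key : ∀ e : Fin m →₀ ℕ, MvPowerSeries.coeff e g ≠ 0 →
      ∑ j, w j * e j = ∑ j, w j * e0 j → e = e0 := by
    intro e he heq
    have h1 := hmin e he
    rw [hwsum, hwsum, he0d] at heq
    have hlt : ∀ j : Fin m, N ^ (j : ℕ) ≤ N ^ m := fun j =>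
      Nat.pow_le_pow_right (by omega) j.2.le
    have hb0 : ∑ j : Fin m, N ^ (j : ℕ) * e0 j ≤ N ^ m * d := by
      rw [← he0d, Finset.mul_sum]
      exact Finset.sum_le_sum fun j _ => Nat.mul_le_mul_right _ (hlt j)
    have hdeg : ∑ j, e j = d := by
      by_contra hne
      have h2 : d + 1 ≤ ∑ j, e j := by omega
      have h3 : N ^ m * d * (d + 1) ≤ N ^ m * d * (∑ j, e j) := Nat.mul_le_mul_left _ h2
      have h4 : ∑ j, e j ≤ ∑ j : Fin m, N ^ (j : ℕ) * e j :=
        Finset.sum_le_sum fun j _ => Nat.le_mul_of_pos_left _ (pow_pos (by omega) _)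
      have h5 : N ^ m * d * (d + 1) = N ^ m * d * d + N ^ m * d := by ring
      omega
    rw [hdeg] at heq
    have heq2 : ∑ j : Fin m, N ^ (j : ℕ) * e j = ∑ j : Fin m, N ^ (j : ℕ) * e0 j := Nat.add_left_cancel heq
    have hd1 : ∀ j, e j < N := by
      intro j
      have := Finset.single_le_sum (f := fun j => e j) (fun i _ => Nat.zero_le _)
        (Finset.mem_univ j)
      show e j < d + 1
      omega
    have hd2 : ∀ j, e0 j < N := by
      intro j
      have := Finset.single_le_sum (f := fun j => e0 j) (fun i _ => Nat.zero_le _)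
        (Finset.mem_univ j)
      show e0 j < d + 1
      omega
    have := digits_inj N m (fun j => e j) (fun j => e0 j) hd1 hd2 heq2
    ext j
    exact congrFun this j
  let a : Fin m → MvPowerSeries Unit K := fun j => (PowerSeries.X : K⟦X⟧) ^ w j
  have ha : MvPowerSeries.HasSubst a := by
    apply MvPowerSeries.hasSubst_of_constantCoeff_zero
    intro j
    have h1 : PowerSeries.constantCoeff ((PowerSeries.X : K⟦X⟧) ^ w j) = 0 := by
      rw [map_pow, PowerSeries.constantCoeff_X, zero_pow (hw j).ne']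
    exact h1
  refine ⟨MvPowerSeries.substAlgHom ha, ?_⟩
  intro hzero
  have h1 : MvPowerSeries.coeff (Finsupp.single () (∑ j, w j * e0 j)) (MvPowerSeries.subst a g)
      = 0 := by
    rw [← MvPowerSeries.coe_substAlgHom ha, hzero, map_zero]
  rw [MvPowerSeries.coeff_subst ha] at h1
  have hprod : ∀ e : Fin m →₀ ℕ, (e.prod fun s n => (a s) ^ n) =
      ((PowerSeries.X : K⟦X⟧) ^ (∑ j, w j * e j) : K⟦X⟧) := by
    intro e
    rw [Finsupp.prod_fintype _ _ (fun i => pow_zero _), ← Finset.prod_pow_eq_pow_sum]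
    refine Finset.prod_congr rfl fun j _ => ?_
    show ((PowerSeries.X : K⟦X⟧) ^ w j) ^ e j = _
    rw [← pow_mul]
  have hcoef : ∀ e : Fin m →₀ ℕ, MvPowerSeries.coeff (Finsupp.single () (∑ j, w j * e0 j))
      (e.prod fun s n => (a s) ^ n) = if ∑ j, w j * e0 j = ∑ j, w j * e j then (1 : K) else 0 := by
    intro e
    rw [hprod e]
    exact PowerSeries.coeff_X_pow _ _
  rw [finsum_eq_single _ e0] at h1
  · rw [hcoef, if_pos rfl, smul_eq_mul, mul_one] at h1
    exact he0 h1
  · intro e hne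
    rw [hcoef]
    by_cases hc : MvPowerSeries.coeff e g = 0
    · rw [hc, zero_smul]
    · rw [if_neg, smul_zero]
      intro h
      exact hne (key e hc h.symm)

end Pool.Agent.Helper819.DC.MVN2
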