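import Mathlib

set_option autoImplicit false

open PowerSeries IsLocalRing TensorProduct

universe u

namespace Pool.Agent.Helper819.DC.N1D

/-- A domain which is finite over `K[[x]]` embeds in `K[[t]]` with a conductor. -/
theorem norm_one_dim {K : Type u} [Field K] [IsAlgClosed K]
    (hclosure : ∀ (E L : Type u) [Field E] [Field L] [Algebra K⟦X⟧ E] [IsFractionRing K⟦X⟧ E]
      [Algebra E L] [Algebra K⟦X⟧ L] [IsScalarTower K⟦X⟧ E L] [FiniteDimensional E L],
      ∃ e : integralClosure K⟦X⟧ L ≃+* K⟦X⟧,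
        ∀ c : K, e (algebraMap K⟦X⟧ (integralClosure K⟦X⟧ L) (C c)) = C c)
    (hfin : ∀ ω : K⟦X⟧ →ₐ[K] K⟦X⟧, Function.Injective ω → ω.toRingHom.Finite)
    {D : Type u} [CommRing D] [IsDomain D] [Algebra K D] (i : K⟦X⟧ →ₐ[K] D)
    (hi : Function.Injective i) (hf : i.toRingHom.Finite) :
    ∃ j : D →ₐ[K] K⟦X⟧, Function.Injective j ∧ j.toRingHom.Finite ∧
      ∃ d : D, d ≠ 0 ∧ ∀ w : K⟦X⟧, ∃ a : D, j a = j d * w := by
  classical
  letI algD : Algebra K⟦X⟧ D := i.toRingHom.toAlgebra
  haveI hfinD : Module.Finite K⟦X⟧ D := hf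
  haveI hfaith : FaithfulSMul K⟦X⟧ D := by
    rw [faithfulSMul_iff_algebraMap_injective]
    exact hi
  haveI hintD : Algebra.IsIntegral K⟦X⟧ D := Algebra.IsIntegral.of_finite _ _
  haveI halgD : Algebra.IsAlgebraic K⟦X⟧ D := inferInstance
  haveI hfaithL : FaithfulSMul K⟦X⟧ (FractionRing D) := by
    rw [faithfulSMul_iff_algebraMap_injective, IsScalarTower.algebraMap_eq K⟦X⟧ D (FractionRing D)]
    exact (IsFractionRing.injective D (FractionRing D)).comp hi
  letI algEL : Algebra (FractionRing K⟦X⟧) (FractionRing D) := FractionRing.liftAlgebra K⟦X⟧ (FractionRing D)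
  haveI hst : IsScalarTower K⟦X⟧ (FractionRing K⟦X⟧) (FractionRing D) :=
    FractionRing.isScalarTower_liftAlgebra K⟦X⟧ (FractionRing D)
  haveI hfd : FiniteDimensional (FractionRing K⟦X⟧) (FractionRing D) :=
    Module.Finite.of_isLocalization K⟦X⟧ D (nonZeroDivisors K⟦X⟧)
  obtain ⟨e, he⟩ := hclosure (FractionRing K⟦X⟧) (FractionRing D)
  have hmem : ∀ a : D, algebraMap D (FractionRing D) a ∈ integralClosure K⟦X⟧ (FractionRing D) := by
    intro a
    exact (Algebra.IsIntegral.isIntegral (R := K⟦X⟧) a).map (IsScalarTower.toAlgHom K⟦X⟧ D (FractionRing D))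
  let g : D →+* integralClosure K⟦X⟧ (FractionRing D) :=
    (algebraMap D (FractionRing D)).codRestrict (integralClosure K⟦X⟧ (FractionRing D)) hmem
  have hg : ∀ a : D, ((g a : integralClosure K⟦X⟧ (FractionRing D)) : FractionRing D) =
      algebraMap D (FractionRing D) a := fun a => rfl
  let jr : D →+* K⟦X⟧ := (e : integralClosure K⟦X⟧ (FractionRing D) →+* K⟦X⟧).comp g
  have hjr : ∀ a, jr a = e (g a) := fun a => rfl
  have hcomm : ∀ c : K, jr (algebraMap K D c) = algebraMap K K⟦X⟧ c := by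
    intro c
    rw [hjr]
    have h1 : g (algebraMap K D c) = algebraMap K⟦X⟧ (integralClosure K⟦X⟧ (FractionRing D)) (C c) := by
      apply Subtype.ext
      rw [hg]
      have h2 : algebraMap K D c = i (C c) := by
        have := i.commutes c
        rw [← this]
        rfl
      rw [h2]
      have h3 : algebraMap K⟦X⟧ (FractionRing D) (C c) = algebraMap D (FractionRing D) (i (C c)) := by
        rw [IsScalarTower.algebraMap_apply K⟦X⟧ D (FractionRing D)]
        rfl
      rw [← h3]
      rfl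
    rw [h1, he]
    rfl
  let j : D →ₐ[K] K⟦X⟧ := { jr with commutes' := hcomm }
  have hj : ∀ a, j a = e (g a) := fun a => rfl
  have hjinj : Function.Injective j := by
    intro a b hab
    rw [hj, hj] at hab
    have h1 := e.injective hab
    have h2 := congrArg (fun z : integralClosure K⟦X⟧ (FractionRing D) => (z : FractionRing D)) h1
    exact IsFractionRing.injective D (FractionRing D) h2
  have hjfin : j.toRingHom.Finite := by
    have h1 := hfin (j.comp i) (hjinj.comp hi)
    have h2 : (j.comp i).toRingHom = j.toRingHom.comp i.toRingHom := rfl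
    rw [h2] at h1
    exact RingHom.Finite.of_comp_finite h1
  refine ⟨j, hjinj, hjfin, ?_⟩
  letI algJ : Algebra D K⟦X⟧ := j.toRingHom.toAlgebra
  haveI hfinJ : Module.Finite D K⟦X⟧ := hjfin
  obtain ⟨S, hS⟩ := hfinJ.fg_top
  obtain ⟨b, hb⟩ := IsLocalization.exist_integer_multiples_of_finset (nonZeroDivisors D)
    (S.image (fun w => ((e.symm w : integralClosure K⟦X⟧ (FractionRing D)) : FractionRing D)))
  have hb0 : (b : D) ≠ 0 := nonZeroDivisors.ne_zero b.2
  refine ⟨b, hb0, fun w => ?_⟩
  have hw : w ∈ Submodule.span D (S : Set K⟦X⟧) := by rw [hS]; trivial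
  induction hw using Submodule.span_induction with
  | mem x hx =>
    obtain ⟨a', ha'⟩ := hb _ (Finset.mem_image_of_mem _ (Finset.mem_coe.1 hx))
    refine ⟨a', ?_⟩
    have h1 : g a' = g b * e.symm x := by
      apply Subtype.ext
      rw [hg, ha']
      show (b : D) • ((e.symm x : integralClosure K⟦X⟧ (FractionRing D)) : FractionRing D) =
        algebraMap D (FractionRing D) b * (e.symm x : FractionRing D)
      rw [Algebra.smul_def]
    rw [hj, hj, h1, map_mul, RingEquiv.apply_symm_apply]
  | zero => exact ⟨0, by rw [map_zero, mul_zero]⟩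
  | add x y _ _ hx hy =>
    obtain ⟨a, ha⟩ := hx
    obtain ⟨a', ha'⟩ := hy
    exact ⟨a + a', by rw [map_add, ha, ha', mul_add]⟩
  | smul c x _ hx =>
    obtain ⟨a, ha⟩ := hx
    refine ⟨c * a, ?_⟩
    have h1 : c • x = j c * x := rfl
    rw [map_mul, ha, h1]
    ring

end Pool.Agent.Helper819.DC.N1D
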