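import Mathlib

set_option autoImplicit false

open PowerSeries IsLocalRing TensorProduct

universe u

namespace Pool.Agent.Helper819.DC.NORM1

theorem nzd_10261 {A P : Type u} [CommRing A] [CommRing P] [Algebra A P]
    (hinj : Function.Injective (algebraMap A P)) (d : A)
    (hd : algebraMap A P d ∈ nonZeroDivisors P)
    (hcond : ∀ p : P, ∃ a : A, algebraMap A P a = algebraMap A P d * p) (s : A)
    (hs : s ∈ nonZeroDivisors A) : algebraMap A P s ∈ nonZeroDivisors P := by
  rw [mem_nonZeroDivisors_iff_right] at hs hd ⊢
  intro p hp
  obtain ⟨a, ha⟩ := hcond p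
  have h1 : a * s = 0 := by
    apply hinj
    rw [map_mul, map_zero, ha, mul_assoc, hp, mul_zero]
  have h2 := hs a h1
  rw [h2, map_zero] at ha
  apply hd
  rw [mul_comm, ← ha]

/-- the normalisation is characterised by a conductor element -/
theorem norm_of_conductor {A P : Type u} [CommRing A] [CommRing P] [Algebra A P]
    (hinj : Function.Injective (algebraMap A P)) (d : A)
    (hd : algebraMap A P d ∈ nonZeroDivisors P)
    (hcond : ∀ p : P, ∃ a : A, algebraMap A P a = algebraMap A P d * p)
    (hint : Algebra.IsIntegral A P)
    (hclosed : ∀ x : FractionRing P, IsIntegral P x → ∃ p : P, algebraMap P (FractionRing P) p = x) :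
    Nonempty (P ≃ₐ[A] integralClosure A (FractionRing A)) := by
  have hnzd := nzd_10261 hinj d hd hcond
  have hinj2 : Function.Injective (algebraMap A (FractionRing P)) := by
    rw [IsScalarTower.algebraMap_eq A P (FractionRing P)]
    exact (IsFractionRing.injective P (FractionRing P)).comp hinj
  have hloc : IsLocalization (nonZeroDivisors A) (FractionRing P) := by
    rw [isLocalization_iff]
    refine ⟨?_, ?_, ?_⟩
    · rintro ⟨s, hs⟩
      rw [IsScalarTower.algebraMap_apply A P (FractionRing P)]
      exact IsLocalization.map_units (FractionRing P) (⟨_, hnzd s hs⟩ : nonZeroDivisors P)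
    · intro z
      obtain ⟨⟨p, q⟩, hpq⟩ := IsLocalization.surj (nonZeroDivisors P) z
      obtain ⟨a, ha⟩ := hcond p
      obtain ⟨s, hs⟩ := hcond q
      have hsn : s ∈ nonZeroDivisors A := by
        have h1 : algebraMap A P s ∈ nonZeroDivisors P := by
          rw [hs]; exact mul_mem hd q.2
        rw [mem_nonZeroDivisors_iff_right] at h1 ⊢
        intro x hx
        apply hinj
        rw [map_zero]
        apply h1
        rw [← map_mul, hx, map_zero]
      refine ⟨⟨a, ⟨s, hsn⟩⟩, ?_⟩
      simp only at hpq ⊢
      rw [IsScalarTower.algebraMap_apply A P (FractionRing P),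
        IsScalarTower.algebraMap_apply A P (FractionRing P), ha, hs, map_mul, map_mul, ← hpq]
      ring
    · intro x y h
      exact ⟨1, by rw [hinj2 h]⟩
  have hic : IsIntegralClosure P A (FractionRing P) := by
    refine ⟨IsFractionRing.injective P (FractionRing P), ?_⟩
    intro x
    constructor
    · intro hx
      exact hclosed x hx.tower_top
    · rintro ⟨p, rfl⟩
      exact (Algebra.IsIntegral.isIntegral (R := A) p).algebraMap
  have φ : FractionRing A ≃ₐ[A] FractionRing P :=
    IsLocalization.algEquiv (nonZeroDivisors A) _ _
  have e1 : P ≃ₐ[A] integralClosure A (FractionRing P) :=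
    IsIntegralClosure.equiv A P (FractionRing P) (integralClosure A (FractionRing P))
  exact ⟨e1.trans φ.mapIntegralClosure.symm⟩

end Pool.Agent.Helper819.DC.NORM1
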