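import Mathlib

set_option autoImplicit false

open PowerSeries IsLocalRing TensorProduct

universe u

namespace Pool.Agent.Helper819.DC.NORM2

/-- a finite product of integrally closed domains is closed in its total ring of fractions -/
theorem pi_closed {r : ℕ} (P : Fin r → Type u) [∀ i, CommRing (P i)] [∀ i, IsDomain (P i)]
    [∀ i, IsIntegrallyClosed (P i)] (x : FractionRing (∀ i, P i)) (hx : IsIntegral (∀ i, P i) x) :
    ∃ p, algebraMap (∀ i, P i) (FractionRing (∀ i, P i)) p = x := by
  classical
  obtain ⟨⟨p, s⟩, hps⟩ := IsLocalization.surj (nonZeroDivisors (∀ i, P i)) x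
  simp only at hps
  have hne : ∀ (t : ∀ i, P i), t ∈ nonZeroDivisors (∀ i, P i) → ∀ i, t i ≠ 0 := by
    intro t ht i h0
    have h1 : t * Pi.single i 1 = 0 := by
      funext j
      by_cases hj : j = i
      · subst hj; simp [h0]
      · simp [Pi.single_eq_of_ne hj]
    have h2 := (mem_nonZeroDivisors_iff.1 ht).1 _ h1
    have h3 := congrFun h2 i
    simp at h3
  have hlift : ∀ i, ∀ y : nonZeroDivisors (∀ i, P i),
      IsUnit (((algebraMap (P i) (FractionRing (P i))).comp (Pi.evalRingHom P i)) y) := by
    intro i y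
    rw [isUnit_iff_ne_zero]
    simp only [RingHom.coe_comp, Function.comp_apply, Pi.evalRingHom_apply, ne_eq,
      FaithfulSMul.algebraMap_eq_zero_iff]
    exact hne y y.2 i
  let π : ∀ i, FractionRing (∀ i, P i) →+* FractionRing (P i) := fun i =>
    IsLocalization.lift (M := nonZeroDivisors (∀ i, P i)) (hlift i)
  have hπ : ∀ i (t : ∀ i, P i), π i (algebraMap _ _ t) = algebraMap (P i) _ (t i) := by
    intro i t
    exact IsLocalization.lift_eq (hlift i) t
  have hq : ∀ i, ∃ q : P i, algebraMap (P i) (FractionRing (P i)) q = π i x := by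
    intro i
    have h1 : IsIntegral (P i) (π i x) := by
      refine hx.map_of_comp_eq (Pi.evalRingHom P i) (π i) ?_
      ext t
      simp [hπ]
    exact IsIntegrallyClosed.isIntegral_iff.1 h1
  choose q hq using hq
  refine ⟨q, ?_⟩
  have h1 : q * (s : ∀ i, P i) = p := by
    funext i
    have h2 := congrArg (π i) hps
    rw [map_mul, hπ, hπ, ← hq, ← map_mul] at h2
    exact IsFractionRing.injective (P i) (FractionRing (P i)) h2
  have hu : IsUnit (algebraMap (∀ i, P i) (FractionRing (∀ i, P i)) s) :=
    IsLocalization.map_units _ s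
  apply hu.mul_right_cancel
  rw [hps, ← map_mul, h1]

end Pool.Agent.Helper819.DC.NORM2
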