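import Pool.Agent.Helper819.DC.Core2

set_option autoImplicit false

open PowerSeries IsLocalRing TensorProduct

universe u

namespace Pool.Agent.Helper819.DC


namespace PSH

/-- `K`-algebra homs between local rings with residue field `K` kill the maximal ideal -/
theorem map_max_aux {K : Type u} [Field K] {A A' : Type u} [CommRing A] [IsLocalRing A]
    [Algebra K A] [CommRing A'] [Algebra K A'] (π' : A' →ₐ[K] K)
    (ψ : A →ₐ[K] A') (a : A) (ha : a ∈ maximalIdeal A) : π' (ψ a) = 0 := by
  by_contra hc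
  have h1 : IsUnit (algebraMap K A (π' (ψ a))) := (IsUnit.mk0 _ hc).map (algebraMap K A)
  have h2 : IsUnit (a - algebraMap K A (π' (ψ a))) := by
    by_contra h3
    have h4 : a - algebraMap K A (π' (ψ a)) ∈ maximalIdeal A := (mem_maximalIdeal _).2 h3
    have h5 : algebraMap K A (π' (ψ a)) ∈ maximalIdeal A := by
      have := (maximalIdeal A).sub_mem ha h4
      simpa using this
    exact (mem_maximalIdeal _).1 h5 h1
  have h6 : IsUnit (π' (ψ (a - algebraMap K A (π' (ψ a))))) := (h2.map ψ).map π'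
  have h7 : π' (ψ (a - algebraMap K A (π' (ψ a)))) = 0 := by
    rw [map_sub, map_sub, AlgHom.commutes, AlgHom.commutes]
    simp
  rw [h7] at h6
  exact not_isUnit_zero h6

/-- `K`-algebra homs between local rings with residue field `K` are local -/
theorem map_max {K : Type u} [Field K] {A A' : Type u} [CommRing A] [IsLocalRing A] [Algebra K A]
    [CommRing A'] [IsLocalRing A'] [Algebra K A'] (π : A →ₐ[K] K) (π' : A' →ₐ[K] K)
    (ψ : A →ₐ[K] A') (a : A) (ha : a ∈ maximalIdeal A) : ψ a ∈ maximalIdeal A' := by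
  have h := map_max_aux π' ψ a ha
  rw [mem_maximalIdeal, mem_nonunits_iff]
  intro hu
  have := hu.map π'
  rw [h] at this
  exact not_isUnit_zero this

theorem push_sim_res {K : Type u} [Field K] {A A' : Type u} [CommRing A] [IsLocalRing A]
    [Algebra K A] [CommRing A'] [Algebra K A'] (π : A →ₐ[K] K) (π' : A' →ₐ[K] K)
    (ψ : A →ₐ[K] A') (a : A) : π' (ψ a) = π a := by
  have h1 : a - algebraMap K A (π a) ∈ maximalIdeal A := by
    rw [mem_maximalIdeal, mem_nonunits_iff]
    intro hu
    have := hu.map π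
    rw [map_sub, AlgHom.commutes] at this
    simp at this
  have h2 := map_max_aux π' ψ _ h1
  rw [map_sub, map_sub, AlgHom.commutes, AlgHom.commutes] at h2
  have h3 := sub_eq_zero.1 h2
  rw [h3]
  rfl

theorem mem_max_ps {A : Type u} [CommRing A] [IsLocalRing A] (w : A⟦X⟧) :
    w ∈ maximalIdeal A⟦X⟧ ↔ PowerSeries.constantCoeff w ∈ maximalIdeal A := by
  rw [mem_maximalIdeal, mem_maximalIdeal, mem_nonunits_iff, mem_nonunits_iff,
    PowerSeries.isUnit_iff_constantCoeff]

/-- base change of simultaneous parametrisations -/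
theorem push_sim (hT : Tools.{u}) {K : Type u} [Field K] {τ r : ℕ} (D : Setup K τ r)
    {A A' : Type u} [CommRing A] [IsLocalRing A] [Algebra K A] [CommRing A'] [IsLocalRing A']
    [IsNoetherianRing A'] [IsAdicComplete (maximalIdeal A') A'] [Algebra K A']
    (π : A →ₐ[K] K) (π' : A' →ₐ[K] K) (ψ : A →ₐ[K] A')
    (s : Fin τ → A) (Φ : Par A r) (hsim : SimPar D π s Φ) :
    ∃ Φ' : Par A' r, (∀ h, Φ' (map2 (ψ : A →+* A') h) = mapP (ψ : A →+* A') (Φ h)) ∧
      SimPar D π' (fun k => ψ (s k)) Φ' := by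
  have hloc : ∀ w : A⟦X⟧, w ∈ maximalIdeal A⟦X⟧ →
      PowerSeries.map (ψ : A →+* A') w ∈ maximalIdeal A'⟦X⟧ := by
    intro w hw
    rw [mem_max_ps] at hw ⊢
    have h1 : PowerSeries.constantCoeff (PowerSeries.map (ψ : A →+* A') w) =
        ψ (PowerSeries.constantCoeff w) := by
      rw [← PowerSeries.coeff_zero_eq_constantCoeff_apply, PowerSeries.coeff_map,
        PowerSeries.coeff_zero_eq_constantCoeff_apply]
      rfl
    rw [h1]
    exact map_max π π' ψ _ hw
  obtain ⟨Φ', h1, h2⟩ := hT.par_exists (A := A') (r := r) (mapP (ψ : A →+* A') (Φ (C X)))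
    (mapP (ψ : A →+* A') (Φ X))
    (fun i => hloc _ (hT.par_local Φ i).1) (fun i => hloc _ (hT.par_local Φ i).2)
  have hpush := hT.push (ψ : A →+* A') Φ Φ' h1 h2
  have hres : (π' : A' →+* K).comp (ψ : A →+* A') = (π : A →+* K) := by
    ext a
    exact push_sim_res π π' ψ a
  refine ⟨Φ', hpush, ⟨fun k => map_max π π' ψ _ (hsim.mem k), ?_, ?_⟩⟩
  · have h3 := (hT.lifts_iff π D.φ Φ).1 hsim.lifts
    rw [hT.lifts_iff, h1, h2, hT.mapP_comp, hT.mapP_comp, hres]
    exact h3
  · have h4 : D.F (fun k => ψ (s k)) = map2 (ψ : A →+* A') (D.F s) :=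
      (hT.map2_fam ψ D.f D.g s).symm
    rw [h4, hpush, hsim.zero, map_zero]

theorem rho_bij_map (hB : BaseFacts.{u}) {K : Type u} [Field K] {A : Type u} [CommRing A]
    [Algebra K A] (π : A →ₐ[K] K) (ρ : A⟦X⟧ →ₐ[A] A⟦X⟧)
    (hρ : PowerSeries.map (π : A →+* K) (ρ X) = X) (w : A⟦X⟧) :
    PowerSeries.map (π : A →+* K) (ρ w) = PowerSeries.map (π : A →+* K) w := by
  letI : Algebra A K⟦X⟧ := ((PowerSeries.C : K →+* K⟦X⟧).comp (π : A →+* K)).toAlgebra
  haveI := (hB.complete_powerSeries_field (K := K)).toIsHausdorff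
  have hmap : ∀ a : A, PowerSeries.map (π : A →+* K) (algebraMap A A⟦X⟧ a) =
      algebraMap A K⟦X⟧ a := by
    intro a
    rw [PowerSeries.algebraMap_apply, Algebra.algebraMap_self, RingHom.id_apply,
      PowerSeries.map_C]
    rfl
  let Φ : A⟦X⟧ →ₐ[A] K⟦X⟧ :=
    { toRingHom := (PowerSeries.map (π : A →+* K)).comp (ρ : A⟦X⟧ →+* A⟦X⟧)
      commutes' := fun a => by
        show PowerSeries.map (π : A →+* K) (ρ (algebraMap A A⟦X⟧ a)) = _
        rw [ρ.commutes, hmap] }
  let Ψ : A⟦X⟧ →ₐ[A] K⟦X⟧ :=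
    { toRingHom := PowerSeries.map (π : A →+* K)
      commutes' := fun a => by
        show PowerSeries.map (π : A →+* K) (algebraMap A A⟦X⟧ a) = _
        rw [hmap] }
  have hX : (X : K⟦X⟧) ∈ maximalIdeal K⟦X⟧ := by
    rw [mem_maximalIdeal, mem_nonunits_iff, PowerSeries.isUnit_iff_constantCoeff]
    simp
  have := hB.ev_unique (maximalIdeal K⟦X⟧) (X : K⟦X⟧) hX Φ Ψ hρ (PowerSeries.map_X _)
  exact DFunLike.congr_fun this w

/-- reparametrisations are bijective, and the chain rule for them -/
theorem rho_bij (hB : BaseFacts.{u}) {K : Type u} [Field K] {A : Type u} [CommRing A]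
    [IsLocalRing A] [IsNoetherianRing A]
    [IsAdicComplete (maximalIdeal A) A] [Algebra K A] (π : A →ₐ[K] K) (ρ : A⟦X⟧ →ₐ[A] A⟦X⟧)
    (hρ : PowerSeries.map (π : A →+* K) (ρ X) = X) : Function.Bijective ρ := by
  set M : ℕ → Ideal A⟦X⟧ := fun n => (maximalIdeal A ^ n).map (PowerSeries.C : A →+* A⟦X⟧) with hM
  have hMmem : ∀ n w, w ∈ M n ↔ ∀ j, PowerSeries.coeff j w ∈ maximalIdeal A ^ n :=
    fun n w => hB.mem_map_C _ w
  have hker : ∀ a : A, π a = 0 → a ∈ maximalIdeal A := by
    intro a ha
    rw [mem_maximalIdeal, mem_nonunits_iff]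
    intro hu
    have := hu.map π
    rw [ha] at this
    exact not_isUnit_zero this
  have hδ1 : ∀ w, ρ w - w ∈ M 1 := by
    intro w
    rw [hMmem]
    intro j
    rw [pow_one]
    apply hker
    have h1 := congrArg (PowerSeries.coeff j) (rho_bij_map hB π ρ hρ w)
    rw [PowerSeries.coeff_map, PowerSeries.coeff_map] at h1
    rw [map_sub, map_sub]
    exact sub_eq_zero.2 h1
  have hC : ∀ a : A, ρ (PowerSeries.C a) = PowerSeries.C a := by
    intro a
    have := ρ.commutes a
    rwa [PowerSeries.algebraMap_apply, Algebra.algebraMap_self, RingHom.id_apply] at this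
  have hMmul : ∀ n, M 1 * M n = M (n + 1) := by
    intro n
    rw [hM]
    simp only
    rw [← Ideal.map_mul, pow_one, ← pow_succ']
  have hδ : ∀ n w, w ∈ M n → ρ w - w ∈ M (n + 1) := by
    intro n w hw
    have key : ∀ v : A⟦X⟧, ρ (v * w) - v * w ∈ M (n + 1) := by
      rw [hM] at hw
      simp only [Ideal.map] at hw
      induction hw using Submodule.span_induction with
      | mem x hx =>
        obtain ⟨a, ha, rfl⟩ := hx
        intro v
        have e : ρ (v * PowerSeries.C a) - v * PowerSeries.C a = (ρ v - v) * PowerSeries.C a := by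
          rw [map_mul, hC]; ring
        rw [e, ← hMmul]
        exact Ideal.mul_mem_mul (hδ1 v) (Ideal.mem_map_of_mem _ ha)
      | zero =>
        intro v
        simp
      | add x y _ _ hx hy =>
        intro v
        have e : ρ (v * (x + y)) - v * (x + y) = (ρ (v * x) - v * x) + (ρ (v * y) - v * y) := by
          rw [mul_add, map_add]; ring
        rw [e]
        exact (M (n + 1)).add_mem (hx v) (hy v)
      | smul c x _ hx =>
        intro v
        have e : v * (c • x) = (v * c) * x := by rw [smul_eq_mul]; ring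
        rw [e]
        exact hx (v * c)
    simpa using key 1
  have hM0 : ∀ w, w ∈ M 0 := by
    intro w
    rw [hMmem]
    intro j
    rw [pow_zero, Ideal.one_eq_top]
    trivial
  have hsep : ∀ w, (∀ n, w ∈ M n) → w = 0 := by
    intro w hw
    ext j
    rw [map_zero]
    apply (inferInstance : IsHausdorff (maximalIdeal A) A).haus
    intro n
    rw [SModEq.zero, smul_eq_mul, Ideal.mul_top]
    exact (hMmem n w).1 (hw n) j
  have hMle : ∀ {m n}, m ≤ n → M n ≤ M m := by
    intro m n hmn
    exact Ideal.map_mono (Ideal.pow_le_pow_right hmn)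
  constructor
  · rw [injective_iff_map_eq_zero]
    intro w hw
    apply hsep
    intro n
    induction n with
    | zero => exact hM0 w
    | succ n ih =>
      have := hδ n w ih
      rw [hw, zero_sub] at this
      simpa using (M (n + 1)).neg_mem this
  · intro v
    -- the iteration `w ↦ v - (ρ w - w)`
    let W : ℕ → A⟦X⟧ := fun n => Nat.rec 0 (fun _ w => v - (ρ w - w)) n
    have hW0 : W 0 = 0 := rfl
    have hWs : ∀ n, W (n + 1) = v - (ρ (W n) - W n) := fun n => rfl
    have hdiff : ∀ n, W (n + 1) - W n ∈ M n := by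
      intro n
      induction n with
      | zero => exact hM0 _
      | succ n ih =>
        have := (M (n + 1)).neg_mem (hδ n _ ih)
        rw [map_sub] at this
        rw [hWs (n + 1)]
        nth_rewrite 3 [hWs n]
        convert this using 1
        ring
    have hcau : ∀ {m n}, m ≤ n → W n - W m ∈ M m := by
      intro m n hmn
      induction n, hmn using Nat.le_induction with
      | base => simp
      | succ n hmn ih =>
        have := (M m).add_mem (hMle hmn (hdiff n)) ih
        convert this using 1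
        ring
    have hlim : ∀ j, ∃ l : A, ∀ n, PowerSeries.coeff j (W n) - l ∈ maximalIdeal A ^ n := by
      intro j
      obtain ⟨L, hL⟩ := (inferInstance : IsPrecomplete (maximalIdeal A) A).prec
        (f := fun n => PowerSeries.coeff j (W n)) (by
          intro m n hmn
          rw [SModEq.sub_mem, smul_eq_mul, Ideal.mul_top, ← map_sub]
          have := (hMmem m _).1 ((M m).neg_mem (hcau hmn)) j
          rwa [neg_sub] at this)
      refine ⟨L, fun n => ?_⟩
      have := hL n
      rwa [SModEq.sub_mem, smul_eq_mul, Ideal.mul_top] at this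
    choose l hl using hlim
    refine ⟨PowerSeries.mk l, ?_⟩
    have hwn : ∀ n, PowerSeries.mk l - W n ∈ M n := by
      intro n
      rw [hMmem]
      intro j
      have := (maximalIdeal A ^ n).neg_mem (hl j n)
      rw [neg_sub] at this
      rwa [map_sub, PowerSeries.coeff_mk]
    have hρM : ∀ n w, w ∈ M n → ρ w ∈ M n := by
      intro n w hw
      have := (M n).add_mem (hMle (Nat.le_succ n) (hδ n w hw)) hw
      simpa using this
    apply sub_eq_zero.1
    apply hsep
    intro n
    have h1 : ρ (W n) - v ∈ M n := by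
      have := (M n).neg_mem (hdiff n)
      rw [hWs n] at this
      convert this using 1
      ring
    have h2 := (M n).add_mem (hρM n _ (hwn n)) h1
    rw [map_sub] at h2
    convert h2 using 1
    ring

theorem rho_chain (hB : BaseFacts.{u}) {A : Type u} [CommRing A]
    [IsLocalRing A] [IsNoetherianRing A] (ρ : A⟦X⟧ →ₐ[A] A⟦X⟧) (w : A⟦X⟧) :
    d⁄dX A (ρ w) = ρ (d⁄dX A w) * d⁄dX A (ρ X) := by
  let Φ : A⟦X⟧⟦X⟧ →ₐ[A] A⟦X⟧ :=
    { toRingHom := (ρ : A⟦X⟧ →+* A⟦X⟧).comp (PowerSeries.constantCoeff : A⟦X⟧⟦X⟧ →+* A⟦X⟧)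
      commutes' := fun a => by
        show ρ (PowerSeries.constantCoeff (algebraMap A A⟦X⟧⟦X⟧ a)) = _
        rw [PowerSeries.algebraMap_apply, PowerSeries.constantCoeff_C, ρ.commutes] }
  have hΦ : ∀ h, Φ h = ρ (PowerSeries.constantCoeff h) := fun h => rfl
  have h := hB.chain Φ (PowerSeries.C w)
  rw [hΦ, hΦ, hΦ, hΦ, hΦ, PowerSeries.constantCoeff_C, PowerSeries.constantCoeff_C,
    PowerSeries.constantCoeff_X, map_zero, map_zero, mul_zero, add_zero] at h
  have h2 : PowerSeries.constantCoeff (dx (PowerSeries.C w)) = d⁄dX A w := by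
    rw [← PowerSeries.coeff_zero_eq_constantCoeff_apply]
    unfold dx
    rw [PowerSeries.coeff_mk, PowerSeries.coeff_zero_C]
  rw [h2] at h
  exact h

end PSH

end Pool.Agent.Helper819.DC
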