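import Pool.Agent.Helper819.DC.Core4

set_option autoImplicit false

open PowerSeries IsLocalRing TensorProduct

universe u

namespace Pool.Agent.Helper819.DC


namespace S1

theorem DC_prim_aux {B : Type u} [CommRing B] [IsDomain B] [IsDiscreteValuationRing B]
    (q : Polynomial B) (hq : ∀ r : B, Polynomial.C r ∣ q → IsUnit r) :
    q.map (residue B) ≠ 0 := by
  intro h
  obtain ⟨v, hv⟩ := IsDiscreteValuationRing.exists_irreducible B
  have hm : maximalIdeal B = Ideal.span {v} :=
    (IsDiscreteValuationRing.irreducible_iff_uniformizer v).1 hv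
  have h1 : Polynomial.C v ∣ q := by
    rw [Polynomial.C_dvd_iff_dvd_coeff]
    intro i
    have h2 : residue B (q.coeff i) = 0 := by
      rw [← Polynomial.coeff_map, h, Polynomial.coeff_zero]
    rw [residue_eq_zero_iff, hm, Ideal.mem_span_singleton] at h2
    exact h2
  exact hv.not_isUnit (hq v h1)

/-- an endomorphism of a finite dimensional space over the fraction field of a DVR is killed by a
primitive polynomial with coefficients in the DVR -/
theorem prim {B E V : Type u} [CommRing B] [IsDomain B] [IsDiscreteValuationRing B] [Field E]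
    [Algebra B E] [IsFractionRing B E] [AddCommGroup V] [Module E V] [FiniteDimensional E V]
    (ξ : V →ₗ[E] V) :
    ∃ W : Polynomial B, Polynomial.aeval ξ (W.map (algebraMap B E)) = 0 ∧
      W.map (residue B) ≠ 0 := by
  classical
  obtain ⟨b, hb, hbs⟩ := IsLocalization.integerNormalization_spec (nonZeroDivisors B) (S := E) ξ.charpoly
  set p : Polynomial B := IsLocalization.integerNormalization (nonZeroDivisors B) ξ.charpoly
    with hp
  have hb0 : b ≠ 0 := nonZeroDivisors.ne_zero hb
  have hbE : algebraMap B E b ≠ 0 := by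
    intro h
    exact hb0 (IsFractionRing.injective B E (by rw [h, map_zero]))
  have hbs' : p.map (algebraMap B E) = Polynomial.C (algebraMap B E b) * ξ.charpoly := by
    rw [hbs, ← Polynomial.smul_eq_C_mul]
    exact (algebraMap_smul E b ξ.charpoly).symm
  have hp0 : p ≠ 0 := by
    intro h0
    rw [h0, Polynomial.map_zero] at hbs'
    have h1 := (mul_eq_zero.1 hbs'.symm)
    rcases h1 with h1 | h1
    · exact hbE (Polynomial.C_eq_zero.1 h1)
    · exact ξ.charpoly_monic.ne_zero h1
  have hpa : Polynomial.aeval ξ (p.map (algebraMap B E)) = 0 := by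
    rw [hbs', map_mul, ξ.aeval_self_charpoly, mul_zero]
  let _inst : NormalizedGCDMonoid B := Classical.choice inferInstance
  refine ⟨p.primPart, ?_, DC_prim_aux _ p.isPrimitive_primPart⟩
  have h2 : p.map (algebraMap B E) =
      Polynomial.C (algebraMap B E p.content) * p.primPart.map (algebraMap B E) := by
    conv_lhs => rw [p.eq_C_content_mul_primPart]
    rw [Polynomial.map_mul, Polynomial.map_C]
  rw [h2, map_mul, Polynomial.aeval_C] at hpa
  have hc : algebraMap B E p.content ≠ 0 := by
    intro h
    have h3 : p.content = 0 := IsFractionRing.injective B E (by rw [h, map_zero])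
    exact hp0 (Polynomial.content_eq_zero_iff.1 h3)
  have hpa' : (algebraMap B E p.content) • Polynomial.aeval ξ (p.primPart.map (algebraMap B E)) = 0 := by
    rw [Algebra.smul_def]
    exact hpa
  exact (smul_eq_zero.1 hpa').resolve_left hc

theorem DC_aeval_ne_zero {K : Type u} [Field K] (s : K⟦X⟧) (hs : s ≠ 0)
    (hs0 : PowerSeries.constantCoeff s = 0) (p : Polynomial K) (hp : p ≠ 0) :
    Polynomial.aeval s p ≠ 0 := by
  have hdvd : (Polynomial.X : Polynomial K) ^ p.natTrailingDegree ∣ p :=
    Polynomial.X_pow_dvd_iff.2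
      (fun d hd => Polynomial.coeff_eq_zero_of_lt_natTrailingDegree hd)
  have h1 : p.coeff p.natTrailingDegree ≠ 0 :=
      Polynomial.trailingCoeff_nonzero_iff_nonzero.2 hp
  generalize hk : p.natTrailingDegree = k at hdvd h1
  obtain ⟨q, hq⟩ := hdvd
  have hq0 : q.coeff 0 ≠ 0 := by
    intro h2
    apply h1
    have h3 : p.coeff (0 + k) = q.coeff 0 := by
      rw [hq, Polynomial.coeff_X_pow_mul]
    rw [zero_add] at h3
    rw [h3, h2]
  have h4 : Polynomial.aeval s q ≠ 0 := by
    intro h5
    apply hq0
    have h6 : PowerSeries.constantCoeff (Polynomial.aeval s q) = q.coeff 0 := by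
      rw [Polynomial.aeval_def, Polynomial.hom_eval₂, hs0, Polynomial.eval₂_at_zero]
      change PowerSeries.constantCoeff (algebraMap K K⟦X⟧ (q.coeff 0)) = _
      rw [PowerSeries.algebraMap_apply]
      simp
    rw [← h6, h5, map_zero]
  rw [hq, map_mul, map_pow, Polynomial.aeval_X]
  exact mul_ne_zero (pow_ne_zero _ hs) h4

theorem DC_aeval_kappa {K B E R AE : Type u} [Field K] [CommRing B] [IsDomain B]
    [IsDiscreteValuationRing B] [Algebra K B] [Field E]
    [Algebra B E] [CommRing R]
    [Algebra B R] [CommRing AE] [Algebra E AE] {r n : ℕ} (Z : Sit K B E R AE r n)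
    (W : Polynomial B) (i : Fin r) :
    Z.κ (Polynomial.aeval Z.ξ W) i = Polynomial.aeval (Z.κ Z.ξ i) (W.map Z.π.toRingHom) := by
  let ev : (Fin r → K⟦X⟧) →+* K⟦X⟧ := Pi.evalRingHom _ i
  change ev (Z.κ (Polynomial.aeval Z.ξ W)) = _
  rw [Polynomial.aeval_def, Polynomial.aeval_def, Polynomial.hom_eval₂, Polynomial.hom_eval₂,
    Polynomial.eval₂_map]
  congr 1
  ext1 b
  simp only [RingHom.comp_apply]
  rw [Z.hκ]
  rfl

/-- a conductor element of the generic fibre which does not vanish on the branches of the special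
fibre -/
theorem part1 {K B E R AE : Type u} [Field K] [CommRing B] [IsDomain B]
    [IsDiscreteValuationRing B] [IsAdicComplete (maximalIdeal B) B] [Algebra K B] [Field E]
    [Algebra B E] [IsFractionRing B E] [CommRing R] [IsLocalRing R] [IsNoetherianRing R]
    [Algebra B R] [CommRing AE] [Algebra E AE] [Algebra B AE] [IsScalarTower B E AE]
    [Algebra R AE] [IsScalarTower B R AE] {r n : ℕ} (Z : Sit K B E R AE r n)
    [IsLocalization.Away (algebraMap B R Z.v) AE] :
    ∃ w : R, (∀ i, Z.κ w i ≠ 0) ∧ ∀ n : FractionRing AE, IsIntegral AE n →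
      ∃ a : AE, algebraMap AE (FractionRing AE) a = algebraMap AE (FractionRing AE)
        (algebraMap R AE w) * n := by
  classical
  let N := integralClosure AE (FractionRing AE)
  let L : Submodule AE N := LinearMap.range (Algebra.linearMap AE N)
  have hfin : Module.Finite E (N ⧸ L) := Module.finite_of_rank_eq_nat Z.hrank
  let x : AE := algebraMap R AE Z.ξ
  obtain ⟨W, hW1, hW2⟩ := prim (B := B) (Algebra.lsmul E E (N ⧸ L) x)
  rw [Polynomial.aeval_algHom_apply] at hW1
  rw [Polynomial.aeval_map_algebraMap] at hW1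
  have hx : Polynomial.aeval x W = algebraMap R AE (Polynomial.aeval Z.ξ W) :=
    Polynomial.aeval_algebraMap_apply AE Z.ξ W
  rw [hx] at hW1
  refine ⟨Polynomial.aeval Z.ξ W, fun i => ?_, fun m hm => ?_⟩
  · rw [DC_aeval_kappa]
    refine DC_aeval_ne_zero _ (Z.hξ i).1 (Z.hξ i).2 _ ?_
    intro h0
    apply hW2
    ext j
    rw [Polynomial.coeff_map, Polynomial.coeff_zero, residue_eq_zero_iff]
    by_contra hj
    have hu : IsUnit (W.coeff j) := by
      by_contra hnu
      exact hj ((mem_maximalIdeal _).2 hnu)
    have h1 : IsUnit (Z.π (W.coeff j)) := hu.map Z.π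
    have h2 : Z.π (W.coeff j) = 0 := by
      have := congrArg (fun p => Polynomial.coeff p j) h0
      simpa [Polynomial.coeff_map] using this
    rw [h2] at h1
    exact not_isUnit_zero h1
  · let m' : N := ⟨m, hm⟩
    have h1 := LinearMap.congr_fun hW1 (Submodule.Quotient.mk m')
    rw [Algebra.lsmul_apply, LinearMap.zero_apply, ← Submodule.Quotient.mk_smul,
      Submodule.Quotient.mk_eq_zero] at h1
    obtain ⟨a, ha⟩ := h1
    refine ⟨a, ?_⟩
    have h2 := congrArg Subtype.val ha
    rw [← Algebra.smul_def]
    exact h2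

end S1

end Pool.Agent.Helper819.DC
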