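import Pool.Agent.Helper819.DC.Core4

set_option autoImplicit false

open PowerSeries IsLocalRing TensorProduct

universe u

namespace Pool.Agent.Helper819.DC


namespace S2

/-- `R` is integrally closed in `R[1/v]` if `R/v` is reduced -/
theorem sat {R Q : Type u} [CommRing R] [CommRing Q] [Algebra R Q]
    (hinj : Function.Injective (algebraMap R Q)) (v : R) (hv : IsUnit (algebraMap R Q v))
    (hred : IsReduced (R ⧸ Ideal.span {v})) (g : Q) (hg : IsIntegral R g) (k : ℕ)
    (hk : ∃ r, algebraMap R Q r = algebraMap R Q v ^ k * g) : ∃ r, algebraMap R Q r = g := by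
  induction k with
  | zero =>
    obtain ⟨r, hr⟩ := hk
    exact ⟨r, by rw [hr, pow_zero, one_mul]⟩
  | succ k ih =>
    apply ih
    obtain ⟨r, hr⟩ := hk
    have hg' : IsIntegral R (algebraMap R Q v ^ k * g) := (isIntegral_algebraMap.pow k).mul hg
    obtain ⟨p, hpm, hp0⟩ := hg'
    have hr' : algebraMap R Q r = algebraMap R Q v * (algebraMap R Q v ^ k * g) := by
      rw [hr, pow_succ]; ring
    have h1 : Polynomial.eval₂ (algebraMap R Q) (algebraMap R Q r) (p.scaleRoots v) = 0 := by
      rw [hr']
      exact Polynomial.scaleRoots_eval₂_eq_zero _ hp0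
    have h2 : Polynomial.eval r (p.scaleRoots v) = 0 := by
      rw [Polynomial.eval₂_at_apply] at h1
      exact hinj (by rw [h1, map_zero])
    rw [Polynomial.eval_eq_sum_range, Polynomial.natDegree_scaleRoots, Finset.sum_range_succ,
      Polynomial.coeff_scaleRoots_natDegree, hpm.leadingCoeff, one_mul] at h2
    have h3 : r ^ p.natDegree ∈ Ideal.span {v} := by
      have h4 : ∑ i ∈ Finset.range p.natDegree, (p.scaleRoots v).coeff i * r ^ i ∈ Ideal.span {v} := by
        refine Ideal.sum_mem _ fun i hi => ?_
        rw [Finset.mem_range] at hi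
        refine Ideal.mul_mem_right _ _ ?_
        rw [Polynomial.coeff_scaleRoots]
        refine Ideal.mul_mem_left _ _ ?_
        refine Ideal.pow_mem_of_mem _ (Ideal.mem_span_singleton_self v) _ (by omega)
      have h5 : r ^ p.natDegree = -(∑ i ∈ Finset.range p.natDegree, (p.scaleRoots v).coeff i * r ^ i) := by
        linear_combination h2
      rw [h5]
      exact neg_mem h4
    have h6 : r ∈ Ideal.span {v} := by
      rw [← Ideal.Quotient.eq_zero_iff_mem] at h3 ⊢
      rw [map_pow] at h3
      exact (show IsNilpotent (Ideal.Quotient.mk (Ideal.span {v}) r) from ⟨_, h3⟩).eq_zero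
    obtain ⟨r', hr''⟩ := Ideal.mem_span_singleton.1 h6
    refine ⟨r', ?_⟩
    refine hv.mul_left_cancel ?_
    rw [← hr', hr'', map_mul]

theorem part2 {K B E R AE : Type u} [Field K] [CommRing B] [IsDomain B]
    [IsDiscreteValuationRing B] [IsAdicComplete (maximalIdeal B) B] [Algebra K B] [Field E]
    [Algebra B E] [IsFractionRing B E] [CommRing R] [IsLocalRing R] [IsNoetherianRing R]
    [Algebra B R] [CommRing AE] [Algebra E AE] [Algebra B AE] [IsScalarTower B E AE]
    [Algebra R AE] [IsScalarTower B R AE] {r n : ℕ} (Z : Sit K B E R AE r n)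
    [IsLocalization.Away (algebraMap B R Z.v) AE]
    (w : R) (hw : ∀ i, Z.κ w i ≠ 0)
    (hcond : ∀ n : FractionRing AE, IsIntegral AE n →
      ∃ a : AE, algebraMap AE (FractionRing AE) a = algebraMap AE (FractionRing AE)
        (algebraMap R AE w) * n) :
    Function.Injective (algebraMap R (FractionRing AE)) ∧
    (∀ g : FractionRing AE, IsIntegral R g →
      ∃ a : R, algebraMap R (FractionRing AE) a = algebraMap R (FractionRing AE) w * g) ∧
    (∀ (g : FractionRing AE) (k : ℕ), IsIntegral R g →
      (∃ a : R, algebraMap R (FractionRing AE) a =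
        algebraMap R (FractionRing AE) (algebraMap B R Z.v) ^ k * g) →
      ∃ a : R, algebraMap R (FractionRing AE) a = g) ∧
    IsUnit (algebraMap R (FractionRing AE) w) ∧
    IsUnit (algebraMap R (FractionRing AE) (algebraMap B R Z.v)) ∧
    Module.Finite R (integralClosure R (FractionRing AE)) := by
  obtain ⟨v, hv⟩ : ∃ v, v = algebraMap B R Z.v := ⟨_, rfl⟩
  have hker : RingHom.ker Z.κ = Ideal.span {v} := by rw [hv]; exact Z.ker
  have hnzd : v ∈ nonZeroDivisors R := by rw [hv]; exact Z.nzd
  have hloc : IsLocalization.Away v AE := by rw [hv]; infer_instance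
  rw [← hv]
  -- reducedness of the special fibre
  have hred : IsReduced (R ⧸ Ideal.span {v}) := by
    constructor
    rintro x ⟨m, hm⟩
    obtain ⟨y, rfl⟩ := Ideal.Quotient.mk_surjective x
    rw [← map_pow, Ideal.Quotient.eq_zero_iff_mem, ← hker, RingHom.mem_ker, map_pow] at hm
    rw [Ideal.Quotient.eq_zero_iff_mem, ← hker, RingHom.mem_ker]
    funext i
    have := congrFun hm i
    rw [Pi.pow_apply] at this
    exact eq_zero_of_pow_eq_zero this
  -- injectivity
  have hinj1 : Function.Injective (algebraMap R AE) :=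
    IsLocalization.injective AE (M := Submonoid.powers v) (Submonoid.powers_le.2 hnzd)
  have htow : algebraMap R (FractionRing AE) = (algebraMap AE (FractionRing AE)).comp (algebraMap R AE) :=
    IsScalarTower.algebraMap_eq R AE (FractionRing AE)
  have hinj : Function.Injective (algebraMap R (FractionRing AE)) := by
    rw [htow]
    exact (IsFractionRing.injective AE (FractionRing AE)).comp hinj1
  have hvu : IsUnit (algebraMap R (FractionRing AE) v) := by
    rw [htow]
    exact (IsLocalization.Away.algebraMap_isUnit (S := AE) v).map (algebraMap AE (FractionRing AE))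
  -- w is a nonzerodivisor
  have hwv : ∀ x : R, w * x = 0 → ∃ x', x = v * x' ∧ w * x' = 0 := by
    intro x hx
    have h1 : x ∈ RingHom.ker Z.κ := by
      rw [RingHom.mem_ker]
      funext i
      have := congrFun (congrArg Z.κ hx) i
      rw [map_mul, map_zero, Pi.mul_apply] at this
      exact (mul_eq_zero.1 this).resolve_left (hw i)
    rw [hker, Ideal.mem_span_singleton] at h1
    obtain ⟨x', rfl⟩ := h1
    refine ⟨x', rfl, ?_⟩
    have h2 : v * (w * x') = 0 := by rw [← hx]; ring
    rw [mul_comm] at h2
    exact (mem_nonZeroDivisors_iff_right.1 hnzd) _ h2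
  have hne : Ideal.span {v} ≠ (⊤ : Ideal R) := by
    rw [← hker]
    intro h
    have h0 : (1 : R) ∈ RingHom.ker Z.κ := by rw [h]; exact Submodule.mem_top
    rw [RingHom.mem_ker, map_one] at h0
    have h1 := congrFun h0 ⟨0, Z.hr⟩
    exact one_ne_zero h1
  have hwpow : ∀ k : ℕ, ∀ x : R, w * x = 0 → x ∈ Ideal.span {v} ^ k := by
    intro k
    induction k with
    | zero => intro x _; rw [pow_zero, Ideal.one_eq_top]; exact Submodule.mem_top
    | succ k ih =>
      intro x hx
      obtain ⟨x', rfl, hx'⟩ := hwv x hx
      rw [pow_succ, mul_comm v x']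
      exact Ideal.mul_mem_mul (ih x' hx') (Ideal.mem_span_singleton_self v)
  have hwnzd : w ∈ nonZeroDivisors R := by
    rw [mem_nonZeroDivisors_iff_right]
    intro x hx
    have h1 : x ∈ (⨅ k : ℕ, Ideal.span {v} ^ k : Ideal R) := by
      rw [Ideal.mem_iInf]
      intro k
      exact hwpow k x (by rw [mul_comm]; exact hx)
    rw [Ideal.iInf_pow_eq_bot_of_isLocalRing _ hne] at h1
    exact h1
  have hwu : IsUnit (algebraMap R (FractionRing AE) w) := by
    rw [htow]
    have h1 : algebraMap R AE w ∈ nonZeroDivisors AE :=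
      IsLocalization.nonZeroDivisors_le_comap (Submonoid.powers v) AE hwnzd
    exact IsLocalization.map_units (FractionRing AE) ⟨_, h1⟩
  have hsat : ∀ (g : FractionRing AE) (k : ℕ), IsIntegral R g →
      (∃ a : R, algebraMap R (FractionRing AE) a =
        algebraMap R (FractionRing AE) v ^ k * g) →
      ∃ a : R, algebraMap R (FractionRing AE) a = g :=
    fun g k hg hk => sat hinj v hvu hred g hg k hk
  have hmul : ∀ g : FractionRing AE, IsIntegral R g →
      ∃ a : R, algebraMap R (FractionRing AE) a = algebraMap R (FractionRing AE) w * g := by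
    intro g hg
    obtain ⟨b, hb⟩ := hcond g hg.tower_top
    obtain ⟨k, a, ha⟩ := IsLocalization.Away.surj v b
    refine hsat _ k (isIntegral_algebraMap.mul hg) ⟨a, ?_⟩
    have h1 := congrArg (algebraMap AE (FractionRing AE)) ha
    rw [map_mul, map_pow, hb] at h1
    rw [htow]
    simp only [RingHom.comp_apply]
    rw [← h1]
    ring
  refine ⟨hinj, hmul, hsat, hwu, hvu, ?_⟩
  let W : FractionRing AE →ₗ[R] FractionRing AE := LinearMap.mulLeft R (algebraMap R (FractionRing AE) w)
  let f : integralClosure R (FractionRing AE) →ₗ[R]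
      LinearMap.range (Algebra.linearMap R (FractionRing AE)) :=
    (W.comp (integralClosure R (FractionRing AE)).val.toLinearMap).codRestrict _ (by
      intro g
      obtain ⟨a, ha⟩ := hmul g.1 g.2
      exact ⟨a, ha⟩)
  refine Module.Finite.of_injective f ?_
  intro g g' h
  have h1 : algebraMap R (FractionRing AE) w * g.1 = algebraMap R (FractionRing AE) w * g'.1 :=
    congrArg Subtype.val h
  exact Subtype.ext (hwu.mul_left_cancel h1)

end S2

end Pool.Agent.Helper819.DC
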