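import Pool.Agent.Helper819.DC.Core4

set_option autoImplicit false

open PowerSeries IsLocalRing TensorProduct

universe u

namespace Pool.Agent.Helper819.DC


namespace S3

theorem isPrecomplete_pi {B : Type u} [CommRing B] (I : Ideal B) [IsPrecomplete I B] (m : ℕ) :
    IsPrecomplete I (Fin m → B) := by
  refine ⟨fun f hf => ?_⟩
  have key : ∀ i : Fin m, ∃ L : B, ∀ n, f n i ≡ L [SMOD (I ^ n • ⊤ : Submodule B B)] := by
    intro i
    apply IsPrecomplete.prec' (I := I) (fun n => f n i)
    intro k l hkl
    have h := hf hkl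
    have h2 := SModEq.map h (LinearMap.proj i)
    refine h2.mono ?_
    rw [Submodule.map_smul'']
    exact Submodule.smul_mono le_rfl le_top
  choose L hL using key
  refine ⟨L, fun n => ?_⟩
  rw [SModEq.sub_mem]
  have e : f n - L = ∑ i, LinearMap.single B (fun _ => B) i (f n i - L i) := by
    funext j
    simp [Finset.sum_apply, Pi.single_apply]
  rw [e]
  refine Submodule.sum_mem _ fun i _ => ?_
  have h1 : f n i - L i ∈ (I ^ n • ⊤ : Submodule B B) := SModEq.sub_mem.1 (hL i n)
  have h2 : LinearMap.single B (fun _ => B) i (f n i - L i) ∈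
      (I ^ n • ⊤ : Submodule B B).map (LinearMap.single B (fun _ => B) i) :=
    Submodule.mem_map_of_mem h1
  rw [Submodule.map_smul''] at h2
  exact Submodule.smul_mono le_rfl le_top h2

theorem finite_of_complete {B C : Type u} [CommRing B] [AddCommGroup C] [Module B C]
    (I : Ideal B) [IsPrecomplete I B] [IsHausdorff I C]
    (hfin : Module.Finite B (C ⧸ (I • ⊤ : Submodule B C))) : Module.Finite B C := by
  obtain ⟨m, g, hg⟩ := Module.Finite.exists_fin' B (C ⧸ (I • ⊤ : Submodule B C))
  obtain ⟨f, hf⟩ := Module.projective_lifting_property (Submodule.mkQ (I • ⊤ : Submodule B C)) g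
    (Submodule.mkQ_surjective _)
  have := isPrecomplete_pi I m
  have hs : Function.Surjective f := by
    apply surjective_of_mkQ_comp_surjective (I := I)
    rw [hf]; exact hg
  exact Module.Finite.of_surjective f hs

/-- `κ(R)` is finitely generated over `B` modulo `κ(w) κ(R)` -/
theorem exists_gens {K B E R AE : Type u} [Field K] [CommRing B] [IsDomain B]
    [IsDiscreteValuationRing B] [Algebra K B] [Field E]
    [Algebra B E] [CommRing R] [Algebra B R] [CommRing AE] [Algebra E AE] {r n : ℕ}
    (Z : Sit K B E R AE r n) (w : R) (hw : ∀ i, Z.κ w i ≠ 0) :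
    ∃ (d : ℕ) (a : Fin d → R), ∀ x : R, ∃ (β : Fin d → B) (y z : R),
      x = ∑ i, algebraMap B R (β i) * a i + w * y + algebraMap B R Z.v * z := by
  classical
  -- orders
  have hne : ∀ i, Z.κ w i * Z.κ Z.c i ≠ 0 := fun i => mul_ne_zero (hw i) (Z.hc i)
  have hdv : ∀ i : Fin r, ∃ m : ℕ, (X : K⟦X⟧) ^ m ∈ Ideal.span {Z.κ w i * Z.κ Z.c i} := by
    intro i
    obtain ⟨m, u, hu, he⟩ : ∃ (m : ℕ) (u : K⟦X⟧), IsUnit u ∧ Z.κ w i * Z.κ Z.c i = X ^ m * u := by
      refine ⟨(Z.κ w i * Z.κ Z.c i).order.toNat,
        divXPowOrder (Z.κ w i * Z.κ Z.c i), ?_, ?_⟩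
      · rw [PowerSeries.isUnit_iff_constantCoeff, isUnit_iff_ne_zero]
        rw [← PowerSeries.coeff_zero_eq_constantCoeff_apply]
        simp [coeff_divXPowOrder, PowerSeries.coeff_order, hne i]
      · rw [X_pow_order_mul_divXPowOrder]
    refine ⟨m, ?_⟩
    rw [Ideal.mem_span_singleton, he]
    obtain ⟨u', rfl⟩ := hu
    exact ⟨(↑u'⁻¹ : K⟦X⟧), by rw [mul_assoc, Units.mul_inv, mul_one]⟩
  choose m hm using hdv
  set M : ℕ := ∑ i, m i with hM
  let L : (Fin r → K⟦X⟧) →ₗ[K] (Fin r → Fin M → K) :=
    LinearMap.pi fun i => LinearMap.pi fun j => (PowerSeries.coeff (j : ℕ)) ∘ₗ LinearMap.proj i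
  have hL : ∀ p, L p = 0 → ∃ q, p = Z.κ w * (Z.κ Z.c * q) := by
    intro p hp
    have : ∀ i, ∃ q : K⟦X⟧, p i = Z.κ w i * (Z.κ Z.c i * q) := by
      intro i
      have h1 : (X : K⟦X⟧) ^ M ∣ p i := by
        rw [X_pow_dvd_iff]
        intro j hj
        have := congrFun (congrFun hp i) ⟨j, hj⟩
        simpa [L] using this
      have h2 : (X : K⟦X⟧) ^ (m i) ∣ X ^ M :=
        pow_dvd_pow _ (Finset.single_le_sum (f := m) (fun _ _ => Nat.zero_le _) (Finset.mem_univ i))
      have h3 : Z.κ w i * Z.κ Z.c i ∣ p i :=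
        ((Ideal.mem_span_singleton.1 (hm i)).trans h2).trans h1
      obtain ⟨q, hq⟩ := h3
      exact ⟨q, by rw [hq, mul_assoc]⟩
    choose q hq using this
    exact ⟨q, funext hq⟩
  -- finite dimensional image
  let V : Submodule K (Fin r → Fin M → K) := Z.S.map L
  let b := Module.finBasis K V
  have ha : ∀ i, ∃ a : R, L (Z.κ a) = b i := by
    intro i
    obtain ⟨s, hs, he⟩ := Submodule.mem_map.1 (b i).2
    obtain ⟨a, ha⟩ := (Z.hS s).1 hs
    exact ⟨a, by rw [ha, he]⟩
  choose a ha using ha
  refine ⟨_, a, fun x => ?_⟩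
  have hxV : L (Z.κ x) ∈ V := Submodule.mem_map_of_mem ((Z.hS _).2 ⟨x, rfl⟩)
  have hrep := b.sum_repr ⟨_, hxV⟩
  set k := b.repr ⟨_, hxV⟩ with hk
  have hrep2 : L (Z.κ x) = ∑ i, k i • L (Z.κ (a i)) := by
    have := congrArg (Submodule.subtype V) hrep
    simp only [map_sum, map_smul, Submodule.subtype_apply] at this
    rw [← this]
    exact Finset.sum_congr rfl fun i _ => by rw [ha]
  have h0 : L (Z.κ (x - ∑ i, algebraMap B R (algebraMap K B (k i)) * a i)) = 0 := by
    rw [map_sub, map_sub, hrep2, map_sum, map_sum, sub_eq_zero]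
    refine Finset.sum_congr rfl fun i _ => ?_
    rw [map_mul, Z.hκ, AlgHom.commutes, ← LinearMap.map_smul]
    congr 1
    rw [Algebra.algebraMap_self_apply, Algebra.smul_def]
  obtain ⟨q, hq⟩ := hL _ h0
  obtain ⟨y, hy⟩ := Z.cond q
  have hker : x - ∑ i, algebraMap B R (algebraMap K B (k i)) * a i - w * y ∈ RingHom.ker Z.κ := by
    rw [RingHom.mem_ker, map_sub, hq, map_mul, hy, sub_self]
  rw [Z.ker, Ideal.mem_span_singleton] at hker
  obtain ⟨z, hz⟩ := hker
  refine ⟨fun i => algebraMap K B (k i), y, z, ?_⟩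
  rw [← hz]; ring

theorem C_finite {K B E R AE : Type u} [Field K] [CommRing B] [IsDomain B]
    [IsDiscreteValuationRing B] [IsAdicComplete (maximalIdeal B) B] [Algebra K B] [Field E]
    [Algebra B E] [CommRing R] [IsLocalRing R] [IsNoetherianRing R] [Algebra B R]
    [CommRing AE] [Algebra E AE] {r n : ℕ}
    (Z : Sit K B E R AE r n) (w : R) (hw : ∀ i, Z.κ w i ≠ 0)
    (C : Type u) [AddCommGroup C] [Module R C] [Module B C] [IsScalarTower B R C]
    [Module.Finite R C] (hwC : ∀ x : C, w • x = 0) : Module.Finite B C := by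
  have hJ : Ideal.span {algebraMap B R Z.v} ≠ ⊤ := by
    rw [← Z.ker]
    intro h
    have h1 : (1 : R) ∈ RingHom.ker Z.κ := by rw [h]; trivial
    rw [RingHom.mem_ker, map_one] at h1
    have := congrFun h1 ⟨0, Z.hr⟩
    simp at this
  have hmap : (maximalIdeal B).map (algebraMap B R) = Ideal.span {algebraMap B R Z.v} := by
    rw [Z.hv, Ideal.map_span, Set.image_singleton]
  have : IsHausdorff ((maximalIdeal B).map (algebraMap B R)) C := by
    rw [hmap]; exact IsHausdorff.of_isLocalRing _ _ hJ
  have : IsHausdorff (maximalIdeal B) C := IsHausdorff.map_algebraMap_iff.1 this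
  apply finite_of_complete (maximalIdeal B)
  obtain ⟨d, a, hgen⟩ := exists_gens Z w hw
  classical
  obtain ⟨s, hs⟩ := (Module.Finite.fg_top : (⊤ : Submodule R C).FG)
  refine ⟨(Finset.univ ×ˢ s).image
    (fun p : Fin d × C => (Submodule.Quotient.mk (a p.1 • p.2) :
      C ⧸ (maximalIdeal B • ⊤ : Submodule B C))), ?_⟩
  rw [eq_top_iff]
  rintro x -
  obtain ⟨x, rfl⟩ := Submodule.Quotient.mk_surjective _ x
  set W := Submodule.span B (((Finset.univ ×ˢ s).image
    (fun p : Fin d × C => (Submodule.Quotient.mk (a p.1 • p.2) :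
      C ⧸ (maximalIdeal B • ⊤ : Submodule B C))) : Finset _) :
        Set (C ⧸ (maximalIdeal B • ⊤ : Submodule B C))) with hW
  have key : ∀ c ∈ Submodule.span R (s : Set C), ∀ ρ : R, (Submodule.Quotient.mk (ρ • c) :
      C ⧸ (maximalIdeal B • ⊤ : Submodule B C)) ∈ W := by
    intro c hc
    induction hc using Submodule.span_induction with
    | mem c hc =>
      intro ρ
      obtain ⟨β, y, z, hρ⟩ := hgen ρ
      have e1 : ρ • c = ∑ i, β i • (a i • c) + Z.v • (z • c) := by
        rw [hρ, add_smul, add_smul, Finset.sum_smul, mul_comm w y, mul_smul y w, hwC, smul_zero,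
          add_zero]
        congr 1
        · refine Finset.sum_congr rfl fun i _ => ?_
          rw [mul_smul, algebraMap_smul]
        · rw [mul_smul, algebraMap_smul]
      have e2 : Z.v • (z • c) ∈ (maximalIdeal B • ⊤ : Submodule B C) := by
        refine Submodule.smul_mem_smul ?_ Submodule.mem_top
        rw [Z.hv]; exact Ideal.mem_span_singleton_self _
      rw [e1, Submodule.Quotient.mk_add, (Submodule.Quotient.mk_eq_zero _).2 e2, add_zero]
      rw [← Submodule.mkQ_apply, map_sum]
      refine Submodule.sum_mem _ fun i _ => ?_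
      rw [map_smul]
      refine Submodule.smul_mem _ _ (Submodule.subset_span ?_)
      rw [Finset.coe_image]
      exact ⟨(i, c), by simpa using hc, rfl⟩
    | zero => intro ρ; rw [smul_zero, Submodule.Quotient.mk_zero]; exact W.zero_mem
    | add c c' _ _ h1 h2 =>
      intro ρ
      rw [smul_add, Submodule.Quotient.mk_add]
      exact W.add_mem (h1 ρ) (h2 ρ)
    | smul ρ' c _ h =>
      intro ρ
      rw [← mul_smul]; exact h _
  have := key x (by rw [hs]; trivial) 1
  rwa [one_smul] at this

theorem part3_gen {K B E R AE Q : Type u} [Field K] [CommRing B] [IsDomain B]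
    [IsDiscreteValuationRing B] [IsAdicComplete (maximalIdeal B) B] [Algebra K B] [Field E]
    [Algebra B E] [IsFractionRing B E] [CommRing R] [IsLocalRing R] [IsNoetherianRing R]
    [Algebra B R] [CommRing AE] [Algebra E AE] [Algebra B AE] [IsScalarTower B E AE]
    [Algebra R AE] [IsScalarTower B R AE] {r n : ℕ} (Z : Sit K B E R AE r n)
    [IsLocalization.Away (algebraMap B R Z.v) AE]
    [CommRing Q] [Algebra AE Q] [Algebra R Q] [Algebra B Q] [Algebra E Q]
    [IsScalarTower R AE Q] [IsScalarTower B AE Q] [IsScalarTower E AE Q] [IsScalarTower B R Q]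
    (hrankQ : Module.rank E (integralClosure AE Q ⧸
      LinearMap.range (Algebra.linearMap AE (integralClosure AE Q))) = (n : Cardinal))
    (w : R) (hw : ∀ i, Z.κ w i ≠ 0)
    (h2 : ∀ g : Q, IsIntegral R g →
      ∃ a : R, algebraMap R Q a = algebraMap R Q w * g)
    (h3 : ∀ (g : Q) (k : ℕ), IsIntegral R g →
      (∃ a : R, algebraMap R Q a = algebraMap R Q (algebraMap B R Z.v) ^ k * g) →
      ∃ a : R, algebraMap R Q a = g)
    (h5 : IsUnit (algebraMap R Q (algebraMap B R Z.v)))
    (h6 : Module.Finite R (integralClosure R Q)) :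
    ∃ b : Fin n → integralClosure R Q,
      (∀ g : integralClosure R Q, ∃ (β : Fin n → B) (a : R),
        g = ∑ j, algebraMap R _ (algebraMap B R (β j)) * b j + algebraMap R _ a) ∧
      (∀ (β : Fin n → B) (a : R),
        ∑ j, algebraMap R _ (algebraMap B R (β j)) * b j + algebraMap R _ a = 0 →
        ∀ j, β j = 0) := by
  classical
  set M := integralClosure R Q with hM
  let C := M ⧸ LinearMap.range (Algebra.linearMap R M)
  have hsm : ∀ (β : B) (g : M), ((β • g : M) : Q) = algebraMap R Q (algebraMap B R β) * g := by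
    intro β g
    rw [← IsScalarTower.algebraMap_apply B R Q, ← Algebra.smul_def]
    rfl
  have hmk : ∀ g : M, (Submodule.Quotient.mk g : C) = 0 ↔ ∃ a : R, algebraMap R Q a = (g : Q) := by
    intro g
    rw [Submodule.Quotient.mk_eq_zero]
    constructor
    · rintro ⟨a, ha⟩
      exact ⟨a, by rw [← ha]; rfl⟩
    · rintro ⟨a, ha⟩
      exact ⟨a, Subtype.ext ha⟩
  have hfinC : Module.Finite B C := by
    apply C_finite Z w hw C
    intro x
    obtain ⟨g, rfl⟩ := Submodule.Quotient.mk_surjective _ x
    rw [← Submodule.Quotient.mk_smul]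
    apply (hmk _).2
    obtain ⟨a, ha⟩ := h2 g g.2
    refine ⟨a, ?_⟩
    rw [ha, ← Algebra.smul_def]
    rfl
  have hirr : Irreducible Z.v := (IsDiscreteValuationRing.irreducible_iff_uniformizer _).2 Z.hv
  have htf : Module.IsTorsionFree B C := by
    apply Module.IsTorsionFree.of_smul_eq_zero
    intro β x hx
    by_cases hβ : β = 0
    · exact Or.inl hβ
    right
    obtain ⟨k, u, rfl⟩ := IsDiscreteValuationRing.eq_unit_mul_pow_irreducible hβ hirr
    obtain ⟨g, rfl⟩ := Submodule.Quotient.mk_surjective _ x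
    rw [← Submodule.Quotient.mk_smul] at hx
    obtain ⟨a, ha⟩ := (hmk _).1 hx
    apply (hmk _).2
    apply h3 g k g.2
    refine ⟨algebraMap B R (↑u⁻¹ : B) * a, ?_⟩
    rw [map_mul, ha, hsm, map_mul, map_mul, map_pow, map_pow]
    have : algebraMap R Q (algebraMap B R (↑u⁻¹ : B)) * algebraMap R Q (algebraMap B R (u : B)) = 1 := by
      rw [← map_mul, ← map_mul, Units.inv_mul, map_one, map_one]
    linear_combination (algebraMap R Q (algebraMap B R Z.v) ^ k * (g : Q)) * this
  obtain ⟨ρ, b⟩ : Σ n : ℕ, Module.Basis (Fin n) B C := Module.basisOfFiniteTypeTorsionFree'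
  have hlift : ∀ j, ∃ g : M, (Submodule.Quotient.mk g : C) = b j := fun j =>
    Submodule.Quotient.mk_surjective _ _
  choose bt hbt using hlift
  have hsum : ∀ (β : Fin ρ → B), (Submodule.Quotient.mk
      (∑ j, algebraMap R M (algebraMap B R (β j)) * bt j) : C) = ∑ j, β j • b j := by
    intro β
    rw [← Submodule.mkQ_apply, map_sum]
    refine Finset.sum_congr rfl fun j _ => ?_
    rw [← hbt, ← Submodule.Quotient.mk_smul, Submodule.mkQ_apply]
    congr 1
    apply Subtype.ext
    rw [hsm]
    rfl
  have hspan : ∀ g : M, ∃ (β : Fin ρ → B) (a : R),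
        g = ∑ j, algebraMap R M (algebraMap B R (β j)) * bt j + algebraMap R M a := by
    intro g
    have h := b.sum_repr (Submodule.Quotient.mk g)
    rw [← hsum, eq_comm, ← sub_eq_zero, ← Submodule.Quotient.mk_sub] at h
    obtain ⟨a, ha⟩ := (hmk _).1 h
    refine ⟨fun j => b.repr (Submodule.Quotient.mk g) j, a, ?_⟩
    rw [← sub_eq_iff_eq_add']
    exact Subtype.ext ha.symm
  have hind : ∀ (β : Fin ρ → B) (a : R),
        ∑ j, algebraMap R M (algebraMap B R (β j)) * bt j + algebraMap R M a = 0 →
        ∀ j, β j = 0 := by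
    intro β a h
    have h1 : (Submodule.Quotient.mk
      (∑ j, algebraMap R M (algebraMap B R (β j)) * bt j) : C) = 0 := by
      apply (hmk _).2
      refine ⟨-a, ?_⟩
      rw [eq_neg_of_add_eq_zero_left h, map_neg]
      rfl
    rw [hsum] at h1
    have := Fintype.linearIndependent_iff.1 b.linearIndependent β h1
    exact this
  suffices hρ : ρ = n by
    subst hρ
    exact ⟨bt, hspan, hind⟩
  -- the generic fibre
  set N := integralClosure AE Q with hN
  let D := N ⧸ LinearMap.range (Algebra.linearMap AE N)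
  have hmkN : ∀ g : N, (Submodule.Quotient.mk g : D) = 0 ↔
      ∃ a : AE, algebraMap AE Q a = (g : Q) := by
    intro g
    rw [Submodule.Quotient.mk_eq_zero]
    constructor
    · rintro ⟨a, ha⟩
      exact ⟨a, by rw [← ha]; rfl⟩
    · rintro ⟨a, ha⟩
      exact ⟨a, Subtype.ext ha⟩
  have hsmN : ∀ (e : E) (g : N), ((e • g : N) : Q) = algebraMap AE Q (algebraMap E AE e) * g := by
    intro e g
    rw [← IsScalarTower.algebraMap_apply E AE Q, ← Algebra.smul_def]
    rfl
  have hint : ∀ g : M, IsIntegral AE (g : Q) := fun g => IsIntegral.tower_top g.2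
  let bN : Fin ρ → D := fun j => Submodule.Quotient.mk ⟨(bt j : Q), hint _⟩
  have hsumN : ∀ (e : Fin ρ → E), ∃ g : N, (Submodule.Quotient.mk g : D) = ∑ j, e j • bN j ∧
      (g : Q) = ∑ j, algebraMap AE Q (algebraMap E AE (e j)) * bt j := by
    intro e
    refine ⟨∑ j, e j • (⟨(bt j : Q), hint _⟩ : N), ?_, ?_⟩
    · rw [← Submodule.mkQ_apply, map_sum]
      refine Finset.sum_congr rfl fun j _ => ?_
      rfl
    · rw [AddSubmonoidClass.coe_finsetSum]
      refine Finset.sum_congr rfl fun j _ => ?_
      rw [hsmN]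
  have hBE : ∀ β : B, algebraMap AE Q (algebraMap E AE (algebraMap B E β)) =
      algebraMap R Q (algebraMap B R β) := by
    intro β
    rw [← IsScalarTower.algebraMap_apply B E AE, ← IsScalarTower.algebraMap_apply B AE Q,
      ← IsScalarTower.algebraMap_apply B R Q]
  have hv0 : algebraMap B E Z.v ≠ 0 := by
    rw [Ne, IsFractionRing.to_map_eq_zero_iff]
    exact hirr.ne_zero
  have hli : LinearIndependent E bN := by
    rw [Fintype.linearIndependent_iff]
    intro e he
    obtain ⟨g, hg1, hg2⟩ := hsumN e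
    rw [he] at hg1
    obtain ⟨a, ha⟩ := (hmkN _).1 hg1
    obtain ⟨d, hd⟩ := IsLocalization.exist_integer_multiples_of_finite (nonZeroDivisors B) e
    choose β hβ using hd
    obtain ⟨⟨a0, ⟨_, m, rfl⟩⟩, ha0⟩ := IsLocalization.surj
      (Submonoid.powers (algebraMap B R Z.v)) a
    simp only at ha0
    have hfin := hind (fun j => Z.v ^ m * β j) (- (algebraMap B R d * a0)) (by
      apply Subtype.ext
      have h7 : algebraMap R Q (algebraMap B R Z.v) ^ m * algebraMap AE Q a = algebraMap R Q a0 := by
        rw [IsScalarTower.algebraMap_apply R AE Q a0, ← ha0, map_mul,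
          ← IsScalarTower.algebraMap_apply R AE Q, map_pow, mul_comm]
      have h8 : ∀ j, algebraMap R Q (algebraMap B R (β j)) =
          algebraMap R Q (algebraMap B R d) * algebraMap AE Q (algebraMap E AE (e j)) := by
        intro j
        have hβj : algebraMap B E (β j) = algebraMap B E (d : B) * e j := by
          have h := hβ j
          rwa [Algebra.smul_def] at h
        rw [← hBE, hβj, map_mul, map_mul, hBE]
      have h9 : (((∑ j, algebraMap R M (algebraMap B R (Z.v ^ m * β j)) * bt j +
        algebraMap R M (- (algebraMap B R d * a0)) : M)) : Q) =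
        ∑ j, algebraMap R Q (algebraMap B R (Z.v ^ m * β j)) * bt j +
        algebraMap R Q (- (algebraMap B R d * a0)) := by
        rw [AddMemClass.coe_add, AddSubmonoidClass.coe_finsetSum]
        rfl
      rw [h9]
      have h10 : ∑ j, algebraMap R Q (algebraMap B R (Z.v ^ m * β j)) * (bt j : Q) =
          algebraMap R Q (algebraMap B R Z.v) ^ m * algebraMap R Q (algebraMap B R d) *
          ∑ j, algebraMap AE Q (algebraMap E AE (e j)) * (bt j : Q) := by
        rw [Finset.mul_sum]
        refine Finset.sum_congr rfl fun j _ => ?_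
        rw [map_mul, map_mul, h8, map_pow, map_pow]; ring
      rw [h10, ← hg2, ← ha, map_neg, map_mul, ← h7]
      simp only [ZeroMemClass.coe_zero]
      ring)
    intro j
    have h11 := hfin j
    have h12 : β j = 0 := by
      rcases mul_eq_zero.1 h11 with h | h
      · exact absurd h (pow_ne_zero _ hirr.ne_zero)
      · exact h
    have h13 := hβ j
    rw [h12, map_zero] at h13
    have h14 : (d : B) • e j = 0 := by simpa [Submonoid.smul_def] using h13.symm
    rw [Algebra.smul_def] at h14
    rcases mul_eq_zero.1 h14 with h | h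
    · rw [IsFractionRing.to_map_eq_zero_iff] at h
      exact absurd h (nonZeroDivisors.ne_zero d.2)
    · exact h
  have hsp : ⊤ ≤ Submodule.span E (Set.range bN) := by
    rintro x -
    obtain ⟨g, rfl⟩ := Submodule.Quotient.mk_surjective _ x
    obtain ⟨⟨_, m, rfl⟩, hm⟩ := IsIntegral.exists_multiple_integral_of_isLocalization
      (Submonoid.powers (algebraMap B R Z.v)) (g : Q) g.2
    obtain ⟨β, a, hβ⟩ := hspan ⟨_, hm⟩
    have hβ2 := congrArg (Subtype.val) hβ
    have h9 : (((∑ j, algebraMap R M (algebraMap B R (β j)) * bt j +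
        algebraMap R M a : M)) : Q) =
        ∑ j, algebraMap R Q (algebraMap B R (β j)) * bt j + algebraMap R Q a := by
        rw [AddMemClass.coe_add, AddSubmonoidClass.coe_finsetSum]
        rfl
    have h15 : algebraMap R Q (algebraMap B R Z.v) ^ m * (g : Q) =
        ∑ j, algebraMap R Q (algebraMap B R (β j)) * bt j + algebraMap R Q a := by
      rw [← h9, ← hβ]
      rw [← map_pow, ← Algebra.smul_def]
      rfl
    obtain ⟨g', hg1, hg2⟩ := hsumN (fun j => algebraMap B E (β j) / (algebraMap B E Z.v) ^ m)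
    have hV : IsUnit (algebraMap R AE (algebraMap B R Z.v)) :=
      IsLocalization.map_units AE (⟨_, 1, pow_one _⟩ : Submonoid.powers (algebraMap B R Z.v))
    obtain ⟨V, hV⟩ := hV
    have hz : (Submodule.Quotient.mk (g - g') : D) = 0 := by
      apply (hmkN _).2
      refine ⟨(↑(V⁻¹) : AE) ^ m * algebraMap R AE a, ?_⟩
      apply (h5.pow m).mul_left_cancel
      have h16 : algebraMap R Q (algebraMap B R Z.v) * algebraMap AE Q (↑(V⁻¹) : AE) = 1 := by
        rw [IsScalarTower.algebraMap_apply R AE Q, ← hV, ← map_mul, Units.mul_inv, map_one]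
      have h17 : algebraMap R Q (algebraMap B R Z.v) ^ m *
          algebraMap AE Q ((↑(V⁻¹) : AE) ^ m * algebraMap R AE a) = algebraMap R Q a := by
        rw [map_mul, map_pow, ← mul_assoc, ← mul_pow, h16, one_pow, one_mul,
          ← IsScalarTower.algebraMap_apply R AE Q]
      rw [h17]
      have h18 : algebraMap R Q (algebraMap B R Z.v) ^ m * (g' : Q) =
          ∑ j, algebraMap R Q (algebraMap B R (β j)) * bt j := by
        rw [hg2, Finset.mul_sum]
        refine Finset.sum_congr rfl fun j _ => ?_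
        rw [← mul_assoc]
        congr 1
        rw [← hBE Z.v, ← hBE (β j), ← map_pow, ← map_pow, ← map_mul, ← map_mul]
        congr 2
        field_simp
      rw [AddSubgroupClass.coe_sub, mul_sub, h15, h18]
      ring
    rw [Submodule.Quotient.mk_sub, sub_eq_zero] at hz
    rw [hz, hg1]
    exact Submodule.sum_mem _ fun j _ => Submodule.smul_mem _ _ (Submodule.subset_span ⟨j, rfl⟩)
  have hb := Module.Basis.mk hli hsp
  have hrk := rank_eq_card_basis hb
  rw [Fintype.card_fin] at hrk
  have := hrk.symm.trans hrankQ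
  exact_mod_cast this


/-- the cokernel of `R → M` (`M` the integral closure of `R`) is free over `B` of rank `n` -/
theorem part3 {K B E R AE : Type u} [Field K] [CommRing B] [IsDomain B]
    [IsDiscreteValuationRing B] [IsAdicComplete (maximalIdeal B) B] [Algebra K B] [Field E]
    [Algebra B E] [IsFractionRing B E] [CommRing R] [IsLocalRing R] [IsNoetherianRing R]
    [Algebra B R] [CommRing AE] [Algebra E AE] [Algebra B AE] [IsScalarTower B E AE]
    [Algebra R AE] [IsScalarTower B R AE] {r n : ℕ} (Z : Sit K B E R AE r n)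
    [IsLocalization.Away (algebraMap B R Z.v) AE]
    (w : R) (hw : ∀ i, Z.κ w i ≠ 0)
    (h1 : ∀ n : FractionRing AE, IsIntegral AE n →
      ∃ a : AE, algebraMap AE (FractionRing AE) a = algebraMap AE (FractionRing AE)
        (algebraMap R AE w) * n)
    (hinj : Function.Injective (algebraMap R (FractionRing AE)))
    (h2 : ∀ g : FractionRing AE, IsIntegral R g →
      ∃ a : R, algebraMap R (FractionRing AE) a = algebraMap R (FractionRing AE) w * g)
    (h3 : ∀ (g : FractionRing AE) (k : ℕ), IsIntegral R g →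
      (∃ a : R, algebraMap R (FractionRing AE) a =
        algebraMap R (FractionRing AE) (algebraMap B R Z.v) ^ k * g) →
      ∃ a : R, algebraMap R (FractionRing AE) a = g)
    (h4 : IsUnit (algebraMap R (FractionRing AE) w))
    (h5 : IsUnit (algebraMap R (FractionRing AE) (algebraMap B R Z.v)))
    (h6 : Module.Finite R (integralClosure R (FractionRing AE))) :
    ∃ b : Fin n → integralClosure R (FractionRing AE),
      (∀ g : integralClosure R (FractionRing AE), ∃ (β : Fin n → B) (a : R),
        g = ∑ j, algebraMap R _ (algebraMap B R (β j)) * b j + algebraMap R _ a) ∧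
      (∀ (β : Fin n → B) (a : R),
        ∑ j, algebraMap R _ (algebraMap B R (β j)) * b j + algebraMap R _ a = 0 →
        ∀ j, β j = 0) := by
  have : IsScalarTower B R (FractionRing AE) := IsScalarTower.of_algebraMap_eq (fun b => by
    rw [IsScalarTower.algebraMap_apply B AE (FractionRing AE),
      IsScalarTower.algebraMap_apply B R AE, ← IsScalarTower.algebraMap_apply R AE (FractionRing AE)])
  exact part3_gen Z Z.hrank w hw h2 h3 h5 h6

end S3

end Pool.Agent.Helper819.DC
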