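import Pool.Agent.Helper819.DC.Core4

set_option autoImplicit false

open PowerSeries IsLocalRing TensorProduct

universe u

namespace Pool.Agent.Helper819.DC


namespace S4


theorem part4_noeth {R Q : Type*} [CommRing R] [IsNoetherianRing R] [CommRing Q] [Algebra R Q]
    (w : R) (h4 : IsUnit (algebraMap R Q w)) (h : Q)
    (hpow : ∀ m : ℕ, ∃ a : R, algebraMap R Q a = algebraMap R Q w * h ^ m) : IsIntegral R h := by
  have hfg : (Subalgebra.toSubmodule (Algebra.adjoin R {h})).FG := by
    have hinj : Function.Injective (LinearMap.mulLeft R (algebraMap R Q w)) := by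
      intro x y hxy
      exact h4.mul_left_cancel hxy
    refine Submodule.fg_of_fg_map_injective _ hinj ?_
    have hn : IsNoetherian R (LinearMap.range (Algebra.linearMap R Q)) :=
      isNoetherian_of_surjective (Algebra.linearMap R Q).rangeRestrict
        (LinearMap.range_rangeRestrict _)
    refine isNoetherian_submodule.mp hn _ ?_
    rintro _ ⟨x, hx, rfl⟩
    have hx' : x ∈ Algebra.adjoin R {h} := hx
    rw [Algebra.adjoin_singleton_eq_range_aeval] at hx'
    obtain ⟨p, rfl⟩ := hx'
    show algebraMap R Q w * (Polynomial.aeval h) p ∈ LinearMap.range (Algebra.linearMap R Q)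
    rw [Polynomial.aeval_eq_sum_range, Finset.mul_sum]
    refine Submodule.sum_mem _ fun i _ => ?_
    rw [mul_smul_comm]
    refine Submodule.smul_mem _ _ ?_
    obtain ⟨a, ha⟩ := hpow i
    exact ⟨a, ha⟩
  exact IsIntegral.of_mem_of_fg _ hfg h (Algebra.self_mem_adjoin_singleton R h)

theorem part4_a {R AE Q P : Type*} [CommRing R] [IsNoetherianRing R] [CommRing AE] [CommRing Q]
    [Algebra R AE] [Algebra R Q] [Algebra AE Q] [IsScalarTower R AE Q] [CommRing P] (v w : R)
    [IsLocalization.Away v AE] (κ : R →+* P) (hker : RingHom.ker κ = Ideal.span {v})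
    (hwc : ∀ p : P, κ w * p = 0 → p = 0)
    (h1 : ∀ n : Q, IsIntegral AE n →
      ∃ a : AE, algebraMap AE Q a = algebraMap AE Q (algebraMap R AE w) * n)
    (hinj : Function.Injective (algebraMap R Q))
    (h2 : ∀ g : Q, IsIntegral R g → ∃ a : R, algebraMap R Q a = algebraMap R Q w * g)
    (h4 : IsUnit (algebraMap R Q w)) (h5 : IsUnit (algebraMap R Q v)) (h : Q)
    (hvh : IsIntegral R (algebraMap R Q v * h)) (hwh : IsIntegral R (algebraMap R Q w * h)) :
    IsIntegral R h := by
  refine part4_noeth w h4 h fun m => ?_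
  have hRAQ : ∀ a : R, algebraMap AE Q (algebraMap R AE a) = algebraMap R Q a := fun a =>
    (IsScalarTower.algebraMap_apply R AE Q a).symm
  have i1 : IsIntegral R (algebraMap R Q v ^ m * h ^ m) := by
    rw [← mul_pow]; exact hvh.pow m
  have i2 : IsIntegral R (algebraMap R Q w ^ m * h ^ m) := by
    rw [← mul_pow]; exact hwh.pow m
  have i3 : IsIntegral AE (h ^ m) := by
    have j1 : IsIntegral AE (algebraMap R Q v ^ m * h ^ m) := i1.tower_top
    have hu : IsUnit (algebraMap R AE v) := IsLocalization.Away.algebraMap_isUnit v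
    obtain ⟨u, hu⟩ := hu
    have j2 : h ^ m = algebraMap AE Q ((↑(u⁻¹) : AE) ^ m) * (algebraMap R Q v ^ m * h ^ m) := by
      rw [← hRAQ v, ← hu, ← mul_assoc, ← map_pow, ← map_mul, ← mul_pow, Units.inv_mul, one_pow,
        map_one, one_mul]
    rw [j2]
    exact isIntegral_algebraMap.mul j1
  obtain ⟨a, ha⟩ := h1 (h ^ m) i3
  obtain ⟨σ, hσ⟩ := h2 _ i2
  obtain ⟨j, ρ, hρ⟩ := IsLocalization.Away.surj v a
  have hρ' : algebraMap R Q ρ = algebraMap R Q v ^ j * (algebraMap R Q w * h ^ m) := by
    rw [← hRAQ ρ, ← hρ, map_mul, ha, map_pow, hRAQ, hRAQ]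
    ring
  clear hρ
  have hvκ : κ v = 0 := by
    have : v ∈ RingHom.ker κ := by
      rw [hker]; exact Ideal.mem_span_singleton_self v
    exact this
  have hwcm : ∀ (m : ℕ) (p : P), κ w ^ m * p = 0 → p = 0 := by
    intro m
    induction m with
    | zero => intro p hp; simpa using hp
    | succ m ih =>
      intro p hp
      apply ih
      apply hwc
      rw [← hp, pow_succ]
      ring
  induction j generalizing ρ with
  | zero => exact ⟨ρ, by rw [hρ', pow_zero, one_mul]⟩
  | succ j ih =>
    have k1 : w ^ m * ρ = v ^ (j + 1) * σ := by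
      apply hinj
      rw [map_mul, map_mul, map_pow, map_pow, hρ', hσ]
      ring
    have k2 : κ ρ = 0 := by
      apply hwcm m
      rw [← map_pow, ← map_mul, k1, map_mul, map_pow, hvκ, zero_pow (Nat.succ_ne_zero _), zero_mul]
    have k3 : ρ ∈ Ideal.span {v} := by
      rw [← hker]; exact k2
    obtain ⟨ρ', rfl⟩ := Ideal.mem_span_singleton'.mp k3
    refine ih ρ' ?_
    apply h5.mul_left_cancel
    rw [← map_mul, mul_comm v ρ', hρ']
    ring

theorem part4_b {R Q D : Type*} [CommRing R] [CommRing Q] [Algebra R Q] [CommRing D] [IsDomain D]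
    [IsIntegrallyClosed D] (w : R) (φ : R →+* D) (hφ : φ w ≠ 0)
    (hinj : Function.Injective (algebraMap R Q))
    (h2 : ∀ g : Q, IsIntegral R g → ∃ a : R, algebraMap R Q a = algebraMap R Q w * g) :
    ∃ ψ : integralClosure R Q →+* D, ∀ (g : integralClosure R Q) (a : R),
      algebraMap R Q a = algebraMap R Q w * (g : Q) → φ w * ψ g = φ a := by
  choose a ha using fun g : integralClosure R Q => h2 g g.2
  set L := FractionRing D
  have hiL : Function.Injective (algebraMap D L) := IsFractionRing.injective D L
  have hφL : algebraMap D L (φ w) ≠ 0 := by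
    rw [Ne, ← map_zero (algebraMap D L)]
    exact fun h => hφ (hiL h)
  obtain ⟨ψL, hψL⟩ : ∃ ψL : integralClosure R Q →+* L, ∀ g,
      ψL g = algebraMap D L (φ (a g)) / algebraMap D L (φ w) := by
    refine ⟨{ toFun := fun g => algebraMap D L (φ (a g)) / algebraMap D L (φ w)
              map_one' := ?_
              map_mul' := ?_
              map_zero' := ?_
              map_add' := ?_ }, fun g => rfl⟩
    · have : a 1 = w := by
        apply hinj
        rw [ha]
        simp
      rw [this, div_self hφL]
    · intro x y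
      have : w * a (x * y) = a x * a y := by
        apply hinj
        rw [map_mul, map_mul, ha, ha, ha]
        push_cast
        ring
      have h3 : algebraMap D L (φ w) * algebraMap D L (φ (a (x * y))) =
          algebraMap D L (φ (a x)) * algebraMap D L (φ (a y)) := by
        rw [← map_mul, ← map_mul, ← map_mul, ← map_mul, this]
      rw [div_mul_div_comm, div_eq_div_iff hφL (mul_ne_zero hφL hφL), ← h3]
      ring
    · have : a 0 = 0 := by
        apply hinj
        rw [ha]
        simp
      rw [this]
      simp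
    · intro x y
      have : a (x + y) = a x + a y := by
        apply hinj
        rw [map_add, ha, ha, ha]
        push_cast
        ring
      rw [this, map_add, map_add, add_div]
  have hψR : ∀ b : R, ψL (algebraMap R _ b) = algebraMap D L (φ b) := by
    intro b
    have : a (algebraMap R _ b) = w * b := by
      apply hinj
      rw [ha, map_mul]
      rfl
    rw [hψL, this, map_mul, map_mul, mul_div_cancel_left₀ _ hφL]
  have hint : ∀ g, ∃ p : D, algebraMap D L p = ψL g := by
    intro g
    rw [← IsIntegrallyClosed.isIntegral_iff (R := D) (K := L)]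
    have hg : IsIntegral R g := integralClosure.isIntegral g
    exact hg.map_of_comp_eq φ ψL (by
      ext b
      exact (hψR b).symm)
  choose p hp using hint
  refine ⟨{ toFun := p
            map_one' := ?_
            map_mul' := ?_
            map_zero' := ?_
            map_add' := ?_ }, ?_⟩
  · apply hiL
    rw [hp, map_one, map_one]
  · intro x y
    apply hiL
    rw [hp, map_mul, map_mul, hp, hp]
  · apply hiL
    rw [hp, map_zero, map_zero]
  · intro x y
    apply hiL
    rw [hp, map_add, map_add, hp, hp]
  · intro g b hb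
    have h3 : b = a g := by
      apply hinj
      rw [hb, ha]
    show φ w * p g = φ b
    apply hiL
    rw [map_mul, hp, hψL, h3, mul_div_cancel₀ _ hφL]

theorem part4_fin {K : Type*} [Field K] {r : ℕ} (c : Fin r → K⟦X⟧) (hc : ∀ i, c i ≠ 0)
    (S : Submodule K (Fin r → K⟦X⟧)) (hS : ∀ w, c * w ∈ S) :
    Module.Finite K ((Fin r → K⟦X⟧) ⧸ S) := by
  have hm : ∀ i, ∃ m : ℕ, c i ∣ (X : K⟦X⟧) ^ m := by
    intro i
    obtain ⟨m, hm⟩ := IsDiscreteValuationRing.associated_pow_irreducible (hc i)
      (PowerSeries.X_prime (R := K)).irreducible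
    exact ⟨m, hm.dvd⟩
  choose m hm using hm
  set N := ∑ i, m i with hN
  have hcN : ∀ i, c i ∣ (X : K⟦X⟧) ^ N := fun i =>
    (hm i).trans (pow_dvd_pow _ (Finset.single_le_sum (fun _ _ => Nat.zero_le _) (Finset.mem_univ i)))
  have hmem : ∀ q : Fin r → K⟦X⟧, (∀ i, (X : K⟦X⟧) ^ N ∣ q i) → q ∈ S := by
    intro q hq
    choose w hw using fun i => (hcN i).trans (hq i)
    have : q = c * w := funext hw
    rw [this]
    exact hS w
  let T : (Fin r → Fin N → K) →ₗ[K] (Fin r → K⟦X⟧) :=
    { toFun := fun f i => PowerSeries.mk fun j => if h : j < N then f i ⟨j, h⟩ else 0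
      map_add' := by
        intro f g
        funext i
        ext j
        simp only [Pi.add_apply, map_add, coeff_mk]
        split_ifs <;> simp
      map_smul' := by
        intro k f
        funext i
        ext j
        simp only [Pi.smul_apply, coeff_mk, RingHom.id_apply, smul_eq_mul, map_smul]
        split_ifs <;> simp }
  refine Module.Finite.of_surjective (S.mkQ.comp T) ?_
  intro q
  obtain ⟨p, rfl⟩ := Submodule.mkQ_surjective S q
  refine ⟨fun i j => coeff (j : ℕ) (p i), ?_⟩
  show S.mkQ (T _) = S.mkQ p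
  rw [← sub_eq_zero, ← map_sub, Submodule.mkQ_apply, Submodule.Quotient.mk_eq_zero]
  refine hmem _ fun i => ?_
  rw [PowerSeries.X_pow_dvd_iff]
  intro j hj
  show coeff j ((PowerSeries.mk fun j => if h : j < N then coeff j (p i) else 0) - p i) = 0
  rw [map_sub, coeff_mk, dif_pos hj, sub_self]

/-- the special fibre of the integral closure is the normalisation of the special fibre -/
theorem part4 {K B E R AE : Type u} [Field K] [CommRing B] [IsDomain B]
    [IsDiscreteValuationRing B] [IsAdicComplete (maximalIdeal B) B] [Algebra K B] [Field E]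
    [Algebra B E] [IsFractionRing B E] [CommRing R] [IsLocalRing R] [IsNoetherianRing R]
    [Algebra B R] [CommRing AE] [Algebra E AE] [Algebra B AE] [IsScalarTower B E AE]
    [Algebra R AE] [IsScalarTower B R AE] {r n : ℕ} (Z : Sit K B E R AE r n)
    [IsLocalization.Away (algebraMap B R Z.v) AE]
    (w : R) (hw : ∀ i, Z.κ w i ≠ 0)
    (h1 : ∀ n : FractionRing AE, IsIntegral AE n →
      ∃ a : AE, algebraMap AE (FractionRing AE) a = algebraMap AE (FractionRing AE)
        (algebraMap R AE w) * n)
    (hinj : Function.Injective (algebraMap R (FractionRing AE)))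
    (h2 : ∀ g : FractionRing AE, IsIntegral R g →
      ∃ a : R, algebraMap R (FractionRing AE) a = algebraMap R (FractionRing AE) w * g)
    (h3 : ∀ (g : FractionRing AE) (k : ℕ), IsIntegral R g →
      (∃ a : R, algebraMap R (FractionRing AE) a =
        algebraMap R (FractionRing AE) (algebraMap B R Z.v) ^ k * g) →
      ∃ a : R, algebraMap R (FractionRing AE) a = g)
    (h4 : IsUnit (algebraMap R (FractionRing AE) w))
    (h5 : IsUnit (algebraMap R (FractionRing AE) (algebraMap B R Z.v)))
    (h6 : Module.Finite R (integralClosure R (FractionRing AE)))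
    (b : Fin n → integralClosure R (FractionRing AE))
    (hb1 : ∀ g : integralClosure R (FractionRing AE), ∃ (β : Fin n → B) (a : R),
        g = ∑ j, algebraMap R _ (algebraMap B R (β j)) * b j + algebraMap R _ a)
    (hb2 : ∀ (β : Fin n → B) (a : R),
        ∑ j, algebraMap R _ (algebraMap B R (β j)) * b j + algebraMap R _ a = 0 →
        ∀ j, β j = 0) :
    ∃ κM : integralClosure R (FractionRing AE) →+* (Fin r → K⟦X⟧),
      Function.Surjective κM ∧
      RingHom.ker κM = Ideal.span {algebraMap R _ (algebraMap B R Z.v)} ∧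
      ∀ a : R, κM (algebraMap R _ a) = Z.κ a := by
  have hint : IsIntegrallyClosed K⟦X⟧ := inferInstance
  choose ψ hψ using fun i : Fin r => part4_b (Q := FractionRing AE) w
    ((Pi.evalRingHom (fun _ => K⟦X⟧) i).comp Z.κ) (hw i) hinj h2
  have hψ' : ∀ (i : Fin r) (g : integralClosure R (FractionRing AE)) (a : R),
      algebraMap R (FractionRing AE) a = algebraMap R (FractionRing AE) w * (g : FractionRing AE) →
      Z.κ w i * ψ i g = Z.κ a i := hψ
  obtain ⟨κM, hκM⟩ : ∃ κM : integralClosure R (FractionRing AE) →+* (Fin r → K⟦X⟧),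
      ∀ g i, κM g i = ψ i g := ⟨Pi.ringHom ψ, fun g i => rfl⟩
  have hwc : ∀ p q : Fin r → K⟦X⟧, Z.κ w * p = Z.κ w * q → p = q := by
    intro p q hpq
    funext i
    exact mul_left_cancel₀ (hw i) (congrFun hpq i)
  have hκMw : ∀ (g : integralClosure R (FractionRing AE)) (a : R),
      algebraMap R (FractionRing AE) a = algebraMap R (FractionRing AE) w * (g : FractionRing AE) →
      Z.κ w * κM g = Z.κ a := by
    intro g a ha
    funext i
    rw [Pi.mul_apply, hκM]
    exact hψ' i g a ha
  have hext : ∀ a : R, κM (algebraMap R _ a) = Z.κ a := by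
    intro a
    apply hwc
    rw [hκMw (algebraMap R _ a) (w * a) (by rw [map_mul]; rfl), map_mul]
  have hvκ : Z.κ (algebraMap B R Z.v) = 0 := by
    have : algebraMap B R Z.v ∈ RingHom.ker Z.κ := by
      rw [Z.ker]; exact Ideal.mem_span_singleton_self _
    exact this
  have hπv : Z.π Z.v = 0 := by
    have h7 := Z.hκ Z.v
    rw [hvκ] at h7
    have h8 := congrFun h7 ⟨0, Z.hr⟩
    have h9 : algebraMap K (Fin r → K⟦X⟧) (Z.π Z.v) ⟨0, Z.hr⟩ = PowerSeries.C (Z.π Z.v) := rfl
    rw [h9] at h8
    have h10 := congrArg PowerSeries.constantCoeff h8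
    simpa using h10.symm
  have hker : RingHom.ker κM = Ideal.span {algebraMap R _ (algebraMap B R Z.v)} := by
    ext g
    rw [RingHom.mem_ker, Ideal.mem_span_singleton']
    constructor
    · intro hg
      obtain ⟨a, ha⟩ := h2 g g.2
      have h7 := hκMw g a ha
      rw [hg, mul_zero] at h7
      have h8 : a ∈ Ideal.span {algebraMap B R Z.v} := by
        rw [← Z.ker]; exact h7.symm
      obtain ⟨a', ha'⟩ := Ideal.mem_span_singleton'.mp h8
      obtain ⟨u, hu⟩ := h5
      have hvinv : algebraMap R (FractionRing AE) (algebraMap B R Z.v) *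
          ((↑(u⁻¹) : FractionRing AE) * (g : FractionRing AE)) = g := by
        rw [← hu, ← mul_assoc, Units.mul_inv, one_mul]
      have hwinv : algebraMap R (FractionRing AE) w *
          ((↑(u⁻¹) : FractionRing AE) * (g : FractionRing AE)) = algebraMap R (FractionRing AE) a' := by
        calc algebraMap R (FractionRing AE) w *
          ((↑(u⁻¹) : FractionRing AE) * (g : FractionRing AE))
            = (↑(u⁻¹) : FractionRing AE) * (algebraMap R (FractionRing AE) w * (g : FractionRing AE)) := by
              ring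
          _ = (↑(u⁻¹) : FractionRing AE) * (algebraMap R (FractionRing AE) a' * u) := by
              rw [← ha, ← ha', map_mul, hu]
          _ = algebraMap R (FractionRing AE) a' * ((↑(u⁻¹) : FractionRing AE) * u) := by ring
          _ = algebraMap R (FractionRing AE) a' := by rw [Units.inv_mul, mul_one]
      have h9 : IsIntegral R ((↑(u⁻¹) : FractionRing AE) * (g : FractionRing AE)) := by
        refine part4_a (AE := AE) (algebraMap B R Z.v) w Z.κ Z.ker
          (fun p hp => hwc p 0 (by rw [hp, mul_zero])) h1 hinj h2 h4 ⟨u, hu⟩ _ ?_ ?_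
        · rw [hvinv]; exact g.2
        · rw [hwinv]; exact isIntegral_algebraMap
      refine ⟨⟨_, h9⟩, ?_⟩
      apply Subtype.ext
      show ((↑(u⁻¹) : FractionRing AE) * (g : FractionRing AE)) *
        algebraMap R (FractionRing AE) (algebraMap B R Z.v) = g
      rw [mul_comm, hvinv]
    · rintro ⟨m, rfl⟩
      rw [map_mul, hext, hvκ, mul_zero]
  refine ⟨κM, ?_, hker, hext⟩
  -- surjectivity
  have hfin : Module.Finite K ((Fin r → K⟦X⟧) ⧸ Z.S) :=
    part4_fin (Z.κ Z.c) Z.hc Z.S (fun w => (Z.hS _).mpr (Z.cond w))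
  have hKB : ∀ k : K, Z.κ (algebraMap B R (algebraMap K B k)) = algebraMap K (Fin r → K⟦X⟧) k := by
    intro k
    rw [Z.hκ, AlgHom.commutes]
    rfl
  have hsum : ∀ k : Fin n → K, κM (∑ j, algebraMap R _ (algebraMap B R (algebraMap K B (k j))) * b j)
      = ∑ j, k j • κM (b j) := by
    intro k
    rw [map_sum]
    refine Finset.sum_congr rfl fun j _ => ?_
    rw [map_mul, hext, hKB, Algebra.smul_def]
  have hli : LinearIndependent K (fun j => Z.S.mkQ (κM (b j))) := by
    rw [Fintype.linearIndependent_iff]
    intro k hk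
    have h7 : Z.S.mkQ (∑ j, k j • κM (b j)) = 0 := by
      rw [map_sum]
      simpa only [map_smul] using hk
    rw [Submodule.mkQ_apply, Submodule.Quotient.mk_eq_zero, Z.hS] at h7
    obtain ⟨a, ha⟩ := h7
    have h8 : (∑ j, algebraMap R _ (algebraMap B R (algebraMap K B (k j))) * b j)
        - algebraMap R _ a ∈ RingHom.ker κM := by
      rw [RingHom.mem_ker, map_sub, hsum, hext, ha, sub_self]
    rw [hker, Ideal.mem_span_singleton'] at h8
    obtain ⟨m, hm⟩ := h8
    obtain ⟨β, a', hm'⟩ := hb1 m
    have h9 := hb2 (fun j => algebraMap K B (k j) - Z.v * β j) (-a - algebraMap B R Z.v * a') (by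
      have e1 : ∑ j, algebraMap R (integralClosure R (FractionRing AE))
          (algebraMap B R (algebraMap K B (k j) - Z.v * β j)) * b j
          = (∑ j, algebraMap R _ (algebraMap B R (algebraMap K B (k j))) * b j)
            - (∑ j, algebraMap R _ (algebraMap B R (β j)) * b j)
              * algebraMap R _ (algebraMap B R Z.v) := by
        rw [Finset.sum_mul, ← Finset.sum_sub_distrib]
        refine Finset.sum_congr rfl fun j _ => ?_
        rw [map_sub, map_sub, map_mul, map_mul]
        ring
      have e2 : (∑ j, algebraMap R (integralClosure R (FractionRing AE)) (algebraMap B R (β j)) * b j)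
          = m - algebraMap R _ a' := by
        rw [hm']
        ring
      rw [e1, e2, map_sub, map_neg, map_mul]
      have e3 : (∑ j, algebraMap R (integralClosure R (FractionRing AE))
          (algebraMap B R (algebraMap K B (k j))) * b j)
          = m * algebraMap R _ (algebraMap B R Z.v) + algebraMap R _ a := by
        rw [hm]
        ring
      rw [e3]
      ring)
    intro j
    have h10 := congrArg Z.π (h9 j)
    rw [map_sub, map_mul, hπv, zero_mul, sub_zero, map_zero, AlgHom.commutes] at h10
    exact h10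
  have hspan := hli.span_eq_top_of_card_eq_finrank' (by rw [Fintype.card_fin, Z.hn])
  intro p
  have h7 : Z.S.mkQ p ∈ Submodule.span K (Set.range fun j => Z.S.mkQ (κM (b j))) := by
    rw [hspan]; exact Submodule.mem_top
  rw [Submodule.mem_span_range_iff_exists_fun] at h7
  obtain ⟨k, hk⟩ := h7
  have h8 : Z.S.mkQ (p - ∑ j, k j • κM (b j)) = 0 := by
    rw [map_sub, map_sum, ← hk]
    simp only [map_smul, sub_self]
  rw [Submodule.mkQ_apply, Submodule.Quotient.mk_eq_zero, Z.hS] at h8
  obtain ⟨a, ha⟩ := h8
  refine ⟨(∑ j, algebraMap R _ (algebraMap B R (algebraMap K B (k j))) * b j) + algebraMap R _ a, ?_⟩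
  rw [map_add, hsum, hext, ha]
  abel

end S4

end Pool.Agent.Helper819.DC
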