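import Pool.Agent.Helper819.DC.Core2

set_option autoImplicit false

open PowerSeries IsLocalRing TensorProduct

universe u

namespace Pool.Agent.Helper819.DC


namespace STR

theorem sec2 {K B : Type u} [Field K] [CommRing B] [Algebra K B] (π : B →ₐ[K] K)
    (h : K⟦X⟧⟦X⟧) : map2 (π : B →+* K) (map2 (algebraMap K B) h) = h := by
  ext i j
  simp [map2]

theorem secP {K B : Type u} [Field K] [CommRing B] [Algebra K B] {r : ℕ} (π : B →ₐ[K] K)
    (w : Fin r → K⟦X⟧) : mapP (π : B →+* K) (mapP (algebraMap K B) w) = w := by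
  funext i
  ext n
  simp [mapP_apply]

theorem mapP_smul {A A' : Type u} [CommRing A] [CommRing A'] {r : ℕ} (ψ : A →+* A') (a : A)
    (w : Fin r → A⟦X⟧) : mapP ψ (a • w) = ψ a • mapP ψ w := by
  funext i
  ext n
  simp [mapP_apply]

theorem map2_smul {A A' : Type u} [CommRing A] [CommRing A'] (ψ : A →+* A') (a : A)
    (h : A⟦X⟧⟦X⟧) : map2 ψ (a • h) = ψ a • map2 ψ h := by
  ext i j
  simp [map2]

theorem div2 {B : Type u} [CommRing B] [IsLocalRing B] {v : B}
    (hv : maximalIdeal B = Ideal.span {v}) {h : B⟦X⟧⟦X⟧} (hh : In2 (maximalIdeal B) h) :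
    ∃ h', h = v • h' := by
  have h1 : ∀ i j, ∃ a, v * a = PowerSeries.coeff i (PowerSeries.coeff j h) := by
    intro i j
    have := hh i j
    rw [hv, Ideal.mem_span_singleton] at this
    obtain ⟨a, ha⟩ := this
    exact ⟨a, ha.symm⟩
  choose a ha using h1
  refine ⟨PowerSeries.mk fun j => PowerSeries.mk fun i => a i j, ?_⟩
  ext j i
  simp [ha]

theorem divP {B : Type u} [CommRing B] [IsLocalRing B] {r : ℕ} {v : B}
    (hv : maximalIdeal B = Ideal.span {v}) {w : Fin r → B⟦X⟧} (hw : InP (maximalIdeal B) w) :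
    ∃ w', w = v • w' := by
  have h1 : ∀ i n, ∃ a, v * a = PowerSeries.coeff n (w i) := by
    intro i n
    have := hw i n
    rw [hv, Ideal.mem_span_singleton] at this
    obtain ⟨a, ha⟩ := this
    exact ⟨a, ha.symm⟩
  choose a ha using h1
  refine ⟨fun i => PowerSeries.mk fun n => a i n, ?_⟩
  funext i
  ext n
  simp [ha]

theorem in2_pow {B : Type u} [CommRing B] {I : Ideal B} {a : B} (ha : a ∈ I) (h : B⟦X⟧⟦X⟧) :
    In2 I (a • h) := by
  intro i j
  have h1 : PowerSeries.coeff i (PowerSeries.coeff j (a • h)) =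
      a * PowerSeries.coeff i (PowerSeries.coeff j h) := by
    simp
  rw [h1]
  exact Ideal.mul_mem_right _ _ ha

theorem inP_pow {B : Type u} [CommRing B] {I : Ideal B} {a : B} (ha : a ∈ I) {r : ℕ}
    (w : Fin r → B⟦X⟧) : InP I (a • w) := by
  intro i n
  simp only [Pi.smul_apply, map_smul, smul_eq_mul]
  exact Ideal.mul_mem_right _ _ ha

theorem in2_sub {B : Type u} [CommRing B] {I : Ideal B} {h k : B⟦X⟧⟦X⟧} (hh : In2 I h)
    (hk : In2 I k) : In2 I (h - k) := by
  intro i j
  simp only [map_sub]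
  exact I.sub_mem (hh i j) (hk i j)

theorem inP_sub {B : Type u} [CommRing B] {I : Ideal B} {r : ℕ} {h k : Fin r → B⟦X⟧}
    (hh : InP I h) (hk : InP I k) : InP I (h - k) := by
  intro i j
  simp only [Pi.sub_apply, map_sub]
  exact I.sub_mem (hh i j) (hk i j)

theorem inP_sum {B : Type u} [CommRing B] {I : Ideal B} {r : ℕ} {ι : Type} (S : Finset ι)
    {h : ι → Fin r → B⟦X⟧} (hh : ∀ k ∈ S, InP I (h k)) : InP I (∑ k ∈ S, h k) := by
  intro i j
  rw [Finset.sum_apply, map_sum]
  exact I.sum_mem fun k hk => hh k hk i j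

theorem smul_inj {B : Type u} [CommRing B] [IsDomain B] {r : ℕ} {v : B} (hv : v ≠ 0)
    {w : Fin r → B⟦X⟧} (h : v • w = 0) : w = 0 := by
  funext i
  ext n
  have h1 := congrArg (fun z : Fin r → B⟦X⟧ => PowerSeries.coeff n (z i)) h
  simp only [Pi.smul_apply, map_smul, smul_eq_mul, Pi.zero_apply, map_zero] at h1 ⊢
  exact (mul_eq_zero.1 h1).resolve_left hv

/-- finite dimension of the cokernel -/
theorem fd0 {K : Type u} [Field K] {τ r : ℕ} (D : Setup K τ r) :
    Module.Finite K ((Fin r → K⟦X⟧) ⧸ LinearMap.range D.φ.toLinearMap) := by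
  classical
  have h1 : ∀ i, ∃ n : ℕ, Associated (D.φ D.d i) (X ^ n) := fun i =>
    IsDiscreteValuationRing.associated_pow_irreducible (D.hd i) PowerSeries.X_irreducible
  choose n hn using h1
  let N : ℕ := Finset.univ.sup n
  have hN : ∀ i, D.φ D.d i ∣ (X : K⟦X⟧) ^ N := fun i =>
    (hn i).dvd.trans (pow_dvd_pow X (Finset.le_sup (Finset.mem_univ i)))
  let l0 : (Fin r → Fin N → K) →ₗ[K] (Fin r → K⟦X⟧) :=
    { toFun := fun a i => ∑ k : Fin N, a i k • (X : K⟦X⟧) ^ (k : ℕ)
      map_add' := by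
        intro a b
        funext i
        simp only [Pi.add_apply, add_smul, Finset.sum_add_distrib]
      map_smul' := by
        intro c a
        funext i
        simp only [Pi.smul_apply, smul_eq_mul, mul_smul, Finset.smul_sum, RingHom.id_apply] }
  apply Module.Finite.of_surjective ((Submodule.mkQ (LinearMap.range D.φ.toLinearMap)).comp l0)
  intro z
  obtain ⟨w, rfl⟩ := Submodule.mkQ_surjective _ z
  refine ⟨fun i k => PowerSeries.coeff (k : ℕ) (w i), ?_⟩
  rw [LinearMap.comp_apply, eq_comm, ← sub_eq_zero, ← map_sub, Submodule.mkQ_apply,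
    Submodule.Quotient.mk_eq_zero]
  have h2 : ∀ i, ∃ t, w i - (l0 (fun i k => PowerSeries.coeff (k : ℕ) (w i))) i =
      D.φ D.d i * t := by
    intro i
    apply (hN i).trans
    rw [PowerSeries.X_pow_dvd_iff]
    intro m hm
    rw [map_sub, sub_eq_zero]
    show _ = PowerSeries.coeff m (∑ k : Fin N, PowerSeries.coeff (k : ℕ) (w i) • (X : K⟦X⟧) ^ (k : ℕ))
    rw [map_sum, Finset.sum_eq_single (⟨m, hm⟩ : Fin N)]
    · simp
    · intro b _ hb
      rw [map_smul, PowerSeries.coeff_X_pow, if_neg, smul_zero]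
      intro h
      exact hb (Fin.ext h.symm)
    · intro h
      exact absurd (Finset.mem_univ _) h
  choose t ht using h2
  obtain ⟨a, ha⟩ := D.cond t
  refine ⟨a, ?_⟩
  show D.φ a = _
  rw [ha]
  funext i
  rw [Pi.mul_apply, Pi.sub_apply, ht]

theorem basis0 {K : Type u} [Field K] {τ r : ℕ} (D : Setup K τ r) :
    ∃ e : Fin D.delta → (Fin r → K⟦X⟧),
      (∀ w, ∃ (c : Fin D.delta → K) (h : K⟦X⟧⟦X⟧), w = D.φ h + ∑ j, c j • e j) ∧
      (∀ (c : Fin D.delta → K) (h : K⟦X⟧⟦X⟧), ∑ j, c j • e j = D.φ h → ∀ j, c j = 0) := by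
  have := fd0 D
  let b0 : Module.Basis (Fin D.delta) K ((Fin r → K⟦X⟧) ⧸ LinearMap.range D.φ.toLinearMap) :=
    Module.finBasis K _
  have h1 : ∀ j, ∃ e, Submodule.mkQ (LinearMap.range D.φ.toLinearMap) e = b0 j := fun j =>
    Submodule.mkQ_surjective _ _
  choose e he using h1
  refine ⟨e, ?_, ?_⟩
  · intro w
    have h2 := b0.sum_repr (Submodule.mkQ (LinearMap.range D.φ.toLinearMap) w)
    have h3 : Submodule.mkQ (LinearMap.range D.φ.toLinearMap)
        (w - ∑ j, b0.repr (Submodule.mkQ (LinearMap.range D.φ.toLinearMap) w) j • e j) = 0 := by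
      rw [map_sub, map_sum]
      simp only [map_smul, he]
      rw [h2, sub_self]
    rw [Submodule.mkQ_apply, Submodule.Quotient.mk_eq_zero] at h3
    obtain ⟨h, hh⟩ := h3
    refine ⟨fun j => b0.repr (Submodule.mkQ (LinearMap.range D.φ.toLinearMap) w) j, h, ?_⟩
    have hh' : D.φ h = w - ∑ j, b0.repr (Submodule.mkQ (LinearMap.range D.φ.toLinearMap) w) j • e j :=
      hh
    rw [hh', sub_add_cancel]
  · intro c h hc
    have h2 : ∑ j, c j • b0 j = 0 := by
      have h3 : ∑ j, c j • b0 j =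
          Submodule.mkQ (LinearMap.range D.φ.toLinearMap) (∑ j, c j • e j) := by
        rw [map_sum]
        simp only [map_smul, he]
      rw [h3, hc, Submodule.mkQ_apply, Submodule.Quotient.mk_eq_zero]
      exact ⟨h, rfl⟩
    exact Fintype.linearIndependent_iff.1 b0.linearIndependent c h2

section main

variable {K : Type u} [Field K] {τ r : ℕ} {D : Setup K τ r}
    {B : Type u} [CommRing B] [IsDomain B] [IsDiscreteValuationRing B]
    [Algebra K B] {π : B →ₐ[K] K} {v : B} {s : Fin τ → B} {Φ : Par B r}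

theorem v_ne (hv : maximalIdeal B = Ideal.span {v}) : v ≠ 0 := by
  rintro rfl
  apply IsDiscreteValuationRing.not_a_field B
  rw [hv, Ideal.span_singleton_eq_bot]

theorem red (hT : Tools.{u}) (hv : maximalIdeal B = Ideal.span {v}) (hsim : SimPar D π s Φ)
    {H : B⟦X⟧⟦X⟧} (hH : D.φ (map2 (π : B →+* K) H) = 0) :
    ∃ e H', H = e * D.F s + v • H' := by
  have h1 : map2 (π : B →+* K) H ∈ RingHom.ker D.φ := hH
  rw [D.ker, Ideal.mem_span_singleton'] at h1
  obtain ⟨e0, he0⟩ := h1
  have h2 : In2 (maximalIdeal B) (H - map2 (algebraMap K B) e0 * D.F s) := by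
    rw [hT.in2_map π, map_sub, map_mul, sec2, hT.map2_fam_zero π D.f D.g s hsim.mem, he0, sub_self]
  obtain ⟨H', hH'⟩ := div2 hv h2
  refine ⟨map2 (algebraMap K B) e0, H', ?_⟩
  rw [← hH', add_sub_cancel]

theorem red' (hT : Tools.{u}) (hv : maximalIdeal B = Ideal.span {v}) (hsim : SimPar D π s Φ)
    {H : B⟦X⟧⟦X⟧} {w : Fin r → B⟦X⟧} (hH : Φ H = v • w) :
    ∃ e H', H = e * D.F s + v • H' ∧ w = Φ H' := by
  have hvm : v ∈ maximalIdeal B := by rw [hv]; exact Ideal.mem_span_singleton_self v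
  have h1 : D.φ (map2 (π : B →+* K) H) = 0 := by
    rw [← hsim.lifts H, hH]
    exact (hT.inP_map π (v • w)).1 (inP_pow hvm w)
  obtain ⟨e, H', h2⟩ := red hT hv hsim h1
  refine ⟨e, H', h2, ?_⟩
  have h3 : v • (w - Φ H') = 0 := by
    rw [smul_sub, ← hH, h2, map_add, map_mul, hsim.zero, mul_zero, zero_add, map_smul, sub_self]
  exact sub_eq_zero.1 (smul_inj (v_ne hv) h3)

theorem ker_eq (hT : Tools.{u}) [IsAdicComplete (maximalIdeal B) B]
    (hv : maximalIdeal B = Ideal.span {v}) (hsim : SimPar D π s Φ) :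
    RingHom.ker Φ = Ideal.span {D.F s} := by
  have hvm : v ∈ maximalIdeal B := by rw [hv]; exact Ideal.mem_span_singleton_self v
  apply le_antisymm
  · intro H hH
    have hH0 : Φ H = 0 := hH
    have hst : ∀ G : {G : B⟦X⟧⟦X⟧ // Φ G = 0}, ∃ (e : B⟦X⟧⟦X⟧) (G' : {G : B⟦X⟧⟦X⟧ // Φ G = 0}),
        G.1 = e * D.F s + v • G'.1 := by
      rintro ⟨G, hG⟩
      obtain ⟨e, H', h1, h2⟩ := red' hT hv hsim (H := G) (w := 0) (by rw [hG, smul_zero])
      exact ⟨e, ⟨H', h2.symm⟩, h1⟩
    choose ee GG hGG using hst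
    let sq : ℕ → {G : B⟦X⟧⟦X⟧ // Φ G = 0} := fun n => Nat.rec ⟨H, hH0⟩ (fun _ x => GG x) n
    have hsq : ∀ n, sq (n + 1) = GG (sq n) := fun n => rfl
    let wn : ℕ → B⟦X⟧⟦X⟧ := fun n => ∑ k ∈ Finset.range n, v ^ k • ee (sq k)
    have hwn : ∀ n, wn (n + 1) = wn n + v ^ n • ee (sq n) := fun n =>
      Finset.sum_range_succ _ _
    have hcl : ∀ n, H = wn n * D.F s + v ^ n • (sq n).1 := by
      intro n
      induction n with
      | zero =>
        simp only [wn, Finset.range_zero, Finset.sum_empty, zero_mul, zero_add, pow_zero, one_smul]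
        rfl
      | succ n ih =>
        rw [hwn, hsq]
        have h3 := hGG (sq n)
        have h4 : v ^ n • (sq n).1 = v ^ n • (ee (sq n) * D.F s + v • (GG (sq n)).1) := by
          rw [← h3]
        rw [h4] at ih
        rw [ih, smul_add, smul_smul, ← pow_succ, add_mul, smul_mul_assoc, add_assoc]
    obtain ⟨l, hl⟩ := hT.lim2 wn (fun n => by
      rw [hwn, add_sub_cancel_left]
      exact in2_pow (Ideal.pow_mem_pow hvm n) _)
    have h5 : H - l * D.F s = 0 := by
      apply hT.eq2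
      intro n
      have h6 : H - l * D.F s = v ^ n • (sq n).1 - (l - wn n) * D.F s := by
        have := hcl n
        linear_combination this
      rw [h6]
      apply in2_sub (in2_pow (Ideal.pow_mem_pow hvm n) _)
      have h7 := hT.in2_mul (maximalIdeal B ^ n) ⊤ (l - wn n) (D.F s) (hl n) (fun _ _ => trivial)
      rwa [Ideal.mul_top] at h7
    rw [Ideal.mem_span_singleton']
    exact ⟨l, (sub_eq_zero.1 h5).symm⟩
  · rw [Ideal.span_le, Set.singleton_subset_iff]
    exact hsim.zero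

theorem span_step (hT : Tools.{u}) (hv : maximalIdeal B = Ideal.span {v}) (hsim : SimPar D π s Φ)
    {δ : ℕ} {e : Fin δ → (Fin r → K⟦X⟧)}
    (he : ∀ w, ∃ (c : Fin δ → K) (h : K⟦X⟧⟦X⟧), w = D.φ h + ∑ j, c j • e j) (w : Fin r → B⟦X⟧) :
    ∃ (h : B⟦X⟧⟦X⟧) (b : Fin δ → B) (w' : Fin r → B⟦X⟧),
      w = Φ h + ∑ j, b j • mapP (algebraMap K B) (e j) + v • w' := by
  obtain ⟨c, h0, hw⟩ := he (mapP (π : B →+* K) w)
  have h1 : InP (maximalIdeal B) (w - (Φ (map2 (algebraMap K B) h0) +
      ∑ j, algebraMap K B (c j) • mapP (algebraMap K B) (e j))) := by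
    rw [hT.inP_map π, map_sub, map_add, map_sum]
    simp only [mapP_smul, secP]
    rw [hsim.lifts, sec2]
    have h2 : ∀ k : K, (π : B →+* K) (algebraMap K B k) = k := fun k => π.commutes k
    simp only [h2]
    rw [← hw, sub_self]
  obtain ⟨w', hw'⟩ := divP hv h1
  refine ⟨map2 (algebraMap K B) h0, fun j => algebraMap K B (c j), w', ?_⟩
  rw [← hw', add_sub_cancel]

theorem span_all (hT : Tools.{u}) [IsAdicComplete (maximalIdeal B) B]
    (hv : maximalIdeal B = Ideal.span {v}) (hsim : SimPar D π s Φ)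
    {δ : ℕ} {e : Fin δ → (Fin r → K⟦X⟧)}
    (he : ∀ w, ∃ (c : Fin δ → K) (h : K⟦X⟧⟦X⟧), w = D.φ h + ∑ j, c j • e j) (w : Fin r → B⟦X⟧) :
    ∃ (h : B⟦X⟧⟦X⟧) (b : Fin δ → B),
      w = Φ h + ∑ j, b j • mapP (algebraMap K B) (e j) := by
  have hvm : v ∈ maximalIdeal B := by rw [hv]; exact Ideal.mem_span_singleton_self v
  choose hh bb ww hw using span_step (Φ := Φ) hT hv hsim he
  let W : ℕ → (Fin r → B⟦X⟧) := fun n => Nat.rec w (fun _ x => ww x) n
  have hW : ∀ n, W (n + 1) = ww (W n) := fun n => rfl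
  let Hn : ℕ → B⟦X⟧⟦X⟧ := fun n => ∑ k ∈ Finset.range n, v ^ k • hh (W k)
  let Bn : ℕ → Fin δ → B := fun n j => ∑ k ∈ Finset.range n, v ^ k * bb (W k) j
  have hHn : ∀ n, Hn (n + 1) = Hn n + v ^ n • hh (W n) := fun n => Finset.sum_range_succ _ _
  have hBn : ∀ n j, Bn (n + 1) j = Bn n j + v ^ n * bb (W n) j := fun n j =>
    Finset.sum_range_succ _ _
  have hcl : ∀ n, w = Φ (Hn n) + ∑ j, Bn n j • mapP (algebraMap K B) (e j) + v ^ n • W n := by
    intro n
    induction n with
    | zero =>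
      simp only [Hn, Bn, Finset.range_zero, Finset.sum_empty, map_zero, zero_smul,
        Finset.sum_const_zero, zero_add, pow_zero, one_smul]
      rfl
    | succ n ih =>
      have h3 := hw (W n)
      have h4 : v ^ n • W n = v ^ n • (Φ (hh (W n)) +
          ∑ j, bb (W n) j • mapP (algebraMap K B) (e j) + v • ww (W n)) := by
        rw [← h3]
      rw [h4] at ih
      rw [hHn, hW]
      simp only [hBn]
      rw [ih]
      simp only [map_add, map_smul, smul_add, add_smul, Finset.sum_add_distrib, Finset.smul_sum,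
        smul_smul, pow_succ]
      abel
  obtain ⟨l, hl⟩ := hT.lim2 Hn (fun n => by
    rw [hHn, add_sub_cancel_left]
    exact in2_pow (Ideal.pow_mem_pow hvm n) _)
  have hex : ∀ j, ∃ β : B, ∀ n, β - Bn n j ∈ maximalIdeal B ^ n := fun j =>
    hT.limA (fun n => Bn n j) (fun n => by
      show Bn (n + 1) j - Bn n j ∈ _
      rw [hBn, add_sub_cancel_left]
      exact Ideal.mul_mem_right _ _ (Ideal.pow_mem_pow hvm n))
  choose β hβ using hex
  refine ⟨l, β, ?_⟩
  rw [← sub_eq_zero]
  apply hT.eqP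
  intro n
  have h5 : w - (Φ l + ∑ j, β j • mapP (algebraMap K B) (e j)) =
      v ^ n • W n - Φ (l - Hn n) - ∑ j, (β j - Bn n j) • mapP (algebraMap K B) (e j) := by
    have := hcl n
    simp only [map_sub, sub_smul, Finset.sum_sub_distrib]
    linear_combination this
  rw [h5]
  apply inP_sub (inP_sub (inP_pow (Ideal.pow_mem_pow hvm n) _) (hT.par_in _ Φ _ (hl n)))
  apply inP_sum
  intro j _
  exact inP_pow (hβ j n) _

theorem indep_all (hT : Tools.{u}) [IsAdicComplete (maximalIdeal B) B]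
    (hv : maximalIdeal B = Ideal.span {v}) (hsim : SimPar D π s Φ)
    {δ : ℕ} {e : Fin δ → (Fin r → K⟦X⟧)}
    (he : ∀ (c : Fin δ → K) (h : K⟦X⟧⟦X⟧), ∑ j, c j • e j = D.φ h → ∀ j, c j = 0)
    (β : Fin δ → B) (H : B⟦X⟧⟦X⟧) (hβ : ∑ j, β j • mapP (algebraMap K B) (e j) = Φ H) :
    ∀ j, β j = 0 := by
  have hvm : v ∈ maximalIdeal B := by rw [hv]; exact Ideal.mem_span_singleton_self v
  have main : ∀ n, ∀ (β : Fin δ → B) (H : B⟦X⟧⟦X⟧),
      ∑ j, β j • mapP (algebraMap K B) (e j) = Φ H → ∀ j, β j ∈ maximalIdeal B ^ n := by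
    intro n
    induction n with
    | zero => intro β H _ j; rw [pow_zero, Ideal.one_eq_top]; trivial
    | succ n ih =>
      intro β H hβ
      have h1 : ∑ j, (π : B →+* K) (β j) • e j = D.φ (map2 (π : B →+* K) H) := by
        rw [← hsim.lifts, ← hβ, map_sum]
        simp only [mapP_smul, secP]
      have h2 := he _ _ h1
      have h3 : ∀ j, ∃ a, β j = v * a := by
        intro j
        have h4 : In2 (maximalIdeal B) (PowerSeries.C (PowerSeries.C (β j))) := by
          rw [hT.in2_map π]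
          have h5 := h2 j
          simp only [map2, PowerSeries.map_C]
          rw [h5, map_zero, map_zero]
        have h6 := h4 0 0
        simp only [PowerSeries.coeff_zero_C] at h6
        rw [hv, Ideal.mem_span_singleton] at h6
        exact h6
      choose a ha using h3
      have h7 : Φ H = v • ∑ j, a j • mapP (algebraMap K B) (e j) := by
        rw [← hβ, Finset.smul_sum]
        apply Finset.sum_congr rfl
        intro j _
        rw [ha, smul_smul]
      obtain ⟨-, H', -, h8⟩ := red' hT hv hsim h7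
      have h9 := ih a H' h8
      intro j
      rw [ha, pow_succ, mul_comm v]
      exact Ideal.mul_mem_mul (h9 j) hvm
  intro j
  exact hT.eqA _ fun n => main n β H hβ j

end main

section cond

variable {B : Type u} [CommRing B] {r : ℕ}

/-- multiplication on the cokernel -/
noncomputable def mulQ (Φ : Par B r) (h : B⟦X⟧⟦X⟧) :
    ((Fin r → B⟦X⟧) ⧸ LinearMap.range Φ.toLinearMap) →ₗ[B]
      ((Fin r → B⟦X⟧) ⧸ LinearMap.range Φ.toLinearMap) :=
  Submodule.mapQ _ _ (LinearMap.mulLeft B (Φ h)) (by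
    rintro _ ⟨a, rfl⟩
    exact ⟨h * a, map_mul Φ h a⟩)

theorem mulQ_mk (Φ : Par B r) (h : B⟦X⟧⟦X⟧) (w : Fin r → B⟦X⟧) :
    mulQ Φ h (Submodule.mkQ (LinearMap.range Φ.toLinearMap) w) =
      Submodule.mkQ (LinearMap.range Φ.toLinearMap) (Φ h * w) := rfl

/-- the action of the power series ring on the cokernel -/
noncomputable def MM (Φ : Par B r) :
    B⟦X⟧⟦X⟧ →ₐ[B] Module.End B ((Fin r → B⟦X⟧) ⧸ LinearMap.range Φ.toLinearMap) where
  toFun h := mulQ Φ h
  map_one' := by
    apply LinearMap.ext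
    intro z
    obtain ⟨w, rfl⟩ := Submodule.mkQ_surjective _ z
    rw [mulQ_mk, map_one, one_mul]
    rfl
  map_mul' := by
    intro a b
    apply LinearMap.ext
    intro z
    obtain ⟨w, rfl⟩ := Submodule.mkQ_surjective _ z
    rw [Module.End.mul_apply, mulQ_mk, mulQ_mk, mulQ_mk, map_mul Φ, mul_assoc]
  map_zero' := by
    apply LinearMap.ext
    intro z
    obtain ⟨w, rfl⟩ := Submodule.mkQ_surjective _ z
    rw [mulQ_mk, map_zero, zero_mul, map_zero]
    rfl
  map_add' := by
    intro a b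
    apply LinearMap.ext
    intro z
    obtain ⟨w, rfl⟩ := Submodule.mkQ_surjective _ z
    rw [LinearMap.add_apply, mulQ_mk, mulQ_mk, mulQ_mk, map_add, add_mul, map_add]
  commutes' := by
    intro b
    apply LinearMap.ext
    intro z
    obtain ⟨w, rfl⟩ := Submodule.mkQ_surjective _ z
    rw [mulQ_mk, Module.algebraMap_end_apply, Φ.commutes, ← Algebra.smul_def, map_smul]

theorem MM_apply (Φ : Par B r) (h : B⟦X⟧⟦X⟧) (w : Fin r → B⟦X⟧) :
    MM Φ h (Submodule.mkQ (LinearMap.range Φ.toLinearMap) w) =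
      Submodule.mkQ (LinearMap.range Φ.toLinearMap) (Φ h * w) := rfl

end cond

theorem pi_zero (hT : Tools.{u}) {K : Type u} [Field K] {B : Type u} [CommRing B] [IsLocalRing B]
    [Algebra K B] (π : B →ₐ[K] K) {a : B} (ha : a ∈ maximalIdeal B) : (π : B →+* K) a = 0 := by
  have h1 := (hT.in2_map π (a • (1 : B⟦X⟧⟦X⟧))).1 (in2_pow ha 1)
  rw [map2_smul, map_one] at h1
  have h2 := congrArg (fun z => PowerSeries.coeff 0 (PowerSeries.coeff 0 z)) h1
  simpa using h2

/-- structure of the family over a discrete valuation ring with a simultaneous parametrisation -/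
theorem structure_thm (hT : Tools.{u}) (hB : BaseFacts.{u}) {K : Type u} [Field K] {τ r : ℕ}
    (D : Setup K τ r)
    {B : Type u} [CommRing B] [IsDomain B] [IsDiscreteValuationRing B]
    [IsAdicComplete (maximalIdeal B) B] [Algebra K B] (π : B →ₐ[K] K) (v : B)
    (hv : maximalIdeal B = Ideal.span {v})
    (s : Fin τ → B) (Φ : Par B r) (hsim : SimPar D π s Φ) :
    RingHom.ker Φ = Ideal.span {D.F s} ∧ (Φ : B⟦X⟧⟦X⟧ →+* (Fin r → B⟦X⟧)).Finite ∧
    Nonempty (Module.Basis (Fin D.delta) B ((Fin r → B⟦X⟧) ⧸ LinearMap.range Φ.toLinearMap)) ∧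
    ∃ c : B⟦X⟧⟦X⟧, (∀ i, mapP (π : B →+* K) (Φ c) i ≠ 0) ∧ ∀ w, ∃ a, Φ a = Φ c * w := by
  classical
  have hvm : v ∈ maximalIdeal B := by rw [hv]; exact Ideal.mem_span_singleton_self v
  obtain ⟨e, he1, he2⟩ := basis0 D
  have hsp := span_all hT hv hsim he1
  have hin := indep_all hT hv hsim he2
  have hli : LinearIndependent B (fun j => Submodule.mkQ (LinearMap.range Φ.toLinearMap)
      (mapP (algebraMap K B) (e j))) := by
    rw [Fintype.linearIndependent_iff]
    intro g hg
    have h1 : Submodule.mkQ (LinearMap.range Φ.toLinearMap)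
        (∑ j, g j • mapP (algebraMap K B) (e j)) = 0 := by
      rw [map_sum]
      simp only [map_smul]
      exact hg
    rw [Submodule.mkQ_apply, Submodule.Quotient.mk_eq_zero] at h1
    obtain ⟨H, hH⟩ := h1
    exact hin g H hH.symm
  have hst : ⊤ ≤ Submodule.span B (Set.range (fun j =>
      Submodule.mkQ (LinearMap.range Φ.toLinearMap) (mapP (algebraMap K B) (e j)))) := by
    intro z _
    obtain ⟨w, rfl⟩ := Submodule.mkQ_surjective _ z
    obtain ⟨h, b, hw⟩ := hsp w
    have h0 : Submodule.mkQ (LinearMap.range Φ.toLinearMap) (Φ h) = 0 := by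
      rw [Submodule.mkQ_apply, Submodule.Quotient.mk_eq_zero]
      exact ⟨h, rfl⟩
    rw [hw, map_add, h0, zero_add, map_sum]
    apply Submodule.sum_mem
    intro j _
    rw [map_smul]
    exact Submodule.smul_mem _ _ (Submodule.subset_span ⟨j, rfl⟩)
  let bas : Module.Basis (Fin D.delta) B ((Fin r → B⟦X⟧) ⧸ LinearMap.range Φ.toLinearMap) :=
    Module.Basis.mk hli hst
  have hfin : Module.Finite B ((Fin r → B⟦X⟧) ⧸ LinearMap.range Φ.toLinearMap) :=
    Module.Finite.of_basis bas
  refine ⟨ker_eq hT hv hsim, ?_, ⟨bas⟩, ?_⟩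
  · let _ : Algebra B⟦X⟧⟦X⟧ (Fin r → B⟦X⟧) := (Φ : B⟦X⟧⟦X⟧ →+* (Fin r → B⟦X⟧)).toAlgebra
    show Module.Finite B⟦X⟧⟦X⟧ (Fin r → B⟦X⟧)
    refine ⟨⟨insert 1 (Finset.univ.image fun j => mapP (algebraMap K B) (e j)), ?_⟩⟩
    rw [eq_top_iff]
    intro w _
    obtain ⟨h, b, hw⟩ := hsp w
    rw [hw]
    apply Submodule.add_mem
    · have h1 : Φ h = h • (1 : Fin r → B⟦X⟧) := by
        rw [Algebra.smul_def, mul_one]
        rfl
      rw [h1]
      apply Submodule.smul_mem
      apply Submodule.subset_span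
      simp
    · apply Submodule.sum_mem
      intro j _
      have h1 : b j • mapP (algebraMap K B) (e j) =
          (algebraMap B B⟦X⟧⟦X⟧ (b j)) • mapP (algebraMap K B) (e j) := by
        rw [Algebra.smul_def, Algebra.smul_def]
        congr 1
        exact (Φ.commutes (b j)).symm
      rw [h1]
      apply Submodule.smul_mem
      apply Submodule.subset_span
      simp
  · have hle : LinearMap.range (mulQ Φ (map2 (algebraMap K B) D.d)) ≤
        maximalIdeal B • (⊤ : Submodule B ((Fin r → B⟦X⟧) ⧸ LinearMap.range Φ.toLinearMap)) := by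
      rintro _ ⟨z, rfl⟩
      obtain ⟨w, rfl⟩ := Submodule.mkQ_surjective _ z
      rw [mulQ_mk]
      obtain ⟨a, ha⟩ := D.cond (mapP (π : B →+* K) w)
      have h1 : InP (maximalIdeal B) (Φ (map2 (algebraMap K B) D.d) * w -
          Φ (map2 (algebraMap K B) a)) := by
        rw [hT.inP_map π, map_sub, map_mul, hsim.lifts, hsim.lifts, sec2, sec2, ha, sub_self]
      obtain ⟨w', hw'⟩ := divP hv h1
      have h2 : Φ (map2 (algebraMap K B) D.d) * w = Φ (map2 (algebraMap K B) a) + v • w' := by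
        rw [← hw', add_sub_cancel]
      have h0 : Submodule.mkQ (LinearMap.range Φ.toLinearMap) (Φ (map2 (algebraMap K B) a)) = 0 := by
        rw [Submodule.mkQ_apply, Submodule.Quotient.mk_eq_zero]
        exact ⟨_, rfl⟩
      rw [h2, map_add, h0, zero_add, map_smul]
      exact Submodule.smul_mem_smul hvm trivial
    obtain ⟨p, hp1, -, hp3, hp4⟩ :=
      LinearMap.exists_monic_and_natDegree_eq_and_coeff_mem_pow_and_aeval_eq_zero B
        (mulQ Φ (map2 (algebraMap K B) D.d)) (maximalIdeal B) hle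
    have hp5 : MM Φ (Polynomial.aeval (map2 (algebraMap K B) D.d) p) = 0 := by
      rw [← Polynomial.aeval_algHom_apply]
      exact hp4
    have hp6 : map2 (π : B →+* K) (Polynomial.aeval (map2 (algebraMap K B) D.d) p) =
        D.d ^ p.natDegree := by
      rw [Polynomial.aeval_eq_sum_range, map_sum, Finset.sum_range_succ]
      have h1 : ∀ k ∈ Finset.range p.natDegree,
          map2 (π : B →+* K) (p.coeff k • map2 (algebraMap K B) D.d ^ k) = 0 := by
        intro k hk
        rw [map2_smul, pi_zero hT π, zero_smul]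
        have h2 : p.natDegree - k ≠ 0 := by
          have := Finset.mem_range.1 hk
          omega
        exact Ideal.pow_le_self h2 (hp3 k)
      rw [Finset.sum_eq_zero h1, zero_add, map2_smul, map_pow, sec2]
      have h3 : p.coeff p.natDegree = 1 := hp1
      rw [h3, map_one, one_smul]
    refine ⟨Polynomial.aeval (map2 (algebraMap K B) D.d) p, ?_, ?_⟩
    · intro i
      rw [hsim.lifts, hp6, map_pow, Pi.pow_apply]
      exact pow_ne_zero _ (D.hd i)
    · intro w
      have h1 := congrArg (fun f => f (Submodule.mkQ (LinearMap.range Φ.toLinearMap) w)) hp5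
      simp only [MM_apply, LinearMap.zero_apply] at h1
      rw [Submodule.mkQ_apply, Submodule.Quotient.mk_eq_zero] at h1
      exact h1


end STR

end Pool.Agent.Helper819.DC
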