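import Pool.Agent.Helper819.DC.Core2

set_option autoImplicit false

open PowerSeries IsLocalRing TensorProduct

universe u

namespace Pool.Agent.Helper819.DC


namespace U2L

theorem dep_choice {α : Type*} (P : ℕ → α → Prop) (R : ℕ → α → α → Prop) (h0 : ∃ a, P 0 a)
    (hs : ∀ n a, P n a → ∃ b, P (n+1) b ∧ R n a b) :
    ∃ f : ℕ → α, (∀ n, P n (f n)) ∧ ∀ n, R n (f n) (f (n+1)) := by
  obtain ⟨a0, ha0⟩ := h0
  choose g hg1 hg2 using hs
  let F : (n : ℕ) → {a : α // P n a} := fun n =>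
    Nat.rec ⟨a0, ha0⟩ (fun n p => ⟨g n p.1 p.2, hg1 n p.1 p.2⟩) n
  refine ⟨fun n => (F n).1, fun n => (F n).2, fun n => ?_⟩
  exact hg2 n (F n).1 (F n).2

theorem mem_of_kill {K A : Type u} [Field K] [CommRing A] [IsLocalRing A] [Algebra K A]
    (π : A →ₐ[K] K) {x : A} (hx : π x = 0) : x ∈ maximalIdeal A := by
  rw [mem_maximalIdeal, mem_nonunits_iff]
  intro hu
  have := hu.map π
  rw [hx] at this
  exact not_isUnit_zero this

/-- `K`-algebra homs to `K` kill the maximal ideal -/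
theorem kill {K A : Type u} [Field K] [CommRing A] [IsLocalRing A] [Algebra K A] (π : A →ₐ[K] K)
    {x : A} (hx : x ∈ maximalIdeal A) : π x = 0 := by
  by_contra hc
  have h2 : IsUnit (algebraMap K A (π x)) := (IsUnit.mk0 _ hc).map (algebraMap K A)
  have h3 : π (x - algebraMap K A (π x)) = 0 := by simp
  have h4 : x - algebraMap K A (π x) ∈ maximalIdeal A := mem_of_kill π h3
  have h5 : algebraMap K A (π x) ∈ maximalIdeal A := by
    have := (maximalIdeal A).sub_mem hx h4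
    rwa [sub_sub_cancel] at this
  exact (mem_nonunits_iff.mp ((mem_maximalIdeal _).mp h5)) h2

theorem X_mem {K : Type u} [Field K] {m : ℕ} (j : Fin m) :
    (MvPowerSeries.X j : OO K m) ∈ maximalIdeal (OO K m) := by
  rw [mem_maximalIdeal, mem_nonunits_iff]
  intro hu
  have := hu.map (MvPowerSeries.constantCoeff (σ := Fin m) (R := K))
  simp at this

theorem congrO (hB : BaseFacts.{u}) {K : Type u} [Field K] {m : ℕ} {B : Type u} [CommRing B]
    [IsLocalRing B] [Algebra K B] (π : B →ₐ[K] K) (β β' : OO K m →ₐ[K] B) (n : ℕ)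
    (h : ∀ j, β (MvPowerSeries.X j) - β' (MvPowerSeries.X j) ∈ maximalIdeal B ^ n) (x : OO K m) :
    β x - β' x ∈ maximalIdeal B ^ n := by
  have hH : IsHausdorff ((maximalIdeal B).map (Ideal.Quotient.mk (maximalIdeal B ^ n)))
      (B ⧸ maximalIdeal B ^ n) := by
    constructor
    intro x hx
    have h1 := hx n
    rw [SModEq.zero, ← Ideal.map_pow, Ideal.map_quotient_self, smul_eq_mul, Ideal.mul_top] at h1
    exact h1
  have h1 := hB.evm_unique (K := K)
    ((maximalIdeal B).map (Ideal.Quotient.mk (maximalIdeal B ^ n)))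
    (fun j => Ideal.Quotient.mk (maximalIdeal B ^ n) (β (MvPowerSeries.X j)))
    (fun j => Ideal.mem_map_of_mem _ (mem_of_kill π (kill (π.comp β) (X_mem j))))
    ((Ideal.Quotient.mkₐ K (maximalIdeal B ^ n)).comp β)
    ((Ideal.Quotient.mkₐ K (maximalIdeal B ^ n)).comp β')
    (fun j => rfl) (fun j => (Ideal.Quotient.eq.mpr (h j)).symm)
  have h2 := DFunLike.congr_fun h1 x
  exact Ideal.Quotient.eq.mp h2

theorem coeff0_mem {B : Type u} [CommRing B] [IsLocalRing B] (h : B⟦X⟧) :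
    h ∈ maximalIdeal B⟦X⟧ ↔ PowerSeries.coeff 0 h ∈ maximalIdeal B := by
  rw [mem_maximalIdeal, mem_nonunits_iff, PowerSeries.isUnit_iff_constantCoeff,
    mem_maximalIdeal, mem_nonunits_iff, PowerSeries.coeff_zero_eq_constantCoeff_apply]

theorem coeff_pow_mem {B : Type u} [CommRing B] [IsLocalRing B] (N : ℕ) :
    ∀ (h : B⟦X⟧), h ∈ maximalIdeal B⟦X⟧ ^ N →
      ∀ k, PowerSeries.coeff k h ∈ maximalIdeal B ^ (N - k) := by
  induction N with
  | zero => intro h _ k; simp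
  | succ N ih =>
    intro h hh k
    rw [pow_succ] at hh
    refine Submodule.mul_induction_on hh ?_ ?_
    · intro a ha b hb
      rw [PowerSeries.coeff_mul]
      refine Ideal.sum_mem _ fun p hp => ?_
      rw [Finset.HasAntidiagonal.mem_antidiagonal] at hp
      have h1 := ih a ha p.1
      rcases Nat.eq_zero_or_pos p.2 with h0 | h0
      · have hb0 : PowerSeries.coeff p.2 b ∈ maximalIdeal B := by
          rw [h0]; exact (coeff0_mem b).mp hb
        have h2 := Ideal.mul_mem_mul h1 hb0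
        rw [← pow_succ] at h2
        exact Ideal.pow_le_pow_right (by omega) h2
      · exact Ideal.pow_le_pow_right (by omega) (Ideal.mul_mem_right _ _ h1)
    · intro a b ha hb
      rw [map_add]; exact Ideal.add_mem _ ha hb

theorem congrP (hB : BaseFacts.{u}) {B : Type u} [CommRing B] [IsLocalRing B]
    (ρ ρ' : B⟦X⟧ →ₐ[B] B⟦X⟧) (n : ℕ) (hm : ρ X ∈ maximalIdeal B⟦X⟧)
    (h : ∀ k, PowerSeries.coeff k (ρ X - ρ' X) ∈ maximalIdeal B ^ n) (g : B⟦X⟧) (k : ℕ) :
    PowerSeries.coeff k (ρ g - ρ' g) ∈ maximalIdeal B ^ n := by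
  let J : Ideal B⟦X⟧ :=
    RingHom.ker (PowerSeries.map (Ideal.Quotient.mk (maximalIdeal B ^ n)))
  have hJm : ∀ h : B⟦X⟧, h ∈ J ↔ ∀ k, PowerSeries.coeff k h ∈ maximalIdeal B ^ n := by
    intro h
    rw [RingHom.mem_ker, PowerSeries.ext_iff]
    refine forall_congr' fun k => ?_
    rw [PowerSeries.coeff_map, map_zero, Ideal.Quotient.eq_zero_iff_mem]
  have hH : IsHausdorff ((maximalIdeal B⟦X⟧).map (Ideal.Quotient.mk J)) (B⟦X⟧ ⧸ J) := by
    constructor
    intro x hx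
    obtain ⟨h, rfl⟩ := Ideal.Quotient.mk_surjective x
    rw [Ideal.Quotient.eq_zero_iff_mem, hJm]
    intro k
    have h1 := hx (n + k)
    rw [SModEq.zero, ← Ideal.map_pow, smul_eq_mul, Ideal.mul_top,
      Ideal.mem_map_iff_of_surjective _ Ideal.Quotient.mk_surjective] at h1
    obtain ⟨h', hh', he⟩ := h1
    have h2 : h - h' ∈ J := Ideal.Quotient.eq.mp he.symm
    have h3 := (hJm _).mp h2 k
    have h4 := coeff_pow_mem (n + k) h' hh' k
    rw [Nat.add_sub_cancel] at h4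
    have := Ideal.add_mem _ h3 h4
    rwa [map_sub, sub_add_cancel] at this
  have h1 := hB.ev_unique (A := B) ((maximalIdeal B⟦X⟧).map (Ideal.Quotient.mk J))
    (Ideal.Quotient.mk J (ρ X))
    (Ideal.mem_map_of_mem _ hm) ((Ideal.Quotient.mkₐ B J).comp ρ)
    ((Ideal.Quotient.mkₐ B J).comp ρ') rfl
    (Ideal.Quotient.eq.mpr ((hJm _).mpr h)).symm
  have h2 := DFunLike.congr_fun h1 g
  have h3 : ρ g - ρ' g ∈ J := Ideal.Quotient.eq.mp h2
  exact (hJm _).mp h3 k

theorem pres (hB : BaseFacts.{u}) {B : Type u} [CommRing B] [IsNoetherianRing B]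
    (ρ : B⟦X⟧ →ₐ[B] B⟦X⟧) (I : Ideal B) (h : B⟦X⟧) (hh : ∀ k, PowerSeries.coeff k h ∈ I) (k : ℕ) :
    PowerSeries.coeff k (ρ h) ∈ I := by
  have h1 := (hB.mem_map_C I h).mpr hh
  refine (hB.mem_map_C I (ρ h)).mp ?_ k
  have h2 := Ideal.mem_map_of_mem (ρ : B⟦X⟧ →+* B⟦X⟧) h1
  rw [Ideal.map_map] at h2
  have h3 : (ρ : B⟦X⟧ →+* B⟦X⟧).comp (PowerSeries.C : B →+* B⟦X⟧) = PowerSeries.C :=
    RingHom.ext fun a => ρ.commutes a
  rw [h3] at h2
  exact h2

theorem map2_CX {A A' : Type u} [CommRing A] [CommRing A'] (ψ : A →+* A') :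
    map2 ψ (C X : A⟦X⟧⟦X⟧) = C X := by
  simp [map2]

theorem map2_X {A A' : Type u} [CommRing A] [CommRing A'] (ψ : A →+* A') :
    map2 ψ (X : A⟦X⟧⟦X⟧) = X := by
  simp [map2]

/-- comparison with the universal family -/
theorem u2 (hT : Tools.{u}) (hB : BaseFacts.{u}) {K : Type u} [Field K] {τ r : ℕ}
    (D : Setup K τ r) (T : TBasis D) (U : UnivFam D T)
    {B : Type u} [CommRing B] [IsDomain B] [IsDiscreteValuationRing B]
    [IsAdicComplete (maximalIdeal B) B] [Algebra K B] (π : B →ₐ[K] K) (v : B)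
    (hv : maximalIdeal B = Ideal.span {v})
    (s : Fin τ → B) (Ψ : Par B r) (hsim : SimPar D π s Ψ)
    (hstep : ∀ (k : ℕ) (_ : 1 ≤ k)
      (β : OO K T.m →ₐ[K] B) (ρ : Fin r → (B⟦X⟧ →ₐ[B] B⟦X⟧))
      (_ : ∀ i, PowerSeries.map (π : B →+* K) (ρ i X) = X)
      (_ : ∀ j, s j - β (U.s j) ∈ maximalIdeal B ^ k)
      (_ : InP (maximalIdeal B ^ k)
        (Ψ (C X) - fun i => ρ i (mapP (β : OO K T.m →+* B) (U.Φ (C X)) i)))
      (_ : InP (maximalIdeal B ^ k) (Ψ X - fun i => ρ i (mapP (β : OO K T.m →+* B) (U.Φ X) i))),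
      ∃ (β' : OO K T.m →ₐ[K] B) (ρ' : Fin r → (B⟦X⟧ →ₐ[B] B⟦X⟧)),
        (∀ j, β' (MvPowerSeries.X j) - β (MvPowerSeries.X j) ∈ maximalIdeal B ^ k) ∧
        (InP (maximalIdeal B ^ k) (fun i => ρ' i X - ρ i X)) ∧
        (∀ i, PowerSeries.map (π : B →+* K) (ρ' i X) = X) ∧
        (∀ j, s j - β' (U.s j) ∈ maximalIdeal B ^ (k + 1)) ∧
        InP (maximalIdeal B ^ (k + 1))
          (Ψ (C X) - fun i => ρ' i (mapP (β' : OO K T.m →+* B) (U.Φ (C X)) i)) ∧
        InP (maximalIdeal B ^ (k + 1))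
          (Ψ X - fun i => ρ' i (mapP (β' : OO K T.m →+* B) (U.Φ X) i))) :
    ∃ (β : OO K T.m →ₐ[K] B) (ρ : Fin r → (B⟦X⟧ →ₐ[B] B⟦X⟧)),
      (∀ i, PowerSeries.map (π : B →+* K) (ρ i X) = X) ∧ (∀ j, β (U.s j) = s j) ∧
      (Ψ (C X) = fun i => ρ i (mapP (β : OO K T.m →+* B) (U.Φ (C X)) i)) ∧
      (Ψ X = fun i => ρ i (mapP (β : OO K T.m →+* B) (U.Φ X) i)) := by
  let α := (OO K T.m →ₐ[K] B) × (Fin r → (B⟦X⟧ →ₐ[B] B⟦X⟧))
  let P : ℕ → α → Prop := fun n p =>
    (∀ i, PowerSeries.map (π : B →+* K) (p.2 i X) = X) ∧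
    (∀ j, s j - p.1 (U.s j) ∈ maximalIdeal B ^ (n+1)) ∧
    InP (maximalIdeal B ^ (n+1))
      (Ψ (C X) - fun i => p.2 i (mapP (p.1 : OO K T.m →+* B) (U.Φ (C X)) i)) ∧
    InP (maximalIdeal B ^ (n+1))
      (Ψ X - fun i => p.2 i (mapP (p.1 : OO K T.m →+* B) (U.Φ X) i))
  let R : ℕ → α → α → Prop := fun n p q =>
    (∀ j, q.1 (MvPowerSeries.X j) - p.1 (MvPowerSeries.X j) ∈ maximalIdeal B ^ (n+1)) ∧
    InP (maximalIdeal B ^ (n+1)) (fun i => q.2 i X - p.2 i X)
  have hcomp : (π : B →+* K).comp (((Algebra.ofId K B).comp U.π : OO K T.m →ₐ[K] B) :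
      OO K T.m →+* B) = (U.π : OO K T.m →+* K) := by
    ext x
    change π (algebraMap K B (U.π x)) = U.π x
    simp
  have hz : ∀ z : (OO K T.m)⟦X⟧⟦X⟧, ∀ z' : B⟦X⟧⟦X⟧,
      map2 (π : B →+* K) z' = map2 (U.π : OO K T.m →+* K) z →
      InP (maximalIdeal B ^ (0+1)) (Ψ z' - fun i => (AlgHom.id B (B⟦X⟧))
        (mapP (((Algebra.ofId K B).comp U.π : OO K T.m →ₐ[K] B) : OO K T.m →+* B)
          (U.Φ z) i)) := by
    intro z z' hzz
    rw [zero_add, pow_one, hT.inP_map π]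
    rw [map_sub, sub_eq_zero, hsim.lifts z', hzz, ← U.sim.lifts z, ← hcomp, ← hT.mapP_comp]
    rfl
  have h0 : ∃ a, P 0 a := by
    refine ⟨((Algebra.ofId K B).comp U.π, fun _ => AlgHom.id B _), ?_, ?_, ?_, ?_⟩
    · intro i
      simp
    · intro j
      rw [zero_add, pow_one]
      have h1 : ((Algebra.ofId K B).comp U.π) (U.s j) = 0 := by
        change algebraMap K B (U.π (U.s j)) = 0
        rw [kill U.π (U.sim.mem j), map_zero]
      change s j - ((Algebra.ofId K B).comp U.π) (U.s j) ∈ maximalIdeal B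
      rw [h1, sub_zero]
      exact hsim.mem j
    · exact hz (C X) (C X) (by rw [map2_CX, map2_CX])
    · exact hz X X (by rw [map2_X, map2_X])
  have hs : ∀ n a, P n a → ∃ b, P (n+1) b ∧ R n a b := by
    rintro n ⟨β, ρ⟩ ⟨h1, h2, h3, h4⟩
    obtain ⟨β', ρ', g1, g2, g3, g4, g5, g6⟩ := hstep (n+1) (by omega) β ρ h1 h2 h3 h4
    exact ⟨(β', ρ'), ⟨g3, g4, g5, g6⟩, ⟨g1, g2⟩⟩
  obtain ⟨f, hf, hR⟩ := dep_choice P R h0 hs
  -- limits
  choose l hl using fun j => hT.limA (fun n => (f n).1 (MvPowerSeries.X j))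
    (fun n => Ideal.pow_le_pow_right (Nat.le_succ n) ((hR n).1 j))
  obtain ⟨L, hL⟩ := hT.limP (fun n i => (f n).2 i X)
    (fun n i k => Ideal.pow_le_pow_right (Nat.le_succ n) ((hR n).2 i k))
  have meml : ∀ j, l j ∈ maximalIdeal B := by
    intro j
    have h1 := hl j 1
    rw [pow_one] at h1
    have h2 : (f 1).1 (MvPowerSeries.X j) ∈ maximalIdeal B :=
      mem_of_kill π (kill (π.comp (f 1).1) (X_mem j))
    have := Ideal.add_mem _ h1 h2
    rwa [sub_add_cancel] at this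
  obtain ⟨β, hβ⟩ := hB.evm_exists (K := K) (maximalIdeal B) l meml
  have memX : ∀ h : B⟦X⟧, PowerSeries.map (π : B →+* K) h = X → h ∈ maximalIdeal B⟦X⟧ := by
    intro h hh
    rw [coeff0_mem]
    apply mem_of_kill π
    have := congrArg (PowerSeries.coeff 0) hh
    rw [PowerSeries.coeff_map, PowerSeries.coeff_zero_X] at this
    exact this
  have mapL : ∀ i, PowerSeries.map (π : B →+* K) (L i) = X := by
    intro i
    rw [← (hf 1).1 i]
    ext n
    rw [PowerSeries.coeff_map, PowerSeries.coeff_map]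
    have h1 := hL 1 i n
    rw [pow_one] at h1
    have h2 := kill π h1
    rw [Pi.sub_apply, map_sub, map_sub, sub_eq_zero] at h2
    exact h2
  haveI := hB.complete_powerSeries (A := B)
  choose ρ hρ using fun i => hB.ev_exists (A := B) (maximalIdeal B⟦X⟧) (L i) (memX _ (mapL i))
  have cβ : ∀ n x, (f n).1 x - β x ∈ maximalIdeal B ^ n := by
    intro n x
    refine congrO hB π (f n).1 β n ?_ x
    intro j
    rw [hβ j, ← neg_sub]
    exact neg_mem (hl j n)
  have fin : ∀ (w : Fin r → (OO K T.m)⟦X⟧) (ψ : Fin r → B⟦X⟧)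
      (_ : ∀ n, InP (maximalIdeal B ^ (n+1))
        (ψ - fun i => (f n).2 i (mapP ((f n).1 : OO K T.m →+* B) w i))),
      ψ = fun i => ρ i (mapP (β : OO K T.m →+* B) w i) := by
    intro w ψ hw
    apply sub_eq_zero.mp
    apply hT.eqP
    intro n i k
    have e1 := Ideal.pow_le_pow_right (Nat.le_succ n) (hw n i k)
    have e2 : PowerSeries.coeff k ((f n).2 i (mapP ((f n).1 : OO K T.m →+* B) w i -
        mapP (β : OO K T.m →+* B) w i)) ∈ maximalIdeal B ^ n := by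
      apply pres hB
      intro k
      rw [map_sub, mapP_apply, mapP_apply, PowerSeries.coeff_map, PowerSeries.coeff_map]
      exact cβ n _
    have e3 := congrP hB ((f n).2 i) (ρ i) n (memX _ ((hf n).1 i)) (by
      intro k
      rw [hρ i, ← neg_sub, map_neg]
      exact neg_mem (hL n i k)) (mapP (β : OO K T.m →+* B) w i) k
    have h3 := Ideal.add_mem _ (Ideal.add_mem _ e1 e2) e3
    convert h3 using 1
    simp only [Pi.sub_apply, map_sub]
    ring
  refine ⟨β, ρ, ?_, ?_, ?_, ?_⟩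
  · intro i
    rw [hρ i]
    exact mapL i
  · intro j
    apply sub_eq_zero.mp
    apply hT.eqA
    intro n
    have h1 := cβ n (U.s j)
    have h2 := Ideal.pow_le_pow_right (Nat.le_succ n) ((hf n).2.1 j)
    have h3 := neg_mem (Ideal.add_mem _ h1 h2)
    convert h3 using 1
    ring
  · exact fin _ _ fun n => (hf n).2.2.1
  · exact fin _ _ fun n => (hf n).2.2.2

end U2L

end Pool.Agent.Helper819.DC
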