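import Pool.Agent.Helper819.DC.Core2

set_option autoImplicit false

open PowerSeries IsLocalRing TensorProduct

universe u

namespace Pool.Agent.Helper819.DC


namespace U2S


/-- coefficientwise membership -/
def JJ {B : Type u} [CommRing B] (I : Ideal B) (w : B⟦X⟧) : Prop := ∀ n, PowerSeries.coeff n w ∈ I

section
variable {B : Type u} [CommRing B] {I J : Ideal B} {w z : B⟦X⟧}

theorem JJ.add (h1 : JJ I w) (h2 : JJ I z) : JJ I (w + z) := fun n => by
  rw [map_add]; exact I.add_mem (h1 n) (h2 n)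
theorem JJ.sub (h1 : JJ I w) (h2 : JJ I z) : JJ I (w - z) := fun n => by
  rw [map_sub]; exact I.sub_mem (h1 n) (h2 n)
theorem JJ.neg (h1 : JJ I w) : JJ I (-w) := fun n => by
  rw [map_neg]; exact I.neg_mem (h1 n)
theorem JJ.mono (h : I ≤ J) (h1 : JJ I w) : JJ J w := fun n => h (h1 n)
theorem JJ.zero : JJ I (0 : B⟦X⟧) := fun n => by rw [map_zero]; exact I.zero_mem
theorem JJ.mul (u : B⟦X⟧) (h1 : JJ I w) : JJ I (u * w) := fun n => by
  rw [PowerSeries.coeff_mul]
  exact I.sum_mem (fun p _ => I.mul_mem_left _ (h1 _))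
theorem JJ.C_mul {a : B} (h : a ∈ I) (w : B⟦X⟧) : JJ I (PowerSeries.C a * w) := fun n => by
  rw [PowerSeries.coeff_C_mul]; exact I.mul_mem_right _ h
theorem JJ.sum {ι : Type*} (s : Finset ι) (f : ι → B⟦X⟧) (h : ∀ i ∈ s, JJ I (f i)) :
    JJ I (∑ i ∈ s, f i) := fun n => by
  rw [map_sum]; exact I.sum_mem (fun i hi => h i hi n)

end

section
variable {K : Type u} [Field K] {B : Type u} [CommRing B] [IsDomain B] [IsDiscreteValuationRing B]
  [Algebra K B] (π : B →ₐ[K] K) {v : B}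

theorem ker_pi (x : B) : π x = 0 ↔ x ∈ maximalIdeal B := by
  have hs : Function.Surjective (π : B →+* K) := fun c => ⟨algebraMap K B c, by simp⟩
  have h1 : (RingHom.ker (π : B →+* K)).IsMaximal := RingHom.ker_isMaximal_of_surjective _ hs
  have h2 := IsLocalRing.eq_maximalIdeal h1
  rw [← h2, RingHom.mem_ker]
  rfl

theorem mem_pow (hv : maximalIdeal B = Ideal.span {v}) (n : ℕ) (x : B) :
    x ∈ maximalIdeal B ^ n ↔ v ^ n ∣ x := by
  rw [hv, Ideal.span_singleton_pow, Ideal.mem_span_singleton]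

theorem v_ne (hv : maximalIdeal B = Ideal.span {v}) : v ≠ 0 := by
  rintro rfl
  apply IsDiscreteValuationRing.not_a_field B
  rw [hv]; simp

theorem v_mem (hv : maximalIdeal B = Ideal.span {v}) : v ∈ maximalIdeal B := by
  rw [hv]; exact Ideal.mem_span_singleton_self v

theorem JJ_iff (hv : maximalIdeal B = Ideal.span {v}) (n : ℕ) (w : B⟦X⟧) :
    JJ (maximalIdeal B ^ n) w ↔ ∃ u, w = PowerSeries.C (v ^ n) * u := by
  constructor
  · intro h
    have h1 : ∀ m, ∃ c, PowerSeries.coeff m w = v ^ n * c := fun m => (mem_pow hv n _).mp (h m)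
    choose c hc using h1
    refine ⟨PowerSeries.mk c, ?_⟩
    ext m
    rw [PowerSeries.coeff_C_mul, PowerSeries.coeff_mk, hc]
  · rintro ⟨u, rfl⟩
    exact JJ.C_mul ((mem_pow hv n _).mpr dvd_rfl) u

theorem map_zero_iff (w : B⟦X⟧) : PowerSeries.map (π : B →+* K) w = 0 ↔ JJ (maximalIdeal B) w := by
  constructor
  · intro h n
    rw [← ker_pi π]
    have := congrArg (PowerSeries.coeff n) h
    rw [PowerSeries.coeff_map, map_zero] at this
    exact this
  · intro h
    ext n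
    rw [PowerSeries.coeff_map, map_zero]
    exact (ker_pi π _).mpr (h n)

/-- `w` is `v ^ k` times a lift of `α`, modulo the power `k + 1` -/
def RR (v : B) (k : ℕ) (w : B⟦X⟧) (α : K⟦X⟧) : Prop :=
  ∃ u : B⟦X⟧, PowerSeries.map (π : B →+* K) u = α ∧
    JJ (maximalIdeal B ^ (k + 1)) (w - PowerSeries.C (v ^ k) * u)

theorem RR.add {k : ℕ} {w z : B⟦X⟧} {α β : K⟦X⟧} (h1 : RR π v k w α) (h2 : RR π v k z β) :
    RR π v k (w + z) (α + β) := by
  obtain ⟨u, hu, h1⟩ := h1
  obtain ⟨u', hu', h2⟩ := h2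
  refine ⟨u + u', by rw [map_add, hu, hu'], ?_⟩
  have : w + z - PowerSeries.C (v ^ k) * (u + u') =
      (w - PowerSeries.C (v ^ k) * u) + (z - PowerSeries.C (v ^ k) * u') := by ring
  rw [this]; exact h1.add h2

theorem RR.sub {k : ℕ} {w z : B⟦X⟧} {α β : K⟦X⟧} (h1 : RR π v k w α) (h2 : RR π v k z β) :
    RR π v k (w - z) (α - β) := by
  obtain ⟨u, hu, h1⟩ := h1
  obtain ⟨u', hu', h2⟩ := h2
  refine ⟨u - u', by rw [map_sub, hu, hu'], ?_⟩
  have : w - z - PowerSeries.C (v ^ k) * (u - u') =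
      (w - PowerSeries.C (v ^ k) * u) - (z - PowerSeries.C (v ^ k) * u') := by ring
  rw [this]; exact h1.sub h2

theorem RR.of_JJ {k : ℕ} {w : B⟦X⟧} (h : JJ (maximalIdeal B ^ (k + 1)) w) : RR π v k w 0 :=
  ⟨0, map_zero _, by simpa using h⟩

theorem RR.of_C (k : ℕ) (u : B⟦X⟧) :
    RR π v k (PowerSeries.C (v ^ k) * u) (PowerSeries.map (π : B →+* K) u) :=
  ⟨u, rfl, by rw [sub_self]; exact JJ.zero⟩

theorem JJ_succ (hv : maximalIdeal B = Ideal.span {v}) {k : ℕ} {u : B⟦X⟧}
    (h : JJ (maximalIdeal B) u) : JJ (maximalIdeal B ^ (k + 1)) (PowerSeries.C (v ^ k) * u) := by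
  intro n
  rw [PowerSeries.coeff_C_mul, mem_pow hv, pow_succ]
  apply mul_dvd_mul_left
  have := h n
  rw [hv, Ideal.mem_span_singleton] at this
  exact this

theorem JJ_of_succ (hv : maximalIdeal B = Ideal.span {v}) {k : ℕ} {u : B⟦X⟧}
    (h : JJ (maximalIdeal B ^ (k + 1)) (PowerSeries.C (v ^ k) * u)) : JJ (maximalIdeal B) u := by
  intro n
  have := h n
  rw [PowerSeries.coeff_C_mul, mem_pow hv, pow_succ] at this
  rw [hv, Ideal.mem_span_singleton]
  exact (mul_dvd_mul_iff_left (pow_ne_zero k (v_ne hv))).mp this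

theorem RR.JJ_of_zero (hv : maximalIdeal B = Ideal.span {v}) {k : ℕ} {w : B⟦X⟧}
    (h : RR π v k w 0) : JJ (maximalIdeal B ^ (k + 1)) w := by
  obtain ⟨u, hu, h1⟩ := h
  have h2 := JJ_succ hv (k := k) ((map_zero_iff π u).mp hu)
  have := h1.add h2
  rwa [sub_add_cancel] at this

/-- the relation is preserved by homs which are the identity on the special fibre -/
theorem RR.hom (hv : maximalIdeal B = Ideal.span {v}) {k : ℕ} {w : B⟦X⟧} {α : K⟦X⟧}
    (ρ : B⟦X⟧ →ₐ[B] B⟦X⟧)
    (hρ : ∀ u, PowerSeries.map (π : B →+* K) (ρ u) = PowerSeries.map (π : B →+* K) u)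
    (h : RR π v k w α) : RR π v k (ρ w) α := by
  obtain ⟨u, hu, h1⟩ := h
  refine ⟨ρ u, by rw [hρ, hu], ?_⟩
  rw [JJ_iff hv] at h1 ⊢
  obtain ⟨z, hz⟩ := h1
  refine ⟨ρ z, ?_⟩
  have hC : ∀ a : B, ρ (PowerSeries.C a) = PowerSeries.C a := fun a => ρ.commutes a
  have := congrArg ρ hz
  rw [map_sub, map_mul, map_mul, hC, hC] at this
  exact this

end

/-- a hom with the identity as reduction of the coordinate is the identity on the special fibre -/
theorem rho_red (hB : BaseFacts.{u}) {K : Type u} [Field K] {B : Type u} [CommRing B]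
    [Algebra K B] (π : B →ₐ[K] K) (ρ : B⟦X⟧ →ₐ[B] B⟦X⟧)
    (hρ : PowerSeries.map (π : B →+* K) (ρ X) = X) (u : B⟦X⟧) :
    PowerSeries.map (π : B →+* K) (ρ u) = PowerSeries.map (π : B →+* K) u := by
  have hX : (X : K⟦X⟧) ∈ maximalIdeal K⟦X⟧ := by
    rw [PowerSeries.maximalIdeal_eq_span_X]
    exact Ideal.mem_span_singleton_self _
  have h := hB.hom_unique (A := B) (T := K⟦X⟧)
    ((PowerSeries.map (π : B →+* K)).comp ((ρ : B⟦X⟧ →+* B⟦X⟧).comp
      (PowerSeries.constantCoeff (R := B⟦X⟧))))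
    ((PowerSeries.map (π : B →+* K)).comp (PowerSeries.constantCoeff (R := B⟦X⟧)))
    (by
      intro a
      have hC : ρ (PowerSeries.C a) = PowerSeries.C a := ρ.commutes a
      simp [hC])
    (by simpa [hρ] using hX)
    (by simp)
    (by simp [hρ])
    (by simp)
  have h2 := RingHom.congr_fun h (PowerSeries.C u)
  simpa using h2

theorem ker_piL {K : Type u} [Field K] {A : Type u} [CommRing A] [IsLocalRing A] [Algebra K A]
    (π : A →ₐ[K] K) (x : A) : π x = 0 ↔ x ∈ maximalIdeal A := by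
  have hs : Function.Surjective (π : A →+* K) := fun c => ⟨algebraMap K A c, by simp⟩
  have h1 : (RingHom.ker (π : A →+* K)).IsMaximal := RingHom.ker_isMaximal_of_surjective _ hs
  have h2 := IsLocalRing.eq_maximalIdeal h1
  rw [← h2, RingHom.mem_ker]
  rfl

theorem mem_maxPS {A : Type u} [CommRing A] [IsLocalRing A] (w : A⟦X⟧) :
    w ∈ maximalIdeal A⟦X⟧ ↔ PowerSeries.constantCoeff w ∈ maximalIdeal A := by
  rw [IsLocalRing.mem_maximalIdeal, IsLocalRing.mem_maximalIdeal, mem_nonunits_iff, mem_nonunits_iff,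
    PowerSeries.isUnit_iff_constantCoeff]

section
variable {K : Type u} [Field K] {B : Type u} [CommRing B] [IsDomain B] [IsDiscreteValuationRing B]
  [Algebra K B] {m : ℕ}

theorem beta_local (π : B →ₐ[K] K) (β : OO K m →ₐ[K] B) {a : OO K m}
    (ha : a ∈ maximalIdeal (OO K m)) : β a ∈ maximalIdeal B := by
  rw [← ker_pi π]
  by_contra hc
  have h1 : IsUnit (a - algebraMap K (OO K m) (π (β a))) := by
    by_contra hn
    have h2 : a - algebraMap K (OO K m) (π (β a)) ∈ maximalIdeal (OO K m) :=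
      (IsLocalRing.mem_maximalIdeal _).mpr hn
    have h3 : algebraMap K (OO K m) (π (β a)) ∈ maximalIdeal (OO K m) := by
      have := (maximalIdeal (OO K m)).sub_mem ha h2
      rwa [sub_sub_cancel] at this
    exact (IsLocalRing.mem_maximalIdeal _).mp h3
      ((isUnit_iff_ne_zero.mpr hc).map (algebraMap K (OO K m)))
  have h4 : IsUnit (π (β (a - algebraMap K (OO K m) (π (β a))))) := (h1.map β).map π
  rw [map_sub, map_sub, AlgHom.commutes, AlgHom.commutes] at h4
  simp at h4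

theorem beta_pi (π : B →ₐ[K] K) (β : OO K m →ₐ[K] B) (π' : OO K m →ₐ[K] K) (a : OO K m) :
    π (β a) = π' a := by
  have h1 : a - algebraMap K (OO K m) (π' a) ∈ maximalIdeal (OO K m) := by
    rw [← ker_piL π']
    simp
  have h2 := beta_local π β h1
  rw [← ker_pi π, map_sub, map_sub, AlgHom.commutes, AlgHom.commutes] at h2
  simpa using sub_eq_zero.mp h2

theorem beta_congr (hB : BaseFacts.{u}) (π : B →ₐ[K] K) (β β' : OO K m →ₐ[K] B) (k : ℕ) (hk : 1 ≤ k)
    (h : ∀ j, β' (MvPowerSeries.X j) - β (MvPowerSeries.X j) ∈ maximalIdeal B ^ k) (a : OO K m) :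
    β' a - β a ∈ maximalIdeal B ^ k := by
  have hle : maximalIdeal B ^ k ≤ maximalIdeal B := Ideal.pow_le_self (by omega)
  have hne : maximalIdeal B ^ k ≠ ⊤ := by
    intro h
    rw [h] at hle
    exact Ideal.IsPrime.ne_top' (top_le_iff.mp hle)
  have : Nontrivial (B ⧸ maximalIdeal B ^ k) := Ideal.Quotient.nontrivial_iff.mpr hne
  have : IsLocalRing (B ⧸ maximalIdeal B ^ k) :=
    IsLocalRing.of_surjective' (Ideal.Quotient.mk (maximalIdeal B ^ k)) Ideal.Quotient.mk_surjective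
  have hI : Ideal.map (Ideal.Quotient.mk (maximalIdeal B ^ k)) (maximalIdeal B) ≠ ⊤ := by
    intro h
    rw [Ideal.eq_top_iff_one, Ideal.mem_map_iff_of_surjective _ Ideal.Quotient.mk_surjective] at h
    obtain ⟨x, hx, hx1⟩ := h
    have h2 : x - 1 ∈ maximalIdeal B ^ k := by
      rw [← Ideal.Quotient.eq, hx1, map_one]
    have h3 : (1 : B) ∈ maximalIdeal B := by
      have := (maximalIdeal B).sub_mem hx (hle h2)
      rwa [sub_sub_cancel] at this
    exact (IsLocalRing.mem_maximalIdeal _).mp h3 isUnit_one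
  have : IsHausdorff (Ideal.map (Ideal.Quotient.mk (maximalIdeal B ^ k)) (maximalIdeal B))
    (B ⧸ maximalIdeal B ^ k) := IsHausdorff.of_isLocalRing _ _ hI
  have hXm : ∀ j : Fin m, (MvPowerSeries.X j : OO K m) ∈ maximalIdeal (OO K m) := by
    intro j
    rw [IsLocalRing.mem_maximalIdeal, mem_nonunits_iff, MvPowerSeries.isUnit_iff_constantCoeff]
    simp
  have h5 := hB.evm_unique (σ := Fin m) (K := K) (T := B ⧸ maximalIdeal B ^ k)
    (Ideal.map (Ideal.Quotient.mk (maximalIdeal B ^ k)) (maximalIdeal B))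
    (fun j => Ideal.Quotient.mk (maximalIdeal B ^ k) (β (MvPowerSeries.X j)))
    (fun j => Ideal.mem_map_of_mem _ (beta_local π β (hXm j)))
    ((Ideal.Quotient.mkₐ K (maximalIdeal B ^ k)).comp β')
    ((Ideal.Quotient.mkₐ K (maximalIdeal B ^ k)).comp β)
    (fun j => by
      show Ideal.Quotient.mk (maximalIdeal B ^ k) (β' (MvPowerSeries.X j)) = _
      rw [Ideal.Quotient.eq]
      exact h j)
    (fun j => rfl)
  have h6 := DFunLike.congr_fun h5 a
  have h7 : Ideal.Quotient.mk (maximalIdeal B ^ k) (β' a) = Ideal.Quotient.mk (maximalIdeal B ^ k) (β a) := h6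
  rwa [Ideal.Quotient.eq] at h7

theorem beta_sq (hB : BaseFacts.{u}) (π : B →ₐ[K] K) (β β' : OO K m →ₐ[K] B) (k : ℕ) (hk : 1 ≤ k)
    (h : ∀ j, β' (MvPowerSeries.X j) - β (MvPowerSeries.X j) ∈ maximalIdeal B ^ k) {q : OO K m}
    (hq : q ∈ maximalIdeal (OO K m) ^ 2) :
    β' q - β q ∈ maximalIdeal B ^ (k + 1) := by
  rw [pow_two] at hq
  refine Submodule.smul_induction_on (p := fun q => β' q - β q ∈ maximalIdeal B ^ (k + 1)) hq ?_ ?_
  · intro a ha b hb
    rw [smul_eq_mul]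
    have h1 := beta_congr hB π β β' k hk h a
    have h2 := beta_congr hB π β β' k hk h b
    have h3 := beta_local π β' ha
    have h4 := beta_local π β hb
    have h5 : β' (a * b) - β (a * b) = (β' b - β b) * β' a + (β' a - β a) * β b := by
      rw [map_mul, map_mul]; ring
    rw [h5, pow_succ]
    exact Ideal.add_mem _ (Ideal.mul_mem_mul h2 h3) (Ideal.mul_mem_mul h1 h4)
  · intro x y hx hy
    have h5 : β' (x + y) - β (x + y) = (β' x - β x) + (β' y - β y) := by
      rw [map_add, map_add]; ring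
    rw [h5]
    exact Ideal.add_mem _ hx hy

end

theorem map2_CX {A A' : Type u} [CommRing A] [CommRing A'] (ψ : A →+* A') :
    map2 ψ (C X) = C X := by
  simp [map2]

theorem map2_X {A A' : Type u} [CommRing A] [CommRing A'] (ψ : A →+* A') :
    map2 ψ X = X := by
  simp [map2]

theorem map2_CC {A A' : Type u} [CommRing A] [CommRing A'] (ψ : A →+* A') (a : A) :
    map2 ψ (C (C a)) = C (C (ψ a)) := by
  simp [map2]

theorem dx_C {A : Type u} [CommRing A] (z : A⟦X⟧) : dx (C z : A⟦X⟧⟦X⟧) = C (d⁄dX A z) := by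
  ext n
  unfold dx
  rw [PowerSeries.coeff_mk, PowerSeries.coeff_C, PowerSeries.coeff_C]
  split_ifs with h
  · rfl
  · rw [map_zero]

section
variable {K : Type u} [Field K] {B : Type u} [CommRing B] [IsDomain B] [IsDiscreteValuationRing B]
  [IsAdicComplete (maximalIdeal B) B] [Algebra K B] {m : ℕ}

theorem exists_Phib (hT : Tools.{u}) (π : B →ₐ[K] K) (β : OO K m →ₐ[K] B) {r : ℕ}
    (Φ : Par (OO K m) r) :
    ∃ Φb : Par B r, ∀ h, Φb (map2 (β : OO K m →+* B) h) = mapP (β : OO K m →+* B) (Φ h) := by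
  have hloc : ∀ w : (OO K m)⟦X⟧, w ∈ maximalIdeal (OO K m)⟦X⟧ →
      PowerSeries.map (β : OO K m →+* B) w ∈ maximalIdeal B⟦X⟧ := by
    intro w hw
    rw [mem_maxPS] at hw ⊢
    rw [← PowerSeries.coeff_zero_eq_constantCoeff_apply, PowerSeries.coeff_map,
      PowerSeries.coeff_zero_eq_constantCoeff_apply]
    exact beta_local π β hw
  obtain ⟨Φb, h1, h2⟩ := hT.par_exists (A := B) (r := r)
    (mapP (β : OO K m →+* B) (Φ (C X))) (mapP (β : OO K m →+* B) (Φ X))
    (fun i => hloc _ (hT.par_local Φ i).1) (fun i => hloc _ (hT.par_local Φ i).2)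
  exact ⟨Φb, hT.push (β : OO K m →+* B) Φ Φb h1 h2⟩

/-- twist by reparametrisations -/
noncomputable def twist {B : Type u} [CommRing B] {r : ℕ} (ρ : Fin r → (B⟦X⟧ →ₐ[B] B⟦X⟧)) (Φ : Par B r) : Par B r :=
  AlgHom.pi (fun i => (ρ i).comp ((Pi.evalAlgHom B (fun _ => B⟦X⟧) i).comp Φ))

theorem twist_apply {B : Type u} [CommRing B] {r : ℕ} (ρ : Fin r → (B⟦X⟧ →ₐ[B] B⟦X⟧)) (Φ : Par B r)
    (h : B⟦X⟧⟦X⟧) (i : Fin r) : twist ρ Φ h i = ρ i (Φ h i) := rfl

theorem twist_lifts (hT : Tools.{u}) (hB : BaseFacts.{u}) (π : B →ₐ[K] K) (β : OO K m →ₐ[K] B)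
    (π' : OO K m →ₐ[K] K) {r : ℕ} (φ : Par K r) (Φ : Par (OO K m) r) (hΦ : Lifts π' φ Φ)
    (Φb : Par B r) (hb : ∀ h, Φb (map2 (β : OO K m →+* B) h) = mapP (β : OO K m →+* B) (Φ h))
    (ρ : Fin r → (B⟦X⟧ →ₐ[B] B⟦X⟧)) (hρ : ∀ i, PowerSeries.map (π : B →+* K) (ρ i X) = X) :
    Lifts π φ (twist ρ Φb) := by
  have hcomp : ∀ w : (OO K m)⟦X⟧, PowerSeries.map (π : B →+* K) (PowerSeries.map (β : OO K m →+* B) w) =
      PowerSeries.map (π' : OO K m →+* K) w := by
    intro w
    ext n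
    rw [PowerSeries.coeff_map, PowerSeries.coeff_map, PowerSeries.coeff_map]
    exact beta_pi π β π' _
  have key : ∀ h : (OO K m)⟦X⟧⟦X⟧, mapP (π : B →+* K) (twist ρ Φb (map2 (β : OO K m →+* B) h)) =
      φ (map2 (π' : OO K m →+* K) h) := by
    intro h
    rw [← hΦ h]
    funext i
    rw [mapP_apply, twist_apply, rho_red hB π (ρ i) (hρ i), hb, mapP_apply, mapP_apply, hcomp]
  rw [hT.lifts_iff]
  constructor
  · have := key (C X)
    rwa [map2_CX, map2_CX] at this
  · have := key X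
    rwa [map2_X, map2_X] at this

end

section
variable {K : Type u} [Field K] {B : Type u} [CommRing B] [IsDomain B] [IsDiscreteValuationRing B]
  [Algebra K B] {m : ℕ} {v : B}

/-- Taylor expansion for two reparametrisations -/
theorem taylor1 (hB : BaseFacts.{u}) (π : B →ₐ[K] K) (hv : maximalIdeal B = Ideal.span {v})
    (k : ℕ) (hk : 1 ≤ k) (ρ ρ' : B⟦X⟧ →ₐ[B] B⟦X⟧)
    (hρ : PowerSeries.map (π : B →+* K) (ρ X) = X) (h : B⟦X⟧)
    (hρ' : ρ' X = ρ X + C (v ^ k) * h) (z : B⟦X⟧) :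
    RR π v k (ρ' z - ρ z)
      (PowerSeries.map (π : B →+* K) h * d⁄dX K (PowerSeries.map (π : B →+* K) z)) := by
  have hCm : ∀ a : B, a ∈ maximalIdeal B → ∀ w : B⟦X⟧, C a * w ∈ maximalIdeal B⟦X⟧ := by
    intro a ha w
    rw [mem_maxPS, map_mul, PowerSeries.constantCoeff_C]
    exact Ideal.mul_mem_right _ _ ha
  have hvk : v ^ k ∈ maximalIdeal B := Ideal.pow_mem_of_mem _ (v_mem hv) k (by omega)
  have hρX : ρ X ∈ maximalIdeal B⟦X⟧ := by
    rw [mem_maxPS, ← ker_pi π]
    have := congrArg PowerSeries.constantCoeff hρ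
    rw [← PowerSeries.coeff_zero_eq_constantCoeff_apply, PowerSeries.coeff_map,
      PowerSeries.coeff_zero_eq_constantCoeff_apply] at this
    simpa using this
  have hC : ∀ a : B, ρ (PowerSeries.C a) = PowerSeries.C a := fun a => ρ.commutes a
  have hC' : ∀ a : B, ρ' (PowerSeries.C a) = PowerSeries.C a := fun a => ρ'.commutes a
  have key := hB.taylor (A := B) (T := B⟦X⟧)
    ((ρ : B⟦X⟧ →+* B⟦X⟧).comp (PowerSeries.constantCoeff (R := B⟦X⟧)))
    ((ρ' : B⟦X⟧ →+* B⟦X⟧).comp (PowerSeries.constantCoeff (R := B⟦X⟧)))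
    (by intro a; simp [hC, hC'])
    (by simpa using hρX)
    (by simp)
    (Ideal.span {C (v ^ k)})
    (by
      rw [Ideal.span_singleton_le_iff_mem]
      have := hCm _ hvk 1
      rwa [mul_one] at this)
    (C (v ^ k) * h) 0
    (Ideal.mul_mem_right _ _ (Ideal.mem_span_singleton_self _))
    (Ideal.zero_mem _)
    (by simp [hρ'])
    (by simp)
    (C z)
  rw [dx_C, mul_zero, add_zero, Ideal.span_singleton_pow, Ideal.mem_span_singleton] at key
  simp only [RingHom.comp_apply, PowerSeries.constantCoeff_C, RingHom.coe_coe] at key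
  obtain ⟨t, ht⟩ := key
  refine ⟨ρ (d⁄dX B z) * h, ?_, ?_⟩
  · rw [map_mul, rho_red hB π ρ hρ, mul_comm]
    congr 1
    ext n
    rw [PowerSeries.coeff_map, PowerSeries.coeff_derivative, PowerSeries.coeff_derivative,
      PowerSeries.coeff_map]
    simp
  · have h1 : ρ' z - ρ z - C (v ^ k) * (ρ (d⁄dX B z) * h) = C (v ^ k) ^ 2 * t := by
      rw [← ht]; ring
    rw [h1, ← map_pow, ← pow_mul]
    apply JJ.C_mul
    rw [mem_pow hv]
    exact pow_dvd_pow v (by omega)

/-- change of the base map -/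
theorem lin_change (hB : BaseFacts.{u}) (π : B →ₐ[K] K) (hv : maximalIdeal B = Ideal.span {v})
    (k : ℕ) (hk : 1 ≤ k) (β β' : OO K m →ₐ[K] B) (c : Fin m → K)
    (h : ∀ j, β' (MvPowerSeries.X j) = β (MvPowerSeries.X j) + v ^ k * algebraMap K B (c j))
    (w : (OO K m)⟦X⟧) (w0 : K⟦X⟧) (V : Fin m → K⟦X⟧)
    (hw : JJ (maximalIdeal (OO K m) ^ 2) (w - (PowerSeries.map (algebraMap K (OO K m)) w0 +
      ∑ j, (MvPowerSeries.X j : OO K m) • PowerSeries.map (algebraMap K (OO K m)) (V j)))) :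
    RR π v k (PowerSeries.map (β' : OO K m →+* B) w - PowerSeries.map (β : OO K m →+* B) w)
      (∑ j, c j • V j) := by
  have hd : ∀ j, β' (MvPowerSeries.X j) - β (MvPowerSeries.X j) ∈ maximalIdeal B ^ k := by
    intro j
    rw [h j, add_sub_cancel_left, mem_pow hv]
    exact dvd_mul_right _ _
  refine ⟨∑ j, C (algebraMap K B (c j)) * PowerSeries.map (algebraMap K B) (V j), ?_, ?_⟩
  · rw [map_sum]
    apply Finset.sum_congr rfl
    intro j _
    rw [map_mul, PowerSeries.smul_eq_C_mul]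
    congr 1
    · simp
    · ext n
      simp
  · intro n
    have h1 := beta_sq hB π β β' k hk hd (hw n)
    have e1 : ∀ a : K, β' (algebraMap K (OO K m) a) = β (algebraMap K (OO K m) a) := by
      intro a; rw [AlgHom.commutes, AlgHom.commutes]
    have h2 : β' (PowerSeries.coeff n (w - (PowerSeries.map (algebraMap K (OO K m)) w0 +
      ∑ j, (MvPowerSeries.X j : OO K m) • PowerSeries.map (algebraMap K (OO K m)) (V j)))) -
      β (PowerSeries.coeff n (w - (PowerSeries.map (algebraMap K (OO K m)) w0 +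
      ∑ j, (MvPowerSeries.X j : OO K m) • PowerSeries.map (algebraMap K (OO K m)) (V j)))) =
      PowerSeries.coeff n (PowerSeries.map (β' : OO K m →+* B) w - PowerSeries.map (β : OO K m →+* B) w -
        C (v ^ k) * ∑ j, C (algebraMap K B (c j)) * PowerSeries.map (algebraMap K B) (V j)) := by
      rw [map_sub (PowerSeries.coeff n), map_sub (PowerSeries.coeff n), map_sub (PowerSeries.coeff n),
        map_add (PowerSeries.coeff n), map_sum (PowerSeries.coeff n), PowerSeries.coeff_C_mul,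
        map_sum (PowerSeries.coeff n)]
      simp only [PowerSeries.coeff_map, PowerSeries.coeff_smul, PowerSeries.coeff_C_mul,
        RingHom.coe_coe, map_sub, map_add, map_sum, smul_eq_mul, map_mul, AlgHom.commutes, h]
      rw [Finset.mul_sum]
      have h3 : ∀ (f g : Fin m → B), ∑ j, (f j + g j) = ∑ j, f j + ∑ j, g j :=
        fun f g => Finset.sum_add_distrib
      simp only [add_mul]
      rw [h3]
      have h4 : ∑ j, v ^ k * algebraMap K B (c j) * algebraMap K B (PowerSeries.coeff n (V j)) =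
          ∑ j, v ^ k * (algebraMap K B (c j) * algebraMap K B (PowerSeries.coeff n (V j))) := by
        apply Finset.sum_congr rfl
        intro j _
        ring
      rw [h4]
      ring
    rw [← h2]
    exact h1

end

section
variable {K : Type u} [Field K] {B : Type u} [CommRing B] [IsDomain B] [IsDiscreteValuationRing B]
  [Algebra K B] {v : B}

theorem map2_smulC (A : Type u) [CommRing A] [Algebra K A] (h : K⟦X⟧⟦X⟧) (π : A →ₐ[K] K) :
    map2 (π : A →+* K) (map2 (algebraMap K A) h) = h := by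
  ext i j
  simp [map2]

/-- the linearised equation -/
theorem lin_eq (hT : Tools.{u}) (π : B →ₐ[K] K) (hv : maximalIdeal B = Ideal.span {v})
    {τ r : ℕ} (D : Setup K τ r) (s s₀ : Fin τ → B) (Ψ Φ : Par B r)
    (hsm : ∀ j, s j ∈ maximalIdeal B) (hΨ0 : Ψ (D.F s) = 0) (hΦ0 : Φ (D.F s₀) = 0)
    (hlift : Lifts π D.φ Φ) (k : ℕ) (hk : 1 ≤ k) (e : Fin τ → B)
    (he : ∀ j, s j - s₀ j = v ^ k * e j) (a b : Fin r → B⟦X⟧)
    (ha : ∀ i, Ψ (C X) i = Φ (C X) i + C (v ^ k) * a i)
    (hb : ∀ i, Ψ X i = Φ X i + C (v ^ k) * b i) :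
    ∑ j, (π (e j)) • D.φ (D.g j) + D.φ (dx D.f) * (mapP (π : B →+* K) a) +
      D.φ (dy D.f) * (mapP (π : B →+* K) b) = 0 := by
  have hle : maximalIdeal B ^ k ≤ maximalIdeal B := Ideal.pow_le_self (by omega)
  have hEa : InP (maximalIdeal B ^ k) (fun i => C (v ^ k) * a i) := fun i =>
    (JJ_iff hv k _).mpr ⟨a i, rfl⟩
  have hEb : InP (maximalIdeal B ^ k) (fun i => C (v ^ k) * b i) := fun i =>
    (JJ_iff hv k _).mpr ⟨b i, rfl⟩
  have hT1 := hT.taylorP Φ Ψ (maximalIdeal B ^ k) hle (fun i => C (v ^ k) * a i)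
    (fun i => C (v ^ k) * b i) hEa hEb (by funext i; exact ha i) (by funext i; exact hb i) (D.F s)
  rw [hΨ0] at hT1
  -- the value of `Φ` at the perturbed equation
  have hF : D.F s = D.F s₀ + ∑ j, C (C (v ^ k * e j)) * map2 (algebraMap K B) (D.g j) := by
    unfold Setup.F fam
    rw [add_assoc, ← Finset.sum_add_distrib]
    congr 1
    apply Finset.sum_congr rfl
    intro j _
    rw [← he j, ← add_mul, ← map_add, ← map_add]
    congr 3
    ring
  have hCC : ∀ c : B, ∀ i, Φ (C (C c)) i = C c := by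
    intro c i
    have h0 : (C (C c) : B⟦X⟧⟦X⟧) = algebraMap B (B⟦X⟧⟦X⟧) c := by
      rw [PowerSeries.algebraMap_apply, PowerSeries.algebraMap_apply]
      simp
    have h1 : Φ (C (C c)) = algebraMap B (Fin r → B⟦X⟧) c := by
      rw [h0]
      exact Φ.commutes c
    rw [h1, Pi.algebraMap_apply, PowerSeries.algebraMap_apply]
    simp
  have hΦF : ∀ i, Φ (D.F s) i = C (v ^ k) * ∑ j, C (e j) * Φ (map2 (algebraMap K B) (D.g j)) i := by
    intro i
    rw [hF, map_add, hΦ0, zero_add, map_sum, Finset.sum_apply, Finset.mul_sum]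
    apply Finset.sum_congr rfl
    intro j _
    rw [map_mul, Pi.mul_apply, hCC, map_mul]
    ring
  have hbr : ∀ i, JJ (maximalIdeal B) (∑ j, C (e j) * Φ (map2 (algebraMap K B) (D.g j)) i +
      Φ (dx (D.F s)) i * a i + Φ (dy (D.F s)) i * b i) := by
    intro i
    apply JJ_of_succ hv (k := k)
    have h1 : JJ ((maximalIdeal B ^ k) ^ 2) ((0 : Fin r → B⟦X⟧) i - (Φ (D.F s) i +
      Φ (dx (D.F s)) i * (C (v ^ k) * a i) + Φ (dy (D.F s)) i * (C (v ^ k) * b i))) := hT1 i
    rw [hΦF i] at h1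
    have h2 := h1.neg
    have h3 : (maximalIdeal B ^ k) ^ 2 ≤ maximalIdeal B ^ (k + 1) := by
      rw [← pow_mul]
      exact Ideal.pow_le_pow_right (by omega)
    have h4 := h2.mono h3
    have h5 : C (v ^ k) * (∑ j, C (e j) * Φ (map2 (algebraMap K B) (D.g j)) i +
      Φ (dx (D.F s)) i * a i + Φ (dy (D.F s)) i * b i) =
      -((0 : Fin r → B⟦X⟧) i - (C (v ^ k) * ∑ j, C (e j) * Φ (map2 (algebraMap K B) (D.g j)) i +
      Φ (dx (D.F s)) i * (C (v ^ k) * a i) + Φ (dy (D.F s)) i * (C (v ^ k) * b i))) := by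
      rw [Pi.zero_apply]
      ring
    rw [h5]
    exact h4
  have hL : ∀ (h : B⟦X⟧⟦X⟧) (i : Fin r), PowerSeries.map (π : B →+* K) (Φ h i) =
      D.φ (map2 (π : B →+* K) h) i := by
    intro h i
    have := congrFun (hlift h) i
    rwa [mapP_apply] at this
  have hfam : map2 (π : B →+* K) (D.F s) = D.f := hT.map2_fam_zero π D.f D.g s hsm
  funext i
  have h6 := (map_zero_iff π _).mpr (hbr i)
  rw [map_add, map_add, map_sum, map_mul, map_mul, hL, hL, hT.map2_dx, hT.map2_dy, hfam] at h6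
  rw [Pi.add_apply, Pi.add_apply, Finset.sum_apply, Pi.mul_apply, Pi.mul_apply, mapP_apply,
    mapP_apply, Pi.zero_apply, ← h6]
  congr 2
  apply Finset.sum_congr rfl
  intro j _
  rw [map_mul, hL, map2_smulC, Pi.smul_apply, PowerSeries.smul_eq_C_mul]
  congr 1
  simp

end

/-- one step of the comparison with the universal family -/
theorem u2_step (hT : Tools.{u}) (hB : BaseFacts.{u}) {K : Type u} [Field K] {τ r : ℕ}
    (D : Setup K τ r) (T : TBasis D) (U : UnivFam D T)
    {B : Type u} [CommRing B] [IsDomain B] [IsDiscreteValuationRing B]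
    [IsAdicComplete (maximalIdeal B) B] [Algebra K B] (π : B →ₐ[K] K) (v : B)
    (hv : maximalIdeal B = Ideal.span {v})
    (s : Fin τ → B) (Ψ : Par B r) (hsim : SimPar D π s Ψ) (k : ℕ) (hk : 1 ≤ k)
    (β : OO K T.m →ₐ[K] B) (ρ : Fin r → (B⟦X⟧ →ₐ[B] B⟦X⟧))
    (hρ : ∀ i, PowerSeries.map (π : B →+* K) (ρ i X) = X)
    (h1 : ∀ j, s j - β (U.s j) ∈ maximalIdeal B ^ k)
    (h2 : InP (maximalIdeal B ^ k) (Ψ (C X) - fun i => ρ i (mapP (β : OO K T.m →+* B) (U.Φ (C X)) i)))
    (h3 : InP (maximalIdeal B ^ k) (Ψ X - fun i => ρ i (mapP (β : OO K T.m →+* B) (U.Φ X) i))) :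
    ∃ (β' : OO K T.m →ₐ[K] B) (ρ' : Fin r → (B⟦X⟧ →ₐ[B] B⟦X⟧)),
      (∀ j, β' (MvPowerSeries.X j) - β (MvPowerSeries.X j) ∈ maximalIdeal B ^ k) ∧
      (InP (maximalIdeal B ^ k) (fun i => ρ' i X - ρ i X)) ∧
      (∀ i, PowerSeries.map (π : B →+* K) (ρ' i X) = X) ∧
      (∀ j, s j - β' (U.s j) ∈ maximalIdeal B ^ (k + 1)) ∧
      InP (maximalIdeal B ^ (k + 1))
        (Ψ (C X) - fun i => ρ' i (mapP (β' : OO K T.m →+* B) (U.Φ (C X)) i)) ∧
      InP (maximalIdeal B ^ (k + 1))
        (Ψ X - fun i => ρ' i (mapP (β' : OO K T.m →+* B) (U.Φ X) i)) := by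
  have hvk : v ^ k ∈ maximalIdeal B := Ideal.pow_mem_of_mem _ (v_mem hv) k (by omega)
  have hXm : ∀ j : Fin T.m, (MvPowerSeries.X j : OO K T.m) ∈ maximalIdeal (OO K T.m) := by
    intro j
    rw [IsLocalRing.mem_maximalIdeal, mem_nonunits_iff, MvPowerSeries.isUnit_iff_constantCoeff]
    simp
  obtain ⟨Φb, hΦb⟩ := exists_Phib hT π β U.Φ
  have hlift := twist_lifts hT hB π β U.π D.φ U.Φ U.sim.lifts Φb hΦb ρ hρ
  have hbx : ∀ i, twist ρ Φb (C X) i = ρ i (mapP (β : OO K T.m →+* B) (U.Φ (C X)) i) := by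
    intro i
    have := hΦb (C X)
    rw [map2_CX] at this
    rw [twist_apply, this]
  have hby : ∀ i, twist ρ Φb X i = ρ i (mapP (β : OO K T.m →+* B) (U.Φ X) i) := by
    intro i
    have := hΦb X
    rw [map2_X] at this
    rw [twist_apply, this]
  have hzero : twist ρ Φb (D.F (fun j => β (U.s j))) = 0 := by
    have h5 := hT.map2_fam β D.f D.g U.s
    have h6 := hΦb (D.F U.s)
    rw [U.sim.zero, map_zero] at h6
    have h7 : map2 (β : OO K T.m →+* B) (D.F U.s) = D.F (fun j => β (U.s j)) := h5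
    rw [h7] at h6
    funext i
    rw [twist_apply, h6, Pi.zero_apply, map_zero]
  have he : ∀ j, ∃ e : B, s j - β (U.s j) = v ^ k * e := fun j => (mem_pow hv k _).mp (h1 j)
  choose e he using he
  have ha : ∀ i, ∃ a : B⟦X⟧, Ψ (C X) i - ρ i (mapP (β : OO K T.m →+* B) (U.Φ (C X)) i) = C (v ^ k) * a :=
    fun i => (JJ_iff hv k _).mp (h2 i)
  choose a ha using ha
  have hb : ∀ i, ∃ b : B⟦X⟧, Ψ X i - ρ i (mapP (β : OO K T.m →+* B) (U.Φ X) i) = C (v ^ k) * b :=
    fun i => (JJ_iff hv k _).mp (h3 i)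
  choose b hb using hb
  have hlin := lin_eq hT π hv D s (fun j => β (U.s j)) Ψ (twist ρ Φb) hsim.mem hsim.zero hzero hlift
    k hk e he a b (fun i => by rw [hbx, ← ha i]; ring) (fun i => by rw [hby, ← hb i]; ring)
  obtain ⟨c, h, hσ, hax, hbx'⟩ := T.span (fun j => π (e j)) _ _ hlin
  -- the new maps
  obtain ⟨β', hβ'⟩ := hB.evm_exists (σ := Fin T.m) (K := K) (T := B) (maximalIdeal B)
    (fun j => β (MvPowerSeries.X j) + v ^ k * algebraMap K B (c j))
    (fun j => Ideal.add_mem _ (beta_local π β (hXm j)) (Ideal.mul_mem_right _ _ hvk))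
  have hρm : ∀ i, ρ i X ∈ maximalIdeal B⟦X⟧ := by
    intro i
    rw [mem_maxPS, ← ker_pi π]
    have := congrArg PowerSeries.constantCoeff (hρ i)
    rw [← PowerSeries.coeff_zero_eq_constantCoeff_apply, PowerSeries.coeff_map,
      PowerSeries.coeff_zero_eq_constantCoeff_apply] at this
    simpa using this
  have hcompl : IsAdicComplete (maximalIdeal (B⟦X⟧)) (B⟦X⟧) := hB.complete_powerSeries
  have hex : ∀ i, ∃ ρ' : B⟦X⟧ →ₐ[B] B⟦X⟧, ρ' X = ρ i X +
      C (v ^ k) * PowerSeries.map (algebraMap K B) (h i) := by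
    intro i
    apply hB.ev_exists (A := B) (T := B⟦X⟧) (maximalIdeal B⟦X⟧)
    apply Ideal.add_mem _ (hρm i)
    rw [mem_maxPS, map_mul, PowerSeries.constantCoeff_C]
    exact Ideal.mul_mem_right _ _ hvk
  choose ρ' hρ' using hex
  have hmapmap : ∀ u : K⟦X⟧, PowerSeries.map (π : B →+* K) (PowerSeries.map (algebraMap K B) u) = u := by
    intro u
    ext n
    simp
  have hπv : π (v ^ k) = 0 := (ker_pi π _).mpr hvk
  have hd : ∀ j, β' (MvPowerSeries.X j) - β (MvPowerSeries.X j) ∈ maximalIdeal B ^ k := by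
    intro j
    rw [hβ' j, add_sub_cancel_left, mem_pow hv]
    exact dvd_mul_right _ _
  -- coordinates
  have hcoord : ∀ (w : Fin r → (OO K T.m)⟦X⟧) (w0 : Fin r → K⟦X⟧) (V : Fin T.m → Fin r → K⟦X⟧)
      (hw0 : mapP (U.π : OO K T.m →+* K) w = w0)
      (hw : InP (maximalIdeal (OO K T.m) ^ 2) (w - (mapP (algebraMap K (OO K T.m)) w0 +
        ∑ j, (MvPowerSeries.X j : OO K T.m) • mapP (algebraMap K (OO K T.m)) (V j))))
      (P : Fin r → B⟦X⟧) (a : Fin r → B⟦X⟧)
      (hP : ∀ i, P i - ρ i (mapP (β : OO K T.m →+* B) w i) = C (v ^ k) * a i)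
      (hax : mapP (π : B →+* K) a = ∑ j, c j • V j + h * dP w0) (i : Fin r),
      JJ (maximalIdeal B ^ (k + 1)) (P i - ρ' i (mapP (β' : OO K T.m →+* B) w i)) := by
    intro w w0 V hw0 hw P a hP hax i
    apply RR.JJ_of_zero π hv (k := k)
    have q1 := lin_change hB π hv k hk β β' c hβ' (w i) (w0 i) (fun j => V j i) (by
      have := hw i
      rw [Pi.sub_apply, Pi.add_apply, Finset.sum_apply] at this
      exact this)
    have q2 := RR.hom π hv (ρ i) (rho_red hB π (ρ i) (hρ i)) q1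
    have q3 := taylor1 hB π hv k hk (ρ i) (ρ' i) (hρ i) (PowerSeries.map (algebraMap K B) (h i)) (hρ' i)
      (PowerSeries.map (β' : OO K T.m →+* B) (w i))
    have q4 : PowerSeries.map (π : B →+* K) (PowerSeries.map (β' : OO K T.m →+* B) (w i)) = w0 i := by
      rw [← hw0, mapP_apply]
      ext n
      rw [PowerSeries.coeff_map, PowerSeries.coeff_map, PowerSeries.coeff_map]
      exact beta_pi π β' U.π _
    rw [hmapmap, q4] at q3
    have q5 : RR π v k (P i - ρ i (mapP (β : OO K T.m →+* B) w i)) (PowerSeries.map (π : B →+* K) (a i)) := by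
      rw [hP i]
      exact RR.of_C π k (a i)
    have q6 := (q5.sub π q2).sub π q3
    have q7 : P i - ρ i (mapP (β : OO K T.m →+* B) w i) -
        ρ i (PowerSeries.map (β' : OO K T.m →+* B) (w i) - PowerSeries.map (β : OO K T.m →+* B) (w i)) -
        (ρ' i (PowerSeries.map (β' : OO K T.m →+* B) (w i)) -
          ρ i (PowerSeries.map (β' : OO K T.m →+* B) (w i))) =
        P i - ρ' i (mapP (β' : OO K T.m →+* B) w i) := by
      rw [map_sub, mapP_apply, mapP_apply]
      ring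
    have q8 : PowerSeries.map (π : B →+* K) (a i) - ∑ j, c j • V j i - h i * d⁄dX K (w0 i) = 0 := by
      have := congrFun hax i
      rw [mapP_apply, Pi.add_apply, Finset.sum_apply, Pi.mul_apply] at this
      rw [this]
      have e2 : dP w0 i = d⁄dX K (w0 i) := rfl
      rw [e2]
      simp only [Pi.smul_apply]
      ring
    rw [q7, q8] at q6
    exact q6
  refine ⟨β', ρ', hd, ?_, ?_, ?_, ?_, ?_⟩
  · intro i
    show JJ _ (ρ' i X - ρ i X)
    rw [hρ' i, add_sub_cancel_left, JJ_iff hv]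
    exact ⟨_, rfl⟩
  · intro i
    rw [hρ' i, map_add, hρ i, map_mul]
    have : PowerSeries.map (π : B →+* K) (C (v ^ k)) = 0 := by
      rw [PowerSeries.map_C]
      have : (π : B →+* K) (v ^ k) = 0 := hπv
      rw [this, map_zero]
    rw [this, zero_mul, add_zero]
  · intro j
    have q := beta_sq hB π β β' k hk hd (U.lin_s j)
    have hσj : π (e j) = ∑ l, c l * T.σ l j := by
      have := congrFun hσ j
      rw [Finset.sum_apply] at this
      simpa using this
    have e1 : s j - β' (U.s j) = v ^ k * (e j - algebraMap K B (∑ l, c l * T.σ l j)) -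
        (β' (U.s j - ∑ l, T.σ l j • (MvPowerSeries.X l : OO K T.m)) -
          β (U.s j - ∑ l, T.σ l j • (MvPowerSeries.X l : OO K T.m))) := by
      have e2 : s j = β (U.s j) + v ^ k * e j := by rw [← he j]; ring
      have e3 : ∑ l, β' (T.σ l j • (MvPowerSeries.X l : OO K T.m)) =
          ∑ l, β (T.σ l j • (MvPowerSeries.X l : OO K T.m)) +
            v ^ k * algebraMap K B (∑ l, c l * T.σ l j) := by
        rw [map_sum (algebraMap K B), Finset.mul_sum, ← Finset.sum_add_distrib]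
        apply Finset.sum_congr rfl
        intro l _
        rw [map_smul, map_smul, hβ' l, smul_add, map_mul]
        congr 1
        rw [Algebra.smul_def]
        ring
      rw [map_sub β', map_sub β, map_sum β', map_sum β, e3, e2]
      ring
    rw [e1]
    apply Ideal.sub_mem _ _ q
    have q2 : e j - algebraMap K B (∑ l, c l * T.σ l j) ∈ maximalIdeal B := by
      rw [← ker_pi π, map_sub, AlgHom.commutes, hσj]
      simp
    rw [hv, Ideal.mem_span_singleton] at q2
    rw [mem_pow hv, pow_succ]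
    exact mul_dvd_mul_left _ q2
  · intro i
    exact hcoord (U.Φ (C X)) (D.φ (C X)) T.v (by
      have := U.sim.lifts (C X)
      rwa [map2_CX] at this) U.lin_x (Ψ (C X)) a ha hax i
  · intro i
    exact hcoord (U.Φ X) (D.φ X) T.w (by
      have := U.sim.lifts X
      rwa [map2_X] at this) U.lin_y (Ψ X) b hb hbx' i

end U2S

end Pool.Agent.Helper819.DC
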