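import Pool.Agent.Helper819.DC.Core3

set_option autoImplicit false

open PowerSeries IsLocalRing TensorProduct

universe u

namespace Pool.Agent.Helper819.DC


namespace U3

theorem mem_iff_11499 {K : Type u} [Field K] {B : Type u} [CommRing B] [IsLocalRing B] [Algebra K B]
    (π : B →ₐ[K] K) (b : B) : b ∈ maximalIdeal B ↔ π b = 0 := by
  have key : ∀ b : B, π b = 0 → b ∈ maximalIdeal B := by
    intro b hb
    rw [mem_maximalIdeal, mem_nonunits_iff]
    intro hu
    have := hu.map π
    rw [hb] at this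
    exact not_isUnit_zero this
  refine ⟨fun hb => ?_, key b⟩
  by_contra hne
  have h1 : b - algebraMap K B (π b) ∈ maximalIdeal B := by
    refine key _ ?_
    rw [map_sub, AlgHom.commutes]
    simp
  have h2 : algebraMap K B (π b) ∈ maximalIdeal B := by
    have := Ideal.sub_mem _ hb h1
    simpa using this
  rw [mem_maximalIdeal, mem_nonunits_iff] at h2
  exact h2 ((isUnit_iff_ne_zero.2 hne).map (algebraMap K B))

theorem local_11499 {K : Type u} [Field K] {B O : Type u} [CommRing B] [IsLocalRing B]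
    [Algebra K B] [CommRing O] [IsLocalRing O] [Algebra K O]
    (π : B →ₐ[K] K) (β : O →ₐ[K] B) (q : O) (hq : q ∈ maximalIdeal O) : β q ∈ maximalIdeal B := by
  rw [mem_iff_11499 π]
  by_contra hne
  set k := π (β q) with hk
  have h1 : algebraMap K O k⁻¹ * q ∈ maximalIdeal O := Ideal.mul_mem_left _ _ hq
  have h2 : IsUnit (1 - algebraMap K O k⁻¹ * q) := by
    refine IsLocalRing.isUnit_one_sub_self_of_mem_nonunits _ ?_
    rwa [mem_maximalIdeal] at h1
  have h3 : π (β (1 - algebraMap K O k⁻¹ * q)) = 0 := by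
    rw [map_sub, map_sub, map_mul, map_mul, AlgHom.commutes, AlgHom.commutes, map_one, map_one,
      ← hk]
    have : algebraMap K K k⁻¹ = k⁻¹ := rfl
    rw [this, inv_mul_cancel₀ hne, sub_self]
  have h4 := (h2.map β).map π
  rw [h3] at h4
  exact not_isUnit_zero h4

theorem congr_11499 (hB : BaseFacts.{u}) {K : Type u} [Field K] {n : ℕ} {B : Type u} [CommRing B]
    [IsLocalRing B] [Algebra K B] (π : B →ₐ[K] K) (β β' : OO K n →ₐ[K] B) (N : ℕ)
    (hX : ∀ j, β' (MvPowerSeries.X j) - β (MvPowerSeries.X j) ∈ maximalIdeal B ^ N)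
    (q : OO K n) : β' q - β q ∈ maximalIdeal B ^ N := by
  set I : Ideal (B ⧸ maximalIdeal B ^ N) :=
    (maximalIdeal B).map (Ideal.Quotient.mk (maximalIdeal B ^ N)) with hI
  haveI : IsHausdorff I (B ⧸ maximalIdeal B ^ N) := by
    refine ⟨fun x hx => ?_⟩
    have h1 := hx N
    rw [SModEq.zero] at h1
    have h2 : I ^ N = ⊥ := by
      rw [hI, ← Ideal.map_pow, Ideal.map_quotient_self]
    rw [h2] at h1
    simpa using h1
  have hXm : ∀ j : Fin n, (MvPowerSeries.X j : OO K n) ∈ maximalIdeal (OO K n) := by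
    intro j
    rw [mem_maximalIdeal, mem_nonunits_iff, MvPowerSeries.isUnit_iff_constantCoeff]
    simp
  have h := hB.evm_unique (σ := Fin n) (K := K) I
    (fun j => Ideal.Quotient.mk (maximalIdeal B ^ N) (β (MvPowerSeries.X j)))
    (fun j => Ideal.mem_map_of_mem _ (local_11499 π β _ (hXm j)))
    ((Ideal.Quotient.mkₐ K (maximalIdeal B ^ N)).comp β)
    ((Ideal.Quotient.mkₐ K (maximalIdeal B ^ N)).comp β') (fun j => rfl) (fun j => by
      show Ideal.Quotient.mk _ _ = Ideal.Quotient.mk _ _
      rw [Ideal.Quotient.eq]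
      exact hX j)
  have h2 := congrArg (fun F => F q) h
  have h3 : Ideal.Quotient.mk (maximalIdeal B ^ N) (β q) =
      Ideal.Quotient.mk (maximalIdeal B ^ N) (β' q) := h2
  rw [eq_comm, Ideal.Quotient.eq] at h3
  exact h3

theorem congr_sq_11499 (hB : BaseFacts.{u}) {K : Type u} [Field K] {n : ℕ} {B : Type u}
    [CommRing B] [IsLocalRing B] [Algebra K B] (π : B →ₐ[K] K) (β β' : OO K n →ₐ[K] B) (N : ℕ)
    (hX : ∀ j, β' (MvPowerSeries.X j) - β (MvPowerSeries.X j) ∈ maximalIdeal B ^ N)
    (q : OO K n) (hq : q ∈ maximalIdeal (OO K n) ^ 2) :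
    β' q - β q ∈ maximalIdeal B ^ (N + 1) := by
  rw [pow_two] at hq
  refine Submodule.mul_induction_on hq ?_ ?_
  · intro x hx y hy
    have e : β' (x * y) - β (x * y) = β' x * (β' y - β y) + (β' x - β x) * β y := by
      rw [map_mul, map_mul]; ring
    rw [e, pow_succ]
    refine Ideal.add_mem _ ?_ ?_
    · rw [mul_comm (β' x)]
      exact Ideal.mul_mem_mul (congr_11499 hB π β β' N hX y) (local_11499 π β' x hx)
    · exact Ideal.mul_mem_mul (congr_11499 hB π β β' N hX x) (local_11499 π β y hy)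
  · intro x y hx hy
    have e : β' (x + y) - β (x + y) = (β' x - β x) + (β' y - β y) := by
      rw [map_add, map_add]; ring
    rw [e]
    exact Ideal.add_mem _ hx hy

/-- cancellation of a power of the uniformiser -/
theorem cancel_11499 {B : Type u} [CommRing B] [IsDomain B] [IsLocalRing B] (v : B) (hv0 : v ≠ 0)
    (hv : maximalIdeal B = Ideal.span {v}) (N : ℕ) (z : B)
    (hz : v ^ N * z ∈ maximalIdeal B ^ (N + 1)) : z ∈ maximalIdeal B := by
  rw [hv, Ideal.span_singleton_pow, Ideal.mem_span_singleton'] at hz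
  obtain ⟨a, ha⟩ := hz
  rw [hv, Ideal.mem_span_singleton']
  refine ⟨a, ?_⟩
  have : v ^ N * (a * v) = v ^ N * z := by rw [← ha]; ring
  exact mul_left_cancel₀ (pow_ne_zero N hv0) this

/-- constant coefficient as an algebra hom -/
noncomputable def cc_11499 (B : Type u) [CommRing B] : B⟦X⟧⟦X⟧ →ₐ[B] B⟦X⟧ :=
  { (PowerSeries.constantCoeff (R := B⟦X⟧)) with
    commutes' := fun b => by
      show PowerSeries.constantCoeff (R := B⟦X⟧) (algebraMap B (B⟦X⟧⟦X⟧) b) = _
      rw [PowerSeries.algebraMap_apply]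
      simp }

theorem cc_C_11499 (B : Type u) [CommRing B] (w : B⟦X⟧) : cc_11499 B (C w) = w := by
  show PowerSeries.constantCoeff (R := B⟦X⟧) (C w) = w
  simp

theorem cc_X_11499 (B : Type u) [CommRing B] : cc_11499 B X = 0 := by
  show PowerSeries.constantCoeff (R := B⟦X⟧) X = 0
  simp

theorem cc_dx_11499 (B : Type u) [CommRing B] (w : B⟦X⟧) :
    cc_11499 B (dx (C w)) = d⁄dX B w := by
  show PowerSeries.constantCoeff (R := B⟦X⟧) (dx (C w)) = _
  rw [← PowerSeries.coeff_zero_eq_constantCoeff_apply, dx, PowerSeries.coeff_mk]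
  simp

/-- Taylor expansion for reparametrisations -/
theorem taylor_11499 (hT : Tools.{u}) {B : Type u} [CommRing B] [IsLocalRing B]
    [IsNoetherianRing B] (N : ℕ) (hN : 1 ≤ N) {r : ℕ} (ρ : Fin r → (B⟦X⟧ →ₐ[B] B⟦X⟧))
    (a : Fin r → B⟦X⟧) (ha : ∀ i, ρ i X = X + a i) (haI : InP (maximalIdeal B ^ N) a)
    (i : Fin r) (w : B⟦X⟧) (n : ℕ) :
    coeff n (ρ i w - (w + d⁄dX B w * a i)) ∈ maximalIdeal B ^ (N + 1) := by
  have h := hT.taylorP (A := B) (r := r) (AlgHom.pi (fun _ => cc_11499 B))
    (AlgHom.pi (fun i => (ρ i).comp (cc_11499 B))) (maximalIdeal B ^ N)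
    (Ideal.pow_le_self (by omega)) a 0 haI (fun i n => by
      show coeff n (0 : B⟦X⟧) ∈ _
      rw [map_zero]; exact Ideal.zero_mem _) (by
      funext i
      show ρ i (cc_11499 B (C X)) = cc_11499 B (C X) + a i
      rw [cc_C_11499, ha]) (by
      funext i
      show ρ i (cc_11499 B X) = cc_11499 B X + 0
      rw [cc_X_11499, map_zero, add_zero]) (C w) i n
  have e : (AlgHom.pi (fun i => (ρ i).comp (cc_11499 B)) (C w) -
      (AlgHom.pi (fun _ : Fin r => cc_11499 B) (C w) +
        AlgHom.pi (fun _ : Fin r => cc_11499 B) (dx (C w)) * a +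
        AlgHom.pi (fun _ : Fin r => cc_11499 B) (dy (C w)) * 0)) i =
      ρ i w - (w + d⁄dX B w * a i) := by
    show ρ i (cc_11499 B (C w)) - (cc_11499 B (C w) + cc_11499 B (dx (C w)) * a i +
      cc_11499 B (dy (C w)) * 0) = _
    rw [cc_C_11499, cc_dx_11499, mul_zero, add_zero]
  rw [e] at h
  have h2 : (maximalIdeal B ^ N) ^ 2 ≤ maximalIdeal B ^ (N + 1) := by
    rw [← pow_mul]
    exact Ideal.pow_le_pow_right (by omega)
  exact h2 h

/-- comparison of one coordinate -/
theorem coord_11499 (hT : Tools.{u}) (hB : BaseFacts.{u}) {K : Type u} [Field K] {m r : ℕ}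
    {B : Type u} [CommRing B] [IsDomain B] [IsLocalRing B] [IsNoetherianRing B]
    [Algebra K B] (π : B →ₐ[K] K) (v : B) (hv0 : v ≠ 0)
    (hv : maximalIdeal B = Ideal.span {v}) (β β' : OO K m →ₐ[K] B) (N : ℕ) (hN : 1 ≤ N)
    (c : Fin m → B)
    (hc : ∀ j, β' (MvPowerSeries.X j) - β (MvPowerSeries.X j) = v ^ N * c j)
    (ρ : Fin r → (B⟦X⟧ →ₐ[B] B⟦X⟧)) (h : Fin r → B⟦X⟧)
    (hρ : ∀ i, ρ i X = X + C (v ^ N) * h i)
    (Uq : Fin r → (OO K m)⟦X⟧) (p : Fin r → K⟦X⟧) (V : Fin m → Fin r → K⟦X⟧)
    (hlin : InP (maximalIdeal (OO K m) ^ 2) (Uq - (mapP (algebraMap K (OO K m)) p +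
      ∑ j, (MvPowerSeries.X j : OO K m) • mapP (algebraMap K (OO K m)) (V j))))
    (hpr : ∀ i, PowerSeries.map (π : B →+* K) (PowerSeries.map (β : OO K m →+* B) (Uq i)) = p i)
    (hPP : ∀ i, PowerSeries.map (β' : OO K m →+* B) (Uq i) =
      ρ i (PowerSeries.map (β : OO K m →+* B) (Uq i))) :
    ∑ j, π (c j) • V j = (fun i => PowerSeries.map (π : B →+* K) (h i)) * dP p := by
  have hX : ∀ j, β' (MvPowerSeries.X j) - β (MvPowerSeries.X j) ∈ maximalIdeal B ^ N := by
    intro j
    rw [hc j, hv, Ideal.span_singleton_pow, Ideal.mem_span_singleton']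
    exact ⟨c j, mul_comm _ _⟩
  have haI : InP (maximalIdeal B ^ N) (fun i => C (v ^ N) * h i) := by
    intro i n
    rw [PowerSeries.coeff_C_mul, hv, Ideal.span_singleton_pow, Ideal.mem_span_singleton']
    exact ⟨_, mul_comm _ _⟩
  funext i
  ext n
  -- first comparison
  have h1 := congr_sq_11499 hB π β β' N hX _ (hlin i n)
  have e1 : coeff n ((Uq - (mapP (algebraMap K (OO K m)) p +
      ∑ j, (MvPowerSeries.X j : OO K m) • mapP (algebraMap K (OO K m)) (V j))) i) =
      coeff n (Uq i) - (algebraMap K (OO K m) (coeff n (p i)) +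
        ∑ j, (MvPowerSeries.X j : OO K m) * algebraMap K (OO K m) (coeff n (V j i))) := by
    rw [Pi.sub_apply, Pi.add_apply, Finset.sum_apply, map_sub, map_add, map_sum, mapP_apply,
      PowerSeries.coeff_map]
    congr 2
  rw [e1] at h1
  have e2 : ∀ γ : OO K m →ₐ[K] B, γ (coeff n (Uq i) - (algebraMap K (OO K m) (coeff n (p i)) +
        ∑ j, (MvPowerSeries.X j : OO K m) * algebraMap K (OO K m) (coeff n (V j i)))) =
      γ (coeff n (Uq i)) - (algebraMap K B (coeff n (p i)) +
        ∑ j, γ (MvPowerSeries.X j) * algebraMap K B (coeff n (V j i))) := by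
    intro γ
    rw [map_sub, map_add, map_sum, AlgHom.commutes]
    congr 2
    refine Finset.sum_congr rfl fun j _ => ?_
    rw [map_mul, AlgHom.commutes]
  rw [e2, e2] at h1
  -- second comparison
  have h2 := taylor_11499 hT N hN ρ (fun i => C (v ^ N) * h i) hρ haI i
    (PowerSeries.map (β : OO K m →+* B) (Uq i)) n
  rw [← hPP i] at h2
  have e3 : coeff n (PowerSeries.map (β' : OO K m →+* B) (Uq i) -
      (PowerSeries.map (β : OO K m →+* B) (Uq i) +
        d⁄dX B (PowerSeries.map (β : OO K m →+* B) (Uq i)) * (C (v ^ N) * h i))) =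
      β' (coeff n (Uq i)) - (β (coeff n (Uq i)) +
        v ^ N * coeff n (d⁄dX B (PowerSeries.map (β : OO K m →+* B) (Uq i)) * h i)) := by
    have : d⁄dX B (PowerSeries.map (β : OO K m →+* B) (Uq i)) * (C (v ^ N) * h i) =
        C (v ^ N) * (d⁄dX B (PowerSeries.map (β : OO K m →+* B) (Uq i)) * h i) := by ring
    rw [this, map_sub, map_add, PowerSeries.coeff_C_mul, PowerSeries.coeff_map,
      PowerSeries.coeff_map]
    rfl
  have h2' : β' (coeff n (Uq i)) - (β (coeff n (Uq i)) +
        v ^ N * coeff n (d⁄dX B (PowerSeries.map (β : OO K m →+* B) (Uq i)) * h i)) ∈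
      maximalIdeal B ^ (N + 1) := by
    rw [← e3]
    exact h2
  have h3 : v ^ N * (coeff n (d⁄dX B (PowerSeries.map (β : OO K m →+* B) (Uq i)) * h i) -
      ∑ j, c j * algebraMap K B (coeff n (V j i))) ∈ maximalIdeal B ^ (N + 1) := by
    have h4 := Ideal.sub_mem _ h1 h2'
    have e4 : v ^ N * (coeff n (d⁄dX B (PowerSeries.map (β : OO K m →+* B) (Uq i)) * h i) -
        ∑ j, c j * algebraMap K B (coeff n (V j i))) =
        β' (coeff n (Uq i)) - (algebraMap K B (coeff n (p i)) +
        ∑ j, β' (MvPowerSeries.X j) * algebraMap K B (coeff n (V j i))) -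
        (β (coeff n (Uq i)) - (algebraMap K B (coeff n (p i)) +
        ∑ j, β (MvPowerSeries.X j) * algebraMap K B (coeff n (V j i)))) -
        (β' (coeff n (Uq i)) - (β (coeff n (Uq i)) +
        v ^ N * coeff n (d⁄dX B (PowerSeries.map (β : OO K m →+* B) (Uq i)) * h i))) := by
      have e5 : ∑ j, β' (MvPowerSeries.X j) * algebraMap K B (coeff n (V j i)) =
          ∑ j, β (MvPowerSeries.X j) * algebraMap K B (coeff n (V j i)) +
          v ^ N * ∑ j, c j * algebraMap K B (coeff n (V j i)) := by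
        rw [Finset.mul_sum, ← Finset.sum_add_distrib]
        refine Finset.sum_congr rfl fun j _ => ?_
        have : β' (MvPowerSeries.X j) = β (MvPowerSeries.X j) + v ^ N * c j := by
          rw [← hc j]; ring
        rw [this]
        ring
      rw [e5]
      ring
    rw [e4]
    exact h4
  have h5 := cancel_11499 v hv0 hv N _ h3
  rw [mem_iff_11499 π, map_sub, sub_eq_zero] at h5
  have e6 : π (coeff n (d⁄dX B (PowerSeries.map (β : OO K m →+* B) (Uq i)) * h i)) =
      coeff n (PowerSeries.map (π : B →+* K) (h i) * d⁄dX K (p i)) := by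
    have e7 : PowerSeries.map (π : B →+* K) (d⁄dX B (PowerSeries.map (β : OO K m →+* B) (Uq i))) =
        d⁄dX K (p i) := by
      have := congrFun (hT.mapP_dP (π : B →+* K)
        (fun i => PowerSeries.map (β : OO K m →+* B) (Uq i))) i
      have e8 : mapP (π : B →+* K) (dP (fun i => PowerSeries.map (β : OO K m →+* B) (Uq i))) i =
        PowerSeries.map (π : B →+* K)
          (d⁄dX B (PowerSeries.map (β : OO K m →+* B) (Uq i))) := rfl
      rw [← e8, this]
      show d⁄dX K (PowerSeries.map (π : B →+* K) (PowerSeries.map (β : OO K m →+* B) (Uq i))) = _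
      rw [hpr i]
    have e9 : π (coeff n (d⁄dX B (PowerSeries.map (β : OO K m →+* B) (Uq i)) * h i)) =
        coeff n (PowerSeries.map (π : B →+* K)
          (d⁄dX B (PowerSeries.map (β : OO K m →+* B) (Uq i)) * h i)) := by
      rw [PowerSeries.coeff_map]; rfl
    rw [e9, map_mul, e7, mul_comm]
  rw [e6] at h5
  show coeff n ((∑ j, π (c j) • V j) i) = coeff n (PowerSeries.map (π : B →+* K) (h i) *
    d⁄dX K (p i))
  rw [h5, Finset.sum_apply, map_sum, map_sum]
  refine Finset.sum_congr rfl fun j _ => ?_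
  rw [map_mul, AlgHom.commutes, Pi.smul_apply, PowerSeries.coeff_smul]
  rfl

/-- arcs in the base of the universal family are determined by the parameters -/
theorem u3 (hT : Tools.{u}) (hB : BaseFacts.{u}) {K : Type u} [Field K] {τ r : ℕ}
    (D : Setup K τ r) (T : TBasis D) (U : UnivFam D T)
    (hvel : ∀ i, ¬ (dP (D.φ (C X)) i = 0 ∧ dP (D.φ X) i = 0))
    {B : Type u} [CommRing B] [IsDomain B] [IsDiscreteValuationRing B]
    [IsAdicComplete (maximalIdeal B) B] [Algebra K B] (π : B →ₐ[K] K) (v : B)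
    (hv : maximalIdeal B = Ideal.span {v})
    (hpush : ∀ ψ : OO K T.m →ₐ[K] B, ∃ Φ' : Par B r,
      (∀ h, Φ' (map2 (ψ : OO K T.m →+* B) h) = mapP (ψ : OO K T.m →+* B) (U.Φ h)) ∧
        SimPar D π (fun k => ψ (U.s k)) Φ')
    (hiso : ∀ (s : Fin τ → B) (Φ Φ' : Par B r) (_ : SimPar D π s Φ) (_ : SimPar D π s Φ'),
      ∃ ρ : Fin r → (B⟦X⟧ →ₐ[B] B⟦X⟧), (∀ i, PowerSeries.map (π : B →+* K) (ρ i X) = X) ∧
        ∀ h i, Φ' h i = ρ i (Φ h i))
    (β β' : OO K T.m →ₐ[K] B) (h : ∀ j, β (U.s j) = β' (U.s j)) : β = β' := by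
  have hv0 : v ≠ 0 := by
    rintro rfl
    have h1 : maximalIdeal B = ⊥ := by rw [hv]; simp
    exact IsDiscreteValuationRing.not_a_field B h1
  have hXm : ∀ j : Fin T.m, (MvPowerSeries.X j : OO K T.m) ∈ maximalIdeal (OO K T.m) := by
    intro j
    rw [mem_maximalIdeal, mem_nonunits_iff, MvPowerSeries.isUnit_iff_constantCoeff]
    simp
  obtain ⟨Φ1, hΦ1, hS1⟩ := hpush β
  obtain ⟨Φ2, hΦ2, hS2⟩ := hpush β'
  have hS2' : SimPar D π (fun k => β (U.s k)) Φ2 := by
    have : (fun k => β (U.s k)) = (fun k => β' (U.s k)) := funext h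
    rw [this]
    exact hS2
  obtain ⟨ρ, hρ1, hρ2⟩ := hiso _ Φ1 Φ2 hS1 hS2'
  -- the coordinates
  have hm2x : ∀ γ : OO K T.m →ₐ[K] B, map2 (γ : OO K T.m →+* B) (C X) = C X := by
    intro γ
    simp [map2]
  have hm2y : ∀ γ : OO K T.m →ₐ[K] B, map2 (γ : OO K T.m →+* B) X = X := by
    intro γ
    simp [map2]
  have hpx : map2 (π : B →+* K) (C X) = C X := by simp [map2]
  have hpy : map2 (π : B →+* K) X = X := by simp [map2]
  have key : ∀ N, 1 ≤ N →
      (∀ j, β' (MvPowerSeries.X j) - β (MvPowerSeries.X j) ∈ maximalIdeal B ^ N) ∧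
      (∀ i n, coeff n (ρ i X - X) ∈ maximalIdeal B ^ N) := by
    intro N hN
    induction N, hN using Nat.le_induction with
    | base =>
      rw [pow_one]
      refine ⟨fun j => Ideal.sub_mem _ (local_11499 π β' _ (hXm j))
        (local_11499 π β _ (hXm j)), fun i n => ?_⟩
      rw [mem_iff_11499 π]
      have h1 : PowerSeries.map (π : B →+* K) (ρ i X - X) = 0 := by
        rw [map_sub, hρ1 i, PowerSeries.map_X, sub_self]
      have h2 := congrArg (coeff n) h1
      rw [PowerSeries.coeff_map, map_zero] at h2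
      exact h2
    | succ N hN ih =>
      obtain ⟨ih1, ih2⟩ := ih
      have hc : ∀ j, ∃ c : B, β' (MvPowerSeries.X j) - β (MvPowerSeries.X j) = v ^ N * c := by
        intro j
        have := ih1 j
        rw [hv, Ideal.span_singleton_pow, Ideal.mem_span_singleton'] at this
        obtain ⟨a, ha⟩ := this
        exact ⟨a, by rw [← ha, mul_comm]⟩
      choose c hc using hc
      have hh : ∀ i n, ∃ b : B, coeff n (ρ i X - X) = v ^ N * b := by
        intro i n
        have := ih2 i n
        rw [hv, Ideal.span_singleton_pow, Ideal.mem_span_singleton'] at this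
        obtain ⟨a, ha⟩ := this
        exact ⟨a, by rw [← ha, mul_comm]⟩
      choose b hb using hh
      have hρh : ∀ i, ρ i X = X + C (v ^ N) * PowerSeries.mk (b i) := by
        intro i
        ext n
        have := hb i n
        rw [map_sub] at this
        rw [map_add, PowerSeries.coeff_C_mul, PowerSeries.coeff_mk, ← this]
        ring
      have hx := coord_11499 hT hB π v hv0 hv β β' N hN c hc ρ (fun i => PowerSeries.mk (b i)) hρh
        (U.Φ (C X)) (D.φ (C X)) T.v U.lin_x (fun i => by
          have h1 := hS1.lifts (C X)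
          have h2 := hΦ1 (C X)
          rw [hm2x] at h2
          rw [h2, hpx] at h1
          exact congrFun h1 i) (fun i => by
          have h1 := hΦ1 (C X)
          have h2 := hΦ2 (C X)
          rw [hm2x] at h1 h2
          have h3 := hρ2 (C X) i
          rw [h1, h2] at h3
          exact h3)
      have hy := coord_11499 hT hB π v hv0 hv β β' N hN c hc ρ (fun i => PowerSeries.mk (b i)) hρh
        (U.Φ X) (D.φ X) T.w U.lin_y (fun i => by
          have h1 := hS1.lifts X
          have h2 := hΦ1 X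
          rw [hm2y] at h2
          rw [h2, hpy] at h1
          exact congrFun h1 i) (fun i => by
          have h1 := hΦ1 X
          have h2 := hΦ2 X
          rw [hm2y] at h1 h2
          have h3 := hρ2 X i
          rw [h1, h2] at h3
          exact h3)
      have hs : ∑ j, π (c j) • T.σ j = 0 := by
        funext k
        have h1 := congr_sq_11499 hB π β β' N ih1 _ (U.lin_s k)
        have e1 : ∀ γ : OO K T.m →ₐ[K] B,
            γ (U.s k - ∑ j, T.σ j k • (MvPowerSeries.X j : OO K T.m)) =
            γ (U.s k) - ∑ j, T.σ j k • γ (MvPowerSeries.X j) := by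
          intro γ
          rw [map_sub, map_sum]
          congr 1
          refine Finset.sum_congr rfl fun j _ => ?_
          rw [map_smul]
        rw [e1, e1, h k] at h1
        have e2 : β' (U.s k) - ∑ j, T.σ j k • β' (MvPowerSeries.X j) -
            (β' (U.s k) - ∑ j, T.σ j k • β (MvPowerSeries.X j)) =
            v ^ N * (-∑ j, T.σ j k • c j) := by
          have e3 : ∑ j, T.σ j k • β' (MvPowerSeries.X j) = ∑ j, T.σ j k • β (MvPowerSeries.X j) +
              v ^ N * ∑ j, T.σ j k • c j := by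
            rw [Finset.mul_sum, ← Finset.sum_add_distrib]
            refine Finset.sum_congr rfl fun j _ => ?_
            have : β' (MvPowerSeries.X j) = β (MvPowerSeries.X j) + v ^ N * c j := by
              rw [← hc j]; ring
            rw [this, smul_add, mul_smul_comm]
          rw [e3]
          ring
        rw [e2] at h1
        have h2 := cancel_11499 v hv0 hv N _ h1
        rw [mem_iff_11499 π, map_neg, neg_eq_zero, map_sum] at h2
        rw [Finset.sum_apply, Pi.zero_apply, ← h2]
        refine Finset.sum_congr rfl fun j _ => ?_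
        rw [Pi.smul_apply, map_smul, smul_eq_mul, smul_eq_mul, mul_comm]
      have hc0 : (fun j => π (c j)) = 0 := T.indep _ _ hs hx hy
      have hc0' : ∀ j, π (c j) = 0 := fun j => congrFun hc0 j
      have hh0 : ∀ i, PowerSeries.map (π : B →+* K) (PowerSeries.mk (b i)) = 0 := by
        intro i
        by_contra hne
        refine hvel i ⟨?_, ?_⟩
        · have h1 := congrFun hx i
          have h2 : (∑ j, π (c j) • T.v j) i = 0 := by
            rw [Finset.sum_apply]
            refine Finset.sum_eq_zero fun j _ => ?_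
            rw [hc0' j, zero_smul]
            rfl
          rw [h2] at h1
          exact (mul_eq_zero.1 h1.symm).resolve_left hne
        · have h1 := congrFun hy i
          have h2 : (∑ j, π (c j) • T.w j) i = 0 := by
            rw [Finset.sum_apply]
            refine Finset.sum_eq_zero fun j _ => ?_
            rw [hc0' j, zero_smul]
            rfl
          rw [h2] at h1
          exact (mul_eq_zero.1 h1.symm).resolve_left hne
      have hvm : v ∈ maximalIdeal B := by rw [hv]; exact Ideal.mem_span_singleton_self v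
      refine ⟨fun j => ?_, fun i n => ?_⟩
      · rw [hc j, pow_succ]
        exact Ideal.mul_mem_mul (Ideal.pow_mem_pow hvm N) ((mem_iff_11499 π _).2 (hc0' j))
      · rw [hb i n, pow_succ]
        refine Ideal.mul_mem_mul (Ideal.pow_mem_pow hvm N) ((mem_iff_11499 π _).2 ?_)
        have h1 := congrArg (coeff n) (hh0 i)
        rw [PowerSeries.coeff_map, PowerSeries.coeff_mk, map_zero] at h1
        exact h1
  have hXeq : ∀ j, β' (MvPowerSeries.X j) = β (MvPowerSeries.X j) := by
    intro j
    rw [← sub_eq_zero]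
    refine hT.eqA _ fun n => ?_
    rcases Nat.eq_zero_or_pos n with rfl | hn
    · rw [pow_zero]
      simp
    · exact (key n hn).1 j
  exact hB.evm_unique (maximalIdeal B) (fun j => β (MvPowerSeries.X j))
    (fun j => local_11499 π β _ (hXm j)) β β' (fun _ => rfl) hXeq

end U3

end Pool.Agent.Helper819.DC
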