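import Pool.Agent.Helper819.DC.Asm1
import Pool.Agent.Helper819.DC.STR
import Pool.Agent.Helper819.DC.S1
import Pool.Agent.Helper819.DC.S2
import Pool.Agent.Helper819.DC.S3
import Pool.Agent.Helper819.DC.S4
import Pool.Agent.Helper819.DC.LFP
import Pool.Agent.Helper819.DC.DC2
import Pool.Agent.Helper819.DC.U2S
import Pool.Agent.Helper819.DC.U2L
import Pool.Agent.Helper819.DC.PSH
import Pool.Agent.Helper819.DC.ISO
import Pool.Agent.Helper819.DC.U3
import Pool.Agent.Helper819.DC.IM2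
import Pool.Agent.Helper819.DC.DRC
import Pool.Agent.Helper819.DC.DC1
import Pool.Agent.Helper819.DC.DCK
import Pool.Agent.Helper819.DC.FRC
import Pool.Agent.Helper819.DC.NORM1
import Pool.Agent.Helper819.DC.NORM2
import Pool.Agent.Helper819.DC.MVN1
import Pool.Agent.Helper819.DC.MVN2
import Pool.Agent.Helper819.DC.L1A1
import Pool.Agent.Helper819.DC.L1A2
import Pool.Agent.Helper819.DC.ENDO
import Pool.Agent.Helper819.DC.N1D
import Pool.Agent.Helper819.DC.LO
import Pool.Agent.Helper819.DC.CSEL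
import Pool.Agent.Helper819.DC.FINF
import Pool.Agent.Helper819.DC.BIR
import Pool.Agent.Helper819.DC.L1R
import Pool.Agent.Helper819.DC.L1G

set_option autoImplicit false

open PowerSeries IsLocalRing TensorProduct

universe u

namespace Pool.Agent.Helper819.DC

section comm

theorem hclosure {K : Type u} [Field K] [IsAlgClosed K] (E L : Type u) [Field E] [Field L]
    [Algebra K⟦X⟧ E] [IsFractionRing K⟦X⟧ E]
    [Algebra E L] [Algebra K⟦X⟧ L] [IsScalarTower K⟦X⟧ E L] [FiniteDimensional E L] :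
    ∃ e : integralClosure K⟦X⟧ L ≃+* K⟦X⟧,
      ∀ c : K, e (algebraMap K⟦X⟧ (integralClosure K⟦X⟧ L) (C c)) = C c :=
  L1A2.closure_iso (E := E) (L1A1.integral_or_inv (E := E))

theorem hnorm1 {K : Type u} [Field K] [IsAlgClosed K] (D : Type u) [CommRing D] [IsDomain D]
    [Algebra K D] (i : K⟦X⟧ →ₐ[K] D) (hi : Function.Injective i) (hf : i.toRingHom.Finite) :
    ∃ j : D →ₐ[K] K⟦X⟧, Function.Injective j ∧ j.toRingHom.Finite ∧
      ∃ d : D, d ≠ 0 ∧ ∀ w : K⟦X⟧, ∃ a : D, j a = j d * w :=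
  N1D.norm_one_dim hclosure ENDO.endo_finite i hi hf

theorem hnorm (A P : Type u) [CommRing A] [CommRing P] [Algebra A P]
    (hinj : Function.Injective (algebraMap A P)) (d : A)
    (hd : algebraMap A P d ∈ nonZeroDivisors P)
    (hcond : ∀ p : P, ∃ a : A, algebraMap A P a = algebraMap A P d * p)
    (hint : Algebra.IsIntegral A P)
    (hclosed : ∀ x : FractionRing P, IsIntegral P x →
      ∃ p : P, algebraMap P (FractionRing P) p = x) :
    Nonempty (P ≃ₐ[A] integralClosure A (FractionRing A)) :=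
  NORM1.norm_of_conductor hinj d hd hcond hint hclosed

theorem hpi {r : ℕ} (P : Fin r → Type u) [∀ i, CommRing (P i)] [∀ i, IsDomain (P i)]
    [∀ i, IsIntegrallyClosed (P i)] (x : FractionRing (∀ i, P i))
    (hx : IsIntegral (∀ i, P i) x) :
    ∃ p, algebraMap (∀ i, P i) (FractionRing (∀ i, P i)) p = x :=
  NORM2.pi_closed P x hx

end comm

section level

variable {K : Type u} [Field K] {τ r : ℕ} (D : Setup K τ r)
  {B : Type u} [CommRing B] [IsDomain B] [IsDiscreteValuationRing B]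
  [IsAdicComplete (maximalIdeal B) B] [Algebra K B] (π : B →ₐ[K] K) (v : B)
  (hv : maximalIdeal B = Ideal.span {v})

include hv in
theorem str (s : Fin τ → B) (Φ : Par B r) (hsim : SimPar D π s Φ) :
    RingHom.ker Φ = Ideal.span {D.F s} ∧ (Φ : B⟦X⟧⟦X⟧ →+* (Fin r → B⟦X⟧)).Finite ∧
    Nonempty (Module.Basis (Fin D.delta) B ((Fin r → B⟦X⟧) ⧸ LinearMap.range Φ.toLinearMap)) ∧
    ∃ c : B⟦X⟧⟦X⟧, (∀ i, mapP (π : B →+* K) (Φ c) i ≠ 0) ∧ ∀ w, ∃ a, Φ a = Φ c * w :=
  STR.structure_thm tools baseFacts D π v hv s Φ hsim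

include hv in
theorem iso_all (s : Fin τ → B) (Φ Φ' : Par B r) (hsim : SimPar D π s Φ)
    (hsim' : SimPar D π s Φ') :
    ∃ ρ : Fin r → (B⟦X⟧ →ₐ[B] B⟦X⟧), (∀ i, PowerSeries.map (π : B →+* K) (ρ i X) = X) ∧
      ∀ h i, Φ' h i = ρ i (Φ h i) :=
  ISO.iso tools baseFacts D π v hv MVN2.ps_integrallyClosed hnorm hpi (str D π v hv) s Φ Φ'
    hsim hsim'

include hv in
theorem u2_all (T : TBasis D) (U : UnivFam D T) (s : Fin τ → B) (Ψ : Par B r)
    (hsim : SimPar D π s Ψ) :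
    ∃ (β : OO K T.m →ₐ[K] B) (ρ : Fin r → (B⟦X⟧ →ₐ[B] B⟦X⟧)),
      (∀ i, PowerSeries.map (π : B →+* K) (ρ i X) = X) ∧ (∀ j, β (U.s j) = s j) ∧
      (Ψ (C X) = fun i => ρ i (mapP (β : OO K T.m →+* B) (U.Φ (C X)) i)) ∧
      (Ψ X = fun i => ρ i (mapP (β : OO K T.m →+* B) (U.Φ X) i)) :=
  U2L.u2 tools baseFacts D T U π v hv s Ψ hsim
    (fun k hk β ρ hρ h1 h2 h3 =>
      U2S.u2_step tools baseFacts D T U π v hv s Ψ hsim k hk β ρ hρ h1 h2 h3)

theorem push_all (T : TBasis D) (U : UnivFam D T) (ψ : OO K T.m →ₐ[K] B) :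
    ∃ Φ' : Par B r,
      (∀ h, Φ' (map2 (ψ : OO K T.m →+* B) h) = mapP (ψ : OO K T.m →+* B) (U.Φ h)) ∧
        SimPar D π (fun k => ψ (U.s k)) Φ' :=
  PSH.push_sim tools D U.π π ψ U.s U.Φ U.sim

include π hv in
theorem u3_all (T : TBasis D) (U : UnivFam D T) (β β' : OO K T.m →ₐ[K] B)
    (h : ∀ j, β (U.s j) = β' (U.s j)) : β = β' :=
  U3.u3 tools baseFacts D T U (hvel D) π v hv (push_all D π T U) (iso_all D π v hv) β β' h

include π hv in
theorem imm_all [Infinite K] (T : TBasis D) (U : UnivFam D T) :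
    ∃ (β₀ : OO K T.m →ₐ[K] B) (Φ₀ : Par B r),
      (∀ h, Φ₀ (map2 (β₀ : OO K T.m →+* B) h) = mapP (β₀ : OO K T.m →+* B) (U.Φ h)) ∧
      SimPar D π (fun k => β₀ (U.s k)) Φ₀ ∧
      ∃ (k : ℕ) (a b : Fin r → B⟦X⟧),
        a * dP (Φ₀ (C X)) + b * dP (Φ₀ X) = fun _ => C (v ^ k) :=
  IM2.exists_immersed_arc tools baseFacts D T U π v hv
    (fun ρ hρ => PSH.rho_bij baseFacts π ρ hρ) (fun ρ w => PSH.rho_chain baseFacts ρ w)
    (push_all D π T U) (u2_all D π v hv T U)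
    (IMM.exists_immersed tools baseFacts D (uni_all D) (hvel D) π v hv)

include hv in
theorem derc_all (T : TBasis D) (U : UnivFam D T)
    (β₀ : OO K T.m →ₐ[K] B) (Φ₀ : Par B r)
    (hΦ₀ : ∀ h, Φ₀ (map2 (β₀ : OO K T.m →+* B) h) = mapP (β₀ : OO K T.m →+* B) (U.Φ h))
    (hsim : SimPar D π (fun k => β₀ (U.s k)) Φ₀) (k : ℕ) (a b : Fin r → B⟦X⟧)
    (hab : a * dP (Φ₀ (C X)) + b * dP (Φ₀ X) = fun _ => C (v ^ k))
    (δ : OO K T.m →ₗ[K] B) (hleib : ∀ x y, δ (x * y) = β₀ x * δ y + β₀ y * δ x)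
    (hs : ∀ j, δ (U.s j) = 0) : δ = 0 :=
  DRC.derc tools baseFacts D T U (hgrad D) (hvel D) (fun A _ _ _ _ => COMP3.complete_dual)
    π v hv β₀ Φ₀ hΦ₀ hsim k a b hab δ hleib hs

include hv in
theorem dc1_all (s : Fin τ → B) (Φ : Par B r) (hsim : SimPar D π s Φ)
    {E : Type u} [Field E] [Algebra B E] (hE : Function.Injective (algebraMap B E))
    (hdom : IsDomain (E ⊗[B] B⟦X⟧)) (hic : IsIntegrallyClosed (E ⊗[B] B⟦X⟧)) :
    DC.delta E (Fibre B E (D.F s)) = (D.delta : Cardinal) :=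
  DC1.dc1 tools baseFacts D π v hv hnorm hpi (str D π v hv) s Φ hsim hE hdom hic

theorem hmain_all {E : Type u} [Field E] [Algebra B E] [IsFractionRing B E]
    (R AE : Type u) [CommRing R] [IsLocalRing R] [IsNoetherianRing R]
    [Algebra B R] [CommRing AE] [Algebra E AE] [Algebra B AE] [IsScalarTower B E AE]
    [Algebra R AE] [IsScalarTower B R AE] (n : ℕ) (Z : Sit K B E R AE r n)
    [IsLocalization.Away (algebraMap B R Z.v) AE] :
    ∃ κM : integralClosure R (FractionRing AE) →+* (Fin r → K⟦X⟧),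
      Function.Surjective κM ∧
      RingHom.ker κM = Ideal.span {algebraMap R _ (algebraMap B R Z.v)} ∧
      (∀ a : R, κM (algebraMap R _ a) = Z.κ a) ∧
      Module.Finite R (integralClosure R (FractionRing AE)) ∧
      algebraMap R (integralClosure R (FractionRing AE)) (algebraMap B R Z.v) ∈
        nonZeroDivisors (integralClosure R (FractionRing AE)) := by
  obtain ⟨w, hw, h1⟩ := S1.part1 Z
  obtain ⟨hinj, h2, h3, h4, h5, h6⟩ := S2.part2 Z w hw h1
  obtain ⟨b, hb1, hb2⟩ := S3.part3 Z w hw h1 hinj h2 h3 h4 h5 h6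
  obtain ⟨κM, k1, k2, k3⟩ := S4.part4 Z w hw h1 hinj h2 h3 h4 h5 h6 b hb1 hb2
  refine ⟨κM, k1, k2, k3, h6, ?_⟩
  rw [mem_nonZeroDivisors_iff_right]
  intro x hx
  have hx' : (x : FractionRing AE) * algebraMap R (FractionRing AE) (algebraMap B R Z.v) = 0 := by
    have := congrArg (Subtype.val) hx
    simpa using this
  have : (x : FractionRing AE) = 0 := by
    exact (h5.mul_left_eq_zero).mp hx'
  exact Subtype.ext this

include hv in
theorem dc2_all (hr : 0 < r) {E : Type u} [Field E] [Algebra B E] [IsFractionRing B E]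
    (s : Fin τ → B) (hs : ∀ k, s k ∈ maximalIdeal B)
    (hδ : DC.delta E (Fibre B E (D.F s)) = (D.delta : Cardinal)) :
    ∃ Φ : Par B r, SimPar D π s Φ :=
  DC2.dc2 tools baseFacts D hr π v hv (fun R AE _ _ _ _ _ _ _ _ _ _ n Z _ => hmain_all R AE n Z)
    (fun M _ _ κ hfin hnzd κb hsurj hker hcomp =>
      LFP.liftp tools baseFacts D.φ π v hv κ hfin hnzd κb hsurj hker hcomp) s hs hδ

end level

end Pool.Agent.Helper819.DC
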