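import Pool.Agent.Helper819.DC.Asm2

set_option autoImplicit false

open PowerSeries IsLocalRing TensorProduct

universe u

namespace Pool.Agent.Helper819.DC

section

variable {K : Type u} [Field K]

/-- the augmentation of `K[[v]]` -/
noncomputable def piPS (K : Type u) [Field K] : K⟦X⟧ →ₐ[K] K :=
  { (PowerSeries.constantCoeff (R := K)) with
    commutes' := fun c => by
      show PowerSeries.constantCoeff (algebraMap K K⟦X⟧ c) = _
      simp [PowerSeries.algebraMap_apply] }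

theorem maxPS : maximalIdeal K⟦X⟧ = Ideal.span {(X : K⟦X⟧)} := PowerSeries.maximalIdeal_eq_span_X

instance : IsAdicComplete (maximalIdeal K⟦X⟧) K⟦X⟧ := COMP2.complete_powerSeries_field

instance (m : ℕ) : IsAdicComplete (maximalIdeal (OO K m)) (OO K m) := COMP2.complete_mvPowerSeries

instance (m : ℕ) : IsDomain (OO K m) := MVN1.mv_integrallyClosed.1

theorem exists_theta {τ r : ℕ} (D : Setup K τ r) (T : TBasis D) (U : UnivFam D T) :
    ∃ θ : OO K τ →ₐ[K] OO K T.m, ∀ k, θ (MvPowerSeries.X k) = U.s k :=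
  baseFacts.evm_exists (maximalIdeal (OO K T.m)) U.s U.sim.mem

/-- the augmentation of `K[[z]]` -/
theorem exists_aug (m : ℕ) : ∃ π : OO K m →ₐ[K] K, ∀ a ∈ maximalIdeal (OO K m), π a = 0 := by
  obtain ⟨π, hπ⟩ := baseFacts.evm_exists (K := K) (T := K) (σ := Fin m) (⊥ : Ideal K)
    (fun _ => 0) (fun _ => Ideal.zero_mem _)
  refine ⟨π, fun a ha => ?_⟩
  by_contra h
  have h1 : IsUnit (algebraMap K (OO K m) (π a)) := (IsUnit.mk0 _ h).map _
  have h2 : a - algebraMap K (OO K m) (π a) ∉ maximalIdeal (OO K m) := by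
    intro h3
    have := Ideal.sub_mem _ ha h3
    rw [sub_sub_cancel] at this
    exact (mem_maximalIdeal _).mp this h1
  have h3 : IsUnit (a - algebraMap K (OO K m) (π a)) := by
    rwa [mem_maximalIdeal, mem_nonunits_iff, not_not] at h2
  have h4 := h3.map π
  rw [map_sub, AlgHom.commutes] at h4
  simp at h4

theorem exists_triv (m : ℕ) : ∃ β : OO K m →ₐ[K] K⟦X⟧, ∀ a ∈ maximalIdeal (OO K m), β a = 0 := by
  obtain ⟨π, hπ⟩ := exists_aug (K := K) m
  exact ⟨(Algebra.ofId K K⟦X⟧).comp π, fun a ha => by simp [hπ a ha]⟩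

variable [IsAlgClosed K]

theorem theta_finite {τ r : ℕ} (D : Setup K τ r) (T : TBasis D) (U : UnivFam D T)
    (θ : OO K τ →ₐ[K] OO K T.m) (hθ : ∀ k, θ (MvPowerSeries.X k) = U.s k) :
    θ.toRingHom.Finite := by
  have hloc : ∀ a ∈ maximalIdeal (OO K τ), θ a ∈ maximalIdeal (OO K T.m) := by
    obtain ⟨π', hπ'⟩ := exists_aug (K := K) τ
    exact fun a ha => PSH.map_max π' U.π θ a ha
  refine FINF.finite_of_fibre θ ?_ ?_
  · refine ⟨fun a ha => ?_⟩
    by_contra h
    have : a ∈ maximalIdeal (OO K τ) := (mem_maximalIdeal _).mpr h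
    exact (mem_maximalIdeal _).mp (hloc a this) ha
  · by_contra hnf
    obtain ⟨β, hβ1, hβ2⟩ := CSEL.curve_selection (fun D _ _ _ i hi hf => hnorm1 D i hi hf)
      (O := OO K T.m) COMP2.residue_mv _ hnf
    obtain ⟨β', hβ'⟩ := exists_triv (K := K) T.m
    have : β = β' := by
      refine u3_all D (piPS K) X maxPS T U β β' (fun j => ?_)
      rw [hβ' _ (U.sim.mem j)]
      refine hβ1 ?_
      rw [← hθ]
      refine Ideal.mem_map_of_mem θ.toRingHom ?_
      rw [mem_maximalIdeal, mem_nonunits_iff]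
      intro h
      have := h.map (MvPowerSeries.constantCoeff (σ := Fin τ) (R := K))
      simp at this
    apply hβ2
    intro a ha
    rw [RingHom.mem_ker, this, hβ' a ha]

theorem theta_birational {τ r : ℕ} (D : Setup K τ r) (T : TBasis D) (U : UnivFam D T)
    (θ : OO K τ →ₐ[K] OO K T.m) (hθ : ∀ k, θ (MvPowerSeries.X k) = U.s k) :
    ∃ s, θ s ≠ 0 ∧ ∀ o : OO K T.m, ∃ s', θ s' = θ s * o := by
  obtain ⟨β₀, Φ₀, h1, h2, k, a, b, h3⟩ := imm_all D (piPS K) X maxPS T U
  refine BIR.birational hclosure θ (theta_finite D T U θ hθ) (fun b b' h => ?_) β₀ ?_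
  · refine u3_all D (piPS K) X maxPS T U b b' (fun j => ?_)
    rw [← hθ]
    exact congrArg (fun F : OO K τ →ₐ[K] K⟦X⟧ => F (MvPowerSeries.X j)) h
  · intro δ hleib hs
    refine derc_all D (piPS K) X maxPS T U β₀ Φ₀ h1 h2 k a b h3 δ hleib (fun j => ?_)
    rw [← hθ]
    exact hs _

/-- the universal base is the normalisation of its image -/
theorem theta_norm {τ r : ℕ} (D : Setup K τ r) (T : TBasis D) (U : UnivFam D T)
    (θ : OO K τ →ₐ[K] OO K T.m) (hθ : ∀ k, θ (MvPowerSeries.X k) = U.s k) :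
    Nonempty (integralClosure (OO K τ ⧸ RingHom.ker θ) (FractionRing (OO K τ ⧸ RingHom.ker θ))
      ≃ₐ[K] OO K T.m) := by
  letI : Algebra (OO K τ ⧸ RingHom.ker θ) (OO K T.m) :=
    (Ideal.Quotient.lift (RingHom.ker θ) (θ : OO K τ →+* OO K T.m) (fun a ha => ha)).toAlgebra
  have hmap : ∀ a, algebraMap (OO K τ ⧸ RingHom.ker θ) (OO K T.m)
      (Ideal.Quotient.mk _ a) = θ a := fun a => rfl
  haveI : IsScalarTower K (OO K τ ⧸ RingHom.ker θ) (OO K T.m) := by
    refine IsScalarTower.of_algebraMap_eq (R := K) (S := OO K τ ⧸ RingHom.ker θ)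
      (A := OO K T.m) (fun c => ?_)
    have : algebraMap K (OO K τ ⧸ RingHom.ker θ) c =
      Ideal.Quotient.mk _ (algebraMap K (OO K τ) c) := rfl
    rw [this, hmap, AlgHom.commutes]
  obtain ⟨s, hs, hcond⟩ := theta_birational D T U θ hθ
  haveI : IsIntegrallyClosed (OO K T.m) := MVN1.mv_integrallyClosed.2
  have hinj : Function.Injective (algebraMap (OO K τ ⧸ RingHom.ker θ) (OO K T.m)) := by
    rw [injective_iff_map_eq_zero]
    intro a ha
    obtain ⟨a, rfl⟩ := Ideal.Quotient.mk_surjective a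
    rw [hmap] at ha
    exact Ideal.Quotient.eq_zero_iff_mem.mpr ha
  obtain ⟨e⟩ := hnorm (OO K τ ⧸ RingHom.ker θ) (OO K T.m) hinj (Ideal.Quotient.mk _ s)
    (by rw [hmap]; exact mem_nonZeroDivisors_of_ne_zero hs)
    (fun o => by
      obtain ⟨s', hs'⟩ := hcond o
      exact ⟨Ideal.Quotient.mk _ s', by rw [hmap, hmap, hs']⟩)
    (by
      constructor
      intro x
      have h1 : (θ : OO K τ →+* OO K T.m).IsIntegralElem x :=
        (theta_finite D T U θ hθ).to_isIntegral x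
      obtain ⟨p, hp, hp'⟩ := h1
      refine ⟨p.map (Ideal.Quotient.mk _), hp.map _, ?_⟩
      rw [Polynomial.eval₂_map]
      exact hp')
    (fun x hx => (IsIntegrallyClosed.isIntegral_iff).mp hx)
  exact ⟨(e.restrictScalars K).symm⟩

/-- arcs with a simultaneous parametrisation kill the kernel of `θ` -/
theorem ker_le_of_simPar {τ r : ℕ} (D : Setup K τ r) (T : TBasis D) (U : UnivFam D T)
    (θ : OO K τ →ₐ[K] OO K T.m) (hθ : ∀ k, θ (MvPowerSeries.X k) = U.s k)
    {B : Type u} [CommRing B] [IsDomain B] [IsDiscreteValuationRing B]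
    [IsAdicComplete (maximalIdeal B) B] [Algebra K B] (π : B →ₐ[K] K)
    (α : OO K τ →ₐ[K] B) (Φ : Par B r)
    (hsim : SimPar D π (fun k => α (MvPowerSeries.X k)) Φ) : RingHom.ker θ ≤ RingHom.ker α := by
  obtain ⟨v, hv⟩ := (IsPrincipalIdealRing.principal (maximalIdeal B)).principal
  obtain ⟨β, ρ, -, h2, -, -⟩ := u2_all D π v hv T U _ Φ hsim
  have h : β.comp θ = α := by
    refine baseFacts.evm_unique (maximalIdeal B) (fun k => α (MvPowerSeries.X k)) hsim.mem _ _
      (fun k => ?_) (fun k => rfl)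
    rw [AlgHom.comp_apply, hθ, h2]
  intro a ha
  rw [RingHom.mem_ker] at ha ⊢
  rw [← h, AlgHom.comp_apply, ha, map_zero]

end

end Pool.Agent.Helper819.DC
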