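import Pool.Agent.Helper819.DC.Core3

set_option autoImplicit false

open PowerSeries IsLocalRing TensorProduct

universe u

namespace Pool.Agent.Helper819.DC


namespace BC

theorem bc_general_11719 {A B R S : Type u} [CommRing A] [CommRing B] [CommRing R] [CommRing S]
    [Algebra A B] [Algebra A R] [Algebra A S] [Algebra B S] [IsScalarTower A B S]
    (m : R →ₐ[A] S) {ι : Type u} [Fintype ι] (b : Module.Basis ι A B)
    (hinj : ∀ r : ι → R, ∑ i, b i • m (r i) = 0 → r = 0)
    (hsurj : ∀ s : S, ∃ r : ι → R, s = ∑ i, b i • m (r i)) :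
    ∃ e : B ⊗[A] R ≃ₐ[B] S, ∀ r, e (1 ⊗ₜ r) = m r := by
  classical
  let φ : B ⊗[A] R →ₐ[B] S :=
    Algebra.TensorProduct.lift (Algebra.ofId B S) m (fun _ _ => Commute.all _ _)
  have hφ : ∀ (x : B) (r : R), φ (x ⊗ₜ r) = x • m r := by
    intro x r
    simp [φ, Algebra.TensorProduct.lift_tmul, Algebra.smul_def, Algebra.ofId_apply]
  have hrep : ∀ x : B ⊗[A] R, ∃ r : ι → R, x = ∑ i, b i ⊗ₜ[A] r i := by
    intro x
    induction x using TensorProduct.induction_on with
    | zero => exact ⟨0, by simp⟩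
    | tmul x r =>
      refine ⟨fun i => b.repr x i • r, ?_⟩
      conv_lhs => rw [← b.sum_repr x]
      rw [TensorProduct.sum_tmul]
      exact Finset.sum_congr rfl fun i _ => by rw [TensorProduct.smul_tmul]
    | add x y hx hy =>
      obtain ⟨r, hr⟩ := hx
      obtain ⟨r', hr'⟩ := hy
      refine ⟨r + r', ?_⟩
      rw [hr, hr', ← Finset.sum_add_distrib]
      exact Finset.sum_congr rfl fun i _ => by rw [Pi.add_apply, TensorProduct.tmul_add]
  have hbij : Function.Bijective φ := by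
    constructor
    · rw [injective_iff_map_eq_zero]
      intro x hx
      obtain ⟨r, rfl⟩ := hrep x
      rw [map_sum] at hx
      simp_rw [hφ] at hx
      rw [hinj r hx]; simp
    · intro s
      obtain ⟨r, rfl⟩ := hsurj s
      exact ⟨∑ i, b i ⊗ₜ r i, by rw [map_sum]; simp_rw [hφ]⟩
  exact ⟨AlgEquiv.ofBijective φ hbij, fun r => by rw [AlgEquiv.coe_ofBijective, hφ, one_smul]⟩

theorem bc_inj_11719 {A B : Type u} [CommRing A] [CommRing B] [Algebra A B] {ι : Type u}
    [Fintype ι] (b : Module.Basis ι A B) (c : ι → A)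
    (h : ∑ i, b i * algebraMap A B (c i) = 0) : c = 0 := by
  have h1 : ∑ i, c i • b i = 0 := by
    rw [← h]
    exact Finset.sum_congr rfl fun i _ => by rw [Algebra.smul_def, mul_comm]
  have h2 := Fintype.linearIndependent_iff.1 b.linearIndependent c h1
  exact funext h2

theorem bc_surj_11719 {A B : Type u} [CommRing A] [CommRing B] [Algebra A B] {ι : Type u}
    [Fintype ι] (b : Module.Basis ι A B) (x : B) :
    x = ∑ i, b i * algebraMap A B (b.repr x i) := by
  conv_lhs => rw [← b.sum_repr x]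
  exact Finset.sum_congr rfl fun i _ => by rw [Algebra.smul_def, mul_comm]

theorem bc_one_11719 {A B : Type u} [CommRing A] [CommRing B]
    [Algebra A B] [Module.Finite A B] [Module.Free A B] :
    ∃ e : B ⊗[A] A⟦X⟧ ≃ₐ[B] B⟦X⟧, ∀ h, e (1 ⊗ₜ h) = PowerSeries.map (algebraMap A B) h := by
  classical
  let ι := Module.Free.ChooseBasisIndex A B
  let b : Module.Basis ι A B := Module.Free.chooseBasis A B
  obtain ⟨e, he⟩ := bc_general_11719 (PowerSeries.mapAlgHom (Algebra.ofId A B)) b (by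
    intro r hr
    funext i
    ext n
    have h1 := congrArg (PowerSeries.coeff n) hr
    rw [map_sum, map_zero] at h1
    have h2 : ∑ i, b i * algebraMap A B (PowerSeries.coeff n (r i)) = 0 := by
      rw [← h1]
      refine Finset.sum_congr rfl fun i _ => ?_
      rw [PowerSeries.coeff_smul]
      rfl
    have h3 := congrFun (bc_inj_11719 b _ h2) i
    simpa using h3) (by
    intro s
    refine ⟨fun i => PowerSeries.mk fun n => b.repr (PowerSeries.coeff n s) i, ?_⟩
    ext n
    rw [map_sum]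
    conv_lhs => rw [bc_surj_11719 b (PowerSeries.coeff n s)]
    refine Finset.sum_congr rfl fun i _ => ?_
    rw [PowerSeries.coeff_smul]
    change _ = b i * (PowerSeries.coeff n) (PowerSeries.map (algebraMap A B) _)
    rw [PowerSeries.coeff_map, PowerSeries.coeff_mk])
  exact ⟨e, he⟩

theorem bc_two_11719 {A B : Type u} [CommRing A] [CommRing B]
    [Algebra A B] [Module.Finite A B] [Module.Free A B] :
    ∃ e : B ⊗[A] A⟦X⟧⟦X⟧ ≃ₐ[B] B⟦X⟧⟦X⟧, ∀ h, e (1 ⊗ₜ h) =
      PowerSeries.mapAlgHom (PowerSeries.mapAlgHom (Algebra.ofId A B)) h := by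
  classical
  let ι := Module.Free.ChooseBasisIndex A B
  let b : Module.Basis ι A B := Module.Free.chooseBasis A B
  refine bc_general_11719 (PowerSeries.mapAlgHom (PowerSeries.mapAlgHom (Algebra.ofId A B))) b
    ?_ ?_
  · intro r hr
    funext i
    ext k n
    have h1 := congrArg (fun u => PowerSeries.coeff n (PowerSeries.coeff k u)) hr
    simp only [map_sum, map_zero] at h1
    have h2 : ∑ i, b i * algebraMap A B (PowerSeries.coeff n (PowerSeries.coeff k (r i))) = 0 := by
      rw [← h1]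
      refine Finset.sum_congr rfl fun i _ => ?_
      rw [PowerSeries.coeff_smul, PowerSeries.coeff_smul]
      rfl
    have h3 := congrFun (bc_inj_11719 b _ h2) i
    simpa using h3
  · intro s
    refine ⟨fun i => PowerSeries.mk fun k => PowerSeries.mk fun n =>
      b.repr (PowerSeries.coeff n (PowerSeries.coeff k s)) i, ?_⟩
    ext k n
    rw [map_sum, map_sum]
    conv_lhs => rw [bc_surj_11719 b (PowerSeries.coeff n (PowerSeries.coeff k s))]
    refine Finset.sum_congr rfl fun i _ => ?_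
    rw [PowerSeries.coeff_smul, PowerSeries.coeff_smul]
    change _ = b i * algebraMap A B (PowerSeries.coeff n (PowerSeries.coeff k
      (PowerSeries.mk fun k => PowerSeries.mk fun n =>
        b.repr (PowerSeries.coeff n (PowerSeries.coeff k s)) i)))
    rw [PowerSeries.coeff_mk, PowerSeries.coeff_mk]

theorem bc_fibre_11719 {A B Ω R S : Type u} [CommRing A] [CommRing B] [CommRing Ω] [CommRing R]
    [CommRing S] [Algebra A B] [Algebra A Ω] [Algebra B Ω] [IsScalarTower A B Ω] [Algebra A R]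
    [Algebra A S] [Algebra B S] [IsScalarTower A B S] (m : R →ₐ[A] S) (e : B ⊗[A] R ≃ₐ[B] S)
    (he : ∀ r, e (1 ⊗ₜ r) = m r) (G : R) :
    Nonempty (Ω ⊗[A] (R ⧸ Ideal.span {G}) ≃ₐ[Ω] Ω ⊗[B] (S ⧸ Ideal.span {m G})) := by
  -- the forward map
  let g0 : R →ₐ[A] Ω ⊗[B] (S ⧸ Ideal.span {m G}) :=
    ((Algebra.TensorProduct.includeRight : (S ⧸ Ideal.span {m G}) →ₐ[B]
      Ω ⊗[B] (S ⧸ Ideal.span {m G})).restrictScalars A).comp
      ((Ideal.Quotient.mkₐ A (Ideal.span {m G})).comp m)
  have hg0 : ∀ r, g0 r = 1 ⊗ₜ (Ideal.Quotient.mk _ (m r)) := fun r => rfl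
  let g1 : (R ⧸ Ideal.span {G}) →ₐ[A] Ω ⊗[B] (S ⧸ Ideal.span {m G}) :=
    Ideal.Quotient.liftₐ _ g0 (by
      intro a ha
      obtain ⟨c, rfl⟩ := Ideal.mem_span_singleton'.1 ha
      rw [map_mul, hg0 G, Ideal.Quotient.eq_zero_iff_mem.2 (Ideal.mem_span_singleton_self _),
        TensorProduct.tmul_zero, mul_zero])
  have hg1 : ∀ r, g1 (Ideal.Quotient.mk _ r) = 1 ⊗ₜ (Ideal.Quotient.mk _ (m r)) := fun r => rfl
  let F : Ω ⊗[A] (R ⧸ Ideal.span {G}) →ₐ[Ω] Ω ⊗[B] (S ⧸ Ideal.span {m G}) :=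
    Algebra.TensorProduct.lift (Algebra.ofId Ω _) g1 (fun _ _ => Commute.all _ _)
  have hF : ∀ (w : Ω) (r : R), F (w ⊗ₜ (Ideal.Quotient.mk _ r)) =
      w ⊗ₜ (Ideal.Quotient.mk _ (m r)) := by
    intro w r
    rw [Algebra.TensorProduct.lift_tmul, hg1, Algebra.ofId_apply,
      Algebra.TensorProduct.algebraMap_apply, Algebra.TensorProduct.tmul_mul_tmul]
    simp
  -- the backward map
  let k0 : R →ₐ[A] Ω ⊗[A] (R ⧸ Ideal.span {G}) :=
    (Algebra.TensorProduct.includeRight : (R ⧸ Ideal.span {G}) →ₐ[A]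
      Ω ⊗[A] (R ⧸ Ideal.span {G})).comp (Ideal.Quotient.mkₐ A (Ideal.span {G}))
  have hk0 : ∀ r, k0 r = 1 ⊗ₜ (Ideal.Quotient.mk _ r) := fun r => rfl
  let k1 : B ⊗[A] R →ₐ[B] Ω ⊗[A] (R ⧸ Ideal.span {G}) :=
    Algebra.TensorProduct.lift (Algebra.ofId B _) k0 (fun _ _ => Commute.all _ _)
  have hk1 : ∀ (x : B) (r : R), k1 (x ⊗ₜ r) = (algebraMap B Ω x) ⊗ₜ (Ideal.Quotient.mk _ r) := by
    intro x r
    rw [Algebra.TensorProduct.lift_tmul, hk0, Algebra.ofId_apply,
      Algebra.TensorProduct.algebraMap_apply, Algebra.TensorProduct.tmul_mul_tmul]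
    simp
  let k2 : (S ⧸ Ideal.span {m G}) →ₐ[B] Ω ⊗[A] (R ⧸ Ideal.span {G}) :=
    Ideal.Quotient.liftₐ _ (k1.comp (e.symm : S →ₐ[B] B ⊗[A] R)) (by
      intro a ha
      obtain ⟨c, rfl⟩ := Ideal.mem_span_singleton'.1 ha
      rw [map_mul]
      have h1 : (k1.comp (e.symm : S →ₐ[B] B ⊗[A] R)) (m G) = 0 := by
        show k1 (e.symm (m G)) = 0
        rw [← he, AlgEquiv.symm_apply_apply, hk1,
          Ideal.Quotient.eq_zero_iff_mem.2 (Ideal.mem_span_singleton_self _),
          TensorProduct.tmul_zero]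
      rw [h1, mul_zero])
  have hk2 : ∀ t : B ⊗[A] R, k2 (Ideal.Quotient.mk _ (e t)) = k1 t := by
    intro t
    show k1 (e.symm (e t)) = k1 t
    rw [AlgEquiv.symm_apply_apply]
  let H : Ω ⊗[B] (S ⧸ Ideal.span {m G}) →ₐ[Ω] Ω ⊗[A] (R ⧸ Ideal.span {G}) :=
    Algebra.TensorProduct.lift (Algebra.ofId Ω _) k2 (fun _ _ => Commute.all _ _)
  have hH : ∀ (w : Ω) (t : B ⊗[A] R), H (w ⊗ₜ (Ideal.Quotient.mk _ (e t))) =
      algebraMap Ω _ w * k1 t := by
    intro w t
    rw [Algebra.TensorProduct.lift_tmul, hk2, Algebra.ofId_apply]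
  have hHF : ∀ z, H (F z) = z := by
    intro z
    induction z using TensorProduct.induction_on with
    | zero => simp
    | tmul w r =>
      obtain ⟨r, rfl⟩ := Ideal.Quotient.mk_surjective r
      have h0 := hH w (1 ⊗ₜ r)
      rw [he] at h0
      rw [hF, h0, hk1, Algebra.TensorProduct.algebraMap_apply,
        Algebra.TensorProduct.tmul_mul_tmul]
      simp
    | add x y hx hy => rw [map_add, map_add, hx, hy]
  have hFH : ∀ z, F (H z) = z := by
    intro z
    induction z using TensorProduct.induction_on with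
    | zero => simp
    | tmul w s =>
      obtain ⟨s, rfl⟩ := Ideal.Quotient.mk_surjective s
      obtain ⟨t, rfl⟩ := e.surjective s
      rw [hH]
      induction t using TensorProduct.induction_on with
      | zero => simp
      | tmul x r =>
        rw [hk1, Algebra.TensorProduct.algebraMap_apply, Algebra.TensorProduct.tmul_mul_tmul,
          one_mul, hF]
        have h1 : (x ⊗ₜ[A] r : B ⊗[A] R) = x • ((1 : B) ⊗ₜ[A] r) := by
          rw [TensorProduct.smul_tmul']; simp
        rw [h1, map_smul, he]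
        have h2 : (Ideal.Quotient.mk (Ideal.span {m G})) (x • m r) =
          x • (Ideal.Quotient.mk (Ideal.span {m G})) (m r) := rfl
        rw [h2, TensorProduct.tmul_smul, TensorProduct.smul_tmul']
        congr 1
        simp [Algebra.smul_def, mul_comm]
      | add x y hx hy =>
        rw [map_add, mul_add, map_add, hx, hy, map_add, map_add, TensorProduct.tmul_add]
    | add x y hx hy => rw [map_add, map_add, hx, hy]
  exact ⟨AlgEquiv.ofAlgHom F H (AlgHom.ext hFH) (AlgHom.ext hHF)⟩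

/-- power series commute with finite base change -/
theorem base_change_one {A B : Type u} [CommRing A] [IsNoetherianRing A] [CommRing B]
    [Algebra A B] [Module.Finite A B] [Module.Free A B] :
    ∃ e : B ⊗[A] A⟦X⟧ ≃ₐ[B] B⟦X⟧, ∀ h, e (1 ⊗ₜ h) = PowerSeries.map (algebraMap A B) h :=
  bc_one_11719

theorem base_change_fibre {A B Ω : Type u} [CommRing A] [IsNoetherianRing A] [CommRing B]
    [Algebra A B] [Module.Finite A B] [Module.Free A B] [CommRing Ω] [Algebra A Ω] [Algebra B Ω]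
    [IsScalarTower A B Ω] (G : A⟦X⟧⟦X⟧) :
    Nonempty (Fibre A Ω G ≃ₐ[Ω] Fibre B Ω (map2 (algebraMap A B) G)) := by
  obtain ⟨e, he⟩ := bc_two_11719 (A := A) (B := B)
  exact bc_fibre_11719 (Ω := Ω) _ e he G

end BC

end Pool.Agent.Helper819.DC
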