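import Pool.Agent.Helper819.DC.Core3

set_option autoImplicit false

open PowerSeries IsLocalRing TensorProduct

universe u

namespace Pool.Agent.Helper819.DC


namespace CLG

/-- The integral closure of `B ≅ K[[x]]` in a finite extension of its fraction field. -/
theorem closure_iso' {K : Type u} [Field K] [IsAlgClosed K]
    (hclosure : ∀ (E L : Type u) [Field E] [Field L] [Algebra K⟦X⟧ E] [IsFractionRing K⟦X⟧ E]
      [Algebra E L] [Algebra K⟦X⟧ L] [IsScalarTower K⟦X⟧ E L] [FiniteDimensional E L],
      ∃ e : integralClosure K⟦X⟧ L ≃+* K⟦X⟧,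
        ∀ c : K, e (algebraMap K⟦X⟧ (integralClosure K⟦X⟧ L) (C c)) = C c)
    (hfin : ∀ ω : K⟦X⟧ →ₐ[K] K⟦X⟧, Function.Injective ω → (ω : K⟦X⟧ →+* K⟦X⟧).Finite)
    {B : Type u} [CommRing B] [IsDomain B] [Algebra K B] (eB : B ≃ₐ[K] K⟦X⟧)
    {E L : Type u} [Field E] [Field L] [Algebra B E] [IsFractionRing B E]
    [Algebra E L] [Algebra B L] [IsScalarTower B E L] [FiniteDimensional E L] :
    (∃ e : integralClosure B L ≃+* K⟦X⟧,
      ∀ c : K, e (algebraMap B (integralClosure B L) (algebraMap K B c)) = C c) ∧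
    Module.Finite B (integralClosure B L) := by
  letI i1 : Algebra K⟦X⟧ E := ((algebraMap B E).comp (eB.symm : K⟦X⟧ →+* B)).toAlgebra
  letI i2 : Algebra K⟦X⟧ L := ((algebraMap B L).comp (eB.symm : K⟦X⟧ →+* B)).toAlgebra
  have h1 : ∀ x : K⟦X⟧, algebraMap K⟦X⟧ E x = algebraMap B E (eB.symm x) := fun x => rfl
  have h2 : ∀ x : K⟦X⟧, algebraMap K⟦X⟧ L x = algebraMap B L (eB.symm x) := fun x => rfl
  haveI : IsFractionRing K⟦X⟧ E := by
    have := IsLocalization.isLocalization_of_base_ringEquiv (nonZeroDivisors B) E eB.toRingEquiv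
    have hm : Submonoid.map (eB.toRingEquiv : B ≃* K⟦X⟧) (nonZeroDivisors B) =
        nonZeroDivisors K⟦X⟧ := by
      exact MulEquivClass.map_nonZeroDivisors eB.toRingEquiv
    rw [IsFractionRing, ← hm]
    exact this
  haveI : IsScalarTower K⟦X⟧ E L := by
    refine IsScalarTower.of_algebraMap_eq (fun x => ?_)
    rw [h2, h1, ← IsScalarTower.algebraMap_apply B E L]
  obtain ⟨e0, he0⟩ := hclosure E L
  have hint : ∀ x : L, x ∈ integralClosure B L ↔ x ∈ integralClosure K⟦X⟧ L := by
    intro x
    rw [mem_integralClosure_iff, mem_integralClosure_iff]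
    constructor
    · rintro ⟨p, hp, hx⟩
      refine ⟨p.map (eB : B →+* K⟦X⟧), hp.map _, ?_⟩
      rw [Polynomial.eval₂_map]
      have : (algebraMap K⟦X⟧ L).comp (eB : B →+* K⟦X⟧) = algebraMap B L := by
        ext b
        simp [h2]
      rw [this]; exact hx
    · rintro ⟨p, hp, hx⟩
      refine ⟨p.map (eB.symm : K⟦X⟧ →+* B), hp.map _, ?_⟩
      rw [Polynomial.eval₂_map]
      exact hx
  let σ : integralClosure B L ≃+* integralClosure K⟦X⟧ L :=
    { toFun := fun x => ⟨x.1, (hint _).1 x.2⟩
      invFun := fun x => ⟨x.1, (hint _).2 x.2⟩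
      left_inv := fun x => rfl
      right_inv := fun x => rfl
      map_mul' := fun x y => rfl
      map_add' := fun x y => rfl }
  have hσ : ∀ b : B, σ (algebraMap B (integralClosure B L) b) =
      algebraMap K⟦X⟧ (integralClosure K⟦X⟧ L) (eB b) := by
    intro b
    apply Subtype.ext
    show algebraMap B L b = algebraMap K⟦X⟧ L (eB b)
    rw [h2]; simp
  let e : integralClosure B L ≃+* K⟦X⟧ := σ.trans e0
  have he : ∀ c : K, e (algebraMap B (integralClosure B L) (algebraMap K B c)) = C c := by
    intro c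
    show e0 (σ _) = _
    rw [hσ, AlgEquiv.commutes]
    exact he0 c
  refine ⟨⟨e, he⟩, ?_⟩
  let ω : K⟦X⟧ →ₐ[K] K⟦X⟧ :=
    { toRingHom := (e : integralClosure B L →+* K⟦X⟧).comp
        ((algebraMap B (integralClosure B L)).comp (eB.symm : K⟦X⟧ →+* B))
      commutes' := by
        intro c
        show e (algebraMap B (integralClosure B L) (eB.symm (algebraMap K K⟦X⟧ c))) = _
        rw [AlgEquiv.commutes, he]
        rfl }
  have hinj : Function.Injective (algebraMap B (integralClosure B L)) := by
    have h3 : Function.Injective (algebraMap B L) := by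
      rw [IsScalarTower.algebraMap_eq B E L]
      exact (algebraMap E L).injective.comp (IsFractionRing.injective B E)
    intro a b hab
    exact h3 (congrArg Subtype.val hab)
  have hω : Function.Injective ω := by
    intro a b hab
    exact eB.symm.injective (hinj (e.injective hab))
  have hf := hfin ω hω
  have hcomp : (algebraMap B (integralClosure B L)) =
      ((e.symm : K⟦X⟧ →+* integralClosure B L).comp (ω : K⟦X⟧ →+* K⟦X⟧)).comp (eB : B →+* K⟦X⟧) := by
    ext b
    show _ = ((e.symm (e (algebraMap B (integralClosure B L) (eB.symm (eB b)))) : _) : L)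
    simp
  have hF : (algebraMap B (integralClosure B L)).Finite := by
    rw [hcomp]
    refine RingHom.Finite.comp (RingHom.Finite.comp ?_ hf) ?_
    · exact RingHom.Finite.of_surjective _ e.symm.surjective
    · exact RingHom.Finite.of_surjective _ eB.surjective
  exact RingHom.finite_algebraMap.1 hF

end CLG

end Pool.Agent.Helper819.DC
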