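import Pool.Agent.Helper819.DC.Core3

set_option autoImplicit false

open PowerSeries IsLocalRing TensorProduct

universe u

namespace Pool.Agent.Helper819.DC


namespace DSC

/-- the quotient -/
abbrev QQ (k A : Type u) [Field k] [CommRing A] [Algebra k A] : Type u :=
  integralClosure A (FractionRing A) ⧸
    LinearMap.range (Algebra.linearMap A (integralClosure A (FractionRing A)))

/-- the class of an integral fraction -/
noncomputable def cl (k A : Type u) [Field k] [CommRing A] [Algebra k A] :
    integralClosure A (FractionRing A) →ₗ[k] QQ k A where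
  toFun x := Submodule.Quotient.mk x
  map_add' _ _ := rfl
  map_smul' _ _ := rfl

theorem cl_surj (k A : Type u) [Field k] [CommRing A] [Algebra k A] :
    Function.Surjective (cl k A) := fun x => Quotient.inductionOn' x fun y => ⟨y, rfl⟩

theorem cl_eq_zero {k A : Type u} [Field k] [CommRing A] [Algebra k A]
    (x : integralClosure A (FractionRing A)) :
    cl k A x = 0 ↔ ∃ a : A, algebraMap A (FractionRing A) a = (x : FractionRing A) := by
  have h0 : cl k A x = 0 ↔ x ∈ LinearMap.range
      (Algebra.linearMap A (integralClosure A (FractionRing A))) :=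
    Submodule.Quotient.mk_eq_zero _
  rw [h0, LinearMap.mem_range]
  constructor
  · rintro ⟨a, ha⟩
    exact ⟨a, by rw [← ha]; rfl⟩
  · rintro ⟨a, ha⟩
    exact ⟨a, Subtype.ext ha⟩

theorem li_iff {k A κ : Type u} [Field k] [CommRing A] [Algebra k A]
    (x : κ → integralClosure A (FractionRing A)) :
    LinearIndependent k (fun j => cl k A (x j)) ↔ ∀ (s : Finset κ) (c : κ → k),
      (∃ a : A, ∑ j ∈ s, algebraMap A (FractionRing A) (algebraMap k A (c j)) *
        (x j : FractionRing A) = algebraMap A (FractionRing A) a) → ∀ j ∈ s, c j = 0 := by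
  rw [linearIndependent_iff']
  have key : ∀ (s : Finset κ) (c : κ → k), (∑ j ∈ s, c j • cl k A (x j) = 0) ↔
      (∃ a : A, ∑ j ∈ s, algebraMap A (FractionRing A) (algebraMap k A (c j)) *
        (x j : FractionRing A) = algebraMap A (FractionRing A) a) := by
    intro s c
    have h1 : ∑ j ∈ s, c j • cl k A (x j) = cl k A (∑ j ∈ s, c j • x j) := by
      rw [map_sum]
      exact Finset.sum_congr rfl fun j _ => (map_smul _ _ _).symm
    have h2 : ((∑ j ∈ s, c j • x j : integralClosure A (FractionRing A)) : FractionRing A) =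
        ∑ j ∈ s, algebraMap A (FractionRing A) (algebraMap k A (c j)) *
        (x j : FractionRing A) := by
      rw [AddSubmonoidClass.coe_finsetSum]
      refine Finset.sum_congr rfl fun j _ => ?_
      rw [Subalgebra.coe_smul, Algebra.smul_def, IsScalarTower.algebraMap_apply k A (FractionRing A)]
    rw [h1, cl_eq_zero, h2]
    exact ⟨fun ⟨a, ha⟩ => ⟨a, ha.symm⟩, fun ⟨a, ha⟩ => ⟨a, ha.symm⟩⟩
  constructor
  · intro h s c hc
    exact h s c ((key s c).2 hc)
  · intro h s c hc
    exact h s c ((key s c).1 hc)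

theorem rank_ge {k A κ : Type u} [Field k] [CommRing A] [Algebra k A]
    (x : κ → integralClosure A (FractionRing A))
    (h : LinearIndependent k (fun j => cl k A (x j))) : Cardinal.mk κ ≤ delta k A :=
  h.cardinal_le_rank

theorem exists_basis (k A : Type u) [Field k] [CommRing A] [Algebra k A] :
    ∃ (κ : Type u) (x : κ → integralClosure A (FractionRing A)),
      LinearIndependent k (fun j => cl k A (x j)) ∧ Cardinal.mk κ = delta k A := by
  let b := Module.Basis.ofVectorSpace k (QQ k A)
  choose x hx using fun j => cl_surj k A (b j)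
  refine ⟨_, x, ?_, ?_⟩
  · have : (fun j => cl k A (x j)) = b := funext hx
    rw [this]
    exact b.linearIndependent
  · exact b.mk_eq_rank''


section Abs

variable {L Ω BL B ι : Type u} [Field L] [Field Ω] [Algebra L Ω] [CommRing BL] [CommRing B]
  [Algebra L BL] [Algebra Ω B]

/-- abstract data of a base change -/
structure BC (L Ω BL B ι : Type u) [Field L] [Field Ω] [Algebra L Ω] [CommRing BL] [CommRing B]
    [Algebra L BL] [Algebra Ω B] where
  e : Module.Basis ι L Ω
  f : BL →+* B
  κ : ι → B →+ BL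
  hf : ∀ l : L, f (algebraMap L BL l) = algebraMap Ω B (algebraMap L Ω l)
  h1 : ∀ i c b, κ i (f c * b) = c * κ i b
  h2 : ∀ i ω a, κ i (algebraMap Ω B ω * f a) = algebraMap L BL (e.repr ω i) * a
  h3 : ∀ b, (∀ i, κ i b = 0) → b = 0

theorem BC.inj (D : BC L Ω BL B ι) (a : BL) (h : D.f a = 0) : a = 0 := by
  have h1 : D.e.repr 1 ≠ 0 := by
    intro h0
    have := D.e.repr.map_eq_zero_iff.1 h0
    exact one_ne_zero this
  obtain ⟨i, hi⟩ := Finsupp.ne_iff.1 h1
  have h2 := D.h2 i 1 a
  rw [h, mul_zero, map_zero] at h2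
  have h3 : algebraMap L BL (D.e.repr 1 i)⁻¹ * (algebraMap L BL (D.e.repr 1 i) * a) = a := by
    rw [← mul_assoc, ← map_mul, inv_mul_cancel₀ hi, map_one, one_mul]
  rw [← h2, mul_zero] at h3
  exact h3.symm

theorem BC.nzd (D : BC L Ω BL B ι) : nonZeroDivisors BL ≤ (nonZeroDivisors B).comap D.f := by
  intro s hs
  rw [Submonoid.mem_comap, mem_nonZeroDivisors_iff_right]
  intro b hb
  apply D.h3
  intro i
  have h := D.h1 i s b
  rw [mul_comm, hb, map_zero] at h
  rw [mul_comm] at h
  exact (mem_nonZeroDivisors_iff_right.1 hs) _ h.symm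

theorem BC.nzd' (D : BC L Ω BL B ι) {s : BL} (hs : D.f s ∈ nonZeroDivisors B) :
    s ∈ nonZeroDivisors BL := by
  rw [mem_nonZeroDivisors_iff_right] at hs ⊢
  intro c hc
  apply D.inj
  apply hs
  rw [← map_mul, hc, map_zero]

/-- the map of total fraction rings -/
noncomputable def BC.φ (D : BC L Ω BL B ι) : FractionRing BL →+* FractionRing B :=
  IsLocalization.map (FractionRing B) D.f D.nzd

theorem BC.φ_alg (D : BC L Ω BL B ι) (a : BL) : D.φ (algebraMap BL (FractionRing BL) a) =
    algebraMap B (FractionRing B) (D.f a) := IsLocalization.map_eq _ _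

theorem alg_inj (A : Type u) [CommRing A] {a b : A}
    (h : algebraMap A (FractionRing A) a = algebraMap A (FractionRing A) b) : a = b :=
  IsFractionRing.injective A (FractionRing A) h

theorem BC.φ_inj (D : BC L Ω BL B ι) (x : FractionRing BL) (h : D.φ x = 0) : x = 0 := by
  obtain ⟨⟨a, s⟩, hx⟩ := IsLocalization.surj (nonZeroDivisors BL) x
  simp only at hx
  have h1 : D.f a = 0 := by
    apply alg_inj B
    rw [map_zero, ← D.φ_alg, ← hx, map_mul, h, zero_mul]
  rw [D.inj a h1, map_zero] at hx
  have hs : IsUnit (algebraMap BL (FractionRing BL) s) := IsLocalization.map_units _ s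
  exact (hs.mul_left_eq_zero).1 hx

/-- the map of integral closures -/
noncomputable def BC.ψ (D : BC L Ω BL B ι) (x : integralClosure BL (FractionRing BL)) :
    integralClosure B (FractionRing B) :=
  ⟨D.φ x, by
    have hx : IsIntegral BL (x : FractionRing BL) := x.2
    obtain ⟨P, hP, hPx⟩ := hx
    refine ⟨P.map D.f, hP.map _, ?_⟩
    rw [Polynomial.eval₂_map]
    have h1 : (algebraMap B (FractionRing B)).comp D.f =
        D.φ.comp (algebraMap BL (FractionRing BL)) := by
      ext a
      exact (D.φ_alg a).symm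
    rw [h1, ← Polynomial.hom_eval₂, hPx, map_zero]⟩

theorem BC.ψ_coe (D : BC L Ω BL B ι) (x : integralClosure BL (FractionRing BL)) :
    (D.ψ x : FractionRing B) = D.φ x := rfl

theorem BC.li (D : BC L Ω BL B ι) {κ : Type u} (x : κ → integralClosure BL (FractionRing BL))
    (hx : LinearIndependent L (fun j => cl L BL (x j))) :
    LinearIndependent Ω (fun j => cl Ω B (D.ψ (x j))) := by
  rw [li_iff] at hx ⊢
  rintro s c ⟨b, hb⟩ j hj
  obtain ⟨t, ht⟩ := IsLocalization.exist_integer_multiples (nonZeroDivisors BL) s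
    (fun j => (x j : FractionRing BL))
  choose! a ha using ht
  have ha' : ∀ j ∈ s, algebraMap BL (FractionRing BL) (a j) =
      algebraMap BL (FractionRing BL) t * (x j : FractionRing BL) := by
    intro j hj
    rw [ha j hj, Algebra.smul_def]
  have e1 : ∑ j ∈ s, algebraMap Ω B (c j) * D.f (a j) = D.f t * b := by
    apply alg_inj B
    rw [map_sum, map_mul, ← hb, Finset.mul_sum]
    refine Finset.sum_congr rfl fun j hj => ?_
    rw [map_mul, ← D.φ_alg (a j), ha' j hj, map_mul, D.φ_alg, D.ψ_coe]
    ring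
  have e2 : ∀ i, D.e.repr (c j) i = 0 := by
    intro i
    refine hx s (fun j => D.e.repr (c j) i) ⟨D.κ i b, ?_⟩ j hj
    have e3 := congrArg (D.κ i) e1
    rw [map_sum, D.h1] at e3
    simp only [D.h2] at e3
    have hs : IsUnit (algebraMap BL (FractionRing BL) t) := IsLocalization.map_units _ t
    apply hs.mul_left_cancel
    rw [← map_mul, ← e3, map_sum, Finset.mul_sum]
    refine Finset.sum_congr rfl fun j hj => ?_
    rw [map_mul, ha' j hj]
    ring
  have e4 : D.e.repr (c j) = 0 := Finsupp.ext e2
  exact D.e.repr.map_eq_zero_iff.1 e4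

theorem BC.delta_le (D : BC L Ω BL B ι) : delta L BL ≤ delta Ω B := by
  obtain ⟨κ, x, hx, hc⟩ := exists_basis L BL
  rw [← hc]
  exact rank_ge _ (D.li x hx)

theorem BC.le_delta (D : BC L Ω BL B ι) {κ : Type u} (x : κ → integralClosure B (FractionRing B))
    (hx : LinearIndependent Ω (fun j => cl Ω B (x j))) (s : BL) (hs : D.f s ∈ nonZeroDivisors B)
    (a : κ → BL) (P : κ → Polynomial BL) (hP : ∀ j, (P j).Monic)
    (ha : ∀ j, algebraMap B (FractionRing B) (D.f s) * (x j : FractionRing B) =
      algebraMap B (FractionRing B) (D.f (a j)))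
    (hPx : ∀ j, Polynomial.eval₂ (algebraMap B (FractionRing B)) (x j : FractionRing B)
      ((P j).map D.f) = 0) : Cardinal.mk κ ≤ delta L BL := by
  have hs' := D.nzd' hs
  let y : κ → FractionRing BL := fun j => IsLocalization.mk' (FractionRing BL) (a j) ⟨s, hs'⟩
  have hy : ∀ j, D.φ (y j) = x j := by
    intro j
    have hu : IsUnit (algebraMap B (FractionRing B) (D.f s)) :=
      IsLocalization.map_units (FractionRing B) (⟨D.f s, hs⟩ : nonZeroDivisors B)
    apply hu.mul_left_cancel
    rw [ha, ← D.φ_alg, ← map_mul, ← D.φ_alg]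
    congr 1
    exact IsLocalization.mk'_spec' (FractionRing BL) (a j) (⟨s, hs'⟩ : nonZeroDivisors BL)
  have hint : ∀ j, IsIntegral BL (y j) := by
    intro j
    refine ⟨P j, hP j, ?_⟩
    apply D.φ_inj
    have h1 : (algebraMap B (FractionRing B)).comp D.f =
        D.φ.comp (algebraMap BL (FractionRing BL)) := by
      ext a
      exact (D.φ_alg a).symm
    rw [Polynomial.hom_eval₂, ← h1, hy, ← Polynomial.eval₂_map]
    exact hPx j
  refine rank_ge (fun j => (⟨y j, hint j⟩ : integralClosure BL (FractionRing BL))) ?_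
  rw [li_iff] at hx ⊢
  rintro t c ⟨b, hb⟩ j hj
  have h1 := hx t (fun j => algebraMap L Ω (c j)) ⟨D.f b, ?_⟩ j hj
  · exact (_root_.map_eq_zero _).1 h1
  · have h2 := congrArg D.φ hb
    rw [map_sum, D.φ_alg] at h2
    rw [← h2]
    refine Finset.sum_congr rfl fun j _ => ?_
    rw [map_mul, D.φ_alg, D.hf, hy]

end Abs

theorem delta_congr_le {k A A' : Type u} [Field k] [CommRing A] [CommRing A'] [Algebra k A]
    [Algebra k A'] (e : A ≃ₐ[k] A') : DC.delta k A ≤ DC.delta k A' := by
  let D : BC k k A A' PUnit :=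
    { e := Module.Basis.singleton PUnit k
      f := e
      κ := fun _ => (e.symm : A' →+* A).toAddMonoidHom
      hf := fun l => by simp
      h1 := fun i c b => by simp
      h2 := fun i ω a => by simp
      h3 := fun b hb => by
        have := hb PUnit.unit
        simpa using this }
  exact D.delta_le

/-- invariance of delta under isomorphism -/
theorem delta_congr {k A A' : Type u} [Field k] [CommRing A] [CommRing A'] [Algebra k A]
    [Algebra k A'] (e : A ≃ₐ[k] A') : DC.delta k A = DC.delta k A' :=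
  le_antisymm (delta_congr_le e) (delta_congr_le e.symm)

section Conc

variable {A L Ω R ι : Type u} [CommRing A] [Field L] [Field Ω] [Algebra A L] [Algebra A Ω]
  [Algebra L Ω] [IsScalarTower A L Ω] [CommRing R] [Algebra A R]

/-- the comparison map -/
noncomputable def cf (A L Ω R : Type u) [CommRing A] [Field L] [Field Ω] [Algebra A L]
    [Algebra A Ω] [Algebra L Ω] [IsScalarTower A L Ω] [CommRing R] [Algebra A R] :
    L ⊗[A] R →+* Ω ⊗[A] R :=
  (Algebra.TensorProduct.map (IsScalarTower.toAlgHom A L Ω) (AlgHom.id A R) :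
    L ⊗[A] R →ₐ[A] Ω ⊗[A] R)

theorem cf_tmul (l : L) (r : R) : cf A L Ω R (l ⊗ₜ r) = (algebraMap L Ω l) ⊗ₜ r := by
  simp [cf]

/-- coordinate maps -/
noncomputable def ck (A R : Type u) {L Ω ι : Type u} [CommRing A] [Field L] [Field Ω]
    [Algebra A L] [Algebra A Ω] [Algebra L Ω] [IsScalarTower A L Ω] [CommRing R] [Algebra A R]
    (e : Module.Basis ι L Ω) (i : ι) : Ω ⊗[A] R →ₗ[A] L ⊗[A] R :=
  LinearMap.rTensor R ((e.coord i).restrictScalars A)

theorem ck_tmul (e : Module.Basis ι L Ω) (i : ι) (ω : Ω) (r : R) :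
    ck A R e i (ω ⊗ₜ r) = (e.repr ω i) ⊗ₜ r := by
  simp [ck]

theorem ck_rep (e : Module.Basis ι L Ω) (b : Ω ⊗[A] R) : ∃ S : Finset ι, ∀ S' : Finset ι, S ⊆ S' →
    b = ∑ i ∈ S', algebraMap Ω (Ω ⊗[A] R) (e i) * cf A L Ω R (ck A R e i b) := by
  classical
  induction b using TensorProduct.induction_on with
  | zero => exact ⟨∅, fun S' _ => by simp⟩
  | tmul ω r =>
    refine ⟨(e.repr ω).support, fun S' hS' => ?_⟩
    have h1 : ∑ i ∈ S', e.repr ω i • e i = ω := by
      conv_rhs => rw [← e.linearCombination_repr ω]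
      rw [Finsupp.linearCombination_apply]
      exact (Finsupp.sum_of_support_subset (e.repr ω) hS' (fun i a => a • e i)
        (fun i _ => zero_smul L (e i))).symm
    conv_lhs => rw [← h1]
    rw [TensorProduct.sum_tmul]
    refine Finset.sum_congr rfl fun i _ => ?_
    rw [ck_tmul, cf_tmul, Algebra.TensorProduct.algebraMap_apply,
      Algebra.TensorProduct.tmul_mul_tmul, one_mul, Algebra.algebraMap_self, RingHom.id_apply,
      Algebra.smul_def, mul_comm]
  | add x y hx hy =>
    obtain ⟨S1, h1⟩ := hx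
    obtain ⟨S2, h2⟩ := hy
    refine ⟨S1 ∪ S2, fun S' hS' => ?_⟩
    conv_lhs => rw [h1 S' (Finset.union_subset_left hS'), h2 S' (Finset.union_subset_right hS')]
    rw [← Finset.sum_add_distrib]
    refine Finset.sum_congr rfl fun i _ => ?_
    rw [map_add, map_add, mul_add]

/-- the base change data of a tensor product -/
noncomputable def tbc (A R : Type u) {L Ω ι : Type u} [CommRing A] [Field L] [Field Ω]
    [Algebra A L] [Algebra A Ω] [Algebra L Ω] [IsScalarTower A L Ω] [CommRing R] [Algebra A R]
    (e : Module.Basis ι L Ω) : BC L Ω (L ⊗[A] R) (Ω ⊗[A] R) ι where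
  e := e
  f := cf A L Ω R
  κ := fun i => (ck A R e i).toAddMonoidHom
  hf := fun l => by
    rw [Algebra.TensorProduct.algebraMap_apply, cf_tmul, Algebra.TensorProduct.algebraMap_apply]
    rfl
  h1 := fun i c b => by
    show ck A R e i (cf A L Ω R c * b) = c * ck A R e i b
    induction c using TensorProduct.induction_on with
    | zero => simp
    | tmul l r' =>
      induction b using TensorProduct.induction_on with
      | zero => simp
      | tmul ω r =>
        rw [cf_tmul, Algebra.TensorProduct.tmul_mul_tmul, ck_tmul, ck_tmul,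
          Algebra.TensorProduct.tmul_mul_tmul, ← Algebra.smul_def, map_smul, Finsupp.smul_apply,
          smul_eq_mul]
      | add x y hx hy => rw [mul_add, map_add, map_add, mul_add, hx, hy]
    | add x y hx hy => rw [map_add, add_mul, map_add, add_mul, hx, hy]
  h2 := fun i ω a => by
    show ck A R e i (algebraMap Ω (Ω ⊗[A] R) ω * cf A L Ω R a) = _
    induction a using TensorProduct.induction_on with
    | zero => simp
    | tmul l r =>
      rw [cf_tmul, Algebra.TensorProduct.algebraMap_apply, Algebra.TensorProduct.algebraMap_apply,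
        Algebra.TensorProduct.tmul_mul_tmul, Algebra.TensorProduct.tmul_mul_tmul, ck_tmul,
        Algebra.algebraMap_self, RingHom.id_apply, mul_comm ω, ← Algebra.smul_def, map_smul,
        Finsupp.smul_apply, smul_eq_mul, Algebra.algebraMap_self, RingHom.id_apply, mul_comm l]
    | add x y hx hy => rw [map_add, mul_add, map_add, mul_add, hx, hy]
  h3 := fun b hb => by
    obtain ⟨S, hS⟩ := ck_rep e b
    rw [hS S (Finset.Subset.refl S)]
    refine Finset.sum_eq_zero fun i _ => ?_
    have : ck A R e i b = 0 := hb i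
    rw [this, map_zero, mul_zero]

end Conc

section Desc

variable {A E Ω R : Type u} [CommRing A] [Field E] [Algebra A E] [Field Ω] [Algebra E Ω]
    [Algebra A Ω] [IsScalarTower A E Ω] [CommRing R] [Algebra A R]

instance tower (L : IntermediateField E Ω) : IsScalarTower A L Ω := by
  refine ⟨fun a l ω => ?_⟩
  have h1 : algebraMap A L a = algebraMap E L (algebraMap A E a) :=
    IsScalarTower.algebraMap_apply A E L a
  have h2 : algebraMap A Ω a = algebraMap E Ω (algebraMap A E a) :=
    IsScalarTower.algebraMap_apply A E Ω a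
  rw [Algebra.smul_def a l, Algebra.smul_def _ ω, Algebra.smul_def a, Algebra.smul_def l ω, map_mul,
    h1, h2, mul_assoc]
  rfl

theorem range_mono {L L' : IntermediateField E Ω} (h : L ≤ L') :
    (cf A L Ω R).range ≤ (cf A L' Ω R).range := by
  rintro _ ⟨c, rfl⟩
  induction c using TensorProduct.induction_on with
  | zero => rw [map_zero]; exact zero_mem _
  | tmul l r => exact ⟨(IntermediateField.inclusion h l) ⊗ₜ r, by rw [cf_tmul, cf_tmul]; rfl⟩
  | add x y hx hy => rw [map_add]; exact add_mem hx hy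

theorem exists_one [Algebra.IsAlgebraic E Ω] (b : Ω ⊗[A] R) :
    ∃ L : IntermediateField E Ω, FiniteDimensional E L ∧ b ∈ (cf A L Ω R).range := by
  induction b using TensorProduct.induction_on with
  | zero => exact ⟨⊥, inferInstance, zero_mem _⟩
  | tmul ω r =>
    have hω : IsIntegral E ω := (Algebra.IsAlgebraic.isAlgebraic ω).isIntegral
    refine ⟨IntermediateField.adjoin E {ω}, IntermediateField.adjoin.finiteDimensional hω,
      (⟨ω, IntermediateField.mem_adjoin_simple_self E ω⟩ :
        IntermediateField.adjoin E {ω}) ⊗ₜ r, ?_⟩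
    rw [cf_tmul]
    rfl
  | add x y hx hy =>
    obtain ⟨L1, f1, h1⟩ := hx
    obtain ⟨L2, f2, h2⟩ := hy
    refine ⟨L1 ⊔ L2, IntermediateField.finiteDimensional_sup L1 L2, ?_⟩
    exact add_mem (range_mono le_sup_left h1) (range_mono le_sup_right h2)

theorem exists_L [Algebra.IsAlgebraic E Ω] (T : Finset (Ω ⊗[A] R)) :
    ∃ L : IntermediateField E Ω, FiniteDimensional E L ∧ ∀ b ∈ T, b ∈ (cf A L Ω R).range := by
  classical
  induction T using Finset.induction_on with
  | empty => exact ⟨⊥, inferInstance, by simp⟩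
  | insert b T hb ih =>
    obtain ⟨L1, f1, h1⟩ := ih
    obtain ⟨L2, f2, h2⟩ := exists_one (E := E) b
    refine ⟨L1 ⊔ L2, IntermediateField.finiteDimensional_sup L1 L2, ?_⟩
    intro c hc
    rcases Finset.mem_insert.1 hc with rfl | hc
    · exact range_mono le_sup_right h2
    · exact range_mono le_sup_left (h1 c hc)

theorem descent' [Algebra.IsAlgebraic E Ω]
    (n : ℕ) (h : DC.delta Ω (Ω ⊗[A] R) = (n : Cardinal)) :
    ∃ L : IntermediateField E Ω, FiniteDimensional E L ∧
      DC.delta L (L ⊗[A] R) = (n : Cardinal) := by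
  classical
  obtain ⟨κ, x, hx, hc⟩ := exists_basis Ω (Ω ⊗[A] R)
  have hfin : Finite κ := by
    rw [← Cardinal.mk_lt_aleph0_iff, hc, h]
    exact Cardinal.natCast_lt_aleph0
  have := Fintype.ofFinite κ
  obtain ⟨t, ht⟩ := IsLocalization.exist_integer_multiples_of_finite
    (nonZeroDivisors (Ω ⊗[A] R)) (fun j => (x j : FractionRing (Ω ⊗[A] R)))
  choose a ha using ht
  have hint : ∀ j, IsIntegral (Ω ⊗[A] R) (x j : FractionRing (Ω ⊗[A] R)) := fun j => (x j).2
  choose Q hQ hQx using hint
  obtain ⟨L, hL, hT⟩ := exists_L (A := A) (E := E) (Ω := Ω) (R := R)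
    ({(t : Ω ⊗[A] R)} ∪ Finset.univ.image a ∪
      Finset.univ.biUnion (fun j => (Finset.range ((Q j).natDegree + 1)).image (Q j).coeff))
  refine ⟨L, hL, ?_⟩
  let e := Module.Basis.ofVectorSpace L Ω
  have h1 : DC.delta L (L ⊗[A] R) ≤ n := by
    rw [← h]
    exact (tbc A R e).delta_le
  obtain ⟨s, hs⟩ := hT t (by simp)
  have ha' : ∀ j, ∃ c : L ⊗[A] R, cf A L Ω R c = a j := fun j => hT (a j) (by simp)
  choose a' ha' using ha'
  have hQ' : ∀ j, ∃ P : Polynomial (L ⊗[A] R), P.Monic ∧ P.map (cf A L Ω R) = Q j := by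
    intro j
    have hl : Q j ∈ Polynomial.lifts (cf A L Ω R) := by
      rw [Polynomial.lifts_iff_coeff_lifts]
      intro m
      by_cases hm : m ≤ (Q j).natDegree
      · obtain ⟨c, hc⟩ := hT ((Q j).coeff m) (by
          simp only [Finset.mem_union, Finset.mem_biUnion, Finset.mem_image, Finset.mem_range,
            Finset.mem_univ, true_and]
          exact Or.inr ⟨j, m, by omega, rfl⟩)
        exact ⟨c, hc⟩
      · rw [Polynomial.coeff_eq_zero_of_natDegree_lt (not_le.1 hm)]
        exact ⟨0, map_zero _⟩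
    obtain ⟨P, hP1, hP2, hP3⟩ := Polynomial.lifts_and_natDegree_eq_and_monic hl (hQ j)
    exact ⟨P, hP3, hP1⟩
  choose P hP hPQ using hQ'
  have h2 : (n : Cardinal) ≤ DC.delta L (L ⊗[A] R) := by
    rw [← h, ← hc]
    refine (tbc A R e).le_delta x hx s ?_ a' P hP ?_ ?_
    · show cf A L Ω R s ∈ _
      rw [hs]
      exact t.2
    · intro j
      show algebraMap _ _ (cf A L Ω R s) * _ = algebraMap _ _ (cf A L Ω R (a' j))
      rw [hs, ha', ha j, Algebra.smul_def]
    · intro j
      show Polynomial.eval₂ _ _ ((P j).map (cf A L Ω R)) = 0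
      rw [hPQ]
      exact hQx j
  exact le_antisymm h1 h2

end Desc


/-- the delta invariant of the base change to an algebraic extension is attained at a finite
level -/
theorem descent {A E Ω R : Type u} [CommRing A] [Field E] [Algebra A E] [Field Ω] [Algebra E Ω]
    [Algebra A Ω] [IsScalarTower A E Ω] [Algebra.IsAlgebraic E Ω] [CommRing R] [Algebra A R]
    (n : ℕ) (h : DC.delta Ω (Ω ⊗[A] R) = (n : Cardinal)) :
    ∃ L : IntermediateField E Ω, FiniteDimensional E L ∧
      DC.delta L (L ⊗[A] R) = (n : Cardinal) := descent' n h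

end DSC

end Pool.Agent.Helper819.DC
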