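import Pool.Agent.Helper819.DC.Core3

set_option autoImplicit false

open PowerSeries IsLocalRing TensorProduct

universe u

namespace Pool.Agent.Helper819.DC


namespace GE1

/-- finite level normality -/
theorem finite_ic {K : Type u} [Field K] [IsAlgClosed K]
    (hbc : ∀ (A B : Type u) [CommRing A] [IsNoetherianRing A] [CommRing B]
      [Algebra A B] [Module.Finite A B] [Module.Free A B],
      ∃ e : B ⊗[A] A⟦X⟧ ≃ₐ[B] B⟦X⟧, ∀ h, e (1 ⊗ₜ h) = PowerSeries.map (algebraMap A B) h)
    (hic : ∀ (B : Type u) [CommRing B] [IsDomain B] [IsPrincipalIdealRing B],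
      IsIntegrallyClosed B⟦X⟧)
    (hfrc : ∀ (B E : Type u) [CommRing B] [IsDomain B] [IsPrincipalIdealRing B] [Field E]
      [Algebra B E] [IsFractionRing B E] (_ : IsIntegrallyClosed B⟦X⟧),
      IsDomain (E ⊗[B] B⟦X⟧) ∧ IsIntegrallyClosed (E ⊗[B] B⟦X⟧))
    {B : Type u} [CommRing B] [IsDomain B] [IsPrincipalIdealRing B]
    {E L : Type u} [Field E] [Field L] [Algebra B E] [IsFractionRing B E]
    [Algebra E L] [Algebra B L] [IsScalarTower B E L] [FiniteDimensional E L]
    (e : integralClosure B L ≃+* K⟦X⟧) (hfin : Module.Finite B (integralClosure B L)) :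
    IsDomain (L ⊗[B] B⟦X⟧) ∧ IsIntegrallyClosed (L ⊗[B] B⟦X⟧) := by
  have hpid : IsPrincipalIdealRing (integralClosure B L) :=
    IsPrincipalIdealRing.of_surjective e.symm e.symm.surjective
  have hfr : IsFractionRing (integralClosure B L) L :=
    integralClosure.isFractionRing_of_finite_extension E L
  have hinj : Function.Injective (algebraMap B L) := by
    rw [IsScalarTower.algebraMap_eq B E L]
    exact (algebraMap E L).injective.comp (IsFractionRing.injective B E)
  have htfL : Module.IsTorsionFree B L := by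
    have : FaithfulSMul B L := (faithfulSMul_iff_algebraMap_injective B L).2 hinj
    infer_instance
  have htf : Module.IsTorsionFree B (integralClosure B L) := inferInstance
  have hfree : Module.Free B (integralClosure B L) := Module.free_of_finite_type_torsion_free'
  obtain ⟨e', _⟩ := hbc B (integralClosure B L)
  obtain ⟨h1, h2⟩ := hfrc (integralClosure B L) L (hic (integralClosure B L))
  let E1 : L ⊗[integralClosure B L] (integralClosure B L ⊗[B] B⟦X⟧) ≃ₐ[L] L ⊗[B] B⟦X⟧ :=
    Algebra.TensorProduct.cancelBaseChange B (integralClosure B L) L L B⟦X⟧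
  let E2 : L ⊗[integralClosure B L] (integralClosure B L ⊗[B] B⟦X⟧) ≃ₐ[L]
      L ⊗[integralClosure B L] (integralClosure B L)⟦X⟧ :=
    Algebra.TensorProduct.congr AlgEquiv.refl e'
  let E3 : L ⊗[B] B⟦X⟧ ≃+* L ⊗[integralClosure B L] (integralClosure B L)⟦X⟧ :=
    (E1.symm.trans E2).toRingEquiv
  exact ⟨E3.toMulEquiv.isDomain _, IsIntegrallyClosed.of_equiv E3.symm⟩

end GE1

end Pool.Agent.Helper819.DC
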