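import Pool.Agent.Helper819.DC.Core3

set_option autoImplicit false

open PowerSeries IsLocalRing TensorProduct

universe u

namespace Pool.Agent.Helper819.DC


namespace GE2

/-- divisibility form of integral closedness -/
theorem ic_iff {R : Type u} [CommRing R] [IsDomain R] : IsIntegrallyClosed R ↔
    ∀ (n : ℕ) (c : ℕ → R) (a b : R), b ≠ 0 →
      a ^ n + ∑ i ∈ Finset.range n, c i * a ^ i * b ^ (n - i) = 0 → b ∣ a := by
  classical
  constructor
  · intro hR n c a b hb h
    rw [isIntegrallyClosed_iff (FractionRing R)] at hR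
    have hb' : algebraMap R (FractionRing R) b ≠ 0 := by
      intro h0
      exact hb ((IsFractionRing.injective R (FractionRing R)) (by rw [h0, map_zero]))
    obtain ⟨x, hx⟩ : ∃ x, x = algebraMap R (FractionRing R) a / algebraMap R (FractionRing R) b :=
      ⟨_, rfl⟩
    obtain ⟨q, hq⟩ : ∃ q : Polynomial R, q = ∑ i ∈ Finset.range n,
        Polynomial.C (c i) * Polynomial.X ^ i := ⟨_, rfl⟩
    have hdeg : q.degree < n := by
      rw [hq]
      rw [Polynomial.degree_lt_iff_coeff_zero]
      intro m hm
      rw [Polynomial.finset_sum_coeff]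
      refine Finset.sum_eq_zero fun i hi => ?_
      have hi' := Finset.mem_range.1 hi
      rw [Polynomial.coeff_C_mul_X_pow, if_neg (by omega)]
    have hint : IsIntegral R x := by
      refine ⟨Polynomial.X ^ n + q, Polynomial.monic_X_pow_add hdeg, ?_⟩
      have h1 := congrArg (algebraMap R (FractionRing R)) h
      rw [map_zero, map_add, map_pow, map_sum] at h1
      have h2 : (algebraMap R (FractionRing R) b) ^ n *
          Polynomial.eval₂ (algebraMap R (FractionRing R)) x (Polynomial.X ^ n + q) = 0 := by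
        rw [← h1, Polynomial.eval₂_add, Polynomial.eval₂_X_pow, hq, Polynomial.eval₂_finsetSum,
          mul_add, Finset.mul_sum]
        congr 1
        · rw [← mul_pow, hx, mul_div_cancel₀ _ hb']
        · refine Finset.sum_congr rfl fun i hi => ?_
          have hi' := Finset.mem_range.1 hi
          rw [Polynomial.eval₂_mul, Polynomial.eval₂_C, Polynomial.eval₂_X_pow, map_mul, map_mul,
            map_pow, map_pow, hx, div_pow]
          have h3 : (algebraMap R (FractionRing R) b) ^ n =
              (algebraMap R (FractionRing R) b) ^ (n - i) * (algebraMap R (FractionRing R) b) ^ i := by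
            rw [← pow_add]
            congr 1
            omega
          rw [h3]
          field_simp
      exact (mul_eq_zero.1 h2).resolve_left (pow_ne_zero _ hb')
    obtain ⟨y, hy⟩ := hR hint
    refine ⟨y, (IsFractionRing.injective R (FractionRing R)) ?_⟩
    rw [map_mul, hy, hx, mul_div_cancel₀ _ hb']
  · intro h
    rw [isIntegrallyClosed_iff (FractionRing R)]
    intro x hx
    obtain ⟨p, hp, hpx⟩ := hx
    obtain ⟨a, b, hb, rfl⟩ := IsFractionRing.div_surjective (A := R) x
    have hb0 : b ≠ 0 := nonZeroDivisors.ne_zero hb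
    have hb' : algebraMap R (FractionRing R) b ≠ 0 := by
      intro h0
      exact hb0 ((IsFractionRing.injective R (FractionRing R)) (by rw [h0, map_zero]))
    have hdvd : b ∣ a := by
      refine h p.natDegree (fun i => p.coeff i) a b hb0 ?_
      apply IsFractionRing.injective R (FractionRing R)
      rw [map_zero, map_add, map_pow, map_sum]
      rw [Polynomial.eval₂_eq_sum_range, Finset.sum_range_succ, Polynomial.Monic.coeff_natDegree hp,
        map_one, one_mul] at hpx
      have h2 := congrArg (fun z => (algebraMap R (FractionRing R) b) ^ p.natDegree * z) hpx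
      beta_reduce at h2
      rw [mul_zero, mul_add, Finset.mul_sum] at h2
      rw [← h2, add_comm]
      congr 1
      · refine Finset.sum_congr rfl fun i hi => ?_
        have hi' := Finset.mem_range.1 hi
        rw [map_mul, map_mul, map_pow, map_pow, div_pow]
        have h3 : (algebraMap R (FractionRing R) b) ^ p.natDegree =
            (algebraMap R (FractionRing R) b) ^ (p.natDegree - i) *
              (algebraMap R (FractionRing R) b) ^ i := by
          rw [← pow_add]
          congr 1
          omega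
        rw [h3]
        field_simp
      · rw [← mul_pow, mul_div_cancel₀ _ hb']
    obtain ⟨y, rfl⟩ := hdvd
    refine ⟨y, ?_⟩
    rw [map_mul, mul_div_cancel_left₀ _ hb']

section Lev

variable {B E Ω C : Type u} [CommRing B] [IsDomain B] [Field E] [Algebra B E]
    [IsFractionRing B E] [Field Ω] [Algebra E Ω] [Algebra B Ω] [IsScalarTower B E Ω]
    [Algebra.IsAlgebraic E Ω] [CommRing C] [Algebra B C]

/-- the map from a finite level -/
noncomputable def jL (L : IntermediateField E Ω) : L ⊗[B] C →ₐ[B] Ω ⊗[B] C :=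
  Algebra.TensorProduct.map (L.val.restrictScalars B) (AlgHom.id B C)

omit [IsDomain B] [IsFractionRing B E] [Algebra.IsAlgebraic E Ω] in
theorem jL_tmul (L : IntermediateField E Ω) (l : L) (c : C) :
    jL (B := B) (C := C) L (l ⊗ₜ c) = (l : Ω) ⊗ₜ c := rfl

omit [IsDomain B] [IsFractionRing B E] [Algebra.IsAlgebraic E Ω] in
theorem jL_inj (L : IntermediateField E Ω) : Function.Injective (jL (B := B) (C := C) L) := by
  obtain ⟨p, hp⟩ := LinearMap.exists_leftInverse_of_injective (L.val.toLinearMap)
    (LinearMap.ker_eq_bot.2 L.val.injective)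
  have hp' : ∀ l : L, p (l : Ω) = l := fun l => LinearMap.congr_fun hp l
  have h : ∀ x : L ⊗[B] C,
      (TensorProduct.map (p.restrictScalars B) (LinearMap.id : C →ₗ[B] C)) (jL L x) = x := by
    intro x
    induction x using TensorProduct.induction_on with
    | zero => rw [map_zero, map_zero]
    | tmul l c =>
      rw [jL_tmul, TensorProduct.map_tmul, LinearMap.id_apply, LinearMap.restrictScalars_apply, hp']
    | add x y hx hy => rw [map_add, map_add, hx, hy]
  exact Function.LeftInverse.injective h

omit [IsDomain B] [IsFractionRing B E] [Algebra.IsAlgebraic E Ω] in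
theorem jL_mono {L L' : IntermediateField E Ω} (hL : L ≤ L') (x : Ω ⊗[B] C)
    (hx : ∃ y, jL L y = x) : ∃ y, jL L' y = x := by
  obtain ⟨y, rfl⟩ := hx
  induction y using TensorProduct.induction_on with
  | zero => exact ⟨0, by rw [map_zero, map_zero]⟩
  | tmul l c => exact ⟨(⟨l, hL l.2⟩ : L') ⊗ₜ c, rfl⟩
  | add x y hx hy =>
    obtain ⟨x', hx'⟩ := hx
    obtain ⟨y', hy'⟩ := hy
    exact ⟨x' + y', by rw [map_add, map_add, hx', hy']⟩

omit [IsDomain B] [IsFractionRing B E] in
theorem jL_exists (x : Ω ⊗[B] C) : ∃ L : IntermediateField E Ω, FiniteDimensional E L ∧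
    ∃ y, jL L y = x := by
  induction x using TensorProduct.induction_on with
  | zero => exact ⟨⊥, inferInstance, 0, by rw [map_zero]⟩
  | tmul w c =>
    refine ⟨IntermediateField.adjoin E {w}, ?_,
      (⟨w, IntermediateField.mem_adjoin_simple_self E w⟩ : IntermediateField.adjoin E {w}) ⊗ₜ c, rfl⟩
    exact IntermediateField.adjoin.finiteDimensional (Algebra.IsIntegral.isIntegral w)
  | add x y hx hy =>
    obtain ⟨L, hL, hx'⟩ := hx
    obtain ⟨L', hL', hy'⟩ := hy
    refine ⟨L ⊔ L', inferInstance, ?_⟩
    obtain ⟨a, ha⟩ := jL_mono (le_sup_left : L ≤ L ⊔ L') x hx'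
    obtain ⟨b, hb⟩ := jL_mono (le_sup_right : L' ≤ L ⊔ L') y hy'
    exact ⟨a + b, by rw [map_add, ha, hb]⟩

omit [IsDomain B] [IsFractionRing B E] in
theorem jL_fam (n : ℕ) (c : ℕ → Ω ⊗[B] C) : ∃ L : IntermediateField E Ω, FiniteDimensional E L ∧
    ∀ i, i < n → ∃ y, jL L y = c i := by
  induction n with
  | zero => exact ⟨⊥, inferInstance, fun i hi => absurd hi (Nat.not_lt_zero i)⟩
  | succ n ih =>
    obtain ⟨L, hL, h⟩ := ih
    obtain ⟨L', hL', h'⟩ := jL_exists (E := E) (c n)
    refine ⟨L ⊔ L', inferInstance, fun i hi => ?_⟩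
    rcases Nat.lt_or_ge i n with h1 | h1
    · exact jL_mono (le_sup_left : L ≤ L ⊔ L') _ (h i h1)
    · have : i = n := by omega
      rw [this]
      exact jL_mono (le_sup_right : L' ≤ L ⊔ L') _ h'

end Lev

/-- integrally closed domains are stable under algebraic unions -/
theorem union_ic {B E Ω C : Type u} [CommRing B] [IsDomain B] [Field E] [Algebra B E]
    [IsFractionRing B E] [Field Ω] [Algebra E Ω] [Algebra B Ω] [IsScalarTower B E Ω]
    [Algebra.IsAlgebraic E Ω] [CommRing C] [Algebra B C]
    (h : ∀ L : IntermediateField E Ω, FiniteDimensional E L →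
      IsDomain (L ⊗[B] C) ∧ IsIntegrallyClosed (L ⊗[B] C)) :
    IsDomain (Ω ⊗[B] C) ∧ IsIntegrallyClosed (Ω ⊗[B] C) := by
  have hnt : Nontrivial (Ω ⊗[B] C) := by
    haveI := (h ⊥ inferInstance).1
    exact (jL_inj (B := B) (C := C) (⊥ : IntermediateField E Ω)).nontrivial
  have hnzd : NoZeroDivisors (Ω ⊗[B] C) := by
    refine ⟨fun {x y} hxy => ?_⟩
    obtain ⟨L, hL, hc⟩ := jL_fam (E := E) 2 (fun i => if i = 0 then x else y)
    obtain ⟨a, ha⟩ := hc 0 (by norm_num)
    obtain ⟨b, hb⟩ := hc 1 (by norm_num)
    rw [if_pos rfl] at ha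
    rw [if_neg one_ne_zero] at hb
    haveI := (h L hL).1
    have hab : a * b = 0 := by
      apply jL_inj (B := B) (C := C) L
      rw [map_mul, ha, hb, hxy, map_zero]
    rcases mul_eq_zero.1 hab with h1 | h1
    · left
      rw [← ha, h1, map_zero]
    · right
      rw [← hb, h1, map_zero]
  have hdom : IsDomain (Ω ⊗[B] C) := NoZeroDivisors.to_isDomain _
  refine ⟨hdom, ic_iff.2 fun n c a b hb hrel => ?_⟩
  obtain ⟨L, hL, hc⟩ := jL_fam (E := E) (n + 2)
    (fun i => if i < n then c i else if i = n then a else b)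
  haveI hLd := (h L hL).1
  have hLi := ic_iff.1 (h L hL).2
  have hcc : ∀ i, ∃ y, i < n → jL (B := B) (C := C) L y = c i := by
    intro i
    by_cases hi : i < n
    · obtain ⟨y, hy⟩ := hc i (by omega)
      rw [if_pos hi] at hy
      exact ⟨y, fun _ => hy⟩
    · exact ⟨0, fun h => (hi h).elim⟩
  choose c' hc' using hcc
  obtain ⟨a', ha'⟩ := hc n (by omega)
  obtain ⟨b', hb'⟩ := hc (n + 1) (by omega)
  rw [if_neg (lt_irrefl n), if_pos rfl] at ha'
  rw [if_neg (show ¬ n + 1 < n by omega), if_neg (show ¬ n + 1 = n by omega)] at hb'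
  have hb0 : b' ≠ 0 := by
    intro h0
    apply hb
    rw [← hb', h0, map_zero]
  obtain ⟨y, hy⟩ := hLi n c' a' b' hb0 (by
    apply jL_inj (B := B) (C := C) L
    rw [map_zero, map_add, map_pow, map_sum, ← hrel, ha']
    congr 1
    refine Finset.sum_congr rfl fun i hi => ?_
    rw [map_mul, map_mul, map_pow, map_pow, ha', hb', hc' i (Finset.mem_range.1 hi)])
  exact ⟨jL L y, by rw [← ha', ← hb', ← map_mul, hy]⟩

end GE2

end Pool.Agent.Helper819.DC
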