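import Pool.Agent.Helper819.DC.Asm3
import Pool.Agent.Helper819.DC.DSC
import Pool.Agent.Helper819.DC.BC
import Pool.Agent.Helper819.DC.GE1
import Pool.Agent.Helper819.DC.GE2
import Pool.Agent.Helper819.DC.CLG

set_option autoImplicit false

open PowerSeries IsLocalRing TensorProduct

universe u

namespace Pool.Agent.Helper819.DC

section

variable {K : Type u} [Field K] [IsAlgClosed K]

/-- closure at finite level -/
theorem closure_all {B : Type u} [CommRing B] [IsDomain B] [Algebra K B] (eB : B ≃ₐ[K] K⟦X⟧)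
    {E L : Type u} [Field E] [Field L] [Algebra B E] [IsFractionRing B E]
    [Algebra E L] [Algebra B L] [IsScalarTower B E L] [FiniteDimensional E L] :
    (∃ e : integralClosure B L ≃+* K⟦X⟧,
      ∀ c : K, e (algebraMap B (integralClosure B L) (algebraMap K B c)) = C c) ∧
    Module.Finite B (integralClosure B L) :=
  CLG.closure_iso' hclosure ENDO.endo_finite eB (E := E)

/-- geometric normality of the generic fibre of `B[[t]]` -/
theorem geo_ic {B : Type u} [CommRing B] [IsDomain B] [IsPrincipalIdealRing B] [Algebra K B]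
    (eB : B ≃ₐ[K] K⟦X⟧)
    {E Ω : Type u} [Field E] [Field Ω] [Algebra B E] [IsFractionRing B E]
    [Algebra E Ω] [Algebra B Ω] [IsScalarTower B E Ω] [Algebra.IsAlgebraic E Ω] :
    IsDomain (Ω ⊗[B] B⟦X⟧) ∧ IsIntegrallyClosed (Ω ⊗[B] B⟦X⟧) := by
  refine GE2.union_ic (E := E) (fun L hL => ?_)
  obtain ⟨⟨e, -⟩, hfin⟩ := closure_all (K := K) eB (E := E) (L := L)
  exact GE1.finite_ic (K := K) (fun A B _ _ _ _ _ _ => BC.base_change_one)
    (fun B _ _ _ => MVN2.ps_integrallyClosed) (fun B E _ _ _ _ _ _ h => FRC.frac_ic h)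
    (E := E) e hfin

/-- if there is a simultaneous parametrisation after the finite base change `ω`, then the
geometric generic fibre has the delta invariant of the special fibre -/
theorem geo_dc1 {τ r : ℕ} (D : Setup K τ r) {A B : Type u} [CommRing A] [IsDomain A]
    [IsDiscreteValuationRing A] [Algebra K A] [CommRing B] [IsDomain B]
    [IsDiscreteValuationRing B] [IsAdicComplete (maximalIdeal B) B] [Algebra K B]
    (π : B →ₐ[K] K) (eB : B ≃ₐ[K] K⟦X⟧) (ω : A →ₐ[K] B) (hω : Function.Injective ω)
    (hfin : (ω : A →+* B).Finite) {E Ω : Type u} [Field E] [Algebra A E] [IsFractionRing A E]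
    [Field Ω] [IsAlgClosed Ω] [Algebra A Ω] [Algebra E Ω] [IsScalarTower A E Ω]
    [Algebra.IsAlgebraic E Ω] (s : Fin τ → A) (Φ : Par B r)
    (hsim : SimPar D π (fun k => ω (s k)) Φ) :
    DC.delta Ω (Fibre A Ω (D.F s)) = (D.delta : Cardinal) := by
  obtain ⟨v, hv⟩ := (IsPrincipalIdealRing.principal (maximalIdeal B)).principal
  letI algAB : Algebra A B := (ω : A →+* B).toAlgebra
  have hωmap : ∀ a, algebraMap A B a = ω a := fun a => rfl
  haveI : Module.Finite A B := hfin
  haveI : IsScalarTower K A B := IsScalarTower.of_algebraMap_eq (fun c => by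
    rw [hωmap, AlgHom.commutes])
  haveI : FaithfulSMul A B := (faithfulSMul_iff_algebraMap_injective A B).mpr hω
  haveI : Module.IsTorsionFree A B := inferInstance
  haveI : Module.Free A B := inferInstance
  haveI : FaithfulSMul A Ω := by
    rw [faithfulSMul_iff_algebraMap_injective, IsScalarTower.algebraMap_eq A E Ω]
    exact (algebraMap E Ω).injective.comp (IsFractionRing.injective A E)
  haveI : Algebra.IsAlgebraic A B := inferInstance
  let l : B →ₐ[A] Ω := IsAlgClosed.lift
  letI algBΩ : Algebra B Ω := (l : B →+* Ω).toAlgebra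
  haveI : IsScalarTower A B Ω := IsScalarTower.of_algebraMap_eq (fun a => by
    show algebraMap A Ω a = l (algebraMap A B a)
    rw [AlgHom.commutes])
  have hl : Function.Injective (algebraMap B Ω) := by
    haveI : Algebra.IsIntegral A B := Algebra.IsIntegral.of_finite A B
    rw [injective_iff_map_eq_zero]
    intro b hb
    have h0 : RingHom.ker (algebraMap B Ω) = ⊥ := by
      refine Ideal.eq_bot_of_comap_eq_bot (R := A) ?_
      rw [RingHom.comap_ker, ← IsScalarTower.algebraMap_eq,
        ← RingHom.injective_iff_ker_eq_bot]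
      exact FaithfulSMul.algebraMap_injective A Ω
    have h1 : b ∈ RingHom.ker (algebraMap B Ω) := hb
    rwa [h0] at h1
  haveI : FaithfulSMul B Ω := (faithfulSMul_iff_algebraMap_injective B Ω).mpr hl
  letI : Algebra (FractionRing B) Ω := FractionRing.liftAlgebra B Ω
  haveI : IsScalarTower B (FractionRing B) Ω := FractionRing.isScalarTower_liftAlgebra B Ω
  haveI : Algebra.IsAlgebraic (FractionRing B) Ω := by
    haveI : Algebra.IsAlgebraic A Ω := (IsFractionRing.comap_isAlgebraic_iff (K := E)).mpr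
      inferInstance
    haveI : Algebra.IsAlgebraic B Ω := Algebra.IsAlgebraic.extendScalars (R := A) hω
    exact IsFractionRing.comap_isAlgebraic_iff.mp (inferInstance : Algebra.IsAlgebraic B Ω)
  obtain ⟨h1, h2⟩ := geo_ic (K := K) eB (E := FractionRing B) (Ω := Ω)
  have h3 := dc1_all D π v hv (fun k => ω (s k)) Φ hsim hl h1 h2
  obtain ⟨e⟩ := BC.base_change_fibre (A := A) (B := B) (Ω := Ω) (D.F s)
  rw [DSC.delta_congr e]
  have h4 : map2 (algebraMap A B) (D.F s) = D.F (fun k => ω (s k)) :=
    tools.map2_fam ω D.f D.g s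
  rw [h4, h3]

/-- if the geometric generic fibre has the delta invariant of the special fibre then there is a
simultaneous parametrisation after a finite base change -/
theorem geo_dc2 {τ r : ℕ} (D : Setup K τ r) (hr : 0 < r) {A : Type u} [CommRing A] [IsDomain A]
    [IsDiscreteValuationRing A] [Algebra K A] (eA : A ≃ₐ[K] K⟦X⟧) {E Ω : Type u} [Field E]
    [Algebra A E] [IsFractionRing A E] [Field Ω] [Algebra A Ω] [Algebra E Ω]
    [IsScalarTower A E Ω] [Algebra.IsAlgebraic E Ω] (s : Fin τ → A)
    (hs : ∀ k, s k ∈ maximalIdeal A)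
    (h : DC.delta Ω (Fibre A Ω (D.F s)) = (D.delta : Cardinal)) :
    ∃ (ω : A →ₐ[K] K⟦X⟧) (Φ : Par K⟦X⟧ r), Function.Injective ω ∧
      SimPar D (piPS K) (fun k => ω (s k)) Φ := by
  obtain ⟨L, hL, h1⟩ := DSC.descent (A := A) (E := E) (Ω := Ω)
    (R := A⟦X⟧⟦X⟧ ⧸ Ideal.span {D.F s}) D.delta h
  obtain ⟨⟨e, he⟩, hfin⟩ := closure_all (K := K) eA (E := E) (L := L)
  let ω₀ : A →+* K⟦X⟧ := (e : integralClosure A L →+* K⟦X⟧).comp (algebraMap A _)
  let ω : A →ₐ[K] K⟦X⟧ := { ω₀ with
    commutes' := fun c => by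
      show e (algebraMap A _ (algebraMap K A c)) = _
      rw [he]
      rfl }
  letI algAB : Algebra A K⟦X⟧ := ω₀.toAlgebra
  letI algBL : Algebra K⟦X⟧ L :=
    ((algebraMap (integralClosure A L) L).comp (e.symm : K⟦X⟧ →+* integralClosure A L)).toAlgebra
  have hAB : ∀ a, algebraMap A K⟦X⟧ a = ω a := fun a => rfl
  haveI tower : IsScalarTower A K⟦X⟧ L := IsScalarTower.of_algebraMap_eq (fun a => by
    show algebraMap A L a = algebraMap (integralClosure A L) L (e.symm (e (algebraMap A _ a)))
    rw [e.symm_apply_apply]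
    rfl)
  haveI fin : Module.Finite A K⟦X⟧ := by
    have h2 : (algebraMap A (integralClosure A L)).Finite := RingHom.finite_algebraMap.mpr hfin
    have h3 : ω₀.Finite := (RingHom.Finite.of_surjective (e : integralClosure A L →+* K⟦X⟧)
      e.surjective).comp h2
    exact h3
  have hωinj : Function.Injective ω := by
    have h2 : Function.Injective (algebraMap A (integralClosure A L)) := by
      have h3 : Function.Injective (algebraMap A L) := by
        rw [IsScalarTower.algebraMap_eq A E L]
        exact (algebraMap E L).injective.comp (IsFractionRing.injective A E)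
      intro a b hab
      exact h3 (congrArg (algebraMap (integralClosure A L) L) hab)
    exact e.injective.comp h2
  haveI : FaithfulSMul A K⟦X⟧ := (faithfulSMul_iff_algebraMap_injective A K⟦X⟧).mpr hωinj
  haveI : Module.IsTorsionFree A K⟦X⟧ := inferInstance
  haveI : Module.Free A K⟦X⟧ := inferInstance
  haveI frac : IsFractionRing K⟦X⟧ L := by
    haveI : IsFractionRing (integralClosure A L) L :=
      integralClosure.isFractionRing_of_finite_extension (A := A) (K := E) (L := L)
    exact (IsFractionRing.isFractionRing_iff_of_base_ringEquiv (R := integralClosure A L)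
      (S := L) e).mp inferInstance
  obtain ⟨ε⟩ := BC.base_change_fibre (A := A) (B := K⟦X⟧) (Ω := L) (D.F s)
  have h4 : map2 (algebraMap A K⟦X⟧) (D.F s) = D.F (fun k => ω (s k)) :=
    tools.map2_fam ω D.f D.g s
  have h5 : DC.delta L (Fibre K⟦X⟧ L (D.F (fun k => ω (s k)))) = (D.delta : Cardinal) := by
    rw [← h4, ← DSC.delta_congr ε]
    exact h1
  obtain ⟨πA⟩ : Nonempty (A →ₐ[K] K) := ⟨(piPS K).comp (eA : A →ₐ[K] K⟦X⟧)⟩
  obtain ⟨Φ, hΦ⟩ := dc2_all D (piPS K) X maxPS hr (E := L) (fun k => ω (s k))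
    (fun k => PSH.map_max πA (piPS K) ω (s k) (hs k)) h5
  exact ⟨ω, Φ, hωinj, hΦ⟩

end

end Pool.Agent.Helper819.DC
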