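import Pool.Agent.Helper819.DC.Asm4

set_option autoImplicit false

open PowerSeries IsLocalRing TensorProduct

universe u

namespace Pool.Agent.Helper819.DC

section

variable {K : Type u} [Field K] [IsAlgClosed K]

/-- finiteness of the normalisation -/
theorem theta_norm' {τ r : ℕ} (D : Setup K τ r) (T : TBasis D) (U : UnivFam D T)
    (θ : OO K τ →ₐ[K] OO K T.m) (hθ : ∀ k, θ (MvPowerSeries.X k) = U.s k)
    (J : Ideal (OO K τ)) (hJ : J = RingHom.ker θ) :
    Nonempty (integralClosure (OO K τ ⧸ J) (FractionRing (OO K τ ⧸ J)) ≃ₐ[K] OO K T.m) ∧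
    Module.Finite (OO K τ ⧸ J) (integralClosure (OO K τ ⧸ J) (FractionRing (OO K τ ⧸ J))) := by
  subst hJ
  letI : Algebra (OO K τ ⧸ RingHom.ker θ) (OO K T.m) :=
    (Ideal.Quotient.lift (RingHom.ker θ) (θ : OO K τ →+* OO K T.m) (fun a ha => ha)).toAlgebra
  have hmap : ∀ a, algebraMap (OO K τ ⧸ RingHom.ker θ) (OO K T.m)
      (Ideal.Quotient.mk _ a) = θ a := fun a => rfl
  haveI : IsScalarTower K (OO K τ ⧸ RingHom.ker θ) (OO K T.m) := by
    refine IsScalarTower.of_algebraMap_eq (R := K) (S := OO K τ ⧸ RingHom.ker θ)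
      (A := OO K T.m) (fun c => ?_)
    have : algebraMap K (OO K τ ⧸ RingHom.ker θ) c =
      Ideal.Quotient.mk _ (algebraMap K (OO K τ) c) := rfl
    rw [this, hmap, AlgHom.commutes]
  obtain ⟨s, hs, hcond⟩ := theta_birational D T U θ hθ
  haveI : IsIntegrallyClosed (OO K T.m) := MVN1.mv_integrallyClosed.2
  have hinj : Function.Injective (algebraMap (OO K τ ⧸ RingHom.ker θ) (OO K T.m)) := by
    rw [injective_iff_map_eq_zero]
    intro a ha
    obtain ⟨a, rfl⟩ := Ideal.Quotient.mk_surjective a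
    rw [hmap] at ha
    exact Ideal.Quotient.eq_zero_iff_mem.mpr ha
  haveI hfin : Module.Finite (OO K τ ⧸ RingHom.ker θ) (OO K T.m) := by
    have h1 : (θ : OO K τ →+* OO K T.m).Finite := theta_finite D T U θ hθ
    have h2 : ((algebraMap (OO K τ ⧸ RingHom.ker θ) (OO K T.m)).comp
      (Ideal.Quotient.mk (RingHom.ker θ))).Finite := h1
    exact RingHom.finite_algebraMap.mp (RingHom.Finite.of_comp_finite h2)
  obtain ⟨e⟩ := hnorm (OO K τ ⧸ RingHom.ker θ) (OO K T.m) hinj (Ideal.Quotient.mk _ s)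
    (by rw [hmap]; exact mem_nonZeroDivisors_of_ne_zero hs)
    (fun o => by
      obtain ⟨s', hs'⟩ := hcond o
      exact ⟨Ideal.Quotient.mk _ s', by rw [hmap, hmap, hs']⟩)
    (Algebra.IsIntegral.of_finite _ _)
    (fun x hx => (IsIntegrallyClosed.isIntegral_iff).mp hx)
  exact ⟨⟨(e.restrictScalars K).symm⟩, Module.Finite.equiv e.toLinearEquiv⟩

/-- the parameters of an arc are in the maximal ideal -/
theorem arc_mem {τ : ℕ} (α : OO K τ →ₐ[K] K⟦X⟧) (k : Fin τ) :
    α (MvPowerSeries.X k) ∈ maximalIdeal K⟦X⟧ := by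
  obtain ⟨π', -⟩ := exists_aug (K := K) τ
  refine PSH.map_max π' (piPS K) α _ ?_
  rw [mem_maximalIdeal, mem_nonunits_iff]
  intro h
  have := h.map (MvPowerSeries.constantCoeff (σ := Fin τ) (R := K))
  simp at this

/-- the characterisation of delta-constant arcs -/
theorem deltaConst_iff {τ r : ℕ} (D : Setup K τ r) (hr : 0 < r) (T : TBasis D)
    (U : UnivFam D T) (θ : OO K τ →ₐ[K] OO K T.m) (hθ : ∀ k, θ (MvPowerSeries.X k) = U.s k)
    (α : OO K τ →ₐ[K] K⟦X⟧) :
    DC.delta (AlgebraicClosure (LaurentSeries K)) (Fibre K⟦X⟧ (AlgebraicClosure (LaurentSeries K))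
      (D.F (fun k => α (MvPowerSeries.X k)))) = (D.delta : Cardinal) ↔
    RingHom.ker θ ≤ RingHom.ker α := by
  constructor
  · intro h
    obtain ⟨ω, Φ, hω, hsim⟩ := geo_dc2 D hr (AlgEquiv.refl (R := K) (A₁ := K⟦X⟧))
      (E := LaurentSeries K) (Ω := AlgebraicClosure (LaurentSeries K))
      (fun k => α (MvPowerSeries.X k)) (arc_mem α) h
    have h1 := ker_le_of_simPar D T U θ hθ (piPS K) (ω.comp α) Φ hsim
    intro a ha
    have h2 : ω (α a) = 0 := h1 ha
    rw [RingHom.mem_ker]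
    exact hω (by rw [h2, map_zero])
  · intro h
    obtain ⟨ω, β, hω, hβ⟩ := LO.lying_over_arc hclosure θ (theta_finite D T U θ hθ) α h
    obtain ⟨Φ, -, hsim⟩ := push_all D (piPS K) T U β
    have h2 : (fun k => β (U.s k)) = fun k => ω (α (MvPowerSeries.X k)) := by
      funext k
      rw [hβ, hθ]
    rw [h2] at hsim
    exact geo_dc1 D (piPS K) (AlgEquiv.refl (R := K) (A₁ := K⟦X⟧)) ω hω
      (ENDO.endo_finite ω hω) (E := LaurentSeries K) (fun k => α (MvPowerSeries.X k)) Φ hsim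

end

end Pool.Agent.Helper819.DC
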