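import Pool.Agent.Helper819.DC.Core2

set_option autoImplicit false

open PowerSeries IsLocalRing TensorProduct

universe u

namespace Pool.Agent.Helper819.DC


namespace CH3

theorem aux_exists_of_bar_eq_zero {K : Type u} [Field K] (h : K⟦X⟧⟦X⟧)
    (hb : PowerSeries.map (constantCoeff (R := K)) h = 0) : ∃ s : K⟦X⟧⟦X⟧, h = C X * s := by
  have h1 : ∀ n, ∃ s : K⟦X⟧, coeff n h = X * s := by
    intro n
    have h2 : constantCoeff (coeff n h) = 0 := by
      have := congrArg (coeff n) hb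
      simpa [PowerSeries.coeff_map] using this
    exact (PowerSeries.X_dvd_iff.2 h2)
  choose s hs using h1
  refine ⟨PowerSeries.mk s, ?_⟩
  ext1 n
  rw [PowerSeries.coeff_C_mul, PowerSeries.coeff_mk, hs]

/-- truncation map -/
noncomputable def auxT {K : Type u} [Field K] {r : ℕ} (m : Fin r → ℕ) :
    (Fin r → K⟦X⟧) →ₗ[K] ((Σ i : Fin r, Fin (m i)) → K) :=
  LinearMap.pi fun p => (PowerSeries.coeff (R := K) (p.2 : ℕ)) ∘ₗ (LinearMap.proj p.1)

theorem auxT_apply {K : Type u} [Field K] {r : ℕ} (m : Fin r → ℕ) (w : Fin r → K⟦X⟧)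
    (p : Σ i : Fin r, Fin (m i)) : auxT m w p = coeff (p.2 : ℕ) (w p.1) := rfl

theorem auxT_surj {K : Type u} [Field K] {r : ℕ} (m : Fin r → ℕ) :
    Function.Surjective (auxT (K := K) m) := by
  intro v
  refine ⟨fun i => PowerSeries.mk fun k => if hk : k < m i then v ⟨i, ⟨k, hk⟩⟩ else 0, ?_⟩
  ext p
  rw [auxT_apply]
  simp

theorem aux_unit {K : Type u} [Field K] (e : K⟦X⟧) (m : ℕ) (he : e.order = m) :
    ∃ g g' : K⟦X⟧, e = X ^ m * g ∧ g * g' = 1 := by
  have he0 : e ≠ 0 := by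
    rintro rfl
    simp at he
  have h1 : e.order.toNat = m := by rw [he]; rfl
  have h2 : IsUnit (divXPowOrder e) := by
    rw [PowerSeries.isUnit_iff_constantCoeff, isUnit_iff_ne_zero]
    intro h
    exact he0 (constantCoeff_divXPowOrder_eq_zero_iff.1 h)
  obtain ⟨g', hg'⟩ := h2.exists_right_inv
  refine ⟨divXPowOrder e, g', ?_, hg'⟩
  rw [← h1]
  exact X_pow_order_mul_divXPowOrder.symm

theorem aux_dvd_iff {K : Type u} [Field K] (e w : K⟦X⟧) (m : ℕ) (he : e.order = m) :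
    e ∣ w ↔ ∀ j < m, coeff j w = 0 := by
  obtain ⟨g, g', h1, h2⟩ := aux_unit e m he
  rw [← PowerSeries.X_pow_dvd_iff]
  constructor
  · rintro ⟨c, rfl⟩
    exact ⟨g * c, by rw [h1]; ring⟩
  · rintro ⟨c, rfl⟩
    refine ⟨g' * c, ?_⟩
    rw [h1]
    calc X ^ m * c = X ^ m * c * 1 := by ring
      _ = X ^ m * c * (g * g') := by rw [h2]
      _ = _ := by ring

theorem aux_ker {K : Type u} [Field K] {r : ℕ} (e : Fin r → K⟦X⟧) (m : Fin r → ℕ)
    (he : ∀ i, (e i).order = m i) :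
    LinearMap.ker (auxT (K := K) m) = LinearMap.range (LinearMap.mulLeft K e) := by
  ext w
  rw [LinearMap.mem_ker, LinearMap.mem_range]
  constructor
  · intro h
    have h1 : ∀ i, e i ∣ w i := by
      intro i
      rw [aux_dvd_iff (e i) (w i) (m i) (he i)]
      intro j hj
      have := congrFun h ⟨i, ⟨j, hj⟩⟩
      rwa [auxT_apply] at this
    choose c hc using h1
    exact ⟨c, by funext i; simp [hc i]⟩
  · rintro ⟨c, rfl⟩
    funext p
    rw [auxT_apply]
    have : e p.1 ∣ (LinearMap.mulLeft K e c) p.1 := ⟨c p.1, by simp⟩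
    exact (aux_dvd_iff _ _ _ (he p.1)).1 this p.2 p.2.2

theorem aux_quot {K : Type u} [Field K] {r : ℕ} (e : Fin r → K⟦X⟧) (m : Fin r → ℕ)
    (he : ∀ i, (e i).order = m i) :
    FiniteDimensional K ((Fin r → K⟦X⟧) ⧸ LinearMap.range (LinearMap.mulLeft K e)) ∧
    Module.finrank K ((Fin r → K⟦X⟧) ⧸ LinearMap.range (LinearMap.mulLeft K e)) = ∑ i, m i := by
  rw [← aux_ker e m he]
  let E := (auxT (K := K) m).quotKerEquivOfSurjective (auxT_surj m)
  refine ⟨Module.Finite.equiv E.symm, ?_⟩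
  rw [E.finrank_eq]
  simp

theorem aux_index {K V : Type*} [Field K] [AddCommGroup V] [Module K V] (μ : V →ₗ[K] V)
    (hμ : Function.Injective μ) (W : Submodule K V) (hW : W.map μ ≤ W)
    (hfin : FiniteDimensional K (V ⧸ W.map μ)) :
    Module.finrank K (V ⧸ LinearMap.range μ) = Module.finrank K (W.map (W.map μ).mkQ) := by
  have hr : W.map μ ≤ LinearMap.range μ := LinearMap.map_le_range
  have h1 := Submodule.finrank_quotient_add_finrank (W.map (W.map μ).mkQ)
  have h2 := Submodule.finrank_quotient_add_finrank ((LinearMap.range μ).map (W.map μ).mkQ)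
  have h3 := (Submodule.quotientQuotientEquivQuotient (W.map μ) W hW).finrank_eq
  have h4 := (Submodule.quotientQuotientEquivQuotient (W.map μ) (LinearMap.range μ) hr).finrank_eq
  have hker : LinearMap.ker ((W.map μ).mkQ ∘ₗ μ) = W := by
    rw [LinearMap.ker_comp, Submodule.ker_mkQ]
    exact Submodule.comap_map_eq_of_injective hμ W
  have h5 := ((W.map μ).mkQ ∘ₗ μ).quotKerEquivRange.finrank_eq
  rw [LinearMap.range_comp, hker] at h5
  omega

theorem aux_index_le {K : Type u} [Field K] {r : ℕ} (f : K⟦X⟧⟦X⟧) (φ : Par K r)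
    (hf : φ f = 0) (d : K⟦X⟧⟦X⟧) (hd : ∀ i, φ d i ≠ 0)
    (hcond : ∀ w, ∃ a, φ a = φ d * w) (n : Fin r → ℕ) (hn : ∀ i, (φ (C X) i).order = n i)
    (ν : ℕ) (hν : (PowerSeries.map (constantCoeff (R := K)) f).order = ν) : ∑ i, n i ≤ ν := by
  classical
  let μ : (Fin r → K⟦X⟧) →ₗ[K] (Fin r → K⟦X⟧) := LinearMap.mulLeft K (φ (C X))
  have hμ : ∀ w, μ w = φ (C X) * w := fun w => rfl
  have hx0 : ∀ i, φ (C X) i ≠ 0 := by
    intro i h
    have := hn i
    rw [h] at this
    simp at this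
  have hμinj : Function.Injective μ := by
    intro a b hab
    rw [hμ, hμ] at hab
    funext i
    have := congrFun hab i
    simp only [Pi.mul_apply] at this
    exact mul_left_cancel₀ (hx0 i) this
  let W : Submodule K (Fin r → K⟦X⟧) := LinearMap.range φ.toLinearMap
  have hWmem : ∀ w, w ∈ W ↔ ∃ a, φ a = w := fun w => Iff.rfl
  have hW : W.map μ ≤ W := by
    rintro _ ⟨w, ⟨a, rfl⟩, rfl⟩
    exact ⟨C X * a, by simp [hμ]⟩
  have hfin : FiniteDimensional K ((Fin r → K⟦X⟧) ⧸ W.map μ) := by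
    have h1 := (aux_quot (φ (C X * d)) (fun i => (φ (C X * d) i).order.toNat) (by
      intro i
      rw [PowerSeries.coe_toNat_order]
      rw [map_mul]
      exact mul_ne_zero (hx0 i) (hd i))).1
    have h2 : LinearMap.range (LinearMap.mulLeft K (φ (C X * d))) ≤ W.map μ := by
      rintro _ ⟨w, rfl⟩
      obtain ⟨a, ha⟩ := hcond w
      refine ⟨φ a, ⟨a, rfl⟩, ?_⟩
      rw [hμ, ha]
      simp [mul_assoc]
    exact Module.Finite.of_surjective (Submodule.factor h2) (Submodule.factor_surjective h2)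
  have hidx := aux_index μ hμinj W hW hfin
  rw [(aux_quot (φ (C X)) n hn).2] at hidx
  rw [hidx]
  -- spanning set
  let S : (Fin ν → K) →ₗ[K] ((Fin r → K⟦X⟧) ⧸ W.map μ) :=
    (W.map μ).mkQ ∘ₗ φ.toLinearMap ∘ₗ (Fintype.linearCombination K (fun j : Fin ν => (X : K⟦X⟧⟦X⟧) ^ (j : ℕ)))
  have hS : W.map (W.map μ).mkQ ≤ LinearMap.range S := by
    rintro _ ⟨_, ⟨h, rfl⟩, rfl⟩
    obtain ⟨g, g', h1, h2⟩ := aux_unit _ ν hν
    set hb := PowerSeries.map (constantCoeff (R := K)) h with hhb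
    -- decomposition
    let c : Fin ν → K := fun j => coeff (j : ℕ) hb
    let p : K⟦X⟧⟦X⟧ := ∑ j : Fin ν, c j • (X : K⟦X⟧⟦X⟧) ^ (j : ℕ)
    have hdec : ∃ q : K⟦X⟧⟦X⟧, PowerSeries.map (constantCoeff (R := K)) (h - p - q * f) = 0 := by
      have hX : X ^ ν ∣ hb - ∑ j : Fin ν, c j • (X : K⟦X⟧) ^ (j : ℕ) := by
        rw [PowerSeries.X_pow_dvd_iff]
        intro k hk
        rw [map_sub, map_sum]
        rw [Finset.sum_eq_single (⟨k, hk⟩ : Fin ν)]
        · simp [c]
        · intro b _ hb'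
          rw [PowerSeries.coeff_smul, PowerSeries.coeff_X_pow, if_neg, smul_zero]
          intro h'
          exact hb' (Fin.ext h'.symm)
        · simp
      obtain ⟨q₀, hq₀⟩ := hX
      refine ⟨PowerSeries.map (C (R := K)) (g' * q₀), ?_⟩
      have h3 : PowerSeries.map (constantCoeff (R := K)) (PowerSeries.map (C (R := K)) (g' * q₀))
          = g' * q₀ := by
        ext k
        rw [PowerSeries.coeff_map, PowerSeries.coeff_map, PowerSeries.constantCoeff_C]
      have h4 : PowerSeries.map (constantCoeff (R := K)) p =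
          ∑ j : Fin ν, c j • (X : K⟦X⟧) ^ (j : ℕ) := by
        have h41 : ∀ (a : K) (j : ℕ), PowerSeries.map (constantCoeff (R := K))
            (a • (X : K⟦X⟧⟦X⟧) ^ j) = a • (X : K⟦X⟧) ^ j := by
          intro a j
          ext k
          rw [PowerSeries.coeff_map, PowerSeries.coeff_smul, PowerSeries.coeff_smul,
            PowerSeries.coeff_X_pow, PowerSeries.coeff_X_pow]
          split_ifs <;> simp
        rw [map_sum]
        exact Finset.sum_congr rfl fun j _ => h41 _ _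
      rw [map_sub, map_sub, map_mul, h3, h4, ← hhb, hq₀, h1]
      calc X ^ ν * q₀ - g' * q₀ * (X ^ ν * g) = X ^ ν * q₀ * (1 - g * g') := by ring
        _ = 0 := by rw [h2]; ring
    obtain ⟨q, hq⟩ := hdec
    obtain ⟨s, hs⟩ := aux_exists_of_bar_eq_zero _ hq
    refine ⟨c, ?_⟩
    have h5 : h = p + q * f + C X * s := by
      rw [← hs]; ring
    show (W.map μ).mkQ (φ (∑ j : Fin ν, c j • (X : K⟦X⟧⟦X⟧) ^ (j : ℕ))) = (W.map μ).mkQ (φ h)
    have h6 : (W.map μ).mkQ (φ (C X * s)) = 0 := by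
      rw [Submodule.mkQ_apply, Submodule.Quotient.mk_eq_zero]
      exact ⟨φ s, ⟨s, rfl⟩, by rw [hμ, map_mul]⟩
    have h7 : φ h = φ p + φ (C X * s) := by
      rw [h5, map_add, map_add, map_mul φ q f, hf, mul_zero, add_zero]
    rw [h7, map_add (W.map μ).mkQ, h6, add_zero]
  calc Module.finrank K (W.map (W.map μ).mkQ) ≤ Module.finrank K (LinearMap.range S) :=
        Submodule.finrank_mono hS
    _ ≤ Module.finrank K (Fin ν → K) := LinearMap.finrank_range_le S
    _ = ν := by simp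

/-- the monic equation of the expected degree is a unit times `f` -/
theorem monic_eq_unit_mul {K : Type u} [Field K] {r : ℕ} (f : K⟦X⟧⟦X⟧) (φ : Par K r)
    (hker : RingHom.ker φ = Ideal.span {f}) (d : K⟦X⟧⟦X⟧) (hd : ∀ i, φ d i ≠ 0)
    (hcond : ∀ w, ∃ a, φ a = φ d * w) (n : Fin r → ℕ) (hn : ∀ i, (φ (C X) i).order = n i)
    (χ : Polynomial K⟦X⟧) (hχ : χ.Monic) (hdeg : χ.natDegree = ∑ i, n i)
    (h0 : φ (χ : K⟦X⟧⟦X⟧) = 0) :
    ∃ u : K⟦X⟧⟦X⟧, IsUnit u ∧ (χ : K⟦X⟧⟦X⟧) = u * f := by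
  have hf : φ f = 0 := by
    have : f ∈ RingHom.ker φ := by rw [hker]; exact Ideal.mem_span_singleton_self f
    exact this
  have h1 : (χ : K⟦X⟧⟦X⟧) ∈ RingHom.ker φ := h0
  rw [hker, Ideal.mem_span_singleton'] at h1
  obtain ⟨u, hu⟩ := h1
  refine ⟨u, ?_, hu.symm⟩
  set β := PowerSeries.map (constantCoeff (R := K)) with hβ
  have h2 : β (χ : K⟦X⟧⟦X⟧) = β u * β f := by rw [← hu, map_mul]
  have h3 : coeff (∑ i, n i) (β (χ : K⟦X⟧⟦X⟧)) = 1 := by
    rw [hβ, PowerSeries.coeff_map, Polynomial.coeff_coe, ← hdeg]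
    rw [Polynomial.Monic.coeff_natDegree hχ]
    simp
  have h4 : (β (χ : K⟦X⟧⟦X⟧)).order ≤ (∑ i, n i : ℕ) := by
    apply PowerSeries.order_le
    rw [h3]
    exact one_ne_zero
  have h5 : β (χ : K⟦X⟧⟦X⟧) ≠ 0 := by
    intro h
    rw [h] at h3
    simp at h3
  have hf0 : β f ≠ 0 := by
    intro h
    apply h5
    rw [h2, h, mul_zero]
  have hu0 : β u ≠ 0 := by
    intro h
    apply h5
    rw [h2, h, zero_mul]
  have h6 := aux_index_le f φ hf d hd hcond n hn (β f).order.toNat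
    (PowerSeries.coe_toNat_order hf0).symm
  rw [h2, PowerSeries.order_mul, ← PowerSeries.coe_toNat_order hf0,
    ← PowerSeries.coe_toNat_order hu0] at h4
  have h7 : (β u).order.toNat + (β f).order.toNat ≤ ∑ i, n i := by exact_mod_cast h4
  have h8 : (β u).order.toNat = 0 := by omega
  have h9 : coeff 0 (β u) ≠ 0 := by
    rw [← h8]
    exact PowerSeries.coeff_order hu0
  rw [PowerSeries.isUnit_iff_constantCoeff, PowerSeries.isUnit_iff_constantCoeff,
    isUnit_iff_ne_zero]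
  intro h10
  apply h9
  rw [hβ, PowerSeries.coeff_map, PowerSeries.coeff_zero_eq_constantCoeff_apply]
  exact h10

end CH3

end Pool.Agent.Helper819.DC
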