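import Mathlib

set_option autoImplicit false

open PowerSeries IsLocalRing TensorProduct

universe u

namespace Pool.Agent.Helper819.DC.CSEL


theorem exists_eval {K : Type u} [Field K] {O : Type u} [CommRing O] [Algebra K O] (m : Ideal O)
    [IsAdicComplete m O] (x : O) (hx : x ∈ m) : ∃ φ : K⟦X⟧ →ₐ[K] O, φ X = x := by
  let _ : WithIdeal O := ⟨m⟩
  let _ : UniformSpace K := ⊥
  have : DiscreteUniformity K := ⟨rfl⟩
  have hc : CompleteSpace O ∧ T2Space O := (IsAdic.isAdicComplete_iff (I := m) rfl).1 inferInstance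
  have := hc.1
  have := hc.2
  have : ContinuousSMul K O := ⟨by
    rw [continuous_iff_continuousAt]
    rintro ⟨c, o⟩
    rw [ContinuousAt, nhds_prod_eq, nhds_discrete K, Filter.pure_prod, Filter.tendsto_map'_iff]
    have : ContinuousAt (fun o' : O => c • o') o := by
      have : (fun o' : O => c • o') = fun o' => algebraMap K O c * o' := by
        ext; rw [Algebra.smul_def]
      rw [this]
      exact (continuous_const.mul continuous_id).continuousAt
    exact this⟩
  have ha : PowerSeries.HasEval x := WithIdeal.isTopologicallyNilpotent_of_mem hx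
  refine ⟨PowerSeries.aeval ha, ?_⟩
  rw [← Polynomial.coe_X, PowerSeries.aeval_coe, Polynomial.aeval_X]

theorem exists_fg {K : Type u} [Field K] {O : Type u} [CommRing O] [IsLocalRing O]
    [IsNoetherianRing O] [Algebra K O]
    (hO : ∀ a : O, ∃ c : K, a - algebraMap K O c ∈ maximalIdeal O) (n : ℕ) :
    ∃ V : Submodule K O, V.FG ∧ ∀ a : O, ∃ v ∈ V, a - v ∈ maximalIdeal O ^ n := by
  induction n with
  | zero => exact ⟨⊥, Submodule.fg_bot, fun a => ⟨0, Submodule.zero_mem _, by simp⟩⟩
  | succ n ih =>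
    obtain ⟨V, hV, h⟩ := ih
    obtain ⟨s, hs⟩ := (IsNoetherian.noetherian (maximalIdeal O ^ n) : (maximalIdeal O ^ n).FG)
    refine ⟨V ⊔ Submodule.span K (s : Set O), hV.sup ⟨s, rfl⟩, fun a => ?_⟩
    obtain ⟨v, hv, hav⟩ := h a
    have key : ∀ r ∈ maximalIdeal O ^ n, ∃ w ∈ Submodule.span K (s : Set O),
        r - w ∈ maximalIdeal O ^ (n + 1) := by
      intro r hr
      rw [← hs] at hr
      refine Submodule.span_induction ?_ ?_ ?_ ?_ hr
      · intro y hy
        exact ⟨y, Submodule.subset_span hy, by simp⟩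
      · exact ⟨0, Submodule.zero_mem _, by simp⟩
      · rintro y z - - ⟨w1, hw1, h1⟩ ⟨w2, hw2, h2⟩
        refine ⟨w1 + w2, Submodule.add_mem _ hw1 hw2, ?_⟩
        have := Ideal.add_mem _ h1 h2
        convert this using 1
        ring
      · rintro b y hy ⟨w, hw, h1⟩
        obtain ⟨c, hc⟩ := hO b
        refine ⟨c • w, Submodule.smul_mem _ _ hw, ?_⟩
        have hy' : y ∈ maximalIdeal O ^ n := by rw [← hs]; exact hy
        have h2 : (b - algebraMap K O c) * y ∈ maximalIdeal O ^ (n + 1) := by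
          rw [pow_succ', ]
          exact Ideal.mul_mem_mul hc hy'
        have h3 : algebraMap K O c * (y - w) ∈ maximalIdeal O ^ (n + 1) := Ideal.mul_mem_left _ _ h1
        have := Ideal.add_mem _ h2 h3
        convert this using 1
        rw [smul_eq_mul, Algebra.smul_def c w]
        ring
    obtain ⟨w, hw, hw'⟩ := key _ hav
    refine ⟨v + w, Submodule.add_mem_sup hv hw, ?_⟩
    convert hw' using 1
    ring

theorem finite_of_pow_le {K : Type u} [Field K] {O : Type u} [CommRing O] [IsLocalRing O]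
    [IsNoetherianRing O] [Algebra K O]
    (hO : ∀ a : O, ∃ c : K, a - algebraMap K O c ∈ maximalIdeal O) (n : ℕ) (J : Ideal O)
    (hJ : maximalIdeal O ^ n ≤ J) :
    ∃ V : Submodule K O, V.FG ∧ ∀ a : O, ∃ v ∈ V, a - v ∈ J := by
  obtain ⟨V, hV, h⟩ := exists_fg hO n
  exact ⟨V, hV, fun a => by obtain ⟨v, hv, h1⟩ := h a; exact ⟨v, hv, hJ h1⟩⟩

theorem finiteDimensional_of_fg {K : Type u} [Field K] {O : Type u} [CommRing O] [Algebra K O]
    (J : Ideal O) (V : Submodule K O) (hV : V.FG) (h : ∀ a : O, ∃ v ∈ V, a - v ∈ J) :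
    FiniteDimensional K (O ⧸ J) := by
  have h1 : (V.map (Ideal.Quotient.mkₐ K J).toLinearMap).FG := hV.map _
  have h2 : V.map (Ideal.Quotient.mkₐ K J).toLinearMap = ⊤ := by
    rw [eq_top_iff]
    rintro y -
    obtain ⟨a, rfl⟩ := Ideal.Quotient.mk_surjective y
    obtain ⟨v, hv, hav⟩ := h a
    refine ⟨v, hv, ?_⟩
    show Ideal.Quotient.mk J v = Ideal.Quotient.mk J a
    exact ((Ideal.Quotient.mk_eq_mk_iff_sub_mem a v).2 hav).symm
  rw [h2] at h1
  exact ⟨h1⟩

/-- if all primes above `J` are the maximal ideal then a power of `m` is in `J` -/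
theorem pow_le_of_primes {O : Type u} [CommRing O] [IsLocalRing O] [IsNoetherianRing O]
    (J : Ideal O) (h : ∀ P : Ideal O, P.IsPrime → J ≤ P → P = maximalIdeal O) :
    ∃ n, maximalIdeal O ^ n ≤ J := by
  have h1 : maximalIdeal O ≤ J.radical := by
    rw [Ideal.radical_eq_sInf]
    refine le_sInf ?_
    rintro P ⟨hJP, hP⟩
    exact (h P hP hJP).ge
  exact Ideal.exists_pow_le_of_le_radical_of_fg h1 (IsNoetherian.noetherian _)


/-- a nonzero power series over a field is a power of `X` times a unit -/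
theorem exists_pow_mul_unit {K : Type u} [Field K] (f : K⟦X⟧) (hf : f ≠ 0) :
    ∃ (n : ℕ) (u : K⟦X⟧), IsUnit u ∧ f = X ^ n * u :=
  ⟨f.order.toNat, divXPowOrder f, isUnit_divided_by_X_pow_order hf,
    X_pow_order_mul_divXPowOrder.symm⟩

/-- curve selection in complete local rings -/
theorem curve_selection {K : Type u} [Field K] [IsAlgClosed K]
    (hnorm : ∀ (D : Type u) [CommRing D] [IsDomain D] [Algebra K D] (i : K⟦X⟧ →ₐ[K] D),
      Function.Injective i → i.toRingHom.Finite →
      ∃ j : D →ₐ[K] K⟦X⟧, Function.Injective j ∧ j.toRingHom.Finite ∧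
        ∃ d : D, d ≠ 0 ∧ ∀ w : K⟦X⟧, ∃ a : D, j a = j d * w)
    {O : Type u} [CommRing O] [IsLocalRing O] [IsNoetherianRing O]
    [IsAdicComplete (maximalIdeal O) O] [Algebra K O]
    (hO : ∀ a : O, ∃ c : K, a - algebraMap K O c ∈ maximalIdeal O)
    (I : Ideal O) (h : ¬ FiniteDimensional K (O ⧸ I)) :
    ∃ β : O →ₐ[K] K⟦X⟧, I ≤ RingHom.ker β ∧ ¬ (maximalIdeal O ≤ RingHom.ker β) := by
  -- a prime above I different from m
  have h1 : ∃ P : Ideal O, P.IsPrime ∧ I ≤ P ∧ P ≠ maximalIdeal O := by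
    by_contra hcon
    push Not at hcon
    obtain ⟨n, hn⟩ := pow_le_of_primes I hcon
    obtain ⟨V, hV, hV2⟩ := finite_of_pow_le hO n I hn
    exact h (finiteDimensional_of_fg I V hV hV2)
  obtain ⟨Q, ⟨hQp, hIQ, hQm⟩, hmax⟩ :=
    (wellFounded_gt (α := Ideal O)).has_min {P : Ideal O | P.IsPrime ∧ I ≤ P ∧ P ≠ maximalIdeal O} h1
  have hQle : Q ≤ maximalIdeal O := IsLocalRing.le_maximalIdeal hQp.ne_top
  obtain ⟨x, hxm, hxQ⟩ : ∃ x ∈ maximalIdeal O, x ∉ Q := by
    by_contra hcon
    push Not at hcon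
    exact hQm (le_antisymm hQle hcon)
  -- the ideal Q + (x)
  obtain ⟨n, hn⟩ := pow_le_of_primes (Q ⊔ Ideal.span {x}) (by
    intro P hP hQP
    by_contra hPm
    have hxP : x ∈ P := hQP (Ideal.mem_sup_right (Ideal.mem_span_singleton_self x))
    have hQP' : Q ≤ P := le_trans le_sup_left hQP
    have : ¬ (P > Q) := hmax P ⟨hP, le_trans hIQ hQP', hPm⟩
    exact this (lt_of_le_of_ne hQP' (by rintro rfl; exact hxQ hxP)))
  obtain ⟨V, ⟨s, hs⟩, hV2⟩ := finite_of_pow_le hO n _ hn
  obtain ⟨φ, hφ⟩ := exists_eval (K := K) (maximalIdeal O) x hxm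
  let mk : O →ₐ[K] O ⧸ Q := Ideal.Quotient.mkₐ K Q
  let i : K⟦X⟧ →ₐ[K] O ⧸ Q := mk.comp φ
  have hiX : i X = Ideal.Quotient.mk Q x := by
    show mk (φ X) = _
    rw [hφ]; rfl
  have hx0 : Ideal.Quotient.mk Q x ≠ 0 := by
    rwa [Ne, Ideal.Quotient.eq_zero_iff_mem]
  have hinj : Function.Injective i := by
    rw [injective_iff_map_eq_zero]
    intro f hf
    by_contra hf0
    obtain ⟨k, u, hu, rfl⟩ := exists_pow_mul_unit f hf0
    rw [map_mul, map_pow, hiX] at hf
    rcases mul_eq_zero.1 hf with h0 | h0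
    · exact hx0 (pow_eq_zero_iff (by rintro rfl; simp at h0) |>.1 h0)
    · exact (hu.map i).ne_zero h0
  have hfin : i.toRingHom.Finite := by
    -- decomposition step
    have step : ∀ d : O ⧸ Q, ∃ (c : O → K) (d' : O ⧸ Q),
        d = ∑ e ∈ s, algebraMap K (O ⧸ Q) (c e) * Ideal.Quotient.mk Q e +
          Ideal.Quotient.mk Q x * d' := by
      intro d
      obtain ⟨a, rfl⟩ := Ideal.Quotient.mk_surjective d
      obtain ⟨v, hv, hav⟩ := hV2 a
      rw [← hs, Submodule.mem_span_finset] at hv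
      obtain ⟨c, -, hc⟩ := hv
      obtain ⟨q, hq, y, hy, hqy⟩ := Submodule.mem_sup.1 hav
      obtain ⟨z, rfl⟩ := Ideal.mem_span_singleton'.1 hy
      refine ⟨c, Ideal.Quotient.mk Q z, ?_⟩
      have h1 : a = v + (q + z * x) := by rw [hqy]; ring
      have h2 : Ideal.Quotient.mk Q q = 0 := Ideal.Quotient.eq_zero_iff_mem.2 hq
      have h3 : Ideal.Quotient.mk Q v =
          ∑ e ∈ s, algebraMap K (O ⧸ Q) (c e) * Ideal.Quotient.mk Q e := by
        rw [← hc, map_sum]
        refine Finset.sum_congr rfl fun e _ => ?_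
        rw [Algebra.smul_def, map_mul]
        rfl
      rw [h1, map_add, map_add, h2, h3, map_mul]
      ring
    choose C N hCN using step
    have hxtop : Ideal.span {Ideal.Quotient.mk Q x} ≠ (⊤ : Ideal (O ⧸ Q)) := by
      rw [Ne, Ideal.span_singleton_eq_top]
      intro hu
      obtain ⟨y, hy⟩ := hu.exists_right_inv
      obtain ⟨z, rfl⟩ := Ideal.Quotient.mk_surjective y
      rw [← map_mul, ← map_one (Ideal.Quotient.mk Q), Ideal.Quotient.eq] at hy
      have h1 : (1 : O) ∈ maximalIdeal O := by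
        have h2 := hQle hy
        have h3 : x * z ∈ maximalIdeal O := Ideal.mul_mem_right _ _ hxm
        have := Ideal.sub_mem _ h3 h2
        simpa using this
      exact (Ideal.ne_top_iff_one _).1 (maximalIdeal.isMaximal O).ne_top h1
    have hkrull := Ideal.iInf_pow_eq_bot_of_isDomain _ hxtop
    have main : ∀ d : O ⧸ Q, d = ∑ e ∈ s,
        i (PowerSeries.mk fun k => C (N^[k] d) e) * Ideal.Quotient.mk Q e := by
      intro d
      have hrec : ∀ (d : O ⧸ Q) (e : O), i (PowerSeries.mk fun k => C (N^[k] d) e) =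
          Ideal.Quotient.mk Q x * i (PowerSeries.mk fun k => C (N^[k] (N d)) e) +
            algebraMap K (O ⧸ Q) (C d e) := by
        intro d e
        rw [eq_X_mul_shift_add_const (PowerSeries.mk fun k => C (N^[k] d) e), map_add, map_mul,
          hiX]
        congr 1
        · congr 2
          ext k
          simp
        · rw [← PowerSeries.coeff_zero_eq_constantCoeff_apply, PowerSeries.coeff_mk]
          exact i.commutes (C d e)
      have hdelta : ∀ (n : ℕ) (d : O ⧸ Q), d - ∑ e ∈ s,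
          i (PowerSeries.mk fun k => C (N^[k] d) e) * Ideal.Quotient.mk Q e ∈
            Ideal.span {Ideal.Quotient.mk Q x} ^ n := by
        intro n
        induction n with
        | zero => intro d; simp
        | succ n ih =>
          intro d
          have h1 : d - ∑ e ∈ s,
            i (PowerSeries.mk fun k => C (N^[k] d) e) * Ideal.Quotient.mk Q e =
            Ideal.Quotient.mk Q x * (N d - ∑ e ∈ s,
            i (PowerSeries.mk fun k => C (N^[k] (N d)) e) * Ideal.Quotient.mk Q e) := by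
            have h2 := hCN d
            have h3 : ∑ e ∈ s, i (PowerSeries.mk fun k => C (N^[k] d) e) * Ideal.Quotient.mk Q e
              = Ideal.Quotient.mk Q x * ∑ e ∈ s,
              i (PowerSeries.mk fun k => C (N^[k] (N d)) e) * Ideal.Quotient.mk Q e
              + ∑ e ∈ s, algebraMap K (O ⧸ Q) (C d e) * Ideal.Quotient.mk Q e := by
              rw [Finset.mul_sum, ← Finset.sum_add_distrib]
              refine Finset.sum_congr rfl fun e _ => ?_
              rw [hrec]
              ring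
            rw [h3]
            calc d - _ = (∑ e ∈ s, algebraMap K (O ⧸ Q) (C d e) * Ideal.Quotient.mk Q e +
                Ideal.Quotient.mk Q x * N d) - (Ideal.Quotient.mk Q x * ∑ e ∈ s,
                i (PowerSeries.mk fun k => C (N^[k] (N d)) e) * Ideal.Quotient.mk Q e
                + ∑ e ∈ s, algebraMap K (O ⧸ Q) (C d e) * Ideal.Quotient.mk Q e) := by
                  rw [← h2]
              _ = _ := by ring
          rw [h1, pow_succ']
          exact Ideal.mul_mem_mul (Ideal.mem_span_singleton_self _) (ih (N d))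
      have h0 : d - ∑ e ∈ s, i (PowerSeries.mk fun k => C (N^[k] d) e) * Ideal.Quotient.mk Q e
          ∈ (⊥ : Ideal (O ⧸ Q)) := by
        rw [← hkrull, Submodule.mem_iInf]
        exact fun n => hdelta n d
      exact sub_eq_zero.1 ((Submodule.mem_bot _).1 h0)
    let _ := i.toRingHom.toAlgebra
    show Module.Finite K⟦X⟧ (O ⧸ Q)
    classical
    refine ⟨⟨s.image (Ideal.Quotient.mk Q), ?_⟩⟩
    rw [eq_top_iff]
    rintro d -
    rw [main d]
    refine Submodule.sum_mem _ fun e he => ?_
    have : i (PowerSeries.mk fun k => C (N^[k] d) e) * Ideal.Quotient.mk Q e =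
      (PowerSeries.mk fun k => C (N^[k] d) e) • Ideal.Quotient.mk Q e := by
      rw [Algebra.smul_def]; rfl
    rw [this]
    exact Submodule.smul_mem _ _ (Submodule.subset_span (by
      simp only [Finset.coe_image]
      exact ⟨e, he, rfl⟩))
  obtain ⟨j, hj, -, -⟩ := hnorm (O ⧸ Q) i hinj hfin
  refine ⟨j.comp mk, ?_, ?_⟩
  · intro a ha
    show j (mk a) = 0
    have : mk a = 0 := Ideal.Quotient.eq_zero_iff_mem.2 (hIQ ha)
    rw [this, map_zero]
  · intro hle
    apply hxQ
    have h1 : j (mk x) = 0 := hle hxm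
    have h2 : mk x = 0 := hj (by rw [h1, map_zero])
    exact Ideal.Quotient.eq_zero_iff_mem.1 h2

end Pool.Agent.Helper819.DC.CSEL
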