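import Mathlib

set_option autoImplicit false

open PowerSeries IsLocalRing TensorProduct

universe u

namespace Pool.Agent.Helper819.DC

/-! ### coordinates: `K[[x,y]] = K⟦X⟧⟦X⟧ = K[[x]][[y]]`, `x = C X`, `y = X`; `P = ∏ K[[t]]` -/

/-- coefficientwise map `A[[x,y]] → A'[[x,y]]` -/
noncomputable def map2 {A A' : Type u} [CommRing A] [CommRing A'] (ψ : A →+* A') :
    A⟦X⟧⟦X⟧ →+* A'⟦X⟧⟦X⟧ :=
  PowerSeries.map (PowerSeries.map ψ)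

/-- coefficientwise map `∏ A[[t]] → ∏ A'[[t]]` -/
noncomputable def mapP {A A' : Type u} [CommRing A] [CommRing A'] {r : ℕ} (ψ : A →+* A') :
    (Fin r → A⟦X⟧) →+* (Fin r → A'⟦X⟧) :=
  RingHom.pi fun i => (PowerSeries.map ψ).comp (Pi.evalRingHom _ i)

theorem mapP_apply {A A' : Type u} [CommRing A] [CommRing A'] {r : ℕ} (ψ : A →+* A')
    (w : Fin r → A⟦X⟧) (i : Fin r) : mapP ψ w i = PowerSeries.map ψ (w i) := rfl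

/-- the partial derivative of `h ∈ A[[x]][[y]]` with respect to `x` -/
noncomputable def dx {A : Type u} [CommRing A] (h : A⟦X⟧⟦X⟧) : A⟦X⟧⟦X⟧ :=
  PowerSeries.mk fun n => d⁄dX A (PowerSeries.coeff n h)

/-- the partial derivative of `h ∈ A[[x]][[y]]` with respect to `y` -/
noncomputable def dy {A : Type u} [CommRing A] (h : A⟦X⟧⟦X⟧) : A⟦X⟧⟦X⟧ :=
  d⁄dX (A⟦X⟧) h

/-- the derivative on `∏ A[[t]]` -/
noncomputable def dP {A : Type u} [CommRing A] {r : ℕ} (w : Fin r → A⟦X⟧) : Fin r → A⟦X⟧ :=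
  fun i => d⁄dX A (w i)

/-- the member `f + ∑ s_k g_k` of the family with parameters `s_k ∈ A` -/
noncomputable def fam {K : Type u} [CommRing K] {τ : ℕ} (f : K⟦X⟧⟦X⟧) (g : Fin τ → K⟦X⟧⟦X⟧)
    {A : Type u} [CommRing A] [Algebra K A] (s : Fin τ → A) : A⟦X⟧⟦X⟧ :=
  map2 (algebraMap K A) f +
    ∑ k, PowerSeries.C (PowerSeries.C (s k)) * map2 (algebraMap K A) (g k)

/-- `I` contains all coefficients of `h` -/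
def In2 {A : Type u} [CommRing A] (I : Ideal A) (h : A⟦X⟧⟦X⟧) : Prop :=
  ∀ i j, PowerSeries.coeff i (PowerSeries.coeff j h) ∈ I

/-- `I` contains all coefficients of `w` -/
def InP {A : Type u} [CommRing A] {r : ℕ} (I : Ideal A) (w : Fin r → A⟦X⟧) : Prop :=
  ∀ i n, PowerSeries.coeff n (w i) ∈ I

/-- `Φ` lifts `φ` (`π : A → K` the residue map) -/
def Lifts {K A : Type u} [CommRing K] [CommRing A] [Algebra K A] (π : A →ₐ[K] K) {r : ℕ}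
    (φ : K⟦X⟧⟦X⟧ →ₐ[K] (Fin r → K⟦X⟧)) (Φ : A⟦X⟧⟦X⟧ →ₐ[A] (Fin r → A⟦X⟧)) : Prop :=
  ∀ h : A⟦X⟧⟦X⟧, mapP (π : A →+* K) (Φ h) = φ (map2 (π : A →+* K) h)

/-- basic facts, proved elsewhere -/
structure BaseFacts : Prop where
  /-- evaluation homs exist in complete algebras -/
  ev_exists : ∀ {A T : Type u} [CommRing A] [CommRing T] [Algebra A T] (I : Ideal T)
    [IsAdicComplete I T] (b : T) (_ : b ∈ I), ∃ Φ : A⟦X⟧ →ₐ[A] T, Φ X = b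
  /-- evaluation homs are unique in separated algebras -/
  ev_unique : ∀ {A T : Type u} [CommRing A] [CommRing T] [Algebra A T] (I : Ideal T)
    [IsHausdorff I T] (b : T) (_ : b ∈ I) (Φ Ψ : A⟦X⟧ →ₐ[A] T) (_ : Φ X = b) (_ : Ψ X = b), Φ = Ψ
  evm_exists : ∀ {σ : Type} [Finite σ] {K T : Type u} [CommRing K] [CommRing T] [Algebra K T]
    (I : Ideal T) [IsAdicComplete I T] (b : σ → T) (_ : ∀ i, b i ∈ I),
    ∃ Φ : MvPowerSeries σ K →ₐ[K] T, ∀ i, Φ (MvPowerSeries.X i) = b i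
  evm_unique : ∀ {σ : Type} [Finite σ] {K T : Type u} [CommRing K] [CommRing T] [Algebra K T]
    (I : Ideal T) [IsHausdorff I T] (b : σ → T) (_ : ∀ i, b i ∈ I)
    (Φ Ψ : MvPowerSeries σ K →ₐ[K] T) (_ : ∀ i, Φ (MvPowerSeries.X i) = b i)
    (_ : ∀ i, Ψ (MvPowerSeries.X i) = b i), Φ = Ψ
  complete_powerSeries : ∀ {A : Type u} [CommRing A] [IsLocalRing A] [IsNoetherianRing A]
    [IsAdicComplete (maximalIdeal A) A], IsAdicComplete (maximalIdeal (A⟦X⟧)) (A⟦X⟧)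
  complete_mvPowerSeries : ∀ {m : ℕ} {K : Type u} [Field K],
    IsAdicComplete (maximalIdeal (MvPowerSeries (Fin m) K)) (MvPowerSeries (Fin m) K)
  complete_powerSeries_field : ∀ {K : Type u} [Field K],
    IsAdicComplete (maximalIdeal (K⟦X⟧)) (K⟦X⟧)
  /-- algebra homs `A[[x,y]] → A[[t]]` are local -/
  hom_local : ∀ {A : Type u} [CommRing A] [IsLocalRing A] (Φ : A⟦X⟧⟦X⟧ →ₐ[A] A⟦X⟧),
    Φ (C X) ∈ maximalIdeal A⟦X⟧ ∧ Φ X ∈ maximalIdeal A⟦X⟧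
  /-- homs from `A[[x,y]]` to a noetherian local ring are determined by constants and `x, y` -/
  hom_unique : ∀ {A T : Type u} [CommRing A] [CommRing T] [IsLocalRing T] [IsNoetherianRing T]
    (Φ Ψ : A⟦X⟧⟦X⟧ →+* T) (_ : ∀ a : A, Φ (C (C a)) = Ψ (C (C a)))
    (_ : Φ (C X) ∈ maximalIdeal T) (_ : Φ X ∈ maximalIdeal T)
    (_ : Φ (C X) = Ψ (C X)) (_ : Φ X = Ψ X), Φ = Ψ
  /-- first order Taylor expansion -/
  taylor : ∀ {A T : Type u} [CommRing A] [CommRing T] [IsLocalRing T] [IsNoetherianRing T]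
    (Φ Ψ : A⟦X⟧⟦X⟧ →+* T) (_ : ∀ a : A, Φ (C (C a)) = Ψ (C (C a)))
    (_ : Φ (C X) ∈ maximalIdeal T) (_ : Φ X ∈ maximalIdeal T)
    (J : Ideal T) (_ : J ≤ maximalIdeal T) (a b : T) (_ : a ∈ J) (_ : b ∈ J)
    (_ : Ψ (C X) = Φ (C X) + a) (_ : Ψ X = Φ X + b) (h : A⟦X⟧⟦X⟧),
    Ψ h - (Φ h + Φ (dx h) * a + Φ (dy h) * b) ∈ J ^ 2
  /-- the chain rule -/
  chain : ∀ {A : Type u} [CommRing A] [IsLocalRing A] [IsNoetherianRing A]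
    (Φ : A⟦X⟧⟦X⟧ →ₐ[A] A⟦X⟧) (h : A⟦X⟧⟦X⟧),
    d⁄dX A (Φ h) = Φ (dx h) * d⁄dX A (Φ (C X)) + Φ (dy h) * d⁄dX A (Φ X)
  /-- coefficientwise membership is membership in the extended ideal -/
  mem_map_C : ∀ {A : Type u} [CommRing A] [IsNoetherianRing A] (I : Ideal A) (h : A⟦X⟧),
    h ∈ I.map (PowerSeries.C : A →+* A⟦X⟧) ↔ ∀ n, PowerSeries.coeff n h ∈ I

/-- toolkit, part A, proved elsewhere -/
structure ToolsA : Prop where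
  /-- parametrisations with given coordinates exist -/
  par_exists : ∀ {A : Type u} [CommRing A] [IsLocalRing A] [IsNoetherianRing A]
    [IsAdicComplete (maximalIdeal A) A] {r : ℕ} (x₀ y₀ : Fin r → A⟦X⟧)
    (_ : ∀ i, x₀ i ∈ maximalIdeal A⟦X⟧) (_ : ∀ i, y₀ i ∈ maximalIdeal A⟦X⟧),
    ∃ Φ : A⟦X⟧⟦X⟧ →ₐ[A] (Fin r → A⟦X⟧), Φ (C X) = x₀ ∧ Φ X = y₀
  par_local : ∀ {A : Type u} [CommRing A] [IsLocalRing A] {r : ℕ}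
    (Φ : A⟦X⟧⟦X⟧ →ₐ[A] (Fin r → A⟦X⟧)) (i : Fin r),
    Φ (C X) i ∈ maximalIdeal A⟦X⟧ ∧ Φ X i ∈ maximalIdeal A⟦X⟧
  /-- endomorphisms of `A[[x,y]]` -/
  end_exists : ∀ {A : Type u} [CommRing A] [IsLocalRing A] [IsNoetherianRing A]
    [IsAdicComplete (maximalIdeal A) A] (x₀ y₀ : A⟦X⟧⟦X⟧)
    (_ : x₀ ∈ maximalIdeal A⟦X⟧⟦X⟧) (_ : y₀ ∈ maximalIdeal A⟦X⟧⟦X⟧),
    ∃ Θ : A⟦X⟧⟦X⟧ →ₐ[A] A⟦X⟧⟦X⟧, Θ (C X) = x₀ ∧ Θ X = y₀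
  /-- parametrisations are compatible with base change (determined by their coordinates) -/
  push : ∀ {A A' : Type u} [CommRing A] [CommRing A'] [IsLocalRing A'] [IsNoetherianRing A']
    (ψ : A →+* A') {r : ℕ} (Φ : A⟦X⟧⟦X⟧ →ₐ[A] (Fin r → A⟦X⟧))
    (Φ' : A'⟦X⟧⟦X⟧ →ₐ[A'] (Fin r → A'⟦X⟧)) (_ : Φ' (C X) = mapP ψ (Φ (C X)))
    (_ : Φ' X = mapP ψ (Φ X)) (h : A⟦X⟧⟦X⟧), Φ' (map2 ψ h) = mapP ψ (Φ h)
  lifts_iff : ∀ {K A : Type u} [Field K] [CommRing A] [Algebra K A] (π : A →ₐ[K] K) {r : ℕ}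
    (φ : K⟦X⟧⟦X⟧ →ₐ[K] (Fin r → K⟦X⟧)) (Φ : A⟦X⟧⟦X⟧ →ₐ[A] (Fin r → A⟦X⟧)),
    Lifts π φ Φ ↔ (mapP (π : A →+* K) (Φ (C X)) = φ (C X) ∧ mapP (π : A →+* K) (Φ X) = φ X)

/-- toolkit, part B, proved elsewhere -/
structure ToolsB : Prop where
  in2_iff : ∀ {A : Type u} [CommRing A] [IsNoetherianRing A] (I : Ideal A) (h : A⟦X⟧⟦X⟧),
    In2 I h ↔ h ∈ I.map ((PowerSeries.C : A⟦X⟧ →+* A⟦X⟧⟦X⟧).comp (PowerSeries.C : A →+* A⟦X⟧))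
  inP_iff : ∀ {A : Type u} [CommRing A] [IsNoetherianRing A] (I : Ideal A) {r : ℕ}
    (w : Fin r → A⟦X⟧), InP I w ↔ ∀ i, w i ∈ I.map (PowerSeries.C : A →+* A⟦X⟧)
  /-- parametrisations preserve the filtration -/
  par_in : ∀ {A : Type u} [CommRing A] [IsNoetherianRing A] (I : Ideal A) {r : ℕ}
    (Φ : A⟦X⟧⟦X⟧ →ₐ[A] (Fin r → A⟦X⟧)) (h : A⟦X⟧⟦X⟧) (_ : In2 I h), InP I (Φ h)
  end_in : ∀ {A : Type u} [CommRing A] [IsNoetherianRing A] (I : Ideal A)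
    (Θ : A⟦X⟧⟦X⟧ →ₐ[A] A⟦X⟧⟦X⟧) (h : A⟦X⟧⟦X⟧) (_ : In2 I h), In2 I (Θ h)
  in2_mul : ∀ {A : Type u} [CommRing A] (I J : Ideal A) (h k : A⟦X⟧⟦X⟧)
    (_ : In2 I h) (_ : In2 J k), In2 (I * J) (h * k)
  inP_mul : ∀ {A : Type u} [CommRing A] (I J : Ideal A) {r : ℕ} (v w : Fin r → A⟦X⟧)
    (_ : InP I v) (_ : InP J w), InP (I * J) (v * w)
  in2_map : ∀ {K A : Type u} [Field K] [CommRing A] [IsLocalRing A] [Algebra K A] (π : A →ₐ[K] K)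
    (h : A⟦X⟧⟦X⟧), In2 (maximalIdeal A) h ↔ map2 (π : A →+* K) h = 0
  inP_map : ∀ {K A : Type u} [Field K] [CommRing A] [IsLocalRing A] [Algebra K A] (π : A →ₐ[K] K)
    {r : ℕ} (w : Fin r → A⟦X⟧), InP (maximalIdeal A) w ↔ mapP (π : A →+* K) w = 0

/-- toolkit, part C, proved elsewhere -/
structure ToolsC : Prop where
  chainP : ∀ {A : Type u} [CommRing A] [IsLocalRing A] [IsNoetherianRing A] {r : ℕ}
    (Φ : A⟦X⟧⟦X⟧ →ₐ[A] (Fin r → A⟦X⟧)) (h : A⟦X⟧⟦X⟧),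
    dP (Φ h) = Φ (dx h) * dP (Φ (C X)) + Φ (dy h) * dP (Φ X)
  taylorP : ∀ {A : Type u} [CommRing A] [IsLocalRing A] [IsNoetherianRing A] {r : ℕ}
    (Φ Ψ : A⟦X⟧⟦X⟧ →ₐ[A] (Fin r → A⟦X⟧)) (I : Ideal A) (_ : I ≤ maximalIdeal A)
    (a b : Fin r → A⟦X⟧) (_ : InP I a) (_ : InP I b) (_ : Ψ (C X) = Φ (C X) + a)
    (_ : Ψ X = Φ X + b) (h : A⟦X⟧⟦X⟧),
    InP (I ^ 2) (Ψ h - (Φ h + Φ (dx h) * a + Φ (dy h) * b))
  taylor2 : ∀ {A : Type u} [CommRing A] [IsLocalRing A] [IsNoetherianRing A]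
    (Θ Ξ : A⟦X⟧⟦X⟧ →ₐ[A] A⟦X⟧⟦X⟧) (_ : Θ (C X) ∈ maximalIdeal A⟦X⟧⟦X⟧)
    (_ : Θ X ∈ maximalIdeal A⟦X⟧⟦X⟧) (I : Ideal A) (_ : I ≤ maximalIdeal A)
    (a b : A⟦X⟧⟦X⟧) (_ : In2 I a) (_ : In2 I b) (_ : Ξ (C X) = Θ (C X) + a)
    (_ : Ξ X = Θ X + b) (h : A⟦X⟧⟦X⟧),
    In2 (I ^ 2) (Ξ h - (Θ h + Θ (dx h) * a + Θ (dy h) * b))
  /-- two families of coordinates congruent mod `I` give congruent homs -/
  par_congr : ∀ {A : Type u} [CommRing A] [IsLocalRing A] [IsNoetherianRing A] {r : ℕ}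
    (Φ Ψ : A⟦X⟧⟦X⟧ →ₐ[A] (Fin r → A⟦X⟧)) (I : Ideal A) (_ : I ≤ maximalIdeal A)
    (_ : InP I (Ψ (C X) - Φ (C X))) (_ : InP I (Ψ X - Φ X)) (h : A⟦X⟧⟦X⟧), InP I (Ψ h - Φ h)
  end_congr : ∀ {A : Type u} [CommRing A] [IsLocalRing A] [IsNoetherianRing A]
    (Θ Ξ : A⟦X⟧⟦X⟧ →ₐ[A] A⟦X⟧⟦X⟧) (_ : Θ (C X) ∈ maximalIdeal A⟦X⟧⟦X⟧)
    (_ : Θ X ∈ maximalIdeal A⟦X⟧⟦X⟧) (I : Ideal A) (_ : I ≤ maximalIdeal A)
    (_ : In2 I (Ξ (C X) - Θ (C X))) (_ : In2 I (Ξ X - Θ X)) (h : A⟦X⟧⟦X⟧), In2 I (Ξ h - Θ h)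

/-- toolkit, part D, proved elsewhere -/
structure ToolsD : Prop where
  /-- limits -/
  limA : ∀ {A : Type u} [CommRing A] [IsLocalRing A] [IsAdicComplete (maximalIdeal A) A]
    (w : ℕ → A) (_ : ∀ n, w (n + 1) - w n ∈ maximalIdeal A ^ n),
    ∃ l : A, ∀ n, l - w n ∈ maximalIdeal A ^ n
  lim2 : ∀ {A : Type u} [CommRing A] [IsLocalRing A] [IsAdicComplete (maximalIdeal A) A]
    (w : ℕ → A⟦X⟧⟦X⟧) (_ : ∀ n, In2 (maximalIdeal A ^ n) (w (n + 1) - w n)),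
    ∃ l : A⟦X⟧⟦X⟧, ∀ n, In2 (maximalIdeal A ^ n) (l - w n)
  limP : ∀ {A : Type u} [CommRing A] [IsLocalRing A] [IsAdicComplete (maximalIdeal A) A] {r : ℕ}
    (w : ℕ → (Fin r → A⟦X⟧)) (_ : ∀ n, InP (maximalIdeal A ^ n) (w (n + 1) - w n)),
    ∃ l : Fin r → A⟦X⟧, ∀ n, InP (maximalIdeal A ^ n) (l - w n)
  eqA : ∀ {A : Type u} [CommRing A] [IsLocalRing A] [IsAdicComplete (maximalIdeal A) A]
    (a : A) (_ : ∀ n, a ∈ maximalIdeal A ^ n), a = 0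
  eq2 : ∀ {A : Type u} [CommRing A] [IsLocalRing A] [IsAdicComplete (maximalIdeal A) A]
    (w : A⟦X⟧⟦X⟧) (_ : ∀ n, In2 (maximalIdeal A ^ n) w), w = 0
  eqP : ∀ {A : Type u} [CommRing A] [IsLocalRing A] [IsAdicComplete (maximalIdeal A) A] {r : ℕ}
    (w : Fin r → A⟦X⟧) (_ : ∀ n, InP (maximalIdeal A ^ n) w), w = 0
  map2_comp : ∀ {A A' A'' : Type u} [CommRing A] [CommRing A'] [CommRing A''] (ψ : A →+* A')
    (χ : A' →+* A'') (h : A⟦X⟧⟦X⟧), map2 χ (map2 ψ h) = map2 (χ.comp ψ) h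
  mapP_comp : ∀ {A A' A'' : Type u} [CommRing A] [CommRing A'] [CommRing A''] (ψ : A →+* A')
    (χ : A' →+* A'') {r : ℕ} (w : Fin r → A⟦X⟧), mapP χ (mapP ψ w) = mapP (χ.comp ψ) w
  map2_dx : ∀ {A A' : Type u} [CommRing A] [CommRing A'] (ψ : A →+* A') (h : A⟦X⟧⟦X⟧),
    map2 ψ (dx h) = dx (map2 ψ h)
  map2_dy : ∀ {A A' : Type u} [CommRing A] [CommRing A'] (ψ : A →+* A') (h : A⟦X⟧⟦X⟧),
    map2 ψ (dy h) = dy (map2 ψ h)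
  mapP_dP : ∀ {A A' : Type u} [CommRing A] [CommRing A'] (ψ : A →+* A') {r : ℕ}
    (w : Fin r → A⟦X⟧), mapP ψ (dP w) = dP (mapP ψ w)
  map2_fam : ∀ {K A A' : Type u} [Field K] [CommRing A] [CommRing A'] [Algebra K A] [Algebra K A']
    (ψ : A →ₐ[K] A') {τ : ℕ} (f : K⟦X⟧⟦X⟧) (g : Fin τ → K⟦X⟧⟦X⟧) (s : Fin τ → A),
    map2 (ψ : A →+* A') (fam f g s) = fam f g (fun k => ψ (s k))
  map2_fam_zero : ∀ {K A : Type u} [Field K] [CommRing A] [IsLocalRing A] [Algebra K A]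
    (π : A →ₐ[K] K) {τ : ℕ} (f : K⟦X⟧⟦X⟧) (g : Fin τ → K⟦X⟧⟦X⟧) (s : Fin τ → A)
    (_ : ∀ k, s k ∈ maximalIdeal A), map2 (π : A →+* K) (fam f g s) = f

/-- the toolkit -/
structure Tools : Prop extends ToolsA.{u}, ToolsB.{u}, ToolsC.{u}, ToolsD.{u}

end Pool.Agent.Helper819.DC
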