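import Pool.Agent.Helper819.DC.Core

set_option autoImplicit false

open PowerSeries IsLocalRing TensorProduct

universe u

namespace Pool.Agent.Helper819.DC


/-- parametrisations over `A` -/
abbrev Par (A : Type u) [CommRing A] (r : ℕ) : Type u := A⟦X⟧⟦X⟧ →ₐ[A] (Fin r → A⟦X⟧)

/-- endomorphisms of `A[[x,y]]` -/
abbrev End2 (A : Type u) [CommRing A] : Type u := A⟦X⟧⟦X⟧ →ₐ[A] A⟦X⟧⟦X⟧

/-- a plane curve singularity `f`, spanning set `g` of its Tjurina algebra, and the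
parametrisation `φ` of its normalisation -/
structure Setup (K : Type u) [Field K] (τ r : ℕ) where
  f : K⟦X⟧⟦X⟧
  g : Fin τ → K⟦X⟧⟦X⟧
  φ : Par K r
  hf : f ≠ 0
  ker : RingHom.ker φ = Ideal.span {f}
  /-- a conductor element -/
  d : K⟦X⟧⟦X⟧
  hd : ∀ i, φ d i ≠ 0
  cond : ∀ w, ∃ a, φ a = φ d * w
  span : ∀ h, ∃ (σ : Fin τ → K) (c a b : K⟦X⟧⟦X⟧),
    h = ∑ k, σ k • g k + c * f + a * dx f + b * dy f

/-- the delta invariant of a setup -/
noncomputable def Setup.delta {K : Type u} [Field K] {τ r : ℕ} (D : Setup K τ r) : ℕ :=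
  Module.finrank K ((Fin r → K⟦X⟧) ⧸ LinearMap.range D.φ.toLinearMap)

/-- the member of the family with parameters `s` -/
noncomputable abbrev Setup.F {K : Type u} [Field K] {τ r : ℕ} (D : Setup K τ r) {A : Type u}
    [CommRing A] [Algebra K A] (s : Fin τ → A) : A⟦X⟧⟦X⟧ := fam D.f D.g s

/-- `(s, Φ)` is a simultaneous parametrisation over `A` -/
structure SimPar {K : Type u} [Field K] {τ r : ℕ} (D : Setup K τ r) {A : Type u} [CommRing A]
    [IsLocalRing A] [Algebra K A] (π : A →ₐ[K] K) (s : Fin τ → A) (Φ : Par A r) : Prop where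
  mem : ∀ k, s k ∈ maximalIdeal A
  lifts : Lifts π D.φ Φ
  zero : Φ (D.F s) = 0

/-- a basis of the tangent space of simultaneous parametrisations modulo reparametrisations -/
structure TBasis {K : Type u} [Field K] {τ r : ℕ} (D : Setup K τ r) where
  m : ℕ
  σ : Fin m → Fin τ → K
  v : Fin m → Fin r → K⟦X⟧
  w : Fin m → Fin r → K⟦X⟧
  mem : ∀ j, ∑ k, σ j k • D.φ (D.g k) + D.φ (dx D.f) * v j + D.φ (dy D.f) * w j = 0
  span : ∀ (s : Fin τ → K) (a b : Fin r → K⟦X⟧),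
    ∑ k, s k • D.φ (D.g k) + D.φ (dx D.f) * a + D.φ (dy D.f) * b = 0 →
    ∃ (c : Fin m → K) (h : Fin r → K⟦X⟧), s = ∑ j, c j • σ j ∧
      a = ∑ j, c j • v j + h * dP (D.φ (C X)) ∧ b = ∑ j, c j • w j + h * dP (D.φ X)
  indep : ∀ (c : Fin m → K) (h : Fin r → K⟦X⟧), ∑ j, c j • σ j = 0 →
    ∑ j, c j • v j = h * dP (D.φ (C X)) → ∑ j, c j • w j = h * dP (D.φ X) → c = 0

/-- the base of the universal simultaneous parametrisation -/
abbrev OO (K : Type u) (m : ℕ) : Type u := MvPowerSeries (Fin m) K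

/-- a universal simultaneous parametrisation -/
structure UnivFam {K : Type u} [Field K] {τ r : ℕ} (D : Setup K τ r) (T : TBasis D) where
  π : OO K T.m →ₐ[K] K
  s : Fin τ → OO K T.m
  Φ : Par (OO K T.m) r
  sim : SimPar D π s Φ
  lin_s : ∀ k, s k - ∑ j, T.σ j k • (MvPowerSeries.X j : OO K T.m) ∈ maximalIdeal (OO K T.m) ^ 2
  lin_x : InP (maximalIdeal (OO K T.m) ^ 2) (Φ (C X) - (mapP (algebraMap K (OO K T.m)) (D.φ (C X)) +
    ∑ j, (MvPowerSeries.X j : OO K T.m) • mapP (algebraMap K (OO K T.m)) (T.v j)))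
  lin_y : InP (maximalIdeal (OO K T.m) ^ 2) (Φ X - (mapP (algebraMap K (OO K T.m)) (D.φ X) +
    ∑ j, (MvPowerSeries.X j : OO K T.m) • mapP (algebraMap K (OO K T.m)) (T.w j)))

end Pool.Agent.Helper819.DC
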