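import Pool.Agent.Helper819.DC.Core2

set_option autoImplicit false

open PowerSeries IsLocalRing TensorProduct

universe u

namespace Pool.Agent.Helper819.DC


/-- the delta invariant of a `k`-algebra: the dimension of (normalisation)/(ring) -/
noncomputable def delta (k A : Type u) [Field k] [CommRing A] [Algebra k A] : Cardinal.{u} :=
  Module.rank k (integralClosure A (FractionRing A) ⧸
    LinearMap.range (Algebra.linearMap A (integralClosure A (FractionRing A))))

/-- the fibre over `E` of the family defined by `G` over `A` -/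
def Fibre (A E : Type u) [CommRing A] [CommRing E] [Algebra A E] (G : A⟦X⟧⟦X⟧) : Type u :=
  E ⊗[A] (A⟦X⟧⟦X⟧ ⧸ Ideal.span {G})

noncomputable instance (A E : Type u) [CommRing A] [CommRing E] [Algebra A E] (G : A⟦X⟧⟦X⟧) :
    CommRing (Fibre A E G) :=
  inferInstanceAs (CommRing (E ⊗[A] (A⟦X⟧⟦X⟧ ⧸ Ideal.span {G})))

noncomputable instance (A E : Type u) [CommRing A] [CommRing E] [Algebra A E] (G : A⟦X⟧⟦X⟧) :
    Algebra E (Fibre A E G) :=
  inferInstanceAs (Algebra E (E ⊗[A] (A⟦X⟧⟦X⟧ ⧸ Ideal.span {G})))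

end Pool.Agent.Helper819.DC
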