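import Pool.Agent.Helper819.DC.Core3

set_option autoImplicit false

open PowerSeries IsLocalRing TensorProduct

universe u

namespace Pool.Agent.Helper819.DC


/-- Abstract situation: `R` is a flat family over the discrete valuation ring `B` whose special
fibre is the curve with ring `κ(R) ⊆ P = ∏ K[[t]]`; `AE = R[1/v]` is the generic fibre. -/
structure Sit (K B E R AE : Type u) [Field K] [CommRing B] [IsDomain B]
    [IsDiscreteValuationRing B] [Algebra K B] [Field E] [Algebra B E] [CommRing R] [Algebra B R]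
    [CommRing AE] [Algebra E AE] (r n : ℕ) where
  hr : 0 < r
  π : B →ₐ[K] K
  v : B
  hv : maximalIdeal B = Ideal.span {v}
  κ : R →+* (Fin r → K⟦X⟧)
  hκ : ∀ b, κ (algebraMap B R b) = algebraMap K (Fin r → K⟦X⟧) (π b)
  ker : RingHom.ker κ = Ideal.span {algebraMap B R v}
  nzd : algebraMap B R v ∈ nonZeroDivisors R
  c : R
  hc : ∀ i, κ c i ≠ 0
  cond : ∀ w, ∃ a, κ a = κ c * w
  S : Submodule K (Fin r → K⟦X⟧)
  hS : ∀ x, x ∈ S ↔ ∃ a, κ a = x
  hn : Module.finrank K ((Fin r → K⟦X⟧) ⧸ S) = n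
  ξ : R
  hξ : ∀ i, κ ξ i ≠ 0 ∧ PowerSeries.constantCoeff (κ ξ i) = 0
  hrank : delta E AE = (n : Cardinal)

end Pool.Agent.Helper819.DC
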