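import Pool.Agent.Helper819.DC.Core3

set_option autoImplicit false

open PowerSeries IsLocalRing TensorProduct

universe u

namespace Pool.Agent.Helper819.DC


namespace IM2

/-- an arc in the base of the universal family with immersed generic member -/
theorem exists_immersed_arc (hT : Tools.{u}) (hB : BaseFacts.{u}) {K : Type u} [Field K]
    {τ r : ℕ} (D : Setup K τ r) (T : TBasis D) (U : UnivFam D T)
    {B : Type u} [CommRing B] [IsDomain B] [IsDiscreteValuationRing B]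
    [IsAdicComplete (maximalIdeal B) B] [Algebra K B] (π : B →ₐ[K] K) (v : B)
    (hv : maximalIdeal B = Ideal.span {v})
    (hrho : ∀ (ρ : B⟦X⟧ →ₐ[B] B⟦X⟧) (_ : PowerSeries.map (π : B →+* K) (ρ X) = X),
      Function.Bijective ρ)
    (hchain : ∀ (ρ : B⟦X⟧ →ₐ[B] B⟦X⟧) (w : B⟦X⟧), d⁄dX B (ρ w) = ρ (d⁄dX B w) * d⁄dX B (ρ X))
    (hpush : ∀ ψ : OO K T.m →ₐ[K] B, ∃ Φ' : Par B r,
      (∀ h, Φ' (map2 (ψ : OO K T.m →+* B) h) = mapP (ψ : OO K T.m →+* B) (U.Φ h)) ∧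
        SimPar D π (fun k => ψ (U.s k)) Φ')
    (hu2 : ∀ (s : Fin τ → B) (Ψ : Par B r) (_ : SimPar D π s Ψ),
      ∃ (β : OO K T.m →ₐ[K] B) (ρ : Fin r → (B⟦X⟧ →ₐ[B] B⟦X⟧)),
        (∀ i, PowerSeries.map (π : B →+* K) (ρ i X) = X) ∧ (∀ j, β (U.s j) = s j) ∧
        (Ψ (C X) = fun i => ρ i (mapP (β : OO K T.m →+* B) (U.Φ (C X)) i)) ∧
        (Ψ X = fun i => ρ i (mapP (β : OO K T.m →+* B) (U.Φ X) i)))
    (himm : ∃ (s : Fin τ → B) (Φ : Par B r), SimPar D π s Φ ∧ ∃ (k : ℕ) (a b : Fin r → B⟦X⟧),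
      a * dP (Φ (C X)) + b * dP (Φ X) = fun _ => C (v ^ k)) :
    ∃ (β₀ : OO K T.m →ₐ[K] B) (Φ₀ : Par B r),
      (∀ h, Φ₀ (map2 (β₀ : OO K T.m →+* B) h) = mapP (β₀ : OO K T.m →+* B) (U.Φ h)) ∧
      SimPar D π (fun k => β₀ (U.s k)) Φ₀ ∧
      ∃ (k : ℕ) (a b : Fin r → B⟦X⟧),
        a * dP (Φ₀ (C X)) + b * dP (Φ₀ X) = fun _ => C (v ^ k) := by
  obtain ⟨s, Φ, hsim, k, a, b, hab⟩ := himm
  obtain ⟨β, ρ, hρ, hβ, hx, hy⟩ := hu2 s Φ hsim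
  obtain ⟨Φ₀, h0, hs0⟩ := hpush β
  have hxm : map2 (β : OO K T.m →+* B) (C X) = C X := by
    simp [map2]
  have hym : map2 (β : OO K T.m →+* B) X = X := by
    simp [map2]
  have hx0 : Φ₀ (C X) = mapP (β : OO K T.m →+* B) (U.Φ (C X)) := by
    have := h0 (C X)
    rwa [hxm] at this
  have hy0 : Φ₀ X = mapP (β : OO K T.m →+* B) (U.Φ X) := by
    have := h0 X
    rwa [hym] at this
  have hbij : ∀ i, Function.Bijective (ρ i) := fun i => hrho (ρ i) (hρ i)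
  choose a0 ha0 using fun i => (hbij i).2 (a i * d⁄dX B (ρ i X))
  choose b0 hb0 using fun i => (hbij i).2 (b i * d⁄dX B (ρ i X))
  refine ⟨β, Φ₀, h0, hs0, k, a0, b0, ?_⟩
  funext i
  apply (hbij i).1
  have hi : a i * d⁄dX B (Φ (C X) i) + b i * d⁄dX B (Φ X i) = C (v ^ k) := congrFun hab i
  rw [hx, hy] at hi
  simp only at hi
  rw [hchain (ρ i) (mapP (β : OO K T.m →+* B) (U.Φ (C X)) i),
    hchain (ρ i) (mapP (β : OO K T.m →+* B) (U.Φ X) i)] at hi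
  have hC : ρ i (C (v ^ k)) = C (v ^ k) := (ρ i).commutes (v ^ k)
  change ρ i (a0 i * d⁄dX B (Φ₀ (C X) i) + b0 i * d⁄dX B (Φ₀ X i)) = ρ i (C (v ^ k))
  rw [hC, ← hi, map_add, map_mul, map_mul, ha0, hb0, hx0, hy0]
  ring

end IM2

end Pool.Agent.Helper819.DC

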